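import Pool.Agent.X195.GI7

set_option autoImplicit false

/-!
For every `r` a finite free `G`-complex with index one whose `r`-th barycentric subdivision still has
cross-index two.
-/

namespace Pool.Agent.X195.GI

open Set Topology Filter
open scoped Pointwise BigOperators

variable {G : Type} [Group G]

/-- the order complex of a free `G`-poset is free -/
theorem Free'_Delta [Fintype G] (P : GPoset G) (h : P.IsFree) : P.Delta.Free' := by
  rintro σ ⟨-, hσ⟩ g v hv hgv
  -- a comparison between `v` and `g v` forces equality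
  have key : ∀ (a : G) (x : P.E), x ≤ a • x → a = 1 := by
    intro a x hx
    have h1 : ∀ n : ℕ, a • x ≤ a ^ (n + 1) • x := by
      intro n
      induction n with
      | zero => rw [zero_add, pow_one]
      | succ n ih =>
        refine ih.trans ?_
        have := P.mono (a ^ (n + 1)) _ _ hx
        rwa [← mul_smul, ← pow_succ] at this
    have h2 := h1 (orderOf a - 1)
    rw [Nat.sub_add_cancel (orderOf_pos a), pow_orderOf_eq_one, one_smul] at h2
    exact h a x (le_antisymm h2 hx)
  by_cases hne : v = g • v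
  · exact h g v hne.symm
  · rcases hσ hv hgv hne with h1 | h1
    · exact key g v h1
    · have h2 : ∀ x : P.E, g • x ≤ x → g⁻¹ = 1 := by
        intro x hx
        refine key g⁻¹ (g • x) ?_
        rw [inv_smul_smul]
        exact hx
      exact inv_eq_one.mp (h2 v h1)

/-- the construction for iterated subdivisions -/
theorem main_sd (G : Type) [Group G] [Fintype G] [Nontrivial G] (r : ℕ) :
    ∃ K : GComplex G, K.IsFree ∧ K.HasTopMap (Q G 1).Delta ∧
      (∀ j < 1, ¬ K.HasTopMap (Q G j).Delta) ∧ (GComplex.sd^[r] K).F.HasMap (Q G 2) ∧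
      ∀ j < 2, ¬ (GComplex.sd^[r] K).F.HasMap (Q G j) := by
  obtain ⟨s, hs⟩ := exists_ne (1 : G)
  have hm : 2 ≤ orderOf s := by
    have h1 := orderOf_pos s
    have h2 : orderOf s ≠ 1 := fun h => hs (orderOf_eq_one_iff.mp h)
    omega
  let d : ℕ := 4 * (2 ^ (r + 1) * orderOf s) + 1
  let X := (sp d).X s
  let P := X.sum (Q G 1)
  have hXfree : X.IsFree := (sp d).X_free s
  refine ⟨P.Delta, (Free'_Delta P (GPoset.sum_free hXfree (Q_free G 1))).free, ?_, ?_, ?_, ?_⟩
  · refine GComplex.HasTopMap.trans (Delta_sum X (Q G 1)).topMap (GComplex.sum_hasTopMap ?_ ?_)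
    · exact (sp d).ind_Delta s
    · exact (Q_mono le_rfl).simpMap.topMap
  · intro j hj h
    exact no_topMap G hj (GComplex.HasTopMap.trans (GPoset.sum_inr X (Q G 1)).simpMap.topMap h)
  · exact GPoset.HasMap.trans (sd_iterate_map P r)
      (GPoset.sum_hasMap ((sp d).X_map s) (Q_mono (by omega)))
  · intro j hj h
    have h1 : (GComplex.sd^[r] P.Delta).F.HasMap (Q G 1) :=
      GPoset.HasMap.trans h (Q_mono (by omega))
    have h2 := Coc.descend_iterate r (Coc.comap h1 (Coc.ofQ s))
    have h3 := Coc.comap (GPoset.sum_inl X (Q G 1)) h2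
    refine sp_no_coc s (orderOf s) hm d _ ?_ h3
    show 4 * (2 ^ (r + 1) * (orderOf s : ℤ)) < ((4 * (2 ^ (r + 1) * orderOf s) + 1 : ℕ) : ℤ)
    push_cast
    linarith

end Pool.Agent.X195.GI
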