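import Pool.Agent.X195.Braid4

set_option autoImplicit false

open Relation

namespace Pool.Agent.X195.Braid

universe u v

variable {S : Type u} {M : CoxeterMatrix S} {α : List S}

lemma graph_walk {n : ℕ} : ∀ {β : ℕ → ℤ → Option S}, IsWalk (adjO M) n β →
    ∀ u v : braidClass M α, β 0 = fn u.1 → β n = fn v.1 →
    ∃ w : (braidGraph M α).Walk u v, w.length = n := by
  induction n with
  | zero =>
    intro β _ u v hu hv
    have : u = v := Subtype.ext (fn_inj (hu.symm.trans hv))
    subst this
    exact ⟨SimpleGraph.Walk.nil, rfl⟩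
  | succ n ih =>
    intro β hw u v hu hv
    obtain ⟨q, hq, h2⟩ := hw 0 (Nat.succ_pos n)
    rw [hu] at hq
    obtain ⟨γ, h3, h4, -⟩ := move_of_av hq
    have hγ : γ ∈ braidClass M α := ReflTransGen.tail u.2 h3
    obtain ⟨w, hw2⟩ := ih (β := fun i => β (1 + i)) (hw.shift 1) ⟨γ, hγ⟩ v
      (by show β (1 + 0) = fn γ; rw [h4, ← hu]; exact h2)
      (by show β (1 + n) = fn v.1; rw [add_comm]; exact hv)
    exact ⟨SimpleGraph.Walk.cons (show (braidGraph M α).Adj u ⟨γ, hγ⟩ from h3) w, by simp [hw2]⟩

lemma walk_fn {u v : braidClass M α} (w : (braidGraph M α).Walk u v) :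
    ∃ β, IsWalk (adjO M) w.length β ∧ β 0 = fn u.1 ∧ β w.length = fn v.1 := by
  refine ⟨fun i => fn (w.getVert i).1, fun i hi => ?_, by simp, by simp⟩
  have h : BraidMove M (w.getVert i).1 (w.getVert (i + 1)).1 := w.adj_getVert_succ hi
  obtain ⟨l, r, s, t, h1, h2, h3⟩ := h
  refine ⟨l.length, ?_, ?_⟩
  · show Av _ _ (fn (w.getVert i).1)
    rw [h2]; exact (fn_move h1).1
  · show fn (w.getVert (i + 1)).1 = mv _ (fn (w.getVert i).1)
    rw [h2, h3]; exact (fn_move h1).2

/-- the number of central positions in which two words of the class differ -/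
noncomputable def ham (M : CoxeterMatrix S) (α : List S) (u v : List S) : ℕ :=
  (DD (adjO M) (fn '' braidClass M α) (fn u) (fun p => fn v (p + 1))).ncard

lemma SS_finite : (SS (adjO M) (fn '' braidClass M α)).Finite := by
  rw [shadows_eq]
  exact (shadows_finite α).image _

lemma SS_ncard : (SS (adjO M) (fn '' braidClass M α)).ncard = (shadows M α).ncard := by
  rw [shadows_eq]
  exact Set.ncard_image_of_injective _ Nat.cast_injective

variable {W : Type v} [Group W] (cs : CoxeterSystem M W)

include cs in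
lemma edist_eq (hM : TypeLambda M) (hα : cs.IsReduced α) (u v : braidClass M α) :
    (braidGraph M α).edist u v = ham M α u.1 v.1 := by
  have hC := isClass cs hα
  have hu : fn u.1 ∈ fn '' braidClass M α := ⟨u.1, u.2, rfl⟩
  have hv : fn v.1 ∈ fn '' braidClass M α := ⟨v.1, v.2, rfl⟩
  apply le_antisymm
  · obtain ⟨β, hβ, h0, hn⟩ := exists_walk (nice hM) hC SS_finite hu hv
    obtain ⟨w, hw⟩ := graph_walk hβ u v h0 hn
    rw [show ham M α u.1 v.1 = w.length from hw.symm]
    exact w.edist_le
  · refine le_iInf fun w => ?_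
    obtain ⟨β, hβ, h0, hn⟩ := walk_fn w
    have := walk_ge (nice hM) hC SS_finite hβ (h0 ▸ hu) _ le_rfl
    rw [h0, hn] at this
    exact_mod_cast this

include cs in
/-- The diameter of the braid graph is the number of braid shadows of the class. -/
theorem ediam_eq (hM : TypeLambda M) (hα : cs.IsReduced α) :
    (braidGraph M α).ediam = (shadows M α).ncard := by
  have hC := isClass cs hα
  apply le_antisymm
  · refine SimpleGraph.ediam_le_of_edist_le fun u v => ?_
    rw [edist_eq cs hM hα, ← SS_ncard]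
    have := Set.ncard_le_ncard (s := DD (adjO M) (fn '' braidClass M α) (fn u.1)
      (fun p => fn v.1 (p + 1))) (fun p hp => hp.1) (SS_finite (M := M) (α := α))
    exact_mod_cast this
  · obtain ⟨_, ⟨x, hx, rfl⟩, _, ⟨y, hy, rfl⟩, hxy⟩ :=
      exists_antipodal (nice hM) hC SS_finite ⟨fn α, α, ReflTransGen.refl, rfl⟩
    have h1 := SimpleGraph.edist_le_ediam (G := braidGraph M α) (u := ⟨x, hx⟩) (v := ⟨y, hy⟩)
    rw [edist_eq cs hM hα] at h1
    have h2 : ham M α x y = (shadows M α).ncard := by
      rw [← SS_ncard]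
      unfold ham
      congr 1
      ext p
      exact ⟨fun h => h.1, fun h => ⟨h, hxy p h⟩⟩
    rw [h2] at h1
    exact h1

include cs in
theorem diam_eq (hM : TypeLambda M) (hα : cs.IsReduced α) :
    (braidGraph M α).diam = (shadows M α).ncard := by
  rw [SimpleGraph.diam, ediam_eq cs hM hα, ENat.toNat_natCast]

include cs in
lemma dist_eq (hM : TypeLambda M) (hα : cs.IsReduced α) (u v : braidClass M α) :
    (braidGraph M α).dist u v = ham M α u.1 v.1 := by
  rw [SimpleGraph.dist, edist_eq cs hM hα, ENat.toNat_natCast]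

/-- the hypercube graph: adjacent when exactly one coordinate differs -/
def cube (n : ℕ) : SimpleGraph (Fin n → Bool) where
  Adj x y := hammingDist x y = 1
  symm := ⟨fun x y h => by rw [hammingDist_comm]; exact h⟩
  loopless := ⟨fun x h => by simp at h⟩

lemma cube_walk {n : ℕ} (k : ℕ) : ∀ x y : Fin n → Bool, hammingDist x y = k →
    ∃ w : (cube n).Walk x y, w.length = k := by
  induction k with
  | zero =>
    intro x y h
    rw [hammingDist_eq_zero] at h
    subst h
    exact ⟨SimpleGraph.Walk.nil, rfl⟩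
  | succ k ih =>
    intro x y h
    have hpos : 0 < hammingDist x y := by omega
    rw [hammingDist_pos] at hpos
    obtain ⟨i, hi⟩ := Function.ne_iff.mp hpos
    have h1 : hammingDist x (Function.update x i (y i)) = 1 := by
      rw [hammingDist, Finset.card_eq_one]
      refine ⟨i, ?_⟩
      ext j
      by_cases hj : j = i
      · subst hj; simpa using hi
      · simp [Function.update_of_ne hj, hj]
    have h2 : hammingDist (Function.update x i (y i)) y = k := by
      have e : (Finset.univ.filter fun j => Function.update x i (y i) j ≠ y j) =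
          (Finset.univ.filter fun j => x j ≠ y j).erase i := by
        ext j
        by_cases hj : j = i
        · subst hj; simp
        · simp [Function.update_of_ne hj, hj]
      rw [hammingDist, e, Finset.card_erase_of_mem (by simpa using hi)]
      have h3 : (Finset.univ.filter fun j => x j ≠ y j).card = k + 1 := h
      omega
    obtain ⟨w, hw⟩ := ih _ y h2
    exact ⟨SimpleGraph.Walk.cons (show (cube n).Adj _ _ from h1) w, by simp [hw]⟩

lemma cube_dist {n : ℕ} (x y : Fin n → Bool) : (cube n).dist x y = hammingDist x y := by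
  obtain ⟨w, hw⟩ := cube_walk _ x y rfl
  apply le_antisymm
  · rw [← hw]; exact SimpleGraph.dist_le w
  · obtain ⟨w', hw'⟩ := w.reachable.exists_walk_length_eq_dist
    rw [← hw']
    clear hw' hw w
    induction w' with
    | nil => simp
    | @cons a b c h p ih =>
      have h1 : hammingDist a b = 1 := h
      have := hammingDist_triangle a b c
      rw [SimpleGraph.Walk.length_cons]
      omega

/-- `G` embeds isometrically into the hypercube of dimension `n` -/
def EmbedsInCube {V : Type*} (G : SimpleGraph V) (n : ℕ) : Prop :=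
  ∃ f : V → (Fin n → Bool), ∀ u v, (cube n).dist (f u) (f v) = G.dist u v

include cs in
theorem embeds (hM : TypeLambda M) (hα : cs.IsReduced α) :
    EmbedsInCube (braidGraph M α) (shadows M α).ncard := by
  classical
  have hC := isClass cs hα
  have hfin := shadows_finite (M := M) α
  have : Finite (shadows M α) := hfin
  have e : Fin (shadows M α).ncard ≃ shadows M α :=
    (Finite.equivFinOfCardEq (Nat.card_coe_set_eq _)).symm
  have hS : ∀ k, (((e k : ℕ) : ℤ)) ∈ SS (adjO M) (fn '' braidClass M α) := fun k => by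
    rw [shadows_eq]; exact ⟨_, (e k).2, rfl⟩
  have hpair := fun k => ep_pair (nice hM) hC (hS k)
  choose a b hab he using hpair
  refine ⟨fun u k => decide (fn u.1 (((e k : ℕ) : ℤ) + 1) = a k), fun u v => ?_⟩
  rw [dist_eq cs hM hα, cube_dist]
  have hinj : Function.Injective fun k => (((e k : ℕ) : ℤ)) := fun k l h =>
    e.injective (Subtype.ext (Nat.cast_injective (R := ℤ) h))
  have himg : DD (adjO M) (fn '' braidClass M α) (fn u.1) (fun p => fn v.1 (p + 1)) =
      (fun k => (((e k : ℕ) : ℤ))) '' {k | decide (fn u.1 (((e k : ℕ) : ℤ) + 1) = a k) ≠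
        decide (fn v.1 (((e k : ℕ) : ℤ) + 1) = a k)} := by
    ext p
    have hval : ∀ k, fn u.1 (((e k : ℕ) : ℤ) + 1) ≠ fn v.1 (((e k : ℕ) : ℤ) + 1) ↔
        decide (fn u.1 (((e k : ℕ) : ℤ) + 1) = a k) ≠
          decide (fn v.1 (((e k : ℕ) : ℤ) + 1) = a k) := by
      intro k
      have hne : a k ≠ b k := fun h => (nice hM).irrefl (h ▸ hab k)
      have hu : fn u.1 (((e k : ℕ) : ℤ) + 1) ∈ ({a k, b k} : Set (Option S)) := by
        rw [← he k]; exact mem_ep (C := fn '' braidClass M α) (X := fn u.1) ⟨u.1, u.2, rfl⟩ _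
      have hv : fn v.1 (((e k : ℕ) : ℤ) + 1) ∈ ({a k, b k} : Set (Option S)) := by
        rw [← he k]; exact mem_ep (C := fn '' braidClass M α) (X := fn v.1) ⟨v.1, v.2, rfl⟩ _
      rcases hu with hu | hu <;> rcases hv with hv | hv <;> rw [hu, hv] <;>
        simp [hne, hne.symm]
    constructor
    · rintro ⟨hp, hne⟩
      have hp' := hp
      rw [shadows_eq] at hp'
      obtain ⟨n, hn, rfl⟩ := hp'
      obtain ⟨k, hk⟩ := e.surjective ⟨n, hn⟩
      refine ⟨k, ?_, by show ((e k : ℕ) : ℤ) = n; rw [hk]⟩
      show _ ≠ _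
      rw [← hval, hk]
      exact hne
    · rintro ⟨k, hk, rfl⟩
      exact ⟨hS k, (hval k).mpr hk⟩
  unfold ham
  rw [himg, Set.ncard_image_of_injective _ hinj, hammingDist, ← Set.ncard_coe_finset]
  congr 1
  ext k
  simp

include cs in
/-- The isometric dimension equals the diameter. -/
theorem isLeast (hM : TypeLambda M) (hα : cs.IsReduced α) :
    IsLeast {n | EmbedsInCube (braidGraph M α) n} (shadows M α).ncard := by
  refine ⟨embeds cs hM hα, ?_⟩
  rintro n ⟨f, hf⟩
  have hC := isClass cs hα
  obtain ⟨_, ⟨x, hx, rfl⟩, _, ⟨y, hy, rfl⟩, hxy⟩ :=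
    exists_antipodal (nice hM) hC SS_finite ⟨fn α, α, ReflTransGen.refl, rfl⟩
  have h2 : ham M α x y = (shadows M α).ncard := by
    rw [← SS_ncard]
    unfold ham
    congr 1
    ext p
    exact ⟨fun h => h.1, fun h => ⟨h, hxy p h⟩⟩
  have h3 := hf ⟨x, hx⟩ ⟨y, hy⟩
  rw [dist_eq cs hM hα, h2, cube_dist] at h3
  rw [← h3]
  simpa using hammingDist_le_card_fintype (x := f ⟨x, hx⟩) (y := f ⟨y, hy⟩)

end Pool.Agent.X195.Braid
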