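import Pool.Agent.X195.GI3

set_option autoImplicit false

/-!
The recursive construction: finitely many disjoint copies of a twisted order, and new maximal
elements each lying above two elements of different copies.
-/

namespace Pool.Agent.X195.GI

open Set Topology Filter
open scoped Pointwise BigOperators

/-- attachments of new maximal elements -/
structure Att (P I Y : Type) where
  i : Y → Bool → I
  a : Y → Bool → P
  e : Y → Bool → ℤ
  ne : ∀ y, i y true ≠ i y false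

theorem Att.inj {P I Y : Type} (A : Att P I Y) {y : Y} {b b' : Bool} (h : A.i y b = A.i y b') :
    b = b' := by
  cases b <;> cases b'
  · rfl
  · exact absurd h.symm (A.ne y)
  · exact absurd h (A.ne y)
  · rfl

/-- the relation of the extension step -/
def stepR {P I Y : Type} {k : ℕ} (T : Tw P k) (A : Att P I Y) :
    (I × P) ⊕ Y → (I × P) ⊕ Y → ℤ → Prop
  | .inl x, .inl y, c => x.1 = y.1 ∧ T.R x.2 y.2 c
  | .inl x, .inr y, c => ∃ b, A.i y b = x.1 ∧ T.R x.2 (A.a y b) (c - A.e y b)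
  | .inr x, .inr y, c => x = y ∧ c = 0
  | .inr _, .inl _, _ => False

/-- the extension step -/
def Tw.step {P I Y : Type} {k : ℕ} (T : Tw P k) (A : Att P I Y) : Tw ((I × P) ⊕ Y) (k + 1) where
  R := stepR T A
  refl := by
    rintro (x | x)
    · exact ⟨rfl, T.refl _⟩
    · exact ⟨rfl, rfl⟩
  trans := by
    rintro (x | x) (y | y) (z | z) c d h1 h2
    · exact ⟨h1.1.trans h2.1, T.trans h1.2 h2.2⟩
    · obtain ⟨b, hb1, hb2⟩ := h2
      refine ⟨b, hb1.trans h1.1.symm, ?_⟩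
      have := T.trans h1.2 hb2
      rwa [show c + (d - A.e z b) = c + d - A.e z b by ring] at this
    · exact absurd h2 id
    · obtain ⟨rfl, rfl⟩ := h2
      rwa [add_zero]
    · exact absurd h1 id
    · exact absurd h1 id
    · exact absurd h2 id
    · exact ⟨h1.1.trans h2.1, by rw [h1.2, h2.2, add_zero]⟩
  uniq := by
    rintro (x | x) (y | y) c d h1 h2
    · exact T.uniq h1.2 h2.2
    · obtain ⟨b, hb1, hb2⟩ := h1
      obtain ⟨b', hb1', hb2'⟩ := h2
      have hbb : b = b' := A.inj (hb1.trans hb1'.symm)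
      subst hbb
      have := T.uniq hb2 hb2'
      linarith
    · exact absurd h1 id
    · rw [h1.2, h2.2]
  rk := fun x => match x with
    | .inl x => T.rk x.2
    | .inr _ => k + 1
  rk_lt := by
    rintro (x | x) (y | y) c h
    · rcases T.rk_lt h.2 with h' | h'
      · exact Or.inl (congrArg Sum.inl (Prod.ext h.1 h'))
      · exact Or.inr h'
    · exact Or.inr (Nat.lt_succ_of_le (T.rk_le _))
    · exact absurd h id
    · exact Or.inl (congrArg Sum.inr h.1)
  rk_le := by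
    rintro (x | x)
    · exact (T.rk_le x.2).trans (Nat.le_succ k)
    · exact le_rfl

/-- the one-point twisted order -/
def Tw.pt : Tw Unit 0 where
  R _ _ c := c = 0
  refl _ := rfl
  trans h1 h2 := by rw [h1, h2, add_zero]
  uniq h1 h2 := h1.trans h2.symm
  rk _ := 0
  rk_lt _ := Or.inl rfl
  rk_le _ := le_rfl

variable {G : Type} [Group G]

/-! ### Scheme A: simplicial maps -/

theorem schemeA (G : Type) [Group G] [Fintype G] (s : G) (hs : s ≠ 1) (n : ℕ) (k : ℕ) :
    ∃ (P : Type) (_ : Fintype P) (T : Tw P k), ∀ ψ : (T.X s).E → QT G n,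
      (∀ (g : G) (x : (T.X s).E), ψ (g • x) = g • ψ x) →
      (∀ x y : (T.X s).E, x ≤ y → (ψ x).2 = (ψ y).2 → ψ x = ψ y) →
      ∃ (p : P) (S : Finset (Fin (n + 1))), k + 1 ≤ S.card ∧
        ∀ κ ∈ S, ∃ z : (T.X s).E, z ≤ T.el s 1 p ∧ (ψ z).2 = κ := by
  classical
  induction k with
  | zero =>
    refine ⟨Unit, inferInstance, Tw.pt, fun ψ _ _ => ⟨(), {(ψ (Tw.pt.el s 1 ())).2}, ?_, ?_⟩⟩
    · simp
    · intro κ hκ
      rw [Finset.mem_singleton] at hκ
      exact ⟨Tw.pt.el s 1 (), le_rfl, hκ.symm⟩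
  | succ k ih =>
    obtain ⟨P, hP, T, hT⟩ := ih
    let N : ℕ := Fintype.card (Fin (n + 1) → Set G) + 1
    let Y : Type := {y : (Fin N × P) × (Fin N × P) // y.1.1 ≠ y.2.1}
    let A : Att P (Fin N) Y :=
      { i := fun y b => if b then y.1.1.1 else y.1.2.1
        a := fun y b => if b then y.1.1.2 else y.1.2.2
        e := fun _ b => if b then 0 else 1
        ne := fun y => y.2 }
    let T' := T.step A
    let ι : Fin N → (T.X s).E → (T'.X s).E := fun i x => T'.el s x.1 (Sum.inl (i, x.2))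
    refine ⟨(Fin N × P) ⊕ Y, inferInstance, T', fun ψ hψ1 hψ2 => ?_⟩
    -- restrict to the copies
    have hin : ∀ (i : Fin N) (x y : (T.X s).E), x ≤ y → ι i x ≤ ι i y := by
      rintro i x y ⟨c, h1, h2⟩
      exact ⟨c, ⟨rfl, h1⟩, h2⟩
    have hres : ∀ i : Fin N, ∃ (p : P) (S : Finset (Fin (n + 1))), k + 1 ≤ S.card ∧
        ∀ κ ∈ S, ∃ z : (T.X s).E, z ≤ T.el s 1 p ∧ (ψ (ι i z)).2 = κ := by
      intro i
      exact hT (fun x => ψ (ι i x))
        (fun g x => hψ1 g (ι i x)) (fun x y hxy h => hψ2 _ _ (hin i x y hxy) h)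
    choose a S hS1 hS2 using hres
    let Φ : Fin N → (Fin (n + 1) → Set G) := fun i κ =>
      {h | ∃ z : (T.X s).E, z ≤ T.el s 1 (a i) ∧ ψ (ι i z) = (h, κ)}
    obtain ⟨i, j, hij, hΦ⟩ := Fintype.exists_ne_map_eq_of_card_lt Φ (by simp [N])
    let y : Y := ⟨((i, a i), (j, a j)), hij⟩
    let q : (T'.X s).E := T'.el s 1 (Sum.inr y)
    have hq1 : ∀ z : (T.X s).E, z ≤ T.el s 1 (a i) → ι i z ≤ q := by
      rintro z ⟨c, h1, h2⟩
      refine ⟨c, ⟨true, rfl, ?_⟩, h2⟩
      show T.R z.2 (a i) (c - 0)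
      rwa [sub_zero]
    have hq2 : ∀ z : (T.X s).E, z ≤ T.el s 1 (a j) → s⁻¹ • ι j z ≤ q := by
      rintro z ⟨c, h1, h2⟩
      refine ⟨c + 1, ⟨false, rfl, ?_⟩, ?_⟩
      · show T.R z.2 (a j) (c + 1 - 1)
        rwa [add_sub_cancel_right]
      · show (1 : G) = s⁻¹ * z.1 * s ^ (c + 1)
        have h2' : (1 : G) = z.1 * s ^ c := h2
        rw [zpow_add, zpow_one, mul_assoc, ← mul_assoc z.1, ← h2', one_mul, inv_mul_cancel]
    have hnew : (ψ q).2 ∉ S i := by
      intro hmem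
      obtain ⟨z, hz1, hz2⟩ := hS2 i _ hmem
      have e1 := hψ2 _ _ (hq1 z hz1) hz2
      have e2 : (ψ q).1 ∈ Φ i (ψ q).2 := ⟨z, hz1, e1⟩
      rw [hΦ] at e2
      obtain ⟨z', hz1', hz2'⟩ := e2
      have e3 : ψ (s⁻¹ • ι j z') = s⁻¹ • ψ (ι j z') := hψ1 s⁻¹ _
      rw [hz2'] at e3
      have e4 := hψ2 _ _ (hq2 z' hz1') (by rw [e3]; rfl)
      rw [e3] at e4
      have e5 : s⁻¹ * (ψ q).1 = (ψ q).1 := congrArg Prod.fst e4
      have e6 : s⁻¹ = 1 := mul_eq_right.mp e5
      exact hs (inv_eq_one.mp e6)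
    refine ⟨Sum.inr y, insert (ψ q).2 (S i), ?_, ?_⟩
    · rw [Finset.card_insert_of_notMem hnew]
      have := hS1 i
      omega
    · intro κ hκ
      rw [Finset.mem_insert] at hκ
      rcases hκ with rfl | hκ
      · exact ⟨q, le_rfl, rfl⟩
      · obtain ⟨z, hz1, hz2⟩ := hS2 i κ hκ
        exact ⟨_, hq1 z hz1, hz2⟩

/-- For every `K` there is a finite free `G`-poset `X` whose order complex has a continuous `G`-map
to `E_1 G`, with a `G`-map `X → Q_K G`, and without simplicial `G`-map `Δ X → E_j G` for `j < K`. -/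
theorem posetA (G : Type) [Group G] [Fintype G] [Nontrivial G] (K : ℕ) :
    ∃ X : GPoset G, X.IsFree ∧ X.Delta.HasTopMap (Q G 1).Delta ∧ X.HasMap (Q G K) ∧
      ∀ j < K, ¬ X.Delta.HasSimpMap (Q G j).Delta := by
  obtain ⟨s, hs⟩ := exists_ne (1 : G)
  obtain ⟨P, hP, T, hT⟩ := schemeA G s hs (K - 1) K
  refine ⟨T.X s, T.X_free s, T.ind_Delta s, T.X_map s, ?_⟩
  intro j hj hmap
  have hmap' := hmap.trans (Q_mono (G := G) (show j ≤ K - 1 by omega)).simpMap
  obtain ⟨ψ, h1, h2⟩ := hmap'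
  obtain ⟨p, S, hS, -⟩ := hT ψ h2 (by
    intro x y hxy hlev
    have hch : ψ '' ({x, y} : Set (T.X s).E) ∈ (Q G (K - 1)).Delta.faces := by
      refine h1 _ ⟨⟨x, Or.inl rfl⟩, ?_⟩
      rintro a (rfl | rfl) b (rfl | rfl) hab
      · exact absurd rfl hab
      · exact Or.inl hxy
      · exact Or.inr hxy
      · exact absurd rfl hab
    by_contra hne
    have hx : ψ x ∈ ψ '' ({x, y} : Set (T.X s).E) := ⟨x, Or.inl rfl, rfl⟩
    have hy : ψ y ∈ ψ '' ({x, y} : Set (T.X s).E) := ⟨y, Or.inr rfl, rfl⟩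
    rcases hch.2 hx hy hne with h | h
    · rcases h with h | h
      · exact hne h
      · exact absurd (hlev ▸ h) (lt_irrefl _)
    · rcases h with h | h
      · exact hne h.symm
      · exact absurd (hlev ▸ h) (lt_irrefl _))
  have := Finset.card_le_univ S
  rw [Fintype.card_fin] at this
  omega

theorem Q_free (G : Type) [Group G] [Fintype G] (n : ℕ) : (Q G n).IsFree := by
  intro g p h
  have h1 : g * p.1 = p.1 := congrArg Prod.fst h
  exact mul_eq_right.mp h1

/-- the common construction for the two poset questions -/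
theorem main_posets (G : Type) [Group G] [Fintype G] [Nontrivial G] (m n : ℕ) (hm : 1 ≤ m)
    (hmn : m < n) :
    ∃ P : GPoset G, P.IsFree ∧ P.Delta.HasTopMap (Q G m).Delta ∧
      (∀ j < m, ¬ P.Delta.HasTopMap (Q G j).Delta) ∧ P.HasMap (Q G n) ∧
      ∀ j < n, ¬ P.Delta.HasSimpMap (Q G j).Delta := by
  obtain ⟨X, hX1, hX2, hX3, hX4⟩ := posetA G n
  refine ⟨X.sum (Q G m), GPoset.sum_free hX1 (Q_free G m), ?_, ?_, ?_, ?_⟩
  · refine GComplex.HasTopMap.trans (Delta_sum X (Q G m)).topMap (GComplex.sum_hasTopMap ?_ ?_)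
    · exact GComplex.HasTopMap.trans hX2 (Q_mono hm).simpMap.topMap
    · exact (Q_mono le_rfl).simpMap.topMap
  · intro j hj h
    exact no_topMap G hj (GComplex.HasTopMap.trans (GPoset.sum_inr X (Q G m)).simpMap.topMap h)
  · exact GPoset.sum_hasMap hX3 (Q_mono hmn.le)
  · intro j hj h
    exact hX4 j hj ((GPoset.sum_inl X (Q G m)).simpMap.trans h)

end Pool.Agent.X195.GI
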