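import Mathlib

/-! Linear algebra lemmas for asymptotic Hilbert series in exterior algebras. -/

namespace X195.AHA

open Module Submodule

variable {K : Type*} [Field K]

/-- rank of A + s B is at least rank of A + s0 B for all but finitely many s -/
theorem rank_semicont {U W : Type*} [AddCommGroup U] [Module K U] [AddCommGroup W] [Module K W]
    [FiniteDimensional K W] (A B : U →ₗ[K] W) (s0 : K) :
    ∀ᶠ s : K in Filter.cofinite, finrank K (LinearMap.range (A + s0 • B)) ≤
      finrank K (LinearMap.range (A + s • B)) := by
  classical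
  set A' : U →ₗ[K] W := A + s0 • B with hA'
  obtain ⟨bs⟩ : Nonempty (Basis (Fin (finrank K (LinearMap.range A'))) K (LinearMap.range A')) :=
    ⟨Module.finBasis K _⟩
  set ρ := finrank K (LinearMap.range A') with hρ
  have hu : ∀ i, ∃ u, A' u = (bs i : W) := fun i => (bs i).2
  choose u hu using hu
  -- the map x ↦ Σ x_i u_i
  let P : (Fin ρ → K) →ₗ[K] U := Fintype.linearCombination K u
  have hPinj : Function.Injective (A' ∘ₗ P) := by
    have : (A' ∘ₗ P) = Fintype.linearCombination K (fun i => (bs i : W)) := by
      ext i
      simp [P, Fintype.linearCombination_apply, hu]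
    rw [this, ← linearIndependent_iff_injective_fintypeLinearCombination]
    exact (bs.linearIndependent.map' (LinearMap.range A').subtype (Submodule.ker_subtype _))
  obtain ⟨q, hq⟩ := LinearMap.exists_leftInverse_of_injective (A' ∘ₗ P) (LinearMap.ker_eq_bot.2 hPinj)
  let T : Module.End K (Fin ρ → K) := q ∘ₗ B ∘ₗ P
  have hfin : Set.Finite {t : K | Module.End.HasEigenvalue T (-t⁻¹)} := by
    have h1 := Module.End.finite_hasEigenvalue T
    have : {t : K | Module.End.HasEigenvalue T (-t⁻¹)} = (fun t : K => -t⁻¹) ⁻¹' {μ | Module.End.HasEigenvalue T μ} := rfl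
    rw [this]
    exact h1.preimage (fun a _ b _ h => by simpa using h)
  have hfin2 : Set.Finite {s : K | Module.End.HasEigenvalue T (-(s - s0)⁻¹)} := by
    have : {s : K | Module.End.HasEigenvalue T (-(s - s0)⁻¹)} = (fun s : K => s - s0) ⁻¹' {t : K | Module.End.HasEigenvalue T (-t⁻¹)} := rfl
    rw [this]
    exact hfin.preimage (fun a _ b _ h => by simpa using h)
  refine Set.Finite.subset hfin2 ?_
  intro s hs
  simp only [Set.mem_compl_iff, Set.mem_ofPred_eq, not_le] at hs
  by_contra hno
  simp only [Set.mem_ofPred_eq] at hno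
  apply absurd hs
  push Not
  -- (A + sB) ∘ P is injective
  have hinj : Function.Injective ((A + s • B) ∘ₗ P) := by
    rw [← LinearMap.ker_eq_bot, LinearMap.ker_eq_bot']
    intro x hx
    by_contra hx0
    have e1 : A + s • B = A' + (s - s0) • B := by
      rw [hA']; module
    have e2 : q (((A + s • B) ∘ₗ P) x) = x + (s - s0) • T x := by
      rw [e1]
      have := LinearMap.congr_fun hq x
      simp only [LinearMap.comp_apply, LinearMap.add_apply, LinearMap.smul_apply, map_add, map_smul,
        LinearMap.id_apply] at this ⊢
      rw [this]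
      rfl
    rw [hx, map_zero] at e2
    by_cases hs0 : s - s0 = 0
    · rw [hs0, zero_smul, add_zero] at e2
      exact hx0 e2.symm
    · apply hno
      have : T x = (-(s - s0)⁻¹) • x := by
        have e3 : (s - s0) • T x = -x := by
          rw [eq_neg_iff_add_eq_zero, add_comm]; exact e2.symm
        rw [neg_smul, ← smul_neg, ← e3, smul_smul, inv_mul_cancel₀ hs0, one_smul]
      exact Module.End.hasEigenvalue_of_hasEigenvector ⟨Module.End.mem_eigenspace_iff.2 this, hx0⟩
  have h3 : ρ = finrank K (LinearMap.range ((A + s • B) ∘ₗ P)) := by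
    rw [LinearMap.finrank_range_of_inj hinj]; simp
  rw [h3]
  exact Submodule.finrank_mono (LinearMap.range_comp_le_range _ _)

/-- dimension count for adding one generator -/
theorem add_gen_le {E : Type*} [AddCommGroup E] [Module K E] [FiniteDimensional K E]
    (A S L : Submodule K E) (F : E →ₗ[K] E) (hLS : L ≤ S) (hFL : ∀ a ∈ L, F a ∈ A) :
    finrank K (A ⊔ S.map F : Submodule K E) + finrank K L ≤ finrank K A + finrank K S ∧
    ((∀ a ∈ S, F a ∈ A → a ∈ L) →
      finrank K (A ⊔ S.map F : Submodule K E) + finrank K L = finrank K A + finrank K S) := by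
  -- θ : S → E / A
  let θ : S →ₗ[K] (E ⧸ A) := A.mkQ ∘ₗ F ∘ₗ S.subtype
  have hr : LinearMap.range θ = (A ⊔ S.map F).map A.mkQ := by
    rw [Submodule.map_sup, LinearMap.range_comp, LinearMap.range_comp, Submodule.range_subtype]
    have : A.map A.mkQ = ⊥ := by
      rw [Submodule.mkQ_map_self]
    rw [this, bot_sup_eq]
  have h1 : finrank K (LinearMap.range θ) + finrank K A = finrank K (A ⊔ S.map F : Submodule K E) := by
    rw [hr]
    -- restrict mkQ to the submodule
    let B := A ⊔ S.map F
    have h2 := LinearMap.finrank_range_add_finrank_ker (A.mkQ.domRestrict B)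
    have h3 : LinearMap.range (A.mkQ.domRestrict B) = B.map A.mkQ := by
      rw [LinearMap.range_domRestrict]
    have h4 : finrank K (LinearMap.ker (A.mkQ.domRestrict B)) = finrank K A := by
      have : LinearMap.ker (A.mkQ.domRestrict B) = A.comap B.subtype := by
        ext x
        simp [LinearMap.mem_ker]
      rw [this]
      exact (Submodule.comapSubtypeEquivOfLe (le_sup_left : A ≤ B)).finrank_eq
    rw [h3, h4] at h2
    exact h2
  have h2 := LinearMap.finrank_range_add_finrank_ker θ
  have hker : LinearMap.ker θ = (A.comap F).comap S.subtype := by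
    ext x
    simp [θ, LinearMap.mem_ker]
  have hL : finrank K (L.comap S.subtype) = finrank K L :=
    (Submodule.comapSubtypeEquivOfLe hLS).finrank_eq
  have hle : L.comap S.subtype ≤ LinearMap.ker θ := by
    rw [hker]
    intro x hx
    exact hFL _ hx
  constructor
  · have h5 := Submodule.finrank_mono hle
    rw [hL] at h5
    omega
  · intro h
    have h5 : L.comap S.subtype = LinearMap.ker θ := by
      apply le_antisymm hle
      rw [hker]
      intro x hx
      exact h _ x.2 hx
    rw [← h5, hL] at h2
    omega

end X195.AHA
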