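import Mathlib

/-! Basis facts for the exterior algebra of K^n. -/

namespace X195.AHB

open Module Submodule

variable {K : Type*} [Field K] {n : ℕ}

/-- monomial basis of the exterior algebra of K^n -/
noncomputable def eb (K : Type*) [Field K] (n : ℕ) :
    Basis (Finset (Fin n)) K (ExteriorAlgebra K (Fin n → K)) :=
  (Pi.basisFun K (Fin n)).ExteriorAlgebra

instance finEx : Module.Finite K (ExteriorAlgebra K (Fin n → K)) := Module.Finite.of_basis (eb K n)

theorem eb_mul_of_not_disjoint {S T : Finset (Fin n)} (h : ¬ Disjoint S T) :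
    eb K n S * eb K n T = 0 :=
  ExteriorAlgebra.basis_mul_of_not_disjoint (Pi.basisFun K (Fin n))
    (⟨S, rfl⟩ : Set.powersetCard (Fin n) S.card) (⟨T, rfl⟩ : Set.powersetCard (Fin n) T.card) h

theorem eb_mul_of_disjoint {S T : Finset (Fin n)} (h : Disjoint S T) :
    ∃ c : K, c * c = 1 ∧ eb K n S * eb K n T = c • eb K n (S ∪ T) := by
  have := ExteriorAlgebra.basis_mul_of_disjoint (Pi.basisFun K (Fin n))
    (⟨S, rfl⟩ : Set.powersetCard (Fin n) S.card) (⟨T, rfl⟩ : Set.powersetCard (Fin n) T.card) h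
  have e : (Set.powersetCard.disjUnion (s := (⟨S, rfl⟩ : Set.powersetCard (Fin n) S.card))
      (t := (⟨T, rfl⟩ : Set.powersetCard (Fin n) T.card)) h : Finset (Fin n)) = S ∪ T := by
    simp
  rw [e] at this
  set u : ℤˣ := Equiv.Perm.sign (Set.powersetCard.permOfDisjoint
    (s := (⟨S, rfl⟩ : Set.powersetCard (Fin n) S.card))
      (t := (⟨T, rfl⟩ : Set.powersetCard (Fin n) T.card)) h) with hu
  rcases Int.units_eq_one_or u with h1 | h1
  · refine ⟨1, by ring, ?_⟩
    rw [h1] at this
    rw [one_smul]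
    rw [one_smul] at this
    exact this
  · refine ⟨-1, by ring, ?_⟩
    rw [h1] at this
    rw [neg_one_smul]
    rw [Units.neg_smul, one_smul] at this
    exact this

theorem gr_eq_span (k : ℕ) : (⋀[K]^k (Fin n → K)) =
    span K {x | ∃ S : Finset (Fin n), S.card = k ∧ x = eb K n S} := by
  apply le_antisymm
  · intro a ha
    have h1 := (((Pi.basisFun K (Fin n)).exteriorPower k).sum_repr ⟨a, ha⟩)
    have h2 := congrArg Subtype.val h1
    simp only at h2
    rw [← h2]
    rw [Submodule.coe_sum]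
    apply Submodule.sum_mem
    intro s _
    rw [Submodule.coe_smul]
    apply Submodule.smul_mem
    apply Submodule.subset_span
    refine ⟨s.1, s.2, ?_⟩
    exact (ExteriorAlgebra.basis_eq_coe_basis (Pi.basisFun K (Fin n)) s).symm
  · rw [Submodule.span_le]
    rintro _ ⟨S, hS, rfl⟩
    have := ExteriorAlgebra.basis_eq_coe_basis (Pi.basisFun K (Fin n)) (⟨S, hS⟩ : Set.powersetCard (Fin n) k)
    have h2 : eb K n S = ((Pi.basisFun K (Fin n)).exteriorPower k ⟨S, hS⟩ : ExteriorAlgebra K (Fin n → K)) := this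
    rw [h2]
    exact SetLike.coe_mem _

theorem eb_mem (S : Finset (Fin n)) : eb K n S ∈ ⋀[K]^(S.card) (Fin n → K) := by
  rw [gr_eq_span]
  exact Submodule.subset_span ⟨S, rfl, rfl⟩

theorem finrank_gr (k : ℕ) : finrank K (⋀[K]^k (Fin n → K)) = n.choose k := by
  rw [exteriorPower.finrank_eq]; simp

/-- graded commutativity -/
theorem gr_comm {p q : ℕ} {a b : ExteriorAlgebra K (Fin n → K)}
    (ha : a ∈ ⋀[K]^p (Fin n → K)) (hb : b ∈ ⋀[K]^q (Fin n → K)) :
    a * b = ((-1 : K)) ^ (p * q) • (b * a) := by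
  have key : ∀ (v : Fin n → K) (q : ℕ) (b : ExteriorAlgebra K (Fin n → K)), b ∈ ⋀[K]^q (Fin n → K) →
      ExteriorAlgebra.ι K v * b = ((-1 : K)) ^ q • (b * ExteriorAlgebra.ι K v) := by
    intro v q b hb
    induction hb using Submodule.pow_induction_on_left' with
    | algebraMap r => simp [Algebra.commutes]
    | add x y i _ _ hx hy => rw [mul_add, hx, hy, add_mul, smul_add]
    | mem_mul m hm i x hx ih =>
      obtain ⟨w, rfl⟩ := hm
      have h1 : ExteriorAlgebra.ι K v * ExteriorAlgebra.ι K w =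
          - (ExteriorAlgebra.ι K w * ExteriorAlgebra.ι K v) := by
        rw [eq_neg_iff_add_eq_zero]
        exact ExteriorAlgebra.ι_add_mul_swap v w
      rw [← mul_assoc, h1, neg_mul, mul_assoc, ih, pow_succ, mul_smul_comm, mul_assoc]
      simp
  induction ha using Submodule.pow_induction_on_left' with
  | algebraMap r => simp [Algebra.commutes]
  | add x y i _ _ hx hy => rw [add_mul, hx, hy, mul_add, smul_add]
  | mem_mul m hm i x hx ih =>
    obtain ⟨w, rfl⟩ := hm
    rw [mul_assoc, ih, mul_smul_comm, ← mul_assoc, key w q b hb, smul_mul_assoc, smul_smul,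
      mul_assoc]
    congr 1
    rw [← pow_add]
    congr 1
    rw [Nat.succ_eq_add_one]
    ring

end X195.AHB
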