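import Mathlib
import Pool.Agent.X195.AHB

/-! Raising and lowering operators for sums of disjoint monomials. -/

namespace X195.AHC

open Module Submodule X195.AHB

variable {K : Type*} [Field K] {n : ℕ}

open Classical in
/-- the structure constant -/
noncomputable def cc (K : Type*) [Field K] {n : ℕ} (W T : Finset (Fin n)) : K :=
  if h : Disjoint W T then (eb_mul_of_disjoint (K := K) h).choose else 1

theorem cc_sq (W T : Finset (Fin n)) : cc K W T * cc K W T = 1 := by
  unfold cc
  split_ifs with h
  · exact (eb_mul_of_disjoint (K := K) h).choose_spec.1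
  · ring

theorem cc_mul {W T : Finset (Fin n)} (h : Disjoint W T) :
    eb K n W * eb K n T = cc K W T • eb K n (W ∪ T) := by
  unfold cc
  rw [dif_pos h]
  exact (eb_mul_of_disjoint (K := K) h).choose_spec.2

/-- lowering operator of a monomial -/
noncomputable def hop (K : Type*) [Field K] {n : ℕ} (W : Finset (Fin n)) :
    ExteriorAlgebra K (Fin n → K) →ₗ[K] ExteriorAlgebra K (Fin n → K) :=
  (eb K n).constr K (fun S => if W ⊆ S then cc K W (S \ W) • eb K n (S \ W) else 0)

theorem hop_eb (W S : Finset (Fin n)) : hop K W (eb K n S) =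
    if W ⊆ S then cc K W (S \ W) • eb K n (S \ W) else 0 := by
  unfold hop
  rw [Basis.constr_basis]

theorem hop_mul_of_disjoint {W S : Finset (Fin n)} (h : Disjoint W S) :
    hop K W (eb K n W * eb K n S) = eb K n S := by
  rw [cc_mul h, map_smul, hop_eb, if_pos Finset.subset_union_left]
  have : (W ∪ S) \ W = S := by
    rw [Finset.union_sdiff_left]
    exact Finset.sdiff_eq_self_of_disjoint h.symm
  rw [this, smul_smul, cc_sq, one_smul]

theorem hop_mul_of_not_disjoint {W S : Finset (Fin n)} (h : ¬ Disjoint W S) :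
    hop K W (eb K n W * eb K n S) = 0 := by
  rw [eb_mul_of_not_disjoint h, map_zero]

theorem mul_hop_of_subset {W S : Finset (Fin n)} (h : W ⊆ S) :
    eb K n W * hop K W (eb K n S) = eb K n S := by
  rw [hop_eb, if_pos h, mul_smul_comm, cc_mul Finset.disjoint_sdiff, smul_smul, cc_sq, one_smul,
    Finset.union_sdiff_of_subset h]

theorem mul_hop_of_not_subset {W S : Finset (Fin n)} (h : ¬ W ⊆ S) :
    eb K n W * hop K W (eb K n S) = 0 := by
  rw [hop_eb, if_neg h, mul_zero]

theorem hop_comm {W W' : Finset (Fin n)} (h : Disjoint W W') (a : ExteriorAlgebra K (Fin n → K)) :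
    hop K W (eb K n W' * a) = (-1 : K) ^ (W.card * W'.card) • (eb K n W' * hop K W a) := by
  suffices H : hop K W ∘ₗ LinearMap.mulLeft K (eb K n W') =
      (-1 : K) ^ (W.card * W'.card) • (LinearMap.mulLeft K (eb K n W') ∘ₗ hop K W) by
    exact LinearMap.congr_fun H a
  apply (eb K n).ext
  intro S
  simp only [LinearMap.comp_apply, LinearMap.mulLeft_apply, LinearMap.smul_apply]
  by_cases hS : W ⊆ S
  · -- eb S = eb W * (c • eb R)
    set R := S \ W with hR
    have h1 : eb K n S = eb K n W * (cc K W R • eb K n R) := by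
      rw [← mul_hop_of_subset hS, hop_eb, if_pos hS]
    have h2 : hop K W (eb K n S) = cc K W R • eb K n R := by
      rw [hop_eb, if_pos hS]
    rw [h2]
    conv_lhs => rw [h1, ← mul_assoc, gr_comm (eb_mem W') (eb_mem W)]
    rw [smul_mul_assoc, map_smul, mul_comm W'.card W.card]
    congr 1
    rw [mul_smul_comm, mul_smul_comm, map_smul]
    congr 1
    rw [mul_assoc]
    by_cases hd : Disjoint W' R
    · rw [cc_mul hd, mul_smul_comm, map_smul, hop_mul_of_disjoint]
      rw [Finset.disjoint_union_right]
      exact ⟨h, Finset.disjoint_sdiff⟩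
    · rw [eb_mul_of_not_disjoint hd, mul_zero, map_zero]
  · have h2 : hop K W (eb K n S) = 0 := by
      rw [hop_eb, if_neg hS]
    rw [h2, mul_zero, smul_zero]
    by_cases hd : Disjoint W' S
    · rw [cc_mul hd, map_smul, hop_eb, if_neg, smul_zero]
      intro hc
      apply hS
      intro x hx
      rcases Finset.mem_union.1 (hc hx) with h3 | h3
      · exact absurd h3 (Finset.disjoint_left.1 h hx)
      · exact h3
    · rw [eb_mul_of_not_disjoint hd, map_zero]

/-- diagonal operators preserving a subspace -/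
theorem diag_inv (D : ExteriorAlgebra K (Fin n → K) →ₗ[K] ExteriorAlgebra K (Fin n → K))
    (lam : Finset (Fin n) → K) (hD : ∀ S, D (eb K n S) = lam S • eb K n S)
    (J : Submodule K (ExteriorAlgebra K (Fin n → K))) (hJ : ∀ a ∈ J, D a ∈ J) (k : ℕ)
    (hlam : ∀ S, S.card = k → lam S ≠ 0) {a : ExteriorAlgebra K (Fin n → K)}
    (ha : a ∈ ⋀[K]^k (Fin n → K)) (hDa : D a ∈ J) : a ∈ J := by
  have hDgr : ∀ b ∈ ⋀[K]^k (Fin n → K), D b ∈ ⋀[K]^k (Fin n → K) := by
    intro b hb
    rw [gr_eq_span] at hb ⊢
    induction hb using Submodule.span_induction with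
    | mem x hx =>
      obtain ⟨S, hS, rfl⟩ := hx
      rw [hD]
      exact Submodule.smul_mem _ _ (Submodule.subset_span ⟨S, hS, rfl⟩)
    | zero => rw [map_zero]; exact Submodule.zero_mem _
    | add x y _ _ hx hy => rw [map_add]; exact Submodule.add_mem _ hx hy
    | smul c x _ hx => rw [map_smul]; exact Submodule.smul_mem _ _ hx
  have hrepr : ∀ (b : ExteriorAlgebra K (Fin n → K)) S, (eb K n).repr (D b) S = lam S * (eb K n).repr b S := by
    intro b S
    have h1 : ∀ b, (eb K n).repr (D b) S = lam S * (eb K n).repr b S := by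
      intro b
      have : ((eb K n).coord S) ∘ₗ D = lam S • (eb K n).coord S := by
        apply (eb K n).ext
        intro T
        simp only [LinearMap.comp_apply, LinearMap.smul_apply, Basis.coord_apply, hD, map_smul,
          Basis.repr_self, Finsupp.smul_apply, smul_eq_mul]
        by_cases hST : T = S
        · subst hST; rfl
        · rw [Finsupp.single_eq_of_ne (Ne.symm hST)]; simp
      exact LinearMap.congr_fun this b
    exact h1 b
  have hsupp : ∀ b ∈ ⋀[K]^k (Fin n → K), ∀ S, S.card ≠ k → (eb K n).repr b S = 0 := by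
    intro b hb S hS
    rw [gr_eq_span] at hb
    induction hb using Submodule.span_induction with
    | mem x hx =>
      obtain ⟨T, hT, rfl⟩ := hx
      rw [Basis.repr_self, Finsupp.single_eq_of_ne]
      rintro rfl
      exact hS hT
    | zero => simp
    | add x y _ _ hx hy => rw [map_add, Finsupp.add_apply, hx, hy, add_zero]
    | smul c x _ hx => rw [map_smul, Finsupp.smul_apply, hx, smul_zero]
  have hinj : ∀ b ∈ ⋀[K]^k (Fin n → K), D b = 0 → b = 0 := by
    intro b hb h0
    apply (eb K n).ext_elem
    intro S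
    by_cases hS : S.card = k
    · have := hrepr b S
      rw [h0, map_zero, Finsupp.zero_apply] at this
      rcases mul_eq_zero.1 this.symm with h | h
      · exact absurd h (hlam S hS)
      · rw [h]; simp
    · rw [hsupp b hb S hS]; simp
  let J' : Submodule K (ExteriorAlgebra K (Fin n → K)) := J ⊓ ⋀[K]^k (Fin n → K)
  have hJ' : ∀ b ∈ J', D b ∈ J' := fun b hb => ⟨hJ b hb.1, hDgr b hb.2⟩
  let D' : J' →ₗ[K] J' := D.restrict hJ'
  have hD'inj : Function.Injective D' := by
    rw [← LinearMap.ker_eq_bot, LinearMap.ker_eq_bot']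
    intro b hb
    have : D b = 0 := congrArg Subtype.val hb
    exact Subtype.ext (hinj b b.2.2 this)
  obtain ⟨b, hb⟩ := (LinearMap.injective_iff_surjective.1 hD'inj) ⟨D a, hDa, hDgr a ha⟩
  have hb' : D b = D a := congrArg Subtype.val hb
  have : a - b = 0 := by
    apply hinj _ (Submodule.sub_mem _ ha b.2.2)
    rw [map_sub, hb', sub_self]
  rw [sub_eq_zero.1 this]
  exact b.2.1

end X195.AHC
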