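import Mathlib
import Pool.Agent.X195.AHC

/-! Exactness in low degrees for sums of disjoint monomials. -/

namespace X195.AHD

open Module Submodule X195.AHB X195.AHC

variable {K : Type*} [Field K] {n N d : ℕ}

/-- sum of the monomials of the blocks -/
noncomputable def ff (K : Type*) [Field K] {n N : ℕ} (W : Fin N → Finset (Fin n)) :
    ExteriorAlgebra K (Fin n → K) := ∑ j, eb K n (W j)

/-- sum of the lowering operators -/
noncomputable def hh (K : Type*) [Field K] {n N : ℕ} (W : Fin N → Finset (Fin n)) :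
    ExteriorAlgebra K (Fin n → K) →ₗ[K] ExteriorAlgebra K (Fin n → K) := ∑ j, hop K (W j)

/-- the commutator -/
noncomputable def dd (K : Type*) [Field K] {n N : ℕ} (W : Fin N → Finset (Fin n)) (ε : K) :
    ExteriorAlgebra K (Fin n → K) →ₗ[K] ExteriorAlgebra K (Fin n → K) :=
  hh K W ∘ₗ LinearMap.mulLeft K (ff K W) - ε • (LinearMap.mulLeft K (ff K W) ∘ₗ hh K W)

theorem dd_apply (W : Fin N → Finset (Fin n)) (ε : K) (a : ExteriorAlgebra K (Fin n → K)) :
    dd K W ε a = hh K W (ff K W * a) - ε • (ff K W * hh K W a) := by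
  simp [dd]

open Classical in
/-- eigenvalue -/
noncomputable def lam (K : Type*) [Field K] {n N : ℕ} (W : Fin N → Finset (Fin n)) (ε : K)
    (S : Finset (Fin n)) : K :=
  ((Finset.univ.filter (fun j => Disjoint (W j) S)).card : K) -
    ε * ((Finset.univ.filter (fun j => W j ⊆ S)).card : K)

theorem dd_eb (W : Fin N → Finset (Fin n)) (hW : Pairwise (fun i j => Disjoint (W i) (W j)))
    (hd : ∀ j, (W j).card = d) (S : Finset (Fin n)) :
    dd K W ((-1) ^ (d * d)) (eb K n S) = lam K W ((-1) ^ (d * d)) S • eb K n S := by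
  classical
  rw [dd_apply]
  unfold hh ff lam
  rw [Finset.sum_mul, map_sum, LinearMap.sum_apply, Finset.mul_sum, Finset.smul_sum,
    ← Finset.sum_sub_distrib]
  have h1 : ∀ j : Fin N, (∑ i, hop K (W i)) (eb K n (W j) * eb K n S) -
      ((-1 : K) ^ (d * d)) • ((∑ i, eb K n (W i)) * hop K (W j) (eb K n S)) =
      ∑ i, (hop K (W i) (eb K n (W j) * eb K n S) -
        ((-1 : K) ^ (d * d)) • (eb K n (W i) * hop K (W j) (eb K n S))) := by
    intro j
    rw [LinearMap.sum_apply, Finset.sum_mul, Finset.smul_sum, ← Finset.sum_sub_distrib]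
  rw [Finset.sum_congr rfl (fun j _ => h1 j)]
  -- split: total = Σ_{i,j} hop_i(e_j S) - ε e_i hop_j S ; swap second
  simp only [Finset.sum_sub_distrib]
  have h2 : ∑ x : Fin N, ∑ i : Fin N, ((-1 : K) ^ (d * d)) • (eb K n (W i) * hop K (W x) (eb K n S)) =
      ∑ x : Fin N, ∑ i : Fin N, ((-1 : K) ^ (d * d)) • (eb K n (W x) * hop K (W i) (eb K n S)) :=
    Finset.sum_comm
  rw [h2, ← Finset.sum_sub_distrib]
  simp only [← Finset.sum_sub_distrib]
  have h3 : ∀ x : Fin N, ∑ i : Fin N, (hop K (W i) (eb K n (W x) * eb K n S) -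
      ((-1 : K) ^ (d * d)) • (eb K n (W x) * hop K (W i) (eb K n S))) =
      hop K (W x) (eb K n (W x) * eb K n S) -
      ((-1 : K) ^ (d * d)) • (eb K n (W x) * hop K (W x) (eb K n S)) := by
    intro x
    apply Finset.sum_eq_single
    · intro i _ hix
      rw [hop_comm (hW hix), hd, hd, sub_self]
    · intro h; exact absurd (Finset.mem_univ x) h
  rw [Finset.sum_congr rfl (fun x _ => h3 x)]
  have h4 : ∀ x : Fin N, hop K (W x) (eb K n (W x) * eb K n S) -
      ((-1 : K) ^ (d * d)) • (eb K n (W x) * hop K (W x) (eb K n S)) =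
      ((if Disjoint (W x) S then (1 : K) else 0) - ((-1 : K) ^ (d * d)) *
        (if W x ⊆ S then (1 : K) else 0)) • eb K n S := by
    intro x
    have e1 : hop K (W x) (eb K n (W x) * eb K n S) =
        (if Disjoint (W x) S then (1 : K) else 0) • eb K n S := by
      by_cases h : Disjoint (W x) S
      · rw [hop_mul_of_disjoint h, if_pos h, one_smul]
      · rw [hop_mul_of_not_disjoint h, if_neg h, zero_smul]
    have e2 : eb K n (W x) * hop K (W x) (eb K n S) =
        (if W x ⊆ S then (1 : K) else 0) • eb K n S := by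
      by_cases h : W x ⊆ S
      · rw [mul_hop_of_subset h, if_pos h, one_smul]
      · rw [mul_hop_of_not_subset h, if_neg h, zero_smul]
    rw [e1, e2, smul_smul, ← sub_smul]
  rw [Finset.sum_congr rfl (fun x _ => h4 x), ← Finset.sum_smul, Finset.sum_sub_distrib,
    ← Finset.mul_sum, Finset.sum_boole, Finset.sum_boole]

theorem card_meet (W : Fin N → Finset (Fin n)) (hW : Pairwise (fun i j => Disjoint (W i) (W j)))
    (S : Finset (Fin n)) [DecidablePred fun j => ¬ Disjoint (W j) S] :
    (Finset.univ.filter (fun j => ¬ Disjoint (W j) S)).card ≤ S.card := by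
  classical
  rcases isEmpty_or_nonempty (Fin n) with hemp | hne
  · have : (Finset.univ.filter (fun j => ¬ Disjoint (W j) S)) = ∅ := by
      apply Finset.filter_eq_empty_iff.2
      intro j _
      push Not
      rw [Finset.disjoint_left]
      intro x
      exact (hemp.false x).elim
    rw [this]
    simp
  have : ∀ j ∈ Finset.univ.filter (fun j => ¬ Disjoint (W j) S), ∃ x, x ∈ W j ∧ x ∈ S := by
    intro j hj
    exact Finset.not_disjoint_iff.1 (Finset.mem_filter.1 hj).2
  choose! g hg using this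
  apply Finset.card_le_card_of_injOn g
  · intro j hj
    exact (hg j hj).2
  · intro i hi j hj hij
    by_contra hne
    have h1 := (hg i hi).1
    have h2 := (hg j hj).1
    rw [hij] at h1
    exact Finset.disjoint_left.1 (hW hne) h1 h2

theorem card_disj (W : Fin N → Finset (Fin n)) (hW : Pairwise (fun i j => Disjoint (W i) (W j)))
    (S : Finset (Fin n)) [DecidablePred fun j => Disjoint (W j) S] :
    N ≤ (Finset.univ.filter (fun j => Disjoint (W j) S)).card + S.card := by
  classical
  have h1 := card_meet W hW S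
  have h2 := Finset.card_filter_add_card_filter_not (s := (Finset.univ : Finset (Fin N)))
    (fun j => Disjoint (W j) S)
  rw [Finset.card_univ, Fintype.card_fin] at h2
  omega

theorem card_sub (W : Fin N → Finset (Fin n)) (hW : Pairwise (fun i j => Disjoint (W i) (W j)))
    (hd : ∀ j, (W j).card = d) (hd1 : 1 ≤ d)
    (S : Finset (Fin n)) [DecidablePred fun j => W j ⊆ S] :
    (Finset.univ.filter (fun j => W j ⊆ S)).card ≤ S.card := by
  classical
  refine le_trans (Finset.card_le_card ?_) (card_meet W hW S)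
  intro j hj
  rw [Finset.mem_filter] at hj ⊢
  refine ⟨hj.1, ?_⟩
  intro hdis
  have h1 := hj.2
  have : (W j).Nonempty := by
    rw [← Finset.card_pos, hd]; omega
  obtain ⟨x, hx⟩ := this
  exact Finset.disjoint_left.1 hdis hx (h1 hx)

theorem ff_mem (W : Fin N → Finset (Fin n)) (hd : ∀ j, (W j).card = d) :
    ff K W ∈ ⋀[K]^d (Fin n → K) := by
  unfold ff
  apply Submodule.sum_mem
  intro j _
  have := eb_mem (K := K) (W j)
  rw [hd] at this
  exact this

theorem ff_sq_odd [CharZero K] (W : Fin N → Finset (Fin n)) (hd : ∀ j, (W j).card = d)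
    (hodd : Odd d) : ff K W * ff K W = 0 := by
  have h := gr_comm (ff_mem (K := K) W hd) (ff_mem (K := K) W hd)
  rw [Odd.neg_one_pow (hodd.mul hodd), neg_smul, one_smul] at h
  have h2 : (2 : K) • (ff K W * ff K W) = 0 := by
    rw [two_smul]
    nth_rewrite 1 [h]
    simp
  exact (smul_eq_zero.1 h2).resolve_left two_ne_zero

theorem odd_exact [CharZero K] (W : Fin N → Finset (Fin n))
    (hW : Pairwise (fun i j => Disjoint (W i) (W j)))
    (hd : ∀ j, (W j).card = d) (hodd : Odd d)
    (I : Submodule K (ExteriorAlgebra K (Fin n → K)))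
    (hIf : ∀ a ∈ I, ff K W * a ∈ I) (hIh : ∀ a ∈ I, hh K W a ∈ I)
    {k : ℕ} (hk : k < N) {a : ExteriorAlgebra K (Fin n → K)}
    (ha : a ∈ ⋀[K]^k (Fin n → K)) (hfa : ff K W * a ∈ I) :
    a ∈ I ⊔ LinearMap.range (LinearMap.mulLeft K (ff K W)) := by
  classical
  set J := I ⊔ LinearMap.range (LinearMap.mulLeft K (ff K W)) with hJ
  have he : ((-1 : K)) ^ (d * d) = -1 := Odd.neg_one_pow (hodd.mul hodd)
  have hrange : ∀ b, ff K W * b ∈ J := fun b =>
    Submodule.mem_sup_right ⟨b, rfl⟩
  apply diag_inv (dd K W ((-1) ^ (d * d))) (lam K W ((-1) ^ (d * d))) (dd_eb W hW hd) J ?_ k ?_ ha ?_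
  · intro b hb
    rw [dd_apply]
    apply Submodule.sub_mem
    · obtain ⟨y, hy, z, hz, rfl⟩ := Submodule.mem_sup.1 hb
      obtain ⟨w, rfl⟩ := hz
      rw [LinearMap.mulLeft_apply, mul_add, ← mul_assoc, ff_sq_odd W hd hodd, zero_mul, add_zero]
      exact Submodule.mem_sup_left (hIh _ (hIf _ hy))
    · exact Submodule.smul_mem _ _ (hrange _)
  · intro S hS
    have h1 := card_disj W hW S
    unfold lam
    rw [he]
    have : ((Finset.univ.filter (fun j => Disjoint (W j) S)).card : K) -
      (-1) * ((Finset.univ.filter (fun j => W j ⊆ S)).card : K) =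
      (((Finset.univ.filter (fun j => Disjoint (W j) S)).card +
        (Finset.univ.filter (fun j => W j ⊆ S)).card : ℕ) : K) := by
      push_cast; ring
    rw [this]
    rw [Nat.cast_ne_zero]
    omega
  · rw [dd_apply]
    apply Submodule.sub_mem
    · exact Submodule.mem_sup_left (hIh _ hfa)
    · exact Submodule.smul_mem _ _ (hrange _)

theorem hh_degree (W : Fin N → Finset (Fin n)) (hd : ∀ j, (W j).card = d) {k : ℕ}
    {a : ExteriorAlgebra K (Fin n → K)} (ha : a ∈ ⋀[K]^k (Fin n → K)) :
    (d ≤ k → hh K W a ∈ ⋀[K]^(k - d) (Fin n → K)) ∧ (¬ d ≤ k → hh K W a = 0) := by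
  have hgen : ∀ S : Finset (Fin n), S.card = k → ∀ j, 
      (d ≤ k → hop K (W j) (eb K n S) ∈ ⋀[K]^(k - d) (Fin n → K)) ∧ 
      (¬ d ≤ k → hop K (W j) (eb K n S) = 0) := by
    intro S hS j
    by_cases hs : W j ⊆ S
    · have hc : (S \ W j).card = k - d := by
        rw [Finset.card_sdiff_of_subset hs, hS, hd]
      have hle : d ≤ k := by
        rw [← hd j, ← hS]; exact Finset.card_le_card hs
      refine ⟨fun _ => ?_, fun h => absurd hle h⟩
      rw [hop_eb, if_pos hs, ← hc]
      exact Submodule.smul_mem _ _ (eb_mem _)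
    · rw [hop_eb, if_neg hs]
      exact ⟨fun _ => Submodule.zero_mem _, fun _ => rfl⟩
  rw [gr_eq_span] at ha
  induction ha using Submodule.span_induction with
  | mem x hx =>
    obtain ⟨S, hS, rfl⟩ := hx
    unfold hh
    rw [LinearMap.sum_apply]
    exact ⟨fun h => Submodule.sum_mem _ (fun j _ => (hgen S hS j).1 h),
      fun h => Finset.sum_eq_zero (fun j _ => (hgen S hS j).2 h)⟩
  | zero => exact ⟨fun _ => by rw [map_zero]; exact Submodule.zero_mem _, fun _ => map_zero _⟩
  | add x y _ _ hx hy =>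
    rw [map_add]
    exact ⟨fun h => Submodule.add_mem _ (hx.1 h) (hy.1 h), fun h => by rw [hx.2 h, hy.2 h, add_zero]⟩
  | smul c x _ hx =>
    rw [map_smul]
    exact ⟨fun h => Submodule.smul_mem _ _ (hx.1 h), fun h => by rw [hx.2 h, smul_zero]⟩

end X195.AHD
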