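import Mathlib
import Pool.Agent.X195.AHD

/-! Injectivity in low degrees for even degree (characteristic zero). -/

namespace X195.AHE

open Module Submodule X195.AHB X195.AHC X195.AHD

variable {K : Type*} [Field K] {n N d : ℕ}

theorem lam_union (W : Fin N → Finset (Fin n)) (hW : Pairwise (fun i j => Disjoint (W i) (W j)))
    (hd : ∀ j, (W j).card = d) (hd1 : 1 ≤ d) (j : Fin N) (S : Finset (Fin n))
    (hj : Disjoint (W j) S) : lam K W 1 (W j ∪ S) = lam K W 1 S - 2 := by
  classical
  unfold lam
  have hne : (W j).Nonempty := by rw [← Finset.card_pos, hd]; omega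
  have h1 : (Finset.univ.filter (fun i => Disjoint (W i) (W j ∪ S))) =
      (Finset.univ.filter (fun i => Disjoint (W i) S)).erase j := by
    ext i
    simp only [Finset.mem_filter, Finset.mem_univ, true_and, Finset.mem_erase,
      Finset.disjoint_union_right]
    constructor
    · rintro ⟨h2, h3⟩
      refine ⟨?_, h3⟩
      rintro rfl
      rw [disjoint_self] at h2
      rw [h2] at hne
      exact Finset.not_nonempty_empty hne
    · rintro ⟨h2, h3⟩
      exact ⟨hW h2, h3⟩
  have h2 : (Finset.univ.filter (fun i => W i ⊆ W j ∪ S)) =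
      insert j (Finset.univ.filter (fun i => W i ⊆ S)) := by
    ext i
    simp only [Finset.mem_filter, Finset.mem_univ, true_and, Finset.mem_insert]
    constructor
    · intro h3
      by_cases hij : i = j
      · exact Or.inl hij
      · right
        intro x hx
        rcases Finset.mem_union.1 (h3 hx) with h4 | h4
        · exact absurd h4 (Finset.disjoint_left.1 (hW hij) hx)
        · exact h4
    · rintro (rfl | h3)
      · exact Finset.subset_union_left
      · exact h3.trans Finset.subset_union_right
  have hj1 : j ∈ Finset.univ.filter (fun i => Disjoint (W i) S) := by simp [hj]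
  have hj2 : j ∉ Finset.univ.filter (fun i => W i ⊆ S) := by
    simp only [Finset.mem_filter, Finset.mem_univ, true_and]
    intro h3
    obtain ⟨x, hx⟩ := hne
    exact Finset.disjoint_left.1 hj hx (h3 hx)
  rw [h1, h2, Finset.card_insert_of_notMem hj2]
  have h5 := Finset.card_erase_add_one hj1
  have h6 : ((((Finset.univ.filter (fun i => Disjoint (W i) S)).erase j).card + 1 : ℕ) : K) =
      ((Finset.univ.filter (fun i => Disjoint (W i) S)).card : K) := by rw [h5]
  push_cast at h6 ⊢
  rw [← h6]
  ring

variable (W : Fin N → Finset (Fin n))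

theorem Z_eb (hW : Pairwise (fun i j => Disjoint (W i) (W j)))
    (hd : ∀ j, (W j).card = d) (heven : Even d) (S : Finset (Fin n)) :
    dd K W 1 (eb K n S) = lam K W 1 S • eb K n S := by
  have := dd_eb (K := K) W hW hd S
  rw [Even.neg_one_pow (heven.mul_right d)] at this
  exact this

theorem Z_f (hW : Pairwise (fun i j => Disjoint (W i) (W j)))
    (hd : ∀ j, (W j).card = d) (hd1 : 1 ≤ d) (heven : Even d)
    (b : ExteriorAlgebra K (Fin n → K)) :
    dd K W 1 (ff K W * b) = ff K W * dd K W 1 b - (2 : K) • (ff K W * b) := by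
  suffices H : dd K W 1 ∘ₗ LinearMap.mulLeft K (ff K W) =
      LinearMap.mulLeft K (ff K W) ∘ₗ dd K W 1 - (2 : K) • LinearMap.mulLeft K (ff K W) by
    exact LinearMap.congr_fun H b
  apply (eb K n).ext
  intro S
  simp only [LinearMap.comp_apply, LinearMap.mulLeft_apply, LinearMap.sub_apply,
    LinearMap.smul_apply]
  rw [Z_eb W hW hd heven, mul_smul_comm, ← sub_smul]
  have : ∀ j, dd K W 1 (eb K n (W j) * eb K n S) =
      (lam K W 1 S - 2) • (eb K n (W j) * eb K n S) := by
    intro j
    by_cases hj : Disjoint (W j) S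
    · rw [cc_mul hj, map_smul, Z_eb W hW hd heven, lam_union W hW hd hd1 j S hj, smul_comm]
    · rw [eb_mul_of_not_disjoint hj, map_zero, smul_zero]
  unfold ff
  rw [Finset.sum_mul, map_sum, Finset.smul_sum]
  exact Finset.sum_congr rfl (fun j _ => this j)

theorem H_pow (hW : Pairwise (fun i j => Disjoint (W i) (W j)))
    (hd : ∀ j, (W j).card = d) (hd1 : 1 ≤ d) (heven : Even d) (p : ℕ) :
    ∀ (a : ExteriorAlgebra K (Fin n → K)),
    hh K W ((ff K W) ^ (p + 1) * a) = (ff K W) ^ (p + 1) * hh K W a +
      ((p : K) + 1) • ((ff K W) ^ p * (dd K W 1 a - (p : K) • a)) := by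
  induction p with
  | zero =>
    intro a
    rw [dd_apply]
    simp
  | succ p ih =>
    intro a
    have h1 : (ff K W) ^ (p + 1 + 1) * a = (ff K W) ^ (p + 1) * (ff K W * a) := by
      rw [pow_succ, mul_assoc]
    rw [h1, ih, Z_f W hW hd hd1 heven]
    have h2 : hh K W (ff K W * a) = ff K W * hh K W a + dd K W 1 a := by
      rw [dd_apply]; simp
    rw [h2]
    have h3 : ∀ b : ExteriorAlgebra K (Fin n → K), ff K W ^ (p + 1) * b = ff K W ^ p * (ff K W * b) := by
      intro b; rw [pow_succ, mul_assoc]
    have h4 : ff K W ^ (p + 1 + 1) * hh K W a = ff K W ^ (p + 1) * (ff K W * hh K W a) := by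
      rw [pow_succ, mul_assoc]
    rw [h4, h3, h3, h3]
    simp only [mul_add, mul_sub, mul_smul_comm]
    push_cast
    module

theorem f_pow_Z_mem (hW : Pairwise (fun i j => Disjoint (W i) (W j)))
    (hd : ∀ j, (W j).card = d) (hd1 : 1 ≤ d) (heven : Even d)
    (I : Submodule K (ExteriorAlgebra K (Fin n → K)))
    (hIf : ∀ a ∈ I, ff K W * a ∈ I) (hIh : ∀ a ∈ I, hh K W a ∈ I) (p : ℕ) :
    ∀ a : ExteriorAlgebra K (Fin n → K), (ff K W) ^ p * a ∈ I → (ff K W) ^ p * dd K W 1 a ∈ I := by
  have hZ : ∀ a ∈ I, dd K W 1 a ∈ I := by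
    intro a ha
    rw [dd_apply, one_smul]
    exact Submodule.sub_mem _ (hIh _ (hIf _ ha)) (hIf _ (hIh _ ha))
  have key : ∀ a : ExteriorAlgebra K (Fin n → K), dd K W 1 ((ff K W) ^ p * a) =
      (ff K W) ^ p * dd K W 1 a - ((2 * p : ℕ) : K) • ((ff K W) ^ p * a) := by
    induction p with
    | zero => intro a; simp
    | succ p ih =>
      intro a
      have h3 : ∀ b : ExteriorAlgebra K (Fin n → K), ff K W ^ (p + 1) * b = ff K W ^ p * (ff K W * b) := by
        intro b; rw [pow_succ, mul_assoc]
      rw [h3, ih, Z_f W hW hd hd1 heven, h3]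
      simp only [mul_sub, mul_smul_comm]
      push_cast
      module
  intro a ha
  have h1 := hZ _ ha
  rw [key] at h1
  have h2 := Submodule.add_mem _ h1 (Submodule.smul_mem _ (((2 * p : ℕ) : K)) ha)
  simpa using h2

theorem even_inj [CharZero K] (hW : Pairwise (fun i j => Disjoint (W i) (W j)))
    (hd : ∀ j, (W j).card = d) (hd1 : 1 ≤ d) (heven : Even d)
    (I : Submodule K (ExteriorAlgebra K (Fin n → K)))
    (hIf : ∀ a ∈ I, ff K W * a ∈ I) (hIh : ∀ a ∈ I, hh K W a ∈ I) (k : ℕ) :
    ∀ p, 2 * k + p ≤ N → ∀ a : ExteriorAlgebra K (Fin n → K),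
    a ∈ ⋀[K]^k (Fin n → K) → (ff K W) ^ p * a ∈ I → a ∈ I := by
  induction k using Nat.strong_induction_on with
  | _ k ihk =>
    intro p
    induction p with
    | zero => intro _ a _ h; simpa using h
    | succ p ihp =>
      intro hN a ha hfa
      have h1 := hIh _ hfa
      rw [H_pow W hW hd hd1 heven] at h1
      have h2 := hIf _ h1
      -- f^{p+2} H a ∈ I
      have h3 : (ff K W) ^ (p + 2) * hh K W a ∈ I := by
        have h4 : ff K W * ((ff K W) ^ (p + 1) * hh K W a +
            ((p : K) + 1) • ((ff K W) ^ p * (dd K W 1 a - (p : K) • a))) =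
            (ff K W) ^ (p + 2) * hh K W a +
            ((p : K) + 1) • ((ff K W) ^ (p + 1) * dd K W 1 a - (p : K) • ((ff K W) ^ (p + 1) * a)) := by
          rw [mul_add, ← mul_assoc, ← pow_succ', mul_smul_comm, ← mul_assoc, ← pow_succ', mul_sub,
            mul_smul_comm]
        rw [h4] at h2
        have h5 : ((p : K) + 1) • ((ff K W) ^ (p + 1) * dd K W 1 a - (p : K) • ((ff K W) ^ (p + 1) * a)) ∈ I := by
          apply Submodule.smul_mem
          apply Submodule.sub_mem
          · exact f_pow_Z_mem W hW hd hd1 heven I hIf hIh (p + 1) a hfa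
          · exact Submodule.smul_mem _ _ hfa
        exact (Submodule.add_mem_iff_left _ h5).1 h2
      have h6 : hh K W a ∈ I := by
        have hdeg := hh_degree W hd ha
        by_cases hdk : d ≤ k
        · exact ihk (k - d) (by omega) (p + 2) (by omega) _ (hdeg.1 hdk) h3
        · rw [hdeg.2 hdk]; exact Submodule.zero_mem _
      have h7 : (ff K W) ^ p * (dd K W 1 a - (p : K) • a) ∈ I := by
        have h8 : (ff K W) ^ (p + 1) * hh K W a ∈ I := by
          have : ∀ q : ℕ, (ff K W) ^ q * hh K W a ∈ I := by
            intro q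
            induction q with
            | zero => simpa using h6
            | succ q ih => rw [pow_succ', mul_assoc]; exact hIf _ ih
          exact this _
        have h9 := (Submodule.add_mem_iff_right _ h8).1 h1
        have hne : ((p : K) + 1) ≠ 0 := by
          have : ((p + 1 : ℕ) : K) ≠ 0 := Nat.cast_ne_zero.2 (by omega)
          push_cast at this; exact this
        have := Submodule.smul_mem _ ((p : K) + 1)⁻¹ h9
        rwa [smul_smul, inv_mul_cancel₀ hne, one_smul] at this
      -- degree of Z a
      let D : ExteriorAlgebra K (Fin n → K) →ₗ[K] ExteriorAlgebra K (Fin n → K) :=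
        dd K W 1 - (p : K) • LinearMap.id
      have hDeb : ∀ S, D (eb K n S) = (lam K W 1 S - (p : K)) • eb K n S := by
        intro S
        simp only [D, LinearMap.sub_apply, LinearMap.smul_apply, LinearMap.id_apply]
        rw [Z_eb W hW hd heven, sub_smul]
      have hDa : D a = dd K W 1 a - (p : K) • a := by simp [D]
      have hDgr : D a ∈ ⋀[K]^k (Fin n → K) := by
        rw [gr_eq_span] at ha ⊢
        clear hDa h7 h6 h3 h2 h1 hfa
        induction ha using Submodule.span_induction with
        | mem x hx =>
          obtain ⟨S, hS, rfl⟩ := hx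
          rw [hDeb]
          exact Submodule.smul_mem _ _ (Submodule.subset_span ⟨S, hS, rfl⟩)
        | zero => rw [map_zero]; exact Submodule.zero_mem _
        | add x y _ _ hx hy => rw [map_add]; exact Submodule.add_mem _ hx hy
        | smul c x _ hx => rw [map_smul]; exact Submodule.smul_mem _ _ hx
      have h10 : D a ∈ I := ihp (by omega) _ hDgr (by rw [hDa]; exact h7)
      refine diag_inv D (fun S => lam K W 1 S - (p : K)) hDeb I ?_ k ?_ ha h10
      · intro b hb
        simp only [D, LinearMap.sub_apply, LinearMap.smul_apply, LinearMap.id_apply]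
        apply Submodule.sub_mem
        · rw [dd_apply, one_smul]
          exact Submodule.sub_mem _ (hIh _ (hIf _ hb)) (hIf _ (hIh _ hb))
        · exact Submodule.smul_mem _ _ hb
      · intro S hS
        classical
        have c1 := card_disj W hW S
        have c2 := card_sub W hW hd hd1 S
        unfold lam
        rw [one_mul, sub_sub, sub_ne_zero]
        intro h
        have h' : ((Finset.univ.filter (fun j => Disjoint (W j) S)).card : K) =
            (((Finset.univ.filter (fun j => W j ⊆ S)).card + p : ℕ) : K) := by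
          push_cast; convert h
        have h'' := Nat.cast_injective h'
        omega

end X195.AHE
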