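import Mathlib
import Pool.Agent.X195.AHA
import Pool.Agent.X195.AHE

/-! Ideals generated by homogeneous elements, degree by degree. -/

namespace X195.AHF

open Module Submodule X195.AHB X195.AHC X195.AHD X195.AHE

variable {K : Type*} [Field K] {n : ℕ}

/-- right ideal generated by the first i elements -/
noncomputable def II (f : ℕ → ExteriorAlgebra K (Fin n → K)) :
    ℕ → Submodule K (ExteriorAlgebra K (Fin n → K))
  | 0 => ⊥
  | i + 1 => II f i ⊔ LinearMap.range (LinearMap.mulLeft K (f i))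

/-- its degree k piece -/
noncomputable def JJ (f : ℕ → ExteriorAlgebra K (Fin n → K)) (d : ℕ → ℕ) :
    ℕ → ℕ → Submodule K (ExteriorAlgebra K (Fin n → K))
  | 0, _ => ⊥
  | i + 1, k => JJ f d i k ⊔
      (if d i ≤ k then (⋀[K]^(k - d i) (Fin n → K)).map (LinearMap.mulLeft K (f i)) else ⊥)

/-- projection to degree k -/
noncomputable def pr (K : Type*) [Field K] (n k : ℕ) :
    ExteriorAlgebra K (Fin n → K) →ₗ[K] ExteriorAlgebra K (Fin n → K) :=
  GradedAlgebra.proj (fun i : ℕ ↦ ⋀[K]^i (Fin n → K)) k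

theorem pr_mem (k : ℕ) (a : ExteriorAlgebra K (Fin n → K)) : pr K n k a ∈ ⋀[K]^k (Fin n → K) := by
  unfold pr
  rw [GradedAlgebra.proj_apply]
  exact SetLike.coe_mem _

theorem pr_of_mem {k : ℕ} {a : ExteriorAlgebra K (Fin n → K)} (ha : a ∈ ⋀[K]^k (Fin n → K)) :
    pr K n k a = a := by
  unfold pr
  rw [GradedAlgebra.proj_apply]
  exact DirectSum.decompose_of_mem_same (ℳ := (fun i : ℕ ↦ ⋀[K]^i (Fin n → K))) ha

theorem pr_mul {d : ℕ} {f : ExteriorAlgebra K (Fin n → K)} (hf : f ∈ ⋀[K]^d (Fin n → K)) (k : ℕ)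
    (a : ExteriorAlgebra K (Fin n → K)) :
    pr K n k (f * a) = if d ≤ k then f * pr K n (k - d) a else 0 := by
  unfold pr
  rw [GradedAlgebra.proj_apply, GradedAlgebra.proj_apply]
  exact DirectSum.coe_decompose_mul_of_left_mem (𝒜 := (fun i : ℕ ↦ ⋀[K]^i (Fin n → K))) k hf

variable {f : ℕ → ExteriorAlgebra K (Fin n → K)} {d : ℕ → ℕ}

theorem gr_mul {p q : ℕ} {a b : ExteriorAlgebra K (Fin n → K)}
    (ha : a ∈ ⋀[K]^p (Fin n → K)) (hb : b ∈ ⋀[K]^q (Fin n → K)) :
    a * b ∈ ⋀[K]^(p + q) (Fin n → K) :=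
  SetLike.GradedMonoid.toGradedMul.mul_mem (A := (fun i : ℕ ↦ ⋀[K]^i (Fin n → K))) ha hb

theorem JJ_le_II (i k : ℕ) : JJ f d i k ≤ II f i := by
  induction i with
  | zero => exact le_refl _
  | succ i ih =>
    simp only [JJ, II]
    apply sup_le (ih.trans le_sup_left)
    split_ifs
    · apply le_trans _ le_sup_right
      rintro _ ⟨a, _, rfl⟩
      exact ⟨a, rfl⟩
    · exact bot_le

theorem JJ_le_gr (hf : ∀ i, f i ∈ ⋀[K]^(d i) (Fin n → K)) (i k : ℕ) :
    JJ f d i k ≤ ⋀[K]^k (Fin n → K) := by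
  induction i with
  | zero => exact bot_le
  | succ i ih =>
    simp only [JJ]
    apply sup_le ih
    split_ifs with h
    · rintro _ ⟨a, ha, rfl⟩
      rw [LinearMap.mulLeft_apply]
      have := gr_mul (hf i) ha
      rwa [show d i + (k - d i) = k by omega] at this
    · exact bot_le

theorem pr_II (hf : ∀ i, f i ∈ ⋀[K]^(d i) (Fin n → K)) (i k : ℕ) :
    ∀ x ∈ II f i, pr K n k x ∈ JJ f d i k := by
  induction i with
  | zero =>
    intro x hx
    simp only [II, Submodule.mem_bot] at hx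
    rw [hx, map_zero]
    exact Submodule.zero_mem _
  | succ i ih =>
    intro x hx
    simp only [II] at hx
    obtain ⟨y, hy, z, hz, rfl⟩ := Submodule.mem_sup.1 hx
    obtain ⟨a, rfl⟩ := hz
    rw [map_add]
    simp only [JJ]
    apply Submodule.add_mem
    · exact Submodule.mem_sup_left (ih y hy)
    · rw [LinearMap.mulLeft_apply, pr_mul (hf i)]
      split_ifs with h
      · exact Submodule.mem_sup_right ⟨_, pr_mem _ _, rfl⟩
      · exact Submodule.zero_mem _

theorem mem_JJ_iff (hf : ∀ i, f i ∈ ⋀[K]^(d i) (Fin n → K)) (i k : ℕ)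
    (x : ExteriorAlgebra K (Fin n → K)) :
    x ∈ JJ f d i k ↔ x ∈ II f i ∧ x ∈ ⋀[K]^k (Fin n → K) := by
  constructor
  · intro hx
    exact ⟨JJ_le_II i k hx, JJ_le_gr hf i k hx⟩
  · rintro ⟨h1, h2⟩
    have := pr_II hf i k x h1
    rwa [pr_of_mem h2] at this

/-- homogeneous elements preserve the ideals -/
theorem mul_II (hf : ∀ i, f i ∈ ⋀[K]^(d i) (Fin n → K)) {q : ℕ}
    {b : ExteriorAlgebra K (Fin n → K)} (hb : b ∈ ⋀[K]^q (Fin n → K)) (i : ℕ) :
    ∀ x ∈ II f i, b * x ∈ II f i := by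
  induction i with
  | zero =>
    intro x hx
    simp only [II, Submodule.mem_bot] at hx ⊢
    rw [hx, mul_zero]
  | succ i ih =>
    intro x hx
    simp only [II] at hx ⊢
    obtain ⟨y, hy, z, hz, rfl⟩ := Submodule.mem_sup.1 hx
    obtain ⟨a, rfl⟩ := hz
    rw [mul_add]
    apply Submodule.add_mem
    · exact Submodule.mem_sup_left (ih y hy)
    · apply Submodule.mem_sup_right
      rw [LinearMap.mulLeft_apply, ← mul_assoc, gr_comm hb (hf i), smul_mul_assoc, mul_assoc]
      exact Submodule.smul_mem _ _ ⟨b * a, rfl⟩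

/-- dimension of the degree k piece of the ideal -/
noncomputable def Dm (f : ℕ → ExteriorAlgebra K (Fin n → K)) (d : ℕ → ℕ) (i k : ℕ) : ℕ :=
  finrank K (JJ f d i k)

theorem Dm_lt {i k : ℕ} (h : ¬ d i ≤ k) : Dm f d (i + 1) k = Dm f d i k := by
  have e : JJ f d (i + 1) k = JJ f d i k := by
    simp only [JJ]
    rw [if_neg h, sup_bot_eq]
  unfold Dm
  rw [e]

theorem Dm_even (hf : ∀ i, f i ∈ ⋀[K]^(d i) (Fin n → K)) {i k : ℕ} (h : d i ≤ k) :
    Dm f d (i + 1) k + Dm f d i (k - d i) ≤ Dm f d i k + n.choose (k - d i) ∧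
    ((∀ a ∈ ⋀[K]^(k - d i) (Fin n → K), f i * a ∈ II f i → a ∈ II f i) →
      Dm f d (i + 1) k + Dm f d i (k - d i) = Dm f d i k + n.choose (k - d i)) := by
  have h1 := X195.AHA.add_gen_le (JJ f d i k) (⋀[K]^(k - d i) (Fin n → K)) (JJ f d i (k - d i))
    (LinearMap.mulLeft K (f i)) (JJ_le_gr hf _ _) (by
      intro a ha
      rw [LinearMap.mulLeft_apply]
      rw [mem_JJ_iff hf] at ha ⊢
      refine ⟨mul_II hf (hf i) i _ ha.1, ?_⟩
      have := gr_mul (hf i) ha.2
      rwa [show d i + (k - d i) = k by omega] at this)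
  have e : JJ f d (i + 1) k = JJ f d i k ⊔ (⋀[K]^(k - d i) (Fin n → K)).map (LinearMap.mulLeft K (f i)) := by
    simp only [JJ]; rw [if_pos h]
  rw [← e, finrank_gr] at h1
  refine ⟨h1.1, fun H => h1.2 ?_⟩
  intro a ha hfa
  rw [mem_JJ_iff hf]
  exact ⟨H a ha (JJ_le_II _ _ hfa), ha⟩

theorem Dm_odd [CharZero K] (hf : ∀ i, f i ∈ ⋀[K]^(d i) (Fin n → K)) {i k : ℕ} (h : d i ≤ k)
    (hodd : Odd (d i)) :
    Dm f d (i + 1) k + Dm f d (i + 1) (k - d i) ≤ Dm f d i k + n.choose (k - d i) ∧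
    ((∀ a ∈ ⋀[K]^(k - d i) (Fin n → K), f i * a ∈ II f i → a ∈ II f (i + 1)) →
      Dm f d (i + 1) k + Dm f d (i + 1) (k - d i) = Dm f d i k + n.choose (k - d i)) := by
  have hsq : f i * f i = 0 := by
    have h := gr_comm (hf i) (hf i)
    rw [Odd.neg_one_pow (hodd.mul hodd), neg_smul, one_smul] at h
    have h2 : (2 : K) • (f i * f i) = 0 := by
      rw [two_smul]
      nth_rewrite 1 [h]
      simp
    exact (smul_eq_zero.1 h2).resolve_left two_ne_zero
  have h1 := X195.AHA.add_gen_le (JJ f d i k) (⋀[K]^(k - d i) (Fin n → K)) (JJ f d (i + 1) (k - d i))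
    (LinearMap.mulLeft K (f i)) (JJ_le_gr hf _ _) (by
      intro a ha
      rw [LinearMap.mulLeft_apply]
      rw [mem_JJ_iff hf] at ha ⊢
      refine ⟨?_, ?_⟩
      · have ha1 := ha.1
        simp only [II] at ha1
        obtain ⟨y, hy, z, hz, rfl⟩ := Submodule.mem_sup.1 ha1
        obtain ⟨b, rfl⟩ := hz
        rw [mul_add, LinearMap.mulLeft_apply, ← mul_assoc, hsq, zero_mul, add_zero]
        exact mul_II hf (hf i) i _ hy
      · have := gr_mul (hf i) ha.2
        rwa [show d i + (k - d i) = k by omega] at this)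
  have e : JJ f d (i + 1) k = JJ f d i k ⊔ (⋀[K]^(k - d i) (Fin n → K)).map (LinearMap.mulLeft K (f i)) := by
    simp only [JJ]; rw [if_pos h]
  rw [← e, finrank_gr] at h1
  refine ⟨h1.1, fun H => h1.2 ?_⟩
  intro a ha hfa
  rw [mem_JJ_iff hf]
  exact ⟨H a ha (JJ_le_II _ _ hfa), ha⟩

/-- the map whose range is the degree k piece -/
noncomputable def Phi (f : ℕ → ExteriorAlgebra K (Fin n → K)) (d : ℕ → ℕ) (i k : ℕ) :
    (ℕ → ExteriorAlgebra K (Fin n → K)) →ₗ[K] ExteriorAlgebra K (Fin n → K) :=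
  ∑ l ∈ Finset.range i, if d l ≤ k then
    LinearMap.mulLeft K (f l) ∘ₗ pr K n (k - d l) ∘ₗ LinearMap.proj l else 0

theorem Phi_apply (f : ℕ → ExteriorAlgebra K (Fin n → K)) (d : ℕ → ℕ) (i k : ℕ)
    (x : ℕ → ExteriorAlgebra K (Fin n → K)) :
    Phi f d i k x = ∑ l ∈ Finset.range i, if d l ≤ k then f l * pr K n (k - d l) (x l) else 0 := by
  unfold Phi
  rw [LinearMap.sum_apply]
  apply Finset.sum_congr rfl
  intro l _
  split_ifs <;> simp

theorem range_Phi (f : ℕ → ExteriorAlgebra K (Fin n → K)) (d : ℕ → ℕ) (i k : ℕ) :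
    LinearMap.range (Phi f d i k) = JJ f d i k := by
  induction i with
  | zero =>
    simp only [JJ]
    rw [eq_bot_iff]
    rintro _ ⟨x, rfl⟩
    rw [Phi_apply]
    simp
  | succ i ih =>
    apply le_antisymm
    · rintro _ ⟨x, rfl⟩
      rw [Phi_apply, Finset.sum_range_succ, ← Phi_apply]
      simp only [JJ]
      apply Submodule.add_mem
      · apply Submodule.mem_sup_left
        rw [← ih]
        exact ⟨x, rfl⟩
      · apply Submodule.mem_sup_right
        split_ifs with h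
        · exact ⟨_, pr_mem _ _, rfl⟩
        · exact Submodule.zero_mem _
    · intro y hy
      simp only [JJ] at hy
      obtain ⟨y1, hy1, z, hz, rfl⟩ := Submodule.mem_sup.1 hy
      rw [← ih] at hy1
      obtain ⟨x, rfl⟩ := hy1
      by_cases h : d i ≤ k
      · rw [if_pos h] at hz
        obtain ⟨a, ha, rfl⟩ := hz
        refine ⟨Function.update x i a, ?_⟩
        rw [Phi_apply, Finset.sum_range_succ, Phi_apply, if_pos h, Function.update_self,
          pr_of_mem ha, LinearMap.mulLeft_apply]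
        congr 1
        apply Finset.sum_congr rfl
        intro l hl
        rw [Function.update_of_ne (by have := Finset.mem_range.1 hl; omega)]
      · rw [if_neg h, Submodule.mem_bot] at hz
        refine ⟨x, ?_⟩
        rw [hz, add_zero, Phi_apply, Finset.sum_range_succ, if_neg h, add_zero, ← Phi_apply]

theorem Phi_pencil (f g : ℕ → ExteriorAlgebra K (Fin n → K)) (d : ℕ → ℕ) (i k : ℕ) (s : K) :
    Phi (fun l => f l + s • (g l - f l)) d i k = Phi f d i k + s • Phi (fun l => g l - f l) d i k := by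
  apply LinearMap.ext
  intro x
  rw [LinearMap.add_apply, LinearMap.smul_apply, Phi_apply, Phi_apply, Phi_apply, Finset.smul_sum,
    ← Finset.sum_add_distrib]
  apply Finset.sum_congr rfl
  intro l _
  split_ifs
  · rw [add_mul, smul_mul_assoc]
  · simp

theorem Dm_semicont (f g : ℕ → ExteriorAlgebra K (Fin n → K)) (d : ℕ → ℕ) (i k : ℕ) (s0 : K) :
    ∀ᶠ s : K in Filter.cofinite, Dm (fun l => f l + s0 • (g l - f l)) d i k ≤
      Dm (fun l => f l + s • (g l - f l)) d i k := by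
  have h := X195.AHA.rank_semicont (Phi f d i k) (Phi (fun l => g l - f l) d i k) s0
  filter_upwards [h] with s hs
  unfold Dm
  rw [← range_Phi, ← range_Phi, Phi_pencil, Phi_pencil]
  exact hs

end X195.AHF
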