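import Mathlib
import Pool.Agent.X195.AHF

/-! The special tuple, expected series, and the main dimension count. -/

namespace X195.AHG

open Module Submodule X195.AHB X195.AHC X195.AHD X195.AHE X195.AHF

variable {K : Type*} [Field K] {n : ℕ}

/-- expected factor product -/
noncomputable def PP (d : ℕ → ℕ) : ℕ → PowerSeries ℚ
  | 0 => 1
  | i + 1 => PP d i * (if Even (d i) then 1 - PowerSeries.X ^ (d i)
      else (1 + PowerSeries.X ^ (d i))⁻¹)

/-- expected dimension -/
noncomputable def ee (n : ℕ) (d : ℕ → ℕ) (i k : ℕ) : ℚ :=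
  PowerSeries.coeff k ((1 + PowerSeries.X) ^ n * PP d i)

theorem ee_zero (n : ℕ) (d : ℕ → ℕ) (k : ℕ) : ee n d 0 k = n.choose k := by
  unfold ee
  simp only [PP, mul_one]
  have : ((1 + PowerSeries.X : PowerSeries ℚ) ^ n) =
      (((1 + Polynomial.X) ^ n : Polynomial ℚ) : PowerSeries ℚ) := by
    push_cast; rfl
  rw [this, Polynomial.coeff_coe, Polynomial.coeff_one_add_X_pow]

theorem ee_even (n : ℕ) (d : ℕ → ℕ) (i k : ℕ) (h : Even (d i)) :
    ee n d (i + 1) k = ee n d i k - (if d i ≤ k then ee n d i (k - d i) else 0) := by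
  unfold ee
  simp only [PP]
  rw [if_pos h, ← mul_assoc, mul_sub, mul_one, map_sub, PowerSeries.coeff_mul_X_pow']

theorem ee_odd (n : ℕ) (d : ℕ → ℕ) (i k : ℕ) (h : ¬ Even (d i)) (hd : 1 ≤ d i) :
    ee n d (i + 1) k + (if d i ≤ k then ee n d (i + 1) (k - d i) else 0) = ee n d i k := by
  unfold ee
  simp only [PP]
  rw [if_neg h]
  rw [← PowerSeries.coeff_mul_X_pow', ← map_add]
  congr 1
  have hne : PowerSeries.constantCoeff (1 + PowerSeries.X ^ (d i) : PowerSeries ℚ) ≠ 0 := by
    simp [show d i ≠ 0 by omega]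
  have : (1 + PowerSeries.X ^ (d i) : PowerSeries ℚ)⁻¹ * (1 + PowerSeries.X ^ (d i)) = 1 :=
    PowerSeries.inv_mul_cancel _ hne
  calc (1 + PowerSeries.X) ^ n * (PP d i * (1 + PowerSeries.X ^ d i)⁻¹) +
        (1 + PowerSeries.X) ^ n * (PP d i * (1 + PowerSeries.X ^ d i)⁻¹) * PowerSeries.X ^ d i
      = (1 + PowerSeries.X) ^ n * PP d i * ((1 + PowerSeries.X ^ (d i) : PowerSeries ℚ)⁻¹ * (1 + PowerSeries.X ^ (d i))) := by ring
    _ = _ := by rw [this, mul_one]

/-- dims of quotients -/
noncomputable def hq (f : ℕ → ExteriorAlgebra K (Fin n → K)) (d : ℕ → ℕ) (i k : ℕ) : ℚ :=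
  (n.choose k : ℚ) - Dm f d i k

theorem hq_zero (f : ℕ → ExteriorAlgebra K (Fin n → K)) (d : ℕ → ℕ) (k : ℕ) :
    hq f d 0 k = n.choose k := by
  have e : JJ f d 0 k = ⊥ := rfl
  unfold hq Dm
  rw [e, finrank_bot]; simp

variable {f : ℕ → ExteriorAlgebra K (Fin n → K)} {d : ℕ → ℕ}

/-- lower bound from forced relations -/
theorem hq_lower [CharZero K] (hf : ∀ i, f i ∈ ⋀[K]^(d i) (Fin n → K)) (hd : ∀ i, 1 ≤ d i)
    (i k : ℕ) (h1 : hq f d i k = ee n d i k)
    (h2 : ∀ j, j < k → hq f d i j = ee n d i j) (h3 : ∀ j, j < k → hq f d (i + 1) j = ee n d (i + 1) j) :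
    ee n d (i + 1) k ≤ hq f d (i + 1) k := by
  by_cases hk : d i ≤ k
  · by_cases he : Even (d i)
    · have h4 := (Dm_even hf hk).1
      rw [ee_even n d i k he, if_pos hk, ← h1, ← h2 (k - d i) (by have := hd i; omega)]
      unfold hq
      have h5 : (Dm f d (i + 1) k : ℚ) + Dm f d i (k - d i) ≤ Dm f d i k + n.choose (k - d i) := by
        exact_mod_cast h4
      linarith
    · have h4 := (Dm_odd hf hk (Nat.not_even_iff_odd.1 he)).1
      have h6 := ee_odd n d i k he (hd i)
      rw [if_pos hk, ← h1, ← h3 (k - d i) (by have := hd i; omega)] at h6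
      unfold hq at h6 ⊢
      have h5 : (Dm f d (i + 1) k : ℚ) + Dm f d (i + 1) (k - d i) ≤ Dm f d i k + n.choose (k - d i) := by
        exact_mod_cast h4
      linarith
  · have h4 : hq f d (i + 1) k = hq f d i k := by
      unfold hq
      rw [Dm_lt hk]
    rw [h4, h1]
    by_cases he : Even (d i)
    · rw [ee_even n d i k he, if_neg hk, sub_zero]
    · have h6 := ee_odd n d i k he (hd i)
      rw [if_neg hk, add_zero] at h6
      rw [h6]

/-- equality if exact -/
theorem hq_eq [CharZero K] (hf : ∀ i, f i ∈ ⋀[K]^(d i) (Fin n → K)) (hd : ∀ i, 1 ≤ d i)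
    (i k : ℕ) (h1 : hq f d i k = ee n d i k)
    (h2 : ∀ j, j < k → hq f d i j = ee n d i j) (h3 : ∀ j, j < k → hq f d (i + 1) j = ee n d (i + 1) j)
    (hex : ∀ j, j < k → ∀ a ∈ ⋀[K]^j (Fin n → K), f i * a ∈ II f i →
      (Even (d i) → a ∈ II f i) ∧ (Odd (d i) → a ∈ II f (i + 1))) :
    hq f d (i + 1) k = ee n d (i + 1) k := by
  by_cases hk : d i ≤ k
  · have hlt : k - d i < k := by have := hd i; omega
    by_cases he : Even (d i)
    · have h4 := (Dm_even hf hk).2 (fun a ha hfa => (hex _ hlt a ha hfa).1 he)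
      rw [ee_even n d i k he, if_pos hk, ← h1, ← h2 (k - d i) hlt]
      unfold hq
      have h5 : (Dm f d (i + 1) k : ℚ) + Dm f d i (k - d i) = Dm f d i k + n.choose (k - d i) := by
        exact_mod_cast h4
      linarith
    · have hodd := Nat.not_even_iff_odd.1 he
      have h4 := (Dm_odd hf hk hodd).2 (fun a ha hfa => (hex _ hlt a ha hfa).2 hodd)
      have h6 := ee_odd n d i k he (hd i)
      rw [if_pos hk, ← h1, ← h3 (k - d i) hlt] at h6
      unfold hq at h6 ⊢
      have h5 : (Dm f d (i + 1) k : ℚ) + Dm f d (i + 1) (k - d i) = Dm f d i k + n.choose (k - d i) := by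
        exact_mod_cast h4
      linarith
  · have h4 : hq f d (i + 1) k = hq f d i k := by
      unfold hq
      rw [Dm_lt hk]
    rw [h4, h1]
    by_cases he : Even (d i)
    · rw [ee_even n d i k he, if_neg hk, sub_zero]
    · have h6 := ee_odd n d i k he (hd i)
      rw [if_neg hk, add_zero] at h6
      rw [h6]

/-- blocks for the special tuple -/
structure Blocks (n r N : ℕ) (d : ℕ → ℕ) where
  W : ℕ → Fin N → Finset (Fin n)
  card : ∀ i j, i < r → (W i j).card = d i
  disj : ∀ i j i' j', i < r → i' < r → (i, j) ≠ (i', j') → Disjoint (W i j) (W i' j')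

theorem exists_blocks (r N : ℕ) (d : ℕ → ℕ) (n : ℕ) (hn : N * (∑ i ∈ Finset.range r, d i) ≤ n) :
    Nonempty (Blocks n r N d) := by
  classical
  have hc : Fintype.card (Σ p : Fin r × Fin N, Fin (d p.1)) ≤ Fintype.card (Fin n) := by
    rw [Fintype.card_sigma, Fintype.card_fin]
    simp only [Fintype.card_fin]
    rw [Fintype.sum_prod_type]
    simp only [Finset.sum_const, Finset.card_univ, Fintype.card_fin, smul_eq_mul]
    rw [← Finset.mul_sum, Fin.sum_univ_eq_sum_range (fun i => d i)]
    exact hn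
  obtain ⟨e⟩ := Function.Embedding.nonempty_of_card_le hc
  refine ⟨⟨fun i j => if h : i < r then
    Finset.univ.map ⟨fun x : Fin (d i) => e ⟨(⟨i, h⟩, j), x⟩, ?_⟩ else ∅, ?_, ?_⟩⟩
  · intro x y hxy
    have := e.injective hxy
    simpa using this
  · intro i j hi
    simp [hi]
  · intro i j i' j' hi hi' hne
    rw [dif_pos hi, dif_pos hi', Finset.disjoint_left]
    intro x hx hx'
    rw [Finset.mem_map] at hx hx'
    obtain ⟨y, _, rfl⟩ := hx
    obtain ⟨y', _, hy'⟩ := hx'
    have := e.injective hy'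
    have h1 := congrArg (fun z : (Σ p : Fin r × Fin N, Fin (d p.1)) => (z.1.1.1, z.1.2)) this
    simp only at h1
    exact hne h1.symm

variable {r N : ℕ}

/-- the special tuple -/
noncomputable def sp (K : Type*) [Field K] (B : Blocks n r N d) (i : ℕ) :
    ExteriorAlgebra K (Fin n → K) := if i < r then ff K (B.W i) else 0

theorem sp_mem (B : Blocks n r N d) (i : ℕ) : sp K B i ∈ ⋀[K]^(d i) (Fin n → K) := by
  unfold sp
  split_ifs with h
  · exact ff_mem _ (fun j => B.card i j h)
  · exact Submodule.zero_mem _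

theorem hh_II (B : Blocks n r N d) (i : ℕ) (hi : i < r) (l : ℕ) (hl : l ≤ i) :
    ∀ x ∈ II (sp K B) l, hh K (B.W i) x ∈ II (sp K B) l := by
  induction l with
  | zero =>
    intro x hx
    simp only [II, Submodule.mem_bot] at hx ⊢
    rw [hx, map_zero]
  | succ l ih =>
    intro x hx
    simp only [II] at hx ⊢
    obtain ⟨y, hy, z, hz, rfl⟩ := Submodule.mem_sup.1 hx
    obtain ⟨a, rfl⟩ := hz
    rw [map_add]
    apply Submodule.add_mem
    · exact Submodule.mem_sup_left (ih (by omega) y hy)
    · apply Submodule.mem_sup_right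
      rw [LinearMap.mulLeft_apply]
      have hlr : l < r := by omega
      have e1 : sp K B l = ff K (B.W l) := by unfold sp; rw [if_pos hlr]
      have e2 : hh K (B.W i) (ff K (B.W l) * a) =
          ((-1 : K) ^ (d i * d l)) • (ff K (B.W l) * hh K (B.W i) a) := by
        unfold hh ff
        rw [Finset.sum_mul, LinearMap.sum_apply, LinearMap.sum_apply, Finset.sum_mul, Finset.smul_sum]
        simp only [map_sum, Finset.mul_sum, Finset.smul_sum]
        rw [Finset.sum_comm]
        apply Finset.sum_congr rfl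
        intro j _
        apply Finset.sum_congr rfl
        intro m _
        rw [hop_comm (B.disj i m l j hi hlr (by intro h; have := congrArg Prod.fst h; simp at this; omega)),
          B.card i m hi, B.card l j hlr]
      rw [e1, e2]
      exact Submodule.smul_mem _ _ ⟨_, rfl⟩

theorem sp_exact [CharZero K] (B : Blocks n r N d) (hd : ∀ i, 1 ≤ d i) (i : ℕ) (hi : i < r) (j : ℕ)
    (hj : 2 * j + 1 ≤ N) (a : ExteriorAlgebra K (Fin n → K)) (ha : a ∈ ⋀[K]^j (Fin n → K))
    (hfa : sp K B i * a ∈ II (sp K B) i) :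
    (Even (d i) → a ∈ II (sp K B) i) ∧ (Odd (d i) → a ∈ II (sp K B) (i + 1)) := by
  have e1 : sp K B i = ff K (B.W i) := by unfold sp; rw [if_pos hi]
  have hW : Pairwise (fun j j' => Disjoint (B.W i j) (B.W i j')) := by
    intro j j' hne
    exact B.disj i j i j' hi hi (by intro h; exact hne (congrArg Prod.snd h))
  have hc : ∀ j, (B.W i j).card = d i := fun j => B.card i j hi
  have hIf : ∀ a ∈ II (sp K B) i, ff K (B.W i) * a ∈ II (sp K B) i := by
    intro b hb
    rw [← e1]
    exact mul_II (sp_mem B) (sp_mem B i) i b hb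
  have hIh := hh_II (K := K) B i hi i le_rfl
  constructor
  · intro he
    apply even_inj (B.W i) hW hc (hd i) he (II (sp K B) i) hIf hIh j 1 hj a ha
    rw [pow_one, ← e1]
    exact hfa
  · intro ho
    have := odd_exact (B.W i) hW hc ho (II (sp K B) i) hIf hIh (k := j) (by omega) ha
      (by rw [← e1]; exact hfa)
    simp only [II]
    rw [e1]
    exact this

theorem hq_sp [CharZero K] (B : Blocks n r N d) (hd : ∀ i, 1 ≤ d i) (M : ℕ) (hN : 2 * M + 1 ≤ N) :
    ∀ i, i ≤ r → ∀ k, k ≤ M → hq (sp K B) d i k = ee n d i k := by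
  intro i
  induction i with
  | zero =>
    intro _ k _
    rw [hq_zero, ee_zero]
  | succ i ih =>
    intro hi k
    induction k using Nat.strong_induction_on with
    | _ k ihk =>
      intro hk
      apply hq_eq (sp_mem B) hd i k (ih (by omega) k hk)
      · intro j hj; exact ih (by omega) j (by omega)
      · intro j hj; exact ihk j hj (by omega)
      · intro j hj a ha hfa
        exact sp_exact B hd i (by omega) j (by omega) a ha hfa

/-- pencil statement -/
theorem hq_pencil [CharZero K] (B : Blocks n r N d) (hd : ∀ i, 1 ≤ d i) (M : ℕ) (hN : 2 * M + 1 ≤ N)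
    (g : ℕ → ExteriorAlgebra K (Fin n → K)) (hg : ∀ i, g i ∈ ⋀[K]^(d i) (Fin n → K)) :
    ∀ i, i ≤ r → ∀ k, k ≤ M → ∀ᶠ s : K in Filter.cofinite,
      hq (fun l => sp K B l + s • (g l - sp K B l)) d i k = ee n d i k := by
  intro i
  induction i with
  | zero =>
    intro _ k _
    filter_upwards with s
    rw [hq_zero, ee_zero]
  | succ i ih =>
    intro hi k
    induction k using Nat.strong_induction_on with
    | _ k ihk =>
      intro hk
      have a1 := ih (by omega) k hk
      have a2 : ∀ᶠ s : K in Filter.cofinite, ∀ j ∈ Finset.range k,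
          hq (fun l => sp K B l + s • (g l - sp K B l)) d i j = ee n d i j := by
        rw [Filter.eventually_all_finset]
        intro j hj
        exact ih (by omega) j (by have := Finset.mem_range.1 hj; omega)
      have a3 : ∀ᶠ s : K in Filter.cofinite, ∀ j ∈ Finset.range k,
          hq (fun l => sp K B l + s • (g l - sp K B l)) d (i + 1) j = ee n d (i + 1) j := by
        rw [Filter.eventually_all_finset]
        intro j hj
        have := Finset.mem_range.1 hj
        exact ihk j this (by omega)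
      have a4 := Dm_semicont (sp K B) g d (i + 1) k 0
      filter_upwards [a1, a2, a3, a4] with s b1 b2 b3 b4
      have hmem : ∀ l, (fun l => sp K B l + s • (g l - sp K B l)) l ∈ ⋀[K]^(d l) (Fin n → K) := by
        intro l
        exact Submodule.add_mem _ (sp_mem B l) (Submodule.smul_mem _ _ (Submodule.sub_mem _ (hg l) (sp_mem B l)))
      apply le_antisymm
      · have b5 := hq_sp (K := K) B hd M hN (i + 1) hi k hk
        rw [← b5]
        have b6 : (fun l => sp K B l + (0 : K) • (g l - sp K B l)) = sp K B := by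
          funext l; simp
        rw [b6] at b4
        unfold hq
        have : (Dm (sp K B) d (i + 1) k : ℚ) ≤ Dm (fun l => sp K B l + s • (g l - sp K B l)) d (i + 1) k := by
          exact_mod_cast b4
        linarith
      · exact hq_lower hmem hd i k b1 (fun j hj => b2 j (Finset.mem_range.2 hj))
          (fun j hj => b3 j (Finset.mem_range.2 hj))

theorem hq_all [CharZero K] (B : Blocks n r N d) (hd : ∀ i, 1 ≤ d i) (M : ℕ) (hN : 2 * M + 1 ≤ N)
    (g : ℕ → ExteriorAlgebra K (Fin n → K)) (hg : ∀ i, g i ∈ ⋀[K]^(d i) (Fin n → K)) (k : ℕ)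
    (hk : k ≤ M) : ee n d r k ≤ hq g d r k := by
  have h1 := hq_pencil B hd M hN g hg r le_rfl k hk
  have h2 := Dm_semicont (sp K B) g d r k 1
  have : Infinite K := CharZero.infinite K
  obtain ⟨s, h3, h4⟩ := (h1.and h2).exists
  rw [← h3]
  have b6 : (fun l => sp K B l + (1 : K) • (g l - sp K B l)) = g := by
    funext l; simp
  rw [b6] at h4
  unfold hq
  have : (Dm g d r k : ℚ) ≤ Dm (fun l => sp K B l + s • (g l - sp K B l)) d r k := by
    exact_mod_cast h4
  linarith

end X195.AHG
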