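import Pool.Agent.X195.Cox2

set_option autoImplicit false

open Filter Topology Matrix

namespace Pool.Agent.X195.Cox

/-- `∑ 1 / (j! (j+k)!)` -/
noncomputable def SS (k : ℕ) : ℝ := ∑' j : ℕ, 1 / ((j.factorial : ℝ) * ((j + k).factorial : ℝ))

lemma term_pos (k j : ℕ) : 0 < 1 / ((j.factorial : ℝ) * ((j + k).factorial : ℝ)) := by positivity

lemma SS_summable (k : ℕ) :
    Summable fun j : ℕ => 1 / ((j.factorial : ℝ) * ((j + k).factorial : ℝ)) := by
  refine Summable.of_nonneg_of_le (fun j => (term_pos k j).le) (fun j => ?_)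
    (Real.summable_pow_div_factorial 1)
  rw [one_pow]
  have h1 : (1 : ℝ) ≤ ((j + k).factorial : ℝ) := by exact_mod_cast Nat.factorial_pos _
  have h2 : (0 : ℝ) < (j.factorial : ℝ) := by positivity
  exact one_div_le_one_div_of_le h2 (le_mul_of_one_le_right h2.le h1)

lemma SS_pos (k : ℕ) : 0 < SS k :=
  (SS_summable k).tsum_pos (fun j => (term_pos k j).le) 0 (term_pos k 0)

lemma SS_rec (k : ℕ) : SS k = SS (k + 2) + (k + 1) * SS (k + 1) := by
  have h1 : SS k = ∑' j : ℕ, (((j : ℝ) / ((j.factorial : ℝ) * ((j + (k + 1)).factorial : ℝ))) +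
      ((k : ℝ) + 1) * (1 / ((j.factorial : ℝ) * ((j + (k + 1)).factorial : ℝ)))) := by
    refine tsum_congr fun j => ?_
    have e : (((j + (k + 1)).factorial : ℕ) : ℝ) = (j + k + 1) * ((j + k).factorial : ℝ) := by
      rw [← add_assoc, Nat.factorial_succ]; push_cast; ring
    rw [e]
    have h2 : (0 : ℝ) < (j.factorial : ℝ) := by positivity
    have h3 : (0 : ℝ) < ((j + k).factorial : ℝ) := by positivity
    have h4 : (0 : ℝ) < (j : ℝ) + k + 1 := by positivity
    field_simp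
    ring
  have hshift : (fun j : ℕ => ((j + 1 : ℕ) : ℝ) /
      (((j + 1).factorial : ℝ) * ((j + 1 + (k + 1)).factorial : ℝ))) =
      fun j : ℕ => 1 / ((j.factorial : ℝ) * ((j + (k + 2)).factorial : ℝ)) := by
    funext j
    have e : j + 1 + (k + 1) = j + (k + 2) := by ring
    rw [e, Nat.factorial_succ j]
    have h2 : (0 : ℝ) < (j.factorial : ℝ) := by positivity
    have h3 : (0 : ℝ) < ((j + (k + 2)).factorial : ℝ) := by positivity
    push_cast
    field_simp
  have hs : Summable fun j : ℕ => (j : ℝ) / ((j.factorial : ℝ) * ((j + (k + 1)).factorial : ℝ)) := by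
    rw [← summable_nat_add_iff 1, hshift]
    exact SS_summable _
  rw [h1, hs.tsum_add ((SS_summable (k + 1)).mul_left _), tsum_mul_left, hs.tsum_eq_zero_add,
    hshift]
  simp [SS]

lemma SS_le (k : ℕ) : (k + 1) * SS (k + 1) ≤ SS k := by
  rw [SS_rec k]
  linarith [SS_pos (k + 2)]

/-- the companion sequence -/
def TT : ℕ → ℝ
  | 0 => 0
  | 1 => 1
  | (k + 2) => TT k + (k + 1) * TT (k + 1)

lemma TT_pos : ∀ k, 0 ≤ TT k ∧ 0 < TT (k + 1)
  | 0 => by simp [TT]
  | (k + 1) => by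
    obtain ⟨h1, h2⟩ := TT_pos k
    refine ⟨h2.le, ?_⟩
    rw [TT]
    positivity

lemma TT_le (k : ℕ) : (k + 1) * TT (k + 1) ≤ TT (k + 2) := by
  rw [TT]
  linarith [(TT_pos k).1]

lemma const (k : ℕ) : SS k * TT (k + 1) + SS (k + 1) * TT k = SS 0 := by
  induction k with
  | zero => simp [TT]
  | succ k ih =>
    rw [← ih, TT, SS_rec k]
    push_cast
    ring

/-- the points of the orbit, up to sign -/
noncomputable def yy (k : ℕ) : V :=
  ![-2 * SS (k + 1) * TT (k + 1), 2 * SS k * TT k - 2 * SS (k + 1) * TT (k + 1),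
    2 * SS k * TT k - 2 * SS (k + 1) * TT (k + 1) - (SS k * TT (k + 1) - SS (k + 1) * TT k)]

lemma act_yy (k : ℕ) : act !![0, 1; 1, (k : ℤ) + 1] (Ψ (yy k)) = - Ψ (yy (k + 1)) := by
  have h1 := SS_rec k
  have h2 : TT (k + 2) = TT k + (k + 1) * TT (k + 1) := by rw [TT]
  ext i j
  fin_cases i <;> fin_cases j <;>
    simp [act, Ψ, yy, Matrix.mul_apply, Fin.sum_univ_two, h1, h2] <;> ring

lemma act_R12 (Y : Matrix (Fin 2) (Fin 2) ℝ) : act (R 1 * R 2) Y = act !![1, 1; 0, 1] Y := by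
  ext i j
  fin_cases i <;> fin_cases j <;>
    simp [act, R, Matrix.mul_apply, Fin.sum_univ_two] <;> ring

lemma act_R12_pow (k : ℕ) (Y : Matrix (Fin 2) (Fin 2) ℝ) :
    act ((R 1 * R 2) ^ k) Y = act !![1, (k : ℤ); 0, 1] Y := by
  induction k generalizing Y with
  | zero =>
    congr 1
    ext i j
    fin_cases i <;> fin_cases j <;> simp
  | succ k ih =>
    rw [pow_succ, act_mul, ih, act_R12, ← act_mul]
    congr 1
    ext i j
    fin_cases i <;> fin_cases j <;> simp [Matrix.mul_apply, Fin.sum_univ_two] <;> ring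

/-- the group elements -/
noncomputable def gg : ℕ → (V ≃ₗ[ℝ] V)
  | 0 => 1
  | (k + 1) => rfe 0 * (rfe 1 * rfe 2) ^ (k + 1) * gg k

lemma gg_mem (k : ℕ) : gg k ∈ W BB := by
  induction k with
  | zero => exact one_mem _
  | succ k ih =>
    exact mul_mem (mul_mem (rfe_mem 0) (pow_mem (mul_mem (rfe_mem 1) (rfe_mem 2)) _)) ih

lemma Ψ_rfe12 (v : V) : Ψ ((rfe 1 * rfe 2) v) = act (R 1 * R 2) (Ψ v) := by
  show Ψ (rf 1 (rf 2 v)) = _
  rw [Ψ_rf, Ψ_rf, act_mul]

lemma Ψ_neg (v : V) : Ψ (-v) = - Ψ v := by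
  have := Ψ_smul (-1) v
  rwa [neg_one_smul, neg_one_smul] at this

lemma step (k : ℕ) : (rfe 0 * (rfe 1 * rfe 2) ^ (k + 1)) (yy k) = - yy (k + 1) := by
  apply Ψ_inj
  show Ψ (rf 0 (((rfe 1 * rfe 2) ^ (k + 1)) (yy k))) = _
  rw [Ψ_rf, act_pow Ψ_rfe12, act_R12_pow, Ψ_neg, ← act_yy, ← act_mul]
  congr 1
  ext i j
  fin_cases i <;> fin_cases j <;> simp [R, Matrix.mul_apply, Fin.sum_univ_two]

lemma gg_yy (k : ℕ) : gg k (yy 0) = (-1 : ℝ) ^ k • yy k := by
  induction k with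
  | zero => simp [gg]
  | succ k ih =>
    show (rfe 0 * (rfe 1 * rfe 2) ^ (k + 1)) (gg k (yy 0)) = _
    rw [ih, map_smul, step, pow_succ, smul_neg, mul_smul, neg_one_smul, smul_neg]

lemma lim1 : Tendsto (fun k => SS k * TT k) atTop (𝓝 0) := by
  rw [← tendsto_add_atTop_iff_nat 1]
  have h0 : Tendsto (fun k : ℕ => SS 0 * (1 / ((k : ℝ) + 1))) atTop (𝓝 (SS 0 * 0)) :=
    tendsto_one_div_add_atTop_nhds_zero_nat.const_mul _
  rw [mul_zero] at h0
  refine squeeze_zero (fun k => mul_nonneg (SS_pos _).le (TT_pos _).1) (fun k => ?_) h0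
  have h1 := TT_le k
  have h2 := const (k + 1)
  have h3 : 0 ≤ SS (k + 1 + 1) * TT (k + 1) := mul_nonneg (SS_pos _).le (TT_pos _).1
  have h4 : SS (k + 1) * ((k + 1) * TT (k + 1)) ≤ SS (k + 1) * TT (k + 2) :=
    mul_le_mul_of_nonneg_left h1 (SS_pos _).le
  have h5 : (0 : ℝ) < (k : ℝ) + 1 := by positivity
  rw [mul_one_div, le_div_iff₀ h5]
  have h6 : SS (k + 1) * TT (k + 1 + 1) ≤ SS 0 := by linarith
  calc SS (k + 1) * TT (k + 1) * (k + 1) = SS (k + 1) * ((k + 1) * TT (k + 1)) := by ring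
    _ ≤ _ := h4
    _ ≤ _ := h6

lemma lim2 : Tendsto (fun k => SS (k + 1) * TT k) atTop (𝓝 0) := by
  refine squeeze_zero (fun k => mul_nonneg (SS_pos _).le (TT_pos _).1) (fun k => ?_) lim1
  refine mul_le_mul_of_nonneg_right ?_ (TT_pos k).1
  have := SS_le k
  nlinarith [SS_pos (k + 1), mul_nonneg (Nat.cast_nonneg k : (0 : ℝ) ≤ k) (SS_pos (k + 1)).le]

lemma lim3 : Tendsto (fun k => SS k * TT (k + 1) - SS (k + 1) * TT k) atTop (𝓝 (SS 0)) := by
  have : Tendsto (fun k => SS 0 - 2 * (SS (k + 1) * TT k)) atTop (𝓝 (SS 0 - 2 * 0)) :=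
    (lim2.const_mul 2).const_sub _
  rw [mul_zero, sub_zero] at this
  refine this.congr fun k => ?_
  rw [← const k]
  ring

lemma lim_yy : Tendsto yy atTop (𝓝 ((-SS 0) • xx)) := by
  rw [tendsto_pi_nhds]
  have l1 : Tendsto (fun k => SS (k + 1) * TT (k + 1)) atTop (𝓝 0) :=
    (tendsto_add_atTop_iff_nat 1).mpr lim1
  intro i
  fin_cases i
  · have : Tendsto (fun k => (-2) * (SS (k + 1) * TT (k + 1))) atTop (𝓝 (-2 * 0)) :=
      l1.const_mul _
    simp only [mul_zero, ← mul_assoc] at this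
    simpa [yy, xx] using this
  · have : Tendsto (fun k => 2 * (SS k * TT k) - 2 * (SS (k + 1) * TT (k + 1))) atTop
        (𝓝 (2 * 0 - 2 * 0)) := (lim1.const_mul _).sub (l1.const_mul _)
    simp only [mul_zero, sub_zero, ← mul_assoc] at this
    simpa [yy, xx] using this
  · have : Tendsto (fun k => 2 * (SS k * TT k) - 2 * (SS (k + 1) * TT (k + 1)) -
        (SS k * TT (k + 1) - SS (k + 1) * TT k)) atTop
        (𝓝 (2 * 0 - 2 * 0 - SS 0)) := ((lim1.const_mul _).sub (l1.const_mul _)).sub lim3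
    simp only [mul_zero, sub_zero, zero_sub, ← mul_assoc] at this
    simpa [yy, xx] using this

/-- the projective invariant which distinguishes the points -/
noncomputable def aa (k : ℕ) : ℝ := (SS k * TT (k + 1) - SS (k + 1) * TT k) / (SS (k + 1) * TT (k + 1))

lemma aa_eq (k : ℕ) : aa k = (k + 1) + SS (k + 2) / SS (k + 1) - TT k / TT (k + 1) := by
  have h1 := SS_pos (k + 1)
  have h2 := (TT_pos k).2
  unfold aa
  rw [SS_rec k]
  field_simp
  ring

lemma aa_lt (k : ℕ) : aa (k + 1) < aa (k + 2) := by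
  rw [aa_eq, aa_eq]
  push_cast
  have h1 : SS (k + 1 + 2) / SS (k + 1 + 1) ≤ 1 / ((k : ℝ) + 3) := by
    rw [div_le_div_iff₀ (SS_pos _) (by positivity)]
    have := SS_le (k + 2)
    push_cast at this
    have e : ((k : ℝ) + 2 + 1) = k + 3 := by ring
    rw [e] at this
    linarith
  have h2 : 0 < SS (k + 2 + 2) / SS (k + 2 + 1) := div_pos (SS_pos _) (SS_pos _)
  have h3 : TT (k + 2) / TT (k + 2 + 1) ≤ 1 / ((k : ℝ) + 2) := by
    rw [div_le_div_iff₀ (TT_pos _).2 (by positivity)]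
    have := TT_le (k + 1)
    push_cast at this
    have e : ((k : ℝ) + 1 + 1) = k + 2 := by ring
    rw [e] at this
    linarith
  have h4 : 0 ≤ TT (k + 1) / TT (k + 1 + 1) := div_nonneg (TT_pos _).1 (TT_pos _).2.le
  have h5 : 1 / ((k : ℝ) + 3) + 1 / ((k : ℝ) + 2) < 1 := by
    have hk : (0 : ℝ) ≤ k := Nat.cast_nonneg k
    rw [div_add_div _ _ (by positivity) (by positivity), div_lt_one (by positivity)]
    nlinarith
  linarith

lemma aa_strictMono : StrictMono fun k => aa (k + 1) := strictMono_nat_of_lt_succ aa_lt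

lemma aa_smul {j k : ℕ} {c : ℝ} (h : yy j = c • yy k) : aa j = aa k := by
  have h0 := congrFun h 0
  have h1 := congrFun h 1
  have h2 := congrFun h 2
  simp only [yy, Pi.smul_apply, smul_eq_mul, Matrix.cons_val_zero, Matrix.cons_val_one,
    Matrix.cons_val_two, Matrix.head_cons, Matrix.tail_cons, Matrix.cons_val] at h0 h1 h2
  have p1 : 0 < SS (j + 1) * TT (j + 1) := mul_pos (SS_pos _) (TT_pos _).2
  have p2 : 0 < SS (k + 1) * TT (k + 1) := mul_pos (SS_pos _) (TT_pos _).2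
  unfold aa
  rw [div_eq_div_iff p1.ne' p2.ne']
  have e1 : SS (j + 1) * TT (j + 1) = c * (SS (k + 1) * TT (k + 1)) := by linarith
  have e2 : SS j * TT (j + 1) - SS (j + 1) * TT j = c * (SS k * TT (k + 1) - SS (k + 1) * TT k) := by
    linarith
  rw [e1, e2]
  ring

end Pool.Agent.X195.Cox
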