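import Pool.Agent.X195.GI5

set_option autoImplicit false

/-!
Face posets: functoriality, disjoint unions, least upper bounds, and the complex of the bounded
subsets of a `G`-poset.
-/

namespace Pool.Agent.X195.GI

open Set Topology Filter
open scoped Pointwise BigOperators

variable {G : Type} [Group G]

/-- the face poset, its order and action, spelled out -/
theorem F_le (K : GComplex G) (σ τ : K.F.E) : σ ≤ τ ↔ σ.1 ⊆ τ.1 := Iff.rfl

theorem F_smul (K : GComplex G) (g : G) (σ : K.F.E) : (g • σ).1 = (fun v => g • v) '' σ.1 := rfl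

theorem GComplex.HasSimpMap.F {K L : GComplex G} (h : K.HasSimpMap L) : K.F.HasMap L.F := by
  obtain ⟨φ, h1, h2⟩ := h
  refine ⟨fun σ => ⟨φ '' σ.1, h1 _ σ.2⟩, fun σ τ hστ => ?_, fun g σ => Subtype.ext ?_⟩
  · exact image_mono hστ
  · show φ '' ((fun v => g • v) '' σ.1) = (fun v => g • v) '' (φ '' σ.1)
    rw [image_image, image_image]
    simp only [h2]

/-- if the image of every face has a least upper bound, then the face poset maps to the poset -/
theorem F_map_of_lub (K : GComplex G) (P : GPoset G) (φ : K.V → P.E)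
    (hφ : ∀ (g : G) (v : K.V), φ (g • v) = g • φ v)
    (hlub : ∀ σ ∈ K.faces, ∃ u, IsLUB (φ '' σ) u) : K.F.HasMap P := by
  have hl : ∀ σ : K.F.E, ∃ u, IsLUB (φ '' σ.1) u := fun σ => hlub σ.1 σ.2
  choose f hf using hl
  refine ⟨f, fun σ τ hστ => (hf σ).2 fun x hx => (hf τ).1 (image_mono hστ hx), fun g σ => ?_⟩
  refine (hf (g • σ)).unique ?_
  have himg : φ '' ((fun v => g • v) '' σ.1) = (fun x => g • x) '' (φ '' σ.1) := by
    rw [image_image, image_image]
    simp only [hφ]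
  show IsLUB (φ '' ((fun v => g • v) '' σ.1)) (g • f σ)
  rw [himg]
  refine ⟨?_, ?_⟩
  · rintro _ ⟨x, hx, rfl⟩
    exact P.mono g _ _ ((hf σ).1 hx)
  · intro u hu
    have h1 : g⁻¹ • u ∈ upperBounds (φ '' σ.1) := by
      intro x hx
      have := P.mono g⁻¹ _ _ (hu ⟨x, hx, rfl⟩)
      rwa [inv_smul_smul] at this
    have := P.mono g _ _ ((hf σ).2 h1)
    rwa [smul_inv_smul] at this

theorem Delta_lub (P : GPoset G) : ∀ σ ∈ P.Delta.faces, ∃ u, IsLUB ((fun x : P.E => x) '' σ) u := by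
  rintro σ ⟨hne, hσ⟩
  obtain ⟨u, hu1, hu2⟩ := chain_lub (E := P.E) σ hne hσ
  refine ⟨u, ?_, ?_⟩
  · rintro _ ⟨v, hv, rfl⟩
    exact hu2 v hv
  · intro q hq
    exact hq ⟨u, hu1, rfl⟩

theorem F_Delta (P : GPoset G) : P.Delta.F.HasMap P :=
  F_map_of_lub P.Delta P (fun x => x) (fun _ _ => rfl) (Delta_lub P)

/-- the face poset of a disjoint union -/
theorem F_sum (K L : GComplex G) : (K.sum L).F.HasMap (K.F.sum L.F) := by
  have hex : ∀ σ : (K.sum L).F.E, ∃ t : K.F.E ⊕ L.F.E,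
      (∀ τ, t = Sum.inl τ → σ.1 = Sum.inl '' τ.1) ∧ (∀ τ, t = Sum.inr τ → σ.1 = Sum.inr '' τ.1) := by
    rintro ⟨σ, hσ⟩
    rcases hσ with ⟨τ, hτ, h⟩ | ⟨τ, hτ, h⟩
    · refine ⟨Sum.inl ⟨τ, hτ⟩, ?_, ?_⟩
      · intro τ' h'
        rw [← Sum.inl_injective h']
        exact h
      · intro τ' h'
        exact absurd h' (by simp)
    · refine ⟨Sum.inr ⟨τ, hτ⟩, ?_, ?_⟩
      · intro τ' h'
        exact absurd h' (by simp)
      · intro τ' h'
        rw [← Sum.inr_injective h']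
        exact h
  choose f hf1 hf2 using hex
  have hne1 : ∀ (τ : K.F.E), (τ.1 : Set K.V).Nonempty := fun τ => K.nonempty _ τ.2
  have hne2 : ∀ (τ : L.F.E), (τ.1 : Set L.V).Nonempty := fun τ => L.nonempty _ τ.2
  refine ⟨f, ?_, ?_⟩
  · intro σ σ' hle
    have hle' : σ.1 ⊆ σ'.1 := hle
    rcases h1 : f σ with τ | τ <;> rcases h2 : f σ' with τ' | τ'
    · rw [hf1 σ τ h1, hf1 σ' τ' h2] at hle'
      refine Sum.inl_le_inl_iff.mpr ?_
      exact (image_subset_image_iff Sum.inl_injective).mp hle'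
    · rw [hf1 σ τ h1, hf2 σ' τ' h2] at hle'
      obtain ⟨v, hv⟩ := hne1 τ
      obtain ⟨w, -, hw⟩ := hle' ⟨v, hv, rfl⟩
      exact absurd hw (by simp)
    · rw [hf2 σ τ h1, hf1 σ' τ' h2] at hle'
      obtain ⟨v, hv⟩ := hne2 τ
      obtain ⟨w, -, hw⟩ := hle' ⟨v, hv, rfl⟩
      exact absurd hw (by simp)
    · rw [hf2 σ τ h1, hf2 σ' τ' h2] at hle'
      refine Sum.inr_le_inr_iff.mpr ?_
      exact (image_subset_image_iff Sum.inr_injective).mp hle'
  · intro g σ
    have hg : (g • σ).1 = (fun v : K.V ⊕ L.V => g • v) '' σ.1 := rfl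
    rcases h1 : f σ with τ | τ <;> rcases h2 : f (g • σ) with τ' | τ'
    · have e1 := hf1 σ τ h1
      have e2 := hf1 (g • σ) τ' h2
      rw [hg, e1, image_image] at e2
      refine congrArg Sum.inl (Subtype.ext ?_)
      refine (image_injective.mpr (Sum.inl_injective (α := K.V) (β := L.V))) ?_
      show Sum.inl '' τ'.1 = Sum.inl '' ((fun v => g • v) '' τ.1)
      rw [← e2, image_image]
      rfl
    · have e1 := hf1 σ τ h1
      have e2 := hf2 (g • σ) τ' h2
      rw [hg, e1, image_image] at e2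
      obtain ⟨v, hv⟩ := hne1 τ
      have : (Sum.inl (g • v) : K.V ⊕ L.V) ∈ Sum.inr '' τ'.1 := by
        rw [← e2]
        exact ⟨v, hv, rfl⟩
      obtain ⟨w, -, hw⟩ := this
      exact absurd hw (by simp)
    · have e1 := hf2 σ τ h1
      have e2 := hf1 (g • σ) τ' h2
      rw [hg, e1, image_image] at e2
      obtain ⟨v, hv⟩ := hne2 τ
      have : (Sum.inr (g • v) : K.V ⊕ L.V) ∈ Sum.inl '' τ'.1 := by
        rw [← e2]
        exact ⟨v, hv, rfl⟩
      obtain ⟨w, -, hw⟩ := this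
      exact absurd hw (by simp)
    · have e1 := hf2 σ τ h1
      have e2 := hf2 (g • σ) τ' h2
      rw [hg, e1, image_image] at e2
      refine congrArg Sum.inr (Subtype.ext ?_)
      refine (image_injective.mpr (Sum.inr_injective (α := K.V) (β := L.V))) ?_
      show Sum.inr '' τ'.1 = Sum.inr '' ((fun v => g • v) '' τ.1)
      rw [← e2, image_image]
      rfl

/-! ### Freeness -/

/-- combinatorial freeness: no simplex contains two vertices of one orbit -/
def GComplex.Free' (K : GComplex G) : Prop :=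
  ∀ σ ∈ K.faces, ∀ (g : G) (v : K.V), v ∈ σ → g • v ∈ σ → g = 1

theorem GComplex.Free'.free {K : GComplex G} (h : K.Free') : K.IsFree := by
  intro g x hx hgx
  obtain ⟨v, hv⟩ := supp_nonempty (V := K.V) hx.2.1
  refine h _ hx.2.2 g v hv ?_
  have h1 : {v | actR g x v ≠ 0} = {v | x v ≠ 0} := by rw [hgx]
  rw [supp_actR] at h1
  rw [← h1]
  exact ⟨v, hv, rfl⟩

theorem Free'.sum {K L : GComplex G} (h1 : K.Free') (h2 : L.Free') : (K.sum L).Free' := by
  rintro σ (⟨τ, hτ, rfl⟩ | ⟨τ, hτ, rfl⟩) g v ⟨w, hw, rfl⟩ ⟨w', hw', h'⟩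
  · refine h1 τ hτ g w hw ?_
    have : w' = g • w := Sum.inl_injective h'
    rwa [← this]
  · refine h2 τ hτ g w hw ?_
    have : w' = g • w := Sum.inr_injective h'
    rwa [← this]

theorem Free'_Q (G : Type) [Group G] [Fintype G] (n : ℕ) : (Q G n).Delta.Free' := by
  rintro σ ⟨-, hσ⟩ g v hv hgv
  by_contra hne
  have hvg : v ≠ g • v := by
    intro h
    exact hne (Q_free G n g v h.symm)
  rcases hσ hv hgv hvg with h | h
  · rcases h with h | h
    · exact hvg h
    · exact absurd h (lt_irrefl _)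
  · rcases h with h | h
    · exact hvg h.symm
    · exact absurd h (lt_irrefl _)

/-! ### The complex of bounded subsets -/

/-- the complex of nonempty bounded above subsets of a `G`-poset -/
def GPoset.Bd (P : GPoset G) : GComplex G where
  V := P.E
  faces := {σ | σ.Nonempty ∧ BddAbove σ}
  nonempty := fun _ h => h.1
  vertex := fun v => ⟨singleton_nonempty v, ⟨v, by rintro _ rfl; exact le_rfl⟩⟩
  down := fun _ h _ hτ hne => ⟨hne, h.2.mono hτ⟩
  inv := by
    rintro g σ ⟨h1, q, hq⟩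
    refine ⟨h1.image _, g • q, ?_⟩
    rintro _ ⟨x, hx, rfl⟩
    exact P.mono g _ _ (hq hx)

theorem Bd_lub {P : GPoset G} (hbc : BComplete P.E) :
    ∀ σ ∈ P.Bd.faces, ∃ u, IsLUB ((fun x : P.E => x) '' σ) u := by
  rintro σ ⟨hne, hσ⟩
  have himg : (fun x : P.E => x) '' σ = σ := image_id' σ
  obtain ⟨u, hu⟩ := hbc σ hne hσ
  refine ⟨u, ?_⟩
  rw [himg]
  exact hu

/-- principal ideals -/
theorem map_F_Bd (P : GPoset G) : P.HasMap P.Bd.F := by
  refine ⟨fun q => ⟨{z : P.E | z ≤ q}, ⟨q, le_refl q⟩, ⟨q, fun _ h => h⟩⟩, ?_, ?_⟩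
  · intro p q hpq
    show {z : P.E | z ≤ p} ⊆ {z : P.E | z ≤ q}
    exact fun z hz => le_trans hz hpq
  · intro g p
    refine Subtype.ext ?_
    show {z : P.E | z ≤ g • p} = (fun v => g • v) '' {z : P.E | z ≤ p}
    ext z
    constructor
    · intro hz
      refine ⟨g⁻¹ • z, ?_, smul_inv_smul g z⟩
      have := P.mono g⁻¹ _ _ (show z ≤ g • p from hz)
      rwa [inv_smul_smul] at this
    · rintro ⟨w, hw, rfl⟩
      exact P.mono g _ _ hw

theorem Free'_Bd {P : Type} {k : ℕ} [Fintype P] (T : Tw P k) [Fintype G] (s : G) :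
    (T.X s).Bd.Free' := by
  rintro σ ⟨-, u, hu⟩ g v hv hgv
  obtain ⟨c, h1, h2⟩ := hu hv
  obtain ⟨c', h3, h4⟩ := hu hgv
  have hcc : c' = c := T.uniq h3 h1
  subst hcc
  have h4' : u.1 = g * v.1 * s ^ c' := h4
  rw [h2] at h4'
  have h5 := mul_right_cancel h4'
  exact (mul_eq_right.mp h5.symm)

/-- the construction for simplicial complexes -/
theorem main_complex (G : Type) [Group G] [Fintype G] [Nontrivial G] (m n : ℕ) (hm : 1 ≤ m)
    (hmn : m < n) :
    ∃ K : GComplex G, K.IsFree ∧ K.HasTopMap (Q G m).Delta ∧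
      (∀ j < m, ¬ K.HasTopMap (Q G j).Delta) ∧ K.F.HasMap (Q G n) ∧
      ∀ j < n, ¬ K.F.HasMap (Q G j) := by
  obtain ⟨s, hs⟩ := exists_ne (1 : G)
  obtain ⟨P, hP, T, hbc, hT⟩ := schemeB G s hs n
  let X := T.X s
  refine ⟨X.Bd.sum (Q G m).Delta, (Free'.sum (Free'_Bd T s) (Free'_Q G m)).free, ?_, ?_, ?_, ?_⟩
  · refine GComplex.sum_hasTopMap ?_ (Q_mono le_rfl).simpMap.topMap
    refine GComplex.HasTopMap.trans ?_ (Q_mono hm).simpMap.topMap
    exact ind_le_one T s X.Bd (fun x => x) (fun _ _ => rfl) (Bd_lub hbc)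
  · intro j hj h
    exact no_topMap G hj (GComplex.HasTopMap.trans (GComplex.sum_inr X.Bd (Q G m).Delta).topMap h)
  · refine GPoset.HasMap.trans (F_sum X.Bd (Q G m).Delta) (GPoset.sum_hasMap ?_ ?_)
    · exact GPoset.HasMap.trans (F_map_of_lub X.Bd X (fun x => x) (fun _ _ => rfl) (Bd_lub hbc))
        (T.X_map s)
    · exact GPoset.HasMap.trans (F_Delta (Q G m)) (Q_mono hmn.le)
  · intro j hj h
    have h1 : X.HasMap (Q G j) := GPoset.HasMap.trans (map_F_Bd X)
      (GPoset.HasMap.trans (GComplex.sum_inl X.Bd (Q G m).Delta).F h)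
    obtain ⟨ψ, h2, h3⟩ := h1
    obtain ⟨p, hp⟩ := hT j ψ h3 h2
    have := (ψ (T.el s 1 p)).2.isLt
    omega

end Pool.Agent.X195.GI
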