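import Pool.Agent.X195.GI9

set_option autoImplicit false

/-!
The cross-index of the product is exactly one; nice groups; simplicial posets.
-/

namespace Pool.Agent.X195.GI

open Set

/-- the vertex of the face poset of an order complex -/
def vtx {G : Type} [Group G] (P : GPoset G) (p : P.E) : P.Delta.F.E := ⟨{p}, P.Delta.vertex p⟩

theorem vtx_smul {G : Type} [Group G] (P : GPoset G) (g : G) (p : P.E) :
    vtx P (g • p) = g • vtx P p := Subtype.ext (by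
  show ({g • p} : Set P.E) = (fun v => g • v) '' {p}
  rw [image_singleton])

/-- a `G`-map of a product of face posets to `Q_0 G` takes the same value on neighbours -/
theorem const_of_le {G : Type} [Group G] [Fintype G] (P : GPoset G) (R : GPoset G)
    (ψ : (P.Delta.F.prod R).E → QT G 0)
    (hψ : ∀ p q : (P.Delta.F.prod R).E, p ≤ q → ψ p ≤ ψ q) (r : R.E) (p q : P.E) (hpq : p ≤ q) :
    ψ (vtx P p, r) = ψ (vtx P q, r) := by
  have heq : ∀ x y : QT G 0, x ≤ y → x = y := by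
    rintro x y (h | h)
    · exact h
    · have h1 := x.2.isLt
      have h2 := y.2.isLt
      have h3 := Fin.lt_def.mp h
      omega
  have hpair : ({p, q} : Set P.E) ∈ P.Delta.faces := by
    refine ⟨⟨p, Or.inl rfl⟩, ?_⟩
    rintro a (rfl | rfl) b (rfl | rfl) hab
    · exact absurd rfl hab
    · exact Or.inl hpq
    · exact Or.inr hpq
    · exact absurd rfl hab
  let e : P.Delta.F.E := ⟨{p, q}, hpair⟩
  have h1 : vtx P p ≤ e := by
    show ({p} : Set P.E) ⊆ {p, q}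
    exact singleton_subset_iff.mpr (Or.inl rfl)
  have h2 : vtx P q ≤ e := by
    show ({q} : Set P.E) ⊆ {p, q}
    exact singleton_subset_iff.mpr (Or.inr rfl)
  have e1 : ψ (vtx P p, r) = ψ (e, r) := heq _ _ (hψ _ _ (Prod.le_def.mpr ⟨h1, le_rfl⟩))
  have e2 : ψ (vtx P q, r) = ψ (e, r) := heq _ _ (hψ _ _ (Prod.le_def.mpr ⟨h2, le_rfl⟩))
  rw [e1, e2]

/-- interchange of the factors -/
theorem prod_comm_map {G : Type} [Group G] (P R : GPoset G) : (P.prod R).HasMap (R.prod P) :=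
  ⟨fun x => (x.2, x.1), fun _ _ h => Prod.le_def.mpr ⟨h.2, h.1⟩, fun _ _ => rfl⟩

theorem prod_not_zero : ¬ (T1.Delta.F.prod T2.Delta.F).HasMap (Q C4 0) := by
  rintro ⟨ψ, h1, h2⟩
  have hA := const_of_le T1 T2.Delta.F ψ h1
  have hB : ∀ (r : T1.Delta.F.E) (p q : T2.E), p ≤ q → ψ (r, vtx T2 p) = ψ (r, vtx T2 q) := by
    intro r p q hpq
    exact const_of_le T2 T1.Delta.F (fun x => ψ (x.2, x.1))
      (fun x y h => h1 _ _ (Prod.le_def.mpr ⟨h.2, h.1⟩)) r p q hpq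
  let x0 : T1.E := ((0, 0) : ZMod 4 × ZMod 4)
  let x1 : T1.E := ((1, 0) : ZMod 4 × ZMod 4)
  let x2 : T1.E := ((2, 0) : ZMod 4 × ZMod 4)
  let x3 : T1.E := ((2, 1) : ZMod 4 × ZMod 4)
  let x4 : T1.E := ((2, 2) : ZMod 4 × ZMod 4)
  let y0 : T2.E := ((0, 0) : ZMod 4 × Fin 3)
  let y1 : T2.E := ((0, 1) : ZMod 4 × Fin 3)
  let y2 : T2.E := ((2, 0) : ZMod 4 × Fin 3)
  have l1 : x0 ≤ x1 := ⟨by decide, by decide⟩
  have l2 : x2 ≤ x1 := ⟨by decide, by decide⟩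
  have l3 : x2 ≤ x3 := ⟨by decide, by decide⟩
  have l4 : x4 ≤ x3 := ⟨by decide, by decide⟩
  have m1 : y0 ≤ y1 := Or.inr ⟨by decide, by decide⟩
  have m2 : y2 ≤ y1 := Or.inr ⟨by decide, by decide⟩
  have e : ψ (vtx T1 x0, vtx T2 y0) = ψ (vtx T1 x4, vtx T2 y2) := by
    rw [hA _ _ _ l1, ← hA _ _ _ l2, hA _ _ _ l3, ← hA _ _ _ l4, hB _ _ _ m1, ← hB _ _ _ m2]
  let z : C4 := Multiplicative.ofAdd 2
  have hx : x4 = z • x0 := by
    show ((2, 2) : ZMod 4 × ZMod 4) = rot4 2 (0, 0)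
    decide
  have hy : y2 = z • y0 := by
    show ((2, 0) : ZMod 4 × Fin 3) = (2 + 0, 0)
    decide
  rw [hx, hy, vtx_smul, vtx_smul] at e
  have e' : ψ (vtx T1 x0, vtx T2 y0) = z • ψ (vtx T1 x0, vtx T2 y0) := by
    have h3 := h2 z ((vtx T1 x0, vtx T2 y0) : (T1.Delta.F.prod T2.Delta.F).E)
    exact e.trans h3
  have e'' : (ψ (vtx T1 x0, vtx T2 y0)).1 = z * (ψ (vtx T1 x0, vtx T2 y0)).1 := congrArg Prod.fst e'
  have hz : z = 1 := mul_eq_right.mp e''.symm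
  exact absurd hz (by decide)

/-- nice groups: nontrivial cyclic `p`-groups, and the generalized quaternion groups `Q_{4n}`,
`n ≥ 2`, of order a power of two -/
def IsNice (G : Type) [Group G] : Prop :=
  (∃ p k : ℕ, p.Prime ∧ 1 ≤ k ∧ IsCyclic G ∧ Nat.card G = p ^ k) ∨
    ∃ m : ℕ, 1 ≤ m ∧ Nonempty (G ≃* QuaternionGroup (2 ^ m))

theorem C4_nice : IsNice C4 := by
  refine Or.inl ⟨2, 2, Nat.prime_two, by norm_num, inferInstance, ?_⟩
  rw [Nat.card_eq_fintype_card, Fintype.card_multiplicative, ZMod.card]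
  norm_num

/-- simplicial posets: every principal ideal is isomorphic to the poset of nonempty subsets of a
finite nonempty set -/
def GPoset.IsSimplicial {G : Type} [Group G] (P : GPoset G) : Prop :=
  ∀ p : P.E, ∃ (A : Type) (_ : Finite A) (_ : Nonempty A),
    Nonempty ({q : P.E // q ≤ p} ≃o {s : Set A // s.Nonempty})

/-- face posets are simplicial posets -/
theorem F_simplicial {G : Type} [Group G] (K : GComplex G) : K.F.IsSimplicial := by
  intro σ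
  have hne : σ.1.Nonempty := K.nonempty _ σ.2
  refine ⟨{v : K.V // v ∈ σ.1}, inferInstance, ⟨⟨hne.choose, hne.choose_spec⟩⟩, ⟨?_⟩⟩
  refine
    { toFun := fun τ => ⟨{v | v.1 ∈ τ.1.1}, ?_⟩
      invFun := fun s => ⟨⟨Subtype.val '' s.1, ?_⟩, ?_⟩
      left_inv := ?_
      right_inv := ?_
      map_rel_iff' := ?_ }
  · obtain ⟨v, hv⟩ := K.nonempty _ τ.1.2
    exact ⟨⟨v, τ.2 hv⟩, hv⟩
  · refine K.down σ.1 σ.2 _ ?_ (s.2.image _)
    rintro _ ⟨v, -, rfl⟩
    exact v.2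
  · show Subtype.val '' s.1 ⊆ σ.1
    rintro _ ⟨v, -, rfl⟩
    exact v.2
  · rintro ⟨⟨τ, hτ⟩, hle⟩
    have hle' : τ ⊆ σ.1 := hle
    refine Subtype.ext (Subtype.ext ?_)
    show Subtype.val '' {v : {v : K.V // v ∈ σ.1} | v.1 ∈ τ} = τ
    ext v
    constructor
    · rintro ⟨w, hw, rfl⟩
      exact hw
    · intro hv
      exact ⟨⟨v, hle' hv⟩, hv, rfl⟩
  · rintro ⟨s, hs⟩
    refine Subtype.ext ?_
    show {v : {v : K.V // v ∈ σ.1} | v.1 ∈ Subtype.val '' s} = s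
    ext v
    constructor
    · rintro ⟨w, hw, h⟩
      rwa [← Subtype.ext h]
    · intro hv
      exact ⟨v, hv, rfl⟩
  · rintro ⟨⟨τ, hτ⟩, hle⟩ ⟨⟨τ', hτ'⟩, hle'⟩
    have h1 : τ ⊆ σ.1 := hle
    show {v : {v : K.V // v ∈ σ.1} | v.1 ∈ τ} ⊆ {v : {v : K.V // v ∈ σ.1} | v.1 ∈ τ'} ↔ τ ⊆ τ'
    constructor
    · intro h v hv
      exact h (show (⟨v, h1 hv⟩ : {v : K.V // v ∈ σ.1}) ∈ {v : {v : K.V // v ∈ σ.1} | v.1 ∈ τ} from hv)
    · intro h v hv
      exact h hv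

/-- the face poset of a combinatorially free complex is a free `G`-poset -/
theorem F_free {G : Type} [Group G] {K : GComplex G} (h : K.Free') : K.F.IsFree := by
  intro g σ hσ
  obtain ⟨v, hv⟩ := K.nonempty _ σ.2
  refine h σ.1 σ.2 g v hv ?_
  have h1 : (fun v => g • v) '' σ.1 = σ.1 := congrArg Subtype.val hσ
  rw [← h1]
  exact ⟨v, hv, rfl⟩

/-- the counterexample -/
theorem main_prod' : ∃ K₁ K₂ : GComplex C4, K₁.Free' ∧ K₂.Free' ∧
    IsLeast {n : ℕ | K₁.F.HasMap (Q C4 n)} 2 ∧ IsLeast {n : ℕ | K₂.F.HasMap (Q C4 n)} 2 ∧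
    IsLeast {n : ℕ | (K₁.F.prod K₂.F).HasMap (Q C4 n)} 1 := by
  have low : ∀ T : GPoset C4, (∀ B, ¬ Nonempty (Coc T c4 4 B)) →
      ∀ j < 2, ¬ T.Delta.F.HasMap (Q C4 j) := by
    intro T hT j hj h
    have h1 : T.Delta.F.HasMap (Q C4 1) := GPoset.HasMap.trans h (Q_mono (by omega))
    have h2 := Coc.descend (Coc.comap h1 (Coc.ofQ c4))
    rw [order_c4] at h2
    exact hT _ h2
  refine ⟨T1.Delta, T2.Delta, Free'_Delta T1 T1_free, Free'_Delta T2 T2_free, ⟨?_, ?_⟩, ⟨?_, ?_⟩,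
    ⟨?_, ?_⟩⟩
  · exact GPoset.HasMap.trans (F_Delta T1) T1_map
  · intro n hn
    by_contra hlt
    exact low T1 T1_no_coc n (not_le.mp hlt) hn
  · exact GPoset.HasMap.trans (F_Delta T2) T2_map
  · intro n hn
    by_contra hlt
    exact low T2 T2_no_coc n (not_le.mp hlt) hn
  · exact GPoset.HasMap.trans (GPoset.prod_map (F_Delta T1) (F_Delta T2)) prod_le_one
  · intro n hn
    by_contra hlt
    have : n = 0 := by omega
    subst this
    exact prod_not_zero hn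

end Pool.Agent.X195.GI
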