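import Mathlib

set_option autoImplicit false

/-!
Functionals on `C(K)` and separately continuous functions. The Riesz theorem `riesz` is taken from
`W348.BE.Riesz`, the decomposition `jordan` is adapted from `H632R3.BEUR.A6`.
-/

open MeasureTheory Filter Topology Set

namespace Pool.Agent.X195.WF

theorem riesz {X : Type*} [TopologicalSpace X] [CompactSpace X] [T2Space X] [MeasurableSpace X]
    [BorelSpace X] (L : C(X, ℝ) → ℝ) (hadd : ∀ f g, L (f + g) = L f + L g)
    (hsmul : ∀ (c : ℝ) f, L (c • f) = c * L f)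
    (hpos : ∀ f : C(X, ℝ), (∀ x, 0 ≤ f x) → 0 ≤ L f) (hone : L 1 = 1) :
    ∃ ρ : Measure X, IsProbabilityMeasure ρ ∧ ∀ φ : C(X, ℝ), ∫ x, φ x ∂ρ = L φ := by
  let Λ₀ : CompactlySupportedContinuousMap X ℝ →ₗ[ℝ] ℝ :=
    { toFun := fun f => L (f : C(X, ℝ))
      map_add' := fun f g => hadd (f : C(X, ℝ)) (g : C(X, ℝ))
      map_smul' := fun c f => hsmul c (f : C(X, ℝ)) }
  let Λ : CompactlySupportedContinuousMap X ℝ →ₚ[ℝ] ℝ :=
    PositiveLinearMap.mk₀ Λ₀ (fun f hf => hpos _ (fun x => hf x))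
  have key : ∀ f : CompactlySupportedContinuousMap X ℝ, ∫ x, f x ∂(RealRMK.rieszMeasure Λ) = Λ f :=
    fun f => RealRMK.integral_rieszMeasure Λ f
  have key' : ∀ φ : C(X, ℝ), ∫ x, φ x ∂(RealRMK.rieszMeasure Λ) = L φ := by
    intro φ
    exact key (CompactlySupportedContinuousMap.continuousMapEquiv φ)
  refine ⟨RealRMK.rieszMeasure Λ, ?_, key'⟩
  have : IsFiniteMeasure (RealRMK.rieszMeasure Λ) := CompactSpace.isFiniteMeasure
  have h1 := key' 1
  rw [hone] at h1
  simp at h1
  refine ⟨?_⟩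
  rw [← ENNReal.ofReal_one, ← h1, ofReal_measureReal]

variable {K : Type*} [TopologicalSpace K] [CompactSpace K]

/-- norm of the positive part -/
noncomputable def P (f : C(K, ℝ)) : ℝ := ‖f ⊔ 0‖

lemma P_nonneg (f : C(K, ℝ)) : 0 ≤ P f := norm_nonneg _

lemma P_spec (f : C(K, ℝ)) (x : K) : max (f x) 0 ≤ P f := by
  have h := (f ⊔ 0).norm_coe_le_norm x
  have h2 : (f ⊔ 0) x = max (f x) 0 := rfl
  rw [h2, Real.norm_of_nonneg (le_max_right _ _)] at h
  exact h

lemma P_le (f : C(K, ℝ)) (C : ℝ) (hC : 0 ≤ C) (h : ∀ x, max (f x) 0 ≤ C) : P f ≤ C := by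
  refine (ContinuousMap.norm_le _ hC).2 (fun x => ?_)
  have h2 : (f ⊔ 0) x = max (f x) 0 := rfl
  rw [h2, Real.norm_of_nonneg (le_max_right _ _)]
  exact h x

lemma P_add (f g : C(K, ℝ)) : P (f + g) ≤ P f + P g := by
  refine P_le _ _ (add_nonneg (P_nonneg f) (P_nonneg g)) (fun x => ?_)
  have h1 := P_spec f x
  have h2 := P_spec g x
  refine max_le ?_ (add_nonneg (P_nonneg f) (P_nonneg g))
  have h3 := le_max_left (f x) 0
  have h4 := le_max_left (g x) 0
  show f x + g x ≤ _
  linarith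

lemma P_smul_le (c : ℝ) (hc : 0 < c) (f : C(K, ℝ)) : P (c • f) ≤ c * P f := by
  refine P_le _ _ (mul_nonneg hc.le (P_nonneg f)) (fun x => ?_)
  refine max_le ?_ (mul_nonneg hc.le (P_nonneg f))
  have h1 := (le_max_left (f x) 0).trans (P_spec f x)
  show c * f x ≤ _
  exact mul_le_mul_of_nonneg_left h1 hc.le

lemma P_smul (c : ℝ) (hc : 0 < c) (f : C(K, ℝ)) : P (c • f) = c * P f := by
  apply le_antisymm (P_smul_le c hc f)
  have h := P_smul_le c⁻¹ (inv_pos.2 hc) (c • f)
  rw [smul_smul, inv_mul_cancel₀ hc.ne', one_smul] at h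
  calc c * P f ≤ c * (c⁻¹ * P (c • f)) := mul_le_mul_of_nonneg_left h hc.le
    _ = P (c • f) := by field_simp

lemma P_le_norm (f : C(K, ℝ)) : P f ≤ ‖f‖ := by
  refine P_le _ _ (norm_nonneg _) (fun x => max_le ?_ (norm_nonneg _))
  exact (le_abs_self _).trans (f.norm_coe_le_norm x)

lemma P_neg (f : C(K, ℝ)) (h : ∀ x, f x ≤ 0) : P f = 0 := by
  apply le_antisymm _ (P_nonneg f)
  exact P_le _ _ le_rfl (fun x => max_le (h x) le_rfl)

/-- the functional on the antidiagonal -/
noncomputable def pm (Ψ : StrongDual ℝ C(K, ℝ)) : (C(K, ℝ) × C(K, ℝ)) →ₗ.[ℝ] ℝ where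
  domain := LinearMap.ker (LinearMap.fst ℝ C(K, ℝ) C(K, ℝ) + LinearMap.snd ℝ C(K, ℝ) C(K, ℝ))
  toFun := (Ψ.toLinearMap.comp (LinearMap.fst ℝ C(K, ℝ) C(K, ℝ))).comp (Submodule.subtype _)

theorem jordan (Ψ : StrongDual ℝ C(K, ℝ)) : ∃ a b : C(K, ℝ) →ₗ[ℝ] ℝ,
    (∀ f : C(K, ℝ), (∀ x, 0 ≤ f x) → 0 ≤ a f) ∧ (∀ f : C(K, ℝ), (∀ x, 0 ≤ f x) → 0 ≤ b f) ∧
    ∀ f, Ψ f = a f - b f := by
  have hΨ : 0 ≤ ‖Ψ‖ := norm_nonneg Ψ
  obtain ⟨Λ, h1, h2⟩ := exists_extension_of_le_sublinear (pm Ψ)
    (fun z => ‖Ψ‖ * max (P z.1) (P z.2)) (by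
      intro c hc z
      simp only [Prod.smul_fst, Prod.smul_snd]
      rw [P_smul c hc, P_smul c hc, ← mul_max_of_nonneg _ _ hc.le]
      ring) (by
      intro y z
      simp only [Prod.fst_add, Prod.snd_add]
      rw [← mul_add]
      apply mul_le_mul_of_nonneg_left _ hΨ
      apply max_le
      · exact (P_add _ _).trans (add_le_add (le_max_left _ _) (le_max_left _ _))
      · exact (P_add _ _).trans (add_le_add (le_max_right _ _) (le_max_right _ _))) (by
      rintro ⟨⟨u, v⟩, huv⟩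
      have huv' : u + v = 0 := huv
      have hv : v = -u := by rw [eq_neg_iff_add_eq_zero, add_comm]; exact huv'
      show Ψ u ≤ ‖Ψ‖ * max (P u) (P v)
      have h1 : Ψ u ≤ ‖Ψ‖ * ‖u‖ := (le_abs_self _).trans (Ψ.le_opNorm u)
      refine h1.trans (mul_le_mul_of_nonneg_left ?_ hΨ)
      rw [ContinuousMap.norm_le _ (le_max_of_le_left (P_nonneg u))]
      intro x
      rw [Real.norm_eq_abs, abs_le]
      constructor
      · have h3 := (le_max_left (v x) 0).trans (P_spec v x)
        have h4 : v x = - u x := by rw [hv]; rfl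
        rw [h4] at h3
        have := h3.trans (le_max_right (P u) (P v))
        linarith
      · exact ((le_max_left (u x) 0).trans (P_spec u x)).trans (le_max_left _ _))
  have hP0 : P (0 : C(K, ℝ)) = 0 := P_neg 0 (fun x => le_rfl)
  have ha : ∀ f : C(K, ℝ), Λ (f, 0) ≤ ‖Ψ‖ * P f := by
    intro f
    refine (h2 (f, 0)).trans ?_
    simp only [hP0]
    rw [max_eq_left (P_nonneg f)]
  have hb : ∀ f : C(K, ℝ), Λ (0, f) ≤ ‖Ψ‖ * P f := by
    intro f
    refine (h2 (0, f)).trans ?_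
    simp only [hP0]
    rw [max_eq_right (P_nonneg f)]
  have key2 : ∀ (A : C(K, ℝ) →ₗ[ℝ] ℝ), (∀ f, A f ≤ ‖Ψ‖ * P f) → ∀ f : C(K, ℝ),
      (∀ x, 0 ≤ f x) → 0 ≤ A f := by
    intro A hA f hf
    have h3 := hA (-f)
    rw [map_neg, P_neg (-f) (fun x => by show - f x ≤ 0; linarith [hf x]), mul_zero] at h3
    linarith
  set A : C(K, ℝ) →ₗ[ℝ] ℝ := Λ.comp (LinearMap.inl ℝ C(K, ℝ) C(K, ℝ)) with hAdef
  set B : C(K, ℝ) →ₗ[ℝ] ℝ := Λ.comp (LinearMap.inr ℝ C(K, ℝ) C(K, ℝ)) with hBdef
  have hA' : ∀ f, A f ≤ ‖Ψ‖ * P f := fun f => ha f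
  have hB' : ∀ f, B f ≤ ‖Ψ‖ * P f := fun f => hb f
  refine ⟨A, B, fun f hf => key2 A hA' f hf, fun f hf => key2 B hB' f hf, ?_⟩
  intro f
  show Ψ f = A f - B f
  have hmem : (f, -f) ∈ (pm Ψ).domain := by
    show f + -f = 0
    rw [add_neg_cancel]
  have h3 := h1 ⟨(f, -f), hmem⟩
  have h4 : (pm Ψ) ⟨(f, -f), hmem⟩ = Ψ f := rfl
  rw [h4] at h3
  rw [← h3]
  show Λ (f, -f) = Λ (f, 0) - Λ (0, f)
  rw [← map_sub]
  congr 1
  simp

/-- finite nets for finitely many continuous functions -/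
lemma exists_net (n : ℕ) (f : ℕ → C(K, ℝ)) (ε : ℝ) (hε : 0 < ε) :
    ∃ X : Finset K, ∀ x : K, ∃ z ∈ X, ∀ i ≤ n, |f i x - f i z| < ε := by
  classical
  let U : K → Set K := fun z => {x | ∀ i ≤ n, |f i x - f i z| < ε}
  have hU : ∀ z, IsOpen (U z) := by
    intro z
    have : U z = ⋂ i ∈ Finset.range (n + 1), {x | |f i x - f i z| < ε} := by
      ext x
      simp [U]
    rw [this]
    refine isOpen_biInter_finset fun i _ => ?_
    exact isOpen_lt (((f i).continuous.sub continuous_const).abs) continuous_const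
  obtain ⟨t, ht⟩ := isCompact_univ.elim_finite_subcover U hU (fun x _ => mem_iUnion.2
    ⟨x, fun i _ => by simpa using hε⟩)
  refine ⟨t, fun x => ?_⟩
  obtain ⟨z, hz, hx⟩ := mem_iUnion₂.1 (ht (mem_univ x))
  exact ⟨z, hz, hx⟩

/-- **Grothendieck's lemma**: integrals of separately continuous bounded functions. -/
theorem cont_integral [T2Space K] [MeasurableSpace K] [BorelSpace K] (μ : Measure K)
    [IsProbabilityMeasure μ] {Th : Type*} [TopologicalSpace Th] [CompactSpace Th]
    (G : Th → C(K, ℝ)) (hG : ∀ x, Continuous fun σ => G σ x) (B : ℝ) (hB : ∀ σ x, |G σ x| ≤ B) :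
    Continuous fun σ => ∫ x, G σ x ∂μ := by
  classical
  rw [continuous_iff_continuousAt]
  intro σ0
  by_contra hcon
  -- a radius that fails
  obtain ⟨ε, hε, hfreq⟩ : ∃ ε : ℝ, 0 < ε ∧ ∃ᶠ σ in 𝓝 σ0, ε ≤ |∫ x, G σ x ∂μ - ∫ x, G σ0 x ∂μ| := by
    by_contra h
    push Not at h
    apply hcon
    rw [ContinuousAt, Metric.tendsto_nhds]
    intro ε hε
    have := h ε hε
    refine this.mono fun σ hσ => ?_
    rw [Real.dist_eq]
    exact hσ
  -- nets
  have hnet : ∀ (n : ℕ) (s : ℕ → Th), ∃ X : Finset K, ∀ x : K, ∃ z ∈ X, ∀ i ≤ n,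
      |G (s i) x - G (s i) z| < 1 / ((n : ℝ) + 1) := fun n s =>
    exists_net n (fun i => G (s i)) _ (by positivity)
  choose X hX using hnet
  -- extension of a finite sequence
  have hstep : ∀ (n : ℕ) (Y : Finset K), ∃ σ : Th, ε ≤ |∫ x, G σ x ∂μ - ∫ x, G σ0 x ∂μ| ∧
      ∀ z ∈ Y, |G σ z - G σ0 z| < 1 / ((n : ℝ) + 1) := by
    intro n Y
    have h1 : ∀ᶠ σ in 𝓝 σ0, ∀ z ∈ Y, |G σ z - G σ0 z| < 1 / ((n : ℝ) + 1) := by
      rw [Filter.eventually_all_finset]
      intro z _
      have h2 := (hG z).continuousAt (x := σ0)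
      rw [ContinuousAt, Metric.tendsto_nhds] at h2
      exact h2 _ (by positivity)
    obtain ⟨σ, h3, h4⟩ := (hfreq.and_eventually h1).exists
    exact ⟨σ, h3, h4⟩
  choose nxt hn1 hn2 using hstep
  -- the sequence: data = (sequence so far as function, finset so far)
  let D : ℕ → (ℕ → Th) × Finset K := fun n => Nat.rec (fun _ => σ0, X 0 fun _ => σ0)
    (fun n d => (Function.update d.1 (n + 1) (nxt n d.2),
      d.2 ∪ X (n + 1) (Function.update d.1 (n + 1) (nxt n d.2)))) n
  have hD0 : D 0 = (fun _ => σ0, X 0 fun _ => σ0) := rfl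
  have hDs : ∀ n, D (n + 1) = (Function.update (D n).1 (n + 1) (nxt n (D n).2),
      (D n).2 ∪ X (n + 1) (Function.update (D n).1 (n + 1) (nxt n (D n).2))) := fun n => rfl
  let s : ℕ → Th := fun n => (D n).1 n
  have hstab : ∀ n i, i ≤ n → (D n).1 i = s i := by
    intro n
    induction n with
    | zero => intro i hi; obtain rfl : i = 0 := by omega
              rfl
    | succ n ih =>
      intro i hi
      rcases Nat.lt_or_ge i (n + 1) with h | h
      · rw [hDs]
        show Function.update (D n).1 (n + 1) _ i = s i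
        rw [Function.update_of_ne (by omega)]
        exact ih i (by omega)
      · obtain rfl : i = n + 1 := by omega
        rfl
  have hs0 : s 0 = σ0 := rfl
  have hss : ∀ n, s (n + 1) = nxt n (D n).2 := by
    intro n
    show (D (n + 1)).1 (n + 1) = _
    rw [hDs]
    show Function.update (D n).1 (n + 1) _ (n + 1) = _
    rw [Function.update_self]
  have hYmono : ∀ n m, n ≤ m → (D n).2 ⊆ (D m).2 := by
    intro n m h
    induction m, h using Nat.le_induction with
    | base => exact Finset.Subset.refl _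
    | succ m _ ih => rw [hDs]; exact ih.trans Finset.subset_union_left
  have hYnet : ∀ n (x : K), ∃ z ∈ (D n).2, ∀ i ≤ n, |G (s i) x - G (s i) z| < 1 / ((n : ℝ) + 1) := by
    intro n x
    cases n with
    | zero =>
      obtain ⟨z, hz, h⟩ := hX 0 (fun _ => σ0) x
      refine ⟨z, hz, fun i hi => ?_⟩
      obtain rfl : i = 0 := by omega
      exact h 0 le_rfl
    | succ n =>
      obtain ⟨z, hz, h⟩ := hX (n + 1) (Function.update (D n).1 (n + 1) (nxt n (D n).2)) x
      refine ⟨z, ?_, fun i hi => ?_⟩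
      · rw [hDs]; exact Finset.mem_union_right _ hz
      · have h2 := h i hi
        have h3 : Function.update (D n).1 (n + 1) (nxt n (D n).2) i = s i := hstab (n + 1) i hi
        rw [h3] at h2
        exact h2
  have hfar : ∀ n, ε ≤ |∫ x, G (s (n + 1)) x ∂μ - ∫ x, G σ0 x ∂μ| := fun n => by
    rw [hss]; exact hn1 n _
  have hclose : ∀ n, ∀ z ∈ (D n).2, |G (s (n + 1)) z - G σ0 z| < 1 / ((n : ℝ) + 1) := fun n => by
    rw [hss]; exact hn2 n _
  -- pointwise convergence
  have hzero : ∀ g : Ultrafilter ℕ, (g : Filter ℕ) ≤ atTop →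
      Tendsto (fun n : ℕ => 1 / ((n : ℝ) + 1)) g (𝓝 0) := fun g hg =>
    tendsto_one_div_add_atTop_nhds_zero_nat.mono_left hg
  have hpt : ∀ x, Tendsto (fun n => G (s (n + 1)) x) atTop (𝓝 (G σ0 x)) := by
    intro x
    rw [tendsto_iff_ultrafilter]
    intro g hg
    -- limit of the sequence
    obtain ⟨σi, -, hσi⟩ := isCompact_univ.ultrafilter_le_nhds (g.map fun n => s (n + 1))
      (by simp)
    have hlim : ∀ w, Tendsto (fun n => G (s (n + 1)) w) g (𝓝 (G σi w)) := fun w =>
      ((hG w).tendsto σi).comp hσi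
    choose z hz1 hz2 using fun n => hYnet n x
    obtain ⟨zi, -, hzi⟩ := isCompact_univ.ultrafilter_le_nhds (g.map z) (by simp)
    have hzlim : ∀ f : C(K, ℝ), Tendsto (fun n => f (z n)) g (𝓝 (f zi)) := fun f =>
      (f.continuous.tendsto zi).comp hzi
    -- `G (s i) x = G (s i) zi`
    have hi : ∀ i, G (s i) x = G (s i) zi := by
      intro i
      have h1 : Tendsto (fun n => G (s i) (z n)) g (𝓝 (G (s i) x)) := by
        have h2 : Tendsto (fun n => G (s i) x - G (s i) (z n)) g (𝓝 0) := by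
          rw [tendsto_zero_iff_abs_tendsto_zero]
          refine squeeze_zero' (Eventually.of_forall fun n => abs_nonneg _) ?_ (hzero g hg)
          have : ∀ᶠ n in (g : Filter ℕ), i ≤ n := hg (eventually_ge_atTop i)
          exact this.mono fun n hn => (hz2 n i hn).le
        have h3 := (tendsto_const_nhds (x := G (s i) x)).sub h2
        simpa using h3
      exact tendsto_nhds_unique h1 (hzlim _)
    have h1 : G σi x = G σi zi := by
      refine tendsto_nhds_unique (hlim x) ?_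
      simp_rw [hi]
      exact hlim zi
    have h2 : G σ0 x = G σ0 zi := by
      have := hi 0
      rwa [hs0] at this
    -- on the nets
    have h3 : ∀ m, ∀ w ∈ (D m).2, G σi w = G σ0 w := by
      intro m w hw
      refine tendsto_nhds_unique (hlim w) ?_
      have h4 : Tendsto (fun n => G (s (n + 1)) w - G σ0 w) g (𝓝 0) := by
        rw [tendsto_zero_iff_abs_tendsto_zero]
        refine squeeze_zero' (Eventually.of_forall fun n => abs_nonneg _) ?_ (hzero g hg)
        have : ∀ᶠ n in (g : Filter ℕ), m ≤ n := hg (eventually_ge_atTop m)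
        exact this.mono fun n hn => (hclose n w (hYmono m n hn hw)).le
      have h5 := h4.add_const (G σ0 w)
      simpa using h5
    have h4 : G σi zi = G σ0 zi := by
      have h5 := hzlim (G σi)
      have h6 := hzlim (G σ0)
      have h7 : (fun n => G σi (z n)) = fun n => G σ0 (z n) := by
        funext n; exact h3 n _ (hz1 n)
      rw [h7] at h5
      exact tendsto_nhds_unique h5 h6
    have h5 := hlim x
    rw [h1, h4, ← h2] at h5
    exact h5
  -- dominated convergence
  have hdom : Tendsto (fun n => ∫ x, G (s (n + 1)) x ∂μ) atTop (𝓝 (∫ x, G σ0 x ∂μ)) := by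
    refine tendsto_integral_of_dominated_convergence (fun _ => B) ?_ (integrable_const B) ?_ ?_
    · intro n; exact (G (s (n + 1))).continuous.aestronglyMeasurable
    · intro n; exact Eventually.of_forall fun x => hB _ x
    · exact Eventually.of_forall hpt
  rw [Metric.tendsto_atTop] at hdom
  obtain ⟨N, hN⟩ := hdom ε hε
  have := hN N le_rfl
  rw [Real.dist_eq] at this
  exact absurd (hfar N) (not_le.2 this)

/-- continuity for arbitrary functionals -/
theorem cont_functional [T2Space K] {Th : Type*} [TopologicalSpace Th] [CompactSpace Th]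
    (G : Th → C(K, ℝ)) (hG : ∀ x, Continuous fun σ => G σ x) (B : ℝ) (hB : ∀ σ x, |G σ x| ≤ B)
    (Ψ : StrongDual ℝ C(K, ℝ)) : Continuous fun σ => Ψ (G σ) := by
  let _ : MeasurableSpace K := borel K
  have : BorelSpace K := ⟨rfl⟩
  have hpos : ∀ a : C(K, ℝ) →ₗ[ℝ] ℝ, (∀ f : C(K, ℝ), (∀ x, 0 ≤ f x) → 0 ≤ a f) →
      Continuous fun σ => a (G σ) := by
    intro a ha
    have hmono : ∀ f g : C(K, ℝ), (∀ x, f x ≤ g x) → a f ≤ a g := by
      intro f g hfg
      have := ha (g - f) (fun x => by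
        rw [ContinuousMap.sub_apply]; linarith [hfg x])
      rw [map_sub] at this
      linarith
    have h1 : 0 ≤ a 1 := ha 1 (fun x => by simp)
    rcases h1.eq_or_lt with h | h
    · have hz : ∀ f, a f = 0 := by
        intro f
        have e : a (‖f‖ • (1 : C(K, ℝ))) = 0 := by rw [map_smul, ← h, smul_zero]
        have e' : a (-(‖f‖ • (1 : C(K, ℝ)))) = 0 := by rw [map_neg, e, neg_zero]
        have h2 := hmono f (‖f‖ • 1) (fun x => by
          rw [ContinuousMap.smul_apply, ContinuousMap.one_apply, smul_eq_mul, mul_one]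
          exact (le_abs_self _).trans (f.norm_coe_le_norm x))
        have h3 := hmono (-(‖f‖ • 1)) f (fun x => by
          rw [ContinuousMap.neg_apply, ContinuousMap.smul_apply, ContinuousMap.one_apply,
            smul_eq_mul, mul_one]
          exact (abs_le.1 (f.norm_coe_le_norm x)).1)
        rw [e] at h2
        rw [e'] at h3
        exact le_antisymm h2 h3
      simp_rw [hz]
      exact continuous_const
    · obtain ⟨ρ, hρ, hρ2⟩ := riesz (fun f => (a 1)⁻¹ * a f)
        (fun f g => by rw [map_add, mul_add])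
        (fun c f => by rw [map_smul, smul_eq_mul]; ring)
        (fun f hf => mul_nonneg (inv_nonneg.2 h1) (ha f hf))
        (inv_mul_cancel₀ h.ne')
      have h2 := (cont_integral ρ G hG B hB).const_mul (a 1)
      refine h2.congr fun σ => ?_
      rw [hρ2, ← mul_assoc, mul_inv_cancel₀ h.ne', one_mul]
  obtain ⟨a, b, ha, hb, hab⟩ := jordan Ψ
  simp_rw [hab]
  exact (hpos a ha).sub (hpos b hb)

end Pool.Agent.X195.WF
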