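import Mathlib
import Pool.Agent.X195.WF1

set_option autoImplicit false

/-!
Weakly compact sets in locally convex spaces have weakly open pieces of small diameter for every
continuous seminorm (Namioka), and the lemma of De Marr.
-/

open Filter Topology Set

namespace Pool.Agent.X195.WF

variable {E : Type*} [AddCommGroup E] [Module ℝ E] [TopologicalSpace E] [IsTopologicalAddGroup E]
  [ContinuousSMul ℝ E]

/-- separation of two points at large distance -/
lemma exists_fun (p : Seminorm ℝ E) (hp : Continuous p) (x y : E) (ε : ℝ) (hε : 0 < ε)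
    (h : ε ≤ p (x - y)) : ∃ f : StrongDual ℝ E, 0 < f (x - y) ∧
      ∀ u v : E, f (x - y) / 2 ≤ f u - f v → ε / 2 ≤ p (u - v) := by
  have hconv : Convex ℝ {z : E | p z < ε} := by
    have := p.convex_ball 0 ε
    have e : p.ball 0 ε = {z : E | p z < ε} := by
      ext z; rw [Seminorm.mem_ball, sub_zero]; rfl
    rwa [e] at this
  have hopen : IsOpen {z : E | p z < ε} := isOpen_lt hp continuous_const
  obtain ⟨f, hf⟩ := geometric_hahn_banach_open_point hconv hopen
    (show x - y ∉ {z : E | p z < ε} from fun hz => absurd h (not_le.2 hz))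
  have h0 : 0 < f (x - y) := by
    have := hf 0 (by show p 0 < ε; rw [map_zero]; exact hε)
    rwa [map_zero] at this
  refine ⟨f, h0, fun u v huv => ?_⟩
  by_contra hcon
  push Not at hcon
  have h1 := hf ((2 : ℝ) • (u - v)) (by
    show p ((2 : ℝ) • (u - v)) < ε
    rw [map_smul_eq_mul]
    norm_num
    linarith)
  rw [map_smul, map_sub, smul_eq_mul] at h1
  linarith

/-- points of the weak closure of a countable set are approximated by a countable set -/
lemma exists_countable [LocallyConvexSpace ℝ E] (p : Seminorm ℝ E) (hp : Continuous p) (D : Set E)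
    (hD : D.Countable) : ∃ R : Set E, R.Countable ∧ ∀ x : E,
      (∀ f : StrongDual ℝ E, (∀ d ∈ D, f d = 0) → f x = 0) → ∀ δ : ℝ, 0 < δ → ∃ r ∈ R, p (x - r) < δ := by
  have hsep : TopologicalSpace.IsSeparable (Submodule.span ℝ D : Set E) := hD.isSeparable.span
  obtain ⟨R, hR, hRc⟩ := hsep
  refine ⟨R, hR, fun x hx δ hδ => ?_⟩
  -- first approximate by the span
  have h1 : ∃ v ∈ Submodule.span ℝ D, p (x - v) < δ / 2 := by
    by_contra hcon
    push Not at hcon
    have hconv : Convex ℝ {z : E | p (x - z) < δ / 2} := by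
      have := p.convex_ball x (δ / 2)
      have e : p.ball x (δ / 2) = {z : E | p (x - z) < δ / 2} := by
        ext z; rw [Seminorm.mem_ball, map_sub_rev]; rfl
      rwa [e] at this
    have hopen : IsOpen {z : E | p (x - z) < δ / 2} :=
      isOpen_lt (hp.comp (continuous_const.sub continuous_id)) continuous_const
    have hdisj : Disjoint {z : E | p (x - z) < δ / 2} (Submodule.span ℝ D : Set E) := by
      rw [Set.disjoint_left]
      intro z hz hz'
      exact absurd (hcon z hz') (not_le.2 hz)
    obtain ⟨f, u, hf1, hf2⟩ := geometric_hahn_banach_open hconv hopen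
      (Submodule.span ℝ D).convex hdisj
    have hfx : f x < u := hf1 x (by show p (x - x) < δ / 2; rw [sub_self, map_zero]; linarith)
    have hz : ∀ v ∈ Submodule.span ℝ D, f v = 0 := by
      intro v hv
      by_contra hne
      -- choose a multiple with value below `u`
      have h2 := hf2 (((u - 1) / f v) • v) (Submodule.smul_mem _ _ hv)
      rw [map_smul, smul_eq_mul, div_mul_cancel₀ _ hne] at h2
      linarith
    have hu : u ≤ 0 := by
      have := hf2 0 (Submodule.zero_mem _)
      rwa [map_zero] at this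
    have h3 := hx f (fun d hd => hz d (Submodule.subset_span hd))
    linarith
  obtain ⟨v, hv, hv2⟩ := h1
  have h2 := hRc hv
  have h3 : {z : E | p (v - z) < δ / 2} ∈ 𝓝 v :=
    (isOpen_lt (hp.comp (continuous_const.sub continuous_id)) continuous_const).mem_nhds
      (by show p (v - v) < δ / 2; rw [sub_self, map_zero]; linarith)
  obtain ⟨r, hr1, hr2⟩ := mem_closure_iff_nhds.1 h2 _ h3
  refine ⟨r, hr2, ?_⟩
  have h4 : p (x - r) ≤ p (x - v) + p (v - r) := by
    have := map_add_le_add p (x - v) (v - r)
    rwa [sub_add_sub_cancel] at this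
  have h5 : p (v - r) < δ / 2 := hr1
  linarith

/-- prefixes of a branch -/
def pre (a : ℕ → Bool) : ℕ → List Bool
  | 0 => []
  | n + 1 => a n :: pre a n

lemma pre_congr {a b : ℕ → Bool} (n : ℕ) (h : ∀ i < n, a i = b i) : pre a n = pre b n := by
  induction n with
  | zero => rfl
  | succ n ih =>
    show a n :: pre a n = b n :: pre b n
    rw [h n (by omega), ih fun i hi => h i (by omega)]

/-- **Small pieces.** `Y` is a compact space mapped to `E` by `e` such that `f ∘ e` is continuous for all
continuous functionals `f`. -/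
theorem small_piece [LocallyConvexSpace ℝ E] (p : Seminorm ℝ E) (hp : Continuous p)
    {Y : Type*} [TopologicalSpace Y] [CompactSpace Y] [Nonempty Y] (e : Y → E)
    (he : ∀ f : StrongDual ℝ E, Continuous fun y => f (e y)) (ε : ℝ) (hε : 0 < ε) :
    ∃ U : Set Y, IsOpen U ∧ U.Nonempty ∧ ∀ x ∈ U, ∀ y ∈ U, p (e x - e y) < ε := by
  classical
  by_contra hcon
  push Not at hcon
  -- the splitting step
  have hstep : ∀ U : {U : Set Y // IsOpen U ∧ U.Nonempty}, ∃ V : Bool → {U : Set Y // IsOpen U ∧ U.Nonempty},
      (∀ b, (V b : Set Y) ⊆ U) ∧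
      ∀ u ∈ closure (V true : Set Y), ∀ v ∈ closure (V false : Set Y), ε / 2 ≤ p (e u - e v) := by
    rintro ⟨U, hU, hne⟩
    obtain ⟨x, hx, y, hy, hxy⟩ := hcon U hU hne
    obtain ⟨f, hf0, hf⟩ := exists_fun p hp (e x) (e y) ε hε hxy
    set c := f (e x - e y) with hc
    have hcx : c = f (e x) - f (e y) := by rw [hc, map_sub]
    have hx1 : x ∈ U ∩ {u | f (e x) - c / 4 < f (e u)} :=
      ⟨hx, by show f (e x) - c / 4 < f (e x); linarith⟩
    have hy1 : y ∈ U ∩ {u | f (e u) < f (e y) + c / 4} :=
      ⟨hy, by show f (e y) < f (e y) + c / 4; linarith⟩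
    refine ⟨fun b => if b then ⟨U ∩ {u | f (e x) - c / 4 < f (e u)}, hU.inter
        (isOpen_lt continuous_const (he f)), x, hx1⟩
      else ⟨U ∩ {u | f (e u) < f (e y) + c / 4}, hU.inter
        (isOpen_lt (he f) continuous_const), y, hy1⟩, ?_, ?_⟩
    · intro b
      cases b
      · exact inter_subset_left
      · exact inter_subset_left
    · intro u hu v hv
      apply hf
      have h1 : f (e x) - c / 4 ≤ f (e u) := by
        have hcl : IsClosed {u | f (e x) - c / 4 ≤ f (e u)} := isClosed_le continuous_const (he f)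
        exact closure_minimal (fun z hz => (show f (e x) - c / 4 < f (e z) from hz.2).le) hcl hu
      have h2 : f (e v) ≤ f (e y) + c / 4 := by
        have hcl : IsClosed {u | f (e u) ≤ f (e y) + c / 4} := isClosed_le (he f) continuous_const
        exact closure_minimal (fun z hz => (show f (e z) < f (e y) + c / 4 from hz.2).le) hcl hv
      linarith
  choose V hV1 hV2 using hstep
  -- the scheme
  let T : List Bool → {U : Set Y // IsOpen U ∧ U.Nonempty} := fun l =>
    List.rec ⟨univ, isOpen_univ, univ_nonempty⟩ (fun b _ W => V W b) l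
  have hT : ∀ b l, T (b :: l) = V (T l) b := fun b l => rfl
  choose d hd using fun l => (T l).2.2
  have hnest : ∀ (a : ℕ → Bool) n m, n ≤ m → (T (pre a m)).1 ⊆ (T (pre a n)).1 := by
    intro a n m h
    induction m, h using Nat.le_induction with
    | base => exact Subset.refl _
    | succ m _ ih => exact (hV1 _ _).trans ih
  -- the limit points
  have hz : ∀ a : ℕ → Bool, ∃ z : Y, (∀ n, z ∈ closure ((T (pre a n)).1)) ∧
      z ∈ closure (range d) := by
    intro a
    obtain ⟨z, hz⟩ := exists_clusterPt_of_compactSpace (map (fun n => d (pre a n)) atTop)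
    refine ⟨z, fun n => ?_, ?_⟩
    · refine mem_closure_iff_clusterPt.2 (hz.mono ?_)
      rw [le_principal_iff, mem_map]
      filter_upwards [eventually_ge_atTop n] with m hm
      exact hnest a n m hm (hd _)
    · refine mem_closure_iff_clusterPt.2 (hz.mono ?_)
      rw [le_principal_iff, mem_map]
      exact Eventually.of_forall fun m => mem_range_self _
  choose z hz1 hz2 using hz
  -- separation
  have hsep : ∀ a b : ℕ → Bool, a ≠ b → ε / 2 ≤ p (e (z a) - e (z b)) := by
    intro a b hab
    have hex : ∃ n, a n ≠ b n := by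
      by_contra h; push Not at h; exact hab (funext h)
    set n := Nat.find hex with hn
    have h1 : a n ≠ b n := Nat.find_spec hex
    have h2 : pre a n = pre b n := pre_congr n fun i hi => by
      by_contra h; exact Nat.find_min hex hi h
    have ha := hz1 a (n + 1)
    have hb := hz1 b (n + 1)
    have ea : T (pre a (n + 1)) = V (T (pre a n)) (a n) := rfl
    have eb : T (pre b (n + 1)) = V (T (pre a n)) (b n) := by rw [h2]; rfl
    rw [ea] at ha
    rw [eb] at hb
    cases hA : a n
    · have hB : b n = true := by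
        cases hB : b n
        · exact absurd (hA.trans hB.symm) h1
        · rfl
      rw [hA] at ha
      rw [hB] at hb
      rw [map_sub_rev]
      exact hV2 _ _ hb _ ha
    · have hB : b n = false := by
        cases hB : b n
        · rfl
        · exact absurd (hA.trans hB.symm) h1
      rw [hA] at ha
      rw [hB] at hb
      exact hV2 _ _ ha _ hb
  -- separability
  obtain ⟨R, hR, hRx⟩ := exists_countable p hp (range fun l => e (d l)) (countable_range _)
  have happ : ∀ a : ℕ → Bool, ∃ r : R, p (e (z a) - r) < ε / 4 := by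
    intro a
    obtain ⟨r, hr, h⟩ := hRx (e (z a)) (fun f hf => by
      have hcl : IsClosed {y : Y | f (e y) = 0} := isClosed_eq (he f) continuous_const
      exact closure_minimal (by
        rintro _ ⟨l, rfl⟩
        exact hf _ ⟨l, rfl⟩) hcl (hz2 a)) (ε / 4) (by linarith)
    exact ⟨⟨r, hr⟩, h⟩
  choose r hr using happ
  have hinj : Function.Injective r := by
    intro a b hab
    by_contra hne
    have h1 := hsep a b hne
    have h2 := hr a
    have h3 := hr b
    rw [hab] at h2
    have h4 : p (e (z a) - e (z b)) ≤ p (e (z a) - r b) + p (r b - e (z b)) := by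
      have := map_add_le_add p (e (z a) - r b) (r b - e (z b))
      rwa [sub_add_sub_cancel] at this
    rw [map_sub_rev p (r b : E)] at h4
    linarith
  have : Countable R := hR.to_subtype
  have h5 : Countable (ℕ → Bool) := hinj.countable
  have h6 : ¬ Countable (ℕ → Bool) := by
    intro h
    obtain ⟨f, hf⟩ := exists_surjective_nat (ℕ → Bool)
    refine Function.cantor_surjective (fun n : ℕ => ({m | f n m = true} : Set ℕ)) ?_
    intro s
    classical
    obtain ⟨n, hn⟩ := hf (fun m => decide (m ∈ s))
    refine ⟨n, ?_⟩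
    ext m
    show f n m = true ↔ m ∈ s
    rw [hn]
    simp
  exact h6 h5

omit [TopologicalSpace E] [IsTopologicalAddGroup E] [ContinuousSMul ℝ E] in
/-- De Marr's lemma -/
lemma deMarr (p : Seminorm ℝ E) {K : Set E} (hK : Convex ℝ K) (Y : Set E) (hYK : Y ⊆ K) (d η : ℝ)
    (hη : η < d) (hd : ∀ x ∈ Y, ∀ y ∈ Y, p (x - y) ≤ d) (N : Finset E) (hNY : (N : Set E) ⊆ Y)
    (hNne : N.Nonempty) (hN : ∀ y ∈ Y, ∃ x ∈ N, p (y - x) ≤ η) :
    ∃ u ∈ K, ∃ r < d, ∀ y ∈ Y, p (u - y) ≤ r := by
  classical
  have hcard : (0 : ℝ) < N.card := by exact_mod_cast hNne.card_pos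
  refine ⟨∑ x ∈ N, (1 / (N.card : ℝ)) • x, ?_, d - (d - η) / N.card, ?_, ?_⟩
  · refine hK.sum_mem (fun i _ => by positivity) ?_ fun x hx => hYK (hNY hx)
    rw [Finset.sum_const, nsmul_eq_mul]
    field_simp
  · have : 0 < (d - η) / N.card := div_pos (by linarith) hcard
    linarith
  · intro y hy
    obtain ⟨x0, hx0, hx0y⟩ := hN y hy
    have h1 : (∑ x ∈ N, (1 / (N.card : ℝ)) • x) - y = ∑ x ∈ N, (1 / (N.card : ℝ)) • (x - y) := by
      simp_rw [smul_sub]
      rw [Finset.sum_sub_distrib, Finset.sum_const, ← Nat.cast_smul_eq_nsmul ℝ, smul_smul,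
        mul_one_div_cancel hcard.ne', one_smul]
    rw [h1]
    have h2 : p (∑ x ∈ N, (1 / (N.card : ℝ)) • (x - y)) ≤ ∑ x ∈ N, (1 / (N.card : ℝ)) * p (x - y) := by
      refine (Finset.le_sum_of_subadditive p (map_zero p).le (map_add_le_add p) _ _).trans
        (Finset.sum_le_sum fun x _ => ?_)
      rw [map_smul_eq_mul, Real.norm_of_nonneg (by positivity)]
    refine h2.trans ?_
    rw [← Finset.mul_sum, ← Finset.add_sum_erase N _ hx0]
    have h3 : ∑ x ∈ N.erase x0, p (x - y) ≤ (N.card - 1) * d := by
      refine (Finset.sum_le_sum fun x hx => hd x (hNY (Finset.mem_of_mem_erase hx)) y hy).trans ?_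
      rw [Finset.sum_const, nsmul_eq_mul, Finset.card_erase_of_mem hx0, Nat.cast_sub hNne.card_pos]
      simp
    have h4 : p (x0 - y) ≤ η := by rw [map_sub_rev]; exact hx0y
    have h5 : 1 / (N.card : ℝ) * (p (x0 - y) + ∑ x ∈ N.erase x0, p (x - y)) ≤
        1 / (N.card : ℝ) * (η + (N.card - 1) * d) := by
      gcongr
    refine h5.trans (le_of_eq ?_)
    field_simp
    ring

end Pool.Agent.X195.WF
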