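import Mathlib
import Pool.Agent.X195.WF2

set_option autoImplicit false

/-!
Invariant functionals on `C(K)` and their supports.
-/

open Filter Topology Set

namespace Pool.Agent.X195.WF

variable {K : Type*} [TopologicalSpace K] [CompactSpace K] [T2Space K]

/-- a positive normalised functional -/
structure Mean (I : C(K, ℝ) → ℝ) : Prop where
  add : ∀ f g, I (f + g) = I f + I g
  smul : ∀ (c : ℝ) f, I (c • f) = c * I f
  pos : ∀ f : C(K, ℝ), (∀ x, 0 ≤ f x) → 0 ≤ I f
  one : I 1 = 1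

/-- the support -/
def supp (I : C(K, ℝ) → ℝ) : Set K := {x | ∀ f : C(K, ℝ), (∀ y, 0 ≤ f y) → 0 < f x → 0 < I f}

variable {I : C(K, ℝ) → ℝ}

omit [CompactSpace K] [T2Space K] in
lemma Mean.mono (hI : Mean I) {f g : C(K, ℝ)} (h : ∀ x, f x ≤ g x) : I f ≤ I g := by
  have h1 := hI.pos (g + (-1 : ℝ) • f) (fun x => by
    rw [ContinuousMap.add_apply, ContinuousMap.smul_apply, smul_eq_mul]; linarith [h x])
  rw [hI.add, hI.smul] at h1
  linarith

omit [CompactSpace K] [T2Space K] in
lemma Mean.sum (hI : Mean I) {ι : Type*} (s : Finset ι) (f : ι → C(K, ℝ)) :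
    I (∑ i ∈ s, f i) = ∑ i ∈ s, I (f i) := by
  classical
  induction s using Finset.induction_on with
  | empty =>
    have := hI.smul 0 0
    rw [zero_smul, zero_mul] at this
    simpa using this
  | insert a s ha ih => rw [Finset.sum_insert ha, Finset.sum_insert ha, hI.add, ih]

omit [CompactSpace K] [T2Space K] in
lemma isClosed_supp : IsClosed (supp I) := by
  rw [← isOpen_compl_iff, isOpen_iff_forall_mem_open]
  intro x hx
  have h1 : ∃ f : C(K, ℝ), (∀ y, 0 ≤ f y) ∧ 0 < f x ∧ ¬ 0 < I f := by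
    by_contra h
    push Not at h
    exact hx fun f h1 h2 => by
      by_contra h3
      exact absurd (h f h1 h2) h3
  obtain ⟨f, h1, h2, h3⟩ := h1
  refine ⟨{y | 0 < f y}, fun y hy hy2 => h3 (hy2 f h1 hy), isOpen_lt continuous_const f.continuous, h2⟩

/-- monotonicity on the support -/
lemma Mean.le_of_supp (hI : Mean I) {f g : C(K, ℝ)} (h : ∀ x ∈ supp I, f x ≤ g x) : I f ≤ I g := by
  classical
  -- it is enough to treat `f ≤ g + ε` up to functions of integral zero
  refine le_of_forall_pos_le_add fun ε hε => ?_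
  have hA : IsCompact {x : K | g x + ε ≤ f x} :=
    (isClosed_le (g.continuous.add continuous_const) f.continuous).isCompact
  have h1 : ∀ z : K, ∃ φ : C(K, ℝ), (∀ y, 0 ≤ φ y) ∧ I φ = 0 ∧ (g z + ε ≤ f z → 0 < φ z) := by
    intro z
    by_cases hz : g z + ε ≤ f z
    · have hz' : z ∉ supp I := fun h' => by linarith [h z h']
      have h1 : ∃ φ : C(K, ℝ), (∀ y, 0 ≤ φ y) ∧ 0 < φ z ∧ ¬ 0 < I φ := by
        by_contra h
        push Not at h
        exact hz' fun f h1 h2 => by
          by_contra h3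
          exact absurd (h f h1 h2) h3
      obtain ⟨φ, h1, h2, h3⟩ := h1
      exact ⟨φ, h1, le_antisymm (not_lt.1 h3) (hI.pos φ h1), fun _ => h2⟩
    · refine ⟨0, fun y => le_rfl, ?_, fun h => absurd h hz⟩
      have := hI.smul 0 0
      rw [zero_smul, zero_mul] at this
      exact this
  choose φ hφ0 hφI hφ using h1
  obtain ⟨t, ht1, ht2⟩ := hA.elim_nhds_subcover (fun z => {y | 0 < φ z y})
    (fun z hz => (isOpen_lt continuous_const (φ z).continuous).mem_nhds (hφ z hz))
  set ψ : C(K, ℝ) := ∑ z ∈ t, φ z with hψ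
  have hψ0 : ∀ y, 0 ≤ ψ y := by
    intro y
    rw [hψ, ContinuousMap.sum_apply]
    exact Finset.sum_nonneg fun z _ => hφ0 z y
  have hψI : I ψ = 0 := by
    rw [hψ, hI.sum]
    exact Finset.sum_eq_zero fun z _ => hφI z
  have hψpos : ∀ x ∈ {x : K | g x + ε ≤ f x}, 0 < ψ x := by
    intro x hx
    obtain ⟨z, hz, hzx⟩ := mem_iUnion₂.1 (ht2 hx)
    rw [hψ, ContinuousMap.sum_apply]
    exact lt_of_lt_of_le hzx (Finset.single_le_sum (f := fun z => φ z x) (fun z _ => hφ0 z x) hz)
  -- a constant with `f ≤ g + ε + c ψ`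
  obtain ⟨c, hc0, hc⟩ : ∃ c : ℝ, 0 ≤ c ∧ ∀ x, f x ≤ g x + ε + c * ψ x := by
    rcases (eq_empty_or_nonempty {x : K | g x + ε ≤ f x}) with he | hne
    · refine ⟨0, le_rfl, fun x => ?_⟩
      have : ¬ (g x + ε ≤ f x) := fun h => by
        have : x ∈ {x : K | g x + ε ≤ f x} := h
        rw [he] at this
        exact this
      linarith
    · obtain ⟨x0, hx0, hmin⟩ := hA.exists_isMinOn hne ψ.continuous.continuousOn
      have hm : 0 < ψ x0 := hψpos x0 hx0
      have hb : ∀ x, f x - g x ≤ ‖f‖ + ‖g‖ := by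
        intro x
        have h1 := (abs_le.1 (f.norm_coe_le_norm x)).2
        have h2 := (abs_le.1 (g.norm_coe_le_norm x)).1
        linarith
      refine ⟨(‖f‖ + ‖g‖) / ψ x0, by positivity, fun x => ?_⟩
      by_cases hx : g x + ε ≤ f x
      · have h1 : ψ x0 ≤ ψ x := hmin hx
        have h2 : (‖f‖ + ‖g‖) / ψ x0 * ψ x0 ≤ (‖f‖ + ‖g‖) / ψ x0 * ψ x := by gcongr
        rw [div_mul_cancel₀ _ hm.ne'] at h2
        linarith [hb x]
      · have h1 : 0 ≤ (‖f‖ + ‖g‖) / ψ x0 * ψ x := mul_nonneg (by positivity) (hψ0 x)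
        linarith
  have h2 : I f ≤ I (g + ε • (1 : C(K, ℝ)) + c • ψ) := hI.mono fun x => by
    simp only [ContinuousMap.add_apply, ContinuousMap.smul_apply, ContinuousMap.one_apply,
      smul_eq_mul, mul_one]
    exact hc x
  rw [hI.add, hI.add, hI.smul, hI.smul, hI.one, hψI] at h2
  linarith

lemma Mean.supp_nonempty (hI : Mean I) : (supp I).Nonempty := by
  by_contra h
  rw [not_nonempty_iff_eq_empty] at h
  have h1 := hI.le_of_supp (f := 1) (g := 0) (fun x hx => by rw [h] at hx; exact absurd hx (by simp))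
  have h2 := hI.smul 0 0
  rw [zero_smul, zero_mul] at h2
  rw [hI.one, h2] at h1
  linarith

/-- Urysohn functions -/
lemma urysohn {A B : Set K} (hA : IsClosed A) (hB : IsClosed B) (hAB : Disjoint A B) :
    ∃ f : C(K, ℝ), (∀ x ∈ A, f x = 0) ∧ (∀ x ∈ B, f x = 1) ∧ ∀ x, 0 ≤ f x ∧ f x ≤ 1 := by
  obtain ⟨f, h1, h2, h3⟩ := exists_continuous_zero_one_of_isClosed hA hB hAB
  exact ⟨f, fun x hx => h1 hx, fun x hx => h2 hx, fun x => h3 x⟩

/-- invariance of the support -/
lemma Mean.image_supp (hI : Mean I) (T : C(K, K)) (hT : ∀ f : C(K, ℝ), I (f.comp T) = I f) :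
    T '' supp I = supp I := by
  apply Subset.antisymm
  · rintro _ ⟨x, hx, rfl⟩ f hf hfx
    rw [← hT]
    exact hx (f.comp T) (fun y => hf _) hfx
  · intro x hx
    by_contra hne
    have hcl : IsClosed (T '' supp I) := (isClosed_supp.isCompact.image T.continuous).isClosed
    obtain ⟨f, h1, h2, h3⟩ := urysohn hcl isClosed_singleton (by
      rw [Set.disjoint_singleton_right]; exact hne)
    have h4 := hx f (fun y => (h3 y).1) (by rw [h2 x rfl]; exact one_pos)
    have h5 : I (f.comp T) ≤ I 0 := hI.le_of_supp fun y hy => by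
      rw [ContinuousMap.comp_apply, h1 _ ⟨y, hy, rfl⟩]; rfl
    have h6 := hI.smul 0 0
    rw [zero_smul, zero_mul] at h6
    rw [hT, h6] at h5
    linarith

/-- functions for disjoint sets -/
lemma exists_disjoint_family {ι : Type*} [Finite ι] (A : ι → Set K) (hA : ∀ i, IsClosed (A i))
    (hd : ∀ i j, i ≠ j → Disjoint (A i) (A j)) :
    ∃ g : ι → C(K, ℝ), (∀ i x, 0 ≤ g i x) ∧ (∀ i, ∀ x ∈ A i, g i x = 1) ∧
      ∀ s : Finset ι, ∀ x, ∑ i ∈ s, g i x ≤ 1 := by
  classical
  have := Fintype.ofFinite ι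
  have h1 : ∀ i, ∃ f : C(K, ℝ), (∀ x ∈ ⋃ j ∈ {j | j ≠ i}, A j, f x = 0) ∧ (∀ x ∈ A i, f x = 1) ∧
      ∀ x, 0 ≤ f x ∧ f x ≤ 1 := by
    intro i
    refine urysohn ?_ (hA i) ?_
    · exact (Set.toFinite _).isClosed_biUnion fun j _ => hA j
    · rw [Set.disjoint_iUnion₂_left]
      intro j hj
      exact hd j i hj
  choose h h0 h1 h01 using h1
  let g : ι → C(K, ℝ) := fun i => (h i - ∑ j ∈ Finset.univ.erase i, h j) ⊔ 0
  have hg : ∀ i x, g i x = max (h i x - ∑ j ∈ Finset.univ.erase i, h j x) 0 := by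
    intro i x
    show max ((h i - ∑ j ∈ Finset.univ.erase i, h j) x) 0 = _
    rw [ContinuousMap.sub_apply, ContinuousMap.sum_apply]
  have hle1 : ∀ i x, g i x ≤ 1 := by
    intro i x
    rw [hg]
    refine max_le ?_ zero_le_one
    have : 0 ≤ ∑ j ∈ Finset.univ.erase i, h j x := Finset.sum_nonneg fun j _ => (h01 j x).1
    linarith [(h01 i x).2]
  refine ⟨g, fun i x => by rw [hg]; exact le_max_right _ _, ?_, ?_⟩
  · intro i x hx
    rw [hg, h1 i x hx]
    have : ∑ j ∈ Finset.univ.erase i, h j x = 0 := by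
      refine Finset.sum_eq_zero fun j hj => ?_
      refine h0 j x (mem_iUnion₂.2 ⟨i, ?_, hx⟩)
      exact (Finset.ne_of_mem_erase hj).symm
    rw [this]; norm_num
  · intro s x
    by_cases hall : ∀ i ∈ s, g i x = 0
    · rw [Finset.sum_eq_zero hall]; exact zero_le_one
    · push Not at hall
      obtain ⟨i, his, hi⟩ := hall
      have hi' : 0 < h i x - ∑ j ∈ Finset.univ.erase i, h j x := by
        rw [hg] at hi
        by_contra hcon
        exact hi (max_eq_right (not_lt.1 hcon))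
      have hother : ∀ k ∈ s, k ≠ i → g k x = 0 := by
        intro k _ hki
        rw [hg]
        apply max_eq_right
        have e1 : h k x ≤ ∑ j ∈ Finset.univ.erase i, h j x :=
          Finset.single_le_sum (f := fun j => h j x) (fun j _ => (h01 j x).1)
            (Finset.mem_erase.2 ⟨hki, Finset.mem_univ _⟩)
        have e2 : h i x ≤ ∑ j ∈ Finset.univ.erase k, h j x :=
          Finset.single_le_sum (f := fun j => h j x) (fun j _ => (h01 j x).1)
            (Finset.mem_erase.2 ⟨hki.symm, Finset.mem_univ _⟩)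
        linarith
      rw [Finset.sum_eq_single_of_mem i his hother]
      exact hle1 i x

/-- finitely many disjoint translates -/
lemma Mean.card_bound (hI : Mean I) {S : Type*} (T : S → C(K, K))
    (hT : ∀ s (f : C(K, ℝ)), I (f.comp (T s)) = I f) (U : Set K) (hU : IsOpen U)
    (hUne : (U ∩ supp I).Nonempty) : ∃ N : ℕ, ∀ F : Finset S,
      (∀ s ∈ F, ∀ t ∈ F, s ≠ t → Disjoint (T s '' closure (U ∩ supp I)) (T t '' closure (U ∩ supp I))) →
      F.card ≤ N := by
  classical
  obtain ⟨x, hxU, hxs⟩ := hUne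
  obtain ⟨f, hf1, hf2, hf3⟩ := urysohn hU.isClosed_compl (isClosed_singleton (x := x)) (by
    rw [Set.disjoint_singleton_right]; exact fun h => h hxU)
  have hpos : 0 < I f := hxs f (fun y => (hf3 y).1) (by rw [hf2 x rfl]; exact one_pos)
  obtain ⟨N, hN⟩ := exists_nat_gt (1 / I f)
  refine ⟨N, fun F hF => ?_⟩
  let A : F → Set K := fun s => T s '' closure (U ∩ supp I)
  have hA : ∀ s, IsClosed (A s) := fun s =>
    (isClosed_closure.isCompact.image (T s).continuous).isClosed
  obtain ⟨g, hg0, hg1, hgs⟩ := exists_disjoint_family A hA (fun i j hij =>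
    hF i i.2 j j.2 fun h => hij (Subtype.ext h))
  have h1 : ∀ s : F, I f ≤ I (g s) := by
    intro s
    rw [← hT s (g s)]
    refine hI.le_of_supp fun y hy => ?_
    rw [ContinuousMap.comp_apply]
    by_cases hyU : y ∈ U
    · rw [hg1 s _ ⟨y, subset_closure ⟨hyU, hy⟩, rfl⟩]
      exact (hf3 y).2
    · rw [hf1 y hyU]
      exact hg0 s _
  have h2 : (F.card : ℝ) * I f ≤ 1 := by
    have h3 : ∑ s : F, I f ≤ ∑ s : F, I (g s) := Finset.sum_le_sum fun s _ => h1 s
    rw [Finset.sum_const, nsmul_eq_mul, Finset.card_univ, Fintype.card_coe] at h3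
    have h5 : I (∑ s : F, g s) = ∑ s : F, I (g s) := hI.sum _ _
    have h4 : I (∑ s : F, g s) ≤ I 1 := hI.mono fun x => by
      rw [ContinuousMap.sum_apply]; exact hgs Finset.univ x
    rw [hI.one] at h4
    linarith
  have h3 : (F.card : ℝ) < N := by
    rw [div_lt_iff₀ hpos] at hN
    by_contra hcon
    push Not at hcon
    have := mul_le_mul_of_nonneg_right hcon hpos.le
    linarith
  exact_mod_cast h3.le

/-- the finite net -/
lemma Mean.exists_net (hI : Mean I) {S : Type*} [Nonempty S] (T : S → C(K, K))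
    (hT : ∀ s (f : C(K, ℝ)), I (f.comp (T s)) = I f) (U : Set K) (hU : IsOpen U)
    (hUne : (U ∩ supp I).Nonempty) :
    ∃ F : Finset S, F.Nonempty ∧ ∀ s, ∃ t ∈ F,
      (T s '' closure (U ∩ supp I) ∩ T t '' closure (U ∩ supp I)).Nonempty := by
  classical
  obtain ⟨N, hN⟩ := hI.card_bound T hT U hU hUne
  let Q : Finset S → Prop := fun F =>
    ∀ s ∈ F, ∀ t ∈ F, s ≠ t → Disjoint (T s '' closure (U ∩ supp I)) (T t '' closure (U ∩ supp I))
  -- a maximal cardinality
  have hex : ∃ n, ∃ F : Finset S, Q F ∧ F.card = n := ⟨0, ∅, by intro s hs; simp at hs, rfl⟩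
  obtain ⟨n, ⟨F, hF, hFn⟩, hmax⟩ : ∃ n, (∃ F : Finset S, Q F ∧ F.card = n) ∧
      ∀ m, (∃ F : Finset S, Q F ∧ F.card = m) → m ≤ n := by
    let P : ℕ → Prop := fun n => ∃ F : Finset S, Q F ∧ F.card = n
    refine ⟨Nat.findGreatest P N, ?_, fun m hm => ?_⟩
    · exact Nat.findGreatest_spec (P := P) (Nat.zero_le N) ⟨∅, by intro s hs; simp at hs, rfl⟩
    · obtain ⟨F, hF, hFm⟩ := hm
      exact Nat.le_findGreatest (by rw [← hFm]; exact hN F hF) ⟨F, hF, hFm⟩
  have hself : ∀ s, (T s '' closure (U ∩ supp I) ∩ T s '' closure (U ∩ supp I)).Nonempty := by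
    intro s
    rw [inter_self]
    exact (hUne.mono subset_closure).image _
  have key : ∀ s, ∃ t ∈ F, (T s '' closure (U ∩ supp I) ∩ T t '' closure (U ∩ supp I)).Nonempty := by
    intro s
    by_cases hs : s ∈ F
    · exact ⟨s, hs, hself s⟩
    · by_contra hcon
      push Not at hcon
      have hQ : Q (insert s F) := by
        intro a ha b hb hab
        rw [Finset.mem_insert] at ha hb
        rcases ha with rfl | ha <;> rcases hb with rfl | hb
        · exact absurd rfl hab
        · rw [Set.disjoint_iff_inter_eq_empty]; exact hcon b hb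
        · rw [Set.disjoint_iff_inter_eq_empty, inter_comm]; exact hcon a ha
        · exact hF a ha b hb hab
      have := hmax _ ⟨insert s F, hQ, rfl⟩
      rw [Finset.card_insert_of_notMem hs, hFn] at this
      omega
  obtain ⟨s0⟩ := (inferInstance : Nonempty S)
  obtain ⟨t, ht, -⟩ := key s0
  exact ⟨F, ⟨t, ht⟩, key⟩

end Pool.Agent.X195.WF
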