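import Mathlib
import Pool.Agent.X195.WF3

set_option autoImplicit false

/-!
The fixed point argument.
-/

open Filter Topology Set

namespace Pool.Agent.X195.WF

section norming

variable {E : Type*} [AddCommGroup E] [Module ℝ E] [TopologicalSpace E] [IsTopologicalAddGroup E]
  [ContinuousSMul ℝ E]

/-- norming functionals -/
lemma exists_norming (p : Seminorm ℝ E) (hp : Continuous p) (w : E) (hw : 0 < p w) :
    ∃ g : StrongDual ℝ E, g w = p w ∧ ∀ z, g z ≤ p z := by
  have hconv : Convex ℝ {z : E | p z < p w} := by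
    have := p.convex_ball 0 (p w)
    have e : p.ball 0 (p w) = {z : E | p z < p w} := by
      ext z; rw [Seminorm.mem_ball, sub_zero]; rfl
    rwa [e] at this
  have hopen : IsOpen {z : E | p z < p w} := isOpen_lt hp continuous_const
  obtain ⟨f, hf⟩ := geometric_hahn_banach_open_point hconv hopen
    (show w ∉ {z : E | p z < p w} from fun hz => lt_irrefl (p w) hz)
  have h0 : 0 < f w := by
    have := hf 0 (by show p 0 < p w; rw [map_zero]; exact hw)
    rwa [map_zero] at this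
  refine ⟨(p w / f w) • f, ?_, fun z => ?_⟩
  · show p w / f w * f w = p w
    field_simp
  · show p w / f w * f z ≤ p z
    refine le_of_forall_pos_le_add fun δ hδ => ?_
    have hl : 0 < p z + δ := add_pos_of_nonneg_of_pos (apply_nonneg p z) hδ
    have h1 := hf ((p w / (p z + δ)) • z) (by
      show p ((p w / (p z + δ)) • z) < p w
      rw [map_smul_eq_mul, Real.norm_of_nonneg (by positivity), div_mul_eq_mul_div, div_lt_iff₀ hl]
      nlinarith)
    rw [map_smul, smul_eq_mul] at h1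
    have h2 : p w / f w * f z = (p w / (p z + δ) * f z) * ((p z + δ) / f w) := by
      field_simp
    rw [h2]
    have h3 : (p w / (p z + δ) * f z) * ((p z + δ) / f w) ≤ f w * ((p z + δ) / f w) :=
      mul_le_mul_of_nonneg_right h1.le (by positivity)
    have h4 : f w * ((p z + δ) / f w) = p z + δ := by field_simp
    rwa [h4] at h3

variable {K : Type*} [TopologicalSpace K]

/-- closed balls are weakly closed -/
lemma isClosed_ball (p : Seminorm ℝ E) (hp : Continuous p) (e : K → E)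
    (he : ∀ f : StrongDual ℝ E, Continuous fun y => f (e y)) (y : E) (r : ℝ) (hr : 0 ≤ r) :
    IsClosed {x : K | p (e x - y) ≤ r} := by
  rw [← isOpen_compl_iff, isOpen_iff_forall_mem_open]
  intro x hx
  have hx' : r < p (e x - y) := not_le.1 hx
  obtain ⟨g, hg1, hg2⟩ := exists_norming p hp (e x - y) (lt_of_le_of_lt hr hx')
  refine ⟨{u | r < g (e u) - g y}, fun u hu => ?_, isOpen_lt continuous_const
    ((he g).sub continuous_const), ?_⟩
  · intro hu2
    have h1 := hg2 (e u - y)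
    rw [map_sub] at h1
    have h2 : p (e u - y) ≤ r := hu2
    have h3 : r < g (e u) - g y := hu
    linarith
  · show r < g (e x) - g y
    rw [← map_sub, hg1]
    exact hx'

end norming

/-- minimal sets -/
lemma exists_min {K : Type*} [TopologicalSpace K] [CompactSpace K] (P : Set K → Prop)
    (hP : ∀ c : Set (Set K), (∀ A ∈ c, P A) → P (⋂₀ c)) (A0 : Set K) (h0 : A0.Nonempty)
    (h1 : IsClosed A0) (h2 : P A0) :
    ∃ A ⊆ A0, A.Nonempty ∧ IsClosed A ∧ P A ∧ ∀ B ⊆ A, B.Nonempty → IsClosed B → P B → B = A := by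
  obtain ⟨A, hA, hmin⟩ := zorn_superset_nonempty {A : Set K | A.Nonempty ∧ IsClosed A ∧ P A} (by
    intro c hc hchain hne
    refine ⟨⋂₀ c, ⟨?_, isClosed_sInter fun A hA => (hc hA).2.1, hP c fun A hA => (hc hA).2.2⟩,
      fun A hA => sInter_subset_of_mem hA⟩
    have : Nonempty c := hne.to_subtype
    refine IsCompact.nonempty_sInter_of_directed_nonempty_isCompact_isClosed ?_
      (fun A hA => (hc hA).1) (fun A hA => (hc hA).2.1.isCompact) (fun A hA => (hc hA).2.1)
    intro A hA B hB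
    rcases hchain.total hA hB with h | h
    · exact ⟨A, hA, Subset.refl _, h⟩
    · exact ⟨B, hB, h, Subset.refl _⟩) A0 ⟨h0, h1, h2⟩
  refine ⟨A, hA, hmin.prop.1, hmin.prop.2.1, hmin.prop.2.2, fun B hBA hB1 hB2 hB3 => ?_⟩
  exact Subset.antisymm hBA (hmin.le_of_le ⟨hB1, hB2, hB3⟩ hBA)

/-- **The fixed point theorem.** -/
theorem fixed_point {E : Type*} [AddCommGroup E] [Module ℝ E] [TopologicalSpace E]
    [IsTopologicalAddGroup E] [ContinuousSMul ℝ E] [LocallyConvexSpace ℝ E]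
    {ι : Type*} (Q : ι → Seminorm ℝ E) (hQ : ∀ i, Continuous (Q i))
    (hsep : ∀ x : E, x ≠ 0 → ∃ i, Q i x ≠ 0)
    {K : Type*} [TopologicalSpace K] [CompactSpace K] [T2Space K] [Nonempty K] (e : K → E)
    (hinj : Function.Injective e) (he : ∀ f : StrongDual ℝ E, Continuous fun y => f (e y))
    (hconv : Convex ℝ (range e)) {S : Type*} [Nonempty S] (T : S → C(K, K))
    (hmul : ∀ s t, ∃ r, ∀ x, T r x = T s (T t x))
    (hne : ∀ i s x y, Q i (e (T s x) - e (T s y)) ≤ Q i (e x - e y))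
    (hmean : ∀ y, ∃ I : C(K, ℝ) → ℝ, Mean I ∧ (∀ s (f : C(K, ℝ)), I (f.comp (T s)) = I f) ∧
      ∀ f : C(K, ℝ), (∀ s, f (T s y) = 0) → I f = 0) :
    ∃ x, ∀ s, T s x = x := by
  classical
  -- the minimal convex set
  obtain ⟨K0, -, hK0ne, hK0cl, ⟨hK0conv, hK0inv⟩, hK0min⟩ := exists_min
    (fun A : Set K => (∀ x ∈ A, ∀ y ∈ A, ∀ a b : ℝ, 0 ≤ a → 0 ≤ b → a + b = 1 → ∀ z : K,
      e z = a • e x + b • e y → z ∈ A) ∧ ∀ s, ∀ x ∈ A, T s x ∈ A)
    (by
      intro c hc
      refine ⟨fun x hx y hy a b ha hb hab z hz A hA =>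
        (hc A hA).1 x (hx A hA) y (hy A hA) a b ha hb hab z hz, fun s x hx A hA =>
        (hc A hA).2 s x (hx A hA)⟩) univ univ_nonempty isClosed_univ
    ⟨fun _ _ _ _ _ _ _ _ _ _ _ => mem_univ _, fun _ _ _ => mem_univ _⟩
  -- the minimal set
  obtain ⟨Y, hYK0, hYne, hYcl, hYinv, hYmin⟩ := exists_min
    (fun A : Set K => ∀ s, ∀ x ∈ A, T s x ∈ A) (fun c hc s x hx A hA => hc A hA s x (hx A hA))
    K0 hK0ne hK0cl hK0inv
  obtain ⟨y0, hy0⟩ := hYne
  obtain ⟨I, hI, hIinv, hI0⟩ := hmean y0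
  have hsuppY : supp I = Y := by
    refine hYmin _ ?_ hI.supp_nonempty isClosed_supp ?_
    · intro x hx
      by_contra hxY
      obtain ⟨f, h1, h2, h3⟩ := urysohn hYcl (isClosed_singleton (x := x)) (by
        rw [Set.disjoint_singleton_right]; exact hxY)
      have h4 := hx f (fun y => (h3 y).1) (by rw [h2 x rfl]; exact one_pos)
      rw [hI0 f fun s => h1 _ (hYinv s y0 hy0)] at h4
      exact lt_irrefl _ h4
    · intro s x hx
      rw [← hI.image_supp (T s) (hIinv s)]
      exact ⟨x, hx, rfl⟩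
  have hTY : ∀ s, T s '' Y = Y := by
    intro s
    have := hI.image_supp (T s) (hIinv s)
    rwa [hsuppY] at this
  -- all seminorms vanish on differences
  have hzero : ∀ i, ∀ x ∈ Y, ∀ y ∈ Y, Q i (e x - e y) = 0 := by
    intro i x0 hx0 y1 hy1
    by_contra hne0
    have hpos : 0 < Q i (e x0 - e y1) := lt_of_le_of_ne (apply_nonneg _ _) (Ne.symm hne0)
    set p := Q i with hp
    set δ := p (e x0 - e y1) with hδ
    -- small piece
    have : CompactSpace Y := isCompact_iff_compactSpace.1 hYcl.isCompact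
    have : Nonempty Y := ⟨⟨y0, hy0⟩⟩
    obtain ⟨U, hUo, hUne, hU⟩ := small_piece p (hQ i) (fun y : Y => e y)
      (fun f => (he f).comp continuous_subtype_val) (δ / 4) (by linarith)
    obtain ⟨U', hU'o, rfl⟩ := isOpen_induced_iff.1 hUo
    have hUne' : (U' ∩ supp I).Nonempty := by
      obtain ⟨y, hy⟩ := hUne
      exact ⟨y, hy, by rw [hsuppY]; exact y.2⟩
    set A := closure (U' ∩ supp I) with hA
    have hAY : A ⊆ Y := by
      rw [hA, ← hsuppY]
      exact closure_minimal inter_subset_right isClosed_supp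
    have hdiam : ∀ x ∈ A, ∀ y ∈ A, p (e x - e y) ≤ δ / 4 := by
      have h1 : ∀ y ∈ U' ∩ supp I, ∀ x ∈ A, p (e x - e y) ≤ δ / 4 := by
        intro y hy x hx
        refine closure_minimal ?_ (isClosed_ball p (hQ i) e he (e y) (δ / 4) (by linarith)) hx
        intro z hz
        rw [hsuppY] at hz hy
        exact (hU ⟨z, hz.2⟩ hz.1 ⟨y, hy.2⟩ hy.1).le
      intro x hx y hy
      have h2 := closure_minimal (fun z hz => by
        show p (e z - e x) ≤ δ / 4
        rw [map_sub_rev]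
        exact h1 z hz x hx) (isClosed_ball p (hQ i) e he (e x) (δ / 4) (by linarith)) hy
      rw [map_sub_rev]
      exact h2
    obtain ⟨F, hFne, hF⟩ := hI.exists_net T hIinv U' hU'o hUne'
    obtain ⟨a0, ha0⟩ := hUne'
    have ha0A : a0 ∈ A := subset_closure ha0
    -- the net
    have hnet1 : ∀ s, ∀ x ∈ A, ∃ t ∈ F, p (e (T s x) - e (T t a0)) ≤ δ / 2 := by
      intro s x hx
      obtain ⟨t, ht, z, ⟨x1, hx1, rfl⟩, ⟨x2, hx2, hz⟩⟩ := hF s
      refine ⟨t, ht, ?_⟩
      have h1 : p (e (T s x) - e (T s x1)) ≤ δ / 4 := (hne i s x x1).trans (hdiam x hx x1 hx1)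
      have h2 : p (e (T t x2) - e (T t a0)) ≤ δ / 4 := (hne i t x2 a0).trans (hdiam x2 hx2 a0 ha0A)
      rw [hz] at h2
      have h3 := map_add_le_add p (e (T s x) - e (T s x1)) (e (T s x1) - e (T t a0))
      rw [sub_add_sub_cancel] at h3
      linarith
    have hZ : closure (⋃ s, T s '' A) = Y := by
      refine hYmin _ ?_ ?_ isClosed_closure ?_
      · refine closure_minimal (iUnion_subset fun s => ?_) hYcl
        rintro _ ⟨x, hx, rfl⟩
        exact hYinv s x (hAY hx)
      · obtain ⟨s⟩ := (inferInstance : Nonempty S)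
        exact ⟨T s a0, subset_closure (mem_iUnion.2 ⟨s, a0, ha0A, rfl⟩)⟩
      · intro s x hx
        refine map_mem_closure (T s).continuous hx ?_
        intro z hz
        obtain ⟨t, w, hw, rfl⟩ := mem_iUnion.1 hz
        obtain ⟨r, hr⟩ := hmul s t
        exact mem_iUnion.2 ⟨r, w, hw, hr w⟩
    have hnet : ∀ y ∈ Y, ∃ t ∈ F, p (e y - e (T t a0)) ≤ δ / 2 := by
      intro y hy
      rw [← hZ] at hy
      have hcl : IsClosed (⋃ t ∈ F, {x : K | p (e x - e (T t a0)) ≤ δ / 2}) :=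
        F.finite_toSet.isClosed_biUnion fun t _ =>
          isClosed_ball p (hQ i) e he _ _ (by linarith)
      have h1 := closure_minimal (s := ⋃ s, T s '' A) (fun z hz => by
        obtain ⟨s, x, hx, rfl⟩ := mem_iUnion.1 hz
        obtain ⟨t, ht, h⟩ := hnet1 s x hx
        exact mem_iUnion₂.2 ⟨t, ht, h⟩) hcl hy
      obtain ⟨t, ht, h⟩ := mem_iUnion₂.1 h1
      exact ⟨t, ht, h⟩
    -- the diameter
    let Dset : Set ℝ := {r | ∃ x ∈ Y, ∃ y ∈ Y, r = p (e x - e y)}
    have hDbdd : BddAbove Dset := by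
      obtain ⟨M, hM⟩ : ∃ M : ℝ, ∀ t ∈ F, ∀ t' ∈ F, p (e (T t a0) - e (T t' a0)) ≤ M := by
        obtain ⟨M, hM⟩ := (F ×ˢ F).finite_toSet.image
          (fun q : S × S => p (e (T q.1 a0) - e (T q.2 a0))) |>.bddAbove
        refine ⟨M, fun t ht t' ht' => hM ⟨(t, t'), ?_, rfl⟩⟩
        exact Finset.mem_coe.2 (Finset.mem_product.2 ⟨ht, ht'⟩)
      refine ⟨δ / 2 + M + δ / 2, ?_⟩
      rintro _ ⟨x, hx, y, hy, rfl⟩
      obtain ⟨t, ht, h1⟩ := hnet x hx
      obtain ⟨t', ht', h2⟩ := hnet y hy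
      have h3 := map_add_le_add p (e x - e (T t a0)) (e (T t a0) - e (T t' a0))
      rw [sub_add_sub_cancel] at h3
      have h4 := map_add_le_add p (e x - e (T t' a0)) (e (T t' a0) - e y)
      rw [sub_add_sub_cancel] at h4
      rw [map_sub_rev] at h2
      have h5 := hM t ht t' ht'
      linarith
    set d := sSup Dset with hd
    have hdle : ∀ x ∈ Y, ∀ y ∈ Y, p (e x - e y) ≤ d := fun x hx y hy =>
      le_csSup hDbdd ⟨x, hx, y, hy, rfl⟩
    have hδd : δ ≤ d := hdle x0 hx0 y1 hy1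
    -- De Marr
    have hconv0 : Convex ℝ (e '' K0) := by
      rintro _ ⟨x, hx, rfl⟩ _ ⟨y, hy, rfl⟩ a b ha hb hab
      obtain ⟨z, hz⟩ := hconv (mem_range_self x) (mem_range_self y) ha hb hab
      exact ⟨z, hK0conv x hx y hy a b ha hb hab z hz, hz⟩
    obtain ⟨u, ⟨u', hu'K, rfl⟩, r, hrd, hr⟩ := deMarr p hconv0 (e '' Y) (image_mono hYK0) d (δ / 2)
      (by linarith) (by
        rintro _ ⟨x, hx, rfl⟩ _ ⟨y, hy, rfl⟩
        exact hdle x hx y hy)
      (F.image fun t => e (T t a0)) (by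
        intro z hz
        rw [Finset.coe_image] at hz
        obtain ⟨t, ht, rfl⟩ := hz
        exact ⟨_, hYinv t a0 (hAY ha0A), rfl⟩) (hFne.image _) (by
        rintro _ ⟨y, hy, rfl⟩
        obtain ⟨t, ht, h⟩ := hnet y hy
        exact ⟨_, Finset.mem_image_of_mem _ ht, h⟩)
    have hr0 : 0 ≤ r := (apply_nonneg p _).trans (hr _ ⟨y0, hy0, rfl⟩)
    have hK1 : {x | x ∈ K0 ∧ ∀ y ∈ Y, p (e x - e y) ≤ r} = K0 := by
      refine hK0min _ (fun x hx => hx.1) ⟨u', hu'K, fun y hy => hr _ ⟨y, hy, rfl⟩⟩ ?_ ⟨?_, ?_⟩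
      · have : {x | x ∈ K0 ∧ ∀ y ∈ Y, p (e x - e y) ≤ r} =
            K0 ∩ ⋂ y ∈ Y, {x | p (e x - e y) ≤ r} := by
          ext x; simp
        rw [this]
        exact hK0cl.inter (isClosed_biInter fun y _ => isClosed_ball p (hQ i) e he _ _ hr0)
      · rintro x ⟨hx, hx2⟩ y ⟨hy, hy2⟩ a b ha hb hab z hz
        refine ⟨hK0conv x hx y hy a b ha hb hab z hz, fun w hw => ?_⟩
        have h1 : e z - e w = a • (e x - e w) + b • (e y - e w) := by
          rw [hz, smul_sub, smul_sub]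
          have : e w = a • e w + b • e w := by rw [← add_smul, hab, one_smul]
          nth_rewrite 1 [this]
          abel
        rw [h1]
        refine (map_add_le_add p _ _).trans ?_
        rw [map_smul_eq_mul, map_smul_eq_mul, Real.norm_of_nonneg ha, Real.norm_of_nonneg hb]
        have h2 := mul_le_mul_of_nonneg_left (hx2 w hw) ha
        have h3 := mul_le_mul_of_nonneg_left (hy2 w hw) hb
        have h4 : a * r + b * r = r := by rw [← add_mul, hab, one_mul]
        linarith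
      · rintro s x ⟨hx, hx2⟩
        refine ⟨hK0inv s x hx, fun y hy => ?_⟩
        rw [← hTY s] at hy
        obtain ⟨y', hy', rfl⟩ := hy
        exact (hne i s x y').trans (hx2 y' hy')
    have hdr : d ≤ r := by
      refine csSup_le ⟨_, x0, hx0, y1, hy1, rfl⟩ ?_
      rintro _ ⟨x, hx, y, hy, rfl⟩
      have h1 : x ∈ {x | x ∈ K0 ∧ ∀ y ∈ Y, p (e x - e y) ≤ r} := by
        rw [hK1]; exact hYK0 hx
      exact h1.2 y hy
    linarith
  refine ⟨y0, fun s => ?_⟩
  apply hinj
  by_contra hne1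
  obtain ⟨i, hi⟩ := hsep _ (sub_ne_zero.2 hne1)
  exact hi (hzero i _ (hYinv s y0 hy0) _ hy0)

end Pool.Agent.X195.WF
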