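import Mathlib

/-!
Möbius weights on a finite lattice and alternating sums over chains.
-/
open Finset

namespace Pool.Agent.X195.AC
open Classical in
/-- The weights `m` with `∑_{R ∈ D, R ≥ U} m R = 1` for all `U ∈ D`. -/
noncomputable def wt {L : Type*} [Lattice L] [Finite L] (D : Finset L) : L → ℤ :=
  (wellFounded_gt (α := L)).fix
    (fun U ih => 1 - ∑ R ∈ (D.filter (U < ·)).attach, ih R.1 (mem_filter.1 R.2).2)

open Classical in
/-- The chains in `P` below `Q`. -/
noncomputable def chains {L : Type*} [Lattice L] (P : Finset L) (Q : L) : Finset (Finset L) :=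
  P.powerset.filter (fun c => IsChain (· ≤ ·) (c : Set L) ∧ ∀ U ∈ c, U ≤ Q)

/-- The alternating sum over the chains in `P` below `Q`. -/
noncomputable def Fc {L : Type*} [Lattice L] (P : Finset L) (Q : L) : ℤ :=
  ∑ c ∈ chains P Q, (-1) ^ c.card

open scoped Classical

variable {L : Type*} [Lattice L]

section weights

variable [Finite L]

theorem wt_eq (D : Finset L) (U : L) : wt D U = 1 - ∑ R ∈ D.filter (U < ·), wt D R := by
  conv_lhs => rw [wt, WellFounded.fix_eq]
  rw [← Finset.sum_attach (D.filter (U < ·))]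
  rfl

theorem sum_wt (D : Finset L) (U : L) (hU : U ∈ D) : ∑ R ∈ D.filter (U ≤ ·), wt D R = 1 := by
  have h : D.filter (U ≤ ·) = insert U (D.filter (U < ·)) := by
    ext R
    simp only [mem_filter, mem_insert]
    constructor
    · rintro ⟨h1, h2⟩
      rcases h2.eq_or_lt with h3 | h3
      · exact Or.inl h3.symm
      · exact Or.inr ⟨h1, h3⟩
    · rintro (h1 | ⟨h1, h2⟩)
      · subst h1
        exact ⟨hU, le_rfl⟩
      · exact ⟨h1, h2.le⟩
  rw [h, sum_insert (by simp), wt_eq D U]
  ring

theorem weisner (D : Finset L) (hD : ∀ U V, V ∈ D → U ≤ V → U ∈ D) (S : L) (hS : S ∈ D) (U : L)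
    (hU : U < S) : ∑ R ∈ D.filter (fun R => R ⊓ S = U), wt D R = 0 := by
  induction U using (wellFounded_gt (α := L)).induction with
  | _ U ih =>
    have h1 := sum_wt D U (hD U S hS hU.le)
    set T : Finset L := (D.filter (U ≤ ·)).image (fun R => R ⊓ S) with hT
    have hTS : ∀ V ∈ T, U ≤ V ∧ V ≤ S := by
      intro V hV
      obtain ⟨R, hR, rfl⟩ := mem_image.1 hV
      exact ⟨le_inf (mem_filter.1 hR).2 hU.le, inf_le_right⟩
    have hST : S ∈ T := mem_image.2 ⟨S, mem_filter.2 ⟨hS, hU.le⟩, inf_idem S⟩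
    have hUT : U ∈ T := mem_image.2 ⟨U, mem_filter.2 ⟨hD U S hS hU.le, le_rfl⟩, inf_eq_left.2 hU.le⟩
    rw [← sum_fiberwise_of_maps_to (t := T) (g := fun R => R ⊓ S)
      (fun R hR => mem_image_of_mem _ hR)] at h1
    have hinner : ∀ V, U ≤ V → (D.filter (U ≤ ·)).filter (fun R => R ⊓ S = V) =
        D.filter (fun R => R ⊓ S = V) := by
      intro V hV
      ext R
      simp only [mem_filter]
      constructor
      · rintro ⟨⟨a, _⟩, c⟩
        exact ⟨a, c⟩
      · rintro ⟨a, c⟩
        exact ⟨⟨a, hV.trans (c ▸ inf_le_left)⟩, c⟩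
    have h2 : ∑ V ∈ T, ∑ R ∈ (D.filter (U ≤ ·)).filter (fun R => R ⊓ S = V), wt D R =
        ∑ R ∈ D.filter (fun R => R ⊓ S = U), wt D R + 1 := by
      rw [← sum_subset (s₁ := {U, S}) (s₂ := T)]
      · rw [sum_pair hU.ne, hinner U le_rfl, hinner S hU.le]
        congr 1
        rw [← sum_wt D S hS]
        congr 1
        ext R
        simp only [mem_filter, and_congr_right_iff]
        intro _
        rw [inf_eq_right]
      · intro V hV
        rw [mem_insert, mem_singleton] at hV
        rcases hV with rfl | rfl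
        · exact hUT
        · exact hST
      · intro V hV hV2
        rw [mem_insert, mem_singleton, not_or] at hV2
        obtain ⟨h3, h4⟩ := hTS V hV
        rw [hinner V h3]
        exact ih V (lt_of_le_of_ne h3 (Ne.symm hV2.1)) (lt_of_le_of_ne h4 hV2.2)
    rw [h2] at h1
    linarith

theorem wt_weisner (D : Finset L) (hD : ∀ U V, V ∈ D → U ≤ V → U ∈ D) (S : L) (hS : S ∈ D) (U : L)
    (hU : U < S) : wt D U = - ∑ R ∈ D.filter (fun R => R ⊓ S = U ∧ R ≠ U), wt D R := by
  have h := weisner D hD S hS U hU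
  have h1 : D.filter (fun R => R ⊓ S = U) = insert U (D.filter (fun R => R ⊓ S = U ∧ R ≠ U)) := by
    ext R
    simp only [mem_filter, mem_insert]
    constructor
    · rintro ⟨a, b⟩
      by_cases hR : R = U
      · exact Or.inl hR
      · exact Or.inr ⟨a, b, hR⟩
    · rintro (rfl | ⟨a, b, _⟩)
      · exact ⟨hD R S hS hU.le, inf_eq_left.2 hU.le⟩
      · exact ⟨a, b⟩
  rw [h1, sum_insert (by simp)] at h
  linarith

/-- invariance under order automorphisms -/
theorem wt_equiv (D : Finset L) (e : L ≃o L) (hD : ∀ U, e U ∈ D ↔ U ∈ D) (U : L) :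
    wt D (e U) = wt D U := by
  induction U using (wellFounded_gt (α := L)).induction with
  | _ U ih =>
    rw [wt_eq D U, wt_eq D (e U)]
    congr 1
    symm
    refine sum_bij (fun R _ => e R) ?_ ?_ ?_ ?_
    · intro R hR
      rw [mem_filter] at hR ⊢
      exact ⟨(hD R).2 hR.1, e.lt_iff_lt.2 hR.2⟩
    · intro R _ R' _ h
      exact e.injective h
    · intro R hR
      rw [mem_filter] at hR
      refine ⟨e.symm R, ?_, e.apply_symm_apply R⟩
      rw [mem_filter]
      refine ⟨(hD _).1 (by rw [e.apply_symm_apply]; exact hR.1), ?_⟩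
      rw [← e.lt_iff_lt, e.apply_symm_apply]
      exact hR.2
    · intro R hR
      rw [mem_filter] at hR
      exact (ih R hR.2).symm

end weights

theorem mem_chains {P : Finset L} {Q : L} {c : Finset L} :
    c ∈ chains P Q ↔ c ⊆ P ∧ IsChain (· ≤ ·) (c : Set L) ∧ ∀ U ∈ c, U ≤ Q := by
  rw [chains, mem_filter, mem_powerset]

/-- a cone has vanishing alternating sum -/
theorem Fc_cone {P : Finset L} {Q : L} (hQ : Q ∈ P) : Fc P Q = 0 := by
  unfold Fc
  refine sum_involution (fun c _ => if Q ∈ c then c.erase Q else insert Q c) ?_ ?_ ?_ ?_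
  · intro c hc
    by_cases h : Q ∈ c
    · simp only [h, if_true]
      rw [← card_erase_add_one h, pow_succ]
      ring
    · simp only [h, if_false]
      rw [card_insert_of_notMem h, pow_succ]
      ring
  · intro c hc _
    by_cases h : Q ∈ c
    · simp only [h, if_true]
      intro h2
      rw [← h2] at h
      exact notMem_erase Q c h
    · simp only [h, if_false]
      intro h2
      exact h (h2 ▸ mem_insert_self Q c)
  · intro c hc
    rw [mem_chains] at hc
    by_cases h : Q ∈ c
    · simp only [h, if_true]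
      rw [mem_chains]
      refine ⟨(erase_subset _ _).trans hc.1, ?_, fun U hU => hc.2.2 U (mem_of_mem_erase hU)⟩
      exact hc.2.1.mono (by exact_mod_cast erase_subset Q c)
    · simp only [h, if_false]
      rw [mem_chains]
      refine ⟨insert_subset hQ hc.1, ?_, ?_⟩
      · rw [coe_insert]
        exact hc.2.1.insert fun U hU _ => Or.inr (hc.2.2 U hU)
      · intro U hU
        rcases mem_insert.1 hU with rfl | hU
        · exact le_rfl
        · exact hc.2.2 U hU
  · intro c hc
    by_cases h : Q ∈ c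
    · simp only [h, if_true, notMem_erase, if_false]
      exact insert_erase h
    · simp only [h, if_false, mem_insert_self, if_true]
      exact erase_insert h

/-- expansion of the alternating sum by weights -/
theorem Fc_expand [Finite L] [OrderBot L] {P : Finset L} {Q : L} {D : Finset L} (hbot : ⊥ ∈ D)
    (hP : ∀ U ∈ P, U ≤ Q → U ∈ D) (hQ : ∀ U ∈ D, U ≤ Q) :
    Fc P Q = ∑ R ∈ D, wt D R * Fc P R := by
  have h1 : ∀ R ∈ D, wt D R * Fc P R =
      ∑ c ∈ chains P Q, if c.sup id ≤ R then wt D R * (-1) ^ c.card else 0 := by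
    intro R hR
    rw [Fc, mul_sum, ← sum_filter]
    congr 1
    ext c
    rw [mem_filter, mem_chains, mem_chains, Finset.sup_le_iff]
    constructor
    · rintro ⟨a, b, d⟩
      exact ⟨⟨a, b, fun U hU => (d U hU).trans (hQ R hR)⟩, d⟩
    · rintro ⟨⟨a, b, _⟩, d⟩
      exact ⟨a, b, d⟩
  rw [sum_congr rfl h1, sum_comm, Fc]
  refine sum_congr rfl fun c hc => ?_
  rw [← sum_filter, ← sum_mul]
  have h2 : c.sup id ∈ D := by
    rcases c.eq_empty_or_nonempty with rfl | hne
    · exact hbot
    · rw [mem_chains] at hc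
      have h3 : c.sup id ∈ c := by
        have h5 : ∃ t ∈ c, ∀ x ∈ c, x ≤ t := by
          obtain ⟨t, ht, ht2⟩ := c.exists_maximal hne
          refine ⟨t, ht, fun x hx => ?_⟩
          rcases hc.2.1.total hx ht with h | h
          · exact h
          · exact ht2 hx h
        obtain ⟨t, ht, ht2⟩ := h5
        have : c.sup id = t := le_antisymm (Finset.sup_le ht2) (Finset.le_sup (f := id) ht)
        rw [this]
        exact ht
      exact hP _ (hc.1 h3) (hc.2.2 _ h3)
  rw [sum_wt D _ h2, one_mul]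

/-- transport along an order embedding whose range contains everything below `Q'` -/
theorem Fc_embed {L' : Type*} [Lattice L'] (P : Finset L) (P' : Finset L') (ι : L → L')
    (hι : ∀ a b, ι a ≤ ι b ↔ a ≤ b) (Q : L) (Q' : L') (hQ : ∀ a, ι a ≤ Q' ↔ a ≤ Q)
    (hr : ∀ b, b ≤ Q' → ∃ a, ι a = b) (hP : ∀ a, ι a ∈ P' ↔ a ∈ P) :
    Fc P' Q' = Fc P Q := by
  have hinj : Function.Injective ι := fun a b h =>
    le_antisymm ((hι a b).1 h.le) ((hι b a).1 h.ge)
  unfold Fc
  symm
  refine sum_bij (fun c _ => c.image ι) ?_ ?_ ?_ ?_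
  · intro c hc
    rw [mem_chains] at hc ⊢
    refine ⟨?_, ?_, ?_⟩
    · intro U hU
      obtain ⟨V, hV, rfl⟩ := mem_image.1 hU
      exact (hP V).2 (hc.1 hV)
    · rw [coe_image]
      intro x hx y hy hxy
      obtain ⟨x', hx', rfl⟩ := hx
      obtain ⟨y', hy', rfl⟩ := hy
      rcases hc.2.1.total hx' hy' with h | h
      · exact Or.inl ((hι _ _).2 h)
      · exact Or.inr ((hι _ _).2 h)
    · intro U hU
      obtain ⟨V, hV, rfl⟩ := mem_image.1 hU
      exact (hQ _).2 (hc.2.2 V hV)
  · intro c _ c' _ h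
    exact image_injective hinj h
  · intro c hc
    rw [mem_chains] at hc
    have himg : (c.preimage ι hinj.injOn).image ι = c := by
      rw [image_preimage]
      refine filter_true_of_mem fun U hU => ?_
      obtain ⟨a, ha⟩ := hr U (hc.2.2 U hU)
      exact ⟨a, ha⟩
    refine ⟨c.preimage ι hinj.injOn, ?_, himg⟩
    rw [mem_chains]
    refine ⟨?_, ?_, ?_⟩
    · intro U hU
      rw [mem_preimage] at hU
      exact (hP U).1 (hc.1 hU)
    · intro x hx y hy hxy
      rw [mem_coe, mem_preimage] at hx hy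
      rcases hc.2.1.total hx hy with h | h
      · exact Or.inl ((hι _ _).1 h)
      · exact Or.inr ((hι _ _).1 h)
    · intro U hU
      rw [mem_preimage] at hU
      exact (hQ U).1 (hc.2.2 _ hU)
  · intro c _
    rw [card_image_of_injective _ hinj]

theorem Fc_equiv (P : Finset L) (e : L ≃o L) (hP : ∀ U, e U ∈ P ↔ U ∈ P) (Q : L) :
    Fc P (e Q) = Fc P Q :=
  Fc_embed P P e (fun _ _ => e.le_iff_le) Q (e Q) (fun _ => e.le_iff_le)
    (fun b _ => ⟨e.symm b, e.apply_symm_apply b⟩) hP

/-- orbit sums -/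
theorem orbit_dvd {S Y : Type*} [Group S] [Finite S] [MulAction S Y] (D : Finset Y)
    (hD : ∀ (g : S) (y : Y), y ∈ D → g • y ∈ D) (f : Y → ℤ) (hf : ∀ (g : S) (y : Y), f (g • y) = f y)
    (k : ℤ) (hk : ∀ y ∈ D, k ∣ ((MulAction.orbit S y).ncard : ℤ) * f y) : k ∣ ∑ y ∈ D, f y := by
  rw [← sum_fiberwise_of_maps_to (t := D.image (fun y => MulAction.orbit S y))
    (g := fun y => MulAction.orbit S y) (fun y hy => mem_image_of_mem _ hy)]
  refine dvd_sum fun o ho => ?_
  obtain ⟨y0, hy0, rfl⟩ := mem_image.1 ho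
  have h1 : ∀ y ∈ D.filter (fun y => MulAction.orbit S y = MulAction.orbit S y0), f y = f y0 := by
    intro y hy
    rw [mem_filter] at hy
    have : y ∈ MulAction.orbit S y0 := hy.2 ▸ MulAction.mem_orbit_self y
    obtain ⟨g, rfl⟩ := this
    exact hf g y0
  rw [sum_congr rfl h1, sum_const, nsmul_eq_mul]
  have h2 : (D.filter (fun y => MulAction.orbit S y = MulAction.orbit S y0)).card =
      (MulAction.orbit S y0).ncard := by
    rw [← Set.ncard_coe_finset]
    congr 1
    ext y
    rw [mem_coe, mem_filter]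
    constructor
    · rintro ⟨_, h⟩
      exact h ▸ MulAction.mem_orbit_self y
    · intro h
      refine ⟨?_, MulAction.orbit_eq_iff.2 h⟩
      obtain ⟨g, rfl⟩ := h
      exact hD g y0 hy0
  rw [h2]
  exact hk y0 hy0

end Pool.Agent.X195.AC
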