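import Pool.Agent.X195.AC1

/-!
The weights in a finite `p`-group.
-/
open Finset

set_option linter.unusedSectionVars false
set_option linter.unusedVariables false
set_option linter.style.haveILetI false

namespace Pool.Agent.X195.AC

open scoped Classical commutatorElement

/-- the product formula -/
theorem card_sup {G : Type*} [Group G] [Finite G] (H N : Subgroup G)
    (h : H ≤ Subgroup.normalizer (N : Set G)) :
    Nat.card (H ⊔ N : Subgroup G) * Nat.card (H ⊓ N : Subgroup G) = Nat.card H * Nat.card N := by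
  letI := Subgroup.normal_subgroupOf_of_le_normalizer h
  letI := Subgroup.normal_subgroupOf_sup_of_le_normalizer h
  have e := Nat.card_congr (QuotientGroup.quotientInfEquivProdNormalizerQuotient H N h).toEquiv
  have h1 := Subgroup.card_eq_card_quotient_mul_card_subgroup (N.subgroupOf H)
  have h2 := Subgroup.card_eq_card_quotient_mul_card_subgroup (N.subgroupOf (H ⊔ N))
  have h3 : Nat.card (N.subgroupOf H) = Nat.card (H ⊓ N : Subgroup G) := by
    rw [← Subgroup.inf_subgroupOf_left]
    exact Nat.card_congr (Subgroup.subgroupOfEquivOfLe inf_le_left).toEquiv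
  have h4 : Nat.card (N.subgroupOf (H ⊔ N)) = Nat.card N :=
    Nat.card_congr (Subgroup.subgroupOfEquivOfLe le_sup_right).toEquiv
  rw [h2, h1, h3, h4, e]
  ring

/-- elementary abelian quotient -/
def Good (p : ℕ) {Q : Type*} [Group Q] (U : Subgroup Q) : Prop :=
  ∀ x : Q, x ^ p ∈ U ∧ ∀ y : Q, ⁅x, y⁆ ∈ U

theorem Good.mono {p : ℕ} {Q : Type*} [Group Q] {U V : Subgroup Q} (h : Good p U) (hUV : U ≤ V) :
    Good p V := fun x => ⟨hUV (h x).1, fun y => hUV ((h x).2 y)⟩

theorem Good.inf {p : ℕ} {Q : Type*} [Group Q] {U V : Subgroup Q} (h : Good p U) (h' : Good p V) :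
    Good p (U ⊓ V) := fun x => ⟨⟨(h x).1, (h' x).1⟩, fun y => ⟨(h x).2 y, (h' x).2 y⟩⟩

theorem Good.normal {p : ℕ} {Q : Type*} [Group Q] {U : Subgroup Q} (h : Good p U) : U.Normal := by
  refine ⟨fun n hn g => ?_⟩
  have h1 : ⁅g, n⁆ ∈ U := (h g).2 n
  have h2 : g * n * g⁻¹ = ⁅g, n⁆ * n := by
    rw [commutatorElement_def]
    group
  rw [h2]
  exact U.mul_mem h1 hn

section pgroup

variable {p : ℕ} [hp : Fact p.Prime] {Q : Type*} [Group Q] [Finite Q]

theorem index_p {q : ℕ} (hq : Nat.card Q = p ^ q) {M : Subgroup Q}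
    (hM : Nat.card Q = p * Nat.card M) : M.index = p := by
  have h1 := M.card_mul_index
  have h2 : 0 < Nat.card M := Nat.card_pos
  rw [hM, mul_comm p] at h1
  exact Nat.eq_of_mul_eq_mul_left h2 h1

theorem good_of_index {q : ℕ} (hq : Nat.card Q = p ^ q) {M : Subgroup Q}
    (hM : Nat.card Q = p * Nat.card M) : Good p M := by
  have hidx := index_p hq hM
  have hq0 : q ≠ 0 := by
    rintro rfl
    rw [pow_zero] at hq
    rw [hq] at hM
    exact hp.out.one_lt.ne' (Nat.eq_one_of_mul_eq_one_right hM.symm)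
  have hN : M.Normal := by
    apply Subgroup.normal_of_index_eq_minFac_card
    rw [hidx, hq, Nat.Prime.pow_minFac hp.out hq0]
  have hcard : Nat.card (Q ⧸ M) = p := hidx
  haveI : IsCyclic (Q ⧸ M) := isCyclic_of_prime_card hcard
  intro x
  refine ⟨?_, fun y => ?_⟩
  · have := Subgroup.pow_index_mem M x
    rwa [hidx] at this
  · rw [← QuotientGroup.eq_one_iff (N := M)]
    letI : CommGroup (Q ⧸ M) := IsCyclic.commGroup
    have h1 : ((⁅x, y⁆ : Q) : Q ⧸ M) = ⁅(x : Q ⧸ M), (y : Q ⧸ M)⁆ := rfl
    rw [h1, commutatorElement_eq_one_iff_mul_comm]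
    exact mul_comm _ _

theorem exists_maximal {q : ℕ} (hq : Nat.card Q = p ^ q) (U : Subgroup Q) (hU : U ≠ ⊤) :
    ∃ M : Subgroup Q, U ≤ M ∧ Nat.card Q = p * Nat.card M := by
  obtain ⟨u, hu, hu'⟩ := (Nat.dvd_prime_pow hp.out).1 (hq ▸ U.card_subgroup_dvd_card)
  have huq : u < q := by
    refine lt_of_le_of_ne hu ?_
    rintro rfl
    exact hU (Subgroup.eq_top_of_card_eq U (hu'.trans hq.symm))
  obtain ⟨M, hM, hUM⟩ := Sylow.exists_subgroup_card_pow_prime_le p (n := u) (m := q - 1)
    (by rw [hq]; exact pow_dvd_pow p (by omega)) U hu' (by omega)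
  refine ⟨M, hUM, ?_⟩
  rw [hM, hq, ← pow_succ']
  congr 1
  omega

theorem eq_top_of_lt {M V : Subgroup Q} (hM : Nat.card Q = p * Nat.card M) (h : M < V) :
    V = ⊤ := by
  apply Subgroup.eq_top_of_card_eq
  obtain ⟨a, ha⟩ := Subgroup.card_dvd_of_le h.le
  obtain ⟨b, hb⟩ := V.card_subgroup_dvd_card
  have hM0 : 0 < Nat.card M := Nat.card_pos
  have h1 : p = a * b := by
    have : Nat.card M * p = Nat.card M * (a * b) := by
      rw [mul_comm (Nat.card M) p, ← hM, hb, ha, mul_assoc]
    exact Nat.eq_of_mul_eq_mul_left hM0 this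
  have ha1 : a ≠ 1 := by
    rintro rfl
    rw [mul_one] at ha
    exact h.ne (Subgroup.eq_of_le_of_card_ge h.le ha.le)
  rcases (Nat.dvd_prime hp.out).1 (Dvd.intro_left a h1.symm) with h2 | h2
  · rw [h2, mul_one] at hb
    exact hb.symm
  · exfalso
    rw [h2] at h1
    have := hp.out.pos
    have : a = 1 := by
      by_contra hne
      have h0 : a ≠ 0 := by
        rintro rfl
        omega
      have : 2 ≤ a := by omega
      nlinarith
    exact ha1 this

/-- the size of a relative complement -/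
theorem card_compl {q : ℕ} (hq : Nat.card Q = p ^ q) {M U R : Subgroup Q}
    (hM : Nat.card Q = p * Nat.card M) (hR : R ⊓ M = U) (hne : R ≠ U) :
    Nat.card R = p * Nat.card U := by
  have hMn : M.Normal := (good_of_index hq hM).normal
  have h1 := card_sup R M (by rw [Subgroup.normalizer_eq_top]; exact le_top)
  have h2 : R ⊔ M = ⊤ := by
    refine eq_top_of_lt hM (lt_of_le_of_ne le_sup_right ?_)
    intro h
    have : R ≤ M := h ▸ le_sup_left
    rw [inf_eq_left.2 this] at hR
    exact hne hR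
  rw [h2, hR, Subgroup.card_top, hM] at h1
  have hM0 : 0 < Nat.card M := Nat.card_pos
  have : Nat.card M * (p * Nat.card U) = Nat.card M * Nat.card R := by
    rw [mul_comm (Nat.card M) (Nat.card R), ← h1]
    ring
  exact (Nat.eq_of_mul_eq_mul_left hM0 this).symm

theorem sup_zpowers_inf {q : ℕ} (hq : Nat.card Q = p ^ q) {M U : Subgroup Q}
    (hM : Nat.card Q = p * Nat.card M) (hU : Good p U) (hUM : U ≤ M) {x : Q} (hx : x ∉ M) :
    (Subgroup.zpowers x ⊔ U) ⊓ M = U := by
  haveI := hU.normal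
  refine le_antisymm ?_ (le_inf le_sup_right hUM)
  rintro y ⟨hy, hyM⟩
  have hy' : y ∈ ((Subgroup.zpowers x ⊔ U : Subgroup Q) : Set Q) := hy
  rw [Subgroup.mul_normal] at hy'
  obtain ⟨a, ha, u, hu, rfl⟩ := hy'
  obtain ⟨i, rfl⟩ := ha
  have h1 : x ^ i ∈ M := by
    have := M.mul_mem hyM (M.inv_mem (hUM hu))
    simpa using this
  have hxp : x ^ (p : ℤ) ∈ U := by
    rw [zpow_natCast]
    exact (hU x).1
  have h2 : (p : ℤ) ∣ i := by
    by_contra hcon
    have hco : IsCoprime (p : ℤ) i := by
      rw [Int.isCoprime_iff_gcd_eq_one]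
      rcases (Nat.coprime_or_dvd_of_prime hp.out i.natAbs) with h | h
      · exact h
      · exact absurd (Int.natCast_dvd.2 h) hcon
    obtain ⟨a, b, hab⟩ := hco
    apply hx
    have : x = (x ^ (p : ℤ)) ^ a * (x ^ i) ^ b := by
      rw [← zpow_mul, ← zpow_mul, ← zpow_add, mul_comm (p : ℤ) a, mul_comm i b, hab, zpow_one]
    rw [this]
    exact M.mul_mem (M.zpow_mem (hUM hxp) a) (M.zpow_mem h1 b)
  obtain ⟨j, rfl⟩ := h2
  refine U.mul_mem ?_ hu
  show x ^ ((p : ℤ) * j) ∈ U
  rw [zpow_mul]
  exact U.zpow_mem hxp j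

/-- the number of relative complements -/
theorem card_complements {q r : ℕ} (hq : Nat.card Q = p ^ q) {M U : Subgroup Q}
    (hM : Nat.card Q = p * Nat.card M) (hU : Good p U) (hUM : U ≤ M)
    (hr : Nat.card Q = p ^ (r + 1) * Nat.card U) (D : Finset (Subgroup Q))
    (hD : ∀ R, R ∈ D ↔ R ⊓ M = U ∧ R ≠ U) : D.card = p ^ r := by
  haveI : Fintype Q := Fintype.ofFinite Q
  set A : Finset Q := univ.filter (fun x => x ∉ M) with hA
  have hcardA : A.card + Nat.card M = Nat.card Q := by
    have h1 := Finset.card_filter_add_card_filter_not (s := (univ : Finset Q)) (fun x => x ∈ M)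
    rw [Finset.card_univ, ← Nat.card_eq_fintype_card] at h1
    have h2 : (univ.filter (fun x => x ∈ M)).card = Nat.card M := by
      rw [← Set.ncard_coe_finset]
      simp only [coe_filter, mem_univ, true_and]
      rfl
    rw [h2] at h1
    rw [← h1, add_comm]
  have hmaps : ∀ x ∈ A, Subgroup.zpowers x ⊔ U ∈ D := by
    intro x hx
    rw [hA, mem_filter] at hx
    rw [hD]
    refine ⟨sup_zpowers_inf hq hM hU hUM hx.2, ?_⟩
    intro h
    have : x ∈ U := h ▸ (le_sup_left : Subgroup.zpowers x ≤ _) (Subgroup.mem_zpowers x)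
    exact hx.2 (hUM this)
  have hfib : ∀ R ∈ D, (A.filter (fun x => Subgroup.zpowers x ⊔ U = R)).card + Nat.card U =
      p * Nat.card U := by
    intro R hR
    rw [hD] at hR
    have hcR := card_compl hq hM hR.1 hR.2
    rw [← hcR]
    have hUR : U ≤ R := hR.1 ▸ inf_le_left
    have h1 : A.filter (fun x => Subgroup.zpowers x ⊔ U = R) =
        (univ.filter (fun x => x ∈ R)).filter (fun x => x ∉ U) := by
      ext x
      simp only [hA, mem_filter, mem_univ, true_and]
      constructor
      · rintro ⟨h2, h3⟩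
        exact ⟨h3 ▸ (le_sup_left : Subgroup.zpowers x ≤ _) (Subgroup.mem_zpowers x),
          fun h => h2 (hUM h)⟩
      · rintro ⟨h2, h3⟩
        have hxM : x ∉ M := by
          intro h
          apply h3
          rw [← hR.1]
          exact ⟨h2, h⟩
        refine ⟨hxM, ?_⟩
        have hle : Subgroup.zpowers x ⊔ U ≤ R :=
          sup_le ((Subgroup.zpowers_le).2 h2) hUR
        have hm := (hD _).1 (hmaps x (by rw [hA, mem_filter]; exact ⟨mem_univ _, hxM⟩))
        have hc := card_compl hq hM hm.1 hm.2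
        exact Subgroup.eq_of_le_of_card_ge hle (by rw [hc, hcR])
    have h2 := Finset.card_filter_add_card_filter_not (s := (univ.filter (fun x => x ∈ R)))
      (fun x => x ∈ U)
    have h3 : (univ.filter (fun x => x ∈ R)).card = Nat.card R := by
      rw [← Set.ncard_coe_finset]
      simp only [coe_filter, mem_univ, true_and]
      rfl
    have h4 : ((univ.filter (fun x => x ∈ R)).filter (fun x => x ∈ U)).card = Nat.card U := by
      rw [← Set.ncard_coe_finset]
      have : (((univ.filter (fun x => x ∈ R)).filter (fun x => x ∈ U) : Finset Q) : Set Q) = U := by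
        ext x
        simp only [coe_filter, mem_filter, mem_univ, true_and, Set.mem_ofPred_eq, SetLike.mem_coe]
        exact ⟨fun h => h.2, fun h => ⟨hUR h, h⟩⟩
      rw [this]
      rfl
    rw [h1, ← h3, ← h2, h4, add_comm]
  have hsum := card_eq_sum_card_fiberwise (s := A) (t := D) (f := fun x => Subgroup.zpowers x ⊔ U)
    (fun x hx => hmaps x hx)
  have h5 : ∑ R ∈ D, ((A.filter (fun x => Subgroup.zpowers x ⊔ U = R)).card + Nat.card U) =
      D.card * (p * Nat.card U) := by
    rw [sum_congr rfl hfib, sum_const, smul_eq_mul]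
  rw [sum_add_distrib, ← hsum, sum_const, smul_eq_mul] at h5
  -- |A| + D |U| = D p |U|, |A| + |M| = p |M|, |M| = p^r |U|
  have hMU : Nat.card M = p ^ r * Nat.card U := by
    have : p * Nat.card M = p * (p ^ r * Nat.card U) := by
      rw [← hM, hr, pow_succ]
      ring
    exact Nat.eq_of_mul_eq_mul_left hp.out.pos this
  have hU0 : 0 < Nat.card U := Nat.card_pos
  obtain ⟨p', hp'⟩ : ∃ p', p = p' + 2 := ⟨p - 2, by have := hp.out.two_le; omega⟩
  have h6 : A.card + p ^ r * Nat.card U = (p' + 2) * (p ^ r * Nat.card U) := by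
    rw [← hp', ← hMU, ← hM]
    exact hcardA
  have h7 : A.card + D.card * Nat.card U = D.card * ((p' + 2) * Nat.card U) := by
    rw [← hp']
    exact h5
  have h8 : (p' + 1) * Nat.card U * D.card = (p' + 1) * Nat.card U * p ^ r := by
    nlinarith
  exact Nat.eq_of_mul_eq_mul_left (by positivity) h8

end pgroup

end Pool.Agent.X195.AC
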