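import Pool.Agent.X195.AC2

/-!
Divisibility of the alternating chain sums in a finite `p`-group.
-/
open Finset

set_option linter.unusedSectionVars false
set_option linter.unusedVariables false
set_option linter.style.haveILetI false

namespace Pool.Agent.X195.AC

open scoped Classical commutatorElement

/-- the constants `c_1 = 1`, `c_{r+1} = - p^r c_r` -/
def cc (p : ℕ) : ℕ → ℤ
  | 0 => 0
  | 1 => 1
  | (r + 2) => -(p : ℤ) ^ (r + 1) * cc p (r + 1)

theorem cc_dvd (p r : ℕ) : (p : ℤ) ^ r ∣ cc p (r + 1) := by
  cases r with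
  | zero => simp
  | succ r =>
    show (p : ℤ) ^ (r + 1) ∣ -(p : ℤ) ^ (r + 1) * cc p (r + 1)
    exact Dvd.intro (-cc p (r + 1)) (by ring)

/-- the proper subgroups -/
noncomputable def properD (Q : Type*) [Group Q] [Finite Q] : Finset (Subgroup Q) :=
  (Set.toFinite {U : Subgroup Q | U ≠ ⊤}).toFinset

theorem mem_properD {Q : Type*} [Group Q] [Finite Q] {U : Subgroup Q} :
    U ∈ properD Q ↔ U ≠ ⊤ := by
  rw [properD, Set.Finite.mem_toFinset]
  rfl

/-- the subgroups whose order is `p ^ a` with `a ∈ R` -/
noncomputable def PR (p : ℕ) (R : Finset ℕ) (G : Type*) [Group G] [Finite G] :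
    Finset (Subgroup G) :=
  (Set.toFinite {U : Subgroup G | ∃ a ∈ R, Nat.card U = p ^ a}).toFinset

theorem mem_PR {p : ℕ} {R : Finset ℕ} {G : Type*} [Group G] [Finite G] {U : Subgroup G} :
    U ∈ PR p R G ↔ ∃ a ∈ R, Nat.card U = p ^ a := by
  rw [PR, Set.Finite.mem_toFinset]
  rfl

section pgroup

variable {p : ℕ} [hp : Fact p.Prime]

theorem wt_pgroup {Q : Type*} [Group Q] [Finite Q] {q : ℕ} (hq : Nat.card Q = p ^ q)
    (U : Subgroup Q) : ∀ r, Nat.card Q = p ^ (r + 1) * Nat.card U →
      (Good p U → wt (properD Q) U = cc p (r + 1)) ∧ (¬ Good p U → wt (properD Q) U = 0) := by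
  induction U using (wellFounded_gt (α := Subgroup Q)).induction with
  | _ U ih =>
    intro r hr
    have hU0 : 0 < Nat.card U := Nat.card_pos
    have hp1 := hp.out.one_lt
    have hUtop : U ≠ ⊤ := by
      rintro rfl
      rw [Subgroup.card_top] at hr
      have h1 : 1 < p ^ (r + 1) := Nat.one_lt_pow (by omega) hp1
      have h2 : 0 < Nat.card Q := Nat.card_pos
      nlinarith
    obtain ⟨M, hUM, hM⟩ := exists_maximal hq U hUtop
    cases r with
    | zero =>
      rw [zero_add, pow_one] at hr
      have hgood := good_of_index hq hr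
      refine ⟨fun _ => ?_, fun h => absurd hgood h⟩
      rw [wt_eq]
      have : (properD Q).filter (U < ·) = ∅ := by
        refine filter_eq_empty_iff.2 fun R hR h => ?_
        exact (mem_properD.1 hR) (eq_top_of_lt hr h)
      rw [this]
      simp [cc]
    | succ r =>
      have hUM' : U < M := by
        refine lt_of_le_of_ne hUM ?_
        rintro rfl
        rw [hM] at hr
        have h2 : p = p ^ (r + 1 + 1) := Nat.eq_of_mul_eq_mul_right hU0 hr
        have h3 : p ^ 1 < p ^ (r + 1 + 1) := Nat.pow_lt_pow_right hp1 (by omega)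
        rw [pow_one] at h3
        omega
      have hMtop : M ≠ ⊤ := by
        rintro rfl
        rw [Subgroup.card_top] at hM
        have h2 : 0 < Nat.card Q := Nat.card_pos
        nlinarith
      have hw := wt_weisner (properD Q)
        (fun U V hV hUV => mem_properD.2 fun h => mem_properD.1 hV (top_le_iff.1 (h ▸ hUV)))
        M (mem_properD.2 hMtop) U hUM'
      have hcR : ∀ R ∈ (properD Q).filter (fun R => R ⊓ M = U ∧ R ≠ U),
          U < R ∧ Nat.card Q = p ^ (r + 1) * Nat.card R := by
        intro R hR
        rw [mem_filter] at hR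
        refine ⟨lt_of_le_of_ne (hR.2.1 ▸ inf_le_left) (Ne.symm hR.2.2), ?_⟩
        rw [card_compl hq hM hR.2.1 hR.2.2, hr, pow_succ p (r + 1)]
        ring
      by_cases hg : Good p U
      · refine ⟨fun _ => ?_, fun h => absurd hg h⟩
        rw [hw, sum_congr rfl (fun R hR => (ih R (hcR R hR).1 r (hcR R hR).2).1
          (hg.mono (hcR R hR).1.le)), sum_const]
        have hcard := card_complements (r := r + 1) hq hM hg hUM hr
          ((properD Q).filter (fun R => R ⊓ M = U ∧ R ≠ U)) (by
            intro R
            rw [mem_filter, mem_properD]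
            refine ⟨fun h => h.2, fun h => ⟨?_, h⟩⟩
            rintro rfl
            rw [top_inf_eq] at h
            exact hUM'.ne' h.1)
        rw [hcard, nsmul_eq_mul]
        show -(((p ^ (r + 1) : ℕ) : ℤ) * cc p (r + 1)) = -(p : ℤ) ^ (r + 1) * cc p (r + 1)
        push_cast
        ring
      · refine ⟨fun h => absurd h hg, fun _ => ?_⟩
        rw [hw, sum_congr rfl (fun R hR => (ih R (hcR R hR).1 r (hcR R hR).2).2 ?_), sum_const_zero,
          neg_zero]
        intro h
        apply hg
        rw [← (mem_filter.1 hR).2.1]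
        exact h.inf (good_of_index hq hM)

theorem wt_pgroup_dvd {Q : Type*} [Group Q] [Finite Q] {q : ℕ} (hq : Nat.card Q = p ^ q)
    (U : Subgroup Q) (r : ℕ) (hr : Nat.card Q = p ^ (r + 1) * Nat.card U) :
    (p : ℤ) ^ r ∣ wt (properD Q) U := by
  obtain ⟨h1, h2⟩ := wt_pgroup hq U r hr
  by_cases hg : Good p U
  · rw [h1 hg]
    exact cc_dvd p r
  · rw [h2 hg]
    exact dvd_zero _

/-- transport to the subgroup `H` as a group -/
theorem Fc_subgroup (R : Finset ℕ) {G : Type*} [Group G] [Finite G] (H : Subgroup G) :
    Fc (PR p R G) H = Fc (PR p R H) ⊤ := by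
  refine Fc_embed (PR p R H) (PR p R G) (fun U => U.map H.subtype) ?_ ⊤ H ?_ ?_ ?_
  · intro a b
    exact Subgroup.map_le_map_iff_of_injective H.subtype_injective
  · intro a
    refine ⟨fun _ => le_top, fun _ => ?_⟩
    exact Subgroup.map_subtype_le a
  · intro b hb
    refine ⟨b.subgroupOf H, ?_⟩
    rw [Subgroup.subgroupOf_map_subtype, inf_eq_left]
    exact hb
  · intro a
    rw [mem_PR, mem_PR]
    have : Nat.card (a.map H.subtype) = Nat.card a :=
      Nat.card_congr (a.equivMapOfInjective H.subtype H.subtype_injective).symm.toEquiv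
    rw [this]

theorem Fc_pgroup (R : Finset ℕ) (q : ℕ) : ∀ (Q : Type*) [Group Q] [Finite Q],
    Nat.card Q = p ^ q → (p : ℤ) ^ (R.filter (· ≤ q)).card ∣ Fc (PR p R Q) ⊤ := by
  induction q using Nat.strong_induction_on with
  | _ q ih =>
    intro Q _ _ hq
    by_cases hqR : q ∈ R
    · have h1 : Fc (PR p R Q) ⊤ = 0 := Fc_cone (mem_PR.2 ⟨q, hqR, by rw [Subgroup.card_top]; exact hq⟩)
      rw [h1]
      exact dvd_zero _
    · rcases Nat.eq_zero_or_pos q with hq0 | hq0
      · have : R.filter (· ≤ q) = ∅ := by
          refine filter_eq_empty_iff.2 fun a ha h => ?_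
          have : a = q := by omega
          exact hqR (this ▸ ha)
        rw [this]
        simp
      · have hp1 := hp.out.one_lt
        have hbt : (⊥ : Subgroup Q) ≠ ⊤ := by
          intro h
          have h2 : Nat.card (⊥ : Subgroup Q) = Nat.card (⊤ : Subgroup Q) := by rw [h]
          rw [Subgroup.card_bot, Subgroup.card_top, hq] at h2
          exact absurd h2.symm (Nat.one_lt_pow hq0.ne' hp1).ne'
        rw [Fc_expand (D := properD Q) (mem_properD.2 hbt) ?_ (fun U _ => le_top)]
        · refine dvd_sum fun H hH => ?_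
          rw [mem_properD] at hH
          obtain ⟨h, hh, hcard⟩ := (Nat.dvd_prime_pow hp.out).1 (hq ▸ H.card_subgroup_dvd_card)
          have hhq : h < q := by
            refine lt_of_le_of_ne hh ?_
            rintro rfl
            exact hH (Subgroup.eq_top_of_card_eq H (hcard.trans hq.symm))
          have h1 : (p : ℤ) ^ (q - h - 1) ∣ wt (properD Q) H := by
            refine wt_pgroup_dvd hq H (q - h - 1) ?_
            rw [hcard, hq, ← pow_add]
            congr 1
            omega
          have h2 := ih h hhq H hcard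
          rw [← Fc_subgroup] at h2
          have h3 : (R.filter (· ≤ q)).card ≤ (q - h - 1) + (R.filter (· ≤ h)).card := by
            have h4 : R.filter (· ≤ q) ⊆ Finset.Ioo h q ∪ R.filter (· ≤ h) := by
              intro a ha
              rw [mem_filter] at ha
              rw [mem_union, mem_Ioo, mem_filter]
              by_cases hah : a ≤ h
              · exact Or.inr ⟨ha.1, hah⟩
              · refine Or.inl ⟨by omega, lt_of_le_of_ne ha.2 ?_⟩
                rintro rfl
                exact hqR ha.1
            refine (card_le_card h4).trans ((card_union_le _ _).trans ?_)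
            rw [Nat.card_Ioo]
          calc (p : ℤ) ^ (R.filter (· ≤ q)).card ∣ (p : ℤ) ^ ((q - h - 1) + (R.filter (· ≤ h)).card) :=
                pow_dvd_pow _ h3
            _ ∣ wt (properD Q) H * Fc (PR p R Q) H := by
                rw [pow_add]
                exact mul_dvd_mul h1 h2
        · intro U hU _
          rw [mem_properD]
          rintro rfl
          obtain ⟨a, ha, ha2⟩ := mem_PR.1 hU
          rw [Subgroup.card_top, hq] at ha2
          have : q = a := Nat.pow_right_injective hp.out.two_le ha2
          exact hqR (this ▸ ha)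

end pgroup

end Pool.Agent.X195.AC
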