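import Pool.Agent.X195.AC3

/-!
The weights on all `p`-subgroups of a finite group (Brown's theorem, localised), and the main
divisibility statement.
-/
open Finset

set_option linter.unusedSectionVars false
set_option linter.unusedVariables false
set_option linter.style.haveILetI false

namespace Pool.Agent.X195.AC

open scoped Classical Pointwise

/-- the `p`-subgroups -/
noncomputable def pD (p : ℕ) (G : Type*) [Group G] [Finite G] : Finset (Subgroup G) :=
  (Set.toFinite {U : Subgroup G | IsPGroup p U}).toFinset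

theorem mem_pD {p : ℕ} {G : Type*} [Group G] [Finite G] {U : Subgroup G} :
    U ∈ pD p G ↔ IsPGroup p U := by
  rw [pD, Set.Finite.mem_toFinset]
  rfl

variable {p : ℕ} [hp : Fact p.Prime] {G : Type*} [Group G] [Finite G]

/-- conjugation by `g` on subgroups, as an order automorphism -/
def cj (g : G) : Subgroup G ≃o Subgroup G := (MulAut.conj g).mapSubgroup

theorem card_cj (g : G) (U : Subgroup G) : Nat.card (cj g U) = Nat.card U :=
  Nat.card_congr (U.equivMapOfInjective (MulAut.conj g).toMonoidHom
    (MulAut.conj g).injective).symm.toEquiv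

theorem isPGroup_iff_cj (g : G) (U : Subgroup G) : IsPGroup p (cj g U) ↔ IsPGroup p U := by
  rw [IsPGroup.iff_card, IsPGroup.iff_card, card_cj]

theorem cj_mul (g h : G) (U : Subgroup G) : cj (g * h) U = cj g (cj h U) := by
  ext x
  simp only [cj, MulEquiv.mapSubgroup_apply, Subgroup.mem_map]
  constructor
  · rintro ⟨u, hu, rfl⟩
    exact ⟨MulAut.conj h u, ⟨u, hu, rfl⟩, by simp [mul_assoc]⟩
  · rintro ⟨_, ⟨u, hu, rfl⟩, rfl⟩
    exact ⟨u, hu, by simp [mul_assoc]⟩

theorem cj_one (U : Subgroup G) : cj 1 U = U := by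
  ext x
  simp [cj]

/-- the conjugation action of a subgroup `S` on the subgroups of `G` -/
@[reducible] def cact (S : Subgroup G) : MulAction S (Subgroup G) where
  smul s U := cj (s : G) U
  one_smul U := cj_one U
  mul_smul s t U := cj_mul (s : G) t U

theorem mem_cj {g x : G} {U : Subgroup G} : x ∈ cj g U ↔ ∃ u ∈ U, g * u * g⁻¹ = x := by
  simp only [cj, MulEquiv.mapSubgroup_apply, Subgroup.mem_map]
  rfl

theorem cj_eq_iff (g : G) (U : Subgroup G) : cj g U = U ↔ g ∈ Subgroup.normalizer (U : Set G) := by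
  rw [Subgroup.mem_normalizer_iff]
  constructor
  · intro h x
    constructor
    · intro hx
      rw [← h]
      exact mem_cj.2 ⟨x, hx, rfl⟩
    · intro hx
      rw [← h] at hx
      obtain ⟨u, hu, hux⟩ := mem_cj.1 hx
      have : u = x := by
        have h2 := congrArg (fun y => g⁻¹ * y * g) hux
        simpa [mul_assoc] using h2
      exact this ▸ hu
  · intro h
    ext x
    rw [mem_cj]
    constructor
    · rintro ⟨u, hu, rfl⟩
      exact (h u).1 hu
    · intro hx
      refine ⟨g⁻¹ * x * g, ?_, by simp [mul_assoc]⟩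
      rw [h]
      have : g * (g⁻¹ * x * g) * g⁻¹ = x := by simp [mul_assoc]
      rw [this]
      exact hx

theorem cj_inf (g : G) (U V : Subgroup G) : cj g (U ⊓ V) = cj g U ⊓ cj g V :=
  (cj g).map_inf U V

theorem orbit_card (S R : Subgroup G) :
    letI := cact S
    (MulAction.orbit S R).ncard * Nat.card (S ⊓ Subgroup.normalizer (R : Set G) : Subgroup G) = Nat.card S := by
  letI := cact S
  have h1 := MulAction.index_stabilizer S R
  have h2 := (MulAction.stabilizer S R).card_mul_index
  rw [h1] at h2
  have h3 : Nat.card (MulAction.stabilizer S R) =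
      Nat.card (S ⊓ Subgroup.normalizer (R : Set G) : Subgroup G) := by
    have h4 : MulAction.stabilizer S R = (Subgroup.normalizer (R : Set G)).subgroupOf S := by
      ext s
      rw [MulAction.mem_stabilizer_iff, Subgroup.mem_subgroupOf]
      exact cj_eq_iff (s : G) R
    rw [h4, ← Subgroup.inf_subgroupOf_left]
    exact Nat.card_congr (Subgroup.subgroupOfEquivOfLe inf_le_left).toEquiv
  rw [← h2, h3, mul_comm]

theorem pD_down (U V : Subgroup G) (hV : V ∈ pD p G) (hUV : U ≤ V) : U ∈ pD p G :=
  mem_pD.2 ((mem_pD.1 hV).to_le hUV)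

theorem wt_cj (g : G) (U : Subgroup G) : wt (pD p G) (cj g U) = wt (pD p G) U :=
  wt_equiv (pD p G) (cj g) (fun U => by rw [mem_pD, mem_pD]; exact isPGroup_iff_cj g U) U

/-- the localised form of Brown's theorem -/
theorem brown (Q : Subgroup G) : ∀ T : Subgroup G, IsPGroup p T → Q ≤ T →
    T ≤ Subgroup.normalizer (Q : Set G) → (Nat.card T : ℤ) ∣ Nat.card Q * wt (pD p G) Q := by
  induction Q using (wellFounded_gt (α := Subgroup G)).induction with
  | _ Q ih =>
    intro T hT hQT hTN
    rcases hQT.eq_or_lt with rfl | hlt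
    · exact Dvd.intro _ rfl
    · rw [wt_weisner (pD p G) pD_down T (mem_pD.2 hT) Q hlt, mul_neg, dvd_neg, mul_sum]
      letI := cact T
      refine orbit_dvd (S := T) _ ?_ (fun R => (Nat.card Q : ℤ) * wt (pD p G) R) ?_ _ ?_
      · intro t R hR
        rw [mem_filter] at hR ⊢
        have hTt : cj (t : G) T = T := (cj_eq_iff _ _).2 (Subgroup.le_normalizer t.2)
        have hQt : cj (t : G) Q = Q := (cj_eq_iff _ _).2 (hTN t.2)
        refine ⟨mem_pD.2 ((isPGroup_iff_cj (t : G) R).2 (mem_pD.1 hR.1)), ?_, ?_⟩
        · show cj (t : G) R ⊓ T = Q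
          calc cj (t : G) R ⊓ T = cj (t : G) R ⊓ cj (t : G) T := by rw [hTt]
            _ = Q := by rw [← cj_inf, hR.2.1, hQt]
        · intro h
          apply hR.2.2
          have h' : cj (t : G) R = cj (t : G) Q := by
            rw [hQt]
            exact h
          exact (cj (t : G)).injective h'
      · intro t R
        show (Nat.card Q : ℤ) * wt (pD p G) (cj (t : G) R) = _
        rw [wt_cj]
      · intro R hR
        rw [mem_filter] at hR
        have hQR : Q ≤ R := hR.2.1 ▸ inf_le_left
        have hQR' : Q < R := lt_of_le_of_ne hQR (Ne.symm hR.2.2)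
        have hRp : IsPGroup p R := mem_pD.1 hR.1
        set NT : Subgroup G := T ⊓ Subgroup.normalizer (R : Set G) with hNT
        have hNTp : IsPGroup p NT := hT.to_le inf_le_left
        have h1 := ih R hQR' (NT ⊔ R) (hNTp.to_sup_of_normal_right' hRp inf_le_right) le_sup_right
          (sup_le inf_le_right Subgroup.le_normalizer)
        have h2 := card_sup NT R inf_le_right
        have h3 : NT ⊓ R = Q := by
          rw [← hR.2.1]
          refine le_antisymm ?_ ?_
          · exact le_inf inf_le_right (inf_le_left.trans inf_le_left)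
          · exact le_inf (le_inf inf_le_right (inf_le_left.trans Subgroup.le_normalizer)) inf_le_left
        rw [h3] at h2
        have h4 : (Nat.card NT : ℤ) ∣ Nat.card Q * wt (pD p G) R := by
          obtain ⟨c, hc⟩ := h1
          refine ⟨c, ?_⟩
          have h5 : ((Nat.card R : ℕ) : ℤ) ≠ 0 := by
            exact_mod_cast (Nat.card_pos (α := R)).ne'
          have h2' : ((Nat.card (NT ⊔ R : Subgroup G) : ℕ) : ℤ) * (Nat.card Q : ℕ) =
              (Nat.card NT : ℕ) * (Nat.card R : ℕ) := by exact_mod_cast h2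
          apply mul_left_cancel₀ h5
          linear_combination (Nat.card Q : ℤ) * hc + c * h2'
        have h6 := orbit_card T R
        have h7 : ((MulAction.orbit T R).ncard : ℤ) * (Nat.card NT : ℕ) = (Nat.card T : ℕ) := by
          exact_mod_cast h6
        rw [← h7]
        exact mul_dvd_mul_left _ h4

/-- the main divisibility statement -/
theorem Fc_dvd (R : Finset ℕ) (t : ℕ) (ht : p ^ t ∣ Nat.card G) (hR : ∀ a ∈ R, a ≤ t) :
    (p : ℤ) ^ R.card ∣ Fc (PR p R G) ⊤ := by
  obtain ⟨S, hS⟩ := Sylow.exists_subgroup_card_pow_prime p ht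
  have hSp : IsPGroup p S := IsPGroup.of_card hS
  have hbot : (⊥ : Subgroup G) ∈ pD p G := mem_pD.2 IsPGroup.of_bot
  rw [Fc_expand (D := pD p G) hbot ?_ (fun U _ => le_top)]
  · letI := cact S
    refine orbit_dvd (S := S) _ ?_ (fun Q => wt (pD p G) Q * Fc (PR p R G) Q) ?_ _ ?_
    · intro s U hU
      exact mem_pD.2 ((isPGroup_iff_cj (s : G) U).2 (mem_pD.1 hU))
    · intro s U
      show wt (pD p G) (cj (s : G) U) * Fc (PR p R G) (cj (s : G) U) = _
      rw [wt_cj, Fc_equiv (PR p R G) (cj (s : G)) (fun V => by rw [mem_PR, mem_PR, card_cj]) U]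
    · intro Q hQ
      have hQp : IsPGroup p Q := mem_pD.1 hQ
      obtain ⟨q, hq⟩ := (IsPGroup.iff_card).1 hQp
      set NS : Subgroup G := S ⊓ Subgroup.normalizer (Q : Set G) with hNS
      have hNSp : IsPGroup p NS := hSp.to_le inf_le_left
      have h1 := brown (p := p) Q (NS ⊔ Q) (hNSp.to_sup_of_normal_right' hQp inf_le_right) le_sup_right
        (sup_le inf_le_right Subgroup.le_normalizer)
      have h2 := card_sup NS Q inf_le_right
      have h6 := orbit_card S Q
      -- |NS| divides |NS ⊓ Q| * wt Q
      have h4 : (Nat.card NS : ℤ) ∣ Nat.card (NS ⊓ Q : Subgroup G) * wt (pD p G) Q := by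
        obtain ⟨c, hc⟩ := h1
        refine ⟨c, ?_⟩
        have h5 : ((Nat.card Q : ℕ) : ℤ) ≠ 0 := by
          exact_mod_cast (Nat.card_pos (α := Q)).ne'
        have h2' : ((Nat.card (NS ⊔ Q : Subgroup G) : ℕ) : ℤ) * (Nat.card (NS ⊓ Q : Subgroup G) : ℕ) =
            (Nat.card NS : ℕ) * (Nat.card Q : ℕ) := by exact_mod_cast h2
        apply mul_left_cancel₀ h5
        linear_combination (Nat.card (NS ⊓ Q : Subgroup G) : ℤ) * hc + c * h2'
      have h7 : ((MulAction.orbit S Q).ncard : ℤ) * (Nat.card NS : ℕ) = (Nat.card S : ℕ) := by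
        exact_mod_cast h6
      have h8 : (p : ℤ) ^ t ∣ (p : ℤ) ^ q * (((MulAction.orbit S Q).ncard : ℤ) * wt (pD p G) Q) := by
        have h9 : ((Nat.card S : ℕ) : ℤ) = (p : ℤ) ^ t := by rw [hS]; push_cast; rfl
        have h10 : ((Nat.card Q : ℕ) : ℤ) = (p : ℤ) ^ q := by rw [hq]; push_cast; rfl
        rw [← h9, ← h10, ← h7]
        have h11 : ((Nat.card (NS ⊓ Q : Subgroup G) : ℕ) : ℤ) ∣ (Nat.card Q : ℕ) := by
          exact_mod_cast Subgroup.card_dvd_of_le (inf_le_right : NS ⊓ Q ≤ Q)
        obtain ⟨e, he⟩ := h11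
        rw [he]
        have h12 := mul_dvd_mul_left ((MulAction.orbit S Q).ncard : ℤ) h4
        refine h12.trans (Dvd.intro e ?_)
        ring
      have h13 := Fc_pgroup (p := p) R q Q hq
      rw [← Fc_subgroup] at h13
      by_cases hqt : q ≤ t
      · have h14 : (p : ℤ) ^ (t - q) ∣ ((MulAction.orbit S Q).ncard : ℤ) * wt (pD p G) Q := by
          have h15 : (p : ℤ) ^ t = (p : ℤ) ^ q * (p : ℤ) ^ (t - q) := by
            rw [← pow_add]
            congr 1
            omega
          rw [h15] at h8
          have h16 : (p : ℤ) ^ q ≠ 0 := pow_ne_zero _ (by exact_mod_cast hp.out.ne_zero)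
          exact (mul_dvd_mul_iff_left h16).1 h8
        have h17 : R.card ≤ (t - q) + (R.filter (· ≤ q)).card := by
          have h18 : R ⊆ Finset.Ioc q t ∪ R.filter (· ≤ q) := by
            intro a ha
            rw [mem_union, mem_Ioc, mem_filter]
            by_cases haq : a ≤ q
            · exact Or.inr ⟨ha, haq⟩
            · exact Or.inl ⟨by omega, hR a ha⟩
          refine (card_le_card h18).trans ((card_union_le _ _).trans ?_)
          rw [Nat.card_Ioc]
        refine (pow_dvd_pow (p : ℤ) h17).trans ?_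
        rw [pow_add, ← mul_assoc]
        exact mul_dvd_mul h14 h13
      · have h19 : R.filter (· ≤ q) = R := by
          refine filter_true_of_mem fun a ha => ?_
          have := hR a ha
          omega
        rw [h19] at h13
        exact (h13.mul_left _).mul_left _
  · intro U hU _
    obtain ⟨a, _, ha⟩ := mem_PR.1 hU
    exact mem_pD.2 (IsPGroup.of_card ha)

end Pool.Agent.X195.AC
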