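import Mathlib

set_option autoImplicit false

namespace Pool.Agent.X195.Braid

variable {A : Type*}

/-- the braid move with first position `p` is available -/
def Av (adj : A → A → Prop) (p : ℤ) (X : ℤ → A) : Prop := X p = X (p + 2) ∧ adj (X p) (X (p + 1))

/-- perform the braid move -/
def mv (p : ℤ) (X : ℤ → A) : ℤ → A := fun i =>
  if i = p ∨ i = p + 2 then X (p + 1) else if i = p + 1 then X p else X i

/-- symmetric, irreflexive, triangle-free -/
structure Nice (adj : A → A → Prop) : Prop where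
  symm : ∀ {a b}, adj a b → adj b a
  irrefl : ∀ {a}, ¬ adj a a
  tri : ∀ {a b c}, adj a b → adj b c → ¬ adj a c

/-- `β 0, …, β n` is a walk -/
def IsWalk (adj : A → A → Prop) (n : ℕ) (β : ℕ → ℤ → A) : Prop :=
  ∀ i < n, ∃ q, Av adj q (β i) ∧ β (i + 1) = mv q (β i)

/-- a braid class without repeated letters -/
structure IsClass (adj : A → A → Prop) (C : Set (ℤ → A)) : Prop where
  closed : ∀ X ∈ C, ∀ p, Av adj p X → mv p X ∈ C
  nr : ∀ X ∈ C, ∀ i b, adj (X i) b → X i ≠ X (i + 1)
  conn : ∀ X ∈ C, ∀ Y ∈ C, ∃ n β, β 0 = X ∧ β n = Y ∧ IsWalk adj n β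

/-- first positions of the shadows -/
def SS (adj : A → A → Prop) (C : Set (ℤ → A)) : Set ℤ := {p | ∃ X ∈ C, Av adj p X}

variable {adj : A → A → Prop} {C : Set (ℤ → A)}

lemma mv_left (p : ℤ) (X : ℤ → A) : mv p X p = X (p + 1) := by simp [mv]

lemma mv_mid (p : ℤ) (X : ℤ → A) : mv p X (p + 1) = X p := by simp [mv]

lemma mv_right (p : ℤ) (X : ℤ → A) : mv p X (p + 2) = X (p + 1) := by simp [mv]

lemma mv_ne (p : ℤ) (X : ℤ → A) {i : ℤ} (h0 : i ≠ p) (h1 : i ≠ p + 1) (h2 : i ≠ p + 2) :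
    mv p X i = X i := by simp [mv, h0, h1, h2]

lemma mv_far (p : ℤ) (X : ℤ → A) {i : ℤ} (h : i < p ∨ p + 2 < i) : mv p X i = X i :=
  mv_ne p X (by omega) (by omega) (by omega)

lemma av_mv (hA : Nice adj) {p : ℤ} {X : ℤ → A} (h : Av adj p X) : Av adj p (mv p X) := by
  refine ⟨by rw [mv_left, mv_right], ?_⟩
  rw [mv_left, mv_mid]
  exact hA.symm h.2

lemma mv_mv {p : ℤ} {X : ℤ → A} (h : Av adj p X) : mv p (mv p X) = X := by
  funext i
  by_cases h0 : i = p
  · subst h0; rw [mv_left, mv_mid]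
  by_cases h1 : i = p + 1
  · subst h1; rw [mv_mid, mv_left]
  by_cases h2 : i = p + 2
  · subst h2; rw [mv_right, mv_mid, h.1]
  rw [mv_ne p _ h0 h1 h2, mv_ne p _ h0 h1 h2]

lemma IsWalk.mem (hC : IsClass adj C) {n : ℕ} {β : ℕ → ℤ → A} (h : IsWalk adj n β)
    (h0 : β 0 ∈ C) : ∀ i ≤ n, β i ∈ C := by
  intro i
  induction i with
  | zero => intro _; exact h0
  | succ i ih =>
    intro hi
    obtain ⟨q, hq, h2⟩ := h i (by omega)
    rw [h2]
    exact hC.closed _ (ih (by omega)) _ hq

lemma IsWalk.shift {n : ℕ} {β : ℕ → ℤ → A} (h : IsWalk adj n β) (k : ℕ) :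
    IsWalk adj (n - k) (fun i => β (k + i)) := fun i hi => h (k + i) (by omega)

lemma IsWalk.take {n : ℕ} {β : ℕ → ℤ → A} (h : IsWalk adj n β) {k : ℕ} (hk : k ≤ n) :
    IsWalk adj k β := fun i hi => h i (by omega)

lemma IsWalk.rev (hA : Nice adj) {n : ℕ} {β : ℕ → ℤ → A} (h : IsWalk adj n β) :
    IsWalk adj n (fun i => β (n - i)) := by
  intro i hi
  obtain ⟨q, hq, h2⟩ := h (n - (i + 1)) (by omega)
  have e : n - (i + 1) + 1 = n - i := by omega
  rw [e] at h2
  refine ⟨q, ?_, ?_⟩
  · show Av adj q (β (n - i))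
    rw [h2]; exact av_mv hA hq
  · show β (n - (i + 1)) = mv q (β (n - i))
    rw [h2, mv_mv hq]

/-- gluing along a cut which is not crossed by the moves -/
lemma glue (hC : IsClass adj C) {n : ℕ} {β : ℕ → ℤ → A} (h : IsWalk adj n β) (h0 : β 0 ∈ C)
    (m : ℤ) (hcut : ∀ i < n, ∀ q, Av adj q (β i) → q + 2 ≤ m ∨ m < q ∨ β (i + 1) ≠ mv q (β i)) :
    ∀ j ≤ n, (fun i => if i ≤ m then β 0 i else β j i) ∈ C := by
  intro j
  induction j with
  | zero =>
    intro _
    have : (fun i => if i ≤ m then β 0 i else β 0 i) = β 0 := by funext i; simp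
    rw [this]; exact h0
  | succ j ih =>
    intro hj
    have ih' := ih (by omega)
    obtain ⟨q, hq, h2⟩ := h j (by omega)
    rcases hcut j (by omega) q hq with h3 | h3 | h3
    · convert ih' using 1
      funext i
      by_cases hi : i ≤ m
      · simp [hi]
      · simp only [hi, if_false]
        rw [h2, mv_far q _ (by omega)]
    · have hav : Av adj q (fun i => if i ≤ m then β 0 i else β j i) := by
        obtain ⟨h4, h5⟩ := hq
        refine ⟨?_, ?_⟩
        · simp only [show ¬ q ≤ m by omega, show ¬ q + 2 ≤ m by omega, if_false]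
          exact h4
        · simp only [show ¬ q ≤ m by omega, show ¬ q + 1 ≤ m by omega, if_false]
          exact h5
      have h6 := hC.closed _ ih' q hav
      convert h6 using 1
      funext i
      by_cases hi : i ≤ m
      · rw [mv_far q _ (by omega)]
        simp [hi]
      · simp only [hi, if_false]
        rw [h2]
        by_cases e0 : i = q
        · subst e0; rw [mv_left, mv_left]
          simp only [show ¬ i + 1 ≤ m by omega, if_false]
        by_cases e1 : i = q + 1
        · subst e1; rw [mv_mid, mv_mid]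
          simp only [show ¬ q ≤ m by omega, if_false]
        by_cases e2 : i = q + 2
        · subst e2; rw [mv_right, mv_right]
          simp only [show ¬ q + 1 ≤ m by omega, if_false]
        rw [mv_ne q _ e0 e1 e2, mv_ne q _ e0 e1 e2]
        simp [hi]
    · exact absurd h2 h3

/-- a position which is not touched by the moves of the walk is constant -/
lemma const_pos {n : ℕ} {β : ℕ → ℤ → A} (h : IsWalk adj n β) (i : ℤ)
    (hcut : ∀ k < n, ∀ q, Av adj q (β k) → β (k + 1) = mv q (β k) → i < q ∨ q + 2 < i) :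
    ∀ j ≤ n, β j i = β 0 i := by
  intro j
  induction j with
  | zero => intro _; rfl
  | succ j ih =>
    intro hj
    obtain ⟨q, hq, h2⟩ := h j (by omega)
    rw [h2, mv_far q _ (hcut j (by omega) q hq h2), ih (by omega)]

/-- Overlap in two positions does not occur. -/
lemma no_adjacent_aux (hA : Nice adj) (hC : IsClass adj C) : ∀ n : ℕ, ∀ (p : ℤ) (β : ℕ → ℤ → A),
    IsWalk adj n β → β 0 ∈ C → Av adj p (β 0) → Av adj (p + 1) (β n) → False := by
  intro n
  induction n using Nat.strong_induction_on with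
  | _ n ih =>
  intro p β hw h0 hp hp1
  have hmem := hw.mem hC h0
  have key : ∀ i < n, ∀ q, Av adj q (β i) → β (i + 1) = mv q (β i) → q ≤ p - 2 ∨ p + 3 ≤ q := by
    intro i hi q hq h2
    by_contra hcon
    push Not at hcon
    have hq' : Av adj q (β (i + 1)) := by rw [h2]; exact av_mv hA hq
    obtain h | h | h | h : q = p ∨ q = p + 1 ∨ q = p - 1 ∨ q = p + 2 := by omega
    · subst h
      refine ih (n - (i + 1)) (by omega) q (fun j => β (i + 1 + j)) (hw.shift (i + 1))
        (hmem _ (by omega)) hq' ?_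
      show Av adj (q + 1) (β (i + 1 + (n - (i + 1))))
      rw [show i + 1 + (n - (i + 1)) = n by omega]; exact hp1
    · subst h
      exact ih i hi p β (hw.take hi.le) h0 hp hq
    · have hr := (hw.take hi.le).rev hA
      refine ih i hi q (fun j => β (i - j)) hr (hmem _ (by omega)) hq ?_
      show Av adj (q + 1) (β (i - i))
      rw [Nat.sub_self, h, sub_add_cancel]; exact hp
    · have hr := (hw.shift (i + 1)).rev hA
      refine ih (n - (i + 1)) (by omega) (p + 1) (fun j => β (i + 1 + (n - (i + 1) - j))) hr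
        (hmem _ (by omega)) ?_ ?_
      · show Av adj (p + 1) (β (i + 1 + (n - (i + 1) - 0)))
        rw [show i + 1 + (n - (i + 1) - 0) = n by omega]; exact hp1
      · show Av adj (p + 1 + 1) (β (i + 1 + (n - (i + 1) - (n - (i + 1)))))
        rw [show i + 1 + (n - (i + 1) - (n - (i + 1))) = i + 1 by omega,
          show p + 1 + 1 = q by omega]
        exact hq'
  have hg := glue hC hw h0 (p + 2) (fun i hi q hq => by
    by_cases h2 : β (i + 1) = mv q (β i)
    · rcases key i hi q hq h2 with h | h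
      · left; omega
      · right; left; omega
    · right; right; exact h2) n le_rfl
  have c1 : β n (p + 1) = β 0 (p + 1) := const_pos hw (p + 1) (fun i hi q hq h2 => by
    rcases key i hi q hq h2 with h | h <;> omega) n le_rfl
  set Z : ℤ → A := fun i => if i ≤ p + 2 then β 0 i else β n i with hZ
  have z0 : Z p = β 0 p := by simp [hZ]
  have z1 : Z (p + 1) = β 0 (p + 1) := by simp [hZ]
  have z2 : Z (p + 2) = β 0 (p + 2) := by simp [hZ]
  have z3 : Z (p + 3) = β n (p + 3) := by simp [hZ]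
  have hav : Av adj p Z := ⟨by rw [z0, z2]; exact hp.1, by rw [z0, z1]; exact hp.2⟩
  have hm := hC.closed Z hg p hav
  have e2 : mv p Z (p + 2) = β 0 (p + 1) := by rw [mv_right, z1]
  have e3 : mv p Z (p + 2 + 1) = β 0 (p + 1) := by
    rw [show p + 2 + 1 = p + 3 by ring, mv_far p Z (by omega), z3]
    have := hp1.1
    rw [show p + 1 + 2 = p + 3 by ring] at this
    rw [← this, c1]
  refine hC.nr _ hm (p + 2) (β 0 p) ?_ (by rw [e2, e3])
  rw [e2]; exact hA.symm hp.2

lemma no_adjacent (hA : Nice adj) (hC : IsClass adj C) {p : ℤ} (h0 : p ∈ SS adj C)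
    (h1 : p + 1 ∈ SS adj C) : False := by
  obtain ⟨X, hX, hpX⟩ := h0
  obtain ⟨Y, hY, hpY⟩ := h1
  obtain ⟨n, β, rfl, rfl, hw⟩ := hC.conn X hX Y hY
  exact no_adjacent_aux hA hC n p β hw hX hpX hpY

lemma ind (hC : IsClass adj C) {P : (ℤ → A) → Prop} {X : ℤ → A} (hX : X ∈ C) (hP : P X)
    (hstep : ∀ Y ∈ C, ∀ q, Av adj q Y → P Y → P (mv q Y)) : ∀ Y ∈ C, P Y := by
  intro Y hY
  obtain ⟨n, β, rfl, rfl, hw⟩ := hC.conn X hX Y hY
  have : ∀ j ≤ n, P (β j) := by
    intro j
    induction j with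
    | zero => intro _; exact hP
    | succ j ih =>
      intro hj
      obtain ⟨q, hq, h2⟩ := hw j (by omega)
      rw [h2]
      exact hstep _ (hw.mem hC hX j (by omega)) q hq (ih (by omega))
  exact this n le_rfl

/-- two overlapping shadows are available at the same time somewhere -/
lemma both_aux (hA : Nice adj) (hC : IsClass adj C) (p : ℤ) (hp : p ∈ SS adj C)
    (hp2 : p + 2 ∈ SS adj C) : ∀ n : ℕ, ∀ (β : ℕ → ℤ → A),
    IsWalk adj n β → β 0 ∈ C → Av adj p (β 0) → Av adj (p + 2) (β n) →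
    ∃ Z ∈ C, Av adj p Z ∧ Av adj (p + 2) Z := by
  intro n
  induction n using Nat.strong_induction_on with
  | _ n ih =>
  intro β hw h0 hav0 hav2
  have hmem := hw.mem hC h0
  by_cases hex : ∃ i < n, ∃ q, Av adj q (β i) ∧ β (i + 1) = mv q (β i) ∧ (q = p ∨ q = p + 2)
  · obtain ⟨i, hi, q, hq, h2, h3⟩ := hex
    have hq' : Av adj q (β (i + 1)) := by rw [h2]; exact av_mv hA hq
    rcases h3 with rfl | rfl
    · refine ih (n - (i + 1)) (by omega) (fun j => β (i + 1 + j)) (hw.shift (i + 1))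
        (hmem _ (by omega)) hq' ?_
      show Av adj (q + 2) (β (i + 1 + (n - (i + 1))))
      rw [show i + 1 + (n - (i + 1)) = n by omega]; exact hav2
    · exact ih i hi β (hw.take hi.le) h0 hav0 hq
  · push Not at hex
    have key : ∀ i < n, ∀ q, Av adj q (β i) → β (i + 1) = mv q (β i) →
        q ≤ p - 2 ∨ p + 4 ≤ q := by
      intro i hi q hq h2
      by_contra hcon
      push Not at hcon
      obtain ⟨h3, h4⟩ := hex i hi q hq h2
      have hqS : q ∈ SS adj C := ⟨β i, hmem i hi.le, hq⟩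
      obtain h | h | h : q = p - 1 ∨ q = p + 1 ∨ q = p + 3 := by omega
      · subst h
        exact no_adjacent hA hC hqS (by rw [sub_add_cancel]; exact hp)
      · subst h
        exact no_adjacent hA hC hp hqS
      · subst h
        exact no_adjacent hA hC hp2 (by rw [show p + 2 + 1 = p + 3 by ring]; exact hqS)
    have hg := glue hC hw h0 (p + 2) (fun i hi q hq => by
      by_cases h2 : β (i + 1) = mv q (β i)
      · rcases key i hi q hq h2 with h | h
        · left; omega
        · right; left; omega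
      · right; right; exact h2) n le_rfl
    have c2 : β n (p + 2) = β 0 (p + 2) := const_pos hw (p + 2) (fun i hi q hq h2 => by
      rcases key i hi q hq h2 with h | h <;> omega) n le_rfl
    refine ⟨_, hg, ⟨?_, ?_⟩, ⟨?_, ?_⟩⟩
    · simpa using hav0.1
    · simpa using hav0.2
    · simp only [le_refl, if_true, show ¬ p + 2 + 2 ≤ p + 2 by omega, if_false]
      rw [← c2]; exact hav2.1
    · simp only [le_refl, if_true, show ¬ p + 2 + 1 ≤ p + 2 by omega, if_false]
      rw [← c2]; exact hav2.2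

/-- the three states around an overlap -/
lemma states (hA : Nice adj) (hC : IsClass adj C) {p : ℤ} (hp : p ∈ SS adj C)
    (hp2 : p + 2 ∈ SS adj C) : ∃ a b d, adj a b ∧ adj b d ∧ a ≠ d ∧
      (∃ Z ∈ C, Z (p + 1) = a ∧ Z (p + 2) = b ∧ Z (p + 3) = d ∧ Av adj p Z ∧ Av adj (p + 2) Z) ∧
      ∀ X ∈ C, (X (p + 1) = a ∧ X (p + 2) = b ∧ X (p + 3) = d) ∨
        (X (p + 1) = b ∧ X (p + 2) = a ∧ X (p + 3) = d) ∨
        (X (p + 1) = a ∧ X (p + 2) = d ∧ X (p + 3) = b) := by
  obtain ⟨Z, hZ, hZ0, hZ2⟩ : ∃ Z ∈ C, Av adj p Z ∧ Av adj (p + 2) Z := by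
    obtain ⟨X, hX, hpX⟩ := hp
    obtain ⟨Y, hY, hpY⟩ := hp2
    obtain ⟨n, β, rfl, rfl, hw⟩ := hC.conn X hX Y hY
    exact both_aux hA hC p ⟨_, hX, hpX⟩ ⟨_, hY, hpY⟩ n β hw hX hpX hpY
  have e23 : p + 2 + 1 = p + 3 := by ring
  have e24 : p + 2 + 2 = p + 4 := by ring
  have hab : adj (Z (p + 1)) (Z (p + 2)) := by
    rw [← hZ0.1]; exact hA.symm hZ0.2
  have hbd : adj (Z (p + 2)) (Z (p + 3)) := by
    have := hZ2.2; rwa [e23] at this
  have had : Z (p + 1) ≠ Z (p + 3) := by
    intro h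
    refine hC.nr _ (hC.closed Z hZ p hZ0) (p + 2) (Z (p + 2)) ?_ ?_
    · rw [mv_right]; exact hab
    · rw [mv_right, e23, mv_far p Z (by omega), h]
  refine ⟨Z (p + 1), Z (p + 2), Z (p + 3), hab, hbd, had, ⟨Z, hZ, rfl, rfl, rfl, hZ0, hZ2⟩, ?_⟩
  refine ind hC hZ (Or.inl ⟨rfl, rfl, rfl⟩) ?_
  intro X hX q hq hs
  have hqS : q ∈ SS adj C := ⟨X, hX, hq⟩
  have n1 : q ≠ p - 1 := by
    rintro rfl
    exact no_adjacent hA hC hqS (by rw [sub_add_cancel]; exact hp)
  have n2 : q ≠ p + 1 := by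
    rintro rfl
    exact no_adjacent hA hC hp hqS
  have n3 : q ≠ p + 3 := by
    rintro rfl
    exact no_adjacent hA hC hp2 (by rw [e23]; exact hqS)
  by_cases h0 : q = p
  · subst h0
    have m3 : mv q X (q + 3) = X (q + 3) := mv_far q X (by omega)
    rw [mv_mid, mv_right, m3]
    rcases hs with ⟨s1, s2, s3⟩ | ⟨s1, s2, s3⟩ | ⟨s1, s2, s3⟩
    · right; left
      exact ⟨by rw [hq.1, s2], s1, s3⟩
    · left
      exact ⟨by rw [hq.1, s2], s1, s3⟩
    · exfalso
      have := hq.2
      rw [hq.1, s2, s1] at this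
      exact hA.tri hab hbd (hA.symm this)
  by_cases h2 : q = p + 2
  · subst h2
    have m1 : mv (p + 2) X (p + 1) = X (p + 1) := mv_far _ X (by omega)
    have m2 : mv (p + 2) X (p + 2) = X (p + 3) := by rw [mv_left, e23]
    have m3 : mv (p + 2) X (p + 3) = X (p + 2) := by rw [← e23, mv_mid]
    rw [m1, m2, m3]
    rcases hs with ⟨s1, s2, s3⟩ | ⟨s1, s2, s3⟩ | ⟨s1, s2, s3⟩
    · right; right
      exact ⟨s1, s3, s2⟩
    · exfalso
      have := hq.2
      rw [e23, s2, s3] at this
      exact hA.tri hab hbd this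
    · left
      exact ⟨s1, s3, s2⟩
  rw [mv_far q X (by omega), mv_far q X (by omega), mv_far q X (by omega)]
  exact hs

end Pool.Agent.X195.Braid
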