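import Pool.Agent.X195.Braid1

set_option autoImplicit false

namespace Pool.Agent.X195.Braid

variable {A : Type*} {adj : A → A → Prop} {C : Set (ℤ → A)}

/-- letters occurring at the central position -/
def ep (C : Set (ℤ → A)) (p : ℤ) : Set A := {x | ∃ X ∈ C, X (p + 1) = x}

lemma mem_ep {X : ℤ → A} (hX : X ∈ C) (p : ℤ) : X (p + 1) ∈ ep C p := ⟨X, hX, rfl⟩

lemma left_mem_ep (hC : IsClass adj C) {X : ℤ → A} (hX : X ∈ C) {p : ℤ} (h : Av adj p X) :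
    X p ∈ ep C p := ⟨mv p X, hC.closed X hX p h, mv_mid p X⟩

lemma right_mem_ep (hC : IsClass adj C) {X : ℤ → A} (hX : X ∈ C) {p : ℤ} (h : Av adj p X) :
    X (p + 2) ∈ ep C p := by rw [← h.1]; exact left_mem_ep hC hX h

lemma right_ok (hA : Nice adj) (hC : IsClass adj C) {p : ℤ} (hp : p ∈ SS adj C) {X : ℤ → A}
    (hX : X ∈ C) (h : p + 2 ∈ SS adj C → X (p + 3) ∉ ep C p) : X (p + 2) ∈ ep C p := by
  by_cases h2 : p + 2 ∈ SS adj C
  · obtain ⟨a, b, d, hab, hbd, had, ⟨Z, hZ, z1, z2, z3, hZ0, hZ2⟩, hst⟩ := states hA hC hp h2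
    have ha : a ∈ ep C p := z1 ▸ mem_ep hZ p
    have hb : b ∈ ep C p := z2 ▸ right_mem_ep hC hZ hZ0
    rcases hst X hX with ⟨s1, s2, s3⟩ | ⟨s1, s2, s3⟩ | ⟨s1, s2, s3⟩
    · rw [s2]; exact hb
    · rw [s2]; exact ha
    · exact absurd (s3 ▸ hb) (h h2)
  · obtain ⟨X0, hX0, hav⟩ := id hp
    refine ind hC (P := fun Y => Y (p + 2) ∈ ep C p) hX0 (right_mem_ep hC hX0 hav) ?_ X hX
    intro Y hY q hq hP
    have hqS : q ∈ SS adj C := ⟨Y, hY, hq⟩
    by_cases h0 : q = p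
    · subst h0; show mv q Y (q + 2) ∈ _; rw [mv_right]; exact mem_ep hY q
    have n1 : q ≠ p + 1 := by rintro rfl; exact no_adjacent hA hC hp hqS
    have n2 : q ≠ p + 2 := by rintro rfl; exact h2 hqS
    show mv q Y (p + 2) ∈ _
    rw [mv_far q Y (by omega)]; exact hP

lemma left_ok (hA : Nice adj) (hC : IsClass adj C) {p : ℤ} (hp : p ∈ SS adj C) {X : ℤ → A}
    (hX : X ∈ C) (h : p - 2 ∈ SS adj C → X (p - 1) ∉ ep C p) : X p ∈ ep C p := by
  by_cases h2 : p - 2 ∈ SS adj C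
  · obtain ⟨a, b, d, hab, hbd, had, ⟨Z, hZ, z1, z2, z3, hZ0, hZ2⟩, hst⟩ :=
      states hA hC h2 (by rw [sub_add_cancel]; exact hp)
    simp only [show p - 2 + 1 = p - 1 by ring, sub_add_cancel, show p - 2 + 3 = p + 1 by ring]
      at z1 z2 z3 hZ2 hst
    have hd : d ∈ ep C p := z3 ▸ mem_ep hZ p
    have hb : b ∈ ep C p := z2 ▸ left_mem_ep hC hZ hZ2
    rcases hst X hX with ⟨s1, s2, s3⟩ | ⟨s1, s2, s3⟩ | ⟨s1, s2, s3⟩
    · rw [s2]; exact hb
    · exact absurd (s1 ▸ hb) (h h2)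
    · rw [s2]; exact hd
  · obtain ⟨X0, hX0, hav⟩ := id hp
    refine ind hC (P := fun Y => Y p ∈ ep C p) hX0 (left_mem_ep hC hX0 hav) ?_ X hX
    intro Y hY q hq hP
    have hqS : q ∈ SS adj C := ⟨Y, hY, hq⟩
    by_cases h0 : q = p
    · subst h0; show mv q Y q ∈ _; rw [mv_left]; exact mem_ep hY q
    have n1 : q ≠ p - 1 := by
      rintro rfl; exact no_adjacent hA hC hqS (by rw [sub_add_cancel]; exact hp)
    have n2 : q ≠ p - 2 := by rintro rfl; exact h2 hqS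
    show mv q Y p ∈ _
    rw [mv_far q Y (by omega)]; exact hP

lemma ep_pair (hA : Nice adj) (hC : IsClass adj C) {p : ℤ} (hp : p ∈ SS adj C) :
    ∃ a b, adj a b ∧ ep C p = {a, b} := by
  by_cases h2 : p + 2 ∈ SS adj C
  · obtain ⟨a, b, d, hab, hbd, had, ⟨Z, hZ, z1, z2, z3, hZ0, hZ2⟩, hst⟩ := states hA hC hp h2
    refine ⟨a, b, hab, Set.Subset.antisymm ?_ ?_⟩
    · rintro x ⟨X, hX, rfl⟩
      rcases hst X hX with ⟨s1, s2, s3⟩ | ⟨s1, s2, s3⟩ | ⟨s1, s2, s3⟩ <;> rw [s1] <;> simp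
    · rintro x (rfl | rfl)
      · exact z1 ▸ mem_ep hZ p
      · exact z2 ▸ right_mem_ep hC hZ hZ0
  by_cases h3 : p - 2 ∈ SS adj C
  · obtain ⟨a, b, d, hab, hbd, had, ⟨Z, hZ, z1, z2, z3, hZ0, hZ2⟩, hst⟩ :=
      states hA hC h3 (by rw [sub_add_cancel]; exact hp)
    simp only [show p - 2 + 1 = p - 1 by ring, sub_add_cancel, show p - 2 + 3 = p + 1 by ring]
      at z1 z2 z3 hZ2 hst
    refine ⟨b, d, hbd, Set.Subset.antisymm ?_ ?_⟩
    · rintro x ⟨X, hX, rfl⟩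
      rcases hst X hX with ⟨s1, s2, s3⟩ | ⟨s1, s2, s3⟩ | ⟨s1, s2, s3⟩ <;> rw [s3] <;> simp
    · rintro x (rfl | rfl)
      · exact z2 ▸ left_mem_ep hC hZ hZ2
      · exact z3 ▸ mem_ep hZ p
  obtain ⟨X0, hX0, hav⟩ := id hp
  refine ⟨X0 p, X0 (p + 1), hav.2, Set.Subset.antisymm ?_ ?_⟩
  · have : ∀ Y ∈ C, (Y p = X0 p ∧ Y (p + 1) = X0 (p + 1) ∧ Y (p + 2) = X0 p) ∨
        (Y p = X0 (p + 1) ∧ Y (p + 1) = X0 p ∧ Y (p + 2) = X0 (p + 1)) := by
      refine ind hC hX0 (Or.inl ⟨rfl, rfl, hav.1.symm⟩) ?_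
      intro Y hY q hq hP
      have hqS : q ∈ SS adj C := ⟨Y, hY, hq⟩
      by_cases h0 : q = p
      · subst h0
        rw [mv_left, mv_mid, mv_right]
        rcases hP with ⟨s1, s2, s3⟩ | ⟨s1, s2, s3⟩
        · right; exact ⟨s2, s1, s2⟩
        · left; exact ⟨s2, s1, s2⟩
      have n1 : q ≠ p - 1 := by
        rintro rfl; exact no_adjacent hA hC hqS (by rw [sub_add_cancel]; exact hp)
      have n2 : q ≠ p - 2 := by rintro rfl; exact h3 hqS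
      have n3 : q ≠ p + 1 := by rintro rfl; exact no_adjacent hA hC hp hqS
      have n4 : q ≠ p + 2 := by rintro rfl; exact h2 hqS
      rw [mv_far q Y (by omega), mv_far q Y (by omega), mv_far q Y (by omega)]
      exact hP
    rintro x ⟨X, hX, rfl⟩
    rcases this X hX with ⟨s1, s2, s3⟩ | ⟨s1, s2, s3⟩ <;> rw [s2] <;> simp
  · rintro x (rfl | rfl)
    · exact left_mem_ep hC hX0 hav
    · exact mem_ep hX0 p

/-- elements of a pair -/
lemma ep_eq (hA : Nice adj) (hC : IsClass adj C) {p : ℤ} (hp : p ∈ SS adj C) {x y z : A}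
    (hx : x ∈ ep C p) (hy : y ∈ ep C p) (hz : z ∈ ep C p) (hxz : x ≠ z) (hyz : y ≠ z) :
    x = y := by
  obtain ⟨a, b, hab, he⟩ := ep_pair hA hC hp
  rw [he] at hx hy hz
  rcases hx with rfl | rfl <;> rcases hy with rfl | rfl <;> rcases hz with rfl | rfl <;>
    first | rfl | exact absurd rfl hxz | exact absurd rfl hyz

lemma ep_adj (hA : Nice adj) (hC : IsClass adj C) {p : ℤ} (hp : p ∈ SS adj C) {x : A}
    (hx : x ∈ ep C p) : ∃ y ∈ ep C p, adj x y ∧ x ≠ y := by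
  obtain ⟨a, b, hab, he⟩ := ep_pair hA hC hp
  have hne : a ≠ b := by rintro rfl; exact hA.irrefl hab
  rw [he] at hx ⊢
  rcases hx with rfl | rfl
  · exact ⟨b, by simp, hab, hne⟩
  · exact ⟨a, by simp, hA.symm hab, hne.symm⟩

lemma sep (hA : Nice adj) (hC : IsClass adj C) {p : ℤ} (hp : p ∈ SS adj C)
    (hp2 : p + 2 ∈ SS adj C) {X : ℤ → A} (hX : X ∈ C) : X (p + 1) ≠ X (p + 3) := by
  obtain ⟨a, b, d, hab, hbd, had, -, hst⟩ := states hA hC hp hp2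
  have hne : a ≠ b := by rintro rfl; exact hA.irrefl hab
  have hne2 : b ≠ d := by rintro rfl; exact hA.irrefl hbd
  rcases hst X hX with ⟨s1, s2, s3⟩ | ⟨s1, s2, s3⟩ | ⟨s1, s2, s3⟩ <;> rw [s1, s3]
  · exact had
  · exact hne2
  · exact hne

lemma ep_overlap (hA : Nice adj) (hC : IsClass adj C) {p : ℤ} (hp : p ∈ SS adj C)
    (hp2 : p + 2 ∈ SS adj C) : ∃ a b d, a ≠ b ∧ b ≠ d ∧ a ≠ d ∧ ep C p = {a, b} ∧
      ep C (p + 2) = {b, d} := by
  obtain ⟨a, b, d, hab, hbd, had, ⟨Z, hZ, z1, z2, z3, hZ0, hZ2⟩, hst⟩ := states hA hC hp hp2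
  have hne : a ≠ b := by rintro rfl; exact hA.irrefl hab
  have hne2 : b ≠ d := by rintro rfl; exact hA.irrefl hbd
  refine ⟨a, b, d, hne, hne2, had, Set.Subset.antisymm ?_ ?_, Set.Subset.antisymm ?_ ?_⟩
  · rintro x ⟨X, hX, rfl⟩
    rcases hst X hX with ⟨s1, s2, s3⟩ | ⟨s1, s2, s3⟩ | ⟨s1, s2, s3⟩ <;> rw [s1] <;> simp
  · rintro x (rfl | rfl)
    · exact z1 ▸ mem_ep hZ p
    · exact z2 ▸ right_mem_ep hC hZ hZ0
  · rintro x ⟨X, hX, rfl⟩
    rw [show p + 2 + 1 = p + 3 by ring]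
    rcases hst X hX with ⟨s1, s2, s3⟩ | ⟨s1, s2, s3⟩ | ⟨s1, s2, s3⟩ <;> rw [s3] <;> simp
  · rintro x (rfl | rfl)
    · exact z2 ▸ left_mem_ep hC hZ hZ2
    · have := mem_ep hZ (p + 2)
      rw [show p + 2 + 1 = p + 3 by ring, z3] at this
      exact this

lemma not_both (hA : Nice adj) (hC : IsClass adj C) {p : ℤ} (hp : p ∈ SS adj C)
    (hp2 : p + 2 ∈ SS adj C) {X : ℤ → A} (hX : X ∈ C) (h1 : X (p + 3) ∈ ep C p)
    (h2 : X (p + 1) ∈ ep C (p + 2)) : False := by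
  obtain ⟨a, b, d, hab, hbd, had, e1, e2⟩ := ep_overlap hA hC hp hp2
  have h3 := sep hA hC hp hp2 hX
  have h4 := mem_ep hX p
  have h5 := mem_ep hX (p + 2)
  rw [show p + 2 + 1 = p + 3 by ring] at h5
  rw [e1] at h1 h4
  rw [e2] at h2 h5
  rcases h1 with h1 | h1 <;> rcases h5 with h5 | h5
  · exact hab (h1.symm.trans h5)
  · exact had (h1.symm.trans h5)
  · rcases h4 with h4 | h4 <;> rcases h2 with h2 | h2
    · exact hab (h4.symm.trans h2)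
    · exact had (h4.symm.trans h2)
    · exact h3 (h4.trans h1.symm)
    · exact hbd (h4.symm.trans h2)
  · exact hbd (h1.symm.trans h5)

lemma av_of (hA : Nice adj) (hC : IsClass adj C) {p : ℤ} (hp : p ∈ SS adj C) {X : ℤ → A}
    (hX : X ∈ C) (hr : p + 2 ∈ SS adj C → X (p + 3) ∉ ep C p)
    (hl : p - 2 ∈ SS adj C → X (p - 1) ∉ ep C p) : Av adj p X := by
  have h0 := left_ok hA hC hp hX hl
  have h1 := mem_ep hX p
  have h2 := right_ok hA hC hp hX hr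
  obtain ⟨y, hy, hy1, hy2⟩ := ep_adj hA hC hp h0
  obtain ⟨z, hz, hz1, hz2⟩ := ep_adj hA hC hp h1
  have n0 := hC.nr X hX p y hy1
  have n1 := hC.nr X hX (p + 1) z hz1
  rw [show p + 1 + 1 = p + 2 by ring] at n1
  have e : X p = X (p + 2) := ep_eq hA hC hp h0 h2 h1 n0 n1.symm
  refine ⟨e, ?_⟩
  have : y = X (p + 1) := ep_eq hA hC hp hy h1 h0 hy2.symm n0.symm
  rw [← this]; exact hy1

/-- admissible signatures -/
structure Adm (adj : A → A → Prop) (C : Set (ℤ → A)) (τ : ℤ → A) : Prop where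
  mem : ∀ p ∈ SS adj C, τ p ∈ ep C p
  ne : ∀ p ∈ SS adj C, p + 2 ∈ SS adj C → τ p ≠ τ (p + 2)

lemma adm_of (hA : Nice adj) (hC : IsClass adj C) {X : ℤ → A} (hX : X ∈ C) :
    Adm adj C fun p => X (p + 1) where
  mem p _ := mem_ep hX p
  ne p hp hp2 := by
    have := sep hA hC hp hp2 hX
    rwa [show p + 3 = p + 2 + 1 by ring] at this

/-- the set of differences -/
def DD (adj : A → A → Prop) (C : Set (ℤ → A)) (X τ : ℤ → A) : Set ℤ :=
  {p | p ∈ SS adj C ∧ X (p + 1) ≠ τ p}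

lemma flip (hA : Nice adj) (hC : IsClass adj C) (hfin : (SS adj C).Finite) {X : ℤ → A}
    (hX : X ∈ C) {τ : ℤ → A} (hτ : Adm adj C τ) (hne : (DD adj C X τ).Nonempty) :
    ∃ p ∈ DD adj C X τ, Av adj p X := by
  by_contra hcon
  push Not at hcon
  have hDfin : (DD adj C X τ).Finite := hfin.subset fun p hp => hp.1
  have hblock : ∀ p ∈ DD adj C X τ, (p + 2 ∈ SS adj C ∧ X (p + 3) ∈ ep C p) ∨
      (p - 2 ∈ SS adj C ∧ X (p - 1) ∈ ep C p) := by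
    intro p hp
    by_contra h
    push Not at h
    exact hcon p hp (av_of hA hC hp.1 hX h.1 h.2)
  have hR : ∀ p ∈ DD adj C X τ, p + 2 ∈ SS adj C → X (p + 3) ∈ ep C p →
      p + 2 ∈ DD adj C X τ := by
    intro p hp h2 h3
    have e : τ p = X (p + 3) := ep_eq hA hC hp.1 (hτ.mem p hp.1) h3 (mem_ep hX p) hp.2.symm
      (sep hA hC hp.1 h2 hX).symm
    refine ⟨h2, ?_⟩
    rw [show p + 2 + 1 = p + 3 by ring, ← e]
    exact hτ.ne p hp.1 h2
  have hL : ∀ p ∈ DD adj C X τ, p - 2 ∈ SS adj C → X (p - 1) ∈ ep C p →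
      p - 2 ∈ DD adj C X τ ∧ X (p + 1) ∉ ep C (p - 2) := by
    intro p hp h2 h3
    have hp' : p - 2 + 2 ∈ SS adj C := by rw [sub_add_cancel]; exact hp.1
    have hs := sep hA hC h2 hp' hX
    rw [show p - 2 + 1 = p - 1 by ring, show p - 2 + 3 = p + 1 by ring] at hs
    have e : τ p = X (p - 1) := ep_eq hA hC hp.1 (hτ.mem p hp.1) h3 (mem_ep hX p) hp.2.symm hs
    refine ⟨⟨h2, ?_⟩, ?_⟩
    · rw [show p - 2 + 1 = p - 1 by ring, ← e]
      have := hτ.ne (p - 2) h2 hp'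
      rw [sub_add_cancel] at this
      exact this.symm
    · intro h4
      refine not_both hA hC h2 hp' hX ?_ ?_
      · rw [show p - 2 + 3 = p + 1 by ring]; exact h4
      · rw [show p - 2 + 1 = p - 1 by ring, sub_add_cancel]; exact h3
  obtain ⟨p0, hp0, hmax⟩ := hDfin.exists_maximal hne
  have hp0' := fun q (hq : q ∈ DD adj C X τ) (h : p0 ≤ q) => hmax hq h
  have h0 : p0 - 2 ∈ SS adj C ∧ X (p0 - 1) ∈ ep C p0 := by
    rcases hblock p0 hp0 with h | h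
    · have := hp0' (p0 + 2) (hR p0 hp0 h.1 h.2) (by omega)
      omega
    · exact h
  set DL : Set ℤ := {p | p ∈ DD adj C X τ ∧ p - 2 ∈ SS adj C ∧ X (p - 1) ∈ ep C p} with hDL
  have hDLfin : DL.Finite := hDfin.subset fun p hp => hp.1
  obtain ⟨p1, hp1, hmin⟩ := hDLfin.exists_minimal ⟨p0, hp0, h0⟩
  obtain ⟨h1, h2⟩ := hL p1 hp1.1 hp1.2.1 hp1.2.2
  have h3 : p1 - 2 ∈ DL := by
    refine ⟨h1, ?_⟩
    rcases hblock (p1 - 2) h1 with h | h
    · exact absurd (by rw [show p1 - 2 + 3 = p1 + 1 by ring] at h; exact h.2) h2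
    · exact h
  have := hmin h3 (by omega)
  omega

end Pool.Agent.X195.Braid
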