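import Pool.Agent.X195.Braid2

set_option autoImplicit false

namespace Pool.Agent.X195.Braid

variable {A : Type*} {adj : A → A → Prop} {C : Set (ℤ → A)}

lemma IsWalk.cons {n : ℕ} {β : ℕ → ℤ → A} (h : IsWalk adj n β) {X : ℤ → A} {q : ℤ}
    (hq : Av adj q X) (h0 : β 0 = mv q X) :
    IsWalk adj (n + 1) (fun i => if i = 0 then X else β (i - 1)) := by
  intro i hi
  rcases i with _ | i
  · exact ⟨q, by simpa using hq, by simpa using h0⟩
  · obtain ⟨q', h1, h2⟩ := h i (by omega)
    exact ⟨q', by simpa using h1, by simpa using h2⟩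

lemma centre_const (hA : Nice adj) (hC : IsClass adj C) {p q : ℤ} (hp : p ∈ SS adj C)
    (hne : p ≠ q) {X : ℤ → A} (hX : X ∈ C) (hq : Av adj q X) : mv q X (p + 1) = X (p + 1) := by
  have hqS : q ∈ SS adj C := ⟨X, hX, hq⟩
  have n1 : q ≠ p + 1 := by rintro rfl; exact no_adjacent hA hC hp hqS
  have n2 : p ≠ q + 1 := by rintro rfl; exact no_adjacent hA hC hqS hp
  exact mv_ne q X (by omega) (by omega) (by omega)

/-- every admissible signature is reached by a walk of the right length -/
lemma walk_to (hA : Nice adj) (hC : IsClass adj C) (hfin : (SS adj C).Finite) {τ : ℤ → A}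
    (hτ : Adm adj C τ) : ∀ n : ℕ, ∀ X ∈ C, (DD adj C X τ).ncard = n →
    ∃ β, IsWalk adj n β ∧ β 0 = X ∧ ∀ p ∈ SS adj C, β n (p + 1) = τ p := by
  intro n
  induction n with
  | zero =>
    intro X hX hn
    have hDfin : (DD adj C X τ).Finite := hfin.subset fun p hp => hp.1
    rw [Set.ncard_eq_zero hDfin] at hn
    refine ⟨fun _ => X, fun i hi => absurd hi (Nat.not_lt_zero i), rfl, fun p hp => ?_⟩
    by_contra h
    have : p ∈ DD adj C X τ := ⟨hp, h⟩
    rw [hn] at this
    exact this
  | succ n ih =>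
    intro X hX hn
    have hDfin : (DD adj C X τ).Finite := hfin.subset fun p hp => hp.1
    have hne : (DD adj C X τ).Nonempty := by
      rw [← Set.ncard_pos hDfin]; omega
    obtain ⟨p, hp, hav⟩ := flip hA hC hfin hX hτ hne
    have e1 : X p = τ p := ep_eq hA hC hp.1 (left_mem_ep hC hX hav) (hτ.mem p hp.1)
      (mem_ep hX p) (by
        obtain ⟨y, hy, hy1, hy2⟩ := ep_adj hA hC hp.1 (left_mem_ep hC hX hav)
        exact hC.nr X hX p y hy1) hp.2.symm
    have hD : DD adj C (mv p X) τ = DD adj C X τ \ {p} := by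
      ext q
      constructor
      · rintro ⟨hq, hne⟩
        have hqp : q ≠ p := by
          rintro rfl
          rw [mv_mid] at hne
          exact hne e1
        refine ⟨⟨hq, ?_⟩, hqp⟩
        rwa [centre_const hA hC hq hqp hX hav] at hne
      · rintro ⟨⟨hq, hne⟩, hqp⟩
        refine ⟨hq, ?_⟩
        rwa [centre_const hA hC hq hqp hX hav]
    have hcard : (DD adj C (mv p X) τ).ncard = n := by
      rw [hD, Set.ncard_sdiff_singleton_of_mem hp, hn]; rfl
    obtain ⟨β, hβ, hβ0, hβn⟩ := ih (mv p X) (hC.closed X hX p hav) hcard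
    exact ⟨_, hβ.cons hav hβ0, by simp, fun q hq => by simpa using hβn q hq⟩

/-- the signature determines the word -/
lemma eq_of_sig (hA : Nice adj) (hC : IsClass adj C) {X Y : ℤ → A} (hX : X ∈ C) (hY : Y ∈ C)
    (h : ∀ p ∈ SS adj C, X (p + 1) = Y (p + 1)) : X = Y := by
  funext i
  by_cases h1 : i - 1 ∈ SS adj C
  · have := h _ h1
    rwa [sub_add_cancel] at this
  by_cases h0 : i ∈ SS adj C
  · by_cases h2 : i - 2 ∈ SS adj C
    · obtain ⟨a, b, d, hab, hbd, had, -, hst⟩ :=
        states hA hC h2 (by rw [sub_add_cancel]; exact h0)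
      simp only [show i - 2 + 1 = i - 1 by ring, sub_add_cancel, show i - 2 + 3 = i + 1 by ring]
        at hst
      have hne : a ≠ b := by rintro rfl; exact hA.irrefl hab
      have hne2 : b ≠ d := by rintro rfl; exact hA.irrefl hbd
      have g0 := h _ h0
      have g2 := h _ h2
      rw [show i - 2 + 1 = i - 1 by ring] at g2
      rcases hst X hX with ⟨s1, s2, s3⟩ | ⟨s1, s2, s3⟩ | ⟨s1, s2, s3⟩ <;>
        rcases hst Y hY with ⟨t1, t2, t3⟩ | ⟨t1, t2, t3⟩ | ⟨t1, t2, t3⟩ <;>
        rw [s2, t2] <;> exfalso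
      · exact hne (s1.symm.trans (g2.trans t1))
      · exact hne2 (t3.symm.trans (g0.symm.trans s3))
      · exact hne (t1.symm.trans (g2.symm.trans s1))
      · exact hne (t1.symm.trans (g2.symm.trans s1))
      · exact hne2 (s3.symm.trans (g0.trans t3))
      · exact hne (s1.symm.trans (g2.trans t1))
    · have a1 := left_ok hA hC h0 hX (fun h' => absurd h' h2)
      have a2 := left_ok hA hC h0 hY (fun h' => absurd h' h2)
      obtain ⟨y, hy, hy1, hy2⟩ := ep_adj hA hC h0 a1
      obtain ⟨z, hz, hz1, hz2⟩ := ep_adj hA hC h0 a2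
      refine ep_eq hA hC h0 a1 a2 (mem_ep hX i) (hC.nr X hX i y hy1) ?_
      rw [h i h0]
      exact hC.nr Y hY i z hz1
  by_cases h2 : i - 2 ∈ SS adj C
  · have a1 := right_ok hA hC h2 hX (fun h' => absurd (by rw [sub_add_cancel] at h'; exact h') h0)
    have a2 := right_ok hA hC h2 hY (fun h' => absurd (by rw [sub_add_cancel] at h'; exact h') h0)
    have c1 := mem_ep hX (i - 2)
    have c2 := mem_ep hY (i - 2)
    obtain ⟨y, hy, hy1, hy2⟩ := ep_adj hA hC h2 c1
    obtain ⟨z, hz, hz1, hz2⟩ := ep_adj hA hC h2 c2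
    have n1 := hC.nr X hX _ y hy1
    have n2 := hC.nr Y hY _ z hz1
    have g := h _ h2
    rw [show i - 2 + 1 + 1 = i by ring] at n1 n2
    rw [sub_add_cancel] at a1 a2
    refine ep_eq hA hC h2 a1 a2 c1 n1.symm ?_
    rw [g]; exact n2.symm
  · refine (ind hC (P := fun Z => Z i = X i) hX rfl ?_ Y hY).symm
    intro Z hZ q hq hP
    have hqS : q ∈ SS adj C := ⟨Z, hZ, hq⟩
    have n0 : i ≠ q := by rintro rfl; exact h0 hqS
    have n1 : i ≠ q + 1 := by rintro rfl; exact h1 (by rwa [add_sub_cancel_right])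
    have n2 : i ≠ q + 2 := by rintro rfl; exact h2 (by rwa [add_sub_cancel_right])
    show mv q Z i = X i
    rw [mv_ne q Z n0 n1 n2]; exact hP

/-- lower bound for the length of a walk -/
lemma walk_ge (hA : Nice adj) (hC : IsClass adj C) (hfin : (SS adj C).Finite) {n : ℕ}
    {β : ℕ → ℤ → A} (hw : IsWalk adj n β) (h0 : β 0 ∈ C) :
    ∀ j ≤ n, (DD adj C (β 0) (fun p => β j (p + 1))).ncard ≤ j := by
  intro j
  induction j with
  | zero =>
    intro _
    have : DD adj C (β 0) (fun p => β 0 (p + 1)) = ∅ := by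
      ext p; simp [DD]
    rw [this, Set.ncard_empty]
  | succ j ih =>
    intro hj
    obtain ⟨q, hq, h2⟩ := hw j (by omega)
    have hβj := hw.mem hC h0 j (by omega)
    have hfin' : (insert q (DD adj C (β 0) (fun p => β j (p + 1)))).Finite :=
      (hfin.subset fun p hp => hp.1 : (DD adj C (β 0) (fun p => β j (p + 1))).Finite).insert q
    have hsub : DD adj C (β 0) (fun p => β (j + 1) (p + 1)) ⊆
        insert q (DD adj C (β 0) (fun p => β j (p + 1))) := by
      rintro p ⟨hp, hne⟩
      by_cases hpq : p = q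
      · exact Or.inl hpq
      · right
        refine ⟨hp, ?_⟩
        simp only [h2] at hne
        rwa [centre_const hA hC hp hpq hβj hq] at hne
    calc _ ≤ _ := Set.ncard_le_ncard hsub hfin'
      _ ≤ _ + 1 := Set.ncard_insert_le _ _
      _ ≤ j + 1 := Nat.add_le_add_right (ih (by omega)) 1

/-- a pair of complementary admissible signatures -/
lemma exists_tau (hA : Nice adj) (hC : IsClass adj C) (hfin : (SS adj C).Finite)
    (hCne : C.Nonempty) :
    ∃ τ : ℤ → A, Adm adj C τ ∧ ∀ p ∈ SS adj C, p + 2 ∈ SS adj C →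
      ∀ x ∈ ep C p, x ≠ τ p → ∀ y ∈ ep C (p + 2), y ≠ τ (p + 2) → x ≠ y := by
  rcases (SS adj C).eq_empty_or_nonempty with hem | hne
  · obtain ⟨X0, -⟩ := hCne
    refine ⟨fun _ => X0 0, ⟨fun p hp => ?_, fun p hp => ?_⟩, fun p hp => ?_⟩ <;>
      · rw [hem] at hp; exact absurd hp (Set.notMem_empty p)
  obtain ⟨m, hm, hmin⟩ := hfin.exists_minimal hne
  have hm' : ∀ p ∈ SS adj C, m ≤ p := fun p hp => by
    by_contra h
    exact h (hmin hp (by omega))
  obtain ⟨M, hM, hmax⟩ := hfin.exists_maximal hne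
  have hM' : ∀ p ∈ SS adj C, p ≤ M := fun p hp => by
    by_contra h
    exact h (hmax hp (by omega))
  obtain ⟨a0, -⟩ := ep_pair hA hC hm
  have key : ∀ k : ℕ, ∃ τ : ℤ → A, (∀ p ∈ SS adj C, p < m + k → τ p ∈ ep C p) ∧
      (∀ p ∈ SS adj C, p + 2 ∈ SS adj C → p + 2 < m + k → τ p ≠ τ (p + 2) ∧
      ∀ x ∈ ep C p, x ≠ τ p → ∀ y ∈ ep C (p + 2), y ≠ τ (p + 2) → x ≠ y) := by
    intro k
    induction k with
    | zero =>
      refine ⟨fun _ => a0, fun p hp h => ?_, fun p hp _ h => ?_⟩
      · have := hm' p hp; push_cast at h; omega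
      · have := hm' p hp; push_cast at h; omega
    | succ k ih =>
      obtain ⟨τ, h1, h2⟩ := ih
      by_cases hk : m + k ∈ SS adj C
      · by_cases hk2 : m + k - 2 ∈ SS adj C
        · obtain ⟨a, b, d, hab, hbd, had, e1, e2⟩ :=
            ep_overlap hA hC hk2 (by rw [sub_add_cancel]; exact hk)
          rw [sub_add_cancel] at e2
          have ht : τ (m + k - 2) ∈ ep C (m + k - 2) := h1 _ hk2 (by omega)
          obtain ⟨v, hv, hv1, hv2⟩ : ∃ v ∈ ep C (m + k), τ (m + k - 2) ≠ v ∧
              ∀ x ∈ ep C (m + k - 2), x ≠ τ (m + k - 2) → ∀ y ∈ ep C (m + k), y ≠ v → x ≠ y := by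
            rw [e1] at ht ⊢
            rw [e2]
            rcases ht with ht | ht <;> rw [ht]
            · refine ⟨b, by simp, hab, ?_⟩
              rintro x (rfl | rfl) hx y (rfl | rfl) hy
              · exact absurd rfl hx
              · exact absurd rfl hx
              · exact absurd rfl hy
              · exact hbd
            · refine ⟨d, by simp, hbd, ?_⟩
              rintro x (rfl | rfl) hx y (rfl | rfl) hy
              · exact hab
              · exact absurd rfl hy
              · exact absurd rfl hx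
              · exact absurd rfl hx
          refine ⟨Function.update τ (m + k) v, fun p hp hlt => ?_, fun p hp hp2 hlt => ?_⟩
          · by_cases hpk : p = m + k
            · subst hpk; rw [Function.update_self]; exact hv
            · rw [Function.update_of_ne hpk]; exact h1 p hp (by push_cast at hlt; omega)
          · have hpk : p ≠ m + k := by push_cast at hlt; omega
            rw [Function.update_of_ne hpk]
            by_cases hpk2 : p + 2 = m + k
            · have hp' : p = m + k - 2 := by omega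
              rw [hpk2, Function.update_self, hp']
              exact ⟨hv1, hv2⟩
            · rw [Function.update_of_ne hpk2]
              exact h2 p hp hp2 (by push_cast at hlt; omega)
        · obtain ⟨a, b, hab, e⟩ := ep_pair hA hC hk
          refine ⟨Function.update τ (m + k) a, fun p hp hlt => ?_, fun p hp hp2 hlt => ?_⟩
          · by_cases hpk : p = m + k
            · subst hpk; rw [Function.update_self, e]; simp
            · rw [Function.update_of_ne hpk]; exact h1 p hp (by push_cast at hlt; omega)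
          · have hpk : p ≠ m + k := by push_cast at hlt; omega
            have hpk2 : p + 2 ≠ m + k := by
              intro h; apply hk2; rw [← h, add_sub_cancel_right]; exact hp
            rw [Function.update_of_ne hpk, Function.update_of_ne hpk2]
            exact h2 p hp hp2 (by push_cast at hlt; omega)
      · refine ⟨τ, fun p hp hlt => ?_, fun p hp hp2 hlt => ?_⟩
        · have : p ≠ m + k := by rintro rfl; exact hk hp
          exact h1 p hp (by push_cast at hlt; omega)
        · have : p + 2 ≠ m + k := by intro h; exact hk (h ▸ hp2)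
          exact h2 p hp hp2 (by push_cast at hlt; omega)
  obtain ⟨τ, h1, h2⟩ := key (M - m + 1).toNat
  have hb : m + ((M - m + 1).toNat : ℤ) = M + 1 := by
    have := hm' M hM
    rw [Int.toNat_of_nonneg (by omega)]; ring
  rw [hb] at h1 h2
  refine ⟨τ, ⟨fun p hp => h1 p hp (by have := hM' p hp; omega), fun p hp hp2 =>
    (h2 p hp hp2 (by have := hM' _ hp2; omega)).1⟩, fun p hp hp2 =>
    (h2 p hp hp2 (by have := hM' _ hp2; omega)).2⟩

/-- There are two words which differ in all central positions. -/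
theorem exists_antipodal (hA : Nice adj) (hC : IsClass adj C) (hfin : (SS adj C).Finite)
    (hne : C.Nonempty) : ∃ X ∈ C, ∃ Y ∈ C, ∀ p ∈ SS adj C, X (p + 1) ≠ Y (p + 1) := by
  obtain ⟨τ, hτ, hτ2⟩ := exists_tau hA hC hfin hne
  obtain ⟨X0, hX0⟩ := hne
  have hother : ∀ p, ∃ x, p ∈ SS adj C → x ∈ ep C p ∧ x ≠ τ p := by
    intro p
    by_cases hp : p ∈ SS adj C
    · obtain ⟨y, hy, -, hy2⟩ := ep_adj hA hC hp (hτ.mem p hp)
      exact ⟨y, fun _ => ⟨hy, hy2.symm⟩⟩
    · exact ⟨τ p, fun h => absurd h hp⟩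
  choose σ hσ using hother
  have hσA : Adm adj C σ := ⟨fun p hp => (hσ p hp).1, fun p hp hp2 =>
    hτ2 p hp hp2 _ (hσ p hp).1 (hσ p hp).2 _ (hσ _ hp2).1 (hσ _ hp2).2⟩
  obtain ⟨β, hβ, hβ0, hβn⟩ := walk_to hA hC hfin hτ _ X0 hX0 rfl
  obtain ⟨γ, hγ, hγ0, hγn⟩ := walk_to hA hC hfin hσA _ X0 hX0 rfl
  refine ⟨_, hβ.mem hC (hβ0 ▸ hX0) _ le_rfl, _, hγ.mem hC (hγ0 ▸ hX0) _ le_rfl, fun p hp => ?_⟩
  rw [hβn p hp, hγn p hp]
  exact (hσ p hp).2.symm

/-- Any two words are joined by a walk whose length is the number of central positions in which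
they differ. -/
theorem exists_walk (hA : Nice adj) (hC : IsClass adj C) (hfin : (SS adj C).Finite)
    {X Y : ℤ → A} (hX : X ∈ C) (hY : Y ∈ C) :
    ∃ β, IsWalk adj (DD adj C X (fun p => Y (p + 1))).ncard β ∧ β 0 = X ∧
      β (DD adj C X (fun p => Y (p + 1))).ncard = Y := by
  obtain ⟨β, hβ, hβ0, hβn⟩ := walk_to hA hC hfin (adm_of hA hC hY) _ X hX rfl
  exact ⟨β, hβ, hβ0, eq_of_sig hA hC (hβ.mem hC (hβ0 ▸ hX) _ le_rfl) hY hβn⟩

end Pool.Agent.X195.Braid
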