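import Pool.Agent.X195.Braid3

set_option autoImplicit false

open Relation

namespace Pool.Agent.X195.Braid

universe u v

variable {S : Type u}

/-- The Coxeter system is simply laced and its Coxeter graph has no triangle. -/
structure TypeLambda (M : CoxeterMatrix S) : Prop where
  simplyLaced : ∀ s t, s ≠ t → M s t = 2 ∨ M s t = 3
  triangleFree : ∀ s t r, M s t = 3 → M t r = 3 → M s r ≠ 3

/-- a braid move -/
def BraidMove (M : CoxeterMatrix S) (α β : List S) : Prop :=
  ∃ (l r : List S) (s t : S), M s t = 3 ∧ α = l ++ s :: t :: s :: r ∧ β = l ++ t :: s :: t :: r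

/-- the braid class -/
def braidClass (M : CoxeterMatrix S) (α : List S) : Set (List S) :=
  {β | ReflTransGen (BraidMove M) α β}

lemma msymm (M : CoxeterMatrix S) (s t : S) : M s t = M t s := by
  have := M.isSymm
  exact congrFun (congrFun this t) s

lemma ne_of_three (M : CoxeterMatrix S) {s t : S} (h : M s t = 3) : s ≠ t := by
  rintro rfl
  rw [M.diagonal] at h
  omega

lemma BraidMove.symm {M : CoxeterMatrix S} {α β : List S} (h : BraidMove M α β) :
    BraidMove M β α := by
  obtain ⟨l, r, s, t, h1, h2, h3⟩ := h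
  exact ⟨l, r, t, s, by rw [msymm]; exact h1, h3, h2⟩

lemma BraidMove.ne {M : CoxeterMatrix S} {α β : List S} (h : BraidMove M α β) : α ≠ β := by
  obtain ⟨l, r, s, t, h1, rfl, rfl⟩ := h
  intro h
  rw [List.append_cancel_left_eq] at h
  exact ne_of_three M h1 (List.cons.inj h).1

/-- the braid graph of `α` -/
def braidGraph (M : CoxeterMatrix S) (α : List S) : SimpleGraph (braidClass M α) where
  Adj β γ := BraidMove M β.1 γ.1
  symm := ⟨fun _ _ h => h.symm⟩
  loopless := ⟨fun _ h => h.ne rfl⟩

/-- first positions of the braid shadows occurring in the braid class of `α` -/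
def shadows (M : CoxeterMatrix S) (α : List S) : Set ℕ :=
  {i | ∃ β ∈ braidClass M α, ∃ s t, M s t = 3 ∧
    β[i]? = some s ∧ β[i + 1]? = some t ∧ β[i + 2]? = some s}

/-- word as a function on the integers -/
def fn (l : List S) : ℤ → Option S := fun i => if 0 ≤ i then l[i.toNat]? else none

/-- adjacency of the letters -/
def adjO (M : CoxeterMatrix S) (x y : Option S) : Prop := ∃ s t, x = some s ∧ y = some t ∧ M s t = 3

lemma nice {M : CoxeterMatrix S} (hM : TypeLambda M) : Nice (adjO M) where
  symm := by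
    rintro a b ⟨s, t, rfl, rfl, h⟩
    exact ⟨t, s, rfl, rfl, by rw [msymm]; exact h⟩
  irrefl := by
    rintro a ⟨s, t, rfl, h1, h⟩
    exact ne_of_three M h (Option.some.inj h1)
  tri := by
    rintro a b c ⟨s, t, rfl, rfl, h⟩ ⟨s', t', h1, rfl, h'⟩ ⟨s'', t'', h2, h3, h''⟩
    obtain rfl := Option.some.inj h1
    obtain rfl := Option.some.inj h2
    obtain rfl := Option.some.inj h3
    exact hM.triangleFree _ _ _ h h' h''

lemma fn_inj {l l' : List S} (h : fn l = fn l') : l = l' := by
  apply List.ext_getElem?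
  intro i
  have := congrFun h (i : ℤ)
  simpa [fn] using this

lemma fn_nat (l : List S) (n : ℕ) : fn l (n : ℤ) = l[n]? := by simp [fn]

lemma fn_neg (l : List S) {i : ℤ} (h : i < 0) : fn l i = none := by
  simp [fn, not_le.mpr h]

lemma decomp {α : List S} {n : ℕ} {s t u : S} (h0 : α[n]? = some s) (h1 : α[n + 1]? = some t)
    (h2 : α[n + 2]? = some u) : ∃ l r, l.length = n ∧ α = l ++ s :: t :: u :: r := by
  obtain ⟨g0, e0⟩ := List.getElem?_eq_some_iff.mp h0
  obtain ⟨g1, e1⟩ := List.getElem?_eq_some_iff.mp h1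
  obtain ⟨g2, e2⟩ := List.getElem?_eq_some_iff.mp h2
  refine ⟨α.take n, α.drop (n + 3), by rw [List.length_take]; omega, ?_⟩
  conv_lhs => rw [← List.take_append_drop n α]
  rw [List.drop_eq_getElem_cons g0, List.drop_eq_getElem_cons g1, List.drop_eq_getElem_cons g2,
    e0, e1, e2]

lemma fn_app (l r : List S) (x y z : S) (i : ℤ) : fn (l ++ x :: y :: z :: r) i =
    if i = l.length then some x else if i = l.length + 1 then some y else
      if i = l.length + 2 then some z else fn (l ++ x :: x :: x :: r) i := by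
  rcases lt_or_ge i 0 with h | h
  · rw [fn_neg _ h, fn_neg _ h]
    simp [show i ≠ (l.length : ℤ) by omega, show i ≠ (l.length : ℤ) + 1 by omega,
      show i ≠ (l.length : ℤ) + 2 by omega]
  · obtain ⟨n, rfl⟩ := Int.eq_ofNat_of_zero_le h
    rw [fn_nat, fn_nat]
    rcases lt_or_ge n l.length with h1 | h1
    · rw [List.getElem?_append_left h1, List.getElem?_append_left h1]
      simp [show (n : ℤ) ≠ (l.length : ℤ) by omega, show (n : ℤ) ≠ (l.length : ℤ) + 1 by omega,
        show (n : ℤ) ≠ (l.length : ℤ) + 2 by omega]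
    · rw [List.getElem?_append_right h1, List.getElem?_append_right h1]
      obtain ⟨k, rfl⟩ := Nat.exists_eq_add_of_le h1
      rw [Nat.add_sub_cancel_left]
      rcases k with _ | _ | _ | k
      · simp
      · simp
      · simp [add_assoc]
      · rw [if_neg (by push_cast; omega), if_neg (by push_cast; omega),
          if_neg (by push_cast; omega)]
        simp

lemma fn_move {M : CoxeterMatrix S} {l r : List S} {s t : S} (h : M s t = 3) :
    Av (adjO M) (l.length : ℤ) (fn (l ++ s :: t :: s :: r)) ∧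
      fn (l ++ t :: s :: t :: r) = mv (l.length : ℤ) (fn (l ++ s :: t :: s :: r)) := by
  have e0 : fn (l ++ s :: t :: s :: r) (l.length : ℤ) = some s := by rw [fn_app]; simp
  have e1 : fn (l ++ s :: t :: s :: r) ((l.length : ℤ) + 1) = some t := by rw [fn_app]; simp
  have e2 : fn (l ++ s :: t :: s :: r) ((l.length : ℤ) + 2) = some s := by rw [fn_app]; simp
  refine ⟨⟨by rw [e0, e2], s, t, e0, e1, h⟩, ?_⟩
  funext i
  by_cases h0 : i = l.length
  · subst h0; rw [mv_left, e1, fn_app]; simp
  by_cases h1 : i = l.length + 1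
  · subst h1; rw [mv_mid, e0, fn_app]; simp
  by_cases h2 : i = l.length + 2
  · subst h2; rw [mv_right, e1, fn_app]; simp
  rw [mv_ne _ _ h0 h1 h2]
  rcases lt_or_ge i 0 with h | h
  · rw [fn_neg _ h, fn_neg _ h]
  · obtain ⟨n, rfl⟩ := Int.eq_ofNat_of_zero_le h
    rw [fn_nat, fn_nat]
    rcases lt_or_ge n l.length with h3 | h3
    · rw [List.getElem?_append_left h3, List.getElem?_append_left h3]
    · rw [List.getElem?_append_right h3, List.getElem?_append_right h3]
      obtain ⟨k, rfl⟩ := Nat.exists_eq_add_of_le h3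
      rw [Nat.add_sub_cancel_left]
      rcases k with _ | _ | _ | k
      · simp at h0
      · simp at h1
      · simp at h2
      · simp

/-- an available move of the function is a braid move of the word -/
lemma move_of_av {M : CoxeterMatrix S} {α : List S} {p : ℤ} (h : Av (adjO M) p (fn α)) :
    ∃ β, BraidMove M α β ∧ fn β = mv p (fn α) ∧ 0 ≤ p ∧ ∃ s t, M s t = 3 ∧
      α[p.toNat]? = some s ∧ α[p.toNat + 1]? = some t ∧ α[p.toNat + 2]? = some s := by
  obtain ⟨h1, s, t, h2, h3, h4⟩ := h
  have hp : 0 ≤ p := by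
    by_contra hp
    rw [fn_neg _ (by omega)] at h2
    cases h2
  obtain ⟨n, rfl⟩ := Int.eq_ofNat_of_zero_le hp
  have g0 : α[n]? = some s := by rw [← fn_nat]; exact h2
  have g1 : α[n + 1]? = some t := by rw [← fn_nat]; push_cast; exact h3
  have g2 : α[n + 2]? = some s := by rw [← fn_nat]; push_cast; rw [← h1]; exact h2
  obtain ⟨l, r, rfl, rfl⟩ := decomp g0 g1 g2
  refine ⟨l ++ t :: s :: t :: r, ⟨l, r, s, t, h4, rfl, rfl⟩, (fn_move h4).2, hp, s, t, h4, ?_⟩
  exact ⟨g0, g1, g2⟩

lemma walk_of_rtg {M : CoxeterMatrix S} {α β : List S} (h : ReflTransGen (BraidMove M) α β) :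
    ∃ n γ, γ 0 = fn α ∧ γ n = fn β ∧ IsWalk (adjO M) n γ := by
  induction h with
  | refl => exact ⟨0, fun _ => fn α, rfl, rfl, fun i hi => absurd hi (Nat.not_lt_zero i)⟩
  | @tail b c _ hbc ih =>
    obtain ⟨n, γ, h0, hn, hw⟩ := ih
    obtain ⟨l, r, s, t, h4, rfl, rfl⟩ := hbc
    refine ⟨n + 1, fun i => if i ≤ n then γ i else fn (l ++ t :: s :: t :: r), by simp [h0],
      by simp, ?_⟩
    intro i hi
    rcases Nat.lt_succ_iff_lt_or_eq.mp hi with h | rfl
    · obtain ⟨q, hq, h2⟩ := hw i h
      exact ⟨q, by simpa [h.le] using hq, by simpa [h.le, Nat.succ_le_of_lt h] using h2⟩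
    · refine ⟨l.length, ?_, ?_⟩
      · simp only [le_refl, if_true, hn]; exact (fn_move h4).1
      · simp only [le_refl, if_true, hn, show ¬ i + 1 ≤ i by omega, if_false]
        exact (fn_move h4).2

lemma class_symm {M : CoxeterMatrix S} {α β : List S} (h : ReflTransGen (BraidMove M) α β) :
    ReflTransGen (BraidMove M) β α := by
  induction h with
  | refl => exact ReflTransGen.refl
  | tail _ h2 ih => exact ReflTransGen.head h2.symm ih

variable {W : Type v} [Group W] {M : CoxeterMatrix S} (cs : CoxeterSystem M W)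

include cs in
lemma move_prod {α β : List S} (h : BraidMove M α β) :
    cs.wordProd α = cs.wordProd β ∧ α.length = β.length := by
  obtain ⟨l, r, s, t, h1, rfl, rfl⟩ := h
  refine ⟨?_, by simp⟩
  have h2 : cs.simple s * cs.simple t * cs.simple s = cs.simple t * cs.simple s * cs.simple t := by
    have h3 := cs.simple_mul_simple_pow s t
    rw [h1] at h3
    have h4 := cs.simple_mul_simple_self s
    have h5 := cs.simple_mul_simple_self t
    have h6 : cs.simple s * cs.simple t * cs.simple s * (cs.simple t * cs.simple s * cs.simple t)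
        = 1 := by
      rw [← h3]; group
      simp [pow_succ, zpow_ofNat, mul_assoc]
    have h7 : (cs.simple t * cs.simple s * cs.simple t) *
        (cs.simple t * cs.simple s * cs.simple t) = 1 := by
      calc _ = cs.simple t * cs.simple s * (cs.simple t * cs.simple t) * cs.simple s *
            cs.simple t := by group
        _ = 1 := by rw [h5, mul_one, mul_assoc (cs.simple t), h4, mul_one, h5]
    exact mul_right_cancel (h6.trans h7.symm)
  simp only [CoxeterSystem.wordProd_append, CoxeterSystem.wordProd_cons]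
  congr 1
  simp only [← mul_assoc]
  rw [h2]

include cs in
lemma class_reduced {α β : List S} (hα : cs.IsReduced α)
    (h : ReflTransGen (BraidMove M) α β) : cs.IsReduced β := by
  induction h with
  | refl => exact hα
  | tail _ hbc ih =>
    obtain ⟨h1, h2⟩ := move_prod cs hbc
    unfold CoxeterSystem.IsReduced at ih ⊢
    rw [← h1, ih, h2]

include cs in
lemma no_repeat {l r : List S} {s : S} (h : cs.IsReduced (l ++ s :: s :: r)) : False := by
  have h1 : cs.wordProd (l ++ s :: s :: r) = cs.wordProd (l ++ r) := by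
    simp only [CoxeterSystem.wordProd_append, CoxeterSystem.wordProd_cons]
    congr 1
    rw [← mul_assoc, cs.simple_mul_simple_self, one_mul]
  unfold CoxeterSystem.IsReduced at h
  rw [h1] at h
  have h2 := cs.length_wordProd_le (l ++ r)
  rw [h] at h2
  simp at h2

include cs in
lemma isClass {α : List S} (hα : cs.IsReduced α) :
    IsClass (adjO M) (fn '' braidClass M α) where
  closed := by
    rintro _ ⟨β, hβ, rfl⟩ p hp
    obtain ⟨γ, h1, h2, -⟩ := move_of_av hp
    exact ⟨γ, ReflTransGen.tail hβ h1, h2⟩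
  nr := by
    rintro _ ⟨β, hβ, rfl⟩ i b ⟨s, t, h1, -, -⟩ h2
    have hp : 0 ≤ i := by
      by_contra hp
      rw [fn_neg _ (by omega)] at h1
      cases h1
    obtain ⟨n, rfl⟩ := Int.eq_ofNat_of_zero_le hp
    have g0 : β[n]? = some s := by rw [← fn_nat]; exact h1
    have g1 : β[n + 1]? = some s := by rw [← fn_nat]; push_cast; rw [← h2]; exact h1
    obtain ⟨k0, e0⟩ := List.getElem?_eq_some_iff.mp g0
    obtain ⟨k1, e1⟩ := List.getElem?_eq_some_iff.mp g1
    have : β = β.take n ++ s :: s :: β.drop (n + 2) := by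
      conv_lhs => rw [← List.take_append_drop n β]
      rw [List.drop_eq_getElem_cons k0, List.drop_eq_getElem_cons k1, e0, e1]
    have hr := class_reduced cs hα hβ
    rw [this] at hr
    exact no_repeat cs hr
  conn := by
    rintro _ ⟨β, hβ, rfl⟩ _ ⟨γ, hγ, rfl⟩
    exact walk_of_rtg ((class_symm hβ).trans hγ)

lemma shadows_eq (α : List S) : SS (adjO M) (fn '' braidClass M α) =
    (Nat.cast : ℕ → ℤ) '' shadows M α := by
  ext p
  constructor
  · rintro ⟨_, ⟨β, hβ, rfl⟩, hp⟩
    obtain ⟨-, -, -, h0, s, t, h1, h2⟩ := move_of_av hp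
    exact ⟨p.toNat, ⟨β, hβ, s, t, h1, h2⟩, Int.toNat_of_nonneg h0⟩
  · rintro ⟨n, ⟨β, hβ, s, t, h1, h2, h3, h4⟩, rfl⟩
    obtain ⟨l, r, rfl, rfl⟩ := decomp h2 h3 h4
    exact ⟨_, ⟨_, hβ, rfl⟩, (fn_move h1).1⟩

lemma shadows_finite (α : List S) : (shadows M α).Finite := by
  refine (Set.finite_lt_nat α.length).subset ?_
  rintro i ⟨β, hβ, s, t, -, h0, -⟩
  have hlen : α.length = β.length := by
    have : ∀ γ, ReflTransGen (BraidMove M) α γ → α.length = γ.length := by
      intro γ hγ
      induction hγ with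
      | refl => rfl
      | tail _ h ih =>
        obtain ⟨l, r, s, t, -, rfl, rfl⟩ := h
        rw [ih]; simp
    exact this β hβ
  obtain ⟨h, -⟩ := List.getElem?_eq_some_iff.mp h0
  show i < α.length
  omega

end Pool.Agent.X195.Braid
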