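import Mathlib

set_option autoImplicit false

open Filter Topology Matrix

namespace Pool.Agent.X195.Cox

/-- `B` is a matrix of a geometric representation of the Coxeter group with Coxeter matrix `M`. -/
structure IsGeometric {S : Type} [Fintype S] [DecidableEq S] (M : CoxeterMatrix S)
    (B : Matrix S S ℝ) : Prop where
  symm : B.IsSymm
  finite : ∀ s t, M s t ≠ 0 → B s t = - Real.cos (Real.pi / M s t)
  infinite : ∀ s t, M s t = 0 → B s t ≤ -1

/-- signature `(n - 1, 1)` -/
def IsLorentzian {S : Type} [Fintype S] [DecidableEq S] (B : Matrix S S ℝ) : Prop :=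
  ∃ (P : Matrix S S ℝ) (s₀ : S), IsUnit P ∧
    Pᵀ * B * P = Matrix.diagonal fun s => if s = s₀ then -1 else 1

/-- the bilinear form with matrix `B` -/
def form {S : Type} [Fintype S] (B : Matrix S S ℝ) (x y : S → ℝ) : ℝ := x ⬝ᵥ B *ᵥ y

/-- the group generated by the reflections `v ↦ v - 2 B(α_s, v) α_s` in the simple roots -/
def W {S : Type} [Fintype S] [DecidableEq S] (B : Matrix S S ℝ) :
    Subgroup ((S → ℝ) ≃ₗ[ℝ] (S → ℝ)) :=
  Subgroup.closure {g | ∃ s : S, ∀ v, g v = v - (2 * form B (Pi.single s 1) v) • Pi.single s 1}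

/-- the points of the projective space given by `v k` converge to the one given by `x` -/
def ProjTendsto {V : Type} [AddCommGroup V] [Module ℝ V] [TopologicalSpace V] (v : ℕ → V)
    (x : V) : Prop :=
  ∃ c : ℕ → ℝ, (∀ k, c k ≠ 0) ∧ Tendsto (fun k => c k • v k) atTop (𝓝 x)

/-- the points of the projective space given by the nonzero vectors `v k` are pairwise distinct -/
def ProjInjective {V : Type} [AddCommGroup V] [Module ℝ V] (v : ℕ → V) : Prop :=
  ∀ j k, j ≠ k → ∀ c : ℝ, v j ≠ c • v k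

section Ex

/-- the example -/
noncomputable def BB : Matrix (Fin 3) (Fin 3) ℝ := !![1, -1/2, 0; -1/2, 1, -1; 0, -1, 1]

abbrev V := Fin 3 → ℝ

/-- identification with symmetric matrices -/
def Ψ (v : V) : Matrix (Fin 2) (Fin 2) ℝ := !![v 1 - v 0, v 1 - v 2; v 1 - v 2, v 0]

lemma form_eq (v w : V) : form BB v w = v 0 * (w 0 - w 1 / 2) + v 1 * (-w 0 / 2 + w 1 - w 2) +
    v 2 * (- w 1 + w 2) := by
  simp [form, BB, dotProduct, Matrix.mulVec, Fin.sum_univ_three]
  ring

lemma form_det (v : V) : form BB v v = - (Ψ v).det := by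
  rw [form_eq, Matrix.det_fin_two]
  simp [Ψ]
  ring

lemma Ψ_inj {v w : V} (h : Ψ v = Ψ w) : v = w := by
  have h0 := congrFun (congrFun h 1) 1
  have h1 := congrFun (congrFun h 0) 0
  have h2 := congrFun (congrFun h 0) 1
  simp [Ψ] at h0 h1 h2
  funext i
  fin_cases i
  · exact h0
  · show v 1 = w 1
    linarith
  · show v 2 = w 2
    linarith

lemma Ψ_smul (c : ℝ) (v : V) : Ψ (c • v) = c • Ψ v := by
  ext i j
  fin_cases i <;> fin_cases j <;> simp [Ψ] <;> ring

/-- an integral matrix acting on real symmetric matrices -/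
def act (M : Matrix (Fin 2) (Fin 2) ℤ) (Y : Matrix (Fin 2) (Fin 2) ℝ) :
    Matrix (Fin 2) (Fin 2) ℝ :=
  M.map (Int.castRingHom ℝ) * Y * (M.map (Int.castRingHom ℝ))ᵀ

lemma act_mul (M N : Matrix (Fin 2) (Fin 2) ℤ) (Y : Matrix (Fin 2) (Fin 2) ℝ) :
    act (M * N) Y = act M (act N Y) := by
  unfold act
  rw [Matrix.map_mul, Matrix.transpose_mul]
  simp only [Matrix.mul_assoc]

lemma act_one (Y : Matrix (Fin 2) (Fin 2) ℝ) : act 1 Y = Y := by
  unfold act
  rw [Matrix.map_one _ (map_zero _) (map_one _)]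
  simp

/-- integral matrices of the three reflections -/
def R : Fin 3 → Matrix (Fin 2) (Fin 2) ℤ
  | 0 => !![0, 1; 1, 0]
  | 1 => !![-1, 1; 0, 1]
  | 2 => !![1, 0; 0, -1]

lemma R_sq (s : Fin 3) : R s * R s = 1 := by
  fin_cases s <;> decide

/-- the reflection -/
noncomputable def rf (s : Fin 3) (v : V) : V := v - (2 * form BB (Pi.single s 1) v) • Pi.single s 1

lemma Ψ_rf (s : Fin 3) (v : V) : Ψ (rf s v) = act (R s) (Ψ v) := by
  ext i j
  fin_cases s <;> fin_cases i <;> fin_cases j <;>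
    simp [rf, Ψ, act, R, form_eq, Matrix.mul_apply, Fin.sum_univ_two] <;> ring


lemma form_single (s : Fin 3) : form BB (Pi.single s 1) (Pi.single s 1) = 1 := by
  rw [form_eq]
  fin_cases s <;> simp

lemma form_add_right (u v w : V) : form BB u (v + w) = form BB u v + form BB u w := by
  simp only [form_eq, Pi.add_apply]; ring

lemma form_smul_right (c : ℝ) (u v : V) : form BB u (c • v) = c * form BB u v := by
  simp only [form_eq, Pi.smul_apply, smul_eq_mul]; ring

/-- the reflections as linear maps -/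
noncomputable def rfl' (s : Fin 3) : V →ₗ[ℝ] V where
  toFun := rf s
  map_add' v w := by
    unfold rf
    rw [form_add_right, mul_add, add_smul]
    abel
  map_smul' c v := by
    unfold rf
    rw [form_smul_right, RingHom.id_apply, smul_sub, smul_smul]
    congr 2
    ring

lemma rf_rf (s : Fin 3) (v : V) : rf s (rf s v) = v := by
  apply Ψ_inj
  rw [Ψ_rf, Ψ_rf, ← act_mul, R_sq, act_one]

noncomputable def rfe (s : Fin 3) : V ≃ₗ[ℝ] V := LinearEquiv.ofInvolutive (rfl' s) (rf_rf s)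

lemma rfe_apply (s : Fin 3) (v : V) : rfe s v = rf s v := rfl

lemma rfe_mem (s : Fin 3) : rfe s ∈ W BB :=
  Subgroup.subset_closure ⟨s, fun _ => rfl⟩

/-- every element of the group acts through an integral matrix -/
lemma exists_act {g : V ≃ₗ[ℝ] V} (hg : g ∈ W BB) : ∃ M : (Matrix (Fin 2) (Fin 2) ℤ)ˣ,
    ∀ v, Ψ (g v) = act M (Ψ v) := by
  induction hg using Subgroup.closure_induction with
  | mem g hg =>
    obtain ⟨s, hs⟩ := hg
    refine ⟨⟨R s, R s, R_sq s, R_sq s⟩, fun v => ?_⟩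
    rw [hs v]
    exact Ψ_rf s v
  | one => exact ⟨1, fun v => (act_one _).symm⟩
  | mul g h _ _ hg hh =>
    obtain ⟨M, hM⟩ := hg
    obtain ⟨N, hN⟩ := hh
    refine ⟨M * N, fun v => ?_⟩
    rw [Units.val_mul, act_mul, ← hN, ← hM]
    rfl
  | inv g _ hg =>
    obtain ⟨M, hM⟩ := hg
    refine ⟨M⁻¹, fun v => ?_⟩
    have h := hM (g⁻¹ v)
    have h2 : g (g⁻¹ v) = v := by
      show (g * g⁻¹) v = v
      rw [mul_inv_cancel]; rfl
    rw [h2] at h
    rw [h, ← act_mul, Units.inv_mul, act_one]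

end Ex

end Pool.Agent.X195.Cox
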