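import Pool.Agent.X195.Cox1

set_option autoImplicit false

open Filter Topology Matrix

namespace Pool.Agent.X195.Cox

lemma act_pow {w : V ≃ₗ[ℝ] V} {M : Matrix (Fin 2) (Fin 2) ℤ} (h : ∀ v, Ψ (w v) = act M (Ψ v))
    (n : ℕ) (v : V) : Ψ ((w ^ n) v) = act (M ^ n) (Ψ v) := by
  induction n generalizing v with
  | zero => rw [pow_zero, pow_zero, act_one]; rfl
  | succ n ih =>
    rw [pow_succ, pow_succ, act_mul, ← h, ← ih]
    rfl

lemma finOrder {w : V ≃ₗ[ℝ] V} {M : Matrix (Fin 2) (Fin 2) ℤ} (h : ∀ v, Ψ (w v) = act M (Ψ v))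
    (n : ℕ) (hn : 0 < n) (hM : ∀ Y, act (M ^ n) Y = Y) : IsOfFinOrder w := by
  rw [isOfFinOrder_iff_pow_eq_one]
  refine ⟨n, hn, ?_⟩
  ext1 v
  exact Ψ_inj (by rw [act_pow h, hM]; rfl)

lemma act_neg_one (Y : Matrix (Fin 2) (Fin 2) ℝ) : act (-1) Y = Y := by
  ext i j
  fin_cases i <;> fin_cases j <;>
    simp [act, Matrix.mul_apply, Fin.sum_univ_two]

lemma cayley (M : Matrix (Fin 2) (Fin 2) ℤ) :
    M * M = (M 0 0 + M 1 1) • M - (M.det) • (1 : Matrix (Fin 2) (Fin 2) ℤ) := by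
  rw [Matrix.det_fin_two]
  ext i j
  simp only [Matrix.mul_apply, Fin.sum_univ_two, Matrix.sub_apply, Matrix.smul_apply,
    smul_eq_mul, Matrix.one_apply]
  fin_cases i <;> fin_cases j <;> simp <;> ring

lemma form_act {w : V ≃ₗ[ℝ] V} {M : (Matrix (Fin 2) (Fin 2) ℤ)ˣ}
    (h : ∀ v, Ψ (w v) = act M (Ψ v)) (v : V) : form BB (w v) (w v) = form BB v v := by
  rw [form_det, form_det, h, act, Matrix.det_mul, Matrix.det_mul, Matrix.det_transpose,
    ← RingHom.mapMatrix_apply, ← RingHom.map_det]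
  have h1 := (Matrix.isUnit_iff_isUnit_det _).mp M.isUnit
  rcases Int.isUnit_iff.mp h1 with h2 | h2 <;> rw [h2] <;> simp

lemma real_lemma {c : ℕ → ℝ} {κ : ℝ} (hκ : 0 < κ) (hc : Tendsto (fun j => c j ^ 2) atTop (𝓝 κ))
    {n : ℕ → ℕ} (hn : Tendsto n atTop atTop) {x y z₁ z₂ : ℝ}
    (h : Tendsto (fun j => c j * (y + n j * z₁ + n j ^ 2 * z₂)) atTop (𝓝 x)) :
    z₁ = 0 ∧ z₂ = 0 := by
  have hg : Tendsto (fun j => (y + n j * z₁ + n j ^ 2 * z₂) ^ 2) atTop (𝓝 (x ^ 2 / κ)) := by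
    have h1 := (h.pow 2).div hc hκ.ne'
    refine h1.congr' ?_
    have h2 : ∀ᶠ j in atTop, 0 < c j ^ 2 := hc.eventually (lt_mem_nhds hκ)
    filter_upwards [h2] with j hj
    show (c j * (y + n j * z₁ + n j ^ 2 * z₂)) ^ 2 / c j ^ 2 = _
    rw [mul_pow, mul_div_cancel_left₀ _ hj.ne']
  have hr : Tendsto (fun j => (n j : ℝ)) atTop atTop := tendsto_natCast_atTop_atTop.comp hn
  have hi : Tendsto (fun j => ((n j : ℝ))⁻¹) atTop (𝓝 0) := tendsto_inv_atTop_zero.comp hr
  have hpos : ∀ᶠ j in atTop, 0 < (n j : ℝ) := hr.eventually_gt_atTop 0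
  have hz2 : z₂ = 0 := by
    have h1 : Tendsto (fun j => (y + n j * z₁ + n j ^ 2 * z₂) ^ 2 * ((n j : ℝ)⁻¹) ^ 4) atTop
        (𝓝 (x ^ 2 / κ * 0 ^ 4)) := hg.mul (hi.pow 4)
    have h2 : Tendsto (fun j => (y * ((n j : ℝ)⁻¹) ^ 2 + z₁ * (n j : ℝ)⁻¹ + z₂) ^ 2) atTop
        (𝓝 ((y * 0 ^ 2 + z₁ * 0 + z₂) ^ 2)) :=
      (((hi.pow 2).const_mul y).add (hi.const_mul z₁) |>.add_const z₂).pow 2
    have h3 := tendsto_nhds_unique (h1.congr' (by
      filter_upwards [hpos] with j hj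
      field_simp)) h2
    have h4 : z₂ ^ 2 = 0 := by nlinarith
    exact pow_eq_zero_iff (two_ne_zero) |>.mp h4
  refine ⟨?_, hz2⟩
  subst hz2
  have h1 : Tendsto (fun j => (y + n j * z₁ + n j ^ 2 * 0) ^ 2 * ((n j : ℝ)⁻¹) ^ 2) atTop
      (𝓝 (x ^ 2 / κ * 0 ^ 2)) := hg.mul (hi.pow 2)
  have h2 : Tendsto (fun j => (y * ((n j : ℝ)⁻¹) + z₁) ^ 2) atTop
      (𝓝 ((y * 0 + z₁) ^ 2)) :=
    ((hi.const_mul y).add_const z₁).pow 2
  have h3 := tendsto_nhds_unique (h1.congr' (by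
    filter_upwards [hpos] with j hj
    field_simp
    ring)) h2
  have h4 : z₁ ^ 2 = 0 := by nlinarith
  exact pow_eq_zero_iff (two_ne_zero) |>.mp h4


/-- the value of the quadratic form `Y` at the covector `l` -/
noncomputable def φ (l : Fin 2 → ℝ) (Y : Matrix (Fin 2) (Fin 2) ℝ) : ℝ := l ⬝ᵥ Y *ᵥ l

lemma φ_Ψ (l : Fin 2 → ℝ) (v : V) :
    φ l (Ψ v) = l 0 ^ 2 * (v 1 - v 0) + 2 * l 0 * l 1 * (v 1 - v 2) + l 1 ^ 2 * v 0 := by
  simp [φ, Ψ, dotProduct, Matrix.mulVec, Fin.sum_univ_two]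
  ring

lemma continuous_φ (l : Fin 2 → ℝ) : Continuous fun v : V => φ l (Ψ v) := by
  simp only [φ_Ψ]
  fun_prop

lemma φ_smul (l : Fin 2 → ℝ) (c : ℝ) (v : V) : φ l (Ψ (c • v)) = c * φ l (Ψ v) := by
  simp only [φ_Ψ, Pi.smul_apply, smul_eq_mul]
  ring

lemma φ_act {l : Fin 2 → ℝ} {M : Matrix (Fin 2) (Fin 2) ℤ} {lam : ℝ}
    (h : l ᵥ* (M.map (Int.castRingHom ℝ)) = lam • l) (Y : Matrix (Fin 2) (Fin 2) ℝ) :
    φ l (act M Y) = lam ^ 2 * φ l Y := by
  unfold φ act
  rw [← Matrix.mulVec_mulVec, ← Matrix.mulVec_mulVec, Matrix.dotProduct_mulVec, h,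
    Matrix.mulVec_transpose, h, Matrix.mulVec_smul]
  simp only [smul_dotProduct, dotProduct_smul, smul_eq_mul]
  ring

lemma φ_act_pow {l : Fin 2 → ℝ} {M : Matrix (Fin 2) (Fin 2) ℤ} {lam : ℝ}
    (h : l ᵥ* (M.map (Int.castRingHom ℝ)) = lam • l) (n : ℕ) (Y : Matrix (Fin 2) (Fin 2) ℝ) :
    φ l (act (M ^ n) Y) = (lam ^ 2) ^ n * φ l Y := by
  induction n generalizing Y with
  | zero => rw [pow_zero, act_one, pow_zero, one_mul]
  | succ n ih =>
    rw [pow_succ, act_mul, ih, φ_act h]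
    ring

/-- the limit direction is the direction of the simple root `α 2` -/
noncomputable def xx : V := Pi.single 2 1

lemma form_xx : form BB xx xx = 1 := form_single 2

lemma form_smul (c : ℝ) (v : V) : form BB (c • v) (c • v) = c ^ 2 * form BB v v := by
  simp only [form_eq, Pi.smul_apply, smul_eq_mul]
  ring

lemma continuous_form : Continuous fun v : V => form BB v v := by
  simp only [form_eq]
  fun_prop

lemma eigen {M : Matrix (Fin 2) (Fin 2) ℤ} {lam : ℝ}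
    (h : lam ^ 2 - ((M 0 0 + M 1 1 : ℤ) : ℝ) * lam + ((M.det : ℤ) : ℝ) = 0) :
    ∃ l : Fin 2 → ℝ, l ≠ 0 ∧ l ᵥ* (M.map (Int.castRingHom ℝ)) = lam • l := by
  have hdet : ((M.map (Int.castRingHom ℝ)) - lam • (1 : Matrix (Fin 2) (Fin 2) ℝ)).det = 0 := by
    rw [Matrix.det_fin_two]
    rw [Matrix.det_fin_two] at h
    simp only [Matrix.sub_apply, Matrix.smul_apply, Matrix.map_apply, Matrix.one_apply]
    push_cast at h
    simp
    linarith
  obtain ⟨l, hl, h2⟩ := Matrix.exists_vecMul_eq_zero_iff.mpr hdet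
  refine ⟨l, hl, ?_⟩
  rw [Matrix.vecMul_sub, Matrix.vecMul_smul, Matrix.vecMul_one, sub_eq_zero] at h2
  exact h2

section Neg

variable {w : V ≃ₗ[ℝ] V} {M : (Matrix (Fin 2) (Fin 2) ℤ)ˣ} (hM : ∀ v, Ψ (w v) = act M (Ψ v))
  {p : V} {n : ℕ → ℕ} (hn : Tendsto n atTop atTop) {c : ℕ → ℝ}
  (hc : Tendsto (fun j => c j • (w ^ n j) p) atTop (𝓝 xx))

include hM in
lemma form_pow (k : ℕ) (v : V) : form BB ((w ^ k) v) ((w ^ k) v) = form BB v v := by
  induction k generalizing v with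
  | zero => rfl
  | succ k ih =>
    rw [pow_succ]
    show form BB ((w ^ k) (w v)) ((w ^ k) (w v)) = _
    rw [ih, form_act hM]

include hM hc in
lemma c_sq : 0 < form BB p p ∧ Tendsto (fun j => c j ^ 2) atTop (𝓝 (1 / form BB p p)) := by
  have h1 : Tendsto (fun j => c j ^ 2 * form BB p p) atTop (𝓝 1) := by
    have := (continuous_form.tendsto _).comp hc
    rw [form_xx] at this
    refine this.congr fun j => ?_
    show form BB (c j • (w ^ n j) p) (c j • (w ^ n j) p) = _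
    rw [form_smul, form_pow hM]
  have h2 : 0 < form BB p p := by
    have h3 : ∀ᶠ j in atTop, 0 < c j ^ 2 * form BB p p := h1.eventually (lt_mem_nhds one_pos)
    obtain ⟨j, hj⟩ := h3.exists
    by_contra hneg
    push Not at hneg
    nlinarith [sq_nonneg (c j)]
  refine ⟨h2, ?_⟩
  have h3 := h1.div_const (form BB p p)
  refine h3.congr fun j => ?_
  field_simp

include hM hn hc in
/-- a covector expanded by `M` vanishes on the limit -/
lemma φ_zero {lam : ℝ} {l : Fin 2 → ℝ} (hlam : 1 < |lam|)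
    (h : l ᵥ* ((M : Matrix (Fin 2) (Fin 2) ℤ).map (Int.castRingHom ℝ)) = lam • l) :
    l 0 * l 1 = 0 := by
  obtain ⟨hq, hc2⟩ := c_sq hM hc
  have h1 : Tendsto (fun j => c j * ((lam ^ 2) ^ (n j) * φ l (Ψ p))) atTop (𝓝 (φ l (Ψ xx))) := by
    refine (((continuous_φ l).tendsto _).comp hc).congr fun j => ?_
    show φ l (Ψ (c j • (w ^ n j) p)) = _
    rw [φ_smul, act_pow hM, φ_act_pow h]
  have h2 : φ l (Ψ p) = 0 := by
    by_contra hne
    have h3 := (h1.pow 2).div hc2 (by positivity)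
    have h4 : Tendsto (fun j => ((lam ^ 2) ^ (n j)) ^ 2 * (φ l (Ψ p)) ^ 2) atTop atTop := by
      have h5 : Tendsto (fun j => (lam ^ 2) ^ (n j)) atTop atTop := by
        have : 1 < lam ^ 2 := by
          rw [← sq_abs]; nlinarith
        exact (tendsto_pow_atTop_atTop_of_one_lt this).comp hn
      have h6 : Tendsto (fun j => ((lam ^ 2) ^ (n j)) ^ 2) atTop atTop :=
        (tendsto_pow_atTop two_ne_zero).comp h5
      exact h6.atTop_mul_const (by positivity)
    refine not_tendsto_nhds_of_tendsto_atTop h4 _ (h3.congr' ?_)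
    have h7 : ∀ᶠ j in atTop, 0 < c j ^ 2 := hc2.eventually (lt_mem_nhds (by positivity))
    filter_upwards [h7] with j hj
    show (c j * ((lam ^ 2) ^ (n j) * φ l (Ψ p))) ^ 2 / c j ^ 2 = _
    rw [mul_pow, mul_div_cancel_left₀ _ hj.ne', mul_pow]
  rw [h2] at h1
  simp only [mul_zero] at h1
  have h3 := tendsto_nhds_unique h1 tendsto_const_nhds
  rw [φ_Ψ] at h3
  simp [xx] at h3
  rcases h3 with h3 | h3 <;> simp [h3]

include hM hn hc in
lemma not_expanding {lam : ℝ} (hlam : 1 < |lam|)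
    (h : lam ^ 2 - (((M : Matrix (Fin 2) (Fin 2) ℤ) 0 0 + (M : Matrix (Fin 2) (Fin 2) ℤ) 1 1 : ℤ) : ℝ)
      * lam + (((M : Matrix (Fin 2) (Fin 2) ℤ).det : ℤ) : ℝ) = 0) : False := by
  obtain ⟨l, hl, h1⟩ := eigen h
  have h2 := φ_zero hM hn hc hlam h1
  set m := (M : Matrix (Fin 2) (Fin 2) ℤ) with hm
  have hd : m.det = 1 ∨ m.det = -1 :=
    Int.isUnit_iff.mp ((Matrix.isUnit_iff_isUnit_det _).mp M.isUnit)
  have e0 := congrFun h1 0
  have e1 := congrFun h1 1
  simp [Matrix.vecMul, dotProduct, Fin.sum_univ_two] at e0 e1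
  have hint : ∀ a b : ℤ, (a * b = 1 ∨ a * b = -1) → (a : ℝ) = lam → False := by
    intro a b hab ha
    have : IsUnit a := by
      rcases hab with hab | hab
      · exact IsUnit.of_mul_eq_one b hab
      · exact IsUnit.of_mul_eq_one (-b) (by rw [mul_neg, hab, neg_neg])
    rcases Int.isUnit_iff.mp this with h | h <;> rw [← ha, h] at hlam <;> simp at hlam
  rw [Matrix.det_fin_two] at hd
  rcases mul_eq_zero.mp h2 with h0 | h0
  · have hl1 : l 1 ≠ 0 := by
      intro h3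
      apply hl
      funext i
      fin_cases i
      · exact h0
      · exact h3
    rw [h0] at e0 e1
    have hc0 : m 1 0 = 0 := by
      have : l 1 * (m 1 0 : ℝ) = 0 := by simpa using e0
      rcases mul_eq_zero.mp this with h3 | h3
      · exact absurd h3 hl1
      · exact_mod_cast h3
    have hd0 : (m 1 1 : ℝ) = lam := by
      have : l 1 * (m 1 1 : ℝ) = l 1 * lam := by
        rw [mul_comm (l 1) lam]; simpa using e1
      exact mul_left_cancel₀ hl1 this
    rw [hc0, mul_zero, sub_zero, mul_comm] at hd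
    exact hint _ _ hd hd0
  · have hl1 : l 0 ≠ 0 := by
      intro h3
      apply hl
      funext i
      fin_cases i
      · exact h3
      · exact h0
    rw [h0] at e0 e1
    have hc0 : m 0 1 = 0 := by
      have : l 0 * (m 0 1 : ℝ) = 0 := by simpa using e1
      rcases mul_eq_zero.mp this with h3 | h3
      · exact absurd h3 hl1
      · exact_mod_cast h3
    have hd0 : (m 0 0 : ℝ) = lam := by
      have : l 0 * (m 0 0 : ℝ) = l 0 * lam := by
        rw [mul_comm (l 0) lam]; simpa using e0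
      exact mul_left_cancel₀ hl1 this
    rw [hc0, zero_mul, sub_zero] at hd
    exact hint _ _ hd hd0

lemma exists_expanding (t d : ℤ) (hd : d = 1 ∨ d = -1) (h1 : d = -1 → t ≠ 0)
    (h2 : d = 1 → 3 ≤ |t|) : ∃ lam : ℝ, 1 < |lam| ∧ lam ^ 2 - (t : ℝ) * lam + (d : ℝ) = 0 := by
  have hD : (5 : ℤ) ≤ t ^ 2 - 4 * d := by
    rcases hd with rfl | rfl
    · have := h2 rfl
      have h3 : (3 : ℤ) ^ 2 ≤ |t| ^ 2 := pow_le_pow_left₀ (by norm_num) this 2
      rw [sq_abs] at h3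
      linarith
    · have := h1 rfl
      have h3 : 0 < t ^ 2 := by positivity
      linarith
  have ht : t ≠ 0 := by
    rcases hd with h | h
    · intro h0
      have := h2 h
      rw [h0] at this
      norm_num at this
    · exact h1 h
  have hDr : (5 : ℝ) ≤ (t : ℝ) ^ 2 - 4 * d := by exact_mod_cast hD
  set s := Real.sqrt ((t : ℝ) ^ 2 - 4 * d) with hs
  have hs2 : s ^ 2 = (t : ℝ) ^ 2 - 4 * d := Real.sq_sqrt (by linarith)
  have hs0 : 0 ≤ s := Real.sqrt_nonneg _
  have hs3 : 2 ≤ s := by nlinarith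
  rcases lt_or_gt_of_ne ht with h | h
  · refine ⟨((t : ℝ) - s) / 2, ?_, by nlinarith⟩
    have h3 : (t : ℝ) ≤ -1 := by exact_mod_cast (by omega : t ≤ -1)
    rw [abs_of_neg (by linarith)]
    linarith
  · refine ⟨((t : ℝ) + s) / 2, ?_, by nlinarith⟩
    have h3 : (1 : ℝ) ≤ (t : ℝ) := by exact_mod_cast (by omega : 1 ≤ t)
    rw [abs_of_pos (by linarith)]
    linarith

/-- power of a parabolic matrix -/
lemma parabolic_pow {N : Matrix (Fin 2) (Fin 2) ℝ} {ε : ℝ} (hN : N * N = 0) (k : ℕ) :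
    (ε • (1 : Matrix (Fin 2) (Fin 2) ℝ) + N) ^ (k + 1) =
      ε ^ (k + 1) • (1 : Matrix (Fin 2) (Fin 2) ℝ) + ((k + 1 : ℝ) * ε ^ k) • N := by
  induction k with
  | zero => simp
  | succ k ih =>
    have aux : ∀ a u : ℝ, (a • (1 : Matrix (Fin 2) (Fin 2) ℝ) + u • N) *
        (ε • (1 : Matrix (Fin 2) (Fin 2) ℝ) + N) = (a * ε) • (1 : Matrix (Fin 2) (Fin 2) ℝ) +
          (a + u * ε) • N := by
      intro a u
      simp only [Matrix.add_mul, Matrix.mul_add, Matrix.smul_mul, Matrix.mul_smul, Matrix.one_mul,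
        Matrix.mul_one, hN, smul_zero, add_zero]
      module
    rw [pow_succ, ih, aux]
    congr 2
    push_cast
    ring

lemma par_aux {N Y : Matrix (Fin 2) (Fin 2) ℝ} {a u e s : ℝ} (h1 : a * a = 1) (h2 : a * u = s * e)
    (h3 : u * u = s ^ 2) :
    (a • (1 : Matrix (Fin 2) (Fin 2) ℝ) + u • N) * Y * (a • (1 : Matrix (Fin 2) (Fin 2) ℝ) + u • Nᵀ)
      = Y + s • (e • (N * Y + Y * Nᵀ)) + (s ^ 2) • (N * Y * Nᵀ) := by
  have e1 : (a • (1 : Matrix (Fin 2) (Fin 2) ℝ) + u • N) * Y *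
      (a • (1 : Matrix (Fin 2) (Fin 2) ℝ) + u • Nᵀ) =
      (a * a) • Y + (a * u) • (N * Y + Y * Nᵀ) + (u * u) • (N * Y * Nᵀ) := by
    simp only [add_mul, mul_add, smul_mul_assoc, mul_smul_comm, one_mul, mul_one, smul_smul,
      smul_add, Matrix.mul_assoc]
    rw [mul_comm u a]
    abel
  rw [e1, h1, h2, h3, one_smul, smul_smul]

lemma sym_zero {Z : Matrix (Fin 2) (Fin 2) ℝ} (hs : Z 0 1 = Z 1 0) (h : ∀ l : Fin 2 → ℝ, φ l Z = 0) :
    Z = 0 := by
  have h0 := h ![1, 0]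
  have h1 := h ![0, 1]
  have h2 := h ![1, 1]
  simp [φ, dotProduct, Matrix.mulVec, Fin.sum_univ_two] at h0 h1 h2
  ext i j
  fin_cases i <;> fin_cases j <;> simp <;> linarith

include hM hn hc in
lemma parabolic_case (ε : ℤ) (hε : ε = 1 ∨ ε = -1)
    (hN : ((M : Matrix (Fin 2) (Fin 2) ℤ) - ε • 1) * ((M : Matrix (Fin 2) (Fin 2) ℤ) - ε • 1) = 0) :
    ∀ k, (w ^ k) p = p := by
  obtain ⟨hq, hc2⟩ := c_sq hM hc
  set m := (M : Matrix (Fin 2) (Fin 2) ℤ) with hm
  set N : Matrix (Fin 2) (Fin 2) ℝ := (m - ε • 1).map (Int.castRingHom ℝ) with hNdef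
  have hNN : N * N = 0 := by
    rw [hNdef, ← Matrix.map_mul, hN]
    ext i j; simp
  have hmm : m.map (Int.castRingHom ℝ) = (ε : ℝ) • (1 : Matrix (Fin 2) (Fin 2) ℝ) + N := by
    ext i j
    simp only [hNdef, Matrix.map_apply, Matrix.sub_apply, Matrix.smul_apply, Matrix.add_apply,
      Matrix.one_apply]
    split_ifs <;> simp
  have hε2 : (ε : ℝ) * ε = 1 := by rcases hε with rfl | rfl <;> norm_num
  have hpow : ∀ k : ℕ, ∀ Y : Matrix (Fin 2) (Fin 2) ℝ, act (m ^ k) Y =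
      Y + (k : ℝ) • ((ε : ℝ) • (N * Y + Y * Nᵀ)) + ((k : ℝ) ^ 2) • (N * Y * Nᵀ) := by
    intro k Y
    rcases k with _ | k
    · simp [act_one]
    · unfold act
      have e : (m ^ (k + 1)).map (Int.castRingHom ℝ) =
          (m.map (Int.castRingHom ℝ)) ^ (k + 1) := by
        rw [← RingHom.mapMatrix_apply, map_pow, RingHom.mapMatrix_apply]
      rw [e, hmm, parabolic_pow hNN k, Matrix.transpose_add, Matrix.transpose_smul,
        Matrix.transpose_smul, Matrix.transpose_one]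
      refine par_aux ?_ ?_ ?_
      · rw [← mul_pow, hε2, one_pow]
      · have hk2 : ((ε : ℝ) ^ (k + 1)) * (ε : ℝ) ^ k = ε := by
          rw [pow_succ, mul_assoc, mul_comm (ε : ℝ), ← mul_assoc, ← mul_pow, hε2, one_pow, one_mul]
        push_cast
        linear_combination ((k : ℝ) + 1) * hk2
      · have hk3 : ((ε : ℝ) ^ k) * (ε : ℝ) ^ k = 1 := by
          rw [← mul_pow, hε2, one_pow]
        push_cast
        linear_combination ((k : ℝ) + 1) ^ 2 * hk3
  have hz : ∀ l : Fin 2 → ℝ, φ l ((ε : ℝ) • (N * Ψ p + Ψ p * Nᵀ)) = 0 ∧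
      φ l (N * Ψ p * Nᵀ) = 0 := by
    intro l
    refine real_lemma (by positivity) hc2 hn (x := φ l (Ψ xx)) (y := φ l (Ψ p)) ?_
    refine (((continuous_φ l).tendsto _).comp hc).congr fun j => ?_
    show φ l (Ψ (c j • (w ^ n j) p)) = _
    rw [φ_smul, act_pow hM, hpow]
    unfold φ
    simp only [Matrix.add_mulVec, Matrix.smul_mulVec, dotProduct_add, dotProduct_smul,
      smul_eq_mul]
  intro k
  apply Ψ_inj
  rw [act_pow hM, hpow]
  have hY : (Ψ p)ᵀ = Ψ p := by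
    ext i j
    fin_cases i <;> fin_cases j <;> rfl
  have z1 := sym_zero (Z := (ε : ℝ) • (N * Ψ p + Ψ p * Nᵀ)) (by
    have : ((ε : ℝ) • (N * Ψ p + Ψ p * Nᵀ))ᵀ = (ε : ℝ) • (N * Ψ p + Ψ p * Nᵀ) := by
      rw [Matrix.transpose_smul, Matrix.transpose_add, Matrix.transpose_mul, Matrix.transpose_mul,
        Matrix.transpose_transpose, hY, add_comm]
    exact (congrFun (congrFun this 1) 0)) (fun l => (hz l).1)
  have z2 := sym_zero (Z := N * Ψ p * Nᵀ) (by
    have : (N * Ψ p * Nᵀ)ᵀ = N * Ψ p * Nᵀ := by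
      rw [Matrix.transpose_mul, Matrix.transpose_mul, Matrix.transpose_transpose, hY,
        Matrix.mul_assoc]
    exact (congrFun (congrFun this 1) 0)) (fun l => (hz l).2)
  rw [z1, z2, smul_zero, smul_zero, add_zero, add_zero]

include hM hn hc in
/-- the main negative statement: the direction `xx` is not a limit of powers of one element -/
theorem neg_main (hw : ¬ IsOfFinOrder w) (hmove : ¬ ∀ k, (w ^ k) p = p) : False := by
  set m := (M : Matrix (Fin 2) (Fin 2) ℤ) with hm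
  have hd : m.det = 1 ∨ m.det = -1 :=
    Int.isUnit_iff.mp ((Matrix.isUnit_iff_isUnit_det _).mp M.isUnit)
  have hexp : (m.det = -1 → m 0 0 + m 1 1 ≠ 0) → (m.det = 1 → 3 ≤ |m 0 0 + m 1 1|) → False := by
    intro h1 h2
    obtain ⟨lam, hl, h3⟩ := exists_expanding (m 0 0 + m 1 1) m.det hd h1 h2
    exact not_expanding hM hn hc hl h3
  have hcay := cayley m
  rcases hd with hd | hd
  · rw [hd, one_smul] at hcay
    by_cases h3 : 3 ≤ |m 0 0 + m 1 1|
    · exact hexp (fun h => by rw [hd] at h; norm_num at h) (fun _ => h3)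
    · push Not at h3
      rw [abs_lt] at h3
      obtain ⟨h3, h4⟩ := h3
      obtain ht | ht | ht | ht | ht : m 0 0 + m 1 1 = -2 ∨ m 0 0 + m 1 1 = -1 ∨
        m 0 0 + m 1 1 = 0 ∨ m 0 0 + m 1 1 = 1 ∨ m 0 0 + m 1 1 = 2 := by omega
      · refine hmove (parabolic_case hM hn hc (-1) (Or.inr rfl) ?_)
        rw [← hm]
        rw [ht] at hcay
        have : (m - (-1 : ℤ) • (1 : Matrix (Fin 2) (Fin 2) ℤ)) *
            (m - (-1 : ℤ) • (1 : Matrix (Fin 2) (Fin 2) ℤ)) = m * m + 2 • m + 1 := by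
          noncomm_ring
        rw [this, hcay]
        noncomm_ring
      · refine hw (finOrder hM 3 (by norm_num) fun Y => ?_)
        rw [ht] at hcay
        have : m ^ 3 = 1 := by
          have e : m ^ 3 = m * m * m := by noncomm_ring
          rw [e, hcay]
          have e2 : ((-1 : ℤ) • m - 1) * m = - (m * m) - m := by noncomm_ring
          rw [e2, hcay]
          noncomm_ring
        rw [this, act_one]
      · refine hw (finOrder hM 2 (by norm_num) fun Y => ?_)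
        rw [ht, zero_smul, zero_sub] at hcay
        rw [pow_two, hcay, act_neg_one]
      · refine hw (finOrder hM 3 (by norm_num) fun Y => ?_)
        rw [ht] at hcay
        have : m ^ 3 = -1 := by
          have e : m ^ 3 = m * m * m := by noncomm_ring
          rw [e, hcay]
          have e2 : ((1 : ℤ) • m - 1) * m = (m * m) - m := by noncomm_ring
          rw [e2, hcay]
          noncomm_ring
        rw [this, act_neg_one]
      · refine hmove (parabolic_case hM hn hc 1 (Or.inl rfl) ?_)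
        rw [← hm]
        rw [ht] at hcay
        have : (m - (1 : ℤ) • (1 : Matrix (Fin 2) (Fin 2) ℤ)) *
            (m - (1 : ℤ) • (1 : Matrix (Fin 2) (Fin 2) ℤ)) = m * m - 2 • m + 1 := by
          noncomm_ring
        rw [this, hcay]
        noncomm_ring
  · by_cases h0 : m 0 0 + m 1 1 = 0
    · refine hw (finOrder hM 2 (by norm_num) fun Y => ?_)
      rw [h0, hd, zero_smul, neg_smul, one_smul, zero_sub, neg_neg] at hcay
      rw [pow_two, hcay, act_one]
    · exact hexp (fun _ => h0) (fun h => by rw [hd] at h; norm_num at h)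

end Neg

/-- the same with integer exponents -/
theorem not_powers {w : V ≃ₗ[ℝ] V} (hw : w ∈ W BB) (hinf : ¬ IsOfFinOrder w) (p : V) (k : ℕ → ℤ)
    (hk : StrictMono k) (hinj : ProjInjective fun j => (w ^ k j) p)
    (h : ProjTendsto (fun j => (w ^ k j) p) xx) : False := by
  obtain ⟨M, hM⟩ := exists_act hw
  obtain ⟨c, -, hc⟩ := h
  obtain ⟨J, hJ⟩ : ∃ J, ∀ j, J ≤ j → 0 ≤ k j := by
    have hkt : Tendsto k atTop atTop := by
      refine tendsto_atTop_mono (f := fun j : ℕ => k 0 + j) (fun j => ?_)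
        (tendsto_atTop_add_const_left _ _ tendsto_natCast_atTop_atTop)
      induction j with
      | zero => simp
      | succ j ih =>
        have h2 : k j < k (j + 1) := hk (Nat.lt_succ_self j)
        push_cast
        omega
    exact (hkt.eventually_ge_atTop 0).exists_forall_of_atTop
  set n : ℕ → ℕ := fun j => (k (j + J)).toNat with hn
  have hnk : ∀ j, ((n j : ℕ) : ℤ) = k (j + J) := fun j => Int.toNat_of_nonneg (hJ _ (by omega))
  have hmono : StrictMono n := by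
    intro a b hab
    have : k (a + J) < k (b + J) := hk (by omega)
    rw [← hnk, ← hnk] at this
    exact_mod_cast this
  have hpow : ∀ j, (w ^ k (j + J)) p = (w ^ n j) p := by
    intro j
    rw [← hnk, zpow_natCast]
  refine neg_main hM hmono.tendsto_atTop (c := fun j => c (j + J)) (p := p) ?_ hinf ?_
  · refine (hc.comp (tendsto_add_atTop_nat J)).congr fun j => ?_
    show c (j + J) • (w ^ k (j + J)) p = _
    rw [hpow]
  · intro hall
    refine hinj (0 + J) (1 + J) (by omega) 1 ?_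
    show (w ^ k (0 + J)) p = (1 : ℝ) • (w ^ k (1 + J)) p
    rw [one_smul, hpow, hpow, hall, hall]

end Pool.Agent.X195.Cox
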