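import Pool.Agent.Helper152.WavFour

/-!
Periodisation and Parseval on one scale.
-/
open MeasureTheory Set Filter
open scoped ENNReal FourierTransform

namespace Pool.Agent.X195.FR

/-- the band `bT < |ξ| < T` -/
def Sb (b T : ℝ) : Set ℝ := {ξ | b * T < |ξ| ∧ |ξ| < T}

theorem measurableSet_Sb (b T : ℝ) : MeasurableSet (Sb b T) := by
  have h : Measurable fun ξ : ℝ => |ξ| := measurable_id.abs
  exact (measurableSet_lt measurable_const h).inter (measurableSet_lt h measurable_const)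

theorem Sb_subset (b T : ℝ) : Sb b T ⊆ Ioo (-T) T := fun ξ h => abs_lt.1 h.2

theorem memLp_ind {F : ℝ → ℂ} (hF : MemLp F 2 volume) (b T : ℝ) :
    MemLp ((Sb b T).indicator F) 2 volume := hF.indicator (measurableSet_Sb b T)

theorem integrable_ind {F : ℝ → ℂ} (hF : MemLp F 2 volume) (b T : ℝ) :
    Integrable ((Sb b T).indicator F) volume := by
  rw [integrable_indicator_iff (measurableSet_Sb b T)]
  have h1 : volume (Sb b T) < ∞ :=
    (measure_mono (Sb_subset b T)).trans_lt measure_Ioo_lt_top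
  have : IsFiniteMeasure (volume.restrict (Sb b T)) := ⟨by rwa [Measure.restrict_apply_univ]⟩
  exact (hF.mono_measure Measure.restrict_le_self).integrable (by norm_num)

/-- the periodisation on `(0,T)` -/
noncomputable def Per (F : ℝ → ℂ) (b T : ℝ) (t : ℝ) : ℂ :=
  (Sb b T).indicator F t + (Sb b T).indicator F (t - T)

theorem memLp_Per {F : ℝ → ℂ} (hF : MemLp F 2 volume) (b T : ℝ) :
    MemLp (Per F b T) 2 volume := by
  have h1 := memLp_ind hF b T
  have h2 : MemLp (fun t => (Sb b T).indicator F (t - T)) 2 volume :=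
    h1.comp_measurePreserving (measurePreserving_sub_right volume T)
  exact h1.add h2

/-- the character -/
noncomputable def ch (T : ℝ) (k : ℤ) (ξ : ℝ) : ℂ :=
  Complex.exp (2 * (Real.pi : ℂ) * Complex.I * (k : ℂ) * ((T⁻¹ * ξ : ℝ) : ℂ))

theorem norm_ch (T : ℝ) (k : ℤ) (ξ : ℝ) : ‖ch T k ξ‖ = 1 := by
  unfold ch
  have h2 : 2 * (Real.pi : ℂ) * Complex.I * (k : ℂ) * ((T⁻¹ * ξ : ℝ) : ℂ) =
      ((2 * Real.pi * k * (T⁻¹ * ξ) : ℝ) : ℂ) * Complex.I := by
    push_cast
    ring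
  rw [h2, Complex.norm_exp_ofReal_mul_I]

theorem continuous_ch (T : ℝ) (k : ℤ) : Continuous (ch T k) := by
  unfold ch
  fun_prop

theorem ch_sub {T : ℝ} (hT : 0 < T) (k : ℤ) (ξ : ℝ) : ch T k (ξ - T) = ch T k ξ := by
  unfold ch
  have h1 : 2 * (Real.pi : ℂ) * Complex.I * (k : ℂ) * ((T⁻¹ * (ξ - T) : ℝ) : ℂ) =
      2 * (Real.pi : ℂ) * Complex.I * (k : ℂ) * ((T⁻¹ * ξ : ℝ) : ℂ) +
      ((-k : ℤ) : ℂ) * (2 * (Real.pi : ℂ) * Complex.I) := by
    have : T⁻¹ * (ξ - T) = T⁻¹ * ξ - 1 := by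
      field_simp
    rw [this]
    push_cast
    ring
  rw [h1, Complex.exp_add, Complex.exp_int_mul_two_pi_mul_I, mul_one]

theorem coeff_eq {F : ℝ → ℂ} (hF : MemLp F 2 volume) {b T : ℝ} (hT : 0 < T) (k : ℤ) :
    ∫ ξ, ch T k ξ * (Sb b T).indicator F ξ = (T : ℂ) * fourierCoeffOn hT (Per F b T) (-k) := by
  set G := (Sb b T).indicator F with hG
  have hGi : Integrable G := integrable_ind hF b T
  set h : ℝ → ℂ := fun ξ => ch T k ξ * G ξ with hh
  have hhi : Integrable h := by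
    refine hGi.bdd_mul (c := 1) (continuous_ch T k).aestronglyMeasurable ?_
    exact Eventually.of_forall fun ξ => (norm_ch T k ξ).le
  have hsupp : ∀ ξ, ξ ∉ Ioc (-T) T → h ξ = 0 := by
    intro ξ hξ
    have : ξ ∉ Sb b T := fun h' => hξ ⟨(Sb_subset b T h').1, (Sb_subset b T h').2.le⟩
    rw [hh]
    simp only
    rw [hG, indicator_of_notMem this, mul_zero]
  have h1 : ∫ ξ, h ξ = ∫ ξ in (-T)..T, h ξ := by
    rw [intervalIntegral.integral_of_le (by linarith), ← integral_indicator measurableSet_Ioc]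
    congr 1
    ext ξ
    by_cases hξ : ξ ∈ Ioc (-T) T
    · rw [indicator_of_mem hξ]
    · rw [indicator_of_notMem hξ, hsupp ξ hξ]
  have h2 : ∫ ξ in (-T)..T, h ξ = (∫ ξ in (-T)..0, h ξ) + ∫ ξ in (0:ℝ)..T, h ξ :=
    (intervalIntegral.integral_add_adjacent_intervals hhi.intervalIntegrable
      hhi.intervalIntegrable).symm
  have h3 : ∫ ξ in (-T)..0, h ξ = ∫ t in (0:ℝ)..T, h (t - T) := by
    rw [intervalIntegral.integral_comp_sub_right (fun t => h t) T]
    congr 1 <;> ring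
  have hhi' : Integrable (fun t => h (t - T)) := hhi.comp_sub_right T
  rw [h1, h2, h3, ← intervalIntegral.integral_add hhi'.intervalIntegrable hhi.intervalIntegrable,
    fourierCoeffOn_eq_integral, neg_neg, sub_zero]
  have h4 : ∀ x : ℝ, h (x - T) + h x = (fourier k) (x : AddCircle T) • Per F b T x := by
    intro x
    rw [hh]
    simp only
    rw [ch_sub hT, smul_eq_mul, Per, fourier_coe_apply]
    have : ch T k x = Complex.exp (2 * (Real.pi : ℂ) * Complex.I * (k : ℂ) * x / T) := by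
      unfold ch
      congr 1
      push_cast
      field_simp
    rw [this]
    ring
  rw [intervalIntegral.integral_congr (fun x _ => h4 x)]
  rw [Complex.real_smul]
  push_cast
  rw [← mul_assoc]
  have hTc : (T : ℂ) ≠ 0 := by exact_mod_cast hT.ne'
  rw [mul_one_div_cancel hTc, one_mul]

/-- Parseval on one scale -/
theorem parseval {F : ℝ → ℂ} (hF : MemLp F 2 volume) {b T : ℝ} (hT : 0 < T) :
    ∑' k : ℤ, ‖(Real.sqrt T⁻¹ : ℂ) * ∫ ξ, ch T k ξ * (Sb b T).indicator F ξ‖ₑ ^ 2 =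
      ∫⁻ t in Ioo 0 T, ‖Per F b T t‖ₑ ^ 2 := by
  have hP := memLp_Per hF b T
  have hPr : MemLp (Per F b T) 2 (volume.restrict (Ioc 0 T)) := hP.mono_measure Measure.restrict_le_self
  have hs := hasSum_sq_fourierCoeffOn hT hPr
  have hs' : HasSum (fun k : ℤ => ‖fourierCoeffOn hT (Per F b T) (-k)‖ ^ 2)
      ((T - 0)⁻¹ • ∫ x in (0:ℝ)..T, ‖Per F b T x‖ ^ 2) := (Equiv.neg ℤ).hasSum_iff.2 hs
  have hterm : ∀ k : ℤ, ‖(Real.sqrt T⁻¹ : ℂ) * ∫ ξ, ch T k ξ * (Sb b T).indicator F ξ‖ₑ ^ 2 =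
      ENNReal.ofReal (T * ‖fourierCoeffOn hT (Per F b T) (-k)‖ ^ 2) := by
    intro k
    rw [coeff_eq hF hT, ← ofReal_norm, ← ENNReal.ofReal_pow (norm_nonneg _)]
    congr 1
    rw [norm_mul, norm_mul, Complex.norm_real, Complex.norm_real,
      Real.norm_of_nonneg (Real.sqrt_nonneg _), Real.norm_of_nonneg hT.le, mul_pow, mul_pow,
      Real.sq_sqrt (inv_nonneg.2 hT.le)]
    field_simp
  rw [tsum_congr hterm, ← ENNReal.ofReal_tsum_of_nonneg (fun k => by positivity)
    (hs'.summable.mul_left T), tsum_mul_left, hs'.tsum_eq, sub_zero, smul_eq_mul, ← mul_assoc,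
    mul_inv_cancel₀ hT.ne', one_mul, intervalIntegral.integral_of_le hT.le,
    ofReal_integral_eq_lintegral_ofReal hPr.integrable_norm_pow' (ae_of_all _ fun x => by positivity)]
  · rw [← Measure.restrict_congr_set (Ioo_ae_eq_Ioc (μ := (volume : Measure ℝ)))]
    refine lintegral_congr fun x => ?_
    rw [ENNReal.ofReal_pow (norm_nonneg _), ofReal_norm]

end Pool.Agent.X195.FR
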