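import Pool.Agent.X195.FR1

/-!
The weighted inequality on one scale and the summation over the scales.
-/
open MeasureTheory Set Filter
open scoped ENNReal FourierTransform

namespace Pool.Agent.X195.FR

open Classical in
/-- positive weights -/
noncomputable def pp (b y : ℝ) : ℝ :=
  if b ≤ y ∧ y < 2 * b then 3 / 8 else if 2 * b ≤ y ∧ y < 1 / 2 then 1 / 4
  else if 1 - b ≤ y ∧ y < 1 then 1 else 0

open Classical in
/-- negative weights -/
noncomputable def nn (b y : ℝ) : ℝ :=
  if 1 / 2 ≤ y ∧ y < 1 - 2 * b then 1 / 3 else if 1 - 2 * b ≤ y ∧ y < 1 - b then 3 / 5 else 0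

theorem pp_nonneg (b y : ℝ) : 0 ≤ pp b y := by
  unfold pp
  split_ifs <;> norm_num

theorem nn_nonneg (b y : ℝ) : 0 ≤ nn b y := by
  unfold nn
  split_ifs <;> norm_num

open Classical in
theorem key_aux {b y : ℝ} (hb0 : 1 / 8 < b) (hb : b ≤ 1 / 6) (hy0 : 0 < y) (hy : y < 1 / 2)
    (hyb : y ≠ b) (z w : ℂ) :
    pp b y * ‖z‖ ^ 2 + pp b (1 - y) * ‖w‖ ^ 2 ≤
      ‖(if b < y then z else 0) + (if b < 1 - y then w else 0)‖ ^ 2 +
        (nn b y * ‖z‖ ^ 2 + nn b (1 - y) * ‖w‖ ^ 2) := by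
  have h1y : b < 1 - y := by linarith
  rw [if_pos h1y]
  rcases lt_or_gt_of_ne hyb with h | h
  · have e1 : pp b y = 0 := by
      unfold pp
      rw [if_neg (by rintro ⟨h1, h2⟩; linarith), if_neg (by rintro ⟨h1, h2⟩; linarith),
        if_neg (by rintro ⟨h1, h2⟩; linarith)]
    have e2 : pp b (1 - y) = 1 := by
      unfold pp
      rw [if_neg (by rintro ⟨h1, h2⟩; linarith), if_neg (by rintro ⟨h1, h2⟩; linarith),
        if_pos ⟨by linarith, by linarith⟩]
    rw [if_neg (by linarith), e1, e2, zero_add, zero_mul, zero_add, one_mul]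
    have := nn_nonneg b y
    have := nn_nonneg b (1 - y)
    nlinarith [sq_nonneg ‖z‖, sq_nonneg ‖w‖, mul_nonneg (nn_nonneg b y) (sq_nonneg ‖z‖),
      mul_nonneg (nn_nonneg b (1 - y)) (sq_nonneg ‖w‖)]
  · rw [if_pos h]
    have e2 : pp b (1 - y) = 0 := by
      unfold pp
      rw [if_neg (by rintro ⟨h1, h2⟩; linarith), if_neg (by rintro ⟨h1, h2⟩; linarith),
        if_neg (by rintro ⟨h1, h2⟩; linarith)]
    have hzw : (‖z‖ - ‖w‖) ^ 2 ≤ ‖z + w‖ ^ 2 := by
      have h3 := abs_norm_sub_norm_le z (-w)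
      rw [norm_neg, sub_neg_eq_add] at h3
      rw [← sq_abs (‖z‖ - ‖w‖)]
      exact pow_le_pow_left₀ (abs_nonneg _) h3 2
    have hn0 := mul_nonneg (nn_nonneg b y) (sq_nonneg ‖z‖)
    rw [e2, zero_mul, add_zero]
    by_cases h2 : y < 2 * b
    · have e1 : pp b y = 3 / 8 := by
        unfold pp
        rw [if_pos ⟨h.le, h2⟩]
      have e3 : nn b (1 - y) = 3 / 5 := by
        unfold nn
        rw [if_neg (by rintro ⟨h1, h2⟩; linarith), if_pos ⟨by linarith, by linarith⟩]
      rw [e1, e3]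
      nlinarith [sq_nonneg (‖z‖ - 8 / 5 * ‖w‖)]
    · push Not at h2
      have e1 : pp b y = 1 / 4 := by
        unfold pp
        rw [if_neg (by rintro ⟨h1, h2⟩; linarith), if_pos ⟨h2, hy⟩]
      have e3 : 1 / 3 ≤ nn b (1 - y) := by
        unfold nn
        split_ifs with h5 h6
        · exact le_rfl
        · norm_num
        · exfalso
          by_cases h7 : 1 - y < 1 - 2 * b
          · exact h5 ⟨by linarith, h7⟩
          · exact h6 ⟨by linarith, by linarith⟩
      rw [e1]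
      nlinarith [sq_nonneg (‖z‖ - 4 / 3 * ‖w‖), mul_le_mul_of_nonneg_right e3 (sq_nonneg ‖w‖)]

open Classical in
theorem key {b y : ℝ} (hb0 : 1 / 8 < b) (hb : b ≤ 1 / 6) (hy0 : 0 < y) (hy1 : y < 1)
    (hyb : y ≠ b) (hyh : y ≠ 1 / 2) (hyb' : y ≠ 1 - b) (z w : ℂ) :
    pp b y * ‖z‖ ^ 2 + pp b (1 - y) * ‖w‖ ^ 2 ≤
      ‖(if b < y then z else 0) + (if b < 1 - y then w else 0)‖ ^ 2 +
        (nn b y * ‖z‖ ^ 2 + nn b (1 - y) * ‖w‖ ^ 2) := by
  rcases lt_or_gt_of_ne hyh with h | h
  · exact key_aux hb0 hb hy0 h hyb z w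
  · have h1 := key_aux (y := 1 - y) hb0 hb (by linarith) (by linarith)
      (fun h' => hyb' (by linarith)) w z
    rw [sub_sub_cancel] at h1
    rw [add_comm (if b < y then z else 0)]
    linarith

/-- folding of an integral -/
theorem fold_lintegral {T : ℝ} (_hT : 0 < T) (H : ℝ → ℝ≥0∞) (hH : Measurable H)
    (h0 : ∀ ξ, T ≤ |ξ| → H ξ = 0) :
    ∫⁻ t in Ioo 0 T, (H t + H (t - T)) = ∫⁻ ξ, H ξ := by
  rw [lintegral_add_left hH]
  have h1 : ∫⁻ t in Ioo 0 T, H (t - T) = ∫⁻ ξ in Ioo (-T) 0, H ξ := by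
    rw [← lintegral_indicator measurableSet_Ioo, ← lintegral_indicator measurableSet_Ioo]
    rw [← lintegral_sub_right_eq_self (fun ξ => (Ioo (-T) 0).indicator H ξ) T]
    refine lintegral_congr fun t => ?_
    by_cases ht : t ∈ Ioo 0 T
    · rw [indicator_of_mem ht, indicator_of_mem
        (show t - T ∈ Ioo (-T) 0 from ⟨by linarith [ht.1], by linarith [ht.2]⟩)]
    · rw [indicator_of_notMem ht, indicator_of_notMem]
      intro h
      exact ht ⟨by linarith [h.1], by linarith [h.2]⟩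
  rw [h1, ← lintegral_indicator measurableSet_Ioo, ← lintegral_indicator measurableSet_Ioo,
    ← lintegral_add_left (hH.indicator measurableSet_Ioo)]
  refine lintegral_congr_ae ?_
  have hne : ∀ᵐ ξ : ℝ, ξ ≠ 0 := by simp [ae_iff]
  filter_upwards [hne] with ξ hξ
  by_cases hp : ξ ∈ Ioo 0 T
  · rw [indicator_of_mem hp, indicator_of_notMem (fun h => by linarith [h.2, hp.1]), add_zero]
  · by_cases hn : ξ ∈ Ioo (-T) 0
    · rw [indicator_of_notMem hp, indicator_of_mem hn, zero_add]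
    · rw [indicator_of_notMem hp, indicator_of_notMem hn, add_zero, h0]
      by_contra hcon
      push Not at hcon
      rw [abs_lt] at hcon
      rcases lt_or_gt_of_ne hξ with h | h
      · exact hn ⟨hcon.1, h⟩
      · exact hp ⟨h, hcon.2⟩

theorem measurable_pp (b : ℝ) : Measurable (pp b) := by
  unfold pp
  refine Measurable.ite (measurableSet_Ico) measurable_const ?_
  refine Measurable.ite (measurableSet_Ico) measurable_const ?_
  exact Measurable.ite (measurableSet_Ico) measurable_const measurable_const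

theorem measurable_nn (b : ℝ) : Measurable (nn b) := by
  unfold nn
  refine Measurable.ite (measurableSet_Ico) measurable_const ?_
  exact Measurable.ite (measurableSet_Ico) measurable_const measurable_const

/-- weighted energy -/
noncomputable def En (w : ℝ → ℝ) (T : ℝ) (F : ℝ → ℂ) (ξ : ℝ) : ℝ≥0∞ :=
  ENNReal.ofReal (w (|ξ| / T)) * ‖F ξ‖ₑ ^ 2

theorem measurable_En {w : ℝ → ℝ} (hw : Measurable w) (T : ℝ) {F : ℝ → ℂ} (hF : Measurable F) :
    Measurable (En w T F) := by
  unfold En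
  exact (ENNReal.measurable_ofReal.comp (hw.comp (measurable_id.abs.div_const T))).mul
    (hF.enorm.pow_const 2)

theorem one_scale {b : ℝ} (hb0 : 1 / 8 < b) (hb : b ≤ 1 / 6) {T : ℝ} (hT : 0 < T) {F : ℝ → ℂ}
    (hF : Measurable F) :
    ∫⁻ ξ, En (pp b) T F ξ ≤ (∫⁻ t in Ioo 0 T, ‖Per F b T t‖ₑ ^ 2) + ∫⁻ ξ, En (nn b) T F ξ := by
  have hp0 : ∀ ξ, T ≤ |ξ| → En (pp b) T F ξ = 0 := by
    intro ξ hξ
    have h1 : 1 ≤ |ξ| / T := by rwa [one_le_div hT]
    have : pp b (|ξ| / T) = 0 := by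
      unfold pp
      rw [if_neg (by rintro ⟨h1, h2⟩; linarith), if_neg (by rintro ⟨h1, h2⟩; linarith),
        if_neg (by rintro ⟨h1, h2⟩; linarith)]
    rw [En, this, ENNReal.ofReal_zero, zero_mul]
  have hn0 : ∀ ξ, T ≤ |ξ| → En (nn b) T F ξ = 0 := by
    intro ξ hξ
    have h1 : 1 ≤ |ξ| / T := by rwa [one_le_div hT]
    have : nn b (|ξ| / T) = 0 := by
      unfold nn
      rw [if_neg (by rintro ⟨h1, h2⟩; linarith), if_neg (by rintro ⟨h1, h2⟩; linarith)]
    rw [En, this, ENNReal.ofReal_zero, zero_mul]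
  have hm : Measurable (fun t => En (nn b) T F t + En (nn b) T F (t - T)) :=
    (measurable_En (measurable_nn b) T hF).add
      ((measurable_En (measurable_nn b) T hF).comp (measurable_id.sub_const T))
  rw [← fold_lintegral hT _ (measurable_En (measurable_pp b) T hF) hp0,
    ← fold_lintegral hT _ (measurable_En (measurable_nn b) T hF) hn0,
    ← lintegral_add_right _ hm]
  have hne : ∀ᵐ t : ℝ, t ≠ b * T ∧ t ≠ T / 2 ∧ t ≠ (1 - b) * T := by
    have h1 : ∀ c : ℝ, ∀ᵐ t : ℝ, t ≠ c := fun c => by simp [ae_iff]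
    filter_upwards [h1 (b * T), h1 (T / 2), h1 ((1 - b) * T)] with t a1 a2 a3
    exact ⟨a1, a2, a3⟩
  refine setLIntegral_mono_ae' measurableSet_Ioo ?_
  filter_upwards [hne] with t ht htI
  have hy0 : 0 < t / T := div_pos htI.1 hT
  have hy1 : t / T < 1 := by
    rw [div_lt_one hT]
    exact htI.2
  have e1 : |t| / T = t / T := by rw [abs_of_pos htI.1]
  have e2 : |t - T| / T = 1 - t / T := by
    rw [abs_of_neg (by linarith [htI.2])]
    field_simp
    ring
  have hk := key (y := t / T) hb0 hb hy0 hy1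
    (fun h => ht.1 (by rw [← h]; field_simp)) (fun h => ht.2.1 (by
      rw [div_eq_iff hT.ne'] at h
      linarith)) (fun h => ht.2.2 (by rw [← h]; field_simp)) (F t) (F (t - T))
  have hPer : Per F b T t = (if b < t / T then F t else 0) +
      (if b < 1 - t / T then F (t - T) else 0) := by
    unfold Per
    congr 1
    · by_cases h : b < t / T
      · rw [if_pos h, indicator_of_mem]
        refine ⟨?_, ?_⟩
        · rw [abs_of_pos htI.1]
          rwa [lt_div_iff₀ hT] at h
        · rw [abs_of_pos htI.1]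
          exact htI.2
      · rw [if_neg h, indicator_of_notMem]
        rintro ⟨h1, _⟩
        apply h
        rw [abs_of_pos htI.1] at h1
        rwa [lt_div_iff₀ hT]
    · by_cases h : b < 1 - t / T
      · rw [if_pos h, indicator_of_mem]
        refine ⟨?_, ?_⟩
        · rwa [← e2, lt_div_iff₀ hT] at h
        · rw [abs_of_neg (by linarith [htI.2])]
          linarith [htI.1]
      · rw [if_neg h, indicator_of_notMem]
        rintro ⟨h1, _⟩
        apply h
        rwa [← e2, lt_div_iff₀ hT]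
  have hconv : ∀ (w : ℝ → ℝ), (∀ y, 0 ≤ w y) →
      En w T F t + En w T F (t - T) =
        ENNReal.ofReal (w (t / T) * ‖F t‖ ^ 2 + w (1 - t / T) * ‖F (t - T)‖ ^ 2) := by
    intro w hw
    rw [ENNReal.ofReal_add (mul_nonneg (hw _) (sq_nonneg _)) (mul_nonneg (hw _) (sq_nonneg _)),
      ENNReal.ofReal_mul (hw _), ENNReal.ofReal_mul (hw _), ENNReal.ofReal_pow (norm_nonneg _),
      ENNReal.ofReal_pow (norm_nonneg _), ofReal_norm, ofReal_norm, En, En, e1, e2]
  rw [hconv _ (pp_nonneg b)]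
  have hconv2 := hconv _ (nn_nonneg b)
  show _ ≤ ‖Per F b T t‖ₑ ^ 2 + (En (nn b) T F t + En (nn b) T F (t - T))
  rw [hconv2, ← ofReal_norm (Per F b T t), ← ENNReal.ofReal_pow (norm_nonneg _),
    ← ENNReal.ofReal_add (sq_nonneg _) (by
      have := nn_nonneg b (t / T)
      have := nn_nonneg b (1 - t / T)
      positivity)]
  apply ENNReal.ofReal_le_ofReal
  rw [hPer]
  exact hk

open Classical in
/-- upper weights -/
noncomputable def uu (b y : ℝ) : ℝ := if b < y ∧ y < 1 then 2 else 0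

theorem uu_nonneg (b y : ℝ) : 0 ≤ uu b y := by
  unfold uu
  split_ifs <;> norm_num

theorem measurable_uu (b : ℝ) : Measurable (uu b) := by
  unfold uu
  exact Measurable.ite (measurableSet_Ioo) measurable_const measurable_const

theorem one_scale_upper {b : ℝ} {T : ℝ} (hT : 0 < T) {F : ℝ → ℂ}
    (hF : Measurable F) :
    (∫⁻ t in Ioo 0 T, ‖Per F b T t‖ₑ ^ 2) ≤ ∫⁻ ξ, En (uu b) T F ξ := by
  have hu0 : ∀ ξ, T ≤ |ξ| → En (uu b) T F ξ = 0 := by
    intro ξ hξ
    have h1 : 1 ≤ |ξ| / T := by rwa [one_le_div hT]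
    have : uu b (|ξ| / T) = 0 := by
      unfold uu
      rw [if_neg (by rintro ⟨h1, h2⟩; linarith)]
    rw [En, this, ENNReal.ofReal_zero, zero_mul]
  rw [← fold_lintegral hT _ (measurable_En (measurable_uu b) T hF) hu0]
  refine lintegral_mono fun t => ?_
  have hind : ∀ ξ, ENNReal.ofReal (2 * ‖(Sb b T).indicator F ξ‖ ^ 2) ≤ En (uu b) T F ξ := by
    intro ξ
    by_cases h : ξ ∈ Sb b T
    · rw [indicator_of_mem h]
      have : uu b (|ξ| / T) = 2 := by
        unfold uu
        rw [if_pos]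
        exact ⟨by rw [lt_div_iff₀ hT]; exact h.1, by rw [div_lt_one hT]; exact h.2⟩
      rw [En, this, ENNReal.ofReal_mul (by norm_num), ENNReal.ofReal_pow (norm_nonneg _), ofReal_norm]
    · rw [indicator_of_notMem h]
      simp
  show ‖Per F b T t‖ₑ ^ 2 ≤ En (uu b) T F t + En (uu b) T F (t - T)
  refine le_trans ?_ (add_le_add (hind t) (hind (t - T)))
  rw [← ENNReal.ofReal_add (by positivity) (by positivity), ← ofReal_norm,
    ← ENNReal.ofReal_pow (norm_nonneg _)]
  apply ENNReal.ofReal_le_ofReal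
  unfold Per
  have h1 := norm_add_le ((Sb b T).indicator F t) ((Sb b T).indicator F (t - T))
  nlinarith [norm_nonneg ((Sb b T).indicator F t), norm_nonneg ((Sb b T).indicator F (t - T)),
    norm_nonneg ((Sb b T).indicator F t + (Sb b T).indicator F (t - T)),
    sq_nonneg (‖(Sb b T).indicator F t‖ - ‖(Sb b T).indicator F (t - T)‖)]

end Pool.Agent.X195.FR
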