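import Pool.Agent.X195.FR2

/-!
Summation over the scales, and the frame inequality.
-/
open MeasureTheory Set Filter
open scoped ENNReal FourierTransform InnerProductSpace

namespace Pool.Agent.X195.FR

theorem exists_scale {x : ℝ} (hx : 0 < x) : ∃ J : ℤ, 1 / 2 ≤ x / (2:ℝ) ^ J ∧ x / (2:ℝ) ^ J < 1 := by
  obtain ⟨n, hn1, hn2⟩ := exists_mem_Ico_zpow hx (show (1:ℝ) < 2 by norm_num)
  have h2 : (0:ℝ) < (2:ℝ) ^ (n + 1) := by positivity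
  refine ⟨n + 1, ?_, ?_⟩
  · rw [le_div_iff₀ h2, zpow_add_one₀ (by norm_num)]
    linarith
  · rw [div_lt_one h2]
    exact hn2

theorem div_zpow (x : ℝ) (J : ℤ) (i : ℤ) : x / (2:ℝ) ^ (J + i) = x / (2:ℝ) ^ J / (2:ℝ) ^ i := by
  rw [zpow_add₀ (by norm_num), div_div]

theorem scale_low {x : ℝ} {J j : ℤ} (h1 : 1 / 2 ≤ x / (2:ℝ) ^ J) (hj : j < J) :
    1 ≤ x / (2:ℝ) ^ j := by
  have h2 : x / (2:ℝ) ^ j = x / (2:ℝ) ^ J * (2:ℝ) ^ (J - j) := by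
    rw [zpow_sub₀ (by norm_num)]
    have : (0:ℝ) < (2:ℝ) ^ J := by positivity
    have : (0:ℝ) < (2:ℝ) ^ j := by positivity
    field_simp
  rw [h2]
  have h3 : (2:ℝ) ^ (1:ℤ) ≤ (2:ℝ) ^ (J - j) := zpow_le_zpow_right₀ (by norm_num) (by omega)
  rw [zpow_one] at h3
  nlinarith

theorem scale_high {x : ℝ} {J j : ℤ} (i : ℤ) (h2 : x / (2:ℝ) ^ J < 1) (hx : 0 < x) (hj : J + i ≤ j) :
    x / (2:ℝ) ^ j < ((2:ℝ) ^ i)⁻¹ := by
  have h3 : x / (2:ℝ) ^ j = x / (2:ℝ) ^ J * ((2:ℝ) ^ (j - J))⁻¹ := by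
    rw [zpow_sub₀ (by norm_num)]
    have : (0:ℝ) < (2:ℝ) ^ J := by positivity
    have : (0:ℝ) < (2:ℝ) ^ j := by positivity
    field_simp
  rw [h3]
  have h4 : ((2:ℝ) ^ (j - J))⁻¹ ≤ ((2:ℝ) ^ i)⁻¹ := by
    apply inv_anti₀ (by positivity)
    exact zpow_le_zpow_right₀ (by norm_num) (by omega)
  have h5 : (0:ℝ) < ((2:ℝ) ^ (j - J))⁻¹ := by positivity
  have h6 : 0 < x / (2:ℝ) ^ J := by positivity
  nlinarith

theorem real_claim {b y : ℝ} (hb0 : 1 / 8 < b) (hb : b ≤ 1 / 6) (h1 : 1 / 2 ≤ y) (h2 : y < 1) :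
    nn b y + 1 / 40 ≤ pp b y + (pp b (y / 2) + pp b (y / 4)) := by
  by_cases c1 : y < 4 * b
  · have e1 : pp b (y / 2) = 3 / 8 := by
      unfold pp
      rw [if_pos ⟨by linarith, by linarith⟩]
    have e2 : nn b y = 1 / 3 := by
      unfold nn
      rw [if_pos ⟨by linarith, by linarith⟩]
    rw [e1, e2]
    have := pp_nonneg b y
    have := pp_nonneg b (y / 4)
    linarith
  · push Not at c1
    have e1 : pp b (y / 2) = 1 / 4 := by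
      unfold pp
      rw [if_neg (by rintro ⟨h1, h2⟩; linarith), if_pos ⟨by linarith, by linarith⟩]
    have e2 : pp b (y / 4) = 3 / 8 := by
      unfold pp
      rw [if_pos ⟨by linarith, by linarith⟩]
    have e3 : nn b y ≤ 3 / 5 := by
      unfold nn
      split_ifs <;> norm_num
    rw [e1, e2]
    have := pp_nonneg b y
    linarith

theorem nn_tsum {b x : ℝ} (hb0 : 1 / 8 < b) (hb : b ≤ 1 / 6) {J : ℤ} (h1 : 1 / 2 ≤ x / (2:ℝ) ^ J)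
    (h2 : x / (2:ℝ) ^ J < 1) (hx : 0 < x) :
    ∑' j : ℤ, ENNReal.ofReal (nn b (x / (2:ℝ) ^ j)) = ENNReal.ofReal (nn b (x / (2:ℝ) ^ J)) := by
  refine tsum_eq_single J fun j hj => ?_
  have : nn b (x / (2:ℝ) ^ j) = 0 := by
    rcases lt_or_gt_of_ne hj with h | h
    · have h3 := scale_low h1 h
      unfold nn
      rw [if_neg (by rintro ⟨h4, h5⟩; linarith), if_neg (by rintro ⟨h4, h5⟩; linarith)]
    · have h3 := scale_high (j := j) 1 h2 hx (by omega)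
      rw [zpow_one] at h3
      unfold nn
      rw [if_neg (by rintro ⟨h4, h5⟩; linarith), if_neg (by rintro ⟨h4, h5⟩; linarith)]
  rw [this, ENNReal.ofReal_zero]

theorem pp_ge {b : ℝ} (hb0 : 1 / 8 < b) (hb : b ≤ 1 / 6) {x : ℝ} (hx : 0 < x) :
    (∑' j : ℤ, ENNReal.ofReal (nn b (x / (2:ℝ) ^ j))) + ENNReal.ofReal (1 / 40) ≤
      ∑' j : ℤ, ENNReal.ofReal (pp b (x / (2:ℝ) ^ j)) := by
  obtain ⟨J, h1, h2⟩ := exists_scale hx
  rw [nn_tsum hb0 hb h1 h2 hx, ← ENNReal.ofReal_add (nn_nonneg _ _) (by norm_num)]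
  refine (ENNReal.ofReal_le_ofReal (real_claim hb0 hb h1 h2)).trans ?_
  have h3 := ENNReal.sum_le_tsum (f := fun j : ℤ => ENNReal.ofReal (pp b (x / (2:ℝ) ^ j)))
    ({J, J + 1, J + 2} : Finset ℤ)
  refine le_trans ?_ h3
  rw [Finset.sum_insert (by simp), Finset.sum_insert (by simp), Finset.sum_singleton,
    ENNReal.ofReal_add (pp_nonneg _ _) (add_nonneg (pp_nonneg _ _) (pp_nonneg _ _)),
    ENNReal.ofReal_add (pp_nonneg _ _) (pp_nonneg _ _)]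
  rw [div_zpow x J 1, div_zpow x J 2]
  norm_num

theorem uu_le {b : ℝ} (hb0 : 1 / 8 < b) {x : ℝ} (hx : 0 < x) :
    ∑' j : ℤ, ENNReal.ofReal (uu b (x / (2:ℝ) ^ j)) ≤ 6 := by
  obtain ⟨J, h1, h2⟩ := exists_scale hx
  rw [tsum_eq_sum (s := ({J, J + 1, J + 2} : Finset ℤ))]
  · have h3 : ∀ j : ℤ, ENNReal.ofReal (uu b (x / (2:ℝ) ^ j)) ≤ 2 := by
      intro j
      unfold uu
      split_ifs
      · simp
      · simp
    rw [Finset.sum_insert (by simp), Finset.sum_insert (by simp), Finset.sum_singleton]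
    calc _ ≤ (2 : ℝ≥0∞) + (2 + 2) := add_le_add (h3 _) (add_le_add (h3 _) (h3 _))
      _ = 6 := by norm_num
  · intro j hj
    have hj' : j ≠ J ∧ j ≠ J + 1 ∧ j ≠ J + 2 := by
      refine ⟨?_, ?_, ?_⟩ <;> rintro rfl <;> simp at hj
    have : uu b (x / (2:ℝ) ^ j) = 0 := by
      unfold uu
      rw [if_neg]
      rintro ⟨h3, h4⟩
      rcases lt_or_ge j J with h | h
      · have h5 := scale_low h1 h
        linarith
      · have h5 := scale_high (j := j) 3 h2 hx (by omega)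
        norm_num at h5
        linarith
    rw [this, ENNReal.ofReal_zero]

/-- all scales, lower bound -/
theorem lower {b : ℝ} (hb0 : 1 / 8 < b) (hb : b ≤ 1 / 6) {F : ℝ → ℂ} (hF : Measurable F)
    (hfin : ∫⁻ ξ, ‖F ξ‖ₑ ^ 2 ≠ ∞) :
    ENNReal.ofReal (1 / 40) * ∫⁻ ξ, ‖F ξ‖ₑ ^ 2 ≤
      ∑' j : ℤ, ∫⁻ t in Ioo 0 ((2:ℝ) ^ j), ‖Per F b ((2:ℝ) ^ j) t‖ₑ ^ 2 := by
  have hpm : ∀ j : ℤ, Measurable (En (pp b) ((2:ℝ) ^ j) F) := fun j =>
    measurable_En (measurable_pp b) _ hF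
  have hnm : ∀ j : ℤ, Measurable (En (nn b) ((2:ℝ) ^ j) F) := fun j =>
    measurable_En (measurable_nn b) _ hF
  have h1 : ∑' j : ℤ, ∫⁻ ξ, En (pp b) ((2:ℝ) ^ j) F ξ ≤
      (∑' j : ℤ, ∫⁻ t in Ioo 0 ((2:ℝ) ^ j), ‖Per F b ((2:ℝ) ^ j) t‖ₑ ^ 2) +
      ∑' j : ℤ, ∫⁻ ξ, En (nn b) ((2:ℝ) ^ j) F ξ := by
    rw [← ENNReal.tsum_add]
    exact ENNReal.tsum_le_tsum fun j => one_scale hb0 hb (by positivity) hF
  rw [← lintegral_tsum (fun j => (hpm j).aemeasurable),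
    ← lintegral_tsum (fun j => (hnm j).aemeasurable)] at h1
  have hne : ∀ᵐ ξ : ℝ, ξ ≠ 0 := by simp [ae_iff]
  have h2 : (∫⁻ ξ, ∑' j : ℤ, En (nn b) ((2:ℝ) ^ j) F ξ) + ENNReal.ofReal (1 / 40) * ∫⁻ ξ, ‖F ξ‖ₑ ^ 2 ≤
      ∫⁻ ξ, ∑' j : ℤ, En (pp b) ((2:ℝ) ^ j) F ξ := by
    rw [← lintegral_const_mul _ (hF.enorm.pow_const 2),
      ← lintegral_add_left (Measurable.tsum hnm)]
    refine lintegral_mono_ae ?_
    filter_upwards [hne] with ξ hξ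
    have h3 := pp_ge hb0 hb (abs_pos.2 hξ)
    simp only [En]
    rw [ENNReal.tsum_mul_right, ENNReal.tsum_mul_right, ← add_mul]
    gcongr
  have h4 : ∫⁻ ξ, ∑' j : ℤ, En (nn b) ((2:ℝ) ^ j) F ξ ≠ ∞ := by
    refine ne_top_of_le_ne_top hfin (lintegral_mono_ae ?_)
    filter_upwards [hne] with ξ hξ
    obtain ⟨J, h5, h6⟩ := exists_scale (abs_pos.2 hξ)
    simp only [En]
    rw [ENNReal.tsum_mul_right, nn_tsum hb0 hb h5 h6 (abs_pos.2 hξ)]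
    have h7 : nn b (|ξ| / (2:ℝ) ^ J) ≤ 1 := by
      unfold nn
      split_ifs <;> norm_num
    calc ENNReal.ofReal (nn b (|ξ| / (2:ℝ) ^ J)) * ‖F ξ‖ₑ ^ 2 ≤ 1 * ‖F ξ‖ₑ ^ 2 := by
          gcongr
          rw [← ENNReal.ofReal_one]
          exact ENNReal.ofReal_le_ofReal h7
      _ = ‖F ξ‖ₑ ^ 2 := one_mul _
  have h8 := h2.trans h1
  rw [add_comm, ] at h8
  exact (ENNReal.add_le_add_iff_right h4).1 h8

/-- all scales, upper bound -/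
theorem upper {b : ℝ} (hb0 : 1 / 8 < b) {F : ℝ → ℂ} (hF : Measurable F) :
    ∑' j : ℤ, ∫⁻ t in Ioo 0 ((2:ℝ) ^ j), ‖Per F b ((2:ℝ) ^ j) t‖ₑ ^ 2 ≤
      6 * ∫⁻ ξ, ‖F ξ‖ₑ ^ 2 := by
  have hum : ∀ j : ℤ, Measurable (En (uu b) ((2:ℝ) ^ j) F) := fun j =>
    measurable_En (measurable_uu b) _ hF
  refine (ENNReal.tsum_le_tsum fun j => one_scale_upper (by positivity) hF).trans ?_
  rw [← lintegral_tsum (fun j => (hum j).aemeasurable), ← lintegral_const_mul _ (hF.enorm.pow_const 2)]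
  have hne : ∀ᵐ ξ : ℝ, ξ ≠ 0 := by simp [ae_iff]
  refine lintegral_mono_ae ?_
  filter_upwards [hne] with ξ hξ
  have h3 := uu_le hb0 (abs_pos.2 hξ)
  simp only [En]
  rw [ENNReal.tsum_mul_right]
  gcongr

end Pool.Agent.X195.FR
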