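import Mathlib

/-!
Fibres of a Lipschitz map to `ℝ × ℝ^k` over a set of finite `(k+1)`-dimensional Hausdorff measure
are finite for almost every value.
-/
open MeasureTheory Set Filter Topology
open scoped ENNReal NNReal MeasureTheory

namespace Pool.Agent.X195.GH
set_option linter.unusedSectionVars false

variable {E : Type*} [MetricSpace E] [MeasurableSpace E] [BorelSpace E]

/-- covers by sets of small diameter -/
theorem exists_cover (d : ℝ) (A : Set E) (hA : μH[d] A < ∞) (r : ℝ≥0∞) (hr : 0 < r) :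
    ∃ t : ℕ → Set E, A ⊆ ⋃ n, t n ∧ (∀ n, Metric.ediam (t n) ≤ r) ∧
      ∑' n, ⨆ _ : (t n).Nonempty, Metric.ediam (t n) ^ d ≤ μH[d] A + 1 := by
  by_contra hcon
  push Not at hcon
  have h1 : μH[d] A + 1 ≤ ⨅ (t : ℕ → Set E) (_ : A ⊆ ⋃ n, t n) (_ : ∀ n, Metric.ediam (t n) ≤ r),
          ∑' n, ⨆ _ : (t n).Nonempty, Metric.ediam (t n) ^ d := by
    refine le_iInf fun t => le_iInf fun h => le_iInf fun h' => ?_
    exact (hcon t h h').le
  have h2 : (⨅ (t : ℕ → Set E) (_ : A ⊆ ⋃ n, t n) (_ : ∀ n, Metric.ediam (t n) ≤ r),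
          ∑' n, ⨆ _ : (t n).Nonempty, Metric.ediam (t n) ^ d) ≤ μH[d] A := by
    rw [Measure.hausdorffMeasure_apply d A]
    exact le_iSup₂ (f := fun (r : ℝ≥0∞) (_ : 0 < r) =>
        ⨅ (t : ℕ → Set E) (_ : A ⊆ ⋃ n, t n) (_ : ∀ n, Metric.ediam (t n) ≤ r),
          ∑' n, ⨆ _ : (t n).Nonempty, Metric.ediam (t n) ^ d) r hr
  have h3 := h1.trans h2
  have h4 : μH[d] A < μH[d] A + 1 := ENNReal.lt_add_right hA.ne one_ne_zero
  exact absurd h3 (not_le.2 h4)

/-- The target space `ℝ × ℝ^k` with the maximum metric. -/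
abbrev Y (k : ℕ) := ℝ × (Fin k → ℝ)

theorem volume_closedBall_Y (k : ℕ) (z : Y k) (r : ℝ) (hr : 0 ≤ r) :
    volume (Metric.closedBall z r) = ENNReal.ofReal (2 * r) ^ (k + 1) := by
  obtain ⟨t, x⟩ := z
  rw [← closedBall_prod_same, Measure.volume_eq_prod, Measure.prod_prod, Real.volume_closedBall,
    Real.volume_pi_closedBall _ hr, pow_succ, Fintype.card_fin, mul_comm,
    ← ENNReal.ofReal_pow (by positivity)]

open Classical in
/-- the closed ball around the image of a set -/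
noncomputable def Bl {k : ℕ} (π : E → Y k) (s : Set E) : Set (Y k) :=
  if h : s.Nonempty then Metric.closedBall (π h.some) (Metric.ediam s).toReal else ∅

theorem measurableSet_Bl {k : ℕ} (π : E → Y k) (s : Set E) : MeasurableSet (Bl π s) := by
  unfold Bl
  split_ifs
  · exact Metric.isClosed_closedBall.measurableSet
  · exact MeasurableSet.empty

theorem volume_Bl {k : ℕ} (π : E → Y k) (s : Set E) (hs : Metric.ediam s ≤ 1) :
    volume (Bl π s) ≤ 2 ^ (k + 1) * ⨆ _ : s.Nonempty, Metric.ediam s ^ ((k + 1 : ℕ) : ℝ) := by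
  unfold Bl
  split_ifs with h
  · rw [volume_closedBall_Y _ _ _ ENNReal.toReal_nonneg, iSup_pos h, ENNReal.rpow_natCast,
      ENNReal.ofReal_mul (by norm_num), ENNReal.ofReal_toReal (ne_top_of_le_ne_top (by simp) hs),
      mul_pow]
    simp
  · simp

theorem mem_Bl {k : ℕ} (π : E → Y k) (hπ : LipschitzWith 1 π) (s : Set E)
    (hs : Metric.ediam s ≤ 1) {x : E} (hx : x ∈ s) : π x ∈ Bl π s := by
  have h : s.Nonempty := ⟨x, hx⟩
  unfold Bl
  rw [dif_pos h, Metric.mem_closedBall]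
  have h1 : edist (π x) (π h.some) ≤ Metric.ediam s := by
    refine (hπ x h.some).trans ?_
    rw [ENNReal.coe_one, one_mul]
    exact Metric.edist_le_ediam_of_mem hx h.some_mem
  have h2 : Metric.ediam s ≠ ∞ := ne_top_of_le_ne_top (by simp) hs
  rw [edist_dist] at h1
  exact (ENNReal.ofReal_le_iff_le_toReal h2).1 h1

/-- Almost every fibre over a set of finite measure is finite. -/
theorem fibre_finite {k : ℕ} (π : E → Y k) (hπ : LipschitzWith 1 π) (A : Set E)
    (hA : μH[((k + 1 : ℕ) : ℝ)] A < ∞) : ∀ᵐ z : Y k, (A ∩ π ⁻¹' {z}).Finite := by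
  have hcov : ∀ n : ℕ, ∃ t : ℕ → Set E, A ⊆ ⋃ i, t i ∧
      (∀ i, Metric.ediam (t i) ≤ ((n : ℝ≥0∞) + 1)⁻¹) ∧
      ∑' i, ⨆ _ : (t i).Nonempty, Metric.ediam (t i) ^ ((k + 1 : ℕ) : ℝ) ≤
        μH[((k + 1 : ℕ) : ℝ)] A + 1 := fun n =>
    exists_cover _ A hA _ (ENNReal.inv_pos.2 (by simp))
  choose t ht1 ht2 ht3 using hcov
  have hle1 : ∀ n i, Metric.ediam (t n i) ≤ 1 := fun n i => (ht2 n i).trans (by
    rw [ENNReal.inv_le_one]
    exact le_add_self)
  set N : ℕ → Y k → ℝ≥0∞ := fun n z => ∑' i, (Bl π (t n i)).indicator (fun _ => (1 : ℝ≥0∞)) z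
    with hN
  have hNm : ∀ n, Measurable (N n) := fun n =>
    Measurable.tsum fun i => measurable_const.indicator (measurableSet_Bl π _)
  have hNi : ∀ n, ∫⁻ z, N n z ≤ 2 ^ (k + 1) * (μH[((k + 1 : ℕ) : ℝ)] A + 1) := by
    intro n
    rw [hN]
    simp only
    rw [lintegral_tsum (fun i => (measurable_const.indicator (measurableSet_Bl π _)).aemeasurable)]
    have h1 : ∀ i, ∫⁻ z, (Bl π (t n i)).indicator (fun _ => (1 : ℝ≥0∞)) z ≤
        2 ^ (k + 1) * ⨆ _ : (t n i).Nonempty, Metric.ediam (t n i) ^ ((k + 1 : ℕ) : ℝ) := by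
      intro i
      rw [lintegral_indicator (measurableSet_Bl π _), setLIntegral_const, one_mul]
      exact volume_Bl π _ (hle1 n i)
    refine (ENNReal.tsum_le_tsum h1).trans ?_
    rw [ENNReal.tsum_mul_left]
    gcongr
    exact ht3 n
  have hF : ∫⁻ z, liminf (fun n => N n z) atTop ≤ 2 ^ (k + 1) * (μH[((k + 1 : ℕ) : ℝ)] A + 1) := by
    refine (lintegral_liminf_le hNm).trans ?_
    refine liminf_le_of_le (by isBoundedDefault) ?_
    intro b hb
    obtain ⟨n, hn⟩ := hb.exists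
    exact hn.trans (hNi n)
  have hF2 : ∫⁻ z, liminf (fun n => N n z) atTop ≠ ∞ := by
    refine ne_top_of_le_ne_top ?_ hF
    exact ENNReal.mul_ne_top (by simp) (ENNReal.add_ne_top.2 ⟨hA.ne, ENNReal.one_ne_top⟩)
  have hae := ae_lt_top' (Measurable.liminf hNm).aemeasurable hF2
  filter_upwards [hae] with z hz
  by_contra hinf
  rw [← Set.not_infinite, not_not] at hinf
  refine absurd hz (not_lt.2 ?_)
  rw [top_le_iff]
  refine ENNReal.eq_top_of_forall_nnreal_le fun r => ?_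
  obtain ⟨K, hK⟩ := exists_nat_gt (r : ℝ≥0)
  obtain ⟨S, hS, hSc⟩ := hinf.exists_subset_card_eq (K + 1)
  -- minimal distance
  obtain ⟨δ, hδ, hδS⟩ : ∃ δ : ℝ≥0∞, 0 < δ ∧ ∀ x ∈ S, ∀ y ∈ S, x ≠ y → δ ≤ edist x y :=
    ⟨(S : Set E).einfsep, Set.einfsep_pos_of_finite, fun x hx y hy hxy =>
      Set.einfsep_le_edist_of_mem (Finset.mem_coe.2 hx) (Finset.mem_coe.2 hy) hxy⟩
  -- eventually the diameters are below δ
  have hev : ∀ᶠ n : ℕ in atTop, ((n : ℝ≥0∞) + 1)⁻¹ < δ := by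
    have h1 : Tendsto (fun n : ℕ => ((n : ℝ≥0∞))⁻¹) atTop (𝓝 0) :=
      ENNReal.tendsto_inv_nat_nhds_zero
    have h2 := (h1.comp (tendsto_add_atTop_nat 1)).eventually (gt_mem_nhds hδ)
    filter_upwards [h2] with n hn
    simpa using hn
  have hlow : ∀ᶠ n in atTop, ((K + 1 : ℕ) : ℝ≥0∞) ≤ N n z := by
    filter_upwards [hev] with n hn
    have hx : ∀ x ∈ S, ∃ i, x ∈ t n i := fun x hx => by
      have := ht1 n (hS hx).1
      rwa [mem_iUnion] at this
    choose! f hf using hx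
    have hinj : ∀ x ∈ S, ∀ y ∈ S, f x = f y → x = y := by
      intro x hx y hy hxy
      by_contra hne
      have h1 : edist x y ≤ Metric.ediam (t n (f x)) :=
        Metric.edist_le_ediam_of_mem (hf x hx) (hxy ▸ hf y hy)
      have h2 := (h1.trans (ht2 n _)).trans_lt hn
      exact absurd (hδS x hx y hy hne) (not_le.2 h2)
    calc ((K + 1 : ℕ) : ℝ≥0∞) = ∑ _x ∈ S, (1 : ℝ≥0∞) := by simp [hSc]
      _ = ∑ x ∈ S, (Bl π (t n (f x))).indicator (fun _ => (1 : ℝ≥0∞)) z := by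
          refine Finset.sum_congr rfl fun x hx => ?_
          rw [indicator_of_mem]
          have h1 := mem_Bl π hπ (t n (f x)) (hle1 n _) (hf x hx)
          have h2 : π x = z := (hS hx).2
          rwa [h2] at h1
      _ = ∑ i ∈ S.image f, (Bl π (t n i)).indicator (fun _ => (1 : ℝ≥0∞)) z := by
          rw [Finset.sum_image (fun x hx y hy h => hinj x hx y hy h)]
      _ ≤ N n z := ENNReal.sum_le_tsum _
  have h5 : ((K + 1 : ℕ) : ℝ≥0∞) ≤ liminf (fun n => N n z) atTop := le_liminf_of_le (by isBoundedDefault) hlow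
  refine le_trans ?_ h5
  have : (r : ℝ≥0∞) < (K : ℝ≥0∞) := by exact_mod_cast hK
  exact this.le.trans (by exact_mod_cast Nat.le_succ K)

end Pool.Agent.X195.GH
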