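import Pool.Agent.X195.GH1

/-!
Levels crossed by a continuous function along lines: almost every crossed level is crossed inside
an arbitrarily short segment, with some margin.
-/
open MeasureTheory Set Filter Topology
open scoped ENNReal NNReal

namespace Pool.Agent.X195.GH

/-- levels crossed upwards by `G(·,x')` from `a` to `b` -/
def W {k : ℕ} (G : ℝ → (Fin k → ℝ) → ℝ) (a b : ℝ) : Set (Y k) :=
  {z | z.2 ∈ Icc (0 : Fin k → ℝ) 1 ∧ G a z.2 < z.1 ∧ z.1 < G b z.2}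

theorem plateau {g : ℝ → ℝ} (hg : Continuous g) {a b t τ : ℝ} (ha : 0 ≤ a) (hab : a < b)
    (hb : b ≤ 1) (hτ : 0 < τ) (h1 : g a < t) (h2 : t < g b)
    (H : ∀ p q, p ∈ Icc a b → q ∈ Icc a b → p ≤ q → q - p ≤ τ * (p * (1 - q)) → g p < t →
      g q ≤ t) :
    (interior {u | g u = t}).Nonempty := by
  set P : Set ℝ := {s | s ∈ Icc a b ∧ g s < t} with hP
  have haP : a ∈ P := ⟨⟨le_rfl, hab.le⟩, h1⟩
  have hbd : BddAbove P := ⟨b, fun s hs => hs.1.2⟩
  set c := sSup P with hc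
  have hcl : c ∈ closure P := csSup_mem_closure ⟨a, haP⟩ hbd
  have hcI : c ∈ Icc a b := by
    have : closure P ⊆ Icc a b := closure_minimal (fun s hs => hs.1) isClosed_Icc
    exact this hcl
  have hct : g c ≤ t := by
    have : closure P ⊆ {s | g s ≤ t} :=
      closure_minimal (fun s hs => hs.2.le) (isClosed_le hg continuous_const)
    exact this hcl
  have hcb : c < b := by
    rcases hcI.2.lt_or_eq with h | h
    · exact h
    · rw [h] at hct
      exact absurd h2 (not_lt.2 hct)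
  have hge : ∀ u, c < u → u ≤ b → t ≤ g u := by
    intro u hu hub
    by_contra hcon
    push Not at hcon
    have : u ∈ P := ⟨⟨hcI.1.trans hu.le, hub⟩, hcon⟩
    exact absurd (le_csSup hbd this) (not_le.2 hu)
  have hgc : g c = t := by
    refine le_antisymm hct ?_
    have h3 : ∀ᶠ u in 𝓝[>] c, t ≤ g u := by
      filter_upwards [Ioo_mem_nhdsGT hcb] with u hu
      exact hge u hu.1 hu.2.le
    exact ge_of_tendsto (hg.continuousAt.tendsto.mono_left nhdsWithin_le_nhds) h3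
  have hac : a < c := by
    rcases hcI.1.lt_or_eq with h | h
    · exact h
    · rw [← h] at hgc
      exact absurd h1 (not_lt.2 hgc.ge)
  have hc0 : 0 < c := ha.trans_lt hac
  have hc1 : c < 1 := hcb.trans_le hb
  have hev : ∀ᶠ u in 𝓝[>] c, u - c < τ * (c * (1 - u)) := by
    have hcont : Continuous fun u : ℝ => τ * (c * (1 - u)) - (u - c) := by fun_prop
    have hpos : 0 < τ * (c * (1 - c)) - (c - c) := by
      have : 0 < 1 - c := by linarith
      have := mul_pos hτ (mul_pos hc0 this)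
      linarith
    have := (hcont.continuousAt.eventually (lt_mem_nhds hpos))
    filter_upwards [nhdsWithin_le_nhds this] with u hu
    linarith
  obtain ⟨c', hc', hsub⟩ := mem_nhdsGT_iff_exists_Ioo_subset.1
    (inter_mem hev (Ioo_mem_nhdsGT hcb))
  refine ⟨(c + c') / 2, ?_⟩
  have hss : Ioo c c' ⊆ {u | g u = t} := by
    intro u hu
    have hu' := hsub hu
    have hu1 : u - c < τ * (c * (1 - u)) := hu'.1
    have hu2 : u ∈ Ioo c b := hu'.2
    refine le_antisymm ?_ (hge u hu2.1 hu2.2.le)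
    have hcont : Continuous fun p : ℝ => τ * (p * (1 - u)) - (u - p) := by fun_prop
    have hpos : 0 < τ * (c * (1 - u)) - (u - c) := by linarith
    have hnb := hcont.continuousAt.eventually (lt_mem_nhds hpos)
    obtain ⟨p, hp, hpP⟩ := mem_closure_iff_nhds.1 hcl _ hnb
    have hpc : p ≤ c := le_csSup hbd hpP
    refine H p u hpP.1 ⟨hpP.1.1.trans (hpc.trans hu2.1.le), hu2.2.le⟩ (hpc.trans hu2.1.le) ?_ hpP.2
    have : 0 < τ * (p * (1 - u)) - (u - p) := hp
    linarith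
  exact interior_maximal hss isOpen_Ioo ⟨by linarith [hc'.out], by linarith [hc'.out]⟩

theorem measurableSet_W {k : ℕ} {G : ℝ → (Fin k → ℝ) → ℝ} (hG : Continuous (Function.uncurry G))
    (a b : ℝ) : MeasurableSet (W G a b) := by
  have hGs : ∀ s, Continuous fun z : Y k => G s z.2 := fun s =>
    hG.comp (continuous_const.prodMk continuous_snd)
  have h1 : MeasurableSet {z : Y k | z.2 ∈ Icc (0 : Fin k → ℝ) 1} := measurable_snd measurableSet_Icc
  have h2 : MeasurableSet {z : Y k | G a z.2 < z.1} :=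
    measurableSet_lt (hGs a).measurable measurable_fst
  have h3 : MeasurableSet {z : Y k | z.1 < G b z.2} :=
    measurableSet_lt measurable_fst (hGs b).measurable
  exact h1.inter (h2.inter h3)

/-- levels crossed with margin `1/(m+1)` inside a short segment -/
def Ex {k : ℕ} (G : ℝ → (Fin (k + 1) → ℝ) → ℝ) (a b τ : ℝ) (m : ℕ) : Set (Y (k + 1)) :=
  {z | z.2 ∈ Icc (0 : Fin (k + 1) → ℝ) 1 ∧ 1 / ((m : ℝ) + 1) ≤ z.2 0 ∧
    z.2 0 ≤ 1 - 1 / ((m : ℝ) + 1) ∧
    ∃ p ∈ Icc a b, ∃ q ∈ Icc a b, p ≤ q ∧ q - p ≤ τ * (p * (1 - q)) ∧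
      G p z.2 ≤ z.1 - 1 / ((m : ℝ) + 1) ∧ z.1 + 1 / ((m : ℝ) + 1) ≤ G q z.2}

variable {k : ℕ} {G : ℝ → (Fin (k + 1) → ℝ) → ℝ}

theorem isClosed_Ex (hG : Continuous (Function.uncurry G)) (a b τ : ℝ) (m : ℕ) :
    IsClosed (Ex G a b τ m) := by
  set K : Set (Y (k + 1) × (Icc a b × Icc a b)) :=
    {w | w.1.2 ∈ Icc (0 : Fin (k + 1) → ℝ) 1 ∧ 1 / ((m : ℝ) + 1) ≤ w.1.2 0 ∧
      w.1.2 0 ≤ 1 - 1 / ((m : ℝ) + 1) ∧ (w.2.1 : ℝ) ≤ w.2.2 ∧
      (w.2.2 : ℝ) - w.2.1 ≤ τ * ((w.2.1 : ℝ) * (1 - w.2.2)) ∧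
      G w.2.1 w.1.2 ≤ w.1.1 - 1 / ((m : ℝ) + 1) ∧ w.1.1 + 1 / ((m : ℝ) + 1) ≤ G w.2.2 w.1.2} with hK
  have hKc : IsClosed K := by
    have hG1 : Continuous fun w : Y (k + 1) × (Icc a b × Icc a b) => G w.2.1 w.1.2 :=
      hG.comp (f := fun w : Y (k + 1) × (Icc a b × Icc a b) => ((w.2.1 : ℝ), w.1.2)) (by fun_prop)
    have hG2 : Continuous fun w : Y (k + 1) × (Icc a b × Icc a b) => G w.2.2 w.1.2 :=
      hG.comp (f := fun w : Y (k + 1) × (Icc a b × Icc a b) => ((w.2.2 : ℝ), w.1.2)) (by fun_prop)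
    have c1 : IsClosed {w : Y (k + 1) × (Icc a b × Icc a b) | w.1.2 ∈ Icc (0 : Fin (k + 1) → ℝ) 1} :=
      isClosed_Icc.preimage (by fun_prop)
    have c2 : IsClosed {w : Y (k + 1) × (Icc a b × Icc a b) | 1 / ((m : ℝ) + 1) ≤ w.1.2 0} :=
      isClosed_le (by fun_prop) (by fun_prop)
    have c3 : IsClosed {w : Y (k + 1) × (Icc a b × Icc a b) | w.1.2 0 ≤ 1 - 1 / ((m : ℝ) + 1)} :=
      isClosed_le (by fun_prop) (by fun_prop)
    have c4 : IsClosed {w : Y (k + 1) × (Icc a b × Icc a b) | (w.2.1 : ℝ) ≤ w.2.2} :=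
      isClosed_le (by fun_prop) (by fun_prop)
    have c5 : IsClosed {w : Y (k + 1) × (Icc a b × Icc a b) |
        (w.2.2 : ℝ) - w.2.1 ≤ τ * ((w.2.1 : ℝ) * (1 - w.2.2))} :=
      isClosed_le (by fun_prop) (by fun_prop)
    have c6 : IsClosed {w : Y (k + 1) × (Icc a b × Icc a b) |
        G w.2.1 w.1.2 ≤ w.1.1 - 1 / ((m : ℝ) + 1)} :=
      isClosed_le hG1 (by fun_prop)
    have c7 : IsClosed {w : Y (k + 1) × (Icc a b × Icc a b) |
        w.1.1 + 1 / ((m : ℝ) + 1) ≤ G w.2.2 w.1.2} :=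
      isClosed_le (by fun_prop) hG2
    exact c1.inter (c2.inter (c3.inter (c4.inter (c5.inter (c6.inter c7)))))
  have himg : Ex G a b τ m = Prod.fst '' K := by
    ext z
    constructor
    · rintro ⟨h1, h2, h3, p, hp, q, hq, h4, h5, h6, h7⟩
      exact ⟨(z, (⟨p, hp⟩, ⟨q, hq⟩)), ⟨h1, h2, h3, h4, h5, h6, h7⟩, rfl⟩
    · rintro ⟨⟨z', p, q⟩, ⟨h1, h2, h3, h4, h5, h6, h7⟩, rfl⟩
      exact ⟨h1, h2, h3, p, p.2, q, q.2, h4, h5, h6, h7⟩
  rw [himg]
  exact isClosedMap_fst_of_compactSpace _ hKc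

theorem Ex_mono {a b τ : ℝ} {m m' : ℕ} (h : m ≤ m') : Ex G a b τ m ⊆ Ex G a b τ m' := by
  have h' : 1 / ((m' : ℝ) + 1) ≤ 1 / ((m : ℝ) + 1) := by
    apply one_div_le_one_div_of_le (by positivity)
    have : (m : ℝ) ≤ m' := by exact_mod_cast h
    linarith
  rintro z ⟨h1, h2, h3, p, hp, q, hq, h4, h5, h6, h7⟩
  exact ⟨h1, h'.trans h2, by linarith, p, hp, q, hq, h4, h5, by linarith, by linarith⟩

theorem null_inter (hG : Continuous (Function.uncurry G)) {a b τ : ℝ} (ha : 0 ≤ a) (hab : a < b)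
    (hb : b ≤ 1) (hτ : 0 < τ) : volume (⋂ m : ℕ, W G a b \ Ex G a b τ m) = 0 := by
  have hm : MeasurableSet (⋂ m : ℕ, W G a b \ Ex G a b τ m) :=
    MeasurableSet.iInter fun m => (measurableSet_W hG a b).diff (isClosed_Ex hG a b τ m).measurableSet
  rw [Measure.volume_eq_prod, Measure.prod_apply_symm hm,
    lintegral_eq_zero_iff' (measurable_measure_prodMk_right hm).aemeasurable]
  have hy0 : ∀ᵐ y : Fin (k + 1) → ℝ, y 0 ≠ 0 := by
    have := Measure.pi_hyperplane (fun _ : Fin (k + 1) => (volume : Measure ℝ)) 0 (0 : ℝ)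
    rw [← volume_pi] at this
    exact measure_eq_zero_iff_ae_notMem.1 this
  have hy1 : ∀ᵐ y : Fin (k + 1) → ℝ, y 0 ≠ 1 := by
    have := Measure.pi_hyperplane (fun _ : Fin (k + 1) => (volume : Measure ℝ)) 0 (1 : ℝ)
    rw [← volume_pi] at this
    exact measure_eq_zero_iff_ae_notMem.1 this
  filter_upwards [hy0, hy1] with y h0 h1
  set T : Set ℝ := (fun x => (x, y)) ⁻¹' ⋂ m : ℕ, W G a b \ Ex G a b τ m with hT
  have hTc : T.Countable := by
    refine PairwiseDisjoint.countable_of_nonempty_interior (s := fun t => {u | G u y = t}) ?_ ?_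
    · intro t _ t' _ htt
      rw [Function.onFun, Set.disjoint_left]
      intro u hu hu'
      exact htt (hu.symm.trans hu')
    · intro t ht
      have ht' : ∀ m, (t, y) ∈ W G a b \ Ex G a b τ m := fun m => mem_iInter.1 ht m
      obtain ⟨hyI, h2, h3⟩ := (ht' 0).1
      have hyI' : y ∈ Icc (0 : Fin (k + 1) → ℝ) 1 := hyI
      have hyp : 0 < y 0 := lt_of_le_of_ne (hyI'.1 0) (Ne.symm h0)
      have hyl : y 0 < 1 := lt_of_le_of_ne (hyI'.2 0) h1
      refine plateau (g := fun u => G u y) (hG.comp (continuous_id.prodMk continuous_const))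
        ha hab hb hτ h2 h3 ?_
      intro p q hp hq hpq hd hgp
      by_contra hcon
      push Not at hcon
      obtain ⟨m, hm⟩ := exists_nat_one_div_lt (K := ℝ)
        (lt_min (lt_min (sub_pos.2 hgp) (sub_pos.2 hcon)) (lt_min hyp (sub_pos.2 hyl)))
      rw [lt_min_iff, lt_min_iff, lt_min_iff] at hm
      refine (ht' m).2 ⟨hyI, hm.2.1.le, ?_, p, hp, q, hq, hpq, hd, ?_, ?_⟩
      · have := hm.2.2
        show y 0 ≤ 1 - 1 / ((m : ℝ) + 1)
        linarith
      · have := hm.1.1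
        show G p y ≤ t - 1 / ((m : ℝ) + 1)
        linarith
      · have := hm.1.2
        show t + 1 / ((m : ℝ) + 1) ≤ G q y
        linarith
  exact hTc.measure_zero _

theorem volume_W_lt (a b C : ℝ) (hC : ∀ s x, |G s x| ≤ C) : volume (W G a b) ≠ ∞ := by
  have hsub : W G a b ⊆ Icc (-C) C ×ˢ Icc (0 : Fin (k + 1) → ℝ) 1 := by
    rintro ⟨t, y⟩ ⟨h1, h2, h3⟩
    have h2' : G a y < t := h2
    have h3' : t < G b y := h3
    refine ⟨⟨?_, ?_⟩, h1⟩
    · exact (abs_le.1 (hC a y)).1.trans h2'.le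
    · exact h3'.le.trans (abs_le.1 (hC b y)).2
  refine ((isCompact_Icc.prod isCompact_Icc).measure_lt_top.ne : _ ≠ ∞) |> fun h => ne_top_of_le_ne_top h (measure_mono hsub)

theorem exists_Ex (hG : Continuous (Function.uncurry G)) {a b τ : ℝ} (ha : 0 ≤ a) (hab : a < b)
    (hb : b ≤ 1) (hτ : 0 < τ) (C : ℝ) (hC : ∀ s x, |G s x| ≤ C) (ε : ℝ≥0∞) (hε : 0 < ε) :
    ∃ m : ℕ, volume (W G a b \ Ex G a b τ m) < ε := by
  have h1 := tendsto_measure_iInter_atTop (μ := (volume : Measure (Y (k + 1))))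
    (s := fun m : ℕ => W G a b \ Ex G a b τ m)
    (fun m => ((measurableSet_W hG a b).diff (isClosed_Ex hG a b τ m).measurableSet).nullMeasurableSet)
    (fun m m' h => sdiff_subset_sdiff_right (Ex_mono h))
    ⟨0, ne_top_of_le_ne_top (volume_W_lt a b C hC) (measure_mono sdiff_subset)⟩
  rw [null_inter hG ha hab hb hτ] at h1
  exact (h1.eventually (gt_mem_nhds hε)).exists

theorem volume_strip {k : ℕ} {g : (Fin k → ℝ) → ℝ} (hg : Continuous g) (ρ : ℝ) :
    volume {z : Y k | z.2 ∈ Icc (0 : Fin k → ℝ) 1 ∧ |z.1 - g z.2| ≤ ρ} ≤ ENNReal.ofReal (2 * ρ) := by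
  have hm : MeasurableSet {z : Y k | z.2 ∈ Icc (0 : Fin k → ℝ) 1 ∧ |z.1 - g z.2| ≤ ρ} := by
    refine MeasurableSet.inter (measurable_snd measurableSet_Icc) ?_
    have h2 : Continuous fun z : Y k => |z.1 - g z.2| :=
      (continuous_fst.sub (hg.comp continuous_snd)).abs
    exact (isClosed_le h2 continuous_const).measurableSet
  rw [Measure.volume_eq_prod, Measure.prod_apply_symm hm]
  have h1 : ∀ y : Fin k → ℝ, volume ((fun x => (x, y)) ⁻¹'
      {z : Y k | z.2 ∈ Icc (0 : Fin k → ℝ) 1 ∧ |z.1 - g z.2| ≤ ρ}) ≤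
      (Icc (0 : Fin k → ℝ) 1).indicator (fun _ => ENNReal.ofReal (2 * ρ)) y := by
    intro y
    by_cases hy : y ∈ Icc (0 : Fin k → ℝ) 1
    · rw [indicator_of_mem hy, ← Real.volume_closedBall (g y)]
      refine measure_mono fun t ht => ?_
      rw [Metric.mem_closedBall, Real.dist_eq]
      exact ht.2
    · rw [indicator_of_notMem hy]
      have : (fun x => (x, y)) ⁻¹' {z : Y k | z.2 ∈ Icc (0 : Fin k → ℝ) 1 ∧ |z.1 - g z.2| ≤ ρ} = ∅ := by
        ext t
        simp only [mem_preimage, mem_ofPred_eq, mem_empty_iff_false, iff_false]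
        exact fun h => hy h.1
      rw [this]
      simp
  refine (lintegral_mono h1).trans ?_
  rw [lintegral_indicator measurableSet_Icc, setLIntegral_const, Real.volume_Icc_pi]
  simp

end Pool.Agent.X195.GH
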