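import Pool.Agent.X195.GH2

/-!
A homeomorphism of the cube, close to the identity, which makes every short segment in the first
direction sweep back and forth.
-/
open MeasureTheory Set Filter Topology
open scoped ENNReal NNReal Real

namespace Pool.Agent.X195.GH

theorem sin_hit {N : ℝ} (hN : 0 < N) (v : ℝ) (hv : v ∈ Icc (-1 : ℝ) 1) (c : ℝ) :
    ∃ s ∈ Icc c (c + 2 * π / N), Real.sin (N * s) = v := by
  have hpi := Real.pi_pos
  set w := Real.arcsin v with hw
  set n : ℤ := ⌈(N * c - w) / (2 * π)⌉ with hn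
  have h1 : (N * c - w) / (2 * π) ≤ n := Int.le_ceil _
  have h2 : (n : ℝ) < (N * c - w) / (2 * π) + 1 := Int.ceil_lt_add_one _
  rw [div_le_iff₀ (by positivity)] at h1
  rw [← sub_lt_iff_lt_add, lt_div_iff₀ (by positivity)] at h2
  refine ⟨(w + n * (2 * π)) / N, ⟨?_, ?_⟩, ?_⟩
  · rw [le_div_iff₀ hN]
    linarith
  · rw [div_le_iff₀ hN]
    have : (c + 2 * π / N) * N = N * c + 2 * π := by field_simp
    rw [this]
    linarith
  · rw [mul_div_cancel₀ _ hN.ne', Real.sin_add_int_mul_two_pi, Real.sin_arcsin hv.1 hv.2]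

/-- the sweeping function -/
noncomputable def sw (σ ν K N x s : ℝ) : ℝ :=
  s + σ * Real.sin (K * (x + ν * Real.sin (N * s) * (x * (1 - x)))) * (s * (1 - s))

theorem continuous_sw (σ ν K N x : ℝ) : Continuous (sw σ ν K N x) := by
  unfold sw
  fun_prop

theorem sweep {p q σ ν K N x : ℝ} (hp : 0 ≤ p) (hpq : p < q) (hq : q ≤ 1) (hσ : 0 < σ)
    (hd : q - p ≤ σ / 2 * (p * (1 - q))) (hK : 0 < K) (hN : 0 < N)
    (hKν : 2 * π ≤ K * (2 * (ν * (x * (1 - x))))) (hNd : 8 * π ≤ N * (q - p)) :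
    ∃ s1 s2 s3 s4, p ≤ s1 ∧ s1 < s2 ∧ s2 < s3 ∧ s3 < s4 ∧ s4 ≤ q ∧
      sw σ ν K N x s1 = p ∧ sw σ ν K N x s2 = q ∧ sw σ ν K N x s3 = p ∧ sw σ ν K N x s4 = q := by
  have hpi := Real.pi_pos
  set δ := ν * (x * (1 - x)) with hδ
  have hδ0 : 0 < δ := by
    by_contra hcon
    push Not at hcon
    have : K * (2 * δ) ≤ 0 := mul_nonpos_of_nonneg_of_nonpos hK.le (by linarith)
    linarith
  have h2πK : 2 * π / K ≤ 2 * δ := by
    rw [div_le_iff₀ hK]
    linarith
  obtain ⟨um, hum, hum'⟩ := sin_hit hK (-1) ⟨le_rfl, by norm_num⟩ (x - δ)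
  obtain ⟨up, hup, hup'⟩ := sin_hit hK 1 ⟨by norm_num, le_rfl⟩ (x - δ)
  have key : ∀ u ∈ Icc (x - δ) (x - δ + 2 * π / K), ∀ c : ℝ,
      ∃ s ∈ Icc c (c + 2 * π / N), x + ν * Real.sin (N * s) * (x * (1 - x)) = u := by
    intro u hu c
    have hv : (u - x) / δ ∈ Icc (-1 : ℝ) 1 := by
      constructor
      · rw [le_div_iff₀ hδ0]
        linarith [hu.1]
      · rw [div_le_iff₀ hδ0]
        linarith [hu.2]
    obtain ⟨s, hs, hs'⟩ := sin_hit hN _ hv c
    refine ⟨s, hs, ?_⟩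
    have : ν * Real.sin (N * s) * (x * (1 - x)) = Real.sin (N * s) * δ := by
      rw [hδ]; ring
    rw [this, hs', div_mul_cancel₀ _ hδ0.ne']
    ring
  set L := 2 * π / N with hL
  have hL4 : 4 * L ≤ q - p := by
    rw [hL]
    have : 4 * (2 * π / N) = 8 * π / N := by ring
    rw [this, div_le_iff₀ hN]
    linarith
  have hL0 : 0 < L := by positivity
  obtain ⟨a1, ha1, ha1'⟩ := key um hum p
  obtain ⟨a2, ha2, ha2'⟩ := key up hup (p + L)
  obtain ⟨a3, ha3, ha3'⟩ := key um hum (p + 2 * L)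
  obtain ⟨a4, ha4, ha4'⟩ := key up hup (p + 3 * L)
  have hpos : 0 < σ / 2 * (p * (1 - q)) := by linarith
  have hlow : ∀ s, p ≤ s → s ≤ q → p * (1 - q) ≤ s * (1 - s) := by
    intro s h1 h2
    have : 0 ≤ 1 - q := by linarith
    nlinarith
  have hneg : ∀ s, p ≤ s → s ≤ q → x + ν * Real.sin (N * s) * (x * (1 - x)) = um →
      sw σ ν K N x s < p := by
    intro s h1 h2 h3
    unfold sw
    rw [h3, hum']
    have := mul_le_mul_of_nonneg_left (hlow s h1 h2) hσ.le
    linarith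
  have hpo : ∀ s, p ≤ s → s ≤ q → x + ν * Real.sin (N * s) * (x * (1 - x)) = up →
      q < sw σ ν K N x s := by
    intro s h1 h2 h3
    unfold sw
    rw [h3, hup']
    have := mul_le_mul_of_nonneg_left (hlow s h1 h2) hσ.le
    linarith
  have b1 := hneg a1 ha1.1 (by linarith [ha1.2]) ha1'
  have b2 := hpo a2 (by linarith [ha2.1]) (by linarith [ha2.2]) ha2'
  have b3 := hneg a3 (by linarith [ha3.1]) (by linarith [ha3.2]) ha3'
  have b4 := hpo a4 (by linarith [ha4.1]) (by linarith [ha4.2]) ha4'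
  have hc := continuous_sw σ ν K N x
  have h12 : a1 ≤ a2 := ha1.2.trans ha2.1
  have h34 : a3 ≤ a4 := ha3.2.trans (by linarith [ha4.1])
  have h23 : a2 ≤ a3 := ha2.2.trans (by linarith [ha3.1])
  obtain ⟨s1, hs1, e1⟩ := intermediate_value_Icc h12 hc.continuousOn
    (show p ∈ Icc (sw σ ν K N x a1) (sw σ ν K N x a2) from ⟨b1.le, by linarith⟩)
  obtain ⟨s2, hs2, e2⟩ := intermediate_value_Icc hs1.2 hc.continuousOn
    (show q ∈ Icc (sw σ ν K N x s1) (sw σ ν K N x a2) from ⟨by rw [e1]; exact hpq.le, b2.le⟩)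
  obtain ⟨s3, hs3, e3⟩ := intermediate_value_Icc h34 hc.continuousOn
    (show p ∈ Icc (sw σ ν K N x a3) (sw σ ν K N x a4) from ⟨b3.le, by linarith⟩)
  obtain ⟨s4, hs4, e4⟩ := intermediate_value_Icc hs3.2 hc.continuousOn
    (show q ∈ Icc (sw σ ν K N x s3) (sw σ ν K N x a4) from ⟨by rw [e3]; exact hpq.le, b4.le⟩)
  refine ⟨s1, s2, s3, s4, ha1.1.trans hs1.1, ?_, ?_, ?_, ?_, e1, e2, e3, e4⟩
  · refine lt_of_le_of_ne hs2.1 fun h => ?_
    rw [h] at e1
    linarith
  · refine lt_of_le_of_ne (hs2.2.trans (h23.trans hs3.1)) fun h => ?_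
    rw [h] at e2
    linarith
  · refine lt_of_le_of_ne hs4.1 fun h => ?_
    rw [h] at e3
    linarith
  · have := ha4.2
    linarith [hs4.2]

/-- The cube `[0,1]^d`. -/
abbrev Cube (d : ℕ) := Fin d → unitInterval

/-- the homeomorphism `x ↦ x + c x (1 - x)` of the interval -/
noncomputable def Tm (c : ℝ) (x : unitInterval) : unitInterval :=
  projIcc 0 1 zero_le_one ((x : ℝ) + c * (x * (1 - x)))

theorem coe_Tm {c : ℝ} (hc : |c| ≤ 1) (x : unitInterval) :
    (Tm c x : ℝ) = x + c * (x * (1 - x)) := by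
  have h0 := x.2.1
  have h1 := x.2.2
  rw [abs_le] at hc
  have hmem : (x : ℝ) + c * (x * (1 - x)) ∈ Icc (0 : ℝ) 1 := by
    constructor
    · nlinarith [mul_nonneg h0 (sub_nonneg.2 h1)]
    · nlinarith [mul_nonneg h0 (sub_nonneg.2 h1)]
  rw [Tm, projIcc_of_mem _ hmem]

theorem Tm_inj {c : ℝ} (hc : |c| < 1) : Function.Injective (Tm c) := by
  intro x y h
  have h' : (Tm c x : ℝ) = Tm c y := by rw [h]
  rw [coe_Tm hc.le, coe_Tm hc.le] at h'
  have h2 : ((x : ℝ) - y) * (1 + c * (1 - x - y)) = 0 := by linear_combination h'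
  rcases mul_eq_zero.1 h2 with h3 | h3
  · exact Subtype.ext (by linarith)
  · exfalso
    have hx0 := x.2.1
    have hx1 := x.2.2
    have hy0 := y.2.1
    have hy1 := y.2.2
    rw [abs_lt] at hc
    have h4 : |c * (1 - (x : ℝ) - y)| < 1 := by
      rw [abs_mul]
      have h5 : |1 - (x : ℝ) - y| ≤ 1 := abs_le.2 ⟨by linarith, by linarith⟩
      have h6 : |c| < 1 := abs_lt.2 hc
      nlinarith [abs_nonneg c, abs_nonneg (1 - (x : ℝ) - y)]
    rw [abs_lt] at h4
    linarith [h4.1]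

theorem continuous_Tm : Continuous fun q : ℝ × unitInterval => Tm q.1 q.2 := by
  unfold Tm
  exact continuous_projIcc.comp (by fun_prop)

theorem Tm_surj {c : ℝ} (hc : |c| ≤ 1) : Function.Surjective (Tm c) := by
  intro y
  have hcont : ContinuousOn (fun x : ℝ => x + c * (x * (1 - x))) (Icc 0 1) := by fun_prop
  obtain ⟨x, hx, hxy⟩ := intermediate_value_Icc (zero_le_one' ℝ) hcont
    (show (y : ℝ) ∈ Icc ((0 : ℝ) + c * (0 * (1 - 0))) (1 + c * (1 * (1 - 1))) from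
      ⟨by simpa using y.2.1, by simpa using y.2.2⟩)
  refine ⟨⟨x, hx⟩, Subtype.ext ?_⟩
  rw [coe_Tm hc]
  exact hxy

/-- the perturbation of the cube -/
noncomputable def psi {d : ℕ} (θ φ : ℝ → ℝ) (x : Cube (d + 2)) : Cube (d + 2) :=
  Function.update (Function.update x 1 (Tm (φ (x 0)) (x 1))) 0
    (Tm (θ (Tm (φ (x 0)) (x 1))) (x 0))

variable {d : ℕ} {θ φ : ℝ → ℝ}

theorem psi_zero (x : Cube (d + 2)) : psi θ φ x 0 = Tm (θ (Tm (φ (x 0)) (x 1))) (x 0) := by
  simp [psi]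

theorem psi_one (x : Cube (d + 2)) : psi θ φ x 1 = Tm (φ (x 0)) (x 1) := by
  rw [psi, Function.update_of_ne (by simp), Function.update_self]

theorem psi_other (x : Cube (d + 2)) (i : Fin (d + 2)) (h0 : i ≠ 0) (h1 : i ≠ 1) :
    psi θ φ x i = x i := by
  rw [psi, Function.update_of_ne h0, Function.update_of_ne h1]

theorem continuous_psi (hθ : Continuous θ) (hφ : Continuous φ) :
    Continuous (psi θ φ : Cube (d + 2) → Cube (d + 2)) := by
  have h1 : Continuous fun x : Cube (d + 2) => Tm (φ (x 0)) (x 1) :=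
    continuous_Tm.comp (f := fun x : Cube (d + 2) => (φ (x 0), x 1)) (by fun_prop)
  have h2 : Continuous fun x : Cube (d + 2) => Tm (θ (Tm (φ (x 0)) (x 1))) (x 0) :=
    continuous_Tm.comp (f := fun x : Cube (d + 2) => (θ (Tm (φ (x 0)) (x 1)), x 0)) (by fun_prop)
  unfold psi
  exact (continuous_id.update 1 h1).update 0 h2

theorem psi_bij (hθ : ∀ u, |θ u| < 1) (hφ : ∀ u, |φ u| < 1) :
    Function.Bijective (psi θ φ : Cube (d + 2) → Cube (d + 2)) := by
  constructor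
  · intro x y h
    have h1 : Tm (φ (x 0)) (x 1) = Tm (φ (y 0)) (y 1) := by
      rw [← psi_one (θ := θ) x, h, psi_one]
    have h0 : x 0 = y 0 := by
      have : Tm (θ (Tm (φ (x 0)) (x 1))) (x 0) = Tm (θ (Tm (φ (y 0)) (y 1))) (y 0) := by
        rw [← psi_zero x, h, psi_zero]
      rw [h1] at this
      exact Tm_inj (hθ _) this
    have h1' : x 1 = y 1 := by
      rw [h0] at h1
      exact Tm_inj (hφ _) h1
    funext i
    by_cases hi0 : i = 0
    · rw [hi0, h0]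
    · by_cases hi1 : i = 1
      · rw [hi1, h1']
      · rw [← psi_other (θ := θ) (φ := φ) x i hi0 hi1, h, psi_other _ i hi0 hi1]
  · intro y
    obtain ⟨x0, hx0⟩ := Tm_surj (hθ (y 1)).le (y 0)
    obtain ⟨x1, hx1⟩ := Tm_surj (hφ x0).le (y 1)
    refine ⟨Function.update (Function.update y 1 x1) 0 x0, ?_⟩
    have e0 : (Function.update (Function.update y 1 x1) 0 x0 : Cube (d + 2)) 0 = x0 := by simp
    have e1 : (Function.update (Function.update y 1 x1) 0 x0 : Cube (d + 2)) 1 = x1 := by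
      rw [Function.update_of_ne (by simp), Function.update_self]
    funext i
    by_cases hi0 : i = 0
    · rw [hi0, psi_zero, e0, e1, hx1, hx0]
    · by_cases hi1 : i = 1
      · rw [hi1, psi_one, e0, e1, hx1]
      · rw [psi_other _ i hi0 hi1, Function.update_of_ne hi0, Function.update_of_ne hi1]

theorem dist_Tm_le {c ε : ℝ} (hc : |c| ≤ 1) (hcε : |c| ≤ ε) (x : unitInterval) :
    dist (Tm c x) x ≤ ε := by
  rw [Subtype.dist_eq, coe_Tm hc, Real.dist_eq]
  have h0 := x.2.1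
  have h1 := x.2.2
  have : (x : ℝ) + c * (x * (1 - x)) - x = c * (x * (1 - x)) := by ring
  rw [this, abs_mul]
  have h2 : |(x : ℝ) * (1 - x)| ≤ 1 := by
    rw [abs_le]
    constructor <;> nlinarith
  nlinarith [abs_nonneg c, abs_nonneg ((x : ℝ) * (1 - x))]

theorem dist_psi_le {ε : ℝ} (hε : 0 ≤ ε) (hε1 : ε ≤ 1) (hθ : ∀ u, |θ u| ≤ ε) (hφ : ∀ u, |φ u| ≤ ε)
    (x : Cube (d + 2)) : dist (psi θ φ x) x ≤ ε := by
  rw [dist_pi_le_iff hε]
  intro i
  by_cases hi0 : i = 0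
  · rw [hi0, psi_zero]
    exact dist_Tm_le ((hθ _).trans hε1) (hθ _) _
  · by_cases hi1 : i = 1
    · rw [hi1, psi_one]
      exact dist_Tm_le ((hφ _).trans hε1) (hφ _) _
    · rw [psi_other x i hi0 hi1, dist_self]
      exact hε

end Pool.Agent.X195.GH
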