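import Pool.Agent.X195.GH3

/-!
The space of homeomorphisms of the cube with the uniform metric, and the perturbation lemma.
-/
open MeasureTheory Set Filter Topology
open scoped ENNReal NNReal Real

namespace Pool.Agent.X195.GH

/-- The set of homeomorphisms of the cube `[0,1]^d` onto itself. -/
def Homeo (d : ℕ) := Cube d ≃ₜ Cube d

/-- a homeomorphism as a continuous map -/
def toC {d : ℕ} (f : Homeo d) : C(Cube d, Cube d) :=
  ⟨DFunLike.coe (F := Cube d ≃ₜ Cube d) f, Homeomorph.continuous (f : Cube d ≃ₜ Cube d)⟩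

theorem toC_inj {d : ℕ} : Function.Injective (toC : Homeo d → C(Cube d, Cube d)) := by
  intro f g h
  apply Homeomorph.ext (h := f) (h' := g)
  intro x
  exact congrArg (fun F : C(Cube d, Cube d) => F x) h

/-- The uniform metric on the homeomorphisms of the cube. -/
noncomputable instance {d : ℕ} : MetricSpace (Homeo d) :=
  MetricSpace.induced toC toC_inj inferInstance

theorem dist_homeo {d : ℕ} (f g : Homeo d) : dist f g = dist (toC f) (toC g) := rfl

theorem dist_apply_le {d : ℕ} (f g : Homeo d) (x : Cube d) : dist (toC f x) (toC g x) ≤ dist f g := by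
  rw [dist_homeo]
  exact ContinuousMap.dist_apply_le_dist x

/-- the point of the cube with first coordinate `s` and remaining coordinates `y` -/
noncomputable def emb {k : ℕ} (s : ℝ) (y : Fin (k + 1) → ℝ) : Cube (k + 2) :=
  Fin.cons (projIcc 0 1 zero_le_one s) (fun i => projIcc 0 1 zero_le_one (y i))

theorem continuous_emb {k : ℕ} :
    Continuous fun q : ℝ × (Fin (k + 1) → ℝ) => (emb q.1 q.2 : Cube (k + 2)) := by
  refine continuous_pi fun i => ?_
  refine Fin.cases ?_ (fun i => ?_) i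
  · simp only [emb, Fin.cons_zero]
    exact continuous_projIcc.comp continuous_fst
  · simp only [emb, Fin.cons_succ]
    exact continuous_projIcc.comp ((continuous_apply i).comp continuous_snd)

/-- the observable along lines in the first direction -/
noncomputable def Gf {k : ℕ} (φ : Cube (k + 2) → ℝ) (F : Cube (k + 2) → Cube (k + 2)) (s : ℝ)
    (y : Fin (k + 1) → ℝ) : ℝ := φ (F (emb s y))

theorem continuous_Gf {k : ℕ} {φ : Cube (k + 2) → ℝ} (hφ : Continuous φ)
    {F : Cube (k + 2) → Cube (k + 2)} (hF : Continuous F) :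
    Continuous (Function.uncurry (Gf φ F)) := by
  show Continuous fun q : ℝ × (Fin (k + 1) → ℝ) => φ (F (emb q.1 q.2))
  exact hφ.comp (hF.comp continuous_emb)

/-- four crossing points in `[a,b]` -/
def Four (g : ℝ → ℝ) (t a b : ℝ) : Prop :=
  ∃ s1 s2 s3 s4, a ≤ s1 ∧ s1 < s2 ∧ s2 < s3 ∧ s3 < s4 ∧ s4 ≤ b ∧
    g s1 < t ∧ t < g s2 ∧ g s3 < t ∧ t < g s4

/-- crossed levels without four crossing points -/
def Bad {k : ℕ} (G : ℝ → (Fin k → ℝ) → ℝ) (a b : ℝ) : Set (Y k) :=
  {z | z ∈ W G a b ∧ ¬ Four (fun s => G s z.2) z.1 a b}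

theorem W_diff {k : ℕ} {G G' : ℝ → (Fin k → ℝ) → ℝ} {a b ρ : ℝ}
    (h : ∀ s y, |G' s y - G s y| ≤ ρ) :
    W G' a b ⊆ W G a b ∪ ({z : Y k | z.2 ∈ Icc (0 : Fin k → ℝ) 1 ∧ |z.1 - G a z.2| ≤ ρ} ∪
      {z : Y k | z.2 ∈ Icc (0 : Fin k → ℝ) 1 ∧ |z.1 - G b z.2| ≤ ρ}) := by
  rintro z ⟨h1, h2, h3⟩
  have ha := abs_le.1 (h a z.2)
  have hb := abs_le.1 (h b z.2)
  by_cases c1 : G a z.2 < z.1
  · by_cases c2 : z.1 < G b z.2
    · exact Or.inl ⟨h1, c1, c2⟩
    · push Not at c2
      refine Or.inr (Or.inr ⟨h1, ?_⟩)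
      rw [abs_of_nonneg (by linarith)]
      linarith
  · push Not at c1
    refine Or.inr (Or.inl ⟨h1, ?_⟩)
    rw [abs_of_nonpos (by linarith)]
    linarith

theorem emb_zero {k : ℕ} {s : ℝ} (hs : s ∈ Icc (0 : ℝ) 1) (y : Fin (k + 1) → ℝ) :
    ((emb s y : Cube (k + 2)) 0 : ℝ) = s := by
  simp only [emb, Fin.cons_zero]
  rw [projIcc_of_mem _ hs]

theorem emb_succ {k : ℕ} {s : ℝ} {y : Fin (k + 1) → ℝ} (hy : y ∈ Icc (0 : Fin (k + 1) → ℝ) 1)
    (i : Fin (k + 1)) : ((emb s y : Cube (k + 2)) i.succ : ℝ) = y i := by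
  simp only [emb, Fin.cons_succ]
  rw [projIcc_of_mem _ (show y i ∈ Icc (0 : ℝ) 1 from ⟨hy.1 i, hy.2 i⟩)]

/-- the effect of the perturbation on a segment -/
theorem psi_emb {k : ℕ} {σ ν K N : ℝ} (hσ : |σ| ≤ 1) (hν0 : 0 ≤ ν) (hν : ν ≤ 1)
    {y : Fin (k + 1) → ℝ}
    (hy : y ∈ Icc (0 : Fin (k + 1) → ℝ) 1) {s p : ℝ} (hs : s ∈ Icc (0 : ℝ) 1)
    (hp : p ∈ Icc (0 : ℝ) 1) (hsw : sw σ ν K N (y 0) s = p) :
    dist (psi (fun u => σ * Real.sin (K * u)) (fun u => ν * Real.sin (N * u)) (emb s y))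
      (emb p y : Cube (k + 2)) ≤ ν := by
  have hsin : ∀ u, |Real.sin u| ≤ 1 := Real.abs_sin_le_one
  have hν' : ∀ u, |ν * Real.sin (N * u)| ≤ ν := fun u => by
    rw [abs_mul, abs_of_nonneg hν0]
    nlinarith [hsin (N * u), abs_nonneg (Real.sin (N * u))]
  have hσ' : ∀ u, |σ * Real.sin (K * u)| ≤ 1 := fun u => by
    rw [abs_mul]
    nlinarith [hsin (K * u), abs_nonneg (Real.sin (K * u)), abs_nonneg σ]
  have e1 : ((emb s y : Cube (k + 2)) 1 : ℝ) = y 0 := emb_succ hy 0
  have e0 := emb_zero (k := k) hs y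
  have hT : (Tm (ν * Real.sin (N * ((emb s y : Cube (k + 2)) 0 : ℝ))) ((emb s y : Cube (k + 2)) 1) : ℝ) =
      y 0 + ν * Real.sin (N * s) * (y 0 * (1 - y 0)) := by
    rw [coe_Tm ((hν' _).trans hν), e0, e1]
  rw [dist_pi_le_iff hν0]
  intro i
  by_cases hi0 : i = 0
  · rw [hi0, psi_zero]
    have : Tm (σ * Real.sin (K * (Tm (ν * Real.sin (N * ((emb s y : Cube (k + 2)) 0 : ℝ)))
        ((emb s y : Cube (k + 2)) 1) : ℝ))) ((emb s y : Cube (k + 2)) 0) = (emb p y : Cube (k + 2)) 0 := by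
      apply Subtype.ext
      rw [emb_zero hp, coe_Tm (hσ' _), hT, e0, ← hsw]
      unfold sw
      ring
    rw [this, dist_self]
    exact hν0
  · by_cases hi1 : i = 1
    · rw [hi1, psi_one]
      have : (emb p y : Cube (k + 2)) 1 = (emb s y : Cube (k + 2)) 1 := by
        apply Subtype.ext
        rw [e1]
        exact emb_succ hy 0
      rw [this]
      exact dist_Tm_le ((hν' _).trans hν) (hν' _) _
    · rw [psi_other _ i hi0 hi1]
      obtain ⟨j, rfl⟩ := Fin.exists_succ_eq.2 hi0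
      have : (emb p y : Cube (k + 2)) j.succ = (emb s y : Cube (k + 2)) j.succ := by
        simp only [emb, Fin.cons_succ]
      rw [this, dist_self]
      exact hν0

theorem dist_emb_le {k : ℕ} {p q : ℝ} (hp : p ∈ Icc (0 : ℝ) 1) (hq : q ∈ Icc (0 : ℝ) 1)
    (y : Fin (k + 1) → ℝ) :
    dist (emb p y : Cube (k + 2)) (emb q y) ≤ |p - q| := by
  rw [dist_pi_le_iff (abs_nonneg _)]
  intro i
  refine Fin.cases ?_ (fun i => ?_) i
  · rw [Subtype.dist_eq, emb_zero hp, emb_zero hq, Real.dist_eq]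
  · simp only [emb, Fin.cons_succ]
    rw [dist_self]
    exact abs_nonneg _

theorem lip_dist {k : ℕ} {φ : Cube (k + 2) → ℝ} (hφ : LipschitzWith 1 φ) (x y : Cube (k + 2)) :
    dist (φ x) (φ y) ≤ dist x y := by
  have := hφ.dist_le_mul x y
  simpa using this

/-- The perturbation lemma. -/
theorem perturb {k : ℕ} {φ : Cube (k + 2) → ℝ} (hφ : LipschitzWith 1 φ) (hφ1 : ∀ x, |φ x| ≤ 1)
    {a b : ℝ} (ha : 0 ≤ a) (hab : a < b) (hb : b ≤ 1) (h : Homeo (k + 2)) {δ ε : ℝ} (hδ : 0 < δ)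
    (hε : 0 < ε) :
    ∃ f : Homeo (k + 2), dist f h < δ ∧ ∃ r > 0, ∀ f' : Homeo (k + 2), dist f' f < r →
      volume (Bad (Gf φ (toC f')) a b) < ENNReal.ofReal ε := by
  have hpi := Real.pi_pos
  have huc : UniformContinuous (toC h) := CompactSpace.uniformContinuous_of_continuous (toC h).continuous
  rw [Metric.uniformContinuous_iff] at huc
  set η := min δ (ε / 32) / 2 with hη
  have hη0 : 0 < η := by positivity
  obtain ⟨ζ, hζ, hζ'⟩ := huc η hη0
  set σ := min ζ 1 / 2 with hσ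
  have hσ0 : 0 < σ := by positivity
  have hσ1 : σ ≤ 1 / 2 := by
    rw [hσ]
    linarith [min_le_right ζ 1]
  have hσζ : σ < ζ := by
    rw [hσ]
    linarith [min_le_left ζ 1, lt_min hζ one_pos]
  set G := Gf φ (toC h) with hG
  have hGc : Continuous (Function.uncurry G) := continuous_Gf hφ.continuous (toC h).continuous
  obtain ⟨m, hm⟩ := exists_Ex (τ := σ / 2) hGc ha hab hb (by positivity) 1
    (fun s x => hφ1 _) (ENNReal.ofReal (ε / 2)) (ENNReal.ofReal_pos.2 (by positivity))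
  set μ : ℝ := 1 / ((m : ℝ) + 1) with hμ
  have hμ0 : 0 < μ := by positivity
  obtain ⟨ζ1, hζ1, hζ1'⟩ := huc (μ / 2) (by positivity)
  set ν := min ζ1 σ / 2 with hν
  have hν0 : 0 < ν := by positivity
  have hνσ : ν ≤ σ := by
    rw [hν]
    linarith [min_le_right ζ1 σ, lt_min hζ1 hσ0]
  have hνζ : ν < ζ1 := by
    rw [hν]
    linarith [min_le_left ζ1 σ, lt_min hζ1 hσ0]
  obtain ⟨δm, hδm, hδm'⟩ := huc (2 * μ) (by positivity)
  set K := π / (ν * μ ^ 2) with hK
  have hK0 : 0 < K := by positivity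
  set N := 8 * π / δm with hN
  have hN0 : 0 < N := by positivity
  set θ : ℝ → ℝ := fun u => σ * Real.sin (K * u) with hθ
  set χ : ℝ → ℝ := fun u => ν * Real.sin (N * u) with hχ
  have hθσ : ∀ u, |θ u| ≤ σ := fun u => by
    rw [hθ]
    simp only
    rw [abs_mul, abs_of_pos hσ0]
    nlinarith [Real.abs_sin_le_one (K * u)]
  have hχν : ∀ u, |χ u| ≤ ν := fun u => by
    rw [hχ]
    simp only
    rw [abs_mul, abs_of_pos hν0]
    nlinarith [Real.abs_sin_le_one (N * u)]
  have hbij : Function.Bijective (psi θ χ : Cube (k + 2) → Cube (k + 2)) :=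
    psi_bij (fun u => (hθσ u).trans_lt (by linarith)) (fun u => (hχν u).trans_lt (by linarith))
  have hcont : Continuous (psi θ χ : Cube (k + 2) → Cube (k + 2)) :=
    continuous_psi (by fun_prop) (by fun_prop)
  set e : Cube (k + 2) ≃ Cube (k + 2) := Equiv.ofBijective _ hbij with he
  have hec : Continuous e := hcont
  set f : Homeo (k + 2) := (hec.homeoOfEquivCompactToT2).trans h with hf
  have hfx : ∀ x, toC f x = toC h (psi θ χ x) := fun x => rfl
  have hdist : dist f h ≤ η := by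
    rw [dist_homeo, ContinuousMap.dist_le hη0.le]
    intro x
    rw [hfx]
    refine (hζ' ?_).le
    exact (dist_psi_le hσ0.le (by linarith) hθσ (fun u => (hχν u).trans hνσ) x).trans_lt hσζ
  refine ⟨f, ?_, min (μ / 2) (ε / 64), by positivity, ?_⟩
  · refine hdist.trans_lt ?_
    rw [hη]
    have h1 := min_le_left δ (ε / 32)
    linarith
  intro f' hf'
  set G' := Gf φ (toC f') with hG'
  have hρ : ∀ s y, |G' s y - G s y| ≤ ε / 32 := by
    intro s y
    rw [← Real.dist_eq]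
    have h1 : dist (G' s y) (G s y) ≤ dist (toC f' (emb s y)) (toC h (emb s y)) := lip_dist hφ _ _
    have h2 := dist_apply_le f' h (emb s y)
    have h3 := dist_triangle f' f h
    have h4 : dist f' f < ε / 64 := hf'.trans_le (min_le_right _ _)
    have h5 : η ≤ ε / 64 := by
      rw [hη]
      have := min_le_right δ (ε / 32)
      linarith
    linarith
  -- the four points
  have hfour : ∀ z ∈ Ex G a b (σ / 2) m, Four (fun s => G' s z.2) z.1 a b := by
    rintro z ⟨hy, hx1, hx2, p, hp, q, hq, hpq, hd, hgp, hgq⟩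
    have hp01 : p ∈ Icc (0 : ℝ) 1 := ⟨ha.trans hp.1, hp.2.trans hb⟩
    have hq01 : q ∈ Icc (0 : ℝ) 1 := ⟨ha.trans hq.1, hq.2.trans hb⟩
    have hqp : δm ≤ q - p := by
      by_contra hcon
      push Not at hcon
      have h1 : dist (emb p z.2 : Cube (k + 2)) (emb q z.2) < δm := by
        refine (dist_emb_le hp01 hq01 _).trans_lt ?_
        rw [abs_of_nonpos (by linarith)]
        linarith
      have h2 := hδm' h1
      have h3 : dist (G p z.2) (G q z.2) ≤ dist (toC h (emb p z.2)) (toC h (emb q z.2)) := lip_dist hφ _ _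
      have h4 : 2 * μ ≤ dist (G p z.2) (G q z.2) := by
        rw [Real.dist_eq, abs_of_nonpos (by linarith)]
        linarith
      linarith
    have hpq' : p < q := by linarith
    have hKν : 2 * π ≤ K * (2 * (ν * (z.2 0 * (1 - z.2 0)))) := by
      have h1 : μ ^ 2 ≤ z.2 0 * (1 - z.2 0) := by
        have : μ ≤ 1 - z.2 0 := by linarith
        nlinarith
      have h2 : K * (2 * (ν * μ ^ 2)) = 2 * π := by
        rw [hK]
        field_simp
      rw [← h2]
      gcongr
    have hNd : 8 * π ≤ N * (q - p) := by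
      have : N * δm = 8 * π := by
        rw [hN]
        field_simp
      rw [← this]
      gcongr
    obtain ⟨s1, s2, s3, s4, l1, l2, l3, l4, l5, w1, w2, w3, w4⟩ :=
      sweep hp01.1 hpq' hq01.2 hσ0 hd hK0 hN0 hKν hNd
    have hclose : ∀ s u, s ∈ Icc p q → u ∈ Icc (0 : ℝ) 1 → sw σ ν K N (z.2 0) s = u →
        |G' s z.2 - G u z.2| < μ := by
      intro s u hs hu hsw
      have hs01 : s ∈ Icc (0 : ℝ) 1 := ⟨hp01.1.trans hs.1, hs.2.trans hq01.2⟩
      have h1 := psi_emb (k := k) (by rw [abs_of_pos hσ0]; linarith) hν0.le (by linarith) hy hs01 hu hsw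
      have h2 : dist (toC f (emb s z.2)) (toC h (emb u z.2)) < μ / 2 := by
        rw [hfx]
        exact hζ1' (h1.trans_lt hνζ)
      have h3 : dist (toC f' (emb s z.2)) (toC f (emb s z.2)) < μ / 2 :=
        (dist_apply_le f' f _).trans_lt (hf'.trans_le (min_le_left _ _))
      have h4 : dist (G' s z.2) (G u z.2) ≤ dist (toC f' (emb s z.2)) (toC h (emb u z.2)) := lip_dist hφ _ _
      have h5 := dist_triangle (toC f' (emb s z.2)) (toC f (emb s z.2)) (toC h (emb u z.2))
      rw [← Real.dist_eq]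
      linarith
    have c1 := abs_lt.1 (hclose s1 p ⟨l1, by linarith⟩ hp01 w1)
    have c2 := abs_lt.1 (hclose s2 q ⟨by linarith, by linarith⟩ hq01 w2)
    have c3 := abs_lt.1 (hclose s3 p ⟨by linarith, by linarith⟩ hp01 w3)
    have c4 := abs_lt.1 (hclose s4 q ⟨by linarith, l5⟩ hq01 w4)
    refine ⟨s1, s2, s3, s4, hp.1.trans l1, l2, l3, l4, l5.trans hq.2, ?_, ?_, ?_, ?_⟩
    · show G' s1 z.2 < z.1
      linarith [c1.2]
    · show z.1 < G' s2 z.2
      linarith [c2.1]
    · show G' s3 z.2 < z.1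
      linarith [c3.2]
    · show z.1 < G' s4 z.2
      linarith [c4.1]
  have hsub : Bad G' a b ⊆ (W G a b \ Ex G a b (σ / 2) m) ∪
      ({z : Y (k + 1) | z.2 ∈ Icc (0 : Fin (k + 1) → ℝ) 1 ∧ |z.1 - G a z.2| ≤ ε / 32} ∪
      {z : Y (k + 1) | z.2 ∈ Icc (0 : Fin (k + 1) → ℝ) 1 ∧ |z.1 - G b z.2| ≤ ε / 32}) := by
    rintro z ⟨hzW, hz4⟩
    rcases W_diff hρ hzW with h1 | h1
    · exact Or.inl ⟨h1, fun h2 => hz4 (hfour z h2)⟩
    · exact Or.inr h1
  have hGa : Continuous (G a) := hGc.comp (continuous_const.prodMk continuous_id)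
  have hGb : Continuous (G b) := hGc.comp (continuous_const.prodMk continuous_id)
  calc volume (Bad G' a b) ≤ volume (W G a b \ Ex G a b (σ / 2) m) +
        (volume {z : Y (k + 1) | z.2 ∈ Icc (0 : Fin (k + 1) → ℝ) 1 ∧ |z.1 - G a z.2| ≤ ε / 32} +
        volume {z : Y (k + 1) | z.2 ∈ Icc (0 : Fin (k + 1) → ℝ) 1 ∧ |z.1 - G b z.2| ≤ ε / 32}) :=
        (measure_mono hsub).trans ((measure_union_le _ _).trans (by
          gcongr
          exact measure_union_le _ _))
    _ < ENNReal.ofReal (ε / 2) + (ENNReal.ofReal (2 * (ε / 32)) + ENNReal.ofReal (2 * (ε / 32))) := by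
        refine ENNReal.add_lt_add_of_lt_of_le ?_ hm (add_le_add (volume_strip hGa _) (volume_strip hGb _))
        have h1 := volume_strip hGa (ε / 32)
        have h2 := volume_strip hGb (ε / 32)
        exact ENNReal.add_ne_top.2 ⟨ne_top_of_le_ne_top ENNReal.ofReal_ne_top h1,
          ne_top_of_le_ne_top ENNReal.ofReal_ne_top h2⟩
    _ ≤ ENNReal.ofReal ε := by
        rw [← ENNReal.ofReal_add (by positivity) (by positivity),
          ← ENNReal.ofReal_add (by positivity) (by positivity)]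
        apply ENNReal.ofReal_le_ofReal
        linarith

/-- For generic homeomorphisms the exceptional set is null. -/
theorem generic_null {k : ℕ} {φ : Cube (k + 2) → ℝ} (hφ : LipschitzWith 1 φ)
    (hφ1 : ∀ x, |φ x| ≤ 1) {a b : ℝ} (ha : 0 ≤ a) (hab : a < b) (hb : b ≤ 1) :
    ∀ᶠ f in residual (Homeo (k + 2)), volume (Bad (Gf φ (toC f)) a b) = 0 := by
  have h1 : ∀ n : ℕ, ∀ᶠ f in residual (Homeo (k + 2)),
      volume (Bad (Gf φ (toC f)) a b) < ENNReal.ofReal (1 / ((n : ℝ) + 1)) := by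
    intro n
    set U : Set (Homeo (k + 2)) := interior {f | volume (Bad (Gf φ (toC f)) a b) <
      ENNReal.ofReal (1 / ((n : ℝ) + 1))} with hU
    have hUd : Dense U := by
      rw [Metric.dense_iff]
      intro h δ hδ
      obtain ⟨f, hf, r, hr, hr'⟩ := perturb hφ hφ1 ha hab hb h hδ
        (show (0 : ℝ) < 1 / ((n : ℝ) + 1) by positivity)
      refine ⟨f, Metric.mem_ball.2 hf, ?_⟩
      rw [hU, mem_interior_iff_mem_nhds]
      exact Filter.mem_of_superset (Metric.ball_mem_nhds f hr) fun f' hf' => hr' f' hf'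
    exact Filter.mem_of_superset (residual_of_dense_open isOpen_interior hUd) interior_subset
  have h2 := eventually_countable_forall.2 h1
  filter_upwards [h2] with f hf
  by_contra hne
  have hpos : 0 < volume (Bad (Gf φ (toC f)) a b) := pos_iff_ne_zero.2 hne
  have hlim : Tendsto (fun n : ℕ => ENNReal.ofReal (1 / ((n : ℝ) + 1))) atTop (𝓝 0) := by
    rw [← ENNReal.ofReal_zero]
    exact (ENNReal.continuous_ofReal.tendsto 0).comp tendsto_one_div_add_atTop_nhds_zero_nat
  obtain ⟨n, hn⟩ := (hlim.eventually (gt_mem_nhds hpos)).exists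
  exact absurd (hf n) (not_lt.2 hn.le)

end Pool.Agent.X195.GH
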