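import Pool.Agent.X195.GH4

/-!
Uncountable level sets, and the graph of a generic homeomorphism.
-/
open MeasureTheory Set Filter Topology
open scoped ENNReal NNReal Real

namespace Pool.Agent.X195.GH

/-- nested intervals: a level whose crossings always split has an uncountable level set -/
theorem level_uncountable {g : ℝ → ℝ} (hg : Continuous g) {t : ℝ} (h0 : g 0 < t) (h1 : t < g 1)
    (H : ∀ a b : ℝ, 0 ≤ a → a < b → b ≤ 1 → g a < t → t < g b → Four g t a b) :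
    ¬ {s : ℝ | s ∈ Icc (0 : ℝ) 1 ∧ g s = t}.Countable := by
  intro hc
  have hne : {s : ℝ | s ∈ Icc (0 : ℝ) 1 ∧ g s = t}.Nonempty := by
    obtain ⟨s, hs, hs'⟩ := intermediate_value_Icc (zero_le_one' ℝ) hg.continuousOn
      (show t ∈ Icc (g 0) (g 1) from ⟨h0.le, h1.le⟩)
    exact ⟨s, hs, hs'⟩
  obtain ⟨e, he⟩ := hc.exists_eq_range hne
  -- the state space
  let S := {p : ℝ × ℝ // 0 ≤ p.1 ∧ p.1 < p.2 ∧ p.2 ≤ 1 ∧ g p.1 < t ∧ t < g p.2}
  have hstep : ∀ (p : S) (n : ℕ), ∃ q : S, p.1.1 ≤ q.1.1 ∧ q.1.2 ≤ p.1.2 ∧ e n ∉ Icc q.1.1 q.1.2 := by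
    intro p n
    obtain ⟨⟨a, b⟩, h2, h3, h4, h5, h6⟩ := p
    obtain ⟨s1, s2, s3, s4, l1, l2, l3, l4, l5, w1, w2, w3, w4⟩ := H a b h2 h3 h4 h5 h6
    simp only at h2 h3 h4 h5 h6
    by_cases hen : e n ∈ Icc s1 s2
    · refine ⟨⟨(s3, s4), by simp only; linarith, l4, l5.trans h4, w3, w4⟩, ?_, l5, ?_⟩
      · simp only
        linarith
      · intro h
        have h7 := hen.2
        have h8 := h.1
        simp only at h8
        linarith
    · refine ⟨⟨(s1, s2), h2.trans l1, l2, by simp only; linarith, w1, w2⟩, l1, ?_, hen⟩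
      simp only
      linarith
  choose nxt hn1 hn2 hn3 using hstep
  let p0 : S := ⟨(0, 1), le_rfl, one_pos, le_rfl, h0, h1⟩
  let P : ℕ → S := fun n => Nat.rec p0 (fun n p => nxt p n) n
  have hP : ∀ n, P (n + 1) = nxt (P n) n := fun n => rfl
  let C : ℕ → Set ℝ := fun n => Icc (P n).1.1 (P n).1.2 ∩ {s | g s = t}
  have hC : (⋂ n, C n).Nonempty := by
    refine IsCompact.nonempty_iInter_of_sequence_nonempty_isCompact_isClosed C ?_ ?_ ?_ ?_
    · intro n s hs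
      refine ⟨⟨?_, ?_⟩, hs.2⟩
      · refine (hn1 (P n) n).trans ?_
        rw [← hP]
        exact hs.1.1
      · refine le_trans ?_ (hn2 (P n) n)
        rw [← hP]
        exact hs.1.2
    · intro n
      obtain ⟨s, hs, hs'⟩ := intermediate_value_Icc (P n).2.2.1.le hg.continuousOn
        (show t ∈ Icc (g (P n).1.1) (g (P n).1.2) from ⟨(P n).2.2.2.2.1.le, (P n).2.2.2.2.2.le⟩)
      exact ⟨s, hs, hs'⟩
    · exact isCompact_Icc.inter_right (isClosed_eq hg continuous_const)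
    · intro n
      exact isClosed_Icc.inter (isClosed_eq hg continuous_const)
  obtain ⟨c, hc⟩ := hC
  rw [mem_iInter] at hc
  have hcL : c ∈ {s : ℝ | s ∈ Icc (0 : ℝ) 1 ∧ g s = t} := ⟨(hc 0).1, (hc 0).2⟩
  rw [he] at hcL
  obtain ⟨n, hn⟩ := hcL
  have h7 := (hc (n + 1)).1
  rw [hP, ← hn] at h7
  exact hn3 _ _ h7

theorem Four.mono {g : ℝ → ℝ} {t a b a' b' : ℝ} (h : Four g t a b) (ha : a' ≤ a) (hb : b ≤ b') :
    Four g t a' b' := by
  obtain ⟨s1, s2, s3, s4, l1, l2, l3, l4, l5, w⟩ := h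
  exact ⟨s1, s2, s3, s4, ha.trans l1, l2, l3, l4, l5.trans hb, w⟩

/-- from rational to real intervals -/
theorem four_of_rat {g : ℝ → ℝ} (hg : Continuous g) {t : ℝ}
    (H : ∀ a b : ℚ, (0 : ℝ) ≤ a → (a : ℝ) < b → (b : ℝ) ≤ 1 → g a < t → t < g b → Four g t a b)
    (a b : ℝ) (ha : 0 ≤ a) (hab : a < b) (hb : b ≤ 1) (h1 : g a < t) (h2 : t < g b) :
    Four g t a b := by
  have e1 : ∀ᶠ u in 𝓝[>] a, g u < t :=
    nhdsWithin_le_nhds (hg.continuousAt.eventually (gt_mem_nhds h1))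
  have e2 : ∀ᶠ u in 𝓝[<] b, t < g u :=
    nhdsWithin_le_nhds (hg.continuousAt.eventually (lt_mem_nhds h2))
  set m := (a + b) / 2 with hm
  have e3 : Ioo a m ∈ 𝓝[>] a := Ioo_mem_nhdsGT (by linarith)
  have e4 : Ioo m b ∈ 𝓝[<] b := Ioo_mem_nhdsLT (by linarith)
  obtain ⟨u, hu, hu'⟩ := mem_nhdsGT_iff_exists_Ioo_subset.1 (inter_mem e1 e3)
  obtain ⟨v, hv, hv'⟩ := mem_nhdsLT_iff_exists_Ioo_subset.1 (inter_mem e2 e4)
  obtain ⟨a', ha1, ha2⟩ := exists_rat_btwn (show a < u from hu)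
  obtain ⟨b', hb1, hb2⟩ := exists_rat_btwn (show v < b from hv)
  have c1 := hu' ⟨ha1, ha2⟩
  have c2 := hv' ⟨hb1, hb2⟩
  have c3 : (a' : ℝ) < m := c1.2.2
  have c4 : m < (b' : ℝ) := c2.2.1
  exact (H a' b' (ha.trans c1.2.1.le) (c3.trans c4) (c2.2.2.le.trans hb) c1.1 c2.1).mono
    c1.2.1.le c2.2.2.le

/-- The graph of a homeomorphism as a subset of Euclidean space. -/
def graph {d : ℕ} (f : Homeo d) : Set (EuclideanSpace ℝ (Fin d ⊕ Fin d)) :=
  {p | ∃ x : Cube d, ∀ i, p (Sum.inl i) = (x i : ℝ) ∧ p (Sum.inr i) = (toC f x i : ℝ)}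

/-- `σ`-finiteness of `d`-dimensional Hausdorff measure on the graph. -/
def SigmaFiniteGraph {d : ℕ} (f : Homeo d) : Prop :=
  ∃ A : ℕ → Set (EuclideanSpace ℝ (Fin d ⊕ Fin d)), graph f = ⋃ n, A n ∧
    ∀ n, μH[(d : ℝ)] (A n) < ∞

/-- the signed coordinate -/
def sgn (b : Bool) : ℝ := if b then 1 else -1

theorem abs_sgn (b : Bool) : |sgn b| = 1 := by cases b <;> simp [sgn]

/-- the signed coordinate observable -/
def obs {k : ℕ} (b : Bool) (j : Fin (k + 2)) (x : Cube (k + 2)) : ℝ := sgn b * (x j : ℝ)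

theorem lip_obs {k : ℕ} (b : Bool) (j : Fin (k + 2)) : LipschitzWith 1 (obs b j : Cube (k + 2) → ℝ) := by
  refine LipschitzWith.of_dist_le_mul fun x y => ?_
  rw [NNReal.coe_one, one_mul, Real.dist_eq]
  unfold obs
  rw [← mul_sub, abs_mul, abs_sgn, one_mul, ← Real.dist_eq, ← Subtype.dist_eq]
  exact dist_le_pi_dist x y j

theorem obs_le {k : ℕ} (b : Bool) (j : Fin (k + 2)) (x : Cube (k + 2)) : |obs b j x| ≤ 1 := by
  unfold obs
  rw [abs_mul, abs_sgn, one_mul, abs_of_nonneg (x j).2.1]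
  exact (x j).2.2

/-- the projection of the product space -/
def pr {k : ℕ} (b : Bool) (j : Fin (k + 2)) (p : EuclideanSpace ℝ (Fin (k + 2) ⊕ Fin (k + 2))) :
    Y (k + 1) := (sgn b * p (Sum.inr j), fun i => p (Sum.inl i.succ))

theorem lip_pr {k : ℕ} (b : Bool) (j : Fin (k + 2)) :
    LipschitzWith 1 (pr b j : EuclideanSpace ℝ (Fin (k + 2) ⊕ Fin (k + 2)) → Y (k + 1)) := by
  refine LipschitzWith.of_dist_le_mul fun x y => ?_
  rw [NNReal.coe_one, one_mul]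
  have hcoord : ∀ i, dist (x i) (y i) ≤ dist x y := by
    intro i
    rw [dist_eq_norm, dist_eq_norm, ← PiLp.sub_apply]
    exact PiLp.norm_apply_le (x - y) i
  unfold pr
  rw [Prod.dist_eq, max_le_iff]
  constructor
  · simp only
    rw [Real.dist_eq, ← mul_sub, abs_mul, abs_sgn, one_mul, ← Real.dist_eq]
    exact hcoord _
  · simp only
    rw [dist_pi_le_iff dist_nonneg]
    intro i
    exact hcoord _

/-- Core statement in dimension `k + 2`. -/
theorem generic_core (k : ℕ) :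
    ∀ᶠ f in residual (Homeo (k + 2)), ¬ SigmaFiniteGraph f := by
  have h1 : ∀ w : Bool × Fin (k + 2) × ℚ × ℚ, ∀ᶠ f in residual (Homeo (k + 2)),
      (0 : ℝ) ≤ w.2.2.1 → (w.2.2.1 : ℝ) < w.2.2.2 → (w.2.2.2 : ℝ) ≤ 1 →
      volume (Bad (Gf (obs w.1 w.2.1) (toC f)) w.2.2.1 w.2.2.2) = 0 := by
    rintro ⟨b, j, a, c⟩
    by_cases hh : (0 : ℝ) ≤ a ∧ (a : ℝ) < c ∧ (c : ℝ) ≤ 1
    · filter_upwards [generic_null (lip_obs b j) (obs_le b j) hh.1 hh.2.1 hh.2.2] with f hf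
      exact fun _ _ _ => hf
    · exact Eventually.of_forall fun f h1 h2 h3 => absurd ⟨h1, h2, h3⟩ hh
  filter_upwards [eventually_countable_forall.2 h1] with f hf
  rintro ⟨A, hA, hAf⟩
  -- choice of coordinate and sign
  set y0 : Fin (k + 1) → ℝ := fun _ => 1 / 2 with hy0
  have hne : toC f (emb 0 y0) ≠ toC f (emb 1 y0) := by
    intro h
    have h2 : (emb 0 y0 : Cube (k + 2)) = emb 1 y0 :=
      Homeomorph.injective (f : Cube (k + 2) ≃ₜ Cube (k + 2)) h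
    have h3 : ((emb 0 y0 : Cube (k + 2)) 0 : ℝ) = (emb 1 y0 : Cube (k + 2)) 0 := by rw [h2]
    rw [emb_zero ⟨le_rfl, zero_le_one⟩, emb_zero ⟨zero_le_one, le_rfl⟩] at h3
    exact zero_ne_one h3
  obtain ⟨j, hj⟩ := Function.ne_iff.1 hne
  obtain ⟨b, hb⟩ : ∃ b : Bool, obs b j (toC f (emb 0 y0)) < obs b j (toC f (emb 1 y0)) := by
    have hj' : ((toC f (emb 0 y0) j : unitInterval) : ℝ) ≠ (toC f (emb 1 y0) j : unitInterval) :=
      fun h => hj (Subtype.ext h)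
    rcases lt_or_gt_of_ne hj' with h | h
    · exact ⟨true, by simpa [obs, sgn] using h⟩
    · exact ⟨false, by simpa [obs, sgn] using h⟩
  set G := Gf (obs b j) (toC f) with hG
  have hGc : Continuous (Function.uncurry G) := continuous_Gf (lip_obs b j).continuous (toC f).continuous
  have hG0 : Continuous (G 0) := hGc.comp (continuous_const.prodMk continuous_id)
  have hG1 : Continuous (G 1) := hGc.comp (continuous_const.prodMk continuous_id)
  -- positive measure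
  set O : Set (Y (k + 1)) := {z | z.2 ∈ Set.pi univ (fun _ : Fin (k + 1) => Ioo (0 : ℝ) 1) ∧
    G 0 z.2 < z.1 ∧ z.1 < G 1 z.2} with hO
  have hOo : IsOpen O := by
    refine IsOpen.inter ?_ (IsOpen.inter ?_ ?_)
    · exact (isOpen_set_pi finite_univ fun _ _ => isOpen_Ioo).preimage continuous_snd
    · exact isOpen_lt (hG0.comp continuous_snd) continuous_fst
    · exact isOpen_lt continuous_fst (hG1.comp continuous_snd)
  have hOn : O.Nonempty := by
    refine ⟨((G 0 y0 + G 1 y0) / 2, y0), ?_, ?_, ?_⟩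
    · intro i _
      simp only [hy0]
      constructor <;> norm_num
    · have : G 0 y0 < G 1 y0 := hb
      show G 0 y0 < (G 0 y0 + G 1 y0) / 2
      linarith
    · have : G 0 y0 < G 1 y0 := hb
      show (G 0 y0 + G 1 y0) / 2 < G 1 y0
      linarith
  have hOp : 0 < volume O := hOo.measure_pos _ hOn
  -- almost every level is good
  have hgood : ∀ᵐ z : Y (k + 1), (∀ q : ℚ × ℚ, (0 : ℝ) ≤ q.1 → (q.1 : ℝ) < q.2 → (q.2 : ℝ) ≤ 1 →
      z ∉ Bad G q.1 q.2) ∧ ∀ n, (A n ∩ pr b j ⁻¹' {z}).Finite := by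
    refine Filter.Eventually.and ?_ ?_
    · rw [ae_all_iff]
      intro q
      by_cases hh : (0 : ℝ) ≤ q.1 ∧ (q.1 : ℝ) < q.2 ∧ (q.2 : ℝ) ≤ 1
      · have := hf (b, j, q.1, q.2) hh.1 hh.2.1 hh.2.2
        filter_upwards [measure_eq_zero_iff_ae_notMem.1 this] with z hz
        exact fun _ _ _ => hz
      · exact Eventually.of_forall fun z h1 h2 h3 => absurd ⟨h1, h2, h3⟩ hh
    · rw [ae_all_iff]
      intro n
      refine fibre_finite (pr b j) (lip_pr b j) (A n) ?_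
      exact hAf n
  obtain ⟨z, hzO, hz1, hz2⟩ : ∃ z ∈ O, (∀ q : ℚ × ℚ, (0 : ℝ) ≤ q.1 → (q.1 : ℝ) < q.2 →
      (q.2 : ℝ) ≤ 1 → z ∉ Bad G q.1 q.2) ∧ ∀ n, (A n ∩ pr b j ⁻¹' {z}).Finite := by
    by_contra hcon
    push Not at hcon
    refine hOp.ne' (measure_mono_null ?_ hgood)
    intro z hz hzz
    obtain ⟨n, hn⟩ := hcon z hz hzz.1
    exact hn (hzz.2 n)
  obtain ⟨hzy, hzl, hzr⟩ := hzO
  have hzI : z.2 ∈ Icc (0 : Fin (k + 1) → ℝ) 1 :=
    ⟨fun i => (hzy i (mem_univ i)).1.le, fun i => (hzy i (mem_univ i)).2.le⟩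
  have hgc : Continuous fun s => G s z.2 := hGc.comp (continuous_id.prodMk continuous_const)
  have hunc := level_uncountable hgc hzl hzr (four_of_rat hgc (by
    intro a c h1 h2 h3 h4 h5
    by_contra hcon
    exact hz1 (a, c) h1 h2 h3 ⟨⟨hzI, h4, h5⟩, hcon⟩))
  apply hunc
  -- the fibre of the graph is countable
  have hfib : (graph f ∩ pr b j ⁻¹' {z}).Countable := by
    rw [hA, iUnion_inter]
    exact countable_iUnion fun n => (hz2 n).countable
  set ι : ℝ → EuclideanSpace ℝ (Fin (k + 2) ⊕ Fin (k + 2)) := fun s =>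
    WithLp.toLp 2 (Sum.elim (fun i => ((emb s z.2 : Cube (k + 2)) i : ℝ))
      (fun i => ((toC f (emb s z.2)) i : ℝ))) with hι
  refine Set.MapsTo.countable_of_injOn (f := ι) (t := graph f ∩ pr b j ⁻¹' {z}) ?_ ?_ hfib
  · rintro s ⟨hs, hs'⟩
    refine ⟨⟨emb s z.2, fun i => ⟨rfl, rfl⟩⟩, ?_⟩
    rw [mem_preimage, mem_singleton_iff]
    refine Prod.ext ?_ ?_
    · exact hs'
    · funext i
      exact emb_succ (s := s) hzI i
  · intro s hs s' hs' hss
    have h2 : ι s (Sum.inl 0) = ι s' (Sum.inl 0) := by rw [hss]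
    have h3 : ((emb s z.2 : Cube (k + 2)) 0 : ℝ) = (emb s' z.2 : Cube (k + 2)) 0 := h2
    rw [emb_zero hs.1, emb_zero hs'.1] at h3
    exact h3

end Pool.Agent.X195.GH
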