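import Mathlib

set_option autoImplicit false

/-!
Finite `G`-posets and finite `G`-simplicial complexes, the order complex, the face poset, the
geometric realisation, the posets `Q_n G`, and the notions behind the three indices.
-/

namespace Pool.Agent.X195.GI

open Set Topology
open scoped Pointwise BigOperators

/-- A finite `G`-poset: a finite partially ordered set with an order preserving action of `G`. -/
structure GPoset (G : Type) [Group G] where
  /-- the ground set -/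
  E : Type
  [fin : Fintype E]
  [ord : PartialOrder E]
  [act : MulAction G E]
  mono : ∀ (g : G) (p q : E), p ≤ q → g • p ≤ g • q

attribute [instance] GPoset.fin GPoset.ord GPoset.act

/-- A finite `G`-simplicial complex: a finite vertex set `V`, a family of nonempty subsets of `V`
(the simplices) that contains all singletons and is closed under nonempty subsets, and an action of
`G` on `V` that maps simplices to simplices. -/
structure GComplex (G : Type) [Group G] where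
  /-- the vertex set -/
  V : Type
  [fin : Fintype V]
  [act : MulAction G V]
  /-- the simplices -/
  faces : Set (Set V)
  nonempty : ∀ σ ∈ faces, σ.Nonempty
  vertex : ∀ v, {v} ∈ faces
  down : ∀ σ ∈ faces, ∀ τ : Set V, τ ⊆ σ → τ.Nonempty → τ ∈ faces
  inv : ∀ g : G, ∀ σ ∈ faces, (fun v => g • v) '' σ ∈ faces

attribute [instance] GComplex.fin GComplex.act

variable {G : Type} [Group G]

/-- A `G`-poset is free if only the identity fixes a point. -/
def GPoset.IsFree (P : GPoset G) : Prop := ∀ (g : G) (p : P.E), g • p = p → g = 1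

/-- There is a `G`-map (order preserving, equivariant) of `G`-posets `P → Q`. -/
def GPoset.HasMap (P Q : GPoset G) : Prop :=
  ∃ ψ : P.E → Q.E, (∀ p q, p ≤ q → ψ p ≤ ψ q) ∧ ∀ (g : G) (p : P.E), ψ (g • p) = g • ψ p

/-- The order complex of a `G`-poset: its simplices are the nonempty chains. -/
def GPoset.Delta (P : GPoset G) : GComplex G where
  V := P.E
  faces := {σ | σ.Nonempty ∧ IsChain (· ≤ ·) σ}
  nonempty := fun σ h => h.1
  vertex := fun v => ⟨singleton_nonempty v, subsingleton_singleton.isChain⟩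
  down := fun σ h τ hτ hne => ⟨hne, h.2.mono hτ⟩
  inv := by
    rintro g σ ⟨h1, h2⟩
    refine ⟨h1.image _, ?_⟩
    rintro _ ⟨a, ha, rfl⟩ _ ⟨b, hb, rfl⟩ hab
    have hab' : a ≠ b := fun h => hab (by rw [h])
    rcases h2 ha hb hab' with h | h
    · exact Or.inl (P.mono g _ _ h)
    · exact Or.inr (P.mono g _ _ h)

/-- The geometric realisation of a finite complex, as a subset of `V → ℝ` (barycentric
coordinates), with the subspace topology. -/
def GComplex.real (K : GComplex G) : Set (K.V → ℝ) :=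
  {x | (∀ v, 0 ≤ x v) ∧ ∑ v, x v = 1 ∧ {v | x v ≠ 0} ∈ K.faces}

/-- The action of `G` on the realisation (permutation of barycentric coordinates). -/
def actR {V : Type} [MulAction G V] (g : G) (x : V → ℝ) : V → ℝ := fun v => x (g⁻¹ • v)

/-- A `G`-complex is free if the action on its geometric realisation is free. -/
def GComplex.IsFree (K : GComplex G) : Prop := ∀ (g : G), ∀ x ∈ K.real, actR g x = x → g = 1

/-- There is a continuous `G`-equivariant map `|K| → |L|`. -/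
def GComplex.HasTopMap (K L : GComplex G) : Prop :=
  ∃ f : (K.V → ℝ) → (L.V → ℝ), ContinuousOn f K.real ∧ (∀ x ∈ K.real, f x ∈ L.real) ∧
    ∀ (g : G), ∀ x ∈ K.real, f (actR g x) = actR g (f x)

/-- There is a `G`-equivariant simplicial map `K → L`. -/
def GComplex.HasSimpMap (K L : GComplex G) : Prop :=
  ∃ φ : K.V → L.V, (∀ σ ∈ K.faces, φ '' σ ∈ L.faces) ∧ ∀ (g : G) (v : K.V), φ (g • v) = g • φ v

/-- The face poset of a `G`-complex: its simplices ordered by inclusion. -/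
noncomputable def GComplex.F (K : GComplex G) : GPoset G :=
  letI : Fintype {σ : Set K.V // σ ∈ K.faces} := Fintype.ofFinite _
  letI : MulAction G {σ : Set K.V // σ ∈ K.faces} :=
    { smul := fun g σ => ⟨(fun v => g • v) '' σ.1, K.inv g σ.1 σ.2⟩
      one_smul := fun σ => Subtype.ext (by
        show (fun v => (1 : G) • v) '' σ.1 = σ.1
        simp)
      mul_smul := fun g h σ => Subtype.ext (by
        show (fun v => (g * h) • v) '' σ.1 = (fun v => g • v) '' ((fun v => h • v) '' σ.1)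
        rw [image_image]
        simp only [mul_smul]) }
  { E := {σ : Set K.V // σ ∈ K.faces}
    mono := fun g p q h => by
      show (fun v => g • v) '' p.1 ⊆ (fun v => g • v) '' q.1
      exact image_mono h }

/-- The ground set of `Q_n G`. -/
def QT (G : Type) (n : ℕ) : Type := G × Fin (n + 1)

instance (n : ℕ) [Fintype G] : Fintype (QT G n) := inferInstanceAs (Fintype (G × Fin (n + 1)))

instance (n : ℕ) : PartialOrder (QT G n) where
  le x y := x = y ∨ x.2 < y.2
  le_refl _ := Or.inl rfl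
  le_trans := by
    rintro x y z (rfl | h1) (rfl | h2)
    · exact Or.inl rfl
    · exact Or.inr h2
    · exact Or.inr h1
    · exact Or.inr (h1.trans h2)
  le_antisymm := by
    rintro x y (rfl | h1) (h2 | h2)
    · rfl
    · rfl
    · exact h2.symm
    · exact absurd (h1.trans h2) (lt_irrefl _)

instance (n : ℕ) : MulAction G (QT G n) where
  smul g x := (g * x.1, x.2)
  one_smul _ := Prod.ext (one_mul _) rfl
  mul_smul _ _ _ := Prod.ext (mul_assoc _ _ _) rfl

/-- The `G`-poset `Q_n G`: ground set `G × {0, …, n}`, `g • (h, i) = (g h, i)` and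
`(g, i) < (h, j)` iff `i < j`. -/
def Q (G : Type) [Group G] [Fintype G] (n : ℕ) : GPoset G where
  E := QT G n
  mono := by
    rintro g p q (rfl | h)
    · exact Or.inl rfl
    · exact Or.inr h

omit [Group G] in
theorem QT.le_def {n : ℕ} (x y : QT G n) : x ≤ y ↔ x = y ∨ x.2 < y.2 := Iff.rfl

theorem QT.smul_def {n : ℕ} (g : G) (x : QT G n) : g • x = (g * x.1, x.2) := rfl

/-! ### Basic functoriality -/

theorem actR_apply {V : Type} [MulAction G V] (g : G) (x : V → ℝ) (v : V) :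
    actR g x v = x (g⁻¹ • v) := rfl

theorem supp_actR {V : Type} [MulAction G V] (g : G) (x : V → ℝ) :
    {v | actR g x v ≠ 0} = (fun v => g • v) '' {v | x v ≠ 0} := by
  ext v
  constructor
  · intro hv
    exact ⟨g⁻¹ • v, hv, smul_inv_smul g v⟩
  · rintro ⟨w, hw, rfl⟩
    show x (g⁻¹ • g • w) ≠ 0
    rw [inv_smul_smul]
    exact hw

theorem sum_actR {V : Type} [Fintype V] [MulAction G V] (g : G) (x : V → ℝ) :
    ∑ v, actR g x v = ∑ v, x v :=
  Equiv.sum_comp (MulAction.toPerm g⁻¹) x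

theorem actR_mem (K : GComplex G) (g : G) {x : K.V → ℝ} (hx : x ∈ K.real) : actR g x ∈ K.real := by
  obtain ⟨h0, h1, h2⟩ := hx
  refine ⟨fun v => h0 _, by rw [sum_actR, h1], ?_⟩
  rw [supp_actR]
  exact K.inv g _ h2

theorem GComplex.HasTopMap.trans {K L M : GComplex G} (h1 : K.HasTopMap L) (h2 : L.HasTopMap M) :
    K.HasTopMap M := by
  obtain ⟨f, hf1, hf2, hf3⟩ := h1
  obtain ⟨g, hg1, hg2, hg3⟩ := h2
  refine ⟨g ∘ f, hg1.comp hf1 hf2, fun x hx => hg2 _ (hf2 x hx), fun a x hx => ?_⟩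
  show g (f (actR a x)) = actR a (g (f x))
  rw [hf3 a x hx, hg3 a _ (hf2 x hx)]

open Classical in
/-- the affine extension of a vertex map -/
noncomputable def push {V W : Type} [Fintype V] (φ : V → W) (x : V → ℝ) : W → ℝ :=
  fun w => ∑ v, if φ v = w then x v else 0

theorem push_nonneg {V W : Type} [Fintype V] (φ : V → W) {x : V → ℝ} (hx : ∀ v, 0 ≤ x v) (w : W) :
    0 ≤ push φ x w := by
  refine Finset.sum_nonneg fun v _ => ?_
  split_ifs
  · exact hx v
  · exact le_rfl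

theorem push_supp {V W : Type} [Fintype V] (φ : V → W) {x : V → ℝ} (hx : ∀ v, 0 ≤ x v) :
    {w | push φ x w ≠ 0} = φ '' {v | x v ≠ 0} := by
  classical
  ext w
  constructor
  · intro hw
    obtain ⟨v, -, hv⟩ := Finset.exists_ne_zero_of_sum_ne_zero hw
    by_cases h : φ v = w
    · rw [if_pos h] at hv
      exact ⟨v, hv, h⟩
    · rw [if_neg h] at hv
      exact absurd rfl hv
  · rintro ⟨v, hv, rfl⟩ h0
    have h1 : ∀ u ∈ Finset.univ, 0 ≤ if φ u = φ v then x u else 0 := by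
      intro u _
      split_ifs
      · exact hx u
      · exact le_rfl
    have h2 := (Finset.sum_eq_zero_iff_of_nonneg h1).mp h0 v (Finset.mem_univ v)
    rw [if_pos rfl] at h2
    exact hv h2

theorem push_sum {V W : Type} [Fintype V] [Fintype W] (φ : V → W) (x : V → ℝ) :
    ∑ w, push φ x w = ∑ v, x v := by
  classical
  unfold push
  rw [Finset.sum_comm]
  refine Finset.sum_congr rfl fun v _ => ?_
  rw [Finset.sum_ite_eq]
  simp

theorem push_act {V W : Type} [Fintype V] [MulAction G V] [MulAction G W] (φ : V → W)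
    (hφ : ∀ (g : G) (v : V), φ (g • v) = g • φ v) (g : G) (x : V → ℝ) :
    push φ (actR g x) = actR g (push φ x) := by
  classical
  funext w
  show (∑ v, if φ v = w then x (g⁻¹ • v) else 0) = ∑ v, if φ v = g⁻¹ • w then x v else 0
  rw [← Equiv.sum_comp (MulAction.toPerm g⁻¹) (fun v => if φ v = g⁻¹ • w then x v else 0)]
  refine Finset.sum_congr rfl fun v _ => ?_
  show (if φ v = w then x (g⁻¹ • v) else 0) = if φ (g⁻¹ • v) = g⁻¹ • w then x (g⁻¹ • v) else 0
  rw [hφ]
  simp only [smul_left_cancel_iff]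

theorem push_mem {K L : GComplex G} (φ : K.V → L.V) (h : ∀ σ ∈ K.faces, φ '' σ ∈ L.faces)
    {x : K.V → ℝ} (hx : x ∈ K.real) : push φ x ∈ L.real := by
  obtain ⟨h0, h1, h2⟩ := hx
  refine ⟨push_nonneg φ h0, by rw [push_sum, h1], ?_⟩
  rw [push_supp φ h0]
  exact h _ h2

theorem continuous_push {V W : Type} [Fintype V] (φ : V → W) : Continuous (push φ) := by
  classical
  refine continuous_pi fun w => ?_
  unfold push
  refine continuous_finsetSum _ fun v _ => ?_
  split_ifs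
  · exact continuous_apply v
  · exact continuous_const

theorem GComplex.HasSimpMap.topMap {K L : GComplex G} (h : K.HasSimpMap L) : K.HasTopMap L := by
  obtain ⟨φ, h1, h2⟩ := h
  exact ⟨push φ, (continuous_push φ).continuousOn, fun x hx => push_mem φ h1 hx,
    fun g x _ => push_act φ h2 g x⟩

theorem GPoset.HasMap.simpMap {P R : GPoset G} (h : P.HasMap R) : P.Delta.HasSimpMap R.Delta := by
  obtain ⟨ψ, h1, h2⟩ := h
  refine ⟨ψ, ?_, h2⟩
  rintro σ ⟨hσ1, hσ2⟩
  refine ⟨hσ1.image _, ?_⟩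
  rintro _ ⟨a, ha, rfl⟩ _ ⟨b, hb, rfl⟩ hab
  have hab' : a ≠ b := fun h => hab (by rw [h])
  rcases hσ2 ha hb hab' with h | h
  · exact Or.inl (h1 _ _ h)
  · exact Or.inr (h1 _ _ h)

/-- the inclusion `Q_k ⊆ Q_m`, `k ≤ m` -/
theorem Q_mono [Fintype G] {k m : ℕ} (h : k ≤ m) : (Q G k).HasMap (Q G m) := by
  refine ⟨fun x => ((x.1, Fin.castLE (by omega) x.2) : G × Fin (m + 1)), ?_, ?_⟩
  · rintro p q (rfl | h')
    · exact Or.inl rfl
    · exact Or.inr h'
  · intro g p
    rfl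

/-! ### Gluing over the simplices -/

/-- the closed simplex spanned by `σ` -/
def cell {V : Type} [Fintype V] (σ : Set V) : Set (V → ℝ) :=
  {x | (∀ v, 0 ≤ x v) ∧ ∑ v, x v = 1 ∧ ∀ v, v ∉ σ → x v = 0}

theorem cell_closed {V : Type} [Fintype V] (σ : Set V) : IsClosed (cell σ) := by
  have e : cell σ = (⋂ v, {x : V → ℝ | 0 ≤ x v}) ∩ ({x : V → ℝ | ∑ v, x v = 1} ∩
      ⋂ v, ⋂ (_ : v ∉ σ), {x : V → ℝ | x v = 0}) := by
    ext x
    simp only [cell, mem_ofPred_eq, mem_inter_iff, mem_iInter]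
  rw [e]
  refine (isClosed_iInter fun v => isClosed_le continuous_const (continuous_apply v)).inter
    (IsClosed.inter (isClosed_eq (by fun_prop) continuous_const) ?_)
  exact isClosed_iInter fun v => isClosed_iInter fun _ =>
    isClosed_eq (continuous_apply v) continuous_const

theorem supp_nonempty {V : Type} [Fintype V] {x : V → ℝ} (h : ∑ v, x v = 1) :
    {v | x v ≠ 0}.Nonempty := by
  by_contra hne
  rw [not_nonempty_iff_eq_empty] at hne
  have : ∀ v, x v = 0 := by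
    intro v
    by_contra hv
    have : v ∈ {v | x v ≠ 0} := hv
    rw [hne] at this
    exact this
  simp [this] at h

theorem cell_sub (K : GComplex G) {σ : Set K.V} (hσ : σ ∈ K.faces) : cell σ ⊆ K.real := by
  rintro x ⟨h0, h1, h2⟩
  refine ⟨h0, h1, K.down σ hσ _ ?_ (supp_nonempty h1)⟩
  intro v hv
  by_contra h
  exact hv (h2 v h)

theorem real_eq (K : GComplex G) : K.real = ⋃ σ : K.faces, cell σ.1 := by
  ext x
  constructor
  · rintro ⟨h0, h1, h2⟩
    refine mem_iUnion.mpr ⟨⟨_, h2⟩, h0, h1, fun v hv => ?_⟩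
    by_contra h
    exact hv h
  · intro hx
    obtain ⟨σ, hσ⟩ := mem_iUnion.mp hx
    exact cell_sub K σ.2 hσ

theorem continuousOn_real (K : GComplex G) {Y : Type} [TopologicalSpace Y] (F : (K.V → ℝ) → Y)
    (h : ∀ σ ∈ K.faces, ContinuousOn F (cell σ)) : ContinuousOn F K.real := by
  rw [real_eq]
  exact (locallyFinite_of_finite _).continuousOn_iUnion (fun σ => cell_closed σ.1)
    (fun σ => h σ.1 σ.2)

/-! ### Disjoint unions -/

/-- disjoint union of `G`-posets -/
def GPoset.sum (P R : GPoset G) : GPoset G where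
  E := P.E ⊕ R.E
  mono := by
    rintro g (p | p) (q | q) h
    · rw [Sum.inl_le_inl_iff] at h
      exact Sum.inl_le_inl_iff.mpr (P.mono g _ _ h)
    · exact absurd h (Sum.not_inl_le_inr)
    · exact absurd h (Sum.not_inr_le_inl)
    · rw [Sum.inr_le_inr_iff] at h
      exact Sum.inr_le_inr_iff.mpr (R.mono g _ _ h)

theorem GPoset.sum_free {P R : GPoset G} (h1 : P.IsFree) (h2 : R.IsFree) : (P.sum R).IsFree := by
  rintro g (p | p) h
  · exact h1 g p (Sum.inl_injective h)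
  · exact h2 g p (Sum.inr_injective h)

theorem GPoset.sum_inl (P R : GPoset G) : P.HasMap (P.sum R) :=
  ⟨Sum.inl, fun _ _ h => Sum.inl_le_inl_iff.mpr h, fun _ _ => rfl⟩

theorem GPoset.sum_inr (P R : GPoset G) : R.HasMap (P.sum R) :=
  ⟨Sum.inr, fun _ _ h => Sum.inr_le_inr_iff.mpr h, fun _ _ => rfl⟩

theorem GPoset.HasMap.trans {P R S : GPoset G} (h1 : P.HasMap R) (h2 : R.HasMap S) :
    P.HasMap S := by
  obtain ⟨f, hf1, hf2⟩ := h1
  obtain ⟨g, hg1, hg2⟩ := h2
  exact ⟨g ∘ f, fun p q h => hg1 _ _ (hf1 _ _ h), fun a p => by simp [hf2, hg2]⟩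

theorem GComplex.HasSimpMap.trans {P R S : GComplex G} (h1 : P.HasSimpMap R)
    (h2 : R.HasSimpMap S) : P.HasSimpMap S := by
  obtain ⟨f, hf1, hf2⟩ := h1
  obtain ⟨g, hg1, hg2⟩ := h2
  exact ⟨g ∘ f, fun σ hσ => by rw [image_comp]; exact hg1 _ (hf1 _ hσ),
    fun a p => by simp [hf2, hg2]⟩

theorem GPoset.sum_hasMap {P R S : GPoset G} (h1 : P.HasMap S) (h2 : R.HasMap S) :
    (P.sum R).HasMap S := by
  obtain ⟨f, hf1, hf2⟩ := h1
  obtain ⟨g, hg1, hg2⟩ := h2
  refine ⟨Sum.elim f g, ?_, ?_⟩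
  · rintro (p | p) (q | q) h
    · exact hf1 _ _ (Sum.inl_le_inl_iff.mp h)
    · exact absurd h (Sum.not_inl_le_inr)
    · exact absurd h (Sum.not_inr_le_inl)
    · exact hg1 _ _ (Sum.inr_le_inr_iff.mp h)
  · rintro a (p | p)
    · exact hf2 a p
    · exact hg2 a p

/-- disjoint union of `G`-complexes -/
def GComplex.sum (K L : GComplex G) : GComplex G where
  V := K.V ⊕ L.V
  faces := {σ | (∃ τ ∈ K.faces, σ = Sum.inl '' τ) ∨ (∃ τ ∈ L.faces, σ = Sum.inr '' τ)}
  nonempty := by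
    rintro σ (⟨τ, hτ, rfl⟩ | ⟨τ, hτ, rfl⟩)
    · exact (K.nonempty τ hτ).image _
    · exact (L.nonempty τ hτ).image _
  vertex := by
    rintro (v | v)
    · exact Or.inl ⟨{v}, K.vertex v, by simp⟩
    · exact Or.inr ⟨{v}, L.vertex v, by simp⟩
  down := by
    rintro σ (⟨τ, hτ, rfl⟩ | ⟨τ, hτ, rfl⟩) ρ hρ hne
    · refine Or.inl ⟨Sum.inl ⁻¹' ρ, ?_, ?_⟩
      · refine K.down τ hτ _ ?_ ?_
        · intro v hv
          obtain ⟨w, hw, h⟩ := hρ hv
          rwa [← Sum.inl_injective h]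
        · obtain ⟨v, hv⟩ := hne
          obtain ⟨w, hw, rfl⟩ := hρ hv
          exact ⟨w, hv⟩
      · rw [image_preimage_eq_iff.mpr]
        intro v hv
        obtain ⟨w, hw, rfl⟩ := hρ hv
        exact ⟨w, rfl⟩
    · refine Or.inr ⟨Sum.inr ⁻¹' ρ, ?_, ?_⟩
      · refine L.down τ hτ _ ?_ ?_
        · intro v hv
          obtain ⟨w, hw, h⟩ := hρ hv
          rwa [← Sum.inr_injective h]
        · obtain ⟨v, hv⟩ := hne
          obtain ⟨w, hw, rfl⟩ := hρ hv
          exact ⟨w, hv⟩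
      · rw [image_preimage_eq_iff.mpr]
        intro v hv
        obtain ⟨w, hw, rfl⟩ := hρ hv
        exact ⟨w, rfl⟩
  inv := by
    rintro g σ (⟨τ, hτ, rfl⟩ | ⟨τ, hτ, rfl⟩)
    · refine Or.inl ⟨_, K.inv g τ hτ, ?_⟩
      rw [image_image, image_image]
      rfl
    · refine Or.inr ⟨_, L.inv g τ hτ, ?_⟩
      rw [image_image, image_image]
      rfl

theorem GComplex.sum_inl (K L : GComplex G) : K.HasSimpMap (K.sum L) :=
  ⟨Sum.inl, fun σ hσ => Or.inl ⟨σ, hσ, rfl⟩, fun _ _ => rfl⟩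

theorem GComplex.sum_inr (K L : GComplex G) : L.HasSimpMap (K.sum L) :=
  ⟨Sum.inr, fun σ hσ => Or.inr ⟨σ, hσ, rfl⟩, fun _ _ => rfl⟩

theorem GComplex.sum_hasTopMap {K L M : GComplex G} (h1 : K.HasTopMap M) (h2 : L.HasTopMap M) :
    (K.sum L).HasTopMap M := by
  classical
  obtain ⟨f, hf1, hf2, hf3⟩ := h1
  obtain ⟨g, hg1, hg2, hg3⟩ := h2
  have key1 : ∀ τ ∈ K.faces, ∀ x : (K.V ⊕ L.V) → ℝ, x ∈ cell (Sum.inl '' τ : Set (K.V ⊕ L.V)) →
      (fun v => x (Sum.inl v)) ∈ cell τ ∧ ∃ v, x (Sum.inl v) ≠ 0 := by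
    rintro τ hτ x ⟨h0, h1, h2⟩
    have hs : ∑ v, x (Sum.inl v) = 1 := by
      rw [Fintype.sum_sum_type] at h1
      have : ∑ v : L.V, x (Sum.inr v) = 0 :=
        Finset.sum_eq_zero fun v _ => h2 _ (by rintro ⟨w, -, hw⟩; exact absurd hw (by simp))
      rwa [this, add_zero] at h1
    refine ⟨⟨fun v => h0 _, hs, fun v hv => h2 _ ?_⟩, supp_nonempty hs⟩
    rintro ⟨w, hw1, hw2⟩
    exact hv (Sum.inl_injective hw2 ▸ hw1)
  have key2 : ∀ τ ∈ L.faces, ∀ x : (K.V ⊕ L.V) → ℝ, x ∈ cell (Sum.inr '' τ : Set (K.V ⊕ L.V)) →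
      (fun v => x (Sum.inr v)) ∈ cell τ ∧ ¬ ∃ v, x (Sum.inl v) ≠ 0 := by
    rintro τ hτ x ⟨h0, h1, h2⟩
    have hs0 : ∀ v : K.V, x (Sum.inl v) = 0 := fun v => h2 _ (by
      rintro ⟨w, -, hw⟩; exact absurd hw (by simp))
    have hs : ∑ v, x (Sum.inr v) = 1 := by
      rw [Fintype.sum_sum_type] at h1
      have : ∑ v : K.V, x (Sum.inl v) = 0 := Finset.sum_eq_zero fun v _ => hs0 v
      rwa [this, zero_add] at h1
    refine ⟨⟨fun v => h0 _, hs, fun v hv => h2 _ ?_⟩, ?_⟩
    · rintro ⟨w, hw1, hw2⟩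
      exact hv (Sum.inr_injective hw2 ▸ hw1)
    · rintro ⟨v, hv⟩
      exact hv (hs0 v)
  let F : ((K.sum L).V → ℝ) → (M.V → ℝ) := fun x =>
    if ∃ v : K.V, x (Sum.inl v) ≠ 0 then f (fun v => x (Sum.inl v)) else g (fun v => x (Sum.inr v))
  have hF1 : ∀ τ ∈ K.faces, ∀ x : (K.V ⊕ L.V) → ℝ, x ∈ cell (Sum.inl '' τ : Set (K.V ⊕ L.V)) →
      F x = f (fun v => x (Sum.inl v)) := fun τ hτ x hx => if_pos (key1 τ hτ x hx).2
  have hF2 : ∀ τ ∈ L.faces, ∀ x : (K.V ⊕ L.V) → ℝ, x ∈ cell (Sum.inr '' τ : Set (K.V ⊕ L.V)) →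
      F x = g (fun v => x (Sum.inr v)) := fun τ hτ x hx => if_neg (key2 τ hτ x hx).2
  have hcase : ∀ x ∈ (K.sum L).real, (∃ τ ∈ K.faces, x ∈ cell (Sum.inl '' τ : Set (K.V ⊕ L.V))) ∨
      (∃ τ ∈ L.faces, x ∈ cell (Sum.inr '' τ : Set (K.V ⊕ L.V))) := by
    rintro x ⟨h0, h1, (⟨τ, hτ, h2⟩ | ⟨τ, hτ, h2⟩)⟩
    · refine Or.inl ⟨τ, hτ, h0, h1, fun v hv => ?_⟩
      by_contra hne
      exact hv (h2 ▸ hne)
    · refine Or.inr ⟨τ, hτ, h0, h1, fun v hv => ?_⟩
      by_contra hne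
      exact hv (h2 ▸ hne)
  refine ⟨F, ?_, ?_, ?_⟩
  · refine continuousOn_real _ F ?_
    rintro σ (⟨τ, hτ, rfl⟩ | ⟨τ, hτ, rfl⟩)
    · refine ContinuousOn.congr (f := fun x => f (fun v => x (Sum.inl v))) ?_
        (fun x hx => hF1 τ hτ x hx)
      refine hf1.comp (f := fun x : (K.V ⊕ L.V) → ℝ => fun v => x (Sum.inl v))
        (Continuous.continuousOn (by fun_prop)) ?_
      intro x hx
      exact cell_sub K hτ (key1 τ hτ x hx).1
    · refine ContinuousOn.congr (f := fun x => g (fun v => x (Sum.inr v))) ?_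
        (fun x hx => hF2 τ hτ x hx)
      refine hg1.comp (f := fun x : (K.V ⊕ L.V) → ℝ => fun v => x (Sum.inr v))
        (Continuous.continuousOn (by fun_prop)) ?_
      intro x hx
      exact cell_sub L hτ (key2 τ hτ x hx).1
  · intro x hx
    rcases hcase x hx with ⟨τ, hτ, h⟩ | ⟨τ, hτ, h⟩
    · rw [hF1 τ hτ x h]
      exact hf2 _ (cell_sub K hτ (key1 τ hτ x h).1)
    · rw [hF2 τ hτ x h]
      exact hg2 _ (cell_sub L hτ (key2 τ hτ x h).1)
  · intro a x hx
    rcases hcase x hx with ⟨τ, hτ, h⟩ | ⟨τ, hτ, h⟩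
    · rw [hF1 τ hτ x h, ← hf3 a _ (cell_sub K hτ (key1 τ hτ x h).1)]
      refine if_pos ?_
      obtain ⟨v, hv⟩ := (key1 τ hτ x h).2
      refine ⟨a • v, ?_⟩
      show x (a⁻¹ • (Sum.inl (a • v) : K.V ⊕ L.V)) ≠ 0
      rw [Sum.smul_inl, inv_smul_smul]
      exact hv
    · rw [hF2 τ hτ x h, ← hg3 a _ (cell_sub L hτ (key2 τ hτ x h).1)]
      refine if_neg ?_
      rintro ⟨v, hv⟩
      refine (key2 τ hτ x h).2 ⟨a⁻¹ • v, ?_⟩
      rw [← Sum.smul_inl]
      exact hv

theorem chain_sum {A B : Type} [PartialOrder A] [PartialOrder B] (σ : Set (A ⊕ B))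
    (hne : σ.Nonempty) (hσ : IsChain (· ≤ ·) σ) :
    (∃ τ : Set A, (τ.Nonempty ∧ IsChain (· ≤ ·) τ) ∧ σ = Sum.inl '' τ) ∨
      ∃ τ : Set B, (τ.Nonempty ∧ IsChain (· ≤ ·) τ) ∧ σ = Sum.inr '' τ := by
  obtain ⟨x, hx⟩ := hne
  rcases x with p | p
  · have hall : ∀ y ∈ σ, ∃ q : A, y = Sum.inl q := by
      rintro (q | q) hy
      · exact ⟨q, rfl⟩
      · rcases hσ hx hy (by simp) with h | h
        · exact absurd h Sum.not_inl_le_inr
        · exact absurd h Sum.not_inr_le_inl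
    refine Or.inl ⟨Sum.inl ⁻¹' σ, ⟨⟨p, hx⟩, ?_⟩, ?_⟩
    · intro a ha b hb hab
      rcases hσ ha hb (fun h => hab (Sum.inl_injective h)) with h | h
      · exact Or.inl (Sum.inl_le_inl_iff.mp h)
      · exact Or.inr (Sum.inl_le_inl_iff.mp h)
    · rw [image_preimage_eq_iff.mpr]
      intro y hy
      obtain ⟨q, rfl⟩ := hall y hy
      exact ⟨q, rfl⟩
  · have hall : ∀ y ∈ σ, ∃ q : B, y = Sum.inr q := by
      rintro (q | q) hy
      · rcases hσ hx hy (by simp) with h | h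
        · exact absurd h Sum.not_inr_le_inl
        · exact absurd h Sum.not_inl_le_inr
      · exact ⟨q, rfl⟩
    refine Or.inr ⟨Sum.inr ⁻¹' σ, ⟨⟨p, hx⟩, ?_⟩, ?_⟩
    · intro a ha b hb hab
      rcases hσ ha hb (fun h => hab (Sum.inr_injective h)) with h | h
      · exact Or.inl (Sum.inr_le_inr_iff.mp h)
      · exact Or.inr (Sum.inr_le_inr_iff.mp h)
    · rw [image_preimage_eq_iff.mpr]
      intro y hy
      obtain ⟨q, rfl⟩ := hall y hy
      exact ⟨q, rfl⟩

/-- The order complex of a disjoint union maps to the disjoint union of the order complexes. -/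
theorem Delta_sum (P R : GPoset G) : (P.sum R).Delta.HasSimpMap (P.Delta.sum R.Delta) := by
  refine ⟨fun x => x, ?_, fun _ _ => rfl⟩
  rintro σ ⟨hne, hσ⟩
  have himg : (fun x : P.E ⊕ R.E => x) '' σ = σ := image_id' σ
  have hs : σ ∈ (P.Delta.sum R.Delta).faces := by
    rcases chain_sum (A := P.E) (B := R.E) σ hne hσ with ⟨τ, h1, h2⟩ | ⟨τ, h1, h2⟩
    · exact Or.inl ⟨τ, h1, h2⟩
    · exact Or.inr ⟨τ, h1, h2⟩
  rw [← himg] at hs
  exact hs

end Pool.Agent.X195.GI
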