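import Pool.Agent.X195.GI1
import Pool.Agent.Helper954.Hopf.D1c

set_option autoImplicit false

/-!
The join `E_m G` has no continuous `G`-map to `E_k G` for `k < m` (Dold's theorem), for every
nontrivial finite group `G`.
-/

namespace Pool.Agent.X195.GI

open Set Topology Filter
open scoped Pointwise BigOperators ENNReal
open Pool.Agent.Helper954.Hopf.Dold

variable {G : Type} [Group G]

/-- an equivariant label of the elements of a group along the left cosets of a cyclic subgroup -/
theorem exists_label (t : G) (p : ℕ) (hp : orderOf t = p) :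
    ∃ lam : G → ZMod p, ∀ h, lam (t * h) = lam h + 1 := by
  classical
  let r : G → G → Prop := fun a b => ∃ n : ℤ, a = t ^ n * b
  have hr : Equivalence r := by
    refine ⟨fun a => ⟨0, by simp⟩, ?_, ?_⟩
    · rintro a b ⟨n, rfl⟩
      exact ⟨-n, by simp⟩
    · rintro a b c ⟨n, rfl⟩ ⟨l, rfl⟩
      exact ⟨n + l, by rw [zpow_add, mul_assoc]⟩
  let S : Setoid G := ⟨r, hr⟩
  let rep : G → G := fun a => (Quotient.mk S a).out
  have h1 : ∀ a, ∃ n : ℤ, a = t ^ n * rep a := fun a =>
    hr.symm (Quotient.mk_out (s := S) a)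
  have h2 : ∀ a, rep (t * a) = rep a := by
    intro a
    have : Quotient.mk S (t * a) = Quotient.mk S a := Quotient.sound ⟨1, by simp⟩
    show (Quotient.mk S (t * a)).out = (Quotient.mk S a).out
    rw [this]
  choose n hn using h1
  refine ⟨fun a => (n a : ZMod p), fun a => ?_⟩
  have h3 : t ^ n (t * a) = t ^ (n a + 1) := by
    have e1 := hn (t * a)
    have e2 := hn a
    rw [h2] at e1
    have e3 : t * (t ^ n a * rep a) = t ^ n (t * a) * rep a := by rw [← e2, ← e1]
    have e4 : t * t ^ n a = t ^ n (t * a) := by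
      apply mul_right_cancel (b := rep a)
      rw [mul_assoc, e3]
    rw [← e4, add_comm, zpow_add, zpow_one]
  have h4 : (n (t * a) : ℤ) ≡ n a + 1 [ZMOD (p : ℤ)] := by
    rw [← hp]
    exact zpow_eq_zpow_iff_modEq.mp h3
  have h5 := (ZMod.intCast_eq_intCast_iff _ _ p).mpr h4
  show ((n (t * a) : ℤ) : ZMod p) = (n a : ZMod p) + 1
  rw [h5]
  push_cast
  ring

theorem sh_isometry {p M : ℕ} [NeZero p] : Isometry (sh : VV p M → VV p M) := by
  refine Isometry.of_dist_eq fun x y => le_antisymm ?_ ?_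
  · refine (dist_pi_le_iff dist_nonneg).mpr fun i => (dist_pi_le_iff dist_nonneg).mpr fun l => ?_
    show dist (x i (l - 1)) (y i (l - 1)) ≤ dist x y
    exact (dist_le_pi_dist (x i) (y i) (l - 1)).trans (dist_le_pi_dist x y i)
  · have := D1c.dc_un_dist (sh x) (sh y)
    rwa [D1c.dc_un_sh, D1c.dc_un_sh] at this

theorem sh_image {p M : ℕ} (A B : Set (VV p M)) (h1 : ∀ x, sh x ∈ B ↔ x ∈ A) : sh '' A = B := by
  ext x
  constructor
  · rintro ⟨y, hy, rfl⟩
    exact (h1 y).mpr hy
  · intro hx
    refine ⟨D1c.dcun x, ?_, D1c.dc_sh_un x⟩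
    rw [← h1, D1c.dc_sh_un]
    exact hx

theorem sh_mem_iff {p M : ℕ} [NeZero p] (x : VV p M) : sh x ∈ JK p M ↔ x ∈ JK p M := by
  constructor
  · intro h
    obtain ⟨h0, h1, h2⟩ := h
    have e : ∀ i l, x i l = sh x i (l + 1) := fun i l => by simp [sh]
    refine ⟨fun i l => by rw [e]; exact h0 _ _, ?_, fun i l l' hl => ?_⟩
    · rw [← h1]
      refine Finset.sum_congr rfl fun i _ => ?_
      rw [← Equiv.sum_comp (Equiv.addRight (1 : ZMod p)) (fun l => sh x i l)]
      exact Finset.sum_congr rfl fun l _ => e i l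
    · rw [e, e i l']
      exact h2 i (l + 1) (l' + 1) (by simpa using hl)
  · exact D1c.dc_sh_mem p M

/-- Dold's theorem for joins of a cyclic group of prime order, in terms of finitely many
equivariant level functions defined on the join only. -/
theorem join_levels (p : ℕ) [Fact p.Prime] (M : ℕ) {J : Type} [Fintype J]
    (hJ : Fintype.card J < M) (w : J → ZMod p → VV p M → ℝ)
    (hw : ∀ j l, ContinuousOn (w j l) (JK p M))
    (hdisj : ∀ j, ∀ x ∈ JK p M, ∀ l l', 0 < w j l x → 0 < w j l' x → l = l')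
    (hequi : ∀ j l, ∀ x ∈ JK p M, w j (l + 1) (sh x) = w j l x) :
    ∃ x ∈ JK p M, ∀ j l, ¬ 0 < w j l x := by
  classical
  let U : J → ZMod p → Set (VV p M) := fun j l => {x | x ∈ JK p M ∧ 0 < w j l x}
  let W : J → ZMod p → Set (VV p M) := fun j l =>
    {x | Metric.infEDist x (U j l) < Metric.infEDist x (JK p M \ U j l)}
  have hWopen : ∀ j l, IsOpen (W j l) := fun j l =>
    isOpen_lt Metric.continuous_infEDist Metric.continuous_infEDist
  have hWdisj : ∀ j l l' x, x ∈ W j l → x ∈ W j l' → l = l' := by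
    intro j l l' x h1 h2
    by_contra hne
    have hsub : ∀ a b : ZMod p, a ≠ b → U j a ⊆ JK p M \ U j b := by
      rintro a b hab y ⟨hy1, hy2⟩
      exact ⟨hy1, fun h => hab (hdisj j y hy1 a b hy2 h.2)⟩
    have e1 : Metric.infEDist x (JK p M \ U j l) ≤ Metric.infEDist x (U j l') :=
      Metric.infEDist_anti (hsub l' l (Ne.symm hne))
    have e2 : Metric.infEDist x (JK p M \ U j l') ≤ Metric.infEDist x (U j l) :=
      Metric.infEDist_anti (hsub l l' hne)
    have h1' : Metric.infEDist x (U j l) < Metric.infEDist x (JK p M \ U j l) := h1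
    have h2' : Metric.infEDist x (U j l') < Metric.infEDist x (JK p M \ U j l') := h2
    exact absurd (h1'.trans_le (e1.trans (h2'.le.trans e2))) (lt_irrefl _)
  have hUsh : ∀ j l x, sh x ∈ U j (l + 1) ↔ x ∈ U j l := by
    intro j l x
    constructor
    · rintro ⟨h1, h2⟩
      have h1' := (sh_mem_iff x).mp h1
      exact ⟨h1', by rwa [hequi j l x h1'] at h2⟩
    · rintro ⟨h1, h2⟩
      exact ⟨(sh_mem_iff x).mpr h1, by rwa [hequi j l x h1]⟩
  have hWsh : ∀ j l x, x ∈ W j l → sh x ∈ W j (l + 1) := by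
    intro j l x hx
    have e1 : sh '' (U j l) = U j (l + 1) := sh_image _ _ (hUsh j l)
    have e2 : sh '' (JK p M \ U j l) = JK p M \ U j (l + 1) := by
      refine sh_image _ _ fun x => ?_
      show (sh x ∈ JK p M ∧ ¬ sh x ∈ U j (l + 1)) ↔ (x ∈ JK p M ∧ ¬ x ∈ U j l)
      rw [hUsh, sh_mem_iff]
    show Metric.infEDist (sh x) (U j (l + 1)) < Metric.infEDist (sh x) (JK p M \ U j (l + 1))
    rw [← e2, ← e1, Metric.infEDist_image sh_isometry, Metric.infEDist_image sh_isometry]
    exact hx
  have hUW : ∀ j l x, x ∈ U j l → x ∈ W j l := by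
    rintro j l x ⟨hx1, hx2⟩
    have h0 : Metric.infEDist x (U j l) = 0 := Metric.infEDist_zero_of_mem ⟨hx1, hx2⟩
    show Metric.infEDist x (U j l) < Metric.infEDist x (JK p M \ U j l)
    rw [h0, Metric.infEDist_pos_iff_notMem_closure]
    have hev : ∀ᶠ y in 𝓝[JK p M] x, 0 < w j l y := (hw j l x hx1).eventually (lt_mem_nhds hx2)
    rw [mem_closure_iff_nhds]
    intro hcl
    obtain ⟨y, hy1, hy2, hy3⟩ := hcl _ (mem_nhdsWithin_iff_eventually.mp hev)
    exact hy3 ⟨hy2, hy1 hy2⟩
  let lab : J → VV p M → ZMod p := fun j x => if h : ∃ l, x ∈ W j l then h.choose else 0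
  have hlab : ∀ j l x, x ∈ W j l → lab j x = l := by
    intro j l x hx
    have hex : ∃ l, x ∈ W j l := ⟨l, hx⟩
    show (if h : ∃ l, x ∈ W j l then h.choose else 0) = l
    rw [dif_pos hex]
    exact hWdisj j _ _ x hex.choose_spec hx
  obtain ⟨x, hx, hxO⟩ := D1c.join_cover p M (J := J) hJ (fun j => ⋃ l, W j l)
    (fun j => isOpen_iUnion (hWopen j)) lab
    (by
      intro j x hx
      obtain ⟨l, hl⟩ := mem_iUnion.mp hx
      filter_upwards [(hWopen j l).mem_nhds hl] with y hy
      rw [hlab j l x hl, hlab j l y hy])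
    (by
      intro j x hx
      obtain ⟨l, hl⟩ := mem_iUnion.mp hx
      exact mem_iUnion.mpr ⟨l + 1, hWsh j l x hl⟩)
    (by
      intro j x hx
      obtain ⟨l, hl⟩ := mem_iUnion.mp hx
      rw [hlab j l x hl, hlab j (l + 1) (sh x) (hWsh j l x hl)])
  exact ⟨x, hx, fun j l hpos => hxO j (mem_iUnion.mpr ⟨l, hUW j l x ⟨hx, hpos⟩⟩)⟩

/-- Dold's theorem for the joins `E_m G`. -/
theorem no_topMap (G : Type) [Group G] [Fintype G] [Nontrivial G] {k m : ℕ} (hkm : k < m) :
    ¬ (Q G m).Delta.HasTopMap (Q G k).Delta := by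
  classical
  rintro ⟨f, hf1, hf2, hf3⟩
  obtain ⟨p, hp, hpd⟩ := Nat.exists_prime_and_dvd (n := Fintype.card G)
    (by have := Fintype.one_lt_card (α := G); omega)
  have : Fact p.Prime := ⟨hp⟩
  obtain ⟨t, ht⟩ := exists_prime_orderOf_dvd_card p hpd
  obtain ⟨lam, hlam⟩ := exists_label t p ht
  let e : ZMod p → G := fun l => t ^ l.val
  have he : ∀ l, e (l + 1) = t * e l := by
    intro l
    show t ^ (l + 1).val = t * t ^ l.val
    rw [← pow_succ', pow_eq_pow_iff_modEq, ht, ZMod.val_add]
    by_cases h1 : p = 1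
    · exact absurd h1 hp.one_lt.ne'
    · have : Fact (1 < p) := ⟨hp.one_lt⟩
      rw [ZMod.val_one]
      exact Nat.mod_modEq _ _
  let y : VV p (m + 1) → (QT G m → ℝ) := fun x v => ∑ l, if e l = v.1 then x v.2 l else 0
  have hy0 : ∀ x ∈ JK p (m + 1), ∀ v, 0 ≤ y x v := by
    intro x hx v
    refine Finset.sum_nonneg fun l _ => ?_
    split_ifs
    · exact hx.1 _ _
    · exact le_rfl
  have hy1 : ∀ x ∈ JK p (m + 1), y x ∈ (Q G m).Delta.real := by
    intro x hx
    have hs : ∑ v : G × Fin (m + 1), (∑ l, if e l = v.1 then x v.2 l else 0) = 1 := by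
      rw [Fintype.sum_prod_type_right, ← hx.2.1]
      refine Finset.sum_congr rfl fun i _ => ?_
      rw [Finset.sum_comm]
      refine Finset.sum_congr rfl fun l _ => ?_
      rw [Finset.sum_ite_eq]
      simp
    refine ⟨hy0 x hx, hs, ?_, ?_⟩
    · exact supp_nonempty (V := QT G m) hs
    · rintro ⟨h, i⟩ hv ⟨h', i'⟩ hv' hne
      obtain ⟨l, -, hl⟩ := Finset.exists_ne_zero_of_sum_ne_zero hv
      obtain ⟨l', -, hl'⟩ := Finset.exists_ne_zero_of_sum_ne_zero hv'
      have a1 : e l = h := by
        by_contra hh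
        exact hl (if_neg hh)
      have a1' : e l' = h' := by
        by_contra hh
        exact hl' (if_neg hh)
      have a2 : x i l ≠ 0 := by
        have : (if e l = h then x i l else 0) ≠ 0 := hl
        rwa [if_pos a1] at this
      have a2' : x i' l' ≠ 0 := by
        have : (if e l' = h' then x i' l' else 0) ≠ 0 := hl'
        rwa [if_pos a1'] at this
      rcases lt_trichotomy i i' with h3 | h3 | h3
      · exact Or.inl (Or.inr h3)
      · exfalso
        subst h3
        apply hne
        by_cases h4 : l = l'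
        · rw [← a1, ← a1', h4]
        · rcases hx.2.2 i l l' h4 with h5 | h5
          · exact absurd h5 a2
          · exact absurd h5 a2'
      · exact Or.inr (Or.inr h3)
  have hysh : ∀ x, y (sh x) = actR t (y x) := by
    intro x
    funext v
    show (∑ l, if e l = v.1 then x v.2 (l - 1) else 0) = ∑ l, if e l = t⁻¹ * v.1 then x v.2 l else 0
    rw [← Equiv.sum_comp (Equiv.addRight (1 : ZMod p))]
    refine Finset.sum_congr rfl fun l _ => ?_
    show (if e (l + 1) = v.1 then x v.2 (l + 1 - 1) else 0) = _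
    rw [he, add_sub_cancel_right]
    refine if_congr ?_ rfl rfl
    rw [eq_inv_mul_iff_mul_eq]
  have hyc : Continuous y := by
    refine continuous_pi fun v => continuous_finsetSum _ fun l _ => ?_
    split_ifs
    · fun_prop
    · exact continuous_const
  let w : Fin (k + 1) → ZMod p → VV p (m + 1) → ℝ := fun j l x =>
    ∑ h : G, if lam h = l then f (y x) ((h, j) : G × Fin (k + 1)) else 0
  have hfy : ContinuousOn (fun x => f (y x)) (JK p (m + 1)) :=
    hf1.comp hyc.continuousOn hy1
  obtain ⟨x, hx, hx'⟩ := join_levels p (m + 1) (J := Fin (k + 1)) (by simpa using hkm) w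
    (by
      intro j l
      refine continuousOn_finsetSum _ fun h _ => ?_
      split_ifs
      · exact (continuous_apply (A := fun _ : QT G k => ℝ)
          ((h, j) : G × Fin (k + 1))).comp_continuousOn hfy
      · exact continuousOn_const)
    (by
      intro j x hx l l' h1 h2
      obtain ⟨h, -, hh⟩ := Finset.exists_ne_zero_of_sum_ne_zero h1.ne'
      obtain ⟨h', -, hh'⟩ := Finset.exists_ne_zero_of_sum_ne_zero h2.ne'
      have a1 : lam h = l := by
        by_contra hc
        exact hh (if_neg hc)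
      have a1' : lam h' = l' := by
        by_contra hc
        exact hh' (if_neg hc)
      rw [if_pos a1] at hh
      rw [if_pos a1'] at hh'
      by_contra hne
      have hne' : ((h, j) : G × Fin (k + 1)) ≠ (h', j) := by
        intro hc
        apply hne
        rw [← a1, ← a1', (Prod.mk.inj hc).1]
      rcases (hf2 _ (hy1 x hx)).2.2.2 hh hh' hne' with h3 | h3
      · rcases h3 with h3 | h3
        · exact hne' h3
        · exact absurd h3 (lt_irrefl j)
      · rcases h3 with h3 | h3
        · exact hne' h3.symm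
        · exact absurd h3 (lt_irrefl j))
    (by
      intro j l x hx
      show (∑ h : G, if lam h = l + 1 then f (y (sh x)) ((h, j) : G × Fin (k + 1)) else 0) =
        ∑ h : G, if lam h = l then f (y x) ((h, j) : G × Fin (k + 1)) else 0
      have e1 : f (y (sh x)) = actR t (f (y x)) :=
        (congrArg f (hysh x)).trans (hf3 t _ (hy1 x hx))
      rw [e1, ← Equiv.sum_comp (Equiv.mulLeft t)]
      refine Finset.sum_congr rfl fun h _ => ?_
      show (if lam (t * h) = l + 1 then f (y x) ((t⁻¹ * (t * h), j) : G × Fin (k + 1)) else 0) = _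
      rw [hlam, inv_mul_cancel_left]
      simp only [add_left_inj])
  obtain ⟨v, hv⟩ := supp_nonempty (V := QT G k) (hf2 _ (hy1 x hx)).2.1
  have hv0 : 0 < f (y x) v := lt_of_le_of_ne ((hf2 _ (hy1 x hx)).1 v) (Ne.symm hv)
  refine hx' v.2 (lam v.1) ?_
  show 0 < ∑ h : G, if lam h = lam v.1 then f (y x) ((h, v.2) : G × Fin (k + 1)) else 0
  refine Finset.sum_pos' (fun h _ => ?_) ⟨v.1, Finset.mem_univ _, ?_⟩
  · split_ifs
    · exact (hf2 _ (hy1 x hx)).1 _
    · exact le_rfl
  · rw [if_pos rfl]
    exact hv0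

end Pool.Agent.X195.GI
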