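import Pool.Agent.X195.GI2

set_option autoImplicit false

/-!
Twisted orders: a relation `R p q c` (`p` is below `q` with twist `c`, `c` an integer) on a finite
set `P` defines, for a group `G` and `s ∈ G`, a free `G`-poset on `G × P`.  If `K` is a `G`-complex
with an equivariant vertex map to `G × P` such that the image of every simplex has a least upper
bound, then there is a continuous `G`-map `|K| → E_1 G`.
-/

namespace Pool.Agent.X195.GI

open Set Topology Filter
open scoped Pointwise BigOperators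

/-- a twisted order of height at most `k` -/
structure Tw (P : Type) (k : ℕ) where
  R : P → P → ℤ → Prop
  refl : ∀ p, R p p 0
  trans : ∀ {p q r : P} {c d : ℤ}, R p q c → R q r d → R p r (c + d)
  uniq : ∀ {p q : P} {c d : ℤ}, R p q c → R p q d → c = d
  rk : P → ℕ
  rk_lt : ∀ {p q : P} {c : ℤ}, R p q c → p = q ∨ rk p < rk q
  rk_le : ∀ p, rk p ≤ k

variable {G : Type} [Group G]

/-- the `G`-poset of a twisted order -/
def Tw.X {P : Type} {k : ℕ} [Fintype P] (T : Tw P k) [Fintype G] (s : G) : GPoset G where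
  E := G × P
  ord :=
    { le := fun x y => ∃ c, T.R x.2 y.2 c ∧ y.1 = x.1 * s ^ c
      le_refl := fun x => ⟨0, T.refl _, by simp⟩
      le_trans := by
        rintro x y z ⟨c, h1, h2⟩ ⟨d, h3, h4⟩
        exact ⟨c + d, T.trans h1 h3, by rw [h4, h2, mul_assoc, zpow_add]⟩
      le_antisymm := by
        rintro ⟨g, p⟩ ⟨h, q⟩ ⟨c, h1, h2⟩ ⟨d, h3, h4⟩
        have hpq : p = q := by
          rcases T.rk_lt h1 with h | h
          · exact h
          · rcases T.rk_lt h3 with h' | h'
            · exact h'.symm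
            · exact absurd (h.trans h') (lt_irrefl _)
        subst hpq
        have hc : c = 0 := T.uniq h1 (T.refl _)
        subst hc
        simp only [zpow_zero, mul_one] at h2
        rw [h2] }
  act :=
    { smul := fun g x => (g * x.1, x.2)
      one_smul := fun _ => Prod.ext (one_mul _) rfl
      mul_smul := fun _ _ _ => Prod.ext (mul_assoc _ _ _) rfl }
  mono := by
    rintro g x y ⟨c, h1, h2⟩
    refine ⟨c, h1, ?_⟩
    show g * y.1 = g * x.1 * s ^ c
    rw [h2, mul_assoc]

/-- the element `(g, p)` -/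
def Tw.el {P : Type} {k : ℕ} [Fintype P] (T : Tw P k) [Fintype G] (s g : G) (p : P) :
    (T.X s).E := (g, p)

theorem Tw.X_free {P : Type} {k : ℕ} [Fintype P] (T : Tw P k) [Fintype G] (s : G) :
    (T.X s).IsFree := by
  intro g p h
  have h1 : g * p.1 = p.1 := congrArg Prod.fst h
  exact mul_eq_right.mp h1

theorem Tw.le_iff {P : Type} {k : ℕ} [Fintype P] (T : Tw P k) [Fintype G] (s : G)
    (x y : (T.X s).E) : x ≤ y ↔ ∃ c, T.R x.2 y.2 c ∧ y.1 = x.1 * s ^ c := Iff.rfl

theorem Tw.smul_def {P : Type} {k : ℕ} [Fintype P] (T : Tw P k) [Fintype G] (s : G)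
    (g : G) (x : (T.X s).E) : g • x = (g * x.1, x.2) := rfl

/-- the rank gives a map to `Q_k G` -/
theorem Tw.X_map {P : Type} {k : ℕ} [Fintype P] (T : Tw P k) [Fintype G] (s : G) :
    (T.X s).HasMap (Q G k) := by
  refine ⟨fun x => ((x.1, ⟨T.rk x.2, Nat.lt_succ_of_le (T.rk_le _)⟩) : G × Fin (k + 1)), ?_, ?_⟩
  · rintro ⟨g, p⟩ ⟨h, q⟩ ⟨c, h1, h2⟩
    rcases T.rk_lt h1 with hpq | hpq
    · have hpq' : p = q := hpq
      subst hpq'
      have hc : c = 0 := T.uniq h1 (T.refl _)
      subst hc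
      simp only [zpow_zero, mul_one] at h2
      exact Or.inl (by rw [h2])
    · exact Or.inr hpq
  · intro g p
    rfl

/-! ### Piecewise linear interpolation -/

/-- piecewise linear interpolation of a function on the integers -/
noncomputable def interp (a : ℤ → ℝ) (r : ℝ) : ℝ :=
  (1 - Int.fract r) * a ⌊r⌋ + Int.fract r * a (⌊r⌋ + 1)

theorem continuous_interp (a : ℤ → ℝ) : Continuous (interp a) := by
  rw [continuous_iff_continuousAt]
  intro r
  set k : ℤ := ⌊r⌋ with hk
  have h1 : (k : ℝ) ≤ r := Int.floor_le r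
  have h2 : r < k + 1 := Int.lt_floor_add_one r
  have hev : (fun t : ℝ => a (k - 1) * max 0 (k - t) + a k * (1 - |t - k|) + a (k + 1) * max 0 (t - k))
      =ᶠ[𝓝 r] interp a := by
    filter_upwards [Ioo_mem_nhds (show (k : ℝ) - 1 < r by linarith) h2] with t ht
    rcases lt_or_ge t k with htk | htk
    · have hf : ⌊t⌋ = k - 1 := by
        rw [Int.floor_eq_iff]
        push_cast
        exact ⟨by linarith [ht.1], by linarith⟩
      have hfr : Int.fract t = t - (k - 1) := by
        rw [Int.fract, hf]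
        push_cast
        ring
      rw [interp, hf, hfr, sub_add_cancel, max_eq_right (by linarith), max_eq_left (by linarith),
        abs_of_neg (by linarith)]
      ring
    · have hf : ⌊t⌋ = k := by
        rw [Int.floor_eq_iff]
        exact ⟨htk, ht.2⟩
      have hfr : Int.fract t = t - k := by
        rw [Int.fract, hf]
      rw [interp, hf, hfr, max_eq_left (by linarith), max_eq_right (by linarith),
        abs_of_nonneg (by linarith)]
      ring
  refine ContinuousAt.congr ?_ hev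
  fun_prop

theorem interp_shift (a : ℤ → ℝ) (r : ℝ) (b : ℤ) :
    interp a (r + b) = interp (fun k => a (k + b)) r := by
  unfold interp
  rw [Int.fract_add_intCast, Int.floor_add_intCast]
  rw [show ⌊r⌋ + b + 1 = ⌊r⌋ + 1 + b by ring]

/-- the vertices of the line over `g` in `Q_1 G` -/
def vx (s g : G) (k : ℤ) : QT G 1 := ((g * s ^ (k / 2), if k % 2 = 0 then 0 else 1) : G × Fin 2)

theorem vx_shift (s g : G) (k b : ℤ) : vx s (g * s ^ b) k = vx s g (k + 2 * b) := by
  unfold vx
  have h1 : (k + 2 * b) / 2 = b + k / 2 := by omega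
  have h2 : (k + 2 * b) % 2 = k % 2 := by omega
  rw [h1, h2, mul_assoc, ← zpow_add]

theorem vx_smul (s g h : G) (k : ℤ) : vx s (h * g) k = h • vx s g k := by
  show _ = (h * (g * s ^ (k / 2)), _)
  unfold vx
  rw [mul_assoc]

theorem vx_level (s g : G) (k : ℤ) : (vx s g k).2 ≠ (vx s g (k + 1)).2 := by
  show (if k % 2 = 0 then (0 : Fin 2) else 1) ≠ (if (k + 1) % 2 = 0 then (0 : Fin 2) else 1)
  rcases Int.emod_two_eq_zero_or_one k with h | h
  · have h' : (k + 1) % 2 = 1 := by omega
    rw [h, h']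
    simp
  · have h' : (k + 1) % 2 = 0 := by omega
    rw [h, h']
    simp

open Classical in
/-- the line over `g` in the realisation of `Q_1 G` -/
noncomputable def Em (s g : G) (r : ℝ) : QT G 1 → ℝ :=
  fun w => interp (fun k => if vx s g k = w then 1 else 0) r

theorem continuous_Em (s g : G) : Continuous (Em s g) :=
  continuous_pi fun _ => continuous_interp _

theorem Em_shift (s g : G) (r : ℝ) (b : ℤ) : Em s (g * s ^ b) r = Em s g (r + 2 * b) := by
  classical
  funext w
  unfold Em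
  have : r + 2 * (b : ℝ) = r + ((2 * b : ℤ) : ℝ) := by push_cast; ring
  rw [this, interp_shift]
  simp only [vx_shift]

theorem Em_smul (s g h : G) (r : ℝ) : Em s (h * g) r = actR h (Em s g r) := by
  classical
  funext w
  rw [actR_apply]
  unfold Em
  congr 1
  funext k
  rw [vx_smul]
  refine if_congr ?_ rfl rfl
  rw [eq_inv_smul_iff]

theorem Em_mem [Fintype G] (s g : G) (r : ℝ) : Em s g r ∈ (Q G 1).Delta.real := by
  classical
  have hf0 : 0 ≤ Int.fract r := Int.fract_nonneg r
  have hf1 : 0 ≤ 1 - Int.fract r := by linarith [Int.fract_lt_one r]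
  have hs : ∑ w : QT G 1, Em s g r w = 1 := by
    unfold Em interp
    rw [Finset.sum_add_distrib, ← Finset.mul_sum, ← Finset.mul_sum]
    simp
  refine ⟨?_, hs, supp_nonempty (V := QT G 1) hs, ?_⟩
  · intro w
    unfold Em interp
    refine add_nonneg (mul_nonneg hf1 ?_) (mul_nonneg hf0 ?_)
    · show (0 : ℝ) ≤ if vx s g ⌊r⌋ = w then 1 else 0
      split_ifs
      · exact zero_le_one
      · exact le_rfl
    · show (0 : ℝ) ≤ if vx s g (⌊r⌋ + 1) = w then 1 else 0
      split_ifs
      · exact zero_le_one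
      · exact le_rfl
  · have hsub : ∀ w : QT G 1, Em s g r w ≠ 0 → w = vx s g ⌊r⌋ ∨ w = vx s g (⌊r⌋ + 1) := by
      intro w hw
      by_contra hcon
      push Not at hcon
      apply hw
      show (1 - Int.fract r) * (if vx s g ⌊r⌋ = w then (1 : ℝ) else 0) +
        Int.fract r * (if vx s g (⌊r⌋ + 1) = w then (1 : ℝ) else 0) = 0
      rw [if_neg (Ne.symm hcon.1), if_neg (Ne.symm hcon.2)]
      ring
    have hl := vx_level s g ⌊r⌋
    intro a ha b hb hab
    rcases hsub a ha with rfl | rfl <;> rcases hsub b hb with rfl | rfl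
    · exact absurd rfl hab
    · rcases lt_or_gt_of_ne hl with h | h
      · exact Or.inl (Or.inr h)
      · exact Or.inr (Or.inr h)
    · rcases lt_or_gt_of_ne hl with h | h
      · exact Or.inr (Or.inr h)
      · exact Or.inl (Or.inr h)
    · exact absurd rfl hab

/-! ### Index at most one -/

open Classical in
/-- the twist between comparable elements -/
noncomputable def Tw.cc {P : Type} {k : ℕ} (T : Tw P k) (p q : P) : ℤ :=
  if h : ∃ c, T.R p q c then h.choose else 0

theorem Tw.cc_eq {P : Type} {k : ℕ} (T : Tw P k) {p q : P} {c : ℤ} (h : T.R p q c) :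
    T.cc p q = c := by
  have hex : ∃ c, T.R p q c := ⟨c, h⟩
  unfold Tw.cc
  rw [dif_pos hex]
  exact T.uniq hex.choose_spec h

theorem ind_le_one {P : Type} {k : ℕ} [Fintype P] (T : Tw P k) [Fintype G] (s : G)
    (K : GComplex G) (φ : K.V → (T.X s).E) (hφ : ∀ (g : G) (v : K.V), φ (g • v) = g • φ v)
    (hlub : ∀ σ ∈ K.faces, ∃ u, IsLUB (φ '' σ) u) : K.HasTopMap (Q G 1).Delta := by
  classical
  let rr : (T.X s).E → (K.V → ℝ) → ℝ := fun q x => ∑ z, x z * (-2 * (T.cc (φ z).2 q.2 : ℤ))
  let F : (K.V → ℝ) → (QT G 1 → ℝ) := fun x =>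
    if h : ∃ u, IsLUB (φ '' {v | x v ≠ 0}) u then Em s h.choose.1 (rr h.choose x) else 0
  have hrrc : ∀ q, Continuous (rr q) := by
    intro q
    refine continuous_finsetSum _ fun z _ => ?_
    exact (continuous_apply z).mul continuous_const
  have key : ∀ x ∈ K.real, ∀ q ∈ upperBounds (φ '' {v | x v ≠ 0}),
      F x = Em s q.1 (rr q x) := by
    intro x hx q hq
    have hex : ∃ u, IsLUB (φ '' {v | x v ≠ 0}) u := hlub _ hx.2.2
    have hFx : F x = Em s hex.choose.1 (rr hex.choose x) := dif_pos hex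
    rw [hFx]
    set u := hex.choose with hu
    have hulub : IsLUB (φ '' {v | x v ≠ 0}) u := hex.choose_spec
    obtain ⟨d, hd1, hd2⟩ := hulub.2 hq
    have hr : rr q x = rr u x + 2 * ((-d : ℤ) : ℝ) := by
      show ∑ z, x z * (-2 * (T.cc (φ z).2 q.2 : ℤ)) = _
      have : ∀ z, x z * (-2 * ((T.cc (φ z).2 q.2 : ℤ) : ℝ)) =
          x z * (-2 * ((T.cc (φ z).2 u.2 : ℤ) : ℝ)) + x z * (-2 * (d : ℝ)) := by
        intro z
        by_cases hz : x z = 0
        · rw [hz]
          ring
        · obtain ⟨c, hc1, hc2⟩ := hulub.1 (mem_image_of_mem φ (show z ∈ {v | x v ≠ 0} from hz))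
          rw [T.cc_eq hc1, T.cc_eq (T.trans hc1 hd1)]
          push_cast
          ring
      rw [Finset.sum_congr rfl fun z _ => this z, Finset.sum_add_distrib, ← Finset.sum_mul,
        hx.2.1]
      push_cast
      ring
    rw [hd2, Em_shift, hr]
    congr 1
    push_cast
    ring
  refine ⟨F, ?_, ?_, ?_⟩
  · refine continuousOn_real K F ?_
    intro σ hσ
    obtain ⟨u, hu⟩ := hlub σ hσ
    refine ContinuousOn.congr (f := fun x => Em s u.1 (rr u x)) ?_ ?_
    · exact ((continuous_Em s u.1).comp (hrrc u)).continuousOn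
    · intro x hx
      refine key x (cell_sub K hσ hx) u ?_
      rintro _ ⟨z, hz, rfl⟩
      refine hu.1 (mem_image_of_mem φ ?_)
      by_contra hzσ
      exact hz (hx.2.2 z hzσ)
  · intro x hx
    obtain ⟨u, hu⟩ := hlub _ hx.2.2
    rw [key x hx u hu.1]
    exact Em_mem s _ _
  · intro g x hx
    obtain ⟨u, hu⟩ := hlub _ hx.2.2
    have hgu : g • u ∈ upperBounds (φ '' {v | actR g x v ≠ 0}) := by
      rw [supp_actR]
      rintro _ ⟨_, ⟨z, hz, rfl⟩, rfl⟩
      show φ (g • z) ≤ g • u
      rw [hφ]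
      exact (T.X s).mono g _ _ (hu.1 (mem_image_of_mem φ hz))
    rw [key (actR g x) (actR_mem K g hx) (g • u) hgu, key x hx u hu.1]
    have h1 : rr (g • u) (actR g x) = rr u x := by
      show ∑ z, x (g⁻¹ • z) * (-2 * ((T.cc (φ z).2 u.2 : ℤ) : ℝ)) =
        ∑ z, x z * (-2 * ((T.cc (φ z).2 u.2 : ℤ) : ℝ))
      rw [← Equiv.sum_comp (MulAction.toPerm g)]
      refine Finset.sum_congr rfl fun z _ => ?_
      show x (g⁻¹ • g • z) * (-2 * ((T.cc (φ (g • z)).2 u.2 : ℤ) : ℝ)) = _
      rw [inv_smul_smul, hφ]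
      rfl
    rw [h1]
    exact Em_smul s u.1 g _

theorem chain_lub {E : Type} [PartialOrder E] [Finite E] (σ : Set E) (hne : σ.Nonempty)
    (hσ : IsChain (· ≤ ·) σ) : ∃ u ∈ σ, ∀ v ∈ σ, v ≤ u := by
  obtain ⟨u, hu⟩ := (Set.toFinite σ).exists_maximal hne
  refine ⟨u, hu.1, fun v hv => ?_⟩
  by_cases hvu : v = u
  · exact hvu.le
  · rcases hσ hv hu.1 hvu with h | h
    · exact h
    · exact hu.2 hv h

/-- the order complex of a twisted order has index at most one -/
theorem Tw.ind_Delta {P : Type} {k : ℕ} [Fintype P] (T : Tw P k) [Fintype G] (s : G) :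
    (T.X s).Delta.HasTopMap (Q G 1).Delta := by
  refine ind_le_one T s (T.X s).Delta (fun x => x) (fun _ _ => rfl) ?_
  rintro σ ⟨hne, hσ⟩
  obtain ⟨u, hu1, hu2⟩ := chain_lub (E := (T.X s).E) σ hne hσ
  refine ⟨u, ?_, ?_⟩
  · rintro _ ⟨v, hv, rfl⟩
    exact hu2 v hv
  · intro q hq
    exact hq ⟨u, hu1, rfl⟩

end Pool.Agent.X195.GI
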