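import Pool.Agent.X195.GI4

set_option autoImplicit false

/-!
Scheme B: finite free `G`-posets `X` in which every nonempty bounded subset has a least upper bound,
with arbitrarily large cross-index; the complex of bounded subsets; face posets.
-/

namespace Pool.Agent.X195.GI

open Set Topology Filter
open scoped Pointwise BigOperators

/-- nonempty bounded above subsets have least upper bounds -/
def BComplete (E : Type) [PartialOrder E] : Prop :=
  ∀ σ : Set E, σ.Nonempty → BddAbove σ → ∃ u, IsLUB σ u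

/-- the extension step preserves bounded completeness -/
theorem step_bc {P I Y : Type} {k : ℕ} [Fintype P] [Fintype I] [Fintype Y] (T : Tw P k)
    (A : Att P I Y) {G : Type} [Group G] [Fintype G] (s : G)
    (H1 : ∀ y y', A.i y true ≠ A.i y' false)
    (H2 : ∀ y y', A.i y true = A.i y' true → A.i y false = A.i y' false →
      A.a y true = A.a y' true ∧ A.e y true = A.e y' true ∧ A.a y false = A.a y' false ∧
        (s ^ (A.e y false) = s ^ (A.e y' false) → y = y'))
    (hbc : BComplete (T.X s).E) : BComplete ((T.step A).X s).E := by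
  classical
  let T' := T.step A
  let ι : I → (T.X s).E → (T'.X s).E := fun i x => T'.el s x.1 (Sum.inl (i, x.2))
  rintro σ ⟨x0, hx0⟩ ⟨q, hq⟩
  by_cases hcase : ∃ x ∈ σ, ∃ y, x.2 = Sum.inr y
  · -- a new top element
    obtain ⟨x, hx, y, hy⟩ := hcase
    have huniq : ∀ u ∈ upperBounds σ, u = x := by
      intro u hu
      obtain ⟨c, h1, h2⟩ := hu hx
      rw [hy] at h1
      rcases hu2 : u.2 with v | v
      · rw [hu2] at h1
        exact absurd h1 id
      · rw [hu2] at h1
        obtain ⟨h3, h4⟩ := h1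
        rw [h4, zpow_zero, mul_one] at h2
        refine Prod.ext h2 ?_
        rw [hu2, hy, h3]
    have hqx := huniq q hq
    refine ⟨x, hqx ▸ hq, fun u hu => (huniq u hu).ge⟩
  · push Not at hcase
    have hinl : ∀ x ∈ σ, ∃ (i : I) (z : (T.X s).E), x = ι i z := by
      intro x hx
      rcases hx2 : x.2 with v | v
      · exact ⟨v.1, (x.1, v.2), Prod.ext rfl hx2⟩
      · exact absurd hx2 (hcase x hx v)
    obtain ⟨i0, z0, hz0⟩ := hinl x0 hx0
    by_cases hall : ∀ x ∈ σ, ∃ z, x = ι i0 z
    · -- one copy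
      let τ : Set (T.X s).E := {z | ι i0 z ∈ σ}
      have hτ0 : z0 ∈ τ := by
        show ι i0 z0 ∈ σ
        rw [← hz0]
        exact hx0
      have hub : ∀ u ∈ upperBounds σ, ∃ w ∈ upperBounds τ, ∀ v, v ≤ w → ι i0 v ≤ u := by
        intro u hu
        rcases hu2 : u.2 with v | v
        · obtain ⟨c0, h1, -⟩ := hu hτ0
          rw [hu2] at h1
          have hi : i0 = v.1 := h1.1
          refine ⟨T.el s u.1 v.2, ?_, ?_⟩
          · intro z hz
            obtain ⟨c, h3, h4⟩ := hu hz
            rw [hu2] at h3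
            exact ⟨c, h3.2, h4⟩
          · rintro z ⟨c, h3, h4⟩
            refine ⟨c, ?_, h4⟩
            rw [hu2]
            exact ⟨hi, h3⟩
        · obtain ⟨c0, h1, -⟩ := hu hτ0
          rw [hu2] at h1
          obtain ⟨b, hb1, -⟩ := h1
          refine ⟨T.el s (u.1 * s ^ (-A.e v b)) (A.a v b), ?_, ?_⟩
          · intro z hz
            obtain ⟨c, h3, h4⟩ := hu hz
            rw [hu2] at h3
            obtain ⟨b', hb1', hb2'⟩ := h3
            have hbb : b' = b := A.inj (hb1'.trans hb1.symm)
            subst hbb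
            refine ⟨c - A.e v b', hb2', ?_⟩
            show u.1 * s ^ (-A.e v b') = z.1 * s ^ (c - A.e v b')
            have h4' : u.1 = z.1 * s ^ c := h4
            rw [h4', mul_assoc, ← zpow_add, sub_eq_add_neg]
          · rintro z ⟨c, h3, h4⟩
            refine ⟨c + A.e v b, ?_, ?_⟩
            · rw [hu2]
              refine ⟨b, hb1, ?_⟩
              rw [add_sub_cancel_right]
              exact h3
            · have h4' : u.1 * s ^ (-A.e v b) = z.1 * s ^ c := h4
              show u.1 = z.1 * s ^ (c + A.e v b)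
              rw [zpow_add, ← mul_assoc, ← h4', mul_assoc, ← zpow_add, neg_add_cancel, zpow_zero,
                mul_one]
      obtain ⟨w, hw1, -⟩ := hub q hq
      obtain ⟨u, hu1, hu2⟩ := hbc τ ⟨z0, hτ0⟩ ⟨w, hw1⟩
      refine ⟨ι i0 u, ?_, ?_⟩
      · intro x hx
        obtain ⟨z, rfl⟩ := hall x hx
        obtain ⟨c, h1, h2⟩ := hu1 (show z ∈ τ from hx)
        exact ⟨c, ⟨rfl, h1⟩, h2⟩
      · intro u' hu'
        obtain ⟨w', hw1', hw2'⟩ := hub u' hu'
        exact hw2' u (hu2 hw1')
    · -- two copies: the upper bound is unique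
      push Not at hall
      obtain ⟨x1, hx1, hx1'⟩ := hall
      obtain ⟨i1, z1, hz1⟩ := hinl x1 hx1
      have hi01 : i0 ≠ i1 := by
        intro h
        exact hx1' z1 (by rw [h]; exact hz1)
      -- every upper bound is a new top, attached to `i0` and `i1`
      have hform : ∀ u ∈ upperBounds σ, ∃ y b, u.2 = Sum.inr y ∧ A.i y b = i0 ∧ A.i y (!b) = i1 := by
        intro u hu
        obtain ⟨c0, h1, -⟩ := hu hx0
        obtain ⟨c1, h2, -⟩ := hu hx1
        rw [hz0] at h1
        rw [hz1] at h2
        rcases hu2 : u.2 with v | v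
        · rw [hu2] at h1 h2
          exact absurd (h1.1.trans h2.1.symm) hi01
        · rw [hu2] at h1 h2
          obtain ⟨b, hb1, -⟩ := h1
          obtain ⟨b', hb1', -⟩ := h2
          refine ⟨v, b, rfl, hb1, ?_⟩
          have hbb : b' = !b := by
            cases b <;> cases b'
            · exact absurd (hb1.symm.trans hb1') hi01
            · rfl
            · rfl
            · exact absurd (hb1.symm.trans hb1') hi01
          rw [← hbb]
          exact hb1'
      obtain ⟨y, b, hy1, hy2, hy3⟩ := hform q hq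
      have huniq : ∀ u ∈ upperBounds σ, u = q := by
        intro u hu
        obtain ⟨y', b', hy1', hy2', hy3'⟩ := hform u hu
        have hbb : b' = b := by
          cases b <;> cases b'
          · rfl
          · exact absurd (hy2'.trans hy2.symm) (H1 _ _)
          · exact absurd (hy2.trans hy2'.symm) (H1 _ _)
          · rfl
        subst hbb
        have hI : A.i y true = A.i y' true ∧ A.i y false = A.i y' false := by
          cases b'
          · exact ⟨hy3.trans hy3'.symm, hy2.trans hy2'.symm⟩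
          · exact ⟨hy2.trans hy2'.symm, hy3.trans hy3'.symm⟩
        obtain ⟨e1, e2, e3, e4⟩ := H2 y y' hI.1 hI.2
        -- elements attached at `true` and at `false`
        have hel : ∃ zt ∈ σ, ∃ zf ∈ σ, (∃ p, zt.2 = Sum.inl (A.i y true, p)) ∧
            (∃ p, zf.2 = Sum.inl (A.i y false, p)) := by
          cases b'
          · refine ⟨x1, hx1, x0, hx0, ⟨z1.2, ?_⟩, ⟨z0.2, ?_⟩⟩
            · rw [hz1]
              exact congrArg Sum.inl (Prod.ext hy3.symm rfl)
            · rw [hz0]
              exact congrArg Sum.inl (Prod.ext hy2.symm rfl)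
          · refine ⟨x0, hx0, x1, hx1, ⟨z0.2, ?_⟩, ⟨z1.2, ?_⟩⟩
            · rw [hz0]
              exact congrArg Sum.inl (Prod.ext hy2.symm rfl)
            · rw [hz1]
              exact congrArg Sum.inl (Prod.ext hy3.symm rfl)
        obtain ⟨zt, hzt, zf, hzf, ⟨pt, hpt⟩, ⟨pf, hpf⟩⟩ := hel
        -- the group coordinates agree
        have hdec : ∀ (v : (T'.X s).E) (yy : Y) (bb : Bool) (z : (T'.X s).E) (p : P),
            v.2 = Sum.inr yy → z.2 = Sum.inl (A.i yy bb, p) → z ≤ v →
            ∃ c, T.R p (A.a yy bb) (c - A.e yy bb) ∧ v.1 = z.1 * s ^ c := by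
          rintro v yy bb z p h1 h2 ⟨c, h3, h4⟩
          rw [h1, h2] at h3
          obtain ⟨b2, hb2, hb3⟩ := h3
          have : b2 = bb := A.inj hb2
          subst this
          exact ⟨c, hb3, h4⟩
        obtain ⟨c1, f1, f2⟩ := hdec q y true zt pt hy1 hpt (hq hzt)
        obtain ⟨c2, f3, f4⟩ := hdec u y' true zt pt hy1' (hI.1 ▸ hpt) (hu hzt)
        rw [← e1, ← e2] at f3
        have hc12 : c1 = c2 := by
          have := T.uniq f1 f3
          linarith
        have hgrp : u.1 = q.1 := by rw [f2, f4, hc12]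
        obtain ⟨c3, f5, f6⟩ := hdec q y false zf pf hy1 hpf (hq hzf)
        obtain ⟨c4, f7, f8⟩ := hdec u y' false zf pf hy1' (hI.2 ▸ hpf) (hu hzf)
        rw [← e3] at f7
        have hc34 : c3 - A.e y false = c4 - A.e y' false := T.uniq f5 f7
        have hs34 : s ^ c3 = s ^ c4 := by
          rw [f6, f8] at hgrp
          exact (mul_left_cancel hgrp).symm
        have hyy : y = y' := by
          apply e4
          have g1 : s ^ (A.e y false) = s ^ c3 * s ^ (-(c3 - A.e y false)) := by
            rw [← zpow_add]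
            congr 1
            ring
          have g2 : s ^ (A.e y' false) = s ^ c4 * s ^ (-(c4 - A.e y' false)) := by
            rw [← zpow_add]
            congr 1
            ring
          rw [g1, g2, hs34, hc34]
        refine Prod.ext hgrp ?_
        rw [hy1, hy1', hyy]
      exact ⟨q, hq, fun u hu => (huniq u hu).ge⟩

/-! ### Scheme B: monotone maps -/

theorem schemeB (G : Type) [Group G] [Fintype G] (s : G) (hs : s ≠ 1) (k : ℕ) :
    ∃ (P : Type) (_ : Fintype P) (T : Tw P k), BComplete (T.X s).E ∧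
      ∀ (n : ℕ) (ψ : (T.X s).E → QT G n),
      (∀ (g : G) (x : (T.X s).E), ψ (g • x) = g • ψ x) →
      (∀ x y : (T.X s).E, x ≤ y → ψ x ≤ ψ y) →
      ∃ p : P, k ≤ ((ψ (T.el s 1 p)).2 : ℕ) := by
  classical
  induction k with
  | zero =>
    refine ⟨Unit, inferInstance, Tw.pt, ?_, fun n ψ _ _ => ⟨(), Nat.zero_le _⟩⟩
    rintro σ ⟨x, hx⟩ ⟨q, hq⟩
    have hall : ∀ u v : (Tw.pt.X s).E, u ≤ v → u = v := by
      rintro u v ⟨c, h1, h2⟩
      have h1' : c = 0 := h1
      rw [h1', zpow_zero, mul_one] at h2
      exact Prod.ext h2.symm rfl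
    refine ⟨q, hq, fun u hu => ?_⟩
    rw [← hall _ _ (hq hx), ← hall _ _ (hu hx)]
  | succ k ih =>
    obtain ⟨P, hP, T, hbc, hT⟩ := ih
    let A : Att P (P ⊕ (P → P)) ((P → P) × P × Bool) :=
      { i := fun y b => if b then Sum.inr y.1 else Sum.inl y.2.1
        a := fun y b => if b then y.2.1 else y.1 y.2.1
        e := fun y b => if b then 0 else (if y.2.2 then 1 else 0)
        ne := fun y => by simp }
    let T' := T.step A
    let ι : P ⊕ (P → P) → (T.X s).E → (T'.X s).E := fun i x => T'.el s x.1 (Sum.inl (i, x.2))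
    refine ⟨((P ⊕ (P → P)) × P) ⊕ ((P → P) × P × Bool), inferInstance, T', ?_,
      fun n ψ hψ1 hψ2 => ?_⟩
    · refine step_bc T A s ?_ ?_ hbc
      · intro y y'
        simp [A]
      · rintro ⟨c, a, e⟩ ⟨c', a', e'⟩ h1 h2
        have h1' : c = c' := by simpa [A] using h1
        have h2' : a = a' := by simpa [A] using h2
        subst h1'
        subst h2'
        refine ⟨rfl, rfl, rfl, ?_⟩
        intro h3
        have h3' : s ^ (if e then (1 : ℤ) else 0) = s ^ (if e' then (1 : ℤ) else 0) := h3
        cases e <;> cases e'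
        · rfl
        · simp at h3'
          exact absurd h3'.symm hs
        · simp at h3'
          exact absurd h3' hs
        · rfl
    · have hin : ∀ (i : P ⊕ (P → P)) (x y : (T.X s).E), x ≤ y → ι i x ≤ ι i y := by
        rintro i x y ⟨c, h1, h2⟩
        exact ⟨c, ⟨rfl, h1⟩, h2⟩
      have hres : ∀ i, ∃ p : P, k ≤ ((ψ (ι i (T.el s 1 p))).2 : ℕ) := fun i =>
        hT n (fun x => ψ (ι i x)) (fun g x => hψ1 g (ι i x)) (fun x y hxy => hψ2 _ _ (hin i x y hxy))
      choose f hf using hres
      let c : P → P := fun a => f (Sum.inl a)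
      let a0 : P := f (Sum.inr c)
      let q : Bool → (T'.X s).E := fun e => T'.el s 1 (Sum.inr (c, a0, e))
      by_contra hcon
      push Not at hcon
      have hq : ∀ e, ((ψ (q e)).2 : ℕ) ≤ k := fun e => Nat.lt_succ_iff.mp (hcon _)
      have heq : ∀ (x : (T'.X s).E) (e : Bool), x ≤ q e → k ≤ ((ψ x).2 : ℕ) → ψ x = ψ (q e) := by
        intro x e hxe hk
        rcases hψ2 _ _ hxe with h | h
        · exact h
        · exact absurd (Fin.lt_def.mp h) (by have := hq e; omega)
      let z1 : (T'.X s).E := ι (Sum.inr c) (T.el s 1 a0)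
      let z2 : (T'.X s).E := ι (Sum.inl a0) (T.el s 1 (c a0))
      have l1 : ∀ e, z1 ≤ q e := fun e => by
        refine ⟨0, ⟨true, rfl, ?_⟩, ?_⟩
        · show T.R a0 a0 (0 - 0)
          rw [sub_zero]
          exact T.refl _
        · show (1 : G) = 1 * s ^ (0 : ℤ)
          simp
      have l2 : z2 ≤ q false := by
        refine ⟨0, ⟨false, rfl, ?_⟩, ?_⟩
        · show T.R (c a0) (c a0) (0 - 0)
          rw [sub_zero]
          exact T.refl _
        · show (1 : G) = 1 * s ^ (0 : ℤ)
          simp
      have l3 : s⁻¹ • z2 ≤ q true := by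
        refine ⟨1, ⟨false, rfl, ?_⟩, ?_⟩
        · show T.R (c a0) (c a0) (1 - 1)
          rw [sub_self]
          exact T.refl _
        · show (1 : G) = s⁻¹ * 1 * s ^ (1 : ℤ)
          simp
      have k1 : k ≤ ((ψ z1).2 : ℕ) := hf (Sum.inr c)
      have k2 : k ≤ ((ψ z2).2 : ℕ) := hf (Sum.inl a0)
      have e0 : ψ (s⁻¹ • z2) = s⁻¹ • ψ z2 := hψ1 _ _
      have k3 : k ≤ ((ψ (s⁻¹ • z2)).2 : ℕ) := by
        rw [e0]
        exact k2
      have m1 := heq z1 true (l1 true) k1
      have m2 := heq z1 false (l1 false) k1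
      have m3 := heq z2 false l2 k2
      have m4 := heq _ true l3 k3
      have m5 : s⁻¹ • ψ z2 = ψ z2 := by
        rw [← e0, m4, ← m1, m2, ← m3]
      have m6 : s⁻¹ * (ψ z2).1 = (ψ z2).1 := congrArg Prod.fst m5
      exact hs (inv_eq_one.mp (mul_eq_right.mp m6))

end Pool.Agent.X195.GI
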