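import Pool.Agent.X195.GI6

set_option autoImplicit false

/-!
Iterated barycentric subdivisions.  A `G`-map from a poset to `Q_1 G` gives a bounded integer
cocycle; cocycles descend from the poset of chains to the poset, at the cost of a factor two.
A twisted poset containing a circle whose `d`-th power is homotopic to a path of four steps has no
such cocycle when `d` is large.
-/

namespace Pool.Agent.X195.GI

open Set Topology Filter
open scoped Pointwise BigOperators

variable {G : Type} [Group G]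

/-- barycentric subdivision -/
noncomputable def GComplex.sd (K : GComplex G) : GComplex G := K.F.Delta

/-- a bounded integer cocycle on a `G`-poset, with a potential modulo `m` -/
structure Coc (P : GPoset G) (s : G) (m : ℕ) (B : ℤ) where
  w : P.E → P.E → ℤ
  θ : P.E → ZMod m
  θs : ∀ p, θ (s • p) = θ p + 1
  ws : ∀ p q, p ≤ q → w (s • p) (s • q) = w p q
  add : ∀ p q r, p ≤ q → q ≤ r → w p r = w p q + w q r
  bd : ∀ p q, p ≤ q → |w p q| ≤ B
  wθ : ∀ p q, p ≤ q → ((w p q : ℤ) : ZMod m) = θ q - θ p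

/-- pull back along a `G`-map -/
theorem Coc.comap {P R : GPoset G} {s : G} {m : ℕ} {B : ℤ} (h : P.HasMap R)
    (hc : Nonempty (Coc R s m B)) : Nonempty (Coc P s m B) := by
  obtain ⟨ψ, h1, h2⟩ := h
  obtain ⟨C⟩ := hc
  exact ⟨{
    w := fun p q => C.w (ψ p) (ψ q)
    θ := fun p => C.θ (ψ p)
    θs := fun p => by rw [h2, C.θs]
    ws := fun p q hpq => by rw [h2, h2, C.ws _ _ (h1 _ _ hpq)]
    add := fun p q r hpq hqr => C.add _ _ _ (h1 _ _ hpq) (h1 _ _ hqr)
    bd := fun p q hpq => C.bd _ _ (h1 _ _ hpq)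
    wθ := fun p q hpq => C.wθ _ _ (h1 _ _ hpq) }⟩

/-- the cocycle of `Q_1 G` -/
theorem Coc.ofQ [Fintype G] (s : G) : Nonempty (Coc (Q G 1) s (orderOf s) (orderOf s)) := by
  obtain ⟨lam, hlam⟩ := exists_label s (orderOf s) rfl
  have : NeZero (orderOf s) := ⟨(orderOf_pos s).ne'⟩
  refine ⟨{
    w := fun p q => ((lam q.1 - lam p.1).val : ℤ)
    θ := fun p => lam p.1
    θs := fun p => hlam p.1
    ws := fun p q _ => ?_
    add := fun p q r hpq hqr => ?_
    bd := fun p q _ => ?_
    wθ := fun p q _ => ?_ }⟩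
  · show ((lam (s * q.1) - lam (s * p.1)).val : ℤ) = _
    rw [hlam, hlam, add_sub_add_right_eq_sub]
  · rcases hpq with h | h
    · rw [h]
      simp
    · rcases hqr with h' | h'
      · rw [h']
        simp
      · exfalso
        have h1 := Fin.lt_def.mp h
        have h2 := Fin.lt_def.mp h'
        have h3 := r.2.isLt
        omega
  · show |((lam q.1 - lam p.1).val : ℤ)| ≤ _
    rw [abs_of_nonneg (Int.natCast_nonneg _)]
    exact_mod_cast (ZMod.val_lt _).le
  · show (((lam q.1 - lam p.1).val : ℤ) : ZMod (orderOf s)) = _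
    rw [Int.cast_natCast, ZMod.natCast_zmod_val]

/-- cocycles descend from the poset of chains -/
theorem Coc.descend {P : GPoset G} {s : G} {m : ℕ} {B : ℤ}
    (hc : Nonempty (Coc P.Delta.F s m B)) : Nonempty (Coc P s m (2 * B)) := by
  classical
  obtain ⟨C⟩ := hc
  -- vertices and edges of the order complex
  let ve : P.E → P.Delta.F.E := fun p => ⟨{p}, P.Delta.vertex p⟩
  have hpair : ∀ p q : P.E, p ≤ q → ({p, q} : Set P.E) ∈ P.Delta.faces := by
    intro p q hpq
    refine ⟨⟨p, Or.inl rfl⟩, ?_⟩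
    rintro a (rfl | rfl) b (rfl | rfl) hab
    · exact absurd rfl hab
    · exact Or.inl hpq
    · exact Or.inr hpq
    · exact absurd rfl hab
  let ed : ∀ p q : P.E, p ≤ q → P.Delta.F.E := fun p q h => ⟨{p, q}, hpair p q h⟩
  let w : P.E → P.E → ℤ := fun p q =>
    if h : p ≤ q then C.w (ve p) (ed p q h) - C.w (ve q) (ed p q h) else 0
  have hw : ∀ p q (h : p ≤ q), w p q = C.w (ve p) (ed p q h) - C.w (ve q) (ed p q h) :=
    fun p q h => dif_pos h
  have l1 : ∀ p q (h : p ≤ q), ve p ≤ ed p q h := fun p q h => by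
    show ({p} : Set P.E) ⊆ {p, q}
    exact singleton_subset_iff.mpr (Or.inl rfl)
  have l2 : ∀ p q (h : p ≤ q), ve q ≤ ed p q h := fun p q h => by
    show ({q} : Set P.E) ⊆ {p, q}
    exact singleton_subset_iff.mpr (Or.inr rfl)
  have sve : ∀ p, ve (s • p) = s • ve p := fun p => Subtype.ext (by
    show ({s • p} : Set P.E) = (fun v => s • v) '' {p}
    rw [image_singleton])
  refine ⟨{
    w := w
    θ := fun p => C.θ (ve p)
    θs := fun p => ?_
    ws := fun p q hpq => ?_
    add := fun p q r hpq hqr => ?_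
    bd := fun p q hpq => ?_
    wθ := fun p q hpq => ?_ }⟩
  · rw [sve, C.θs]
  · have hpq' : s • p ≤ s • q := P.mono s _ _ hpq
    have sed : ed (s • p) (s • q) hpq' = s • ed p q hpq := Subtype.ext (by
      show ({s • p, s • q} : Set P.E) = (fun v => s • v) '' {p, q}
      rw [image_pair])
    rw [hw _ _ hpq', hw _ _ hpq, sed, sve, sve, C.ws _ _ (l1 p q hpq), C.ws _ _ (l2 p q hpq)]
  · have htri : ({p, q, r} : Set P.E) ∈ P.Delta.faces := by
      refine ⟨⟨p, Or.inl rfl⟩, ?_⟩
      rintro a (rfl | rfl | rfl) b (rfl | rfl | rfl) hab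
      · exact absurd rfl hab
      · exact Or.inl hpq
      · exact Or.inl (hpq.trans hqr)
      · exact Or.inr hpq
      · exact absurd rfl hab
      · exact Or.inl hqr
      · exact Or.inr (hpq.trans hqr)
      · exact Or.inr hqr
      · exact absurd rfl hab
    let tr : P.Delta.F.E := ⟨{p, q, r}, htri⟩
    have k1 : ed p q hpq ≤ tr := by
      show ({p, q} : Set P.E) ⊆ {p, q, r}
      rintro x (rfl | rfl)
      · exact Or.inl rfl
      · exact Or.inr (Or.inl rfl)
    have k2 : ed q r hqr ≤ tr := by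
      show ({q, r} : Set P.E) ⊆ {p, q, r}
      rintro x (rfl | rfl)
      · exact Or.inr (Or.inl rfl)
      · exact Or.inr (Or.inr rfl)
    have k3 : ed p r (hpq.trans hqr) ≤ tr := by
      show ({p, r} : Set P.E) ⊆ {p, q, r}
      rintro x (rfl | rfl)
      · exact Or.inl rfl
      · exact Or.inr (Or.inr rfl)
    rw [hw _ _ hpq, hw _ _ hqr, hw _ _ (hpq.trans hqr)]
    have a1 := C.add _ _ _ (l1 p q hpq) k1
    have a2 := C.add _ _ _ (l2 p q hpq) k1
    have a3 := C.add _ _ _ (l1 q r hqr) k2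
    have a4 := C.add _ _ _ (l2 q r hqr) k2
    have a5 := C.add _ _ _ (l1 p r (hpq.trans hqr)) k3
    have a6 := C.add _ _ _ (l2 p r (hpq.trans hqr)) k3
    linarith
  · rw [hw _ _ hpq]
    have b1 := C.bd _ _ (l1 p q hpq)
    have b2 := C.bd _ _ (l2 p q hpq)
    rw [abs_le] at b1 b2 ⊢
    constructor <;> linarith
  · rw [hw _ _ hpq]
    push_cast
    rw [C.wθ _ _ (l1 p q hpq), C.wθ _ _ (l2 p q hpq)]
    ring

/-- cocycles descend from iterated subdivisions -/
theorem Coc.descend_iterate {P : GPoset G} {s : G} {m : ℕ} (r : ℕ) : ∀ {B : ℤ},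
    Nonempty (Coc ((GComplex.sd^[r] P.Delta).F) s m B) → Nonempty (Coc P s m (2 ^ (r + 1) * B)) := by
  induction r with
  | zero =>
    intro B h
    have := Coc.descend (P := P) h
    rwa [zero_add, pow_one]
  | succ r ih =>
    intro B h
    rw [Function.iterate_succ_apply'] at h
    have h1 : Nonempty (Coc ((GComplex.sd^[r] P.Delta).F) s m (2 * B)) := Coc.descend h
    have := ih h1
    rwa [show (2 : ℤ) ^ (r + 1) * (2 * B) = 2 ^ (r + 1 + 1) * B by ring] at this

/-- iterated subdivisions map back -/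
theorem sd_iterate_map (P : GPoset G) (r : ℕ) : ((GComplex.sd^[r] P.Delta).F).HasMap P := by
  induction r with
  | zero => exact F_Delta P
  | succ r ih =>
    rw [Function.iterate_succ_apply']
    exact GPoset.HasMap.trans (F_Delta _) ih

/-! ### The twisted poset -/

/-- the fence order on the integers -/
def Fe (x y : ℤ) : Prop := x = y ∨ (x % 2 = 0 ∧ y % 2 = 1 ∧ (x = y + 1 ∨ x = y - 1))

/-- the circle, the path and the apex: relation with twists -/
def spR (d : ℕ) : Fin 4 ⊕ (Fin (4 * d + 1) ⊕ Unit) → Fin 4 ⊕ (Fin (4 * d + 1) ⊕ Unit) → ℤ → Prop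
  | .inl i, .inl j, c => Fe (i : ℕ) ((j : ℕ) + 4 * c)
  | .inr (.inl x), .inl j, c => Fe (x : ℕ) ((j : ℕ) + 4 * c)
  | .inr (.inl x), .inr (.inl y), c => c = 0 ∧ Fe (x : ℕ) (y : ℕ)
  | .inr (.inl _), .inr (.inr _), c => c = 0
  | .inr (.inr _), .inr (.inr _), c => c = 0
  | .inr (.inr _), .inl _, _ => False
  | .inr (.inr _), .inr (.inl _), _ => False
  | .inl _, .inr _, _ => False

theorem Fe.trans {x y z : ℤ} (h1 : Fe x y) (h2 : Fe y z) : Fe x z := by
  unfold Fe at *
  omega

/-- the twisted poset -/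
def sp (d : ℕ) : Tw (Fin 4 ⊕ (Fin (4 * d + 1) ⊕ Unit)) 2 where
  R := spR d
  refl := by
    rintro (i | x | u)
    · show Fe (i : ℕ) ((i : ℕ) + 4 * 0)
      left
      ring
    · exact ⟨rfl, Or.inl rfl⟩
    · rfl
  trans := by
    rintro (i | x | u) (j | y | v) (k | z | t) c d' h1 h2
    all_goals first | exact absurd h1 id | exact absurd h2 id | skip
    · have h1' : Fe (i : ℕ) ((j : ℕ) + 4 * c) := h1
      have h2' : Fe (j : ℕ) ((k : ℕ) + 4 * d') := h2
      show Fe (i : ℕ) ((k : ℕ) + 4 * (c + d'))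
      unfold Fe at *
      omega
    · have h1' : Fe (x : ℕ) ((j : ℕ) + 4 * c) := h1
      have h2' : Fe (j : ℕ) ((k : ℕ) + 4 * d') := h2
      show Fe (x : ℕ) ((k : ℕ) + 4 * (c + d'))
      unfold Fe at *
      omega
    · have h1' : c = 0 ∧ Fe (x : ℕ) (y : ℕ) := h1
      have h2' : Fe (y : ℕ) ((k : ℕ) + 4 * d') := h2
      show Fe (x : ℕ) ((k : ℕ) + 4 * (c + d'))
      unfold Fe at *
      omega
    · have h1' : c = 0 ∧ Fe (x : ℕ) (y : ℕ) := h1
      have h2' : d' = 0 ∧ Fe (y : ℕ) (z : ℕ) := h2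
      exact ⟨by rw [h1'.1, h2'.1, add_zero], h1'.2.trans h2'.2⟩
    · have h1' : c = 0 ∧ Fe (x : ℕ) (y : ℕ) := h1
      have h2' : d' = 0 := h2
      show c + d' = 0
      rw [h1'.1, h2', add_zero]
    · have h1' : c = 0 := h1
      have h2' : d' = 0 := h2
      show c + d' = 0
      rw [h1', h2', add_zero]
    · have h1' : c = 0 := h1
      have h2' : d' = 0 := h2
      show c + d' = 0
      rw [h1', h2', add_zero]
  uniq := by
    rintro (i | x | u) (j | y | v) c d' h1 h2
    all_goals first | exact absurd h1 id | skip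
    · have h1' : Fe (i : ℕ) ((j : ℕ) + 4 * c) := h1
      have h2' : Fe (i : ℕ) ((j : ℕ) + 4 * d') := h2
      unfold Fe at *
      omega
    · have h1' : Fe (x : ℕ) ((j : ℕ) + 4 * c) := h1
      have h2' : Fe (x : ℕ) ((j : ℕ) + 4 * d') := h2
      unfold Fe at *
      omega
    · exact h1.1.trans h2.1.symm
    · have h1' : c = 0 := h1
      have h2' : d' = 0 := h2
      rw [h1', h2']
    · have h1' : c = 0 := h1
      have h2' : d' = 0 := h2
      rw [h1', h2']
  rk := fun p => match p with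
    | .inl i => 1 + (i : ℕ) % 2
    | .inr (.inl x) => (x : ℕ) % 2
    | .inr (.inr _) => 2
  rk_lt := by
    rintro (i | x | u) (j | y | v) c h
    all_goals first | exact absurd h id | skip
    · have h' : Fe (i : ℕ) ((j : ℕ) + 4 * c) := h
      have hi := i.isLt
      have hj := j.isLt
      by_cases hij : i = j
      · exact Or.inl (congrArg _ hij)
      · right
        show 1 + (i : ℕ) % 2 < 1 + (j : ℕ) % 2
        have : (i : ℕ) ≠ j := fun h => hij (Fin.ext h)
        unfold Fe at h'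
        omega
    · have h' : Fe (x : ℕ) ((j : ℕ) + 4 * c) := h
      right
      show (x : ℕ) % 2 < 1 + (j : ℕ) % 2
      unfold Fe at h'
      omega
    · have h' : c = 0 ∧ Fe (x : ℕ) (y : ℕ) := h
      by_cases hxy : x = y
      · exact Or.inl (by rw [hxy])
      · right
        show (x : ℕ) % 2 < (y : ℕ) % 2
        have : (x : ℕ) ≠ y := fun h => hxy (Fin.ext h)
        unfold Fe at h'
        omega
    · right
      show (x : ℕ) % 2 < 2
      omega
    · exact Or.inl rfl
  rk_le := by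
    rintro (i | x | u)
    · show 1 + (i : ℕ) % 2 ≤ 2
      omega
    · show (x : ℕ) % 2 ≤ 2
      omega
    · exact le_rfl

/-- no cocycle with a small bound on the twisted poset -/
theorem sp_no_coc [Fintype G] (s : G) (m : ℕ) (hm : 2 ≤ m) (d : ℕ) (B : ℤ) (hd : 4 * B < d) :
    ¬ Nonempty (Coc ((sp d).X s) s m B) := by
  rintro ⟨C⟩
  let X := (sp d).X s
  let τ : ℤ → X.E := fun x => (sp d).el s (s ^ (x / 4)) (Sum.inl ⟨(x % 4).toNat, by omega⟩)
  let ep : ∀ x : ℕ, x < 4 * d + 1 → X.E := fun x hx => (sp d).el s 1 (Sum.inr (Sum.inl ⟨x, hx⟩))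
  let z : X.E := (sp d).el s 1 (Sum.inr (Sum.inr ()))
  have hτs : ∀ x, s • τ x = τ (x + 4) := by
    intro x
    refine Prod.ext ?_ ?_
    · show s * s ^ (x / 4) = s ^ ((x + 4) / 4)
      rw [show (x + 4) / 4 = 1 + x / 4 by omega, zpow_add, zpow_one]
    · show (Sum.inl _ : Fin 4 ⊕ (Fin (4 * d + 1) ⊕ Unit)) = Sum.inl _
      congr 1
      refine Fin.ext ?_
      show (x % 4).toNat = ((x + 4) % 4).toNat
      congr 1
      omega
  have hττ : ∀ x y, Fe x y → τ x ≤ τ y := by
    intro x y h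
    refine ⟨y / 4 - x / 4, ?_, ?_⟩
    · show Fe (((x % 4).toNat : ℕ) : ℤ) ((((y % 4).toNat : ℕ) : ℤ) + 4 * (y / 4 - x / 4))
      unfold Fe at *
      omega
    · show s ^ (y / 4) = s ^ (x / 4) * s ^ (y / 4 - x / 4)
      rw [← zpow_add]
      congr 1
      ring
  have heτ : ∀ (x : ℕ) (hx : x < 4 * d + 1), ep x hx ≤ τ x := by
    intro x hx
    refine ⟨(x : ℤ) / 4, ?_, ?_⟩
    · show Fe ((x : ℕ) : ℤ) (((((x : ℤ) % 4).toNat : ℕ) : ℤ) + 4 * ((x : ℤ) / 4))
      unfold Fe
      omega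
    · show s ^ ((x : ℤ) / 4) = 1 * s ^ ((x : ℤ) / 4)
      rw [one_mul]
  have hee : ∀ (x y : ℕ) (hx : x < 4 * d + 1) (hy : y < 4 * d + 1), Fe x y → ep x hx ≤ ep y hy := by
    intro x y hx hy h
    exact ⟨0, ⟨rfl, h⟩, by show (1 : G) = 1 * s ^ (0 : ℤ); simp⟩
  have hez : ∀ (x : ℕ) (hx : x < 4 * d + 1), ep x hx ≤ z := by
    intro x hx
    exact ⟨0, rfl, by show (1 : G) = 1 * s ^ (0 : ℤ); simp⟩
  let κ : ℕ → ℤ := fun x => if hx : x < 4 * d + 1 then C.w (ep x hx) (τ x) - C.w (ep x hx) z else 0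
  have hκ : ∀ x (hx : x < 4 * d + 1), κ x = C.w (ep x hx) (τ x) - C.w (ep x hx) z :=
    fun x hx => dif_pos hx
  have hκb : ∀ x, x < 4 * d + 1 → |κ x| ≤ 2 * B := by
    intro x hx
    rw [hκ x hx]
    have b1 := C.bd _ _ (heτ x hx)
    have b2 := C.bd _ _ (hez x hx)
    rw [abs_le] at b1 b2 ⊢
    constructor <;> linarith
  have step : ∀ (x y : ℕ) (hx : x < 4 * d + 1) (hy : y < 4 * d + 1), Fe x y →
      C.w (τ x) (τ y) = κ y - κ x := by
    intro x y hx hy h
    rw [hκ x hx, hκ y hy]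
    have a1 := C.add _ _ _ (heτ x hx) (hττ x y h)
    have a2 := C.add _ _ _ (hee x y hx hy h) (heτ y hy)
    have a3 := C.add _ _ _ (hee x y hx hy h) (hez y hy)
    linarith
  -- the signed steps
  let D : ℤ → ℤ := fun x => if x % 2 = 0 then C.w (τ x) (τ (x + 1)) else - C.w (τ (x + 1)) (τ x)
  have hD4 : ∀ x, D (x + 4) = D x := by
    intro x
    show (if (x + 4) % 2 = 0 then C.w (τ (x + 4)) (τ (x + 4 + 1)) else
      - C.w (τ (x + 4 + 1)) (τ (x + 4))) = if x % 2 = 0 then C.w (τ x) (τ (x + 1)) else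
      - C.w (τ (x + 1)) (τ x)
    rw [show x + 4 + 1 = (x + 1) + 4 by ring, ← hτs, ← hτs]
    by_cases hx : x % 2 = 0
    · rw [if_pos hx, if_pos (by omega), C.ws _ _ (hττ _ _ (by unfold Fe; omega))]
    · rw [if_neg hx, if_neg (by omega), C.ws _ _ (hττ _ _ (by unfold Fe; omega))]
  have hD4' : ∀ (i : ℕ) (x : ℤ), D (x + 4 * i) = D x := by
    intro i
    induction i with
    | zero => intro x; simp
    | succ i ih =>
      intro x
      rw [show x + 4 * ((i + 1 : ℕ) : ℤ) = (x + 4 * i) + 4 by push_cast; ring, hD4, ih]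
  have hDκ : ∀ x : ℕ, x < 4 * d → κ (x + 1) - κ x = D x := by
    intro x hx
    by_cases hpar : (x : ℤ) % 2 = 0
    · have h1 := step x (x + 1) (by omega) (by omega) (by unfold Fe; push_cast; omega)
      show _ = if (x : ℤ) % 2 = 0 then _ else _
      rw [if_pos hpar, ← h1]
      push_cast
      rfl
    · have h1 := step (x + 1) x (by omega) (by omega) (by unfold Fe; push_cast; omega)
      show _ = if (x : ℤ) % 2 = 0 then _ else _
      rw [if_neg hpar]
      have h2 : C.w (τ ((x : ℤ) + 1)) (τ x) = κ x - κ (x + 1) := by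
        rw [← h1]
        push_cast
        rfl
      rw [h2]
      ring
  have hDθ : ∀ x, ((D x : ℤ) : ZMod m) = C.θ (τ (x + 1)) - C.θ (τ x) := by
    intro x
    show (((if x % 2 = 0 then C.w (τ x) (τ (x + 1)) else - C.w (τ (x + 1)) (τ x)) : ℤ) : ZMod m) = _
    by_cases hx : x % 2 = 0
    · rw [if_pos hx, C.wθ _ _ (hττ _ _ (by unfold Fe; omega))]
    · rw [if_neg hx]
      push_cast
      rw [C.wθ _ _ (hττ _ _ (by unfold Fe; omega))]
      ring
  set Ω : ℤ := D 0 + D 1 + D 2 + D 3 with hΩ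
  have hΩ1 : ((Ω : ℤ) : ZMod m) = 1 := by
    rw [hΩ]
    push_cast
    rw [hDθ, hDθ, hDθ, hDθ]
    have h4 : τ (3 + 1) = s • τ 0 := by
      rw [hτs]
      rfl
    rw [h4, C.θs]
    norm_num
  have hΩ0 : Ω ≠ 0 := by
    intro h0
    rw [h0] at hΩ1
    have : Fact (1 < m) := ⟨hm⟩
    simp at hΩ1
  have hlin : ∀ i : ℕ, i ≤ d → κ (4 * i) = κ 0 + i * Ω := by
    intro i
    induction i with
    | zero => intro _; simp
    | succ i ih =>
      intro hi
      have e0 := ih (by omega)
      have e1 := hDκ (4 * i) (by omega)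
      have e2 := hDκ (4 * i + 1) (by omega)
      have e3 := hDκ (4 * i + 2) (by omega)
      have e4 := hDκ (4 * i + 3) (by omega)
      have f1 : D ((4 * i : ℕ) : ℤ) = D 0 := by
        have := hD4' i 0
        rw [← this]
        push_cast
        ring_nf
      have f2 : D ((4 * i + 1 : ℕ) : ℤ) = D 1 := by
        have := hD4' i 1
        rw [← this]
        push_cast
        ring_nf
      have f3 : D ((4 * i + 2 : ℕ) : ℤ) = D 2 := by
        have := hD4' i 2
        rw [← this]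
        push_cast
        ring_nf
      have f4 : D ((4 * i + 3 : ℕ) : ℤ) = D 3 := by
        have := hD4' i 3
        rw [← this]
        push_cast
        ring_nf
      rw [f1] at e1
      rw [f2] at e2
      rw [f3] at e3
      rw [f4] at e4
      rw [show 4 * (i + 1) = 4 * i + 3 + 1 by ring]
      push_cast
      linarith
  have hfin := hlin d le_rfl
  have b0 := hκb 0 (by omega)
  have b1 := hκb (4 * d) (by omega)
  have hΩabs : 1 ≤ |Ω| := Int.one_le_abs hΩ0
  have h1 : (d : ℤ) * |Ω| = |κ (4 * d) - κ 0| := by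
    rw [hfin, add_sub_cancel_left, abs_mul, abs_of_nonneg (Int.natCast_nonneg d)]
  have h2 : |κ (4 * d) - κ 0| ≤ 4 * B := by
    refine (abs_sub _ _).trans ?_
    linarith
  have h3 : (d : ℤ) ≤ d * |Ω| := by nlinarith [Int.natCast_nonneg d]
  linarith

end Pool.Agent.X195.GI
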