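import Pool.Agent.X195.GI8

set_option autoImplicit false

/-!
Products of face posets: for the cyclic group of order four there are two finite free complexes of
cross-index two whose product has cross-index at most one.
-/

namespace Pool.Agent.X195.GI

open Set Topology Filter
open scoped Pointwise BigOperators

variable {G : Type} [Group G]

/-- product of `G`-posets, with the componentwise order and the diagonal action -/
def GPoset.prod (P R : GPoset G) : GPoset G where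
  E := P.E × R.E
  mono := fun g _ _ h => Prod.le_def.mpr ⟨P.mono g _ _ h.1, R.mono g _ _ h.2⟩

theorem GPoset.prod_map {P R P' R' : GPoset G} (h1 : P.HasMap P') (h2 : R.HasMap R') :
    (P.prod R).HasMap (P'.prod R') := by
  obtain ⟨f, hf1, hf2⟩ := h1
  obtain ⟨g, hg1, hg2⟩ := h2
  exact ⟨fun x => (f x.1, g x.2), fun p q h => ⟨hf1 _ _ h.1, hg1 _ _ h.2⟩,
    fun a p => Prod.ext (hf2 a p.1) (hg2 a p.2)⟩

/-- every finite free `G`-poset has a `G`-map to some `Q_n G`, as soon as it has a strictly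
monotone invariant rank -/
theorem exists_map_of_rank [Fintype G] (P : GPoset G) (hP : P.IsFree) (n : ℕ) (rk : P.E → ℕ)
    (h1 : ∀ p q, p ≤ q → p = q ∨ rk p < rk q) (h2 : ∀ (g : G) (p : P.E), rk (g • p) = rk p)
    (h3 : ∀ p, rk p ≤ n) : P.HasMap (Q G n) := by
  classical
  let S : Setoid P.E := MulAction.orbitRel G P.E
  let rep : P.E → P.E := fun p => (Quotient.mk S p).out
  have hrep : ∀ p, ∃ g : G, g • rep p = p := by
    intro p
    have : S (Quotient.mk S p).out p := Quotient.mk_out (s := S) p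
    have h' : (Quotient.mk S p).out ∈ MulAction.orbit G p := this
    obtain ⟨g, hg⟩ := h'
    refine ⟨g⁻¹, ?_⟩
    show g⁻¹ • (Quotient.mk S p).out = p
    rw [← hg]
    exact inv_smul_smul g p
  have hrepg : ∀ (g : G) (p : P.E), rep (g • p) = rep p := by
    intro g p
    have : Quotient.mk S (g • p) = Quotient.mk S p := Quotient.sound ⟨g, rfl⟩
    show (Quotient.mk S (g • p)).out = (Quotient.mk S p).out
    rw [this]
  choose θ hθ using hrep
  have hθg : ∀ (g : G) (p : P.E), θ (g • p) = g * θ p := by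
    intro g p
    have e1 := hθ (g • p)
    rw [hrepg] at e1
    have e2 : (g * θ p) • rep p = g • p := by rw [mul_smul, hθ]
    have e3 : ((g * θ p)⁻¹ * θ (g • p)) • rep p = rep p := by
      rw [mul_smul, e1, ← e2, inv_smul_smul]
    have e4 := hP _ _ e3
    exact (inv_mul_eq_one.mp e4).symm
  refine ⟨fun p => ((θ p, ⟨rk p, Nat.lt_succ_of_le (h3 p)⟩) : G × Fin (n + 1)), ?_, ?_⟩
  · intro p q hpq
    rcases h1 p q hpq with rfl | h
    · exact le_rfl
    · exact Or.inr h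
  · intro g p
    refine Prod.ext (hθg g p) (Fin.ext (h2 g p))

/-! ### The cyclic group of order four -/

/-- the cyclic group of order four -/
abbrev C4 : Type := Multiplicative (ZMod 4)

/-- the generator -/
def c4 : C4 := Multiplicative.ofAdd 1

theorem order_c4 : orderOf c4 = 4 := by
  unfold c4
  rw [orderOf_ofAdd_eq_addOrderOf, ZMod.addOrderOf_one]

/-- the order of the four-cycle -/
def le4 (u u' : ZMod 4) : Prop := u = u' ∨ (u.val % 2 = 0 ∧ u'.val % 2 = 1)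

instance (u u' : ZMod 4) : Decidable (le4 u u') := by unfold le4; infer_instance

/-- the action of `Z/4` on the torus -/
def rot4 (a : ZMod 4) (p : ZMod 4 × ZMod 4) : ZMod 4 × ZMod 4 :=
  if a = 0 then p else if a = 1 then (p.2, p.1 + 2)
  else if a = 2 then (p.1 + 2, p.2 + 2) else (p.2 + 2, p.1)

/-- the first poset: a torus -/
def T1 : GPoset C4 where
  E := ZMod 4 × ZMod 4
  ord :=
    { le := fun x y => le4 x.1 y.1 ∧ le4 x.2 y.2
      le_refl := fun x => ⟨Or.inl rfl, Or.inl rfl⟩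
      le_trans := by
        have h : ∀ a b c : ZMod 4, le4 a b → le4 b c → le4 a c := by decide
        exact fun x y z h1 h2 => ⟨h _ _ _ h1.1 h2.1, h _ _ _ h1.2 h2.2⟩
      le_antisymm := by
        have h : ∀ a b : ZMod 4, le4 a b → le4 b a → a = b := by decide
        exact fun x y h1 h2 => Prod.ext (h _ _ h1.1 h2.1) (h _ _ h1.2 h2.2) }
  act :=
    { smul := fun g p => rot4 (Multiplicative.toAdd g) p
      one_smul := fun p => rfl
      mul_smul := by
        have h : ∀ a b : ZMod 4, ∀ p : ZMod 4 × ZMod 4, rot4 (a + b) p = rot4 a (rot4 b p) := by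
          decide
        exact fun g g' p => h _ _ p }
  mono := by
    have h0 : ∀ a b : ZMod 4, le4 a b → le4 (a + 2) (b + 2) := by decide
    intro g x y h
    show le4 (rot4 (Multiplicative.toAdd g) x).1 (rot4 (Multiplicative.toAdd g) y).1 ∧
      le4 (rot4 (Multiplicative.toAdd g) x).2 (rot4 (Multiplicative.toAdd g) y).2
    unfold rot4
    split_ifs
    · exact h
    · exact ⟨h.2, h0 _ _ h.1⟩
    · exact ⟨h0 _ _ h.1, h0 _ _ h.2⟩
    · exact ⟨h0 _ _ h.2, h.1⟩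

theorem T1_free : T1.IsFree := by
  have h : ∀ a : ZMod 4, ∀ p : ZMod 4 × ZMod 4, rot4 a p = p → a = 0 := by decide
  intro g p hp
  exact h _ p hp

theorem T1_map : T1.HasMap (Q C4 2) := by
  refine exists_map_of_rank T1 T1_free 2 (fun p => p.1.val % 2 + p.2.val % 2) ?_ ?_ ?_
  · have h : ∀ a b : ZMod 4, le4 a b → a = b ∨ a.val % 2 < b.val % 2 := by decide
    intro p q hpq
    rcases h _ _ hpq.1 with h1 | h1 <;> rcases h _ _ hpq.2 with h2 | h2
    · exact Or.inl (Prod.ext h1 h2)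
    · right
      show p.1.val % 2 + p.2.val % 2 < q.1.val % 2 + q.2.val % 2
      rw [h1]
      omega
    · right
      show p.1.val % 2 + p.2.val % 2 < q.1.val % 2 + q.2.val % 2
      rw [h2]
      omega
    · right
      show p.1.val % 2 + p.2.val % 2 < q.1.val % 2 + q.2.val % 2
      omega
  · have h : ∀ a : ZMod 4, ∀ p : ZMod 4 × ZMod 4,
        (rot4 a p).1.val % 2 + (rot4 a p).2.val % 2 = p.1.val % 2 + p.2.val % 2 := by decide
    intro g p
    exact h _ p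
  · intro p
    show p.1.val % 2 + p.2.val % 2 ≤ 2
    omega

/-- the second poset: two octahedra -/
def T2 : GPoset C4 where
  E := ZMod 4 × Fin 3
  ord :=
    { le := fun x y => x = y ∨ (x.2 < y.2 ∧ (y.1 = x.1 ∨ y.1 = x.1 + 2))
      le_refl := fun x => Or.inl rfl
      le_trans := by
        have h : ∀ a b c : ZMod 4, (b = a ∨ b = a + 2) → (c = b ∨ c = b + 2) →
          (c = a ∨ c = a + 2) := by decide
        rintro x y z (rfl | h1) (rfl | h2)
        · exact Or.inl rfl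
        · exact Or.inr h2
        · exact Or.inr h1
        · exact Or.inr ⟨h1.1.trans h2.1, h _ _ _ h1.2 h2.2⟩
      le_antisymm := by
        rintro x y (rfl | h1) (h2 | h2)
        · rfl
        · rfl
        · exact h2.symm
        · exact absurd (h1.1.trans h2.1) (lt_irrefl _) }
  act :=
    { smul := fun g p => (Multiplicative.toAdd g + p.1, p.2)
      one_smul := fun p => Prod.ext (zero_add _) rfl
      mul_smul := fun g g' p => Prod.ext (add_assoc _ _ _) rfl }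
  mono := by
    rintro g x y (rfl | ⟨h1, h2⟩)
    · exact Or.inl rfl
    · refine Or.inr ⟨h1, ?_⟩
      rcases h2 with h2 | h2
      · left
        show Multiplicative.toAdd g + y.1 = Multiplicative.toAdd g + x.1
        rw [h2]
      · right
        show Multiplicative.toAdd g + y.1 = Multiplicative.toAdd g + x.1 + 2
        rw [h2, add_assoc]

theorem T2_free : T2.IsFree := by
  intro g p hp
  have h : Multiplicative.toAdd g + p.1 = p.1 := congrArg Prod.fst hp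
  have h' : Multiplicative.toAdd g = 0 := by simpa using h
  exact h'

theorem T2_map : T2.HasMap (Q C4 2) := by
  refine ⟨fun x => ((Multiplicative.ofAdd x.1, x.2) : C4 × Fin 3), ?_, ?_⟩
  · rintro x y (rfl | ⟨h1, h2⟩)
    · exact le_rfl
    · exact Or.inr h1
  · intro g p
    rfl

/-- the evaluation map of the product -/
theorem prod_le_one : (T1.prod T2).HasMap (Q C4 1) := by
  let e1 : ZMod 4 → ZMod 4 := fun u => if u = 2 ∨ u = 3 then 2 else 0
  let e2 : ZMod 4 → Fin 2 := fun u => if u = 1 ∨ u = 3 then 1 else 0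
  let f1 : ZMod 4 × ZMod 4 → ZMod 4 → ZMod 4 := fun x a => a + e1 (rot4 (-a) x).1
  let f2 : ZMod 4 × ZMod 4 → ZMod 4 → Fin 2 := fun x a => e2 (rot4 (-a) x).1
  have hmono1 : ∀ u u' : ZMod 4, le4 u u' → u = u' ∨ e2 u < e2 u' := by decide
  have hper1 : ∀ (x : ZMod 4 × ZMod 4) (a : ZMod 4), f1 x (a + 2) = f1 x a := by decide
  have hper2 : ∀ (x : ZMod 4 × ZMod 4) (a : ZMod 4), f2 x (a + 2) = f2 x a := by decide
  have heq1 : ∀ (b : ZMod 4) (x : ZMod 4 × ZMod 4) (a : ZMod 4),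
      f1 (rot4 b x) (b + a) = b + f1 x a := by decide
  have heq2 : ∀ (b : ZMod 4) (x : ZMod 4 × ZMod 4) (a : ZMod 4),
      f2 (rot4 b x) (b + a) = f2 x a := by decide
  refine ⟨fun x => ((Multiplicative.ofAdd (f1 x.1 x.2.1), f2 x.1 x.2.1) : C4 × Fin 2), ?_, ?_⟩
  · rintro ⟨x, a, i⟩ ⟨y, b, j⟩ ⟨h1, h2⟩
    have hb : b = a ∨ b = a + 2 := by
      rcases h2 with h2 | h2
      · left
        have := congrArg Prod.fst h2
        exact this.symm
      · exact h2.2
    have e : f1 y b = f1 y a ∧ f2 y b = f2 y a := by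
      rcases hb with rfl | rfl
      · exact ⟨rfl, rfl⟩
      · exact ⟨hper1 y a, hper2 y a⟩
    show ((Multiplicative.ofAdd (f1 x a), f2 x a) : C4 × Fin 2) = (Multiplicative.ofAdd (f1 y b), f2 y b)
      ∨ f2 x a < f2 y b
    rw [e.1, e.2]
    have h3 : le4 (rot4 (-a) x).1 (rot4 (-a) y).1 := (T1.mono (Multiplicative.ofAdd (-a)) x y h1).1
    rcases hmono1 _ _ h3 with h4 | h4
    · left
      show ((Multiplicative.ofAdd (a + e1 (rot4 (-a) x).1), e2 (rot4 (-a) x).1) : C4 × Fin 2) =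
        (Multiplicative.ofAdd (a + e1 (rot4 (-a) y).1), e2 (rot4 (-a) y).1)
      rw [h4]
    · right
      exact h4
  · rintro g ⟨x, a, i⟩
    exact Prod.ext (congrArg Multiplicative.ofAdd (heq1 (Multiplicative.toAdd g) x a))
      (heq2 (Multiplicative.toAdd g) x a)

/-- no cocycle on the torus -/
theorem T1_no_coc (B : ℤ) : ¬ Nonempty (Coc T1 c4 4 B) := by
  rintro ⟨C⟩
  let w : ZMod 4 → ZMod 4 → ZMod 4 → ZMod 4 → ℤ := fun u v u' v' =>
    C.w ((u, v) : ZMod 4 × ZMod 4) ((u', v') : ZMod 4 × ZMod 4)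
  have hs : ∀ u v u' v', le4 u u' → le4 v v' → w v (u + 2) v' (u' + 2) = w u v u' v' :=
    fun u v u' v' h1 h2 => C.ws ((u, v) : ZMod 4 × ZMod 4) ((u', v') : ZMod 4 × ZMod 4) ⟨h1, h2⟩
  have hadd : ∀ u v u' v' u'' v'', le4 u u' → le4 v v' → le4 u' u'' → le4 v' v'' →
      w u v u'' v'' = w u v u' v' + w u' v' u'' v'' :=
    fun u v u' v' u'' v'' h1 h2 h3 h4 => C.add ((u, v) : ZMod 4 × ZMod 4)
      ((u', v') : ZMod 4 × ZMod 4) ((u'', v'') : ZMod 4 × ZMod 4) ⟨h1, h2⟩ ⟨h3, h4⟩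
  -- squares
  have sq : ∀ u v u' v', le4 u u' → le4 v v' → w u v u' v + w u' v u' v' = w u v u v' + w u v' u' v' := by
    intro u v u' v' h1 h2
    rw [← hadd u v u' v u' v' h1 (Or.inl rfl) (Or.inl rfl) h2,
      ← hadd u v u v' u' v' (Or.inl rfl) h2 h1 (Or.inl rfl)]
  have l01 : le4 0 1 := by decide
  have l03 : le4 0 3 := by decide
  have l21 : le4 2 1 := by decide
  have l23 : le4 2 3 := by decide
  have r : ∀ a : ZMod 4, le4 a a := fun a => Or.inl rfl
  -- vertical edges rotate to horizontal ones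
  have y2x : ∀ u v v', le4 v v' → w v (u + 2) v' (u + 2) = w u v u v' := fun u v v' h => hs u v u v' (r u) h
  have x2y : ∀ u u' v, le4 u u' → w v (u + 2) v (u' + 2) = w u v u' v := fun u u' v h => hs u v u' v h (r v)
  have t2 : ((0 : ZMod 4) + 2) = 2 := by decide
  have t3 : ((1 : ZMod 4) + 2) = 3 := by decide
  have t0 : ((2 : ZMod 4) + 2) = 0 := by decide
  have t1 : ((3 : ZMod 4) + 2) = 1 := by decide
  have key : w 0 0 0 1 - w 0 2 0 1 = w 0 2 0 3 - w 0 0 0 3 := by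
    have a1 := y2x 0 0 1 l01
    have a2 := y2x 0 2 1 l21
    have a3 := y2x 0 2 3 l23
    have a4 := y2x 0 0 3 l03
    have a5 := y2x 2 0 1 l01
    have a6 := y2x 2 2 1 l21
    have a7 := y2x 2 2 3 l23
    have a8 := y2x 2 0 3 l03
    have b1 := x2y 0 1 0 l01
    have b2 := x2y 2 1 0 l21
    have b3 := x2y 2 3 0 l23
    have b4 := x2y 0 3 0 l03
    have b5 := x2y 0 1 2 l01
    have b6 := x2y 2 1 2 l21
    have b7 := x2y 2 3 2 l23
    have b8 := x2y 0 3 2 l03
    rw [t2] at *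
    rw [t3] at *
    rw [t0] at *
    rw [t1] at *
    have s1 := sq 0 0 1 1 l01 l01
    have s2 := sq 0 0 1 3 l01 l03
    have s3 := sq 0 2 1 1 l01 l21
    have s4 := sq 0 2 1 3 l01 l23
    have s5 := sq 0 0 3 1 l03 l01
    have s6 := sq 0 0 3 3 l03 l03
    have s7 := sq 0 2 3 1 l03 l21
    have s8 := sq 0 2 3 3 l03 l23
    have s9 := sq 2 0 1 1 l21 l01
    have s10 := sq 2 0 1 3 l21 l03
    have s11 := sq 2 2 1 1 l21 l21
    have s12 := sq 2 2 1 3 l21 l23
    have s13 := sq 2 0 3 1 l23 l01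
    have s14 := sq 2 0 3 3 l23 l03
    have s15 := sq 2 2 3 1 l23 l21
    have s16 := sq 2 2 3 3 l23 l23
    linarith
  -- the potentials
  have θs : C.θ ((0, 2) : ZMod 4 × ZMod 4) = C.θ ((0, 0) : ZMod 4 × ZMod 4) + 1 :=
    C.θs ((0, 0) : ZMod 4 × ZMod 4)
  have w1 : ((w 0 0 0 1 : ℤ) : ZMod 4) = C.θ ((0, 1) : ZMod 4 × ZMod 4) -
    C.θ ((0, 0) : ZMod 4 × ZMod 4) := C.wθ ((0, 0) : ZMod 4 × ZMod 4) ((0, 1) : ZMod 4 × ZMod 4) ⟨r 0, l01⟩
  have w2 : ((w 0 2 0 1 : ℤ) : ZMod 4) = C.θ ((0, 1) : ZMod 4 × ZMod 4) -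
    C.θ ((0, 2) : ZMod 4 × ZMod 4) := C.wθ ((0, 2) : ZMod 4 × ZMod 4) ((0, 1) : ZMod 4 × ZMod 4) ⟨r 0, l21⟩
  have w3 : ((w 0 2 0 3 : ℤ) : ZMod 4) = C.θ ((0, 3) : ZMod 4 × ZMod 4) -
    C.θ ((0, 2) : ZMod 4 × ZMod 4) := C.wθ ((0, 2) : ZMod 4 × ZMod 4) ((0, 3) : ZMod 4 × ZMod 4) ⟨r 0, l23⟩
  have w4 : ((w 0 0 0 3 : ℤ) : ZMod 4) = C.θ ((0, 3) : ZMod 4 × ZMod 4) -
    C.θ ((0, 0) : ZMod 4 × ZMod 4) := C.wθ ((0, 0) : ZMod 4 × ZMod 4) ((0, 3) : ZMod 4 × ZMod 4) ⟨r 0, l03⟩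
  have e : (((w 0 0 0 1 - w 0 2 0 1 : ℤ)) : ZMod 4) = ((w 0 2 0 3 - w 0 0 0 3 : ℤ) : ZMod 4) := by
    rw [key]
  push_cast at e
  rw [w1, w2, w3, w4, θs] at e
  have e' : (1 : ZMod 4) = -1 := by linear_combination e
  exact absurd e' (by decide)

/-- no cocycle on the octahedra -/
theorem T2_no_coc (B : ℤ) : ¬ Nonempty (Coc T2 c4 4 B) := by
  rintro ⟨C⟩
  let w : ZMod 4 → Fin 3 → ZMod 4 → Fin 3 → ℤ := fun u i v j =>
    C.w ((u, i) : ZMod 4 × Fin 3) ((v, j) : ZMod 4 × Fin 3)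
  have hle : ∀ (u v : ZMod 4) (i j : Fin 3), i < j → (v = u ∨ v = u + 2) →
      T2.ord.le ((u, i) : ZMod 4 × Fin 3) ((v, j) : ZMod 4 × Fin 3) :=
    fun u v i j h1 h2 => Or.inr ⟨h1, h2⟩
  have hs : ∀ (u v : ZMod 4) (i j : Fin 3), i < j → (v = u ∨ v = u + 2) →
      w (1 + u) i (1 + v) j = w u i v j := fun u v i j h1 h2 => C.ws _ _ (hle u v i j h1 h2)
  have hs2 : ∀ (u v : ZMod 4) (i j : Fin 3), i < j → (v = u ∨ v = u + 2) →
      w (1 + (1 + u)) i (1 + (1 + v)) j = w u i v j := by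
    intro u v i j h1 h2
    rw [hs (1 + u) (1 + v) i j h1 (by rcases h2 with h2 | h2 <;> [left; right] <;> rw [h2]; ring),
      hs u v i j h1 h2]
  have hadd : ∀ (u v t : ZMod 4) (i j k : Fin 3), i < j → (v = u ∨ v = u + 2) → j < k →
      (t = v ∨ t = v + 2) → w u i t k = w u i v j + w v j t k :=
    fun u v t i j k h1 h2 h3 h4 => C.add _ _ _ (hle u v i j h1 h2) (hle v t j k h3 h4)
  have A1 := hadd 0 0 0 0 1 2 (by decide) (by decide) (by decide) (by decide)
  have A2 := hadd 2 0 0 0 1 2 (by decide) (by decide) (by decide) (by decide)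
  have A3 := hadd 0 0 2 0 1 2 (by decide) (by decide) (by decide) (by decide)
  have A4 := hadd 2 0 2 0 1 2 (by decide) (by decide) (by decide) (by decide)
  have B1 := hs2 0 0 0 2 (by decide) (by decide)
  have B2 := hs2 2 0 0 2 (by decide) (by decide)
  have t1 : (1 + (1 + 0) : ZMod 4) = 2 := by decide
  have t2 : (1 + (1 + 2) : ZMod 4) = 0 := by decide
  rw [t1] at B1
  rw [t1, t2] at B2
  have key : w 0 0 0 1 = w 2 0 0 1 := by linarith
  have θ1 : C.θ ((1, 0) : ZMod 4 × Fin 3) = C.θ ((0, 0) : ZMod 4 × Fin 3) + 1 :=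
    C.θs ((0, 0) : ZMod 4 × Fin 3)
  have θ2 : C.θ ((2, 0) : ZMod 4 × Fin 3) = C.θ ((1, 0) : ZMod 4 × Fin 3) + 1 :=
    C.θs ((1, 0) : ZMod 4 × Fin 3)
  have w1 : ((w 0 0 0 1 : ℤ) : ZMod 4) = C.θ ((0, 1) : ZMod 4 × Fin 3) -
    C.θ ((0, 0) : ZMod 4 × Fin 3) := C.wθ _ _ (hle 0 0 0 1 (by decide) (by decide))
  have w2 : ((w 2 0 0 1 : ℤ) : ZMod 4) = C.θ ((0, 1) : ZMod 4 × Fin 3) -
    C.θ ((2, 0) : ZMod 4 × Fin 3) := C.wθ _ _ (hle 2 0 0 1 (by decide) (by decide))
  have e : ((w 0 0 0 1 : ℤ) : ZMod 4) = ((w 2 0 0 1 : ℤ) : ZMod 4) := by rw [key]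
  rw [w1, w2, θ2, θ1] at e
  have e' : (2 : ZMod 4) = 0 := by linear_combination e
  exact absurd e' (by decide)

/-- the two complexes -/
theorem main_prod : ∃ K₁ K₂ : GComplex C4, K₁.IsFree ∧ K₂.IsFree ∧
    K₁.F.HasMap (Q C4 2) ∧ (∀ j < 2, ¬ K₁.F.HasMap (Q C4 j)) ∧
    K₂.F.HasMap (Q C4 2) ∧ (∀ j < 2, ¬ K₂.F.HasMap (Q C4 j)) ∧
    (K₁.F.prod K₂.F).HasMap (Q C4 1) := by
  have low : ∀ T : GPoset C4, (∀ B, ¬ Nonempty (Coc T c4 4 B)) →
      ∀ j < 2, ¬ T.Delta.F.HasMap (Q C4 j) := by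
    intro T hT j hj h
    have h1 : T.Delta.F.HasMap (Q C4 1) := GPoset.HasMap.trans h (Q_mono (by omega))
    have h2 := Coc.descend (Coc.comap h1 (Coc.ofQ c4))
    rw [order_c4] at h2
    exact hT _ h2
  refine ⟨T1.Delta, T2.Delta, (Free'_Delta T1 T1_free).free, (Free'_Delta T2 T2_free).free,
    GPoset.HasMap.trans (F_Delta T1) T1_map, low T1 T1_no_coc,
    GPoset.HasMap.trans (F_Delta T2) T2_map, low T2 T2_no_coc, ?_⟩
  exact GPoset.HasMap.trans (GPoset.prod_map (F_Delta T1) (F_Delta T2)) prod_le_one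

end Pool.Agent.X195.GI
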