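import Mathlib

/-!
Odd tori: the linearisation of the system of all cyclically adjacent `2 × 2` minors of an
`L × M` matrix is injective at a suitable point when `L, M ≥ 3` are odd.
-/
open Finset

set_option linter.unusedSectionVars false
set_option linter.unusedVariables false
set_option linter.style.haveILetI false

namespace Pool.Agent.X195.JM

variable {F : Type*} [Field F]

/-- a small perturbation of an injective map is injective for almost all parameters -/
theorem perturb {E G : Type*} [AddCommGroup E] [Module F E] [FiniteDimensional F E]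
    [AddCommGroup G] [Module F G] (N0 N1 : E →ₗ[F] G) (h0 : Function.Injective N0) :
    {ε : F | ¬ Function.Injective (N0 + ε • N1)}.Finite := by
  obtain ⟨P, hP⟩ := LinearMap.exists_leftInverse_of_injective N0 (LinearMap.ker_eq_bot.2 h0)
  have hfin := Module.End.finite_hasEigenvalue (P ∘ₗ N1)
  refine (hfin.image (fun μ => - μ⁻¹)).subset ?_
  intro ε hε
  replace hε : ¬ Function.Injective (N0 + ε • N1) := hε
  rw [injective_iff_map_eq_zero] at hε
  push Not at hε
  obtain ⟨v, hv, hv0⟩ := hε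
  have h1 : v + ε • (P ∘ₗ N1) v = 0 := by
    have h2 : P ((N0 + ε • N1) v) = 0 := by rw [hv, map_zero]
    rw [LinearMap.add_apply, map_add, LinearMap.smul_apply, map_smul] at h2
    have h3 : P (N0 v) = v := by
      have := LinearMap.congr_fun hP v
      simpa using this
    rw [h3] at h2
    exact h2
  have hε0 : ε ≠ 0 := by
    intro h
    rw [h, zero_smul, add_zero] at h1
    exact hv0 h1
  refine ⟨-ε⁻¹, ?_, ?_⟩
  · refine Module.End.hasEigenvalue_of_hasEigenvector (x := v) ⟨?_, hv0⟩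
    rw [Module.End.mem_eigenspace_iff]
    have h4 : ε • (P ∘ₗ N1) v = - v := by
      rw [eq_neg_iff_add_eq_zero, add_comm]
      exact h1
    calc (P ∘ₗ N1) v = ε⁻¹ • (ε • (P ∘ₗ N1) v) := by
          rw [smul_smul, inv_mul_cancel₀ hε0, one_smul]
      _ = -ε⁻¹ • v := by rw [h4, smul_neg, neg_smul]
  · simp

variable {m : ℕ} [NeZero m]

/-- the adjacent minors of two rows -/
def Bl (s : ZMod m → F) : (ZMod m → F) →ₗ[F] (ZMod m → F) where
  toFun ρ := fun w => ρ w * s (w + 1) - ρ (w + 1) * s w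
  map_add' a b := by
    funext w
    simp only [Pi.add_apply]
    ring
  map_smul' c a := by
    funext w
    simp only [Pi.smul_apply, smul_eq_mul, RingHom.id_apply]
    ring

theorem Bl_apply (s ρ : ZMod m → F) (w : ZMod m) : Bl s ρ w = ρ w * s (w + 1) - ρ (w + 1) * s w :=
  rfl

theorem Bl_add (s s' ρ : ZMod m → F) : Bl (s + s') ρ = Bl s ρ + Bl s' ρ := by
  funext w
  simp only [Bl_apply, Pi.add_apply]
  ring

theorem Bl_smul (c : F) (s ρ : ZMod m → F) : Bl (c • s) ρ = c • Bl s ρ := by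
  funext w
  simp only [Bl_apply, Pi.smul_apply, smul_eq_mul]
  ring

theorem Bl_anti (s ρ : ZMod m → F) : Bl s ρ = - Bl ρ s := by
  funext w
  simp only [Bl_apply, Pi.neg_apply]
  ring

/-- the functional vanishing on the image of `Bl r` -/
def kap (r : ZMod m → F) : (ZMod m → F) →ₗ[F] F where
  toFun P := ∑ w, P w / (r w * r (w + 1))
  map_add' a b := by
    rw [← sum_add_distrib]
    exact sum_congr rfl fun w _ => by simp only [Pi.add_apply]; ring
  map_smul' c a := by
    simp only [RingHom.id_apply, smul_eq_mul, mul_sum]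
    exact sum_congr rfl fun w _ => by simp only [Pi.smul_apply, smul_eq_mul]; ring

theorem kap_apply (r P : ZMod m → F) : kap r P = ∑ w, P w / (r w * r (w + 1)) := rfl

theorem kap_Bl {r : ZMod m → F} (hr : ∀ w, r w ≠ 0) (ρ : ZMod m → F) : kap r (Bl r ρ) = 0 := by
  rw [kap_apply]
  have h1 : ∀ w : ZMod m, Bl r ρ w / (r w * r (w + 1)) = ρ w / r w - ρ (w + 1) / r (w + 1) := by
    intro w
    rw [Bl_apply]
    field_simp [hr w, hr (w + 1)]
  rw [sum_congr rfl fun w _ => h1 w, sum_sub_distrib]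
  have h2 : ∑ w : ZMod m, ρ (w + 1) / r (w + 1) = ∑ w : ZMod m, ρ w / r w :=
    Equiv.sum_comp (Equiv.addRight (1 : ZMod m)) (fun w => ρ w / r w)
  rw [h2, sub_self]

theorem const_of_step (f : ZMod m → F) (h : ∀ w, f (w + 1) = f w) (w : ZMod m) : f w = f 0 := by
  have h1 : ∀ n : ℕ, f ((n : ℕ) : ZMod m) = f 0 := by
    intro n
    induction n with
    | zero => simp
    | succ n ih =>
      rw [Nat.cast_succ, h, ih]
  have := h1 w.val
  rwa [ZMod.natCast_zmod_val] at this

theorem ker_Bl {r : ZMod m → F} (hr : ∀ w, r w ≠ 0) {ρ : ZMod m → F} (h : Bl r ρ = 0) :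
    ∃ c : F, ρ = c • r := by
  refine ⟨ρ 0 / r 0, ?_⟩
  have h1 : ∀ w : ZMod m, ρ (w + 1) / r (w + 1) = ρ w / r w := by
    intro w
    have h2 := congrFun h w
    rw [Bl_apply, Pi.zero_apply, sub_eq_zero] at h2
    rw [div_eq_div_iff (hr _) (hr _)]
    exact h2.symm
  have h3 := const_of_step (fun w => ρ w / r w) h1
  funext w
  have h4 : ρ w / r w = ρ 0 / r 0 := h3 w
  rw [Pi.smul_apply, smul_eq_mul, ← h4, div_mul_cancel₀ _ (hr w)]

theorem kap_single (q r : ZMod m → F) (w : ZMod m) :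
    kap q (Bl r (Pi.single w 1)) = r (w + 1) / (q w * q (w + 1)) -
      r (w - 1) / (q (w - 1) * q w) := by
  rw [kap_apply]
  have h1 : ∀ u : ZMod m, Bl r (Pi.single w 1) u / (q u * q (u + 1)) =
      (if u = w then r (u + 1) / (q u * q (u + 1)) else 0) -
        (if u = w - 1 then r u / (q u * q (u + 1)) else 0) := by
    intro u
    rw [Bl_apply]
    have h2 : (Pi.single w (1 : F) : ZMod m → F) u = if u = w then 1 else 0 := by
      rw [Pi.single_apply]
    have h3 : (Pi.single w (1 : F) : ZMod m → F) (u + 1) = if u = w - 1 then 1 else 0 := by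
      rw [Pi.single_apply]
      congr 1
      rw [eq_sub_iff_add_eq]
    rw [h2, h3]
    split_ifs <;> ring
  rw [sum_congr rfl fun u _ => h1 u, sum_sub_distrib, sum_ite_eq' univ w, sum_ite_eq' univ (w - 1)]
  simp only [mem_univ, if_true, sub_add_cancel]

/-- rows `r 0, …, r N` such that the linearised system of the cyclic minors is injective -/
def Good (N : ℕ) (r : ℕ → ZMod m → F) : Prop :=
  ∀ ρ : ℕ → ZMod m → F, (∀ i < N, Bl (r (i + 1)) (ρ i) = Bl (r i) (ρ (i + 1))) →
    Bl (r 0) (ρ N) = Bl (r N) (ρ 0) → ∀ i ≤ N, ρ i = 0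

/-- extension by zero -/
def hat (N : ℕ) : (Fin (N + 1) → ZMod m → F) →ₗ[F] (ℕ → ZMod m → F) where
  toFun v := fun i => if h : i < N + 1 then v ⟨i, h⟩ else 0
  map_add' a b := by
    funext i
    simp only [Pi.add_apply]
    split_ifs <;> simp
  map_smul' c a := by
    funext i
    simp only [Pi.smul_apply, RingHom.id_apply]
    split_ifs <;> simp

theorem hat_apply {N : ℕ} (v : Fin (N + 1) → ZMod m → F) (i : Fin (N + 1)) :
    hat N v i = v i := by
  show (if h : (i : ℕ) < N + 1 then v ⟨i, h⟩ else 0) = _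
  rw [dif_pos i.2]

/-- the linearised system -/
def Lm (N : ℕ) (x : ℕ → ZMod m → F) :
    (Fin (N + 1) → ZMod m → F) →ₗ[F] (Fin (N + 1) → ZMod m → F) where
  toFun v := fun i => if (i : ℕ) < N then
      Bl (x (i + 1)) (hat N v i) - Bl (x i) (hat N v (i + 1))
    else Bl (x 0) (hat N v N) - Bl (x N) (hat N v 0)
  map_add' a b := by
    funext i
    simp only [Pi.add_apply, map_add]
    split_ifs <;> abel
  map_smul' c a := by
    funext i
    simp only [Pi.smul_apply, RingHom.id_apply, map_smul]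
    split_ifs <;> rw [smul_sub]

theorem Lm_add_smul (N : ℕ) (x y : ℕ → ZMod m → F) (ε : F) :
    Lm N (x + ε • y) = Lm N x + ε • Lm N y := by
  ext v i w
  simp only [Lm, LinearMap.coe_mk, AddHom.coe_mk, LinearMap.add_apply, LinearMap.smul_apply,
    Pi.add_apply, Pi.smul_apply, LinearMap.comp_apply]
  split_ifs <;> simp only [Bl_add, Bl_smul, Pi.add_apply, Pi.sub_apply, Pi.smul_apply, smul_eq_mul] <;> ring

theorem good_of_inj {N : ℕ} {x : ℕ → ZMod m → F} (h : Function.Injective (Lm N x)) : Good N x := by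
  intro ρ h1 h2
  have hh : ∀ i ≤ N, hat N (fun j : Fin (N + 1) => ρ j) i = ρ i := by
    intro i hi
    show (if h : i < N + 1 then ρ i else 0) = _
    rw [dif_pos (by omega)]
  have h3 : Lm N x (fun j : Fin (N + 1) => ρ j) = 0 := by
    funext i
    show (if (i : ℕ) < N then _ else _) = _
    split_ifs with hi
    · rw [hh _ (by omega), hh _ (by omega), h1 _ hi, sub_self]
      rfl
    · rw [hh _ le_rfl, hh _ (by omega), h2, sub_self]
      rfl
  have h4 := (injective_iff_map_eq_zero _).1 h _ h3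
  intro i hi
  exact congrFun h4 ⟨i, by omega⟩

theorem Lm_eqs {N : ℕ} {x : ℕ → ZMod m → F} {v : Fin (N + 1) → ZMod m → F} (h : Lm N x v = 0) :
    (∀ i < N, Bl (x (i + 1)) (hat N v i) = Bl (x i) (hat N v (i + 1))) ∧
      Bl (x 0) (hat N v N) = Bl (x N) (hat N v 0) := by
  constructor
  · intro i hi
    have h1 := congrFun h ⟨i, by omega⟩
    have h2 : Lm N x v ⟨i, by omega⟩ = Bl (x (i + 1)) (hat N v i) - Bl (x i) (hat N v (i + 1)) := by
      show (if i < N then _ else _) = _
      rw [if_pos hi]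
    rw [h2] at h1
    exact sub_eq_zero.1 h1
  · have h1 := congrFun h ⟨N, by omega⟩
    have h2 : Lm N x v ⟨N, by omega⟩ = Bl (x 0) (hat N v N) - Bl (x N) (hat N v 0) := by
      show (if N < N then _ else _) = _
      rw [if_neg (lt_irrefl _)]
    rw [h2] at h1
    exact sub_eq_zero.1 h1

/-- the induction step: two more rows -/
theorem step [Infinite F] {N : ℕ} (hN : 1 ≤ N) (w0 : ZMod m) (hw1 : w0 + 1 ≠ w0) (hw2 : w0 - 1 ≠ w0)
    {r : ℕ → ZMod m → F} (hg : Good N r) (h0 : ∀ w, r 0 w ≠ 0) (hl : ∀ w, r N w ≠ 0)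
    (hnp : r 0 (w0 + 1) * r N (w0 - 1) ≠ r 0 (w0 - 1) * r N (w0 + 1)) :
    ∃ r' : ℕ → ZMod m → F, Good (N + 2) r' ∧ (∀ w, r' 0 w ≠ 0) ∧ (∀ w, r' (N + 2) w ≠ 0) ∧
      r' 0 (w0 + 1) * r' (N + 2) (w0 - 1) ≠ r' 0 (w0 - 1) * r' (N + 2) (w0 + 1) := by
  set e : ZMod m → F := Pi.single w0 1 with he
  set x0 : ℕ → ZMod m → F := fun i => if i ≤ N then r i else if i = N + 1 then r 0 else r N with hx0
  set x1 : ℕ → ZMod m → F := fun i => if i ≤ N then 0 else e with hx1
  -- the two extra functionals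
  set α : (Fin (N + 3) → ZMod m → F) →ₗ[F] F := (kap (r N)) ∘ₗ (Bl e) ∘ₗ
    ((LinearMap.proj (N + 1)) ∘ₗ hat (N + 2) - (LinearMap.proj 0) ∘ₗ hat (N + 2) -
      (LinearMap.proj (N + 2)) ∘ₗ hat (N + 2)) with hα
  set β : (Fin (N + 3) → ZMod m → F) →ₗ[F] F := (kap (r 0)) ∘ₗ (Bl e) ∘ₗ
    ((LinearMap.proj N) ∘ₗ hat (N + 2) - (LinearMap.proj (N + 2)) ∘ₗ hat (N + 2) +
      (LinearMap.proj (N + 1)) ∘ₗ hat (N + 2)) with hβ
  have hαv : ∀ v, α v = kap (r N) (Bl e (hat (N + 2) v (N + 1) - hat (N + 2) v 0 -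
    hat (N + 2) v (N + 2))) := fun v => rfl
  have hβv : ∀ v, β v = kap (r 0) (Bl e (hat (N + 2) v N - hat (N + 2) v (N + 2) +
    hat (N + 2) v (N + 1))) := fun v => rfl
  have hx0i : ∀ i ≤ N, x0 i = r i := fun i hi => by rw [hx0]; simp only; rw [if_pos hi]
  have hx0a : x0 (N + 1) = r 0 := by
    rw [hx0]; simp
  have hx0b : x0 (N + 2) = r N := by
    rw [hx0]; simp only; rw [if_neg (by omega), if_neg (by omega)]
  have hx1i : ∀ i ≤ N, x1 i = 0 := fun i hi => by rw [hx1]; simp only; rw [if_pos hi]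
  have hx1j : ∀ i, N < i → x1 i = e := fun i hi => by rw [hx1]; simp only; rw [if_neg (by omega)]
  have hκ1 : kap (r N) (Bl (r 0) e) ≠ 0 := by
    rw [he, kap_single]
    intro h
    apply hnp
    rw [sub_eq_zero, div_eq_div_iff (mul_ne_zero (hl _) (hl _)) (mul_ne_zero (hl _) (hl _))] at h
    have h5 : r N w0 * (r 0 (w0 + 1) * r N (w0 - 1)) = r N w0 * (r 0 (w0 - 1) * r N (w0 + 1)) := by
      linear_combination h
    exact mul_left_cancel₀ (hl w0) h5
  have hκ2 : kap (r 0) (Bl (r N) e) ≠ 0 := by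
    rw [he, kap_single]
    intro h
    apply hnp
    rw [sub_eq_zero, div_eq_div_iff (mul_ne_zero (h0 _) (h0 _)) (mul_ne_zero (h0 _) (h0 _))] at h
    have h5 : r 0 w0 * (r 0 (w0 + 1) * r N (w0 - 1)) = r 0 w0 * (r 0 (w0 - 1) * r N (w0 + 1)) := by
      linear_combination -h
    exact mul_left_cancel₀ (h0 w0) h5
  have hinj0 : Function.Injective ((Lm (N + 2) x0).prod (α.prod β)) := by
    rw [injective_iff_map_eq_zero]
    intro v hv
    have hv1 : Lm (N + 2) x0 v = 0 := congrArg Prod.fst hv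
    have hv2 : α v = 0 := congrArg (fun q => q.2.1) hv
    have hv3 : β v = 0 := congrArg (fun q => q.2.2) hv
    obtain ⟨h1, h2⟩ := Lm_eqs hv1
    set ρ := hat (N + 2) v with hρ
    have e1 : Bl (r 0) (ρ N) = Bl (r N) (ρ (N + 1)) := by
      have := h1 N (by omega)
      rwa [hx0a, hx0i N le_rfl] at this
    have e2 : Bl (r N) (ρ (N + 1)) = Bl (r 0) (ρ (N + 2)) := by
      have := h1 (N + 1) (by omega)
      rwa [hx0a, hx0b] at this
    have e3 : Bl (r 0) (ρ (N + 2)) = Bl (r N) (ρ 0) := by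
      rwa [hx0i 0 (by omega), hx0b] at h2
    have hz := hg ρ (fun i hi => by
      have := h1 i (by omega)
      rwa [hx0i i (by omega), hx0i (i + 1) (by omega)] at this) (by rw [e1, e2, e3])
    have hz0 := hz 0 (by omega)
    have hzN := hz N le_rfl
    rw [hz0, map_zero] at e3
    rw [hzN, map_zero] at e1
    obtain ⟨lam, hlam⟩ := ker_Bl hl e1.symm
    obtain ⟨mu, hmu⟩ := ker_Bl h0 e3
    rw [hαv, ← hρ, hz0, hlam, hmu, sub_zero, map_sub, map_smul, map_smul, Bl_anti e (r N),
      Bl_anti e (r 0), smul_neg, smul_neg, map_sub, map_neg, map_neg, map_smul, map_smul,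
      kap_Bl hl, smul_zero, neg_zero, zero_sub, neg_neg, smul_eq_mul] at hv2
    rw [hβv, ← hρ, hzN, hlam, hmu, zero_sub, map_add, map_neg, map_smul, map_smul, Bl_anti e (r N),
      Bl_anti e (r 0), smul_neg, smul_neg, map_add, map_neg, map_neg, map_neg, map_smul, map_smul,
      kap_Bl h0, smul_zero, neg_zero, neg_zero, zero_add, smul_eq_mul] at hv3
    have hmu0 : mu = 0 := (mul_eq_zero.1 hv2).resolve_right hκ1
    have hlam0 : lam = 0 := (mul_eq_zero.1 (neg_eq_zero.1 hv3)).resolve_right hκ2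
    funext i
    have hi : ρ i = 0 := by
      rcases Nat.lt_or_ge i (N + 1) with h | h
      · exact hz i (by omega)
      · have : (i : ℕ) = N + 1 ∨ (i : ℕ) = N + 2 := by omega
        rcases this with h | h
        · rw [h, hlam, hlam0, zero_smul]
        · rw [h, hmu, hmu0, zero_smul]
    rw [hρ, hat_apply] at hi
    exact hi
  have hfin := perturb ((Lm (N + 2) x0).prod (α.prod β)) ((Lm (N + 2) x1).prod 0) hinj0
  obtain ⟨ε, hε⟩ := ((hfin.union (Set.finite_singleton (0 : F))).union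
    (Set.finite_singleton (- r N w0))).infinite_compl.nonempty
  simp only [Set.mem_compl_iff, Set.mem_union, Set.mem_singleton_iff, not_or] at hε
  obtain ⟨⟨hε1, hε0⟩, hεr⟩ := hε
  have hε2 : Function.Injective ((Lm (N + 2) x0).prod (α.prod β) +
      ε • (Lm (N + 2) x1).prod (0 : (Fin (N + 3) → ZMod m → F) →ₗ[F] F × F)) := by
    by_contra h
    exact hε1 h
  refine ⟨x0 + ε • x1, ?_, ?_, ?_, ?_⟩
  · apply good_of_inj
    rw [injective_iff_map_eq_zero]
    intro v hv
    apply (injective_iff_map_eq_zero _).1 hε2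
    obtain ⟨h1, h2⟩ := Lm_eqs hv
    set ρ := hat (N + 2) v with hρ
    have y0 : (x0 + ε • x1) 0 = r 0 := by
      rw [Pi.add_apply, Pi.smul_apply, hx0i 0 (by omega), hx1i 0 (by omega), smul_zero, add_zero]
    have yN : (x0 + ε • x1) N = r N := by
      rw [Pi.add_apply, Pi.smul_apply, hx0i N le_rfl, hx1i N le_rfl, smul_zero, add_zero]
    have ya : (x0 + ε • x1) (N + 1) = r 0 + ε • e := by
      rw [Pi.add_apply, Pi.smul_apply, hx0a, hx1j _ (by omega)]
    have yb : (x0 + ε • x1) (N + 2) = r N + ε • e := by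
      rw [Pi.add_apply, Pi.smul_apply, hx0b, hx1j _ (by omega)]
    have e1 : Bl (r 0 + ε • e) (ρ N) = Bl (r N) (ρ (N + 1)) := by
      have := h1 N (by omega)
      rwa [ya, yN] at this
    have e2 : Bl (r N + ε • e) (ρ (N + 1)) = Bl (r 0 + ε • e) (ρ (N + 2)) := by
      have := h1 (N + 1) (by omega)
      rwa [ya, yb] at this
    have e3 : Bl (r 0) (ρ (N + 2)) = Bl (r N + ε • e) (ρ 0) := by
      rwa [y0, yb] at h2
    have hα0 : α v = 0 := by
      have h3 : Bl (r N) (ρ (N + 1) - ρ 0) + ε • Bl e (ρ (N + 1) - ρ 0 - ρ (N + 2)) = 0 := by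
        rw [Bl_add, Bl_smul, Bl_add, Bl_smul] at e2
        rw [Bl_add, Bl_smul] at e3
        rw [e3] at e2
        simp only [map_sub, smul_sub]
        rw [← sub_eq_zero] at e2
        rw [← e2]
        abel
      have h4 := congrArg (kap (r N)) h3
      rw [map_add, kap_Bl hl, zero_add, map_smul, map_zero, smul_eq_mul] at h4
      rw [hαv]
      exact (mul_eq_zero.1 h4).resolve_left hε0
    have hβ0 : β v = 0 := by
      have h3 : Bl (r 0) (ρ N - ρ (N + 2)) + ε • Bl e (ρ N - ρ (N + 2) + ρ (N + 1)) = 0 := by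
        rw [Bl_add, Bl_smul, Bl_add, Bl_smul] at e2
        rw [Bl_add, Bl_smul] at e1
        rw [← e1] at e2
        simp only [map_sub, map_add, smul_sub, smul_add]
        rw [← sub_eq_zero] at e2
        rw [← e2]
        abel
      have h4 := congrArg (kap (r 0)) h3
      rw [map_add, kap_Bl h0, zero_add, map_smul, map_zero, smul_eq_mul] at h4
      rw [hβv]
      exact (mul_eq_zero.1 h4).resolve_left hε0
    have hL : Lm (N + 2) x0 v + ε • Lm (N + 2) x1 v = 0 := by
      rw [Lm_add_smul] at hv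
      exact hv
    show (Lm (N + 2) x0 v + ε • Lm (N + 2) x1 v, (α v, β v) + ε • (0 : F × F)) = 0
    rw [hL, hα0, hβ0, smul_zero, add_zero]
    rfl
  · intro w
    rw [Pi.add_apply, Pi.smul_apply, hx0i 0 (by omega), hx1i 0 (by omega), smul_zero, add_zero]
    exact h0 w
  · intro w
    rw [Pi.add_apply, Pi.smul_apply, hx0b, hx1j _ (by omega), Pi.add_apply, Pi.smul_apply, he,
      Pi.single_apply]
    split_ifs with hw
    · subst hw
      rw [smul_eq_mul, mul_one]
      intro h
      exact hεr (by rw [eq_neg_iff_add_eq_zero, add_comm]; exact h)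
    · rw [smul_zero, add_zero]
      exact hl w
  · have y0 : (x0 + ε • x1) 0 = r 0 := by
      rw [Pi.add_apply, Pi.smul_apply, hx0i 0 (by omega), hx1i 0 (by omega), smul_zero, add_zero]
    have yb : (x0 + ε • x1) (N + 2) = r N + ε • e := by
      rw [Pi.add_apply, Pi.smul_apply, hx0b, hx1j _ (by omega)]
    have z1 : (r N + ε • e) (w0 + 1) = r N (w0 + 1) := by
      rw [Pi.add_apply, Pi.smul_apply, he, Pi.single_apply, if_neg hw1, smul_zero, add_zero]
    have z2 : (r N + ε • e) (w0 - 1) = r N (w0 - 1) := by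
      rw [Pi.add_apply, Pi.smul_apply, he, Pi.single_apply, if_neg hw2, smul_zero, add_zero]
    rw [y0, yb, z1, z2]
    exact hnp

/-- alternating functions vanish on an odd cycle -/
theorem alt_zero [CharZero F] (hm : Odd m) (f : ZMod m → F) (h : ∀ w, f (w + 1) = - f w)
    (w : ZMod m) : f w = 0 := by
  have h1 : ∀ n : ℕ, f (w + (n : ℕ)) = (-1) ^ n * f w := by
    intro n
    induction n with
    | zero => simp
    | succ n ih =>
      rw [Nat.cast_succ, ← add_assoc, h, ih, pow_succ]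
      ring
  have h2 := h1 m
  rw [ZMod.natCast_self, add_zero, hm.neg_one_pow] at h2
  have h3 : (2 : F) * f w = 0 := by linear_combination h2
  exact (mul_eq_zero.1 h3).resolve_left two_ne_zero

theorem base [CharZero F] (hm : Odd m) (hm3 : 3 ≤ m) (t : ZMod m → F) (ht : Function.Injective t) :
    Good 2 (fun i w => (t w) ^ i) := by
  intro ρ h1 h2
  have hne1 : ∀ w : ZMod m, w + 1 ≠ w := by
    intro w h
    have h3 : (1 : ZMod m) = 0 := by linear_combination h
    have h4 : ((1 : ℕ) : ZMod m) = 0 := by rw [Nat.cast_one]; exact h3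
    rw [ZMod.natCast_eq_zero_iff] at h4
    have := Nat.le_of_dvd one_pos h4
    omega
  have hne2 : ∀ w : ZMod m, w + 1 ≠ w - 1 := by
    intro w h
    have h3 : (2 : ZMod m) = 0 := by linear_combination h
    have h4 : ((2 : ℕ) : ZMod m) = 0 := by rw [Nat.cast_two]; exact h3
    rw [ZMod.natCast_eq_zero_iff] at h4
    have := Nat.le_of_dvd two_pos h4
    omega
  have c0 : ∀ w, ρ 0 w * t (w + 1) - ρ 0 (w + 1) * t w = ρ 1 w - ρ 1 (w + 1) := by
    intro w
    have := congrFun (h1 0 (by omega)) w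
    rw [Bl_apply, Bl_apply] at this
    simpa using this
  have c1 : ∀ w, ρ 1 w * t (w + 1) ^ 2 - ρ 1 (w + 1) * t w ^ 2 =
      ρ 2 w * t (w + 1) - ρ 2 (w + 1) * t w := by
    intro w
    have := congrFun (h1 1 (by omega)) w
    rw [Bl_apply, Bl_apply] at this
    simpa using this
  have c2 : ∀ w, ρ 2 w - ρ 2 (w + 1) = ρ 0 w * t (w + 1) ^ 2 - ρ 0 (w + 1) * t w ^ 2 := by
    intro w
    have := congrFun h2 w
    rw [Bl_apply, Bl_apply] at this
    simpa using this
  have hd : ∀ w, t (w + 1) - t w ≠ 0 := fun w h => hne1 w (ht (sub_eq_zero.1 h))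
  have p1 : ∀ w, ρ 0 w * (t w * t (w + 1)) - ρ 1 w * (t w + t (w + 1)) + ρ 2 w = 0 := by
    intro w
    apply mul_left_cancel₀ (hd w)
    linear_combination (-1 : F) * c1 w - (t w) ^ 2 * c0 w + (- t w) * c2 w
  have p2 : ∀ w, ρ 0 (w + 1) * (t w * t (w + 1)) - ρ 1 (w + 1) * (t w + t (w + 1)) +
      ρ 2 (w + 1) = 0 := by
    intro w
    apply mul_left_cancel₀ (hd w)
    linear_combination (-1 : F) * c1 w - (t (w + 1)) ^ 2 * c0 w + (- t (w + 1)) * c2 w
  have hb : ∀ w, ρ 1 w = ρ 0 w * t w := by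
    intro w
    have e1 := p1 w
    have e2 := p2 (w - 1)
    rw [sub_add_cancel] at e2
    have hne : t (w + 1) - t (w - 1) ≠ 0 := fun h => hne2 w (ht (sub_eq_zero.1 h))
    apply mul_left_cancel₀ hne
    linear_combination e2 - e1
  have hc : ∀ w, ρ 2 w = ρ 0 w * t w ^ 2 := by
    intro w
    have e1 := p1 w
    rw [hb] at e1
    linear_combination e1
  have ha : ∀ w, ρ 0 (w + 1) = - ρ 0 w := by
    intro w
    have e1 := c0 w
    rw [hb, hb] at e1
    apply mul_left_cancel₀ (hd w)
    linear_combination e1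
  have hz := alt_zero hm (ρ 0) ha
  intro i hi
  funext w
  have : i = 0 ∨ i = 1 ∨ i = 2 := by omega
  rcases this with rfl | rfl | rfl
  · exact hz w
  · rw [hb, hz, zero_mul]; rfl
  · rw [hc, hz, zero_mul]; rfl

/-- the system is injective at a suitable point for all odd sizes -/
theorem torus [CharZero F] (hm : Odd m) (hm3 : 3 ≤ m) (k : ℕ) :
    ∃ r : ℕ → ZMod m → F, Good (2 * k + 2) r := by
  haveI : Infinite F := CharZero.infinite F
  have hone : (1 : ZMod m) ≠ 0 := by
    intro h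
    have h4 : ((1 : ℕ) : ZMod m) = 0 := by rw [Nat.cast_one]; exact h
    rw [ZMod.natCast_eq_zero_iff] at h4
    have := Nat.le_of_dvd one_pos h4
    omega
  have key : ∃ r : ℕ → ZMod m → F, Good (2 * k + 2) r ∧ (∀ w, r 0 w ≠ 0) ∧
      (∀ w, r (2 * k + 2) w ≠ 0) ∧
      r 0 ((0 : ZMod m) + 1) * r (2 * k + 2) (0 - 1) ≠ r 0 (0 - 1) * r (2 * k + 2) (0 + 1) := by
    induction k with
    | zero =>
      set t : ZMod m → F := fun w => ((w.val + 1 : ℕ) : F) with ht
      have hinj : Function.Injective t := by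
        intro a b hab
        have h1 : a.val + 1 = b.val + 1 := Nat.cast_injective hab
        exact ZMod.val_injective m (by omega)
      have h0 : ∀ w, t w ≠ 0 := fun w => Nat.cast_ne_zero.2 (Nat.succ_ne_zero _)
      refine ⟨fun i w => t w ^ i, base hm hm3 t hinj, fun w => by simp, fun w => pow_ne_zero _ (h0 w), ?_⟩
      simp only [pow_zero, one_mul, mul_zero, zero_add, zero_sub]
      intro h
      have h1 : ((((-1 : ZMod m)).val + 1) ^ 2 : ℕ) = (((1 : ZMod m)).val + 1) ^ 2 := by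
        have : ((((((-1 : ZMod m)).val + 1) ^ 2 : ℕ)) : F) = ((((1 : ZMod m)).val + 1) ^ 2 : ℕ) := by
          rw [Nat.cast_pow, Nat.cast_pow]
          exact h
        exact Nat.cast_injective this
      have h2 : ((-1 : ZMod m)).val = ((1 : ZMod m)).val := by
        have := Nat.pow_left_injective (n := 2) (by norm_num) h1
        omega
      have h3 := ZMod.val_injective m h2
      have h4 : (2 : ZMod m) = 0 := by linear_combination -h3
      have h5 : ((2 : ℕ) : ZMod m) = 0 := by rw [Nat.cast_two]; exact h4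
      rw [ZMod.natCast_eq_zero_iff] at h5
      have := Nat.le_of_dvd two_pos h5
      omega
    | succ k ih =>
      obtain ⟨r, hg, h0, hl, hnp⟩ := ih
      obtain ⟨r', hr'⟩ := step (by omega) (0 : ZMod m) (by simpa using hone)
        (by simpa using hone) hg h0 hl hnp
      exact ⟨r', hr'⟩
  obtain ⟨r, hr, _⟩ := key
  exact ⟨r, hr⟩

end Pool.Agent.X195.JM
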