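import Pool.Agent.X195.JM1

/-!
The generic point: injectivity of the linearised system of adjacent minors for two permutations
all of whose cycles have odd length.
-/
open Finset

set_option linter.unusedSectionVars false
set_option linter.unusedVariables false
set_option linter.style.haveILetI false

namespace Pool.Agent.X195.JM

variable {m : ℕ} [NeZero m]

/-- the matrix of the linearised system -/
def Mx {R : Type*} [CommRing R] (N : ℕ) (x : Fin (N + 1) × ZMod m → R) :
    Matrix (Fin (N + 1) × ZMod m) (Fin (N + 1) × ZMod m) R := fun p q =>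
  (if q = (p.1, p.2) then x (p.1 + 1, p.2 + 1) else 0) +
    (if q = (p.1 + 1, p.2 + 1) then x (p.1, p.2) else 0) -
    (if q = (p.1, p.2 + 1) then x (p.1 + 1, p.2) else 0) -
    (if q = (p.1 + 1, p.2) then x (p.1, p.2 + 1) else 0)

theorem Mx_mulVec {R : Type*} [CommRing R] (N : ℕ) (x y : Fin (N + 1) × ZMod m → R)
    (i : Fin (N + 1)) (w : ZMod m) : (Mx N x).mulVec y (i, w) =
      y (i, w) * x (i + 1, w + 1) + x (i, w) * y (i + 1, w + 1) - y (i, w + 1) * x (i + 1, w) -
        x (i, w + 1) * y (i + 1, w) := by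
  simp only [Matrix.mulVec, dotProduct, Mx, add_mul, sub_mul, ite_mul, zero_mul,
    sum_add_distrib, sum_sub_distrib, sum_ite_eq', mem_univ, if_true]
  ring

theorem Mx_map {R S : Type*} [CommRing R] [CommRing S] (φ : R →+* S) (N : ℕ)
    (x : Fin (N + 1) × ZMod m → R) : (Mx N x).map φ = Mx N (fun p => φ (x p)) := by
  ext p q
  simp only [Matrix.map_apply, Mx, map_sub, map_add]
  congr 1
  · congr 1
    · congr 1 <;> split_ifs <;> simp
    · split_ifs <;> simp
  · split_ifs <;> simp

theorem ofNat_succ (N i : ℕ) : Fin.ofNat (N + 1) i + 1 = Fin.ofNat (N + 1) (i + 1) := by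
  apply Fin.ext
  rw [Fin.val_add, Fin.val_ofNat, Fin.val_ofNat, Fin.val_one', ← Nat.add_mod]

theorem ofNat_val (N i : ℕ) (hi : i ≤ N) : (Fin.ofNat (N + 1) i : ℕ) = i := by
  rw [Fin.val_ofNat]
  exact Nat.mod_eq_of_lt (by omega)

theorem det_ne {F : Type*} [Field F] {N : ℕ} {r : ℕ → ZMod m → F} (hg : Good N r) :
    (Mx N (fun p : Fin (N + 1) × ZMod m => r p.1 p.2)).det ≠ 0 := by
  intro h
  obtain ⟨v, hv0, hv⟩ := Matrix.exists_mulVec_eq_zero_iff.2 h
  apply hv0
  have h1 := hg (fun i w => v (Fin.ofNat (N + 1) i, w)) (by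
    intro i hi
    funext w
    have h2 := congrFun hv (Fin.ofNat (N + 1) i, w)
    rw [Mx_mulVec] at h2
    simp only [Pi.zero_apply, ofNat_succ, ofNat_val N i (by omega), ofNat_val N (i + 1) (by omega)] at h2
    rw [Bl_apply, Bl_apply]
    linear_combination h2) (by
    funext w
    have h2 := congrFun hv (Fin.ofNat (N + 1) N, w)
    rw [Mx_mulVec] at h2
    have h4 : Fin.ofNat (N + 1) N + 1 = Fin.ofNat (N + 1) 0 := by
      rw [ofNat_succ]
      apply Fin.ext
      rw [Fin.val_ofNat, Fin.val_ofNat, Nat.mod_self, Nat.zero_mod]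
    simp only [Pi.zero_apply, h4, ofNat_val N N le_rfl, ofNat_val N 0 (by omega)] at h2
    rw [Bl_apply, Bl_apply]
    linear_combination h2)
  funext p
  have h2 := congrFun (h1 p.1 (by omega)) p.2
  have h3 : Fin.ofNat (N + 1) (p.1 : ℕ) = p.1 := Fin.ext (ofNat_val N p.1 (by omega))
  rw [h3] at h2
  exact h2

theorem generic {F : Type*} [Field F] [CharZero F] (hm : Odd m) (hm3 : 3 ≤ m) (k : ℕ)
    {K : Type*} [Field K] [Algebra F K] (z : Fin (2 * k + 2 + 1) × ZMod m → K)
    (hz : AlgebraicIndependent F z) (y : Fin (2 * k + 2 + 1) × ZMod m → K)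
    (hy : ∀ i w, y (i, w) * z (i + 1, w + 1) + z (i, w) * y (i + 1, w + 1) -
      y (i, w + 1) * z (i + 1, w) - z (i, w + 1) * y (i + 1, w) = 0) : y = 0 := by
  obtain ⟨r, hr⟩ := torus (F := F) hm hm3 k
  have h1 := det_ne hr
  have h2 : (Mx (2 * k + 2) (MvPolynomial.X (R := F) (σ := Fin (2 * k + 2 + 1) × ZMod m))).det ≠ 0 := by
    intro h
    apply h1
    have h3 := congrArg (MvPolynomial.eval (fun p : Fin (2 * k + 2 + 1) × ZMod m => r p.1 p.2)) h
    rw [RingHom.map_det, RingHom.mapMatrix_apply, Mx_map, map_zero] at h3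
    simpa using h3
  have h4 : (Mx (2 * k + 2) z).det ≠ 0 := by
    intro h
    apply h2
    apply (injective_iff_map_eq_zero (MvPolynomial.aeval (R := F) z)).1 hz
    have h5 : MvPolynomial.aeval (R := F) z (Mx (2 * k + 2)
        (MvPolynomial.X (R := F) (σ := Fin (2 * k + 2 + 1) × ZMod m))).det = (Mx (2 * k + 2) z).det := by
      have h6 := RingHom.map_det (MvPolynomial.aeval (R := F) z).toRingHom (Mx (2 * k + 2)
        (MvPolynomial.X (R := F) (σ := Fin (2 * k + 2 + 1) × ZMod m)))
      rw [RingHom.mapMatrix_apply, Mx_map] at h6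
      have h7 : (fun p => (MvPolynomial.aeval (R := F) z).toRingHom (MvPolynomial.X p)) = z := by
        funext p
        exact MvPolynomial.aeval_X z p
      rw [h7] at h6
      exact h6
    rw [h5, h]
  by_contra hy0
  exact h4 (Matrix.exists_mulVec_eq_zero_iff.1 ⟨y, hy0, by
    funext p
    exact (Mx_mulVec (2 * k + 2) z y p.1 p.2).trans (hy p.1 p.2)⟩)

theorem iterate_mod_period {V : Type*} (π : V → V) (v : V) (n : ℕ) :
    π^[n % Function.minimalPeriod π v] v = π^[n] v :=
  Function.iterate_mod_minimalPeriod_eq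

theorem three_le_period {U : Type*} (ρ : Equiv.Perm U) (u : U)
    (h1 : Odd (Function.minimalPeriod ρ u)) (h2 : ρ u ≠ u) : 3 ≤ Function.minimalPeriod ρ u := by
  have h3 : Function.minimalPeriod ρ u ≠ 1 := by
    intro h
    exact h2 (Function.minimalPeriod_eq_one_iff_isFixedPt.1 h)
  obtain ⟨a, ha⟩ := h1
  omega

theorem perm_null {F : Type*} [Field F] [CharZero F] {K : Type*} [Field K] [Algebra F K]
    {V W : Type*} (π : Equiv.Perm V) (τ : Equiv.Perm W)
    (hπ : ∀ v, Odd (Function.minimalPeriod π v)) (hπ1 : ∀ v, π v ≠ v)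
    (hτ : ∀ w, Odd (Function.minimalPeriod τ w)) (hτ1 : ∀ w, τ w ≠ w)
    (x : V → W → K) (hx : AlgebraicIndependent F (fun p : V × W => x p.1 p.2)) (y : V → W → K)
    (hy : ∀ u w, y u w * x (π u) (τ w) + x u w * y (π u) (τ w) - y u (τ w) * x (π u) w -
      x u (τ w) * y (π u) w = 0) (u0 : V) (w0 : W) : y u0 w0 = 0 := by
  have hL3 := three_le_period π u0 (hπ u0) (hπ1 u0)
  have hm3 := three_le_period τ w0 (hτ w0) (hτ1 w0)
  set L := Function.minimalPeriod π u0 with hL
  set m := Function.minimalPeriod τ w0 with hm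
  haveI : NeZero m := ⟨by omega⟩
  obtain ⟨a, ha⟩ := hπ u0
  obtain ⟨k, hk⟩ : ∃ k, L = 2 * k + 2 + 1 := ⟨a - 1, by omega⟩
  set f : Fin (2 * k + 2 + 1) → V := fun i => π^[(i : ℕ)] u0 with hf
  set g : ZMod m → W := fun w => τ^[w.val] w0 with hg
  have hfs : ∀ i, f (i + 1) = π (f i) := by
    intro i
    have h1 : ((i + 1 : Fin (2 * k + 2 + 1)) : ℕ) = ((i : ℕ) + 1) % L := by
      rw [hk, Fin.val_add, Fin.val_one']
      simp
    show π^[((i + 1 : Fin (2 * k + 2 + 1)) : ℕ)] u0 = π (π^[(i : ℕ)] u0)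
    rw [h1, hL, iterate_mod_period, Function.iterate_succ_apply']
  have hgs : ∀ w, g (w + 1) = τ (g w) := by
    intro w
    have h1 : (w + 1 : ZMod m).val = (w.val + 1) % m := by
      rw [ZMod.val_add]
      haveI : Fact (1 < m) := ⟨by omega⟩
      rw [ZMod.val_one]
    show τ^[(w + 1 : ZMod m).val] w0 = τ (τ^[w.val] w0)
    rw [h1, ← Function.iterate_succ_apply' (⇑τ)]
    exact iterate_mod_period τ w0 (w.val + 1)
  have hfi : Function.Injective f := by
    intro i j hij
    apply Fin.ext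
    exact Function.iterate_injOn_Iio_minimalPeriod (f := π) (x := u0)
      (show (i : ℕ) < L by omega) (show (j : ℕ) < L by omega) hij
  have hgi : Function.Injective g := by
    intro i j hij
    apply ZMod.val_injective m
    exact Function.iterate_injOn_Iio_minimalPeriod (f := τ) (x := w0)
      (ZMod.val_lt i) (ZMod.val_lt j) hij
  have hz : AlgebraicIndependent F (fun p : Fin (2 * k + 2 + 1) × ZMod m => x (f p.1) (g p.2)) :=
    hx.comp (Prod.map f g) (hfi.prodMap hgi)
  have h1 := generic (F := F) (hτ w0) hm3 k _ hz (fun p => y (f p.1) (g p.2)) (by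
    intro i w
    have h2 := hy (f i) (g w)
    rw [← hfs, ← hgs] at h2
    exact h2)
  have h2 := congrFun h1 (0, 0)
  have h3 : f 0 = u0 := rfl
  have h4 : g 0 = w0 := by
    show τ^[(0 : ZMod m).val] w0 = w0
    rw [ZMod.val_zero]
    rfl
  simp only [h3, h4] at h2
  exact h2

end Pool.Agent.X195.JM
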