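import Pool.Agent.X195.JM2

/-!
Graph lemmas: leaves and even cycles give null vectors; a 2-regular graph is the graph of a
permutation.
-/
open Finset

set_option linter.unusedSectionVars false
set_option linter.unusedVariables false
set_option linter.style.haveILetI false

namespace Pool.Agent.X195.JM

/-- the linearised system has no nonzero solution -/
def NF {K : Type*} [Field K] {V W : Type*} (G : SimpleGraph V) (H : SimpleGraph W)
    (x : V → W → K) : Prop :=
  ∀ y : V → W → K, (∀ i j, G.Adj i j → ∀ k l, H.Adj k l →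
    y i k * x j l + x i k * y j l - y i l * x j k - x i l * y j k = 0) → y = 0

theorem NF_swap {K : Type*} [Field K] {V W : Type*} {G : SimpleGraph V} {H : SimpleGraph W}
    {x : V → W → K} (h : NF G H x) : NF H G (fun w v => x v w) := by
  intro y hy
  have h1 := h (fun v w => y w v) (by
    intro i j hij k l hkl
    have := hy k l hkl i j hij
    simp only at this
    linear_combination this)
  funext w v
  exact congrFun (congrFun h1 v) w

theorem NF_leaf {K : Type*} [Field K] {V W : Type*} {G : SimpleGraph V} {H : SimpleGraph W}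
    {x : V → W → K} (h : NF G H x) (hx : ∀ v, ∃ w, x v w ≠ 0) {i j : V} (hij : G.Adj i j) :
    ∃ j', j' ≠ j ∧ G.Adj i j' := by
  classical
  by_contra hcon
  push Not at hcon
  have huniq : ∀ c, G.Adj i c → c = j := by
    intro c hc
    by_contra hne
    exact hcon c hne hc
  have h1 := h (fun a b => if a = i then x j b else 0) (by
    intro a c hac k l hkl
    by_cases ha : a = i
    · subst ha
      have hc := huniq c hac
      subst hc
      have hne : c ≠ a := fun h => G.ne_of_adj hac h.symm
      rw [if_pos rfl, if_pos rfl, if_neg hne, if_neg hne]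
      ring
    · by_cases hc : c = i
      · subst hc
        have ha' := huniq a hac.symm
        subst ha'
        rw [if_neg ha, if_neg ha, if_pos rfl, if_pos rfl]
        ring
      · rw [if_neg ha, if_neg ha, if_neg hc, if_neg hc]
        ring)
  obtain ⟨w, hw⟩ := hx j
  have h2 := congrFun (congrFun h1 i) w
  simp only [if_true] at h2
  exact hw h2

theorem NF_even {K : Type*} [Field K] {V W : Type*} [Finite V] {G : SimpleGraph V}
    {H : SimpleGraph W} {x : V → W → K} (h : NF G H x) (hx : ∀ v, ∃ w, x v w ≠ 0)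
    (π : Equiv.Perm V) (hπ : ∀ u v, G.Adj u v ↔ (π u = v ∨ π v = u)) (v0 : V) :
    Odd (Function.minimalPeriod π v0) := by
  classical
  by_contra hev
  rw [Nat.not_odd_iff_even] at hev
  have hpos : 0 < Function.minimalPeriod π v0 := by
    rw [Function.minimalPeriod_pos_iff_mem_periodicPts]
    exact π.injective.mem_periodicPts v0
  -- the sign function
  set s : V → K := fun u => if h : ∃ j : ℕ, π^[j] v0 = u then (-1) ^ (Nat.find h) else 0 with hs
  have hsgn : ∀ j : ℕ, s (π^[j] v0) = (-1) ^ j := by
    intro j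
    have hex : ∃ i : ℕ, π^[i] v0 = π^[j] v0 := ⟨j, rfl⟩
    have h1 : s (π^[j] v0) = (-1) ^ (Nat.find hex) := by rw [hs]; simp only; rw [dif_pos hex]
    rw [h1]
    have h2 := Nat.find_spec hex
    set i := Nat.find hex with hi
    set L := Function.minimalPeriod π v0 with hL
    have h3 : i % L = j % L := by
      apply Function.iterate_injOn_Iio_minimalPeriod (f := π) (x := v0)
        (Nat.mod_lt _ hpos) (Nat.mod_lt _ hpos)
      simp only
      rw [iterate_mod_period, iterate_mod_period, h2]
    have h4 : i % 2 = j % 2 := by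
      have hd : 2 ∣ L := hev.two_dvd
      rw [← Nat.mod_mod_of_dvd i hd, ← Nat.mod_mod_of_dvd j hd, h3]
    rw [neg_one_pow_eq_pow_mod_two, h4, ← neg_one_pow_eq_pow_mod_two]
  have hstep : ∀ u, s (π u) = - s u := by
    intro u
    by_cases hu : ∃ j : ℕ, π^[j] v0 = u
    · obtain ⟨j, rfl⟩ := hu
      rw [← Function.iterate_succ_apply' (⇑π), hsgn, hsgn, pow_succ]
      ring
    · have h1 : s u = 0 := by rw [hs]; simp only; rw [dif_neg hu]
      have h2 : ¬ ∃ j : ℕ, π^[j] v0 = π u := by
        rintro ⟨j, hj⟩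
        rcases j with _ | j
        · apply hu
          refine ⟨Function.minimalPeriod π v0 - 1, ?_⟩
          apply π.injective
          rw [← Function.iterate_succ_apply' (⇑π), Nat.succ_eq_add_one, Nat.sub_add_cancel hpos]
          rw [Function.iterate_minimalPeriod]
          exact hj
        · rw [Function.iterate_succ_apply'] at hj
          exact hu ⟨j, π.injective hj⟩
      have h3 : s (π u) = 0 := by rw [hs]; simp only; rw [dif_neg h2]
      rw [h1, h3, neg_zero]
  have h1 := h (fun u w => s u * x u w) (by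
    intro a c hac k l hkl
    have h2 : s c = - s a := by
      rcases (hπ a c).1 hac with h | h
      · rw [← h, hstep]
      · rw [← h, hstep, neg_neg]
    rw [h2]
    ring)
  obtain ⟨w, hw⟩ := hx v0
  have h2 := congrFun (congrFun h1 v0) w
  have h3 : s v0 = 1 := by
    have := hsgn 0
    simpa using this
  simp only [h3, one_mul] at h2
  exact hw h2

/-- a graph in which every vertex has exactly two neighbours is the graph of a permutation -/
theorem orient {V : Type} [Finite V] (G : SimpleGraph V) (o : V → V → V)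
    (ho : ∀ v u, G.Adj v u → G.Adj v (o v u) ∧ o v u ≠ u ∧ o v (o v u) = u ∧
      ∀ w, G.Adj v w → w = u ∨ w = o v u) (hne : ∀ v, ∃ u, G.Adj v u) :
    ∃ π : Equiv.Perm V, ∀ u v, G.Adj u v ↔ (π u = v ∨ π v = u) := by
  classical
  set D := {p : V × V // G.Adj p.1 p.2} with hD
  set nx : Equiv.Perm D := {
    toFun := fun d => ⟨(d.1.2, o d.1.2 d.1.1), (ho _ _ d.2.symm).1⟩
    invFun := fun d => ⟨(o d.1.1 d.1.2, d.1.1), (ho _ _ d.2).1.symm⟩
    left_inv := by
      rintro ⟨⟨a, b⟩, h⟩
      apply Subtype.ext
      simp only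
      rw [(ho _ _ h.symm).2.2.1]
    right_inv := by
      rintro ⟨⟨a, b⟩, h⟩
      apply Subtype.ext
      simp only
      rw [(ho _ _ h).2.2.1] } with hnx
  have nx_val : ∀ d : D, (nx d).1 = (d.1.2, o d.1.2 d.1.1) := fun d => rfl
  set R : Equiv.Perm D := {
    toFun := fun d => ⟨(d.1.2, d.1.1), d.2.symm⟩
    invFun := fun d => ⟨(d.1.2, d.1.1), d.2.symm⟩
    left_inv := fun d => rfl
    right_inv := fun d => rfl } with hR
  have R_val : ∀ d : D, (R d).1 = (d.1.2, d.1.1) := fun d => rfl
  have RR : ∀ d, R (R d) = d := fun d => rfl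
  have hRinv : R⁻¹ = R := by
    ext1 d
    rw [Equiv.Perm.inv_eq_iff_eq]
    exact (RR d).symm
  have hconj : R * nx * R⁻¹ = nx⁻¹ := by
    rw [hRinv]
    ext1 d
    rw [Equiv.Perm.eq_inv_iff_eq]
    apply Subtype.ext
    show (o d.1.1 d.1.2 |> fun a => ((d.1.1 : V), o d.1.1 a)) = d.1
    simp only
    rw [(ho _ _ d.2).2.2.1]
  have hpow : ∀ j : ℤ, ∀ d, (nx ^ j) (R ((nx ^ j) d)) = R d := by
    intro j d
    have h1 : R * nx ^ j * R⁻¹ = nx⁻¹ ^ j := by rw [← conj_zpow, hconj]
    have h2 : R ((nx ^ j) d) = (nx⁻¹ ^ j) (R d) := by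
      rw [← h1, hRinv]
      rfl
    rw [h2, inv_zpow, ← Equiv.Perm.mul_apply, mul_inv_cancel]
    rfl
  have hRne : ∀ d : D, R d ≠ d := by
    intro d h
    have h1 : (R d).1.1 = d.1.1 := by rw [h]
    exact G.ne_of_adj d.2 h1.symm
  have hnR : ∀ d : D, nx d ≠ R d := by
    intro d h
    have h1 : (nx d).1.2 = (R d).1.2 := by rw [h]
    exact (ho _ _ d.2.symm).2.1 h1
  have hcyc : ∀ d : D, ¬ nx.SameCycle d (R d) := by
    rintro d ⟨k, hk⟩
    rcases Int.even_or_odd' k with ⟨j, rfl | rfl⟩
    · have h1 : (nx ^ j) ((nx ^ j) d) = (nx ^ j) (R ((nx ^ j) d)) := by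
        rw [hpow, ← hk, ← Equiv.Perm.mul_apply, ← zpow_add, two_mul]
      exact hRne _ ((nx ^ j).injective h1).symm
    · have h1 : (nx ^ j) (nx ((nx ^ j) d)) = (nx ^ j) (R ((nx ^ j) d)) := by
        rw [hpow, ← hk, ← Equiv.Perm.mul_apply, ← Equiv.Perm.mul_apply, ← zpow_add_one,
          ← zpow_add]
        congr 2
        ring
      exact hnR _ ((nx ^ j).injective h1)
  -- the quotient by cycles with a linear order
  let S0 : Setoid D := Equiv.Perm.SameCycle.setoid nx
  letI : LinearOrder (Quotient S0) := linearOrderOfSTO WellOrderingRel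
  set q : D → Quotient S0 := fun d => Quotient.mk S0 d with hq
  have q_nx : ∀ d, q (nx d) = q d := by
    intro d
    apply Quotient.sound
    show nx.SameCycle (nx d) d
    exact (Equiv.Perm.SameCycle.refl nx d).apply_left
  have q_R : ∀ d, q d ≠ q (R d) := by
    intro d h
    exact hcyc d (Quotient.exact h)
  -- reversal of the next dart
  have hnRn : ∀ d, nx (R (nx d)) = R d := by
    intro d
    have := hpow 1 d
    simpa using this
  set S : D → Prop := fun d => q d < q (R d) with hS
  have hS1 : ∀ d, S d ∨ S (R d) := by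
    intro d
    rcases lt_or_gt_of_ne (q_R d) with h | h
    · exact Or.inl h
    · right
      show q (R d) < q (R (R d))
      rw [RR]
      exact h
  have hS2 : ∀ d, S d → ¬ S (R d) := by
    intro d h h'
    have h'' : q (R d) < q (R (R d)) := h'
    rw [RR] at h''
    exact lt_asymm h h''
  have hSnx : ∀ d, S (nx d) ↔ S d := by
    intro d
    show q (nx d) < q (R (nx d)) ↔ q d < q (R d)
    rw [q_nx, ← q_nx (R (nx d)), hnRn]
  -- the out-dart
  have hout : ∀ u, ∃ v, ∃ h : G.Adj u v, S ⟨(u, v), h⟩ := by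
    intro u
    obtain ⟨v, hv⟩ := hne u
    by_cases h : S ⟨(u, v), hv⟩
    · exact ⟨v, hv, h⟩
    · refine ⟨o u v, (ho _ _ hv).1, ?_⟩
      have h1 : S (R ⟨(u, v), hv⟩) := (hS1 _).resolve_left h
      have h2 : S (nx (R ⟨(u, v), hv⟩)) := (hSnx _).2 h1
      exact h2
  choose f hf1 hf2 using hout
  have huniq : ∀ u v (h : G.Adj u v), S ⟨(u, v), h⟩ → f u = v := by
    intro u v h hSv
    by_contra hne'
    have h1 : v = o u (f u) := by
      rcases (ho _ _ (hf1 u)).2.2.2 v h with h1 | h1
      · exact absurd h1.symm hne'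
      · exact h1
    have h2 : S (nx (R ⟨(u, f u), hf1 u⟩)) := by
      have h3 : nx (R ⟨(u, f u), hf1 u⟩) = ⟨(u, v), h⟩ := by
        apply Subtype.ext
        show (u, o u (f u)) = (u, v)
        rw [← h1]
      rw [h3]
      exact hSv
    exact hS2 _ (hf2 u) ((hSnx _).1 h2)
  have hinj : Function.Injective f := by
    intro u u' huu
    by_contra hne'
    have hv : G.Adj (f u) u := (hf1 u).symm
    have hv' : G.Adj (f u) u' := by rw [huu]; exact (hf1 u').symm
    have h1 : u' = o (f u) u := by
      rcases (ho _ _ hv).2.2.2 u' hv' with h1 | h1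
      · exact absurd h1.symm hne'
      · exact h1
    have h2 : S (nx ⟨(u, f u), hf1 u⟩) := (hSnx _).2 (hf2 u)
    have h3 : nx ⟨(u, f u), hf1 u⟩ = R ⟨(u', f u'), hf1 u'⟩ := by
      apply Subtype.ext
      show (f u, o (f u) u) = (f u', u')
      rw [← h1, huu]
    rw [h3] at h2
    exact hS2 _ (hf2 u') h2
  refine ⟨Equiv.ofBijective f (Finite.injective_iff_bijective.1 hinj), fun u v => ?_⟩
  constructor
  · intro h
    rcases hS1 ⟨(u, v), h⟩ with h1 | h1
    · exact Or.inl (huniq u v h h1)
    · exact Or.inr (huniq v u h.symm h1)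
  · rintro (h | h)
    · have := hf1 u
      rw [show f u = v from h] at this
      exact this
    · have := hf1 v
      rw [show f v = u from h] at this
      exact this.symm

end Pool.Agent.X195.JM
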