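import Pool.Agent.X195.JM3

/-!
Degree counting for the basis property.
-/
open Finset

set_option linter.unusedSectionVars false
set_option linter.unusedVariables false
set_option linter.style.haveILetI false

namespace Pool.Agent.X195.JM

open scoped Classical in
theorem perm_of_degree {V : Type} [Fintype V] (G : SimpleGraph V)
    (h2 : ∀ v, G.degree v = 2) : ∃ π : Equiv.Perm V, ∀ u v, G.Adj u v ↔ (π u = v ∨ π v = u) := by
  set o : V → V → V := fun v u => if h : ∃ w, w ≠ u ∧ G.Adj v w then h.choose else u with ho
  have hex : ∀ v u, ∃ w, w ≠ u ∧ G.Adj v w := by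
    intro v u
    by_contra hcon
    push Not at hcon
    have h3 : G.neighborFinset v ⊆ {u} := by
      intro w hw
      rw [SimpleGraph.mem_neighborFinset] at hw
      rw [mem_singleton]
      by_contra hne
      exact hcon w hne hw
    have h4 := card_le_card h3
    rw [SimpleGraph.card_neighborFinset_eq_degree, h2, card_singleton] at h4
    omega
  have ho1 : ∀ v u, o v u ≠ u ∧ G.Adj v (o v u) := by
    intro v u
    have h3 : o v u = (hex v u).choose := by rw [ho]; simp only; rw [dif_pos (hex v u)]
    rw [h3]
    exact (hex v u).choose_spec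
  have hall : ∀ v u, G.Adj v u → ∀ w, G.Adj v w → w = u ∨ w = o v u := by
    intro v u hu w hw
    have h3 : ({u, o v u} : Finset V) = G.neighborFinset v := by
      apply eq_of_subset_of_card_le
      · intro a ha
        rw [mem_insert, mem_singleton] at ha
        rw [SimpleGraph.mem_neighborFinset]
        rcases ha with rfl | rfl
        · exact hu
        · exact (ho1 v u).2
      · rw [SimpleGraph.card_neighborFinset_eq_degree, h2, card_pair (ho1 v u).1.symm]
    have h4 : w ∈ ({u, o v u} : Finset V) := by
      rw [h3, SimpleGraph.mem_neighborFinset]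
      exact hw
    rwa [mem_insert, mem_singleton] at h4
  apply orient G o
  · intro v u hu
    refine ⟨(ho1 v u).2, (ho1 v u).1, ?_, hall v u hu⟩
    rcases hall v u hu (o v (o v u)) (ho1 v (o v u)).2 with h | h
    · exact h
    · exact absurd h (ho1 v (o v u)).1
  · intro v
    exact ⟨o v v, (ho1 v v).2⟩

open scoped Classical in
theorem degree_of_perm {V : Type} [Fintype V] (G : SimpleGraph V) (π : Equiv.Perm V)
    (hodd : ∀ v, Odd (Function.minimalPeriod π v)) (hfix : ∀ v, π v ≠ v)
    (hπ : ∀ u v, G.Adj u v ↔ (π u = v ∨ π v = u)) (v : V) : G.degree v = 2 := by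
  have hne : π v ≠ π.symm v := by
    intro h
    have h1 : π (π v) = v := by rw [h, Equiv.apply_symm_apply]
    have h2 : Function.IsPeriodicPt π 2 v := h1
    have h3 := h2.minimalPeriod_le two_pos
    have h4 := three_le_period π v (hodd v) (hfix v)
    omega
  have h3 : G.neighborFinset v = {π v, π.symm v} := by
    ext w
    rw [SimpleGraph.mem_neighborFinset, mem_insert, mem_singleton, hπ]
    constructor
    · rintro (h | h)
      · exact Or.inl h.symm
      · exact Or.inr (by rw [← h, Equiv.symm_apply_apply])
    · rintro (h | h)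
      · exact Or.inl h.symm
      · exact Or.inr (by rw [h, Equiv.apply_symm_apply])
  rw [← SimpleGraph.card_neighborFinset_eq_degree, h3, card_pair hne]

open scoped Classical in
theorem card_edges {V : Type} [Fintype V] (G : SimpleGraph V) (h2 : ∀ v, G.degree v = 2) :
    Fintype.card G.edgeSet = Fintype.card V := by
  have h1 := G.sum_degrees_eq_twice_card_edges
  rw [sum_congr rfl fun v _ => h2 v, sum_const, card_univ, smul_eq_mul] at h1
  rw [← SimpleGraph.edgeFinset_card]
  omega

open scoped Classical in
theorem le_card_edges {V : Type} [Fintype V] (G : SimpleGraph V) (h2 : ∀ v, 2 ≤ G.degree v) :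
    Fintype.card V ≤ Fintype.card G.edgeSet ∧
      (Fintype.card G.edgeSet = Fintype.card V → ∀ v, G.degree v = 2) := by
  have h1 := G.sum_degrees_eq_twice_card_edges
  have h3 : ∑ _v : V, 2 ≤ ∑ v, G.degree v := sum_le_sum fun v _ => h2 v
  have h4 : ∑ _v : V, 2 = Fintype.card V * 2 := by
    rw [sum_const, card_univ, smul_eq_mul]
  rw [← SimpleGraph.edgeFinset_card]
  constructor
  · omega
  · intro h v
    have h5 : ∑ _v : V, 2 = ∑ v, G.degree v := by omega
    exact ((sum_eq_sum_iff_of_le (fun v _ => h2 v)).1 h5 v (mem_univ v)).symm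

open scoped Classical in
theorem two_le_degree {V : Type} [Fintype V] (G : SimpleGraph V) (hne : ∀ v, ∃ u, G.Adj v u)
    (h : ∀ i j, G.Adj i j → ∃ j', j' ≠ j ∧ G.Adj i j') (v : V) : 2 ≤ G.degree v := by
  obtain ⟨u, hu⟩ := hne v
  obtain ⟨u', hu', hadj⟩ := h v u hu
  rw [← SimpleGraph.card_neighborFinset_eq_degree]
  have h1 : ({u, u'} : Finset V) ⊆ G.neighborFinset v := by
    intro a ha
    rw [mem_insert, mem_singleton] at ha
    rw [SimpleGraph.mem_neighborFinset]
    rcases ha with rfl | rfl
    · exact hu
    · exact hadj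
  have h2 := card_le_card h1
  rwa [card_pair hu'.symm] at h2

/-- three distinct elements with prescribed first one -/
theorem exists_inj {n : ℕ} (hn : 3 ≤ n) (u : Fin n) : ∃ f : Fin 3 → Fin n,
    Function.Injective f ∧ f 0 = u := by
  refine ⟨fun i => Equiv.swap (Fin.castLE hn 0) u (Fin.castLE hn i), ?_, ?_⟩
  · intro i j h
    exact Fin.castLE_injective hn ((Equiv.injective _) h)
  · simp

end Pool.Agent.X195.JM
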