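import Pool.Agent.X195.MC1

/-!
# A Hausdorff semilattice with complete maximal chains which is not `H`-closed (MP_97d10c_gt)
-/

set_option autoImplicit false

open Filter Topology

namespace Pool.Agent.X195.KC

open Pool.Agent.X195.MC (W exists_gt_countable)

noncomputable section

/-! ## Topologies from systems of neighbourhoods -/

/-- a system of basic neighbourhoods -/
structure NbSys (ι α : Type) [LinearOrder ι] where
  /-- the basic neighbourhoods -/
  nb : ι → α → Set α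
  /-- the admissible indices -/
  ok : ι → α → Prop
  ex : ∀ x, ∃ i, ok i x
  mem : ∀ i x, ok i x → x ∈ nb i x
  anti : ∀ i j x, i ≤ j → nb j x ⊆ nb i x
  okmax : ∀ i j x, ok i x → ok j x → ok (max i j) x
  opn : ∀ i x z, ok i x → z ∈ nb i x → ∃ j, ok j z ∧ nb j z ⊆ nb i x

namespace NbSys

variable {ι α : Type} [LinearOrder ι] (N : NbSys ι α)

/-- the topology -/
abbrev top : TopologicalSpace α where
  IsOpen U := ∀ x ∈ U, ∃ m, N.ok m x ∧ N.nb m x ⊆ U
  isOpen_univ := fun x _ => by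
    obtain ⟨i, hi⟩ := N.ex x
    exact ⟨i, hi, Set.subset_univ _⟩
  isOpen_inter := fun U V hU hV x hx => by
    obtain ⟨m, hm0, hm⟩ := hU x hx.1
    obtain ⟨k, hk0, hk⟩ := hV x hx.2
    exact ⟨max m k, N.okmax _ _ _ hm0 hk0,
      Set.subset_inter ((N.anti _ _ x (le_max_left m k)).trans hm)
      ((N.anti _ _ x (le_max_right m k)).trans hk)⟩
  isOpen_sUnion := fun S hS x hx => by
    obtain ⟨U, hU, hxU⟩ := hx
    obtain ⟨m, hm0, hm⟩ := hS U hU x hxU
    exact ⟨m, hm0, hm.trans (Set.subset_sUnion_of_mem hU)⟩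

theorem isOpen_nb (m : ι) (x : α) (h : N.ok m x) : IsOpen[N.top] (N.nb m x) :=
  fun z hz => N.opn m x z h hz

theorem mem_nhds {x : α} {U : Set α} :
    U ∈ @nhds α N.top x ↔ ∃ m, N.ok m x ∧ N.nb m x ⊆ U := by
  let _ : TopologicalSpace α := N.top
  constructor
  · intro h
    obtain ⟨V, hVU, hV, hx⟩ := mem_nhds_iff.1 h
    obtain ⟨m, hm0, hm⟩ := hV x hx
    exact ⟨m, hm0, hm.trans hVU⟩
  · rintro ⟨m, hm0, hm⟩
    exact mem_nhds_iff.2 ⟨N.nb m x, hm, N.isOpen_nb m x hm0, N.mem m x hm0⟩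

theorem mem_closure {x : α} {S : Set α} :
    x ∈ @closure α N.top S ↔ ∀ m, N.ok m x → ∃ y ∈ S, y ∈ N.nb m x := by
  rw [@mem_closure_iff_nhds α N.top]
  constructor
  · intro h m hm
    obtain ⟨y, hy, hyS⟩ := h _ (N.mem_nhds.2 ⟨m, hm, subset_rfl⟩)
    exact ⟨y, hyS, hy⟩
  · intro h U hU
    obtain ⟨m, hm0, hm⟩ := N.mem_nhds.1 hU
    obtain ⟨y, hy, hyS⟩ := h m hm0
    exact ⟨y, hm hyS, hy⟩

theorem t2 (h : ∀ x y, x ≠ y → ∃ m m', N.ok m x ∧ N.ok m' y ∧ Disjoint (N.nb m x) (N.nb m' y)) :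
    @T2Space α N.top := by
  refine @T2Space.mk α N.top fun x y hxy => ?_
  obtain ⟨m, m', h1, h2, hm⟩ := h x y hxy
  exact ⟨N.nb m x, N.nb m' y, N.isOpen_nb m x h1, N.isOpen_nb m' y h2, N.mem m x h1,
    N.mem m' y h2, hm⟩

theorem continuous₂ (f : α → α → α)
    (h : ∀ x y m, N.ok m (f x y) → ∃ m₁ m₂, N.ok m₁ x ∧ N.ok m₂ y ∧
      ∀ a ∈ N.nb m₁ x, ∀ b ∈ N.nb m₂ y, f a b ∈ N.nb m (f x y)) :
    @Continuous (α × α) α (@instTopologicalSpaceProd α α N.top N.top) N.top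
      (fun p => f p.1 p.2) := by
  let _ : TopologicalSpace α := N.top
  rw [continuous_iff_continuousAt]
  rintro ⟨x, y⟩
  intro U hU
  obtain ⟨m, hm0, hm⟩ := N.mem_nhds.1 hU
  obtain ⟨m₁, m₂, hm₁, hm₂, hm'⟩ := h x y m hm0
  have h1 : N.nb m₁ x ∈ 𝓝 x := N.mem_nhds.2 ⟨m₁, hm₁, subset_rfl⟩
  have h2 : N.nb m₂ y ∈ 𝓝 y := N.mem_nhds.2 ⟨m₂, hm₂, subset_rfl⟩
  have h3 : N.nb m₁ x ×ˢ N.nb m₂ y ⊆ (fun p : α × α => f p.1 p.2) ⁻¹' U := by
    rintro ⟨a, b⟩ ⟨ha, hb⟩
    exact hm (hm' a ha b hb)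
  exact Filter.mem_map.2 (Filter.mem_of_superset (prod_mem_nhds h1 h2) h3)

end NbSys

/-! ## The semilattice -/

/-- the semilattice: a cut `g` (a limit element of `W` or `⊤`), a marker `e`, and a set `A`
containing everything above the cut, which is locally finite below the cut; if the marker is on,
then it is finite below the cut -/
@[ext] structure Y : Type where
  /-- the cut -/
  g : WithTop W
  /-- the marker -/
  e : Bool
  /-- the set -/
  A : Set W
  lim : (∃ b : W, (b : WithTop W) < g) ∧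
    ∀ b : W, (b : WithTop W) < g → ∃ b' : W, b < b' ∧ (b' : WithTop W) < g
  up : ∀ a : W, g ≤ a → a ∈ A
  lf : ∀ b : W, (b : WithTop W) < g → (A ∩ Set.Iio b).Finite
  fin : e = true → {a ∈ A | (a : WithTop W) < g}.Finite

namespace Y

/-- the level -/
def lev (x : Y) : WithTop W ×ₗ Bool := toLex (x.g, x.e)

theorem lev_le {x y : Y} : lev x ≤ lev y ↔ x.g < y.g ∨ (x.g = y.g ∧ x.e ≤ y.e) :=
  Prod.Lex.toLex_le_toLex

theorem g_le_of_lev {x y : Y} (h : lev x ≤ lev y) : x.g ≤ y.g := by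
  rcases lev_le.1 h with h | h
  · exact h.le
  · exact h.1.le

theorem fin_of_lev {x y : Y} (h : lev x ≤ lev y) (he : x.e = true) :
    {a ∈ y.A | (a : WithTop W) < x.g}.Finite := by
  rcases lev_le.1 h with h | ⟨h1, h2⟩
  · obtain ⟨c, hc⟩ := WithTop.ne_top_iff_exists.1 (ne_top_of_lt h)
    rw [← hc] at h ⊢
    refine (y.lf c h).subset ?_
    rintro a ⟨ha, hac⟩
    exact ⟨ha, WithTop.coe_lt_coe.1 hac⟩
  · rw [h1]
    rw [he] at h2
    exact y.fin (top_le_iff.1 h2)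

/-- the product of two elements with `lev x ≤ lev y` -/
def comb (x y : Y) (h : lev x ≤ lev y) : Y where
  g := x.g
  e := x.e
  A := x.A ∪ y.A
  lim := x.lim
  up := fun a ha => Or.inl (x.up a ha)
  lf := fun b hb => by
    rw [Set.union_inter_distrib_right]
    exact (x.lf b hb).union (y.lf b (lt_of_lt_of_le hb (g_le_of_lev h)))
  fin := fun he => by
    refine ((x.fin he).union (fin_of_lev h he)).subset ?_
    rintro a ⟨ha | ha, hb⟩
    · exact Or.inl ⟨ha, hb⟩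
    · exact Or.inr ⟨ha, hb⟩

/-- the embedding -/
def emb (x : Y) : (WithTop W ×ₗ Bool) × (Set W)ᵒᵈ := (lev x, OrderDual.toDual x.A)

theorem ext' {x y : Y} (h1 : lev x = lev y) (h3 : x.A = y.A) : x = y := by
  have h2 : (x.g, x.e) = (y.g, y.e) := h1
  rw [Prod.mk.injEq] at h2
  exact Y.ext h2.1 h2.2 h3

theorem emb_injective : Function.Injective emb := by
  intro x y h
  exact ext' (congrArg Prod.fst h) (congrArg Prod.snd h)

instance : LE Y := ⟨fun x y => emb x ≤ emb y⟩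
instance : LT Y := ⟨fun x y => emb x < emb y⟩
instance : Min Y := ⟨fun x y => if h : lev x ≤ lev y then comb x y h else
  comb y x (le_of_not_ge h)⟩

theorem inf_of_le {x y : Y} (h : lev x ≤ lev y) : x ⊓ y = comb x y h := dif_pos h

theorem inf_of_not_le {x y : Y} (h : ¬ lev x ≤ lev y) : x ⊓ y = comb y x (le_of_not_ge h) :=
  dif_neg h

theorem lev_inf (x y : Y) : lev (x ⊓ y) = min (lev x) (lev y) := by
  by_cases h : lev x ≤ lev y
  · rw [inf_of_le h, min_eq_left h]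
    rfl
  · rw [inf_of_not_le h, min_eq_right (le_of_not_ge h)]
    rfl

theorem A_inf (x y : Y) : (x ⊓ y).A = x.A ∪ y.A := by
  by_cases h : lev x ≤ lev y
  · rw [inf_of_le h]
    rfl
  · rw [inf_of_not_le h]
    exact Set.union_comm _ _

theorem emb_inf (x y : Y) : emb (x ⊓ y) = emb x ⊓ emb y :=
  Prod.ext (lev_inf x y) (congrArg OrderDual.toDual (A_inf x y))

instance : SemilatticeInf Y :=
  emb_injective.semilatticeInf emb Iff.rfl Iff.rfl emb_inf

theorem le_iff {x y : Y} : x ≤ y ↔ lev x ≤ lev y ∧ y.A ⊆ x.A := Iff.rfl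

theorem g_mono {x y : Y} (h : x ≤ y) : x.g ≤ y.g := g_le_of_lev (le_iff.1 h).1

theorem g_inf (x y : Y) : (x ⊓ y).g = min x.g y.g := by
  by_cases h : lev x ≤ lev y
  · rw [inf_of_le h, min_eq_left (g_le_of_lev h)]
    rfl
  · rw [inf_of_not_le h, min_eq_right (g_le_of_lev (le_of_not_ge h))]
    rfl

theorem lev_lt_of_g {x y : Y} (h : x.g < y.g) : lev x < lev y :=
  lt_of_not_ge fun h' => absurd h (not_lt.2 (g_le_of_lev h'))

end Y

open Y

/-- `A` and `B` agree below `b` -/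
def agree (b : W) (A B : Set W) : Prop := ∀ a < b, (a ∈ A ↔ a ∈ B)

theorem agree.refl (b : W) (A : Set W) : agree b A A := fun _ _ => Iff.rfl

theorem agree.symm {b : W} {A B : Set W} (h : agree b A B) : agree b B A :=
  fun i hi => (h i hi).symm

theorem agree.mono {b b' : W} {A B : Set W} (h : agree b' A B) (hb : b ≤ b') : agree b A B :=
  fun i hi => h i (lt_of_lt_of_le hi hb)

theorem agree.trans {b : W} {A B D : Set W} (h : agree b A B) (h' : agree b B D) :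
    agree b A D := fun i hi => (h i hi).trans (h' i hi)

theorem agree.union {b : W} {A B A' B' : Set W} (h : agree b A A') (h' : agree b B B') :
    agree b (A ∪ B) (A' ∪ B') := fun i hi => or_congr (h i hi) (h' i hi)

/-- basic neighbourhoods -/
def nb (b : W) (x : Y) : Set Y :=
  {z | (x.g ≠ ⊤ ∧ x.e = true ∧ z = x) ∨
    (¬ (x.g ≠ ⊤ ∧ x.e = true) ∧ (b : WithTop W) < z.g ∧ agree b z.A x.A ∧
      (x.g = ⊤ → x.e = true → z.g = ⊤ ∧ z.e = true) ∧
      (x.g = ⊤ → x.e = false → (z.g = ⊤ ↔ z.e = false)) ∧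
      (x.g ≠ ⊤ → ((∃ a ∈ z.A, b ≤ a ∧ (a : WithTop W) < x.g) ∨ z.g ≤ x.g) ∧
        ¬ (z.g = x.g ∧ z.e = true ∧ z.A = x.A)))}

theorem nb_R {b : W} {x z : Y} (h1 : x.g ≠ ⊤) (h2 : x.e = true) : z ∈ nb b x ↔ z = x := by
  constructor
  · rintro (⟨-, -, h⟩ | ⟨h, -⟩)
    · exact h
    · exact absurd ⟨h1, h2⟩ h
  · intro h
    exact Or.inl ⟨h1, h2, h⟩

theorem nb_P {b : W} {x z : Y} (h1 : x.g = ⊤) (h2 : x.e = true) :
    z ∈ nb b x ↔ agree b z.A x.A ∧ z.g = ⊤ ∧ z.e = true := by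
  constructor
  · rintro (⟨h, -⟩ | ⟨-, h3, h4, h5, -⟩)
    · exact absurd h1 h
    · exact ⟨h4, h5 h1 h2⟩
  · rintro ⟨h3, h4, h5⟩
    refine Or.inr ⟨fun h => h.1 h1, ?_, h3, fun _ _ => ⟨h4, h5⟩, fun _ h => ?_,
      fun h => absurd h1 h⟩
    · rw [h4]
      exact WithTop.coe_lt_top b
    · rw [h2] at h
      exact Bool.noConfusion h

theorem nb_Q {b : W} {x z : Y} (h1 : x.g = ⊤) (h2 : x.e = false) :
    z ∈ nb b x ↔ (b : WithTop W) < z.g ∧ agree b z.A x.A ∧ (z.g = ⊤ ↔ z.e = false) := by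
  constructor
  · rintro (⟨h, -⟩ | ⟨-, h3, h4, -, h5, -⟩)
    · exact absurd h1 h
    · exact ⟨h3, h4, h5 h1 h2⟩
  · rintro ⟨h3, h4, h5⟩
    refine Or.inr ⟨fun h => h.1 h1, h3, h4, fun _ h => ?_, fun _ _ => h5,
      fun h => absurd h1 h⟩
    rw [h2] at h
    exact Bool.noConfusion h

theorem nb_T {b : W} {x z : Y} (h1 : x.g ≠ ⊤) (h2 : x.e = false) :
    z ∈ nb b x ↔ (b : WithTop W) < z.g ∧ agree b z.A x.A ∧
      ((∃ a ∈ z.A, b ≤ a ∧ (a : WithTop W) < x.g) ∨ z.g ≤ x.g) ∧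
        ¬ (z.g = x.g ∧ z.e = true ∧ z.A = x.A) := by
  have h3 : ¬ (x.g ≠ ⊤ ∧ x.e = true) := fun h => by
    rw [h2] at h
    exact Bool.noConfusion h.2
  constructor
  · rintro (⟨-, h, -⟩ | ⟨-, h3, h4, -, -, h5⟩)
    · rw [h2] at h
      exact Bool.noConfusion h
    · exact ⟨h3, h4, h5 h1⟩
  · rintro ⟨h4, h5, h6⟩
    exact Or.inr ⟨h3, h4, h5, fun h => absurd h h1, fun h => absurd h h1, fun _ => h6⟩

theorem kinds (x : Y) : (x.g ≠ ⊤ ∧ x.e = true) ∨ (x.g = ⊤ ∧ x.e = true) ∨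
    (x.g = ⊤ ∧ x.e = false) ∨ (x.g ≠ ⊤ ∧ x.e = false) := by
  by_cases h : x.g = ⊤ <;> cases h' : x.e <;> simp [h]

/-- all elements of `nb b x` agree with `x` below `b` -/
theorem agree_of_nb {b : W} {x z : Y} (h : z ∈ nb b x) : agree b z.A x.A := by
  rcases h with ⟨-, -, rfl⟩ | ⟨-, -, h, -⟩
  · exact agree.refl _ _
  · exact h

/-- and their cut is above `b` -/
theorem g_of_nb {b : W} {x z : Y} (hb : (b : WithTop W) < x.g) (h : z ∈ nb b x) :
    (b : WithTop W) < z.g := by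
  rcases h with ⟨-, -, rfl⟩ | ⟨-, h, -⟩
  · exact hb
  · exact h

theorem nb_mem {b : W} {x : Y} (hb : (b : WithTop W) < x.g) : x ∈ nb b x := by
  rcases kinds x with ⟨h1, h2⟩ | ⟨h1, h2⟩ | ⟨h1, h2⟩ | ⟨h1, h2⟩
  · exact (nb_R h1 h2).2 rfl
  · exact (nb_P h1 h2).2 ⟨agree.refl _ _, h1, h2⟩
  · exact (nb_Q h1 h2).2 ⟨hb, agree.refl _ _, by rw [h1, h2]; simp⟩
  · refine (nb_T h1 h2).2 ⟨hb, agree.refl _ _, Or.inr le_rfl, fun h => ?_⟩
    rw [h2] at h
    exact Bool.noConfusion h.2.1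

theorem nb_anti {b b' : W} {x : Y} (h : b ≤ b') : nb b' x ⊆ nb b x := by
  intro z hz
  have hbb : (b : WithTop W) ≤ b' := WithTop.coe_le_coe.2 h
  rcases kinds x with ⟨h1, h2⟩ | ⟨h1, h2⟩ | ⟨h1, h2⟩ | ⟨h1, h2⟩
  · rw [nb_R h1 h2] at hz ⊢
    exact hz
  · rw [nb_P h1 h2] at hz ⊢
    exact ⟨hz.1.mono h, hz.2⟩
  · rw [nb_Q h1 h2] at hz ⊢
    exact ⟨lt_of_le_of_lt hbb hz.1, hz.2.1.mono h, hz.2.2⟩
  · rw [nb_T h1 h2] at hz ⊢
    obtain ⟨h3, h4, h5, h6⟩ := hz
    refine ⟨lt_of_le_of_lt hbb h3, h4.mono h, ?_, h6⟩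
    rcases h5 with ⟨a, ha, hba, hax⟩ | h5
    · exact Or.inl ⟨a, ha, h.trans hba, hax⟩
    · exact Or.inr h5

theorem coe_succ_lt (x : Y) {b : W} (h : (b : WithTop W) < x.g) :
    ∃ b' : W, b < b' ∧ (b' : WithTop W) < x.g := x.lim.2 b h

/-- a finite set below the cut is bounded strictly below the cut -/
theorem exists_bound (x : Y) {T : Set W} (hT : T.Finite)
    (h : ∀ a ∈ T, (a : WithTop W) < x.g) (b : W) (hb : (b : WithTop W) < x.g) :
    ∃ c : W, b ≤ c ∧ (c : WithTop W) < x.g ∧ ∀ a ∈ T, a < c := by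
  induction T, hT using Set.Finite.induction_on with
  | empty => exact ⟨b, le_rfl, hb, fun a ha => absurd ha (Set.notMem_empty a)⟩
  | @insert a T _ _ ih =>
    obtain ⟨c, h1, h2, h3⟩ := ih fun a' ha' => h a' (Set.mem_insert_of_mem a ha')
    obtain ⟨a', h4, h5⟩ := x.lim.2 a (h a (Set.mem_insert a T))
    refine ⟨max c a', h1.trans (le_max_left _ _), ?_, ?_⟩
    · rw [WithTop.coe_max]
      exact max_lt h2 h5
    · rintro t (rfl | ht)
      · exact lt_max_of_lt_right h4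
      · exact lt_max_of_lt_left (h3 t ht)

theorem nb_opn (b : W) (x z : Y) (_hb : (b : WithTop W) < x.g) (hz : z ∈ nb b x) :
    ∃ b' : W, (b' : WithTop W) < z.g ∧ nb b' z ⊆ nb b x := by
  rcases kinds x with ⟨h1, h2⟩ | ⟨h1, h2⟩ | ⟨h1, h2⟩ | ⟨h1, h2⟩
  · rw [nb_R h1 h2] at hz
    subst hz
    exact ⟨b, _hb, subset_rfl⟩
  · rw [nb_P h1 h2] at hz
    obtain ⟨h3, h4, h5⟩ := hz
    refine ⟨b, by rw [h4]; exact WithTop.coe_lt_top b, fun y hy => ?_⟩
    rw [nb_P h4 h5] at hy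
    rw [nb_P h1 h2]
    exact ⟨hy.1.trans h3, hy.2⟩
  · rw [nb_Q h1 h2] at hz
    obtain ⟨h3, h4, h5⟩ := hz
    refine ⟨b, h3, fun y hy => ?_⟩
    rw [nb_Q h1 h2]
    rcases kinds z with ⟨k1, k2⟩ | ⟨k1, k2⟩ | ⟨k1, k2⟩ | ⟨k1, k2⟩
    · rw [nb_R k1 k2] at hy
      subst hy
      exact ⟨h3, h4, h5⟩
    · rw [k2] at h5
      exact Bool.noConfusion (h5.1 k1)
    · rw [nb_Q k1 k2] at hy
      exact ⟨hy.1, hy.2.1.trans h4, hy.2.2⟩
    · exact absurd (h5.2 k2) k1
  · rw [nb_T h1 h2] at hz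
    obtain ⟨h3, h4, h5, h6⟩ := hz
    obtain ⟨c, hc⟩ := WithTop.ne_top_iff_exists.1 h1
    rcases lt_trichotomy z.g x.g with hlt | heq | hgt
    · -- the cut of `z` is below the cut of `x`
      rcases kinds z with ⟨k1, k2⟩ | ⟨k1, k2⟩ | ⟨k1, k2⟩ | ⟨k1, k2⟩
      · refine ⟨b, h3, fun y hy => ?_⟩
        rw [nb_R k1 k2] at hy
        subst hy
        exact (nb_T h1 h2).2 ⟨h3, h4, h5, h6⟩
      · exact absurd hlt (by rw [k1]; exact not_top_lt)
      · exact absurd hlt (by rw [k1]; exact not_top_lt)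
      · by_cases hfin : {a ∈ x.A | (a : WithTop W) < z.g}.Finite
        · obtain ⟨b', hb1, hb2, hb3⟩ := exists_bound z hfin (fun a ha => ha.2) b h3
          refine ⟨b', hb2, fun y hy => ?_⟩
          rw [nb_T k1 k2] at hy
          obtain ⟨h7, h8, h9, h10⟩ := hy
          refine (nb_T h1 h2).2 ⟨lt_of_le_of_lt (WithTop.coe_le_coe.2 hb1) h7,
            (h8.mono hb1).trans h4, ?_, ?_⟩
          · rcases h9 with ⟨a, ha, hba, haz⟩ | h9
            · exact Or.inl ⟨a, ha, hb1.trans hba, haz.trans hlt⟩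
            · exact Or.inr (h9.trans hlt.le)
          · rintro ⟨h11, h12, h13⟩
            rcases h9 with ⟨a, ha, hba, haz⟩ | h9
            · rw [h13] at ha
              exact absurd (hb3 a ⟨ha, haz⟩) (not_lt.2 hba)
            · exact absurd (h11 ▸ h9) (not_le.2 hlt)
        · refine ⟨b, h3, fun y hy => ?_⟩
          rw [nb_T k1 k2] at hy
          obtain ⟨h7, h8, h9, h10⟩ := hy
          refine (nb_T h1 h2).2 ⟨h7, h8.trans h4, ?_, ?_⟩
          · rcases h9 with ⟨a, ha, hba, haz⟩ | h9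
            · exact Or.inl ⟨a, ha, hba, haz.trans hlt⟩
            · exact Or.inr (h9.trans hlt.le)
          · rintro ⟨h11, h12, h13⟩
            refine hfin ((y.fin h12).subset ?_)
            rintro a ⟨ha, haz⟩
            exact ⟨h13 ▸ ha, h11 ▸ haz.trans hlt⟩
    · -- the same cut
      rcases kinds z with ⟨k1, k2⟩ | ⟨k1, k2⟩ | ⟨k1, k2⟩ | ⟨k1, k2⟩
      · refine ⟨b, h3, fun y hy => ?_⟩
        rw [nb_R k1 k2] at hy
        subst hy
        exact (nb_T h1 h2).2 ⟨h3, h4, h5, h6⟩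
      · exact absurd (heq ▸ k1) h1
      · exact absurd (heq ▸ k1) h1
      · by_cases hA : z.A = x.A
        · have : z = x := Y.ext heq (k2.trans h2.symm) hA
          subst this
          exact ⟨b, h3, subset_rfl⟩
        · have : ∃ a, ¬ (a ∈ z.A ↔ a ∈ x.A) := by
            by_contra hcon
            push Not at hcon
            exact hA (Set.ext hcon)
          obtain ⟨a, ha⟩ := this
          have hax : (a : WithTop W) < x.g := by
            by_contra hcon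
            rw [not_lt] at hcon
            exact ha ⟨fun _ => x.up a hcon, fun _ => z.up a (heq ▸ hcon)⟩
          obtain ⟨a', haa', ha'⟩ := x.lim.2 a hax
          refine ⟨max b a', ?_, fun y hy => ?_⟩
          · rw [WithTop.coe_max]
            exact max_lt h3 (heq ▸ ha')
          · rw [nb_T k1 k2] at hy
            obtain ⟨h7, h8, h9, h10⟩ := hy
            have hbm : (b : WithTop W) ≤ (max b a' : W) := WithTop.coe_le_coe.2 (le_max_left _ _)
            refine (nb_T h1 h2).2 ⟨lt_of_le_of_lt hbm h7,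
              (h8.mono (le_max_left _ _)).trans h4, ?_, ?_⟩
            · rcases h9 with ⟨t, ht, hbt, htz⟩ | h9
              · exact Or.inl ⟨t, ht, (le_max_left _ _).trans hbt, heq ▸ htz⟩
              · exact Or.inr (heq ▸ h9)
            · rintro ⟨h11, h12, h13⟩
              have := h8 a (lt_max_of_lt_right haa')
              rw [h13] at this
              exact ha this.symm
    · -- the cut of `z` is above the cut of `x`
      have hex : ∃ a ∈ z.A, b ≤ a ∧ (a : WithTop W) < x.g := h5.resolve_right (not_le.2 hgt)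
      obtain ⟨a, ha, hba, hax⟩ := hex
      refine ⟨c, by rw [hc]; exact hgt, fun y hy => ?_⟩
      have hcz : (c : WithTop W) < z.g := by rw [hc]; exact hgt
      have h7 := g_of_nb hcz hy
      have h8 := agree_of_nb hy
      have hac : a < c := by
        rw [← hc] at hax
        exact WithTop.coe_lt_coe.1 hax
      have hbc : b ≤ c := hba.trans hac.le
      refine (nb_T h1 h2).2 ⟨lt_of_le_of_lt (WithTop.coe_le_coe.2 hbc) h7,
        (h8.mono hbc).trans h4, Or.inl ⟨a, (h8 a hac).2 ha, hba, hax⟩, ?_⟩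
      rintro ⟨h11, -⟩
      rw [hc] at h7
      exact absurd h11 (ne_of_gt h7)

/-- the neighbourhood system -/
def N : NbSys W Y where
  nb := nb
  ok := fun b x => (b : WithTop W) < x.g
  ex := fun x => x.lim.1
  mem := fun _ _ h => nb_mem h
  anti := fun _ _ _ h => nb_anti h
  okmax := fun i j x hi hj => by
    rw [WithTop.coe_max]
    exact max_lt hi hj
  opn := nb_opn

theorem N_nb (b : W) (x : Y) : N.nb b x = nb b x := rfl

end

end Pool.Agent.X195.KC
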