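import Pool.Agent.X195.KC1

/-!
# Separation and continuity (MP_97d10c_gt)
-/

set_option autoImplicit false

open Filter Topology

namespace Pool.Agent.X195.KC

open Pool.Agent.X195.MC (W exists_gt_countable)
open Y

theorem A_sub_ext {x y : Y} (hg : x.g = y.g) (h : ∀ a : W, (a : WithTop W) < x.g →
    (a ∈ x.A ↔ a ∈ y.A)) : x.A = y.A := by
  ext a
  by_cases ha : (a : WithTop W) < x.g
  · exact h a ha
  · rw [not_lt] at ha
    exact ⟨fun _ => y.up a (hg ▸ ha), fun _ => x.up a ha⟩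

/-- separation of points with different sets below the smaller cut -/
theorem sep_of_set {x y : Y} (hg : x.g ≤ y.g) {a : W} (ha : (a : WithTop W) < x.g)
    (h : ¬ (a ∈ x.A ↔ a ∈ y.A)) :
    ∃ m m' : W, (m : WithTop W) < x.g ∧ (m' : WithTop W) < y.g ∧
      Disjoint (nb m x) (nb m' y) := by
  obtain ⟨b, hab, hb⟩ := x.lim.2 a ha
  refine ⟨b, b, hb, lt_of_lt_of_le hb hg, Set.disjoint_left.2 fun z h1 h2 => ?_⟩
  exact h (((agree_of_nb h1) a hab).symm.trans ((agree_of_nb h2) a hab))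

theorem sep_lt {x y : Y} (hg : x.g < y.g) :
    ∃ m m' : W, (m : WithTop W) < x.g ∧ (m' : WithTop W) < y.g ∧
      Disjoint (nb m x) (nb m' y) := by
  by_cases hA : ∃ a : W, (a : WithTop W) < x.g ∧ ¬ (a ∈ x.A ↔ a ∈ y.A)
  · obtain ⟨a, ha, h⟩ := hA
    exact sep_of_set hg.le ha h
  push Not at hA
  obtain ⟨c, hc⟩ := WithTop.ne_top_iff_exists.1 (ne_top_of_lt hg)
  have hcy : (c : WithTop W) < y.g := by rw [hc]; exact hg
  have hx : x.g ≠ ⊤ := ne_top_of_lt hg
  have hfin : {a ∈ y.A | (a : WithTop W) < x.g}.Finite := by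
    refine (y.lf c hcy).subset ?_
    rintro a ⟨ha, hac⟩
    rw [← hc] at hac
    exact ⟨ha, WithTop.coe_lt_coe.1 hac⟩
  obtain ⟨b₀, hb₀⟩ := x.lim.1
  obtain ⟨b, -, hb, hb2⟩ := exists_bound x hfin (fun a ha => ha.2) b₀ hb₀
  refine ⟨b, c, hb, hcy, Set.disjoint_left.2 fun z h1 h2 => ?_⟩
  have h3 := g_of_nb hcy h2
  have h4 := agree_of_nb h2
  rcases kinds x with ⟨k1, k2⟩ | ⟨k1, k2⟩ | ⟨k1, k2⟩ | ⟨k1, k2⟩
  · rw [nb_R k1 k2] at h1
    subst h1
    rw [hc] at h3
    exact absurd h3 (lt_irrefl _)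
  · exact hx k1
  · exact hx k1
  · rw [nb_T k1 k2] at h1
    obtain ⟨-, -, ⟨a, ha, hba, hax⟩ | h5, -⟩ := h1
    · have hac : a < c := by
        rw [← hc] at hax
        exact WithTop.coe_lt_coe.1 hax
      exact absurd (hb2 a ⟨(h4 a hac).1 ha, hax⟩) (not_lt.2 hba)
    · rw [← hc] at h5
      exact absurd h3 (not_lt.2 h5)

theorem sep_eq {x y : Y} (hg : x.g = y.g) (hx : x.e = false) (hy : y.e = true) :
    ∃ m m' : W, (m : WithTop W) < x.g ∧ (m' : WithTop W) < y.g ∧
      Disjoint (nb m x) (nb m' y) := by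
  by_cases hA : ∃ a : W, (a : WithTop W) < x.g ∧ ¬ (a ∈ x.A ↔ a ∈ y.A)
  · obtain ⟨a, ha, h⟩ := hA
    exact sep_of_set hg.le ha h
  push Not at hA
  have hAA := A_sub_ext hg hA
  obtain ⟨b, hb⟩ := x.lim.1
  refine ⟨b, b, hb, hg ▸ hb, Set.disjoint_left.2 fun z h1 h2 => ?_⟩
  by_cases htop : x.g = ⊤
  · rw [nb_Q htop hx] at h1
    rw [nb_P (hg ▸ htop) hy] at h2
    have := h1.2.2.1 h2.2.1
    rw [h2.2.2] at this
    exact Bool.noConfusion this
  · rw [nb_T htop hx] at h1
    rw [nb_R (hg ▸ htop) hy] at h2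
    subst h2
    exact h1.2.2.2 ⟨hg.symm, hy, hAA.symm⟩

theorem sep (x y : Y) (h : x ≠ y) :
    ∃ m m' : W, (m : WithTop W) < x.g ∧ (m' : WithTop W) < y.g ∧
      Disjoint (nb m x) (nb m' y) := by
  rcases lt_trichotomy x.g y.g with hlt | heq | hgt
  · exact sep_lt hlt
  · cases hx : x.e <;> cases hy : y.e
    · have hA : ∃ a : W, (a : WithTop W) < x.g ∧ ¬ (a ∈ x.A ↔ a ∈ y.A) := by
        by_contra hcon
        push Not at hcon
        exact h (Y.ext heq (hx.trans hy.symm) (A_sub_ext heq hcon))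
      obtain ⟨a, ha, h⟩ := hA
      exact sep_of_set heq.le ha h
    · exact sep_eq heq hx hy
    · obtain ⟨m, m', h1, h2, h3⟩ := sep_eq heq.symm hy hx
      exact ⟨m', m, h2, h1, h3.symm⟩
    · have hA : ∃ a : W, (a : WithTop W) < x.g ∧ ¬ (a ∈ x.A ↔ a ∈ y.A) := by
        by_contra hcon
        push Not at hcon
        exact h (Y.ext heq (hx.trans hy.symm) (A_sub_ext heq hcon))
      obtain ⟨a, ha, h⟩ := hA
      exact sep_of_set heq.le ha h
  · obtain ⟨m, m', h1, h2, h3⟩ := sep_lt hgt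
    exact ⟨m', m, h2, h1, h3.symm⟩

theorem t2N : @T2Space Y N.top := N.t2 sep

/-- multiplication in the case `lev x ≤ lev y` -/
theorem mul_aux (x y : Y) (hl : lev x ≤ lev y) (b : W) (hb : (b : WithTop W) < x.g) :
    ∃ m₁ m₂ : W, (m₁ : WithTop W) < x.g ∧ (m₂ : WithTop W) < y.g ∧
      ∀ z ∈ nb m₁ x, ∀ t ∈ nb m₂ y, z ⊓ t ∈ nb b (x ⊓ y) := by
  have hg : x.g ≤ y.g := g_le_of_lev hl
  have hgi : (x ⊓ y).g = x.g := by rw [g_inf]; exact min_eq_left hg
  have hei : (x ⊓ y).e = x.e := by rw [inf_of_le hl]; rfl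
  have hAi : (x ⊓ y).A = x.A ∪ y.A := A_inf x y
  rcases kinds x with ⟨k1, k2⟩ | ⟨k1, k2⟩ | ⟨k1, k2⟩ | ⟨k1, k2⟩
  · -- `x` isolated
    obtain ⟨c, hc⟩ := WithTop.ne_top_iff_exists.1 k1
    rcases lev_le.1 hl with hlt | ⟨heq, hee⟩
    · have hcy : (c : WithTop W) < y.g := by rw [hc]; exact hlt
      refine ⟨b, c, hb, hcy, fun z hz t ht => ?_⟩
      rw [nb_R k1 k2] at hz
      subst hz
      rw [nb_R (hgi ▸ k1) (hei.trans k2)]
      have h1 := g_of_nb hcy ht
      have h2 := agree_of_nb ht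
      rw [hc] at h1
      have hl2 : lev z ≤ lev t := lev_le.2 (Or.inl h1)
      refine ext' ?_ ?_
      · rw [lev_inf, lev_inf, min_eq_left hl2, min_eq_left hl]
      · rw [A_inf, A_inf]
        ext a
        by_cases ha : (a : WithTop W) < z.g
        · rw [← hc] at ha
          exact or_congr Iff.rfl (h2 a (WithTop.coe_lt_coe.1 ha))
        · rw [not_lt] at ha
          exact ⟨fun _ => Or.inl (z.up a ha), fun _ => Or.inl (z.up a ha)⟩
    · rw [k2] at hee
      have hye : y.e = true := top_le_iff.1 hee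
      refine ⟨b, b, hb, heq ▸ hb, fun z hz t ht => ?_⟩
      rw [nb_R k1 k2] at hz
      rw [nb_R (heq ▸ k1) hye] at ht
      subst hz
      subst ht
      exact nb_mem (by rw [hgi]; exact hb)
  · -- `x = (⊤, true)`
    rcases lev_le.1 hl with hlt | ⟨heq, hee⟩
    · exact absurd hlt (by rw [k1]; exact not_top_lt)
    · rw [k2] at hee
      have hye : y.e = true := top_le_iff.1 hee
      refine ⟨b, b, hb, heq ▸ hb, fun z hz t ht => ?_⟩
      rw [nb_P k1 k2] at hz
      rw [nb_P (heq ▸ k1) hye] at ht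
      rw [nb_P (hgi.trans k1) (hei.trans k2), hAi, A_inf]
      obtain ⟨h1, h2, h3⟩ := hz
      obtain ⟨h4, h5, h6⟩ := ht
      refine ⟨h1.union h4, ?_, ?_⟩
      · rw [g_inf, h2, h5]
        exact min_self _
      · by_cases hzt : lev z ≤ lev t
        · rw [inf_of_le hzt]
          exact h3
        · rw [inf_of_not_le hzt]
          exact h6
  · -- `x = (⊤, false)`
    have hy : y.g = ⊤ := top_le_iff.1 (k1 ▸ hg)
    refine ⟨b, b, hb, by rw [hy]; exact WithTop.coe_lt_top b, fun z hz t ht => ?_⟩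
    have hby : (b : WithTop W) < y.g := by rw [hy]; exact WithTop.coe_lt_top b
    rw [nb_Q k1 k2] at hz
    obtain ⟨h1, h2, h3⟩ := hz
    have h4 := g_of_nb hby ht
    have h5 := agree_of_nb ht
    rw [nb_Q (hgi.trans k1) (hei.trans k2), hAi, A_inf]
    refine ⟨?_, h2.union h5, ?_⟩
    · rw [g_inf]
      exact lt_min h1 h4
    · -- the condition on levels
      have h6 : t.g ≠ ⊤ → t.e = true := by
        intro htop
        rcases kinds y with ⟨l1, l2⟩ | ⟨l1, l2⟩ | ⟨l1, l2⟩ | ⟨l1, l2⟩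
        · exact absurd hy l1
        · rw [nb_P l1 l2] at ht
          exact absurd ht.2.1 htop
        · rw [nb_Q l1 l2] at ht
          by_contra hcon
          rw [Bool.not_eq_true] at hcon
          exact htop (ht.2.2.2 hcon)
        · exact absurd hy l1
      by_cases hzt : lev z ≤ lev t
      · rw [inf_of_le hzt]
        exact h3
      · rw [inf_of_not_le hzt]
        show t.g = ⊤ ↔ t.e = false
        constructor
        · intro htg
          have h7 := g_le_of_lev (le_of_not_ge hzt)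
          have h8 : z.g = ⊤ := top_le_iff.1 (htg ▸ h7)
          have h9 := h3.1 h8
          by_contra hcon
          refine hzt (lev_le.2 (Or.inr ⟨h8.trans htg.symm, ?_⟩))
          rw [h9]
          exact Bool.false_le _
        · intro hte
          by_contra hcon
          rw [h6 hcon] at hte
          exact Bool.noConfusion hte
  · -- `x = (c, false)`
    by_cases hfin : {a ∈ x.A ∪ y.A | (a : WithTop W) < x.g}.Finite
    · obtain ⟨m, hm1, hm2, hm3⟩ := exists_bound x hfin (fun a ha => ha.2) b hb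
      refine ⟨m, m, hm2, lt_of_lt_of_le hm2 hg, fun z hz t ht => ?_⟩
      have hmy : (m : WithTop W) < y.g := lt_of_lt_of_le hm2 hg
      have hbm : (b : WithTop W) ≤ m := WithTop.coe_le_coe.2 hm1
      rw [nb_T k1 k2] at hz
      obtain ⟨h1, h2, h3, h4⟩ := hz
      have h5 := g_of_nb hmy ht
      have h6 := agree_of_nb ht
      rw [nb_T (hgi ▸ k1) (hei.trans k2), hAi, A_inf, hgi, g_inf]
      refine ⟨lt_of_le_of_lt hbm (lt_min h1 h5), (h2.union h6).mono hm1, ?_, ?_⟩
      · rcases h3 with ⟨a, ha, hba, hax⟩ | h3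
        · exact Or.inl ⟨a, Or.inl ha, hm1.trans hba, hax⟩
        · exact Or.inr (le_trans (min_le_left _ _) h3)
      · rintro ⟨h7, h8, h9⟩
        -- no point of the sets in `[m, c)`
        have hno : ∀ a ∈ z.A, m ≤ a → ¬ (a : WithTop W) < x.g := by
          intro a ha hma hax
          have : a ∈ x.A ∪ y.A := by
            rw [← h9]
            exact Or.inl ha
          exact absurd (hm3 a ⟨this, hax⟩) (not_lt.2 hma)
        have hzg : z.g ≤ x.g := by
          rcases h3 with ⟨a, ha, hba, hax⟩ | h3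
          · exact absurd hax (hno a ha hba)
          · exact h3
        have hzx : z.g = x.g := le_antisymm hzg (h7 ▸ min_le_left _ _)
        have hze : z.e = true := by
          by_cases hzt : lev z ≤ lev t
          · rw [inf_of_le hzt] at h8
            exact h8
          · rw [inf_of_not_le hzt] at h8
            have h8' : t.e = true := h8
            have h10 : t.g ≤ z.g := g_le_of_lev (le_of_not_ge hzt)
            have h11 : z.g ≤ t.g := by
              rw [hzx, ← h7]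
              exact min_le_right _ _
            exfalso
            refine hzt (lev_le.2 (Or.inr ⟨le_antisymm h11 h10, ?_⟩))
            rw [h8']
            exact Bool.le_true _
        refine h4 ⟨hzx, hze, A_sub_ext hzx fun a ha => ?_⟩
        by_cases ham : a < m
        · exact h2 a ham
        · rw [not_lt] at ham
          rw [hzx] at ha
          refine ⟨fun h => absurd ha (hno a h ham), fun h => ?_⟩
          exact absurd (hm3 a ⟨Or.inl h, ha⟩) (not_lt.2 ham)
    · refine ⟨b, b, hb, lt_of_lt_of_le hb hg, fun z hz t ht => ?_⟩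
      have hby : (b : WithTop W) < y.g := lt_of_lt_of_le hb hg
      rw [nb_T k1 k2] at hz
      obtain ⟨h1, h2, h3, h4⟩ := hz
      have h5 := g_of_nb hby ht
      have h6 := agree_of_nb ht
      rw [nb_T (hgi ▸ k1) (hei.trans k2), hAi, A_inf, hgi, g_inf]
      refine ⟨lt_min h1 h5, h2.union h6, ?_, ?_⟩
      · rcases h3 with ⟨a, ha, hba, hax⟩ | h3
        · exact Or.inl ⟨a, Or.inl ha, hba, hax⟩
        · exact Or.inr (le_trans (min_le_left _ _) h3)
      · rintro ⟨h7, h8, h9⟩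
        have h10 := (z ⊓ t).fin h8
        rw [A_inf, h9, g_inf, h7] at h10
        exact hfin h10

theorem mulN (x y : Y) (b : W) (hb : N.ok b (x ⊓ y)) :
    ∃ m₁ m₂, N.ok m₁ x ∧ N.ok m₂ y ∧ ∀ z ∈ N.nb m₁ x, ∀ t ∈ N.nb m₂ y,
      z ⊓ t ∈ N.nb b (x ⊓ y) := by
  have hb' : (b : WithTop W) < (x ⊓ y).g := hb
  rcases le_total (lev x) (lev y) with h | h
  · rw [g_inf, min_eq_left (g_le_of_lev h)] at hb'
    exact mul_aux x y h b hb'
  · rw [g_inf, min_eq_right (g_le_of_lev h)] at hb'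
    obtain ⟨m₂, m₁, h2, h1, h3⟩ := mul_aux y x h b hb'
    refine ⟨m₁, m₂, h1, h2, fun z hz t ht => ?_⟩
    rw [inf_comm z t, inf_comm x y]
    exact h3 t ht z hz

end Pool.Agent.X195.KC
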