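import Pool.Agent.X195.KC2

/-!
# Completeness of maximal chains (MP_97d10c_gt)
-/

set_option autoImplicit false

open Filter Topology

namespace Pool.Agent.X195.KC

open Pool.Agent.X195.MC (W exists_gt_countable)
open Y

/-- a locally finite subset of `W` is finite -/
theorem finite_of_locally {B : Set W} (h : ∀ b : W, (B ∩ Set.Iio b).Finite) : B.Finite := by
  by_contra hinf
  have hinf : B.Infinite := hinf
  let φ : ℕ ↪ B := Set.Infinite.natEmbedding B hinf
  obtain ⟨b, hb⟩ := exists_gt_countable (Set.range fun n => (φ n : W)) (Set.countable_range _)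
  have hsub : Set.range (fun n => (φ n : W)) ⊆ B ∩ Set.Iio b := by
    rintro _ ⟨n, rfl⟩
    exact ⟨(φ n).2, hb _ ⟨n, rfl⟩⟩
  refine (Set.infinite_range_of_injective ?_) ((h b).subset hsub)
  intro m n hmn
  exact φ.injective (Subtype.ext hmn)

/-- in a downward directed family, a finite subset of the union is in one member -/
theorem exists_sup {S : Set Y} (hS : IsChain (· ≤ ·) S) {x₀ : Y} (hx₀ : x₀ ∈ S) {T : Set W}
    (hT : T.Finite) (h : T ⊆ ⋃ x ∈ S, x.A) : ∃ x ∈ S, x ≤ x₀ ∧ T ⊆ x.A := by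
  induction T, hT using Set.Finite.induction_on with
  | empty => exact ⟨x₀, hx₀, le_rfl, Set.empty_subset _⟩
  | @insert a T _ _ ih =>
    obtain ⟨x, hx, hxx, hTx⟩ := ih fun a' ha' => h (Set.mem_insert_of_mem a ha')
    obtain ⟨y, hy, hay⟩ := Set.mem_iUnion₂.1 (h (Set.mem_insert a T))
    rcases hS.total hx hy with hxy | hxy
    · refine ⟨x, hx, hxx, ?_⟩
      rintro t (rfl | ht)
      · exact (le_iff.1 hxy).2 hay
      · exact hTx ht
    · refine ⟨y, hy, hxy.trans hxx, ?_⟩
      rintro t (rfl | ht)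
      · exact hay
      · exact (le_iff.1 hxy).2 (hTx ht)

/-- infima of chains -/
theorem inf_chain (S : Set Y) (hne : S.Nonempty) (hS : IsChain (· ≤ ·) S) :
    ∃ i, IsGLB S i ∧ i ∈ @closure Y N.top S := by
  by_cases hmin : ∃ i ∈ S, ∀ x ∈ S, i ≤ x
  · obtain ⟨i, hi, hi2⟩ := hmin
    exact ⟨i, ⟨hi2, fun z hz => hz hi⟩, @subset_closure Y N.top S i hi⟩
  -- an element of minimal level
  obtain ⟨x₀, hx₀, hlmin⟩ : ∃ x₀ ∈ S, ∀ x ∈ S, lev x₀ ≤ lev x := by
    have hne' : (lev '' S).Nonempty := hne.image _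
    obtain ⟨l, ⟨x₀, hx₀, hl⟩, hmin⟩ := wellFounded_lt.has_min (lev '' S) hne'
    exact ⟨x₀, hx₀, fun x hx => not_lt.1 (hl ▸ hmin _ ⟨x, hx, rfl⟩)⟩
  have hlev : ∀ x ∈ S, x ≤ x₀ → lev x = lev x₀ := fun x hx h =>
    le_antisymm (le_iff.1 h).1 (hlmin x hx)
  have hgeq : ∀ x ∈ S, x ≤ x₀ → x.g = x₀.g := fun x hx h =>
    le_antisymm (g_mono h) (g_le_of_lev (hlmin x hx))
  set B : Set W := ⋃ x ∈ S, x.A with hB
  have hsub : ∀ x ∈ S, x.A ⊆ B := fun x hx => Set.subset_biUnion_of_mem (u := fun x : Y => x.A) hx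
  have hBinf : ¬ {a ∈ B | (a : WithTop W) < x₀.g}.Finite := by
    intro hfin
    obtain ⟨x, hx, hxx, hT⟩ := exists_sup hS hx₀ hfin fun a ha => ha.1
    refine hmin ⟨x, hx, fun z hz => ?_⟩
    rcases hS.total hx hz with h | h
    · exact h
    · refine le_iff.2 ⟨by rw [hlev x hx hxx, hlev z hz (h.trans hxx)], fun a ha => ?_⟩
      by_cases hax : (a : WithTop W) < x₀.g
      · exact hT ⟨hsub z hz ha, hax⟩
      · rw [not_lt, ← hgeq x hx hxx] at hax
        exact x.up a hax
  -- the least cut below which `B` is infinite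
  obtain ⟨c, hc, hcmin⟩ : ∃ c : WithTop W, ¬ {a ∈ B | (a : WithTop W) < c}.Finite ∧
      ∀ c' < c, {a ∈ B | (a : WithTop W) < c'}.Finite := by
    obtain ⟨c, hc, hmin⟩ := wellFounded_lt.has_min
      {c : WithTop W | ¬ {a ∈ B | (a : WithTop W) < c}.Finite} ⟨x₀.g, hBinf⟩
    exact ⟨c, hc, fun c' hc' => by_contra fun h => hmin c' h hc'⟩
  have hcx : c ≤ x₀.g := by
    by_contra hcon
    exact hBinf (hcmin _ (not_le.1 hcon))
  have hctop : c ≠ ⊤ := by
    rintro rfl
    have : B.Finite := finite_of_locally fun b => by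
      refine (hcmin b (WithTop.coe_lt_top b)).subset ?_
      rintro a ⟨ha, hab⟩
      exact ⟨ha, WithTop.coe_lt_coe.2 hab⟩
    exact hc (this.subset fun a ha => ha.1)
  have hlf : ∀ b : W, (b : WithTop W) < c → (B ∩ Set.Iio b).Finite := fun b hb => by
    refine (hcmin b hb).subset ?_
    rintro a ⟨ha, hab⟩
    exact ⟨ha, WithTop.coe_lt_coe.2 hab⟩
  have hex : ∀ b : W, (b : WithTop W) < c → ∃ a ∈ B, b ≤ a ∧ (a : WithTop W) < c := by
    intro b hb
    by_contra hcon
    push Not at hcon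
    refine hc ((hlf b hb).subset ?_)
    rintro a ⟨ha, hac⟩
    refine ⟨ha, ?_⟩
    by_contra hab
    exact absurd hac (not_lt.2 (hcon a ha (not_lt.1 hab)))
  have hlim : (∃ b : W, (b : WithTop W) < c) ∧
      ∀ b : W, (b : WithTop W) < c → ∃ b' : W, b < b' ∧ (b' : WithTop W) < c := by
    constructor
    · by_contra hcon
      push Not at hcon
      refine hc ?_
      convert Set.finite_empty (α := W)
      ext a
      simp only [Set.mem_ofPred_eq, Set.mem_empty_iff_false, iff_false, not_and]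
      exact fun _ => not_lt.2 (hcon a)
    · intro b hb
      by_contra hcon
      push Not at hcon
      refine hc (((hlf b hb).union (Set.finite_singleton b)).subset ?_)
      rintro a ⟨ha, hac⟩
      rcases lt_trichotomy a b with h | h | h
      · exact Or.inl ⟨ha, h⟩
      · exact Or.inr h
      · exact absurd hac (not_lt.2 (hcon a h))
  let i : Y :=
    { g := c
      e := false
      A := B ∪ {a | c ≤ (a : WithTop W)}
      lim := hlim
      up := fun a ha => Or.inr ha
      lf := fun b hb => by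
        refine (hlf b hb).subset ?_
        rintro a ⟨ha | ha, hab⟩
        · exact ⟨ha, hab⟩
        · exact absurd (lt_of_le_of_lt ha (lt_trans (WithTop.coe_lt_coe.2 hab) hb)) (lt_irrefl _)
      fin := fun h => Bool.noConfusion h }
  have hil : lev i ≤ lev x₀ := by
    rcases hcx.lt_or_eq with h | h
    · exact lev_le.2 (Or.inl h)
    · exact lev_le.2 (Or.inr ⟨h, Bool.false_le _⟩)
  refine ⟨i, ⟨fun x hx => le_iff.2 ⟨hil.trans (hlmin x hx), fun a ha => Or.inl (hsub x hx ha)⟩,
    fun l hl => ?_⟩, ?_⟩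
  · have hBl : B ⊆ l.A := by
      intro a ha
      obtain ⟨x, hx, hax⟩ := Set.mem_iUnion₂.1 ha
      exact (le_iff.1 (hl hx)).2 hax
    have hlc : l.g ≤ c := by
      by_contra hcon
      rw [not_le] at hcon
      obtain ⟨d, hd⟩ := WithTop.ne_top_iff_exists.1 hctop
      refine hc ((l.lf d (hd ▸ hcon)).subset ?_)
      rintro a ⟨ha, hac⟩
      rw [← hd] at hac
      exact ⟨hBl ha, WithTop.coe_lt_coe.1 hac⟩
    refine le_iff.2 ⟨?_, ?_⟩
    · rcases hlc.lt_or_eq with h | h
      · exact lev_le.2 (Or.inl h)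
      · refine lev_le.2 (Or.inr ⟨h, ?_⟩)
        cases hle : l.e
        · exact le_rfl
        · exfalso
          refine hc ((l.fin hle).subset ?_)
          rintro a ⟨ha, hac⟩
          exact ⟨hBl ha, h ▸ hac⟩
    · rintro a (ha | ha)
      · exact hBl ha
      · exact l.up a (hlc.trans ha)
  · refine N.mem_closure.2 fun b hb => ?_
    have hb' : (b : WithTop W) < c := hb
    obtain ⟨a₁, ha₁, hba₁, hac₁⟩ := hex b hb'
    obtain ⟨x, hx, hxx, hT⟩ := exists_sup hS hx₀ (T := (B ∩ Set.Iio b) ∪ {a₁})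
      ((hlf b hb').union (Set.finite_singleton a₁)) (by
        rintro a (ha | rfl)
        · exact ha.1
        · exact ha₁)
    refine ⟨x, hx, ?_⟩
    rw [N_nb, nb_T hctop rfl]
    refine ⟨?_, fun a hab => ⟨fun ha => Or.inl (hsub x hx ha), ?_⟩,
      Or.inl ⟨a₁, hT (Or.inr rfl), hba₁, hac₁⟩, ?_⟩
    · rw [hgeq x hx hxx]
      exact lt_of_lt_of_le hb' hcx
    · rintro (ha | ha)
      · exact hT (Or.inl ⟨ha, hab⟩)
      · exact absurd (lt_of_le_of_lt ha (lt_trans (WithTop.coe_lt_coe.2 hab) hb')) (lt_irrefl _)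
    · rintro ⟨h1, h2, h3⟩
      refine hc ((x.fin h2).subset ?_)
      rintro a ⟨ha, hac⟩
      refine ⟨?_, h1 ▸ hac⟩
      rw [h3]
      exact Or.inl ha

/-- the facts about a chain without maximum -/
theorem sup_facts (S : Set Y) (hne : S.Nonempty) (hS : IsChain (· ≤ ·) S)
    (hmax : ¬ ∃ i ∈ S, ∀ x ∈ S, x ≤ i) :
    ∃ s : Y, IsLUB S s ∧ s.e = false ∧ (∀ x ∈ S, lev x ≤ lev s) ∧
      (∀ b : W, (b : WithTop W) < s.g → ∃ x ∈ S, (b : WithTop W) < x.g ∧ agree b x.A s.A) ∧
      (s.g = ⊤ → ∀ x ∈ S, x.g ≠ ⊤) := by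
  -- the supremum of the cuts
  obtain ⟨c, hc, hcmin⟩ : ∃ c : WithTop W, (∀ x ∈ S, x.g ≤ c) ∧
      ∀ c', (∀ x ∈ S, x.g ≤ c') → c ≤ c' := by
    obtain ⟨c, hc, hmin⟩ := wellFounded_lt.has_min
      {c : WithTop W | ∀ x ∈ S, x.g ≤ c} ⟨⊤, fun _ _ => le_top⟩
    exact ⟨c, hc, fun c' hc' => not_lt.1 (hmin c' hc')⟩
  have hlt : ∀ b : W, (b : WithTop W) < c → ∃ x ∈ S, (b : WithTop W) < x.g := by
    intro b hb
    by_contra hcon
    push Not at hcon
    exact absurd hb (not_lt.2 (hcmin b hcon))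
  set B : Set W := ⋂ x ∈ S, x.A with hB
  have hsub : ∀ x ∈ S, B ⊆ x.A := fun x hx => Set.biInter_subset_of_mem (t := fun x : Y => x.A) hx
  have hagree : ∀ b : W, (b : WithTop W) < c → ∃ x ∈ S, (b : WithTop W) < x.g ∧
      agree b x.A B := by
    classical
    intro b hb
    obtain ⟨x₁, hx₁, hbx₁⟩ := hlt b hb
    have hP : ∃ n : ℕ, ∃ x ∈ S, (b : WithTop W) < x.g ∧ (x.A ∩ Set.Iio b).ncard = n :=
      ⟨_, x₁, hx₁, hbx₁, rfl⟩
    obtain ⟨x, hx, hbx, hn⟩ := Nat.find_spec hP
    refine ⟨x, hx, hbx, fun a hab => ⟨fun ha => Set.mem_iInter₂.2 fun z hz => ?_,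
      fun ha => hsub x hx ha⟩⟩
    rcases hS.total hx hz with h | h
    · have h1 : z.A ∩ Set.Iio b ⊆ x.A ∩ Set.Iio b :=
        Set.inter_subset_inter_left _ (le_iff.1 h).2
      have h2 : Nat.find hP ≤ (z.A ∩ Set.Iio b).ncard :=
        Nat.find_min' hP ⟨z, hz, lt_of_lt_of_le hbx (g_mono h), rfl⟩
      have h3 := Set.eq_of_subset_of_ncard_le h1 (hn ▸ h2) (x.lf b hbx)
      have h4 : a ∈ x.A ∩ Set.Iio b := ⟨ha, hab⟩
      rw [← h3] at h4
      exact h4.1
    · exact (le_iff.1 h).2 ha
  -- no element at the top level with finite part below the cut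
  have hnofin : ∀ x ∈ S, x.g = c → ¬ {a ∈ x.A | (a : WithTop W) < c}.Finite := by
    classical
    intro x hx hxc hfin
    let μ : Y → ℕ := fun z => 2 * {a ∈ z.A | (a : WithTop W) < c}.ncard +
      (if z.e = true then 0 else 1)
    have hP : ∃ n : ℕ, ∃ z ∈ S, x ≤ z ∧ μ z = n := ⟨_, x, hx, le_rfl, rfl⟩
    obtain ⟨z, hz, hxz, hn⟩ := Nat.find_spec hP
    have hfz : ∀ t : Y, x ≤ t → {a ∈ t.A | (a : WithTop W) < c}.Finite := fun t ht =>
      hfin.subset fun a ha => ⟨(le_iff.1 ht).2 ha.1, ha.2⟩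
    refine hmax ⟨z, hz, fun t ht => ?_⟩
    rcases hS.total hz ht with h | h
    · have hxt : x ≤ t := hxz.trans h
      have h1 : Nat.find hP ≤ μ t := Nat.find_min' hP ⟨t, ht, hxt, rfl⟩
      rw [← hn] at h1
      have h2 : {a ∈ t.A | (a : WithTop W) < c} ⊆ {a ∈ z.A | (a : WithTop W) < c} :=
        fun a ha => ⟨(le_iff.1 h).2 ha.1, ha.2⟩
      have h3 := Set.ncard_le_ncard h2 (hfz z hxz)
      have hzg : z.g = c := le_antisymm (hc z hz) (hxc ▸ g_mono hxz)
      have htg : t.g = c := le_antisymm (hc t ht) (hxc ▸ g_mono hxt)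
      have h4 : z.e ≤ t.e := by
        rcases lev_le.1 (le_iff.1 h).1 with h5 | h5
        · rw [hzg, htg] at h5
          exact absurd h5 (lt_irrefl _)
        · exact h5.2
      have h5 : 2 * {a ∈ z.A | (a : WithTop W) < c}.ncard + (if z.e = true then 0 else 1) ≤
          2 * {a ∈ t.A | (a : WithTop W) < c}.ncard + (if t.e = true then 0 else 1) := h1
      have h6 : {a ∈ z.A | (a : WithTop W) < c}.ncard ≤
          {a ∈ t.A | (a : WithTop W) < c}.ncard := by
        split_ifs at h5 <;> omega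
      have h7 := Set.eq_of_subset_of_ncard_le h2 h6 (hfz z hxz)
      have h8 : t.e ≤ z.e := by
        cases hze : z.e
        · cases hte : t.e
          · exact le_rfl
          · exfalso
            rw [hze, hte, ← h7] at h5
            simp at h5
        · exact Bool.le_true _
      refine le_iff.2 ⟨lev_le.2 (Or.inr ⟨htg.trans hzg.symm, h8⟩), fun a ha => ?_⟩
      by_cases hac : (a : WithTop W) < c
      · have h9 : a ∈ {a ∈ z.A | (a : WithTop W) < c} := ⟨ha, hac⟩
        rw [← h7] at h9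
        exact h9.1
      · rw [not_lt, ← htg] at hac
        exact t.up a hac
    · exact h
  obtain ⟨x₁, hx₁⟩ := hne
  let s : Y :=
    { g := c
      e := false
      A := B
      lim := by
        refine ⟨?_, fun b hb => ?_⟩
        · obtain ⟨b, hb⟩ := x₁.lim.1
          exact ⟨b, lt_of_lt_of_le hb (hc x₁ hx₁)⟩
        · obtain ⟨x, hx, hbx⟩ := hlt b hb
          obtain ⟨b', h1, h2⟩ := x.lim.2 b hbx
          exact ⟨b', h1, lt_of_lt_of_le h2 (hc x hx)⟩
      up := fun a ha => Set.mem_iInter₂.2 fun x hx => x.up a ((hc x hx).trans ha)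
      lf := fun b hb => by
        obtain ⟨x, hx, hbx⟩ := hlt b hb
        exact (x.lf b hbx).subset (Set.inter_subset_inter_left _ (hsub x hx))
      fin := fun h => Bool.noConfusion h }
  have hlev : ∀ x ∈ S, lev x ≤ lev s := by
    intro x hx
    rcases (hc x hx).lt_or_eq with h | h
    · exact lev_le.2 (Or.inl h)
    · refine lev_le.2 (Or.inr ⟨h, ?_⟩)
      cases hxe : x.e
      · exact le_rfl
      · exfalso
        have := x.fin hxe
        rw [h] at this
        exact hnofin x hx h this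
  refine ⟨s, ⟨fun x hx => le_iff.2 ⟨hlev x hx, hsub x hx⟩, fun u hu => ?_⟩, rfl, hlev, hagree, ?_⟩
  · refine le_iff.2 ⟨?_, ?_⟩
    · have h1 : c ≤ u.g := hcmin _ fun x hx => g_mono (hu hx)
      rcases h1.lt_or_eq with h | h
      · exact lev_le.2 (Or.inl h)
      · exact lev_le.2 (Or.inr ⟨h, Bool.false_le _⟩)
    · intro a ha
      exact Set.mem_iInter₂.2 fun x hx => (le_iff.1 (hu hx)).2 ha
  · intro hs x hx hxt
    have hc' : c = ⊤ := hs
    refine hnofin x hx (hxt.trans hc'.symm) ?_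
    have : x.A.Finite := finite_of_locally fun b => x.lf b (by rw [hxt]; exact WithTop.coe_lt_top b)
    exact this.subset fun a ha => ha.1

/-- the top element -/
def yy : Y where
  g := ⊤
  e := true
  A := ∅
  lim := by
    refine ⟨?_, fun b _ => ?_⟩
    · exact ⟨Classical.arbitrary W, WithTop.coe_lt_top _⟩
    · obtain ⟨b', hb'⟩ := exists_gt b
      exact ⟨b', hb', WithTop.coe_lt_top _⟩
  up := fun a ha => absurd (WithTop.coe_lt_top a) (not_lt.2 ha)
  lf := fun b _ => by
    rw [Set.empty_inter]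
    exact Set.finite_empty
  fin := fun _ => Set.finite_empty.subset fun a ha => ha.1

theorem le_yy (x : Y) : x ≤ yy := by
  refine le_iff.2 ⟨?_, Set.empty_subset _⟩
  rcases (le_top : x.g ≤ ⊤).lt_or_eq with h | h
  · exact lev_le.2 (Or.inl h)
  · exact lev_le.2 (Or.inr ⟨h, Bool.le_true _⟩)

/-- suprema of subchains of a maximal chain -/
theorem sup_chain (M : Set Y) (hM : IsChain (· ≤ ·) M)
    (hmaxM : ∀ x, x ≠ yy → (∀ y ∈ M, x ≤ y ∨ y ≤ x) → x ∈ M)
    (S : Set Y) (hSM : S ⊆ M) (hne : S.Nonempty) :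
    ∃ s ∈ M, IsLUB S s ∧ s ∈ @closure Y N.top {y ∈ M | ∃ x ∈ S, y ≤ x} := by
  have hS : IsChain (· ≤ ·) S := hM.mono hSM
  by_cases hmax : ∃ i ∈ S, ∀ x ∈ S, x ≤ i
  · obtain ⟨i, hi, hi2⟩ := hmax
    exact ⟨i, hSM hi, ⟨hi2, fun z hz => hz hi⟩,
      @subset_closure Y N.top _ i ⟨hSM hi, i, hi, le_rfl⟩⟩
  obtain ⟨s, hlub, hse, hlev, hagree, htop⟩ := sup_facts S hne hS hmax
  have hsM : s ∈ M := by
    refine hmaxM s ?_ fun y hy => ?_
    · rintro rfl
      exact Bool.noConfusion hse
    · by_cases h : ∃ x ∈ S, y ≤ x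
      · obtain ⟨x, hx, hyx⟩ := h
        exact Or.inr (hyx.trans (hlub.1 hx))
      · push Not at h
        exact Or.inl (hlub.2 fun x hx => (hM.total hy (hSM hx)).resolve_left (h x hx))
  refine ⟨s, hsM, hlub, N.mem_closure.2 fun b hb => ?_⟩
  have hb' : (b : WithTop W) < s.g := hb
  by_cases hsg : s.g = ⊤
  · -- the hard case: the cuts of `S` are cofinal
    have hSg := htop hsg
    -- a sequence in `S`
    have hstep : ∀ x : S, ∃ x' : S, x.1.g < x'.1.g ∧
        ∀ a : W, (a : WithTop W) < x.1.g → (a ∈ x'.1.A ↔ a ∈ s.A) := by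
      rintro ⟨x, hx⟩
      obtain ⟨c, hc⟩ := WithTop.ne_top_iff_exists.1 (hSg x hx)
      obtain ⟨x', hx', h1, h2⟩ := hagree c (by rw [hsg]; exact WithTop.coe_lt_top c)
      refine ⟨⟨x', hx'⟩, by rw [← hc]; exact h1, fun a ha => h2 a ?_⟩
      have ha' : (a : WithTop W) < x.g := ha
      rw [← hc] at ha'
      exact WithTop.coe_lt_coe.1 ha'
    choose f hf1 hf2 using hstep
    obtain ⟨x₀, hx₀, hbx₀, -⟩ := hagree b hb'
    let q : ℕ → S := fun n => f^[n] ⟨x₀, hx₀⟩
    have hq : ∀ n, q (n + 1) = f (q n) := fun n => Function.iterate_succ_apply' f n _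
    have hqs : ∀ n, ∃ c : W, (c : WithTop W) = (q n).1.g := fun n =>
      WithTop.ne_top_iff_exists.1 (hSg _ (q n).2)
    choose d hd using hqs
    have hdlt : ∀ n, d n < d (n + 1) := by
      intro n
      have := hf1 (q n)
      rw [← hq, ← hd, ← hd] at this
      exact WithTop.coe_lt_coe.1 this
    -- the supremum of the cuts of the sequence
    obtain ⟨c, hc, hcmin⟩ : ∃ c : W, (∀ n, d n < c) ∧ ∀ c' : W, (∀ n, d n ≤ c') → c ≤ c' := by
      have hne' : {c : W | ∀ n, d n < c}.Nonempty := by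
        obtain ⟨c, hc⟩ := exists_gt_countable (Set.range d) (Set.countable_range d)
        exact ⟨c, fun n => hc _ ⟨n, rfl⟩⟩
      obtain ⟨c, hc, hmin⟩ := wellFounded_lt.has_min {c : W | ∀ n, d n < c} hne'
      exact ⟨c, hc, fun c' hc' => not_lt.1 (hmin c' fun n =>
        lt_of_lt_of_le (hdlt n) (hc' (n + 1)))⟩
    have hcex : ∀ b' < c, ∃ n, b' < d n := by
      intro b' hb''
      by_contra hcon
      push Not at hcon
      exact absurd hb'' (not_lt.2 (hcmin b' hcon))
    have hBfin : s.A.Finite := finite_of_locally fun b => s.lf b (by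
      rw [hsg]
      exact WithTop.coe_lt_top b)
    let w : Y :=
      { g := (c : WithTop W)
        e := true
        A := s.A ∪ Set.Ici c
        lim := by
          refine ⟨⟨d 0, WithTop.coe_lt_coe.2 (hc 0)⟩, fun b' hb'' => ?_⟩
          obtain ⟨n, hn⟩ := hcex b' (WithTop.coe_lt_coe.1 hb'')
          exact ⟨d n, hn, WithTop.coe_lt_coe.2 (hc n)⟩
        up := fun a ha => Or.inr (WithTop.coe_le_coe.1 ha)
        lf := fun b' hb'' => by
          refine hBfin.subset ?_
          rintro a ⟨ha | ha, hab⟩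
          · exact ha
          · exact absurd (lt_of_le_of_lt ha (lt_trans hab (WithTop.coe_lt_coe.1 hb'')))
              (lt_irrefl _)
        fin := fun _ => by
          refine hBfin.subset ?_
          rintro a ⟨ha | ha, hab⟩
          · exact ha
          · exact absurd (lt_of_le_of_lt ha (WithTop.coe_lt_coe.1 hab)) (lt_irrefl _) }
    have hwg : w.g = (c : WithTop W) := rfl
    have hwA : w.A = s.A ∪ Set.Ici c := rfl
    have hwM : w ∈ M := by
      refine hmaxM w ?_ fun t ht => ?_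
      · intro h
        have : (c : WithTop W) = ⊤ := congrArg Y.g h
        exact absurd this (WithTop.coe_ne_top)
      · by_cases h : ∃ n, t ≤ (q n).1
        · obtain ⟨n, hn⟩ := h
          right
          have hgt : t.g < w.g := by
            refine lt_of_le_of_lt (g_mono hn) ?_
            rw [hwg, ← hd]
            exact WithTop.coe_lt_coe.2 (hc n)
          refine le_iff.2 ⟨(lev_lt_of_g hgt).le, ?_⟩
          rintro a (ha | ha)
          · exact (le_iff.1 (hn.trans (hlub.1 (q n).2))).2 ha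
          · refine t.up a (hgt.le.trans ?_)
            rw [hwg]
            exact WithTop.coe_le_coe.2 ha
        · push Not at h
          have h' : ∀ n, (q n).1 ≤ t := fun n =>
            (hM.total ht (hSM (q n).2)).resolve_left (h n)
          have hgt : w.g ≤ t.g := by
            by_contra hcon
            rw [not_le] at hcon
            obtain ⟨e, he⟩ := WithTop.ne_top_iff_exists.1 (ne_top_of_lt hcon)
            rw [← he, hwg] at hcon
            obtain ⟨n, hn⟩ := hcex e (WithTop.coe_lt_coe.1 hcon)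
            have := g_mono (h' n)
            rw [← he, ← hd] at this
            exact absurd hn (not_lt.2 (WithTop.coe_le_coe.1 this))
          have hAt : t.A ⊆ w.A := by
            intro a ha
            by_cases hac : a < c
            · obtain ⟨n, hn⟩ := hcex a hac
              left
              refine (hf2 (q n) a ?_).1 ?_
              · rw [← hd]
                exact WithTop.coe_lt_coe.2 hn
              · rw [← hq]
                exact (le_iff.1 (h' (n + 1))).2 ha
            · exact Or.inr (not_lt.1 hac)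
          by_cases hl : lev w ≤ lev t
          · exact Or.inl (le_iff.2 ⟨hl, hAt⟩)
          · right
            have hl' : lev t ≤ lev w := le_of_not_ge hl
            have htg : t.g = w.g := le_antisymm (g_le_of_lev hl') hgt
            have hts : t ≤ s := by
              rcases hM.total ht hsM with h1 | h1
              · exact h1
              · exfalso
                have := g_mono h1
                rw [hsg, htg, hwg] at this
                exact absurd (WithTop.coe_lt_top c) (not_lt.2 this)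
            refine le_iff.2 ⟨hl', ?_⟩
            rintro a (ha | ha)
            · exact (le_iff.1 hts).2 ha
            · refine t.up a ?_
              rw [htg, hwg]
              exact WithTop.coe_le_coe.2 ha
    obtain ⟨x, hx, hcx, hax⟩ := hagree c (by rw [hsg]; exact WithTop.coe_lt_top c)
    refine ⟨w, ⟨hwM, x, hx, le_iff.2 ⟨(lev_lt_of_g (by rw [hwg]; exact hcx)).le, ?_⟩⟩, ?_⟩
    · intro a ha
      by_cases hac : a < c
      · exact Or.inl ((hax a hac).1 ha)
      · exact Or.inr (not_lt.1 hac)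
    · rw [N_nb, nb_Q hsg hse]
      have hbc : b < c := by
        have h1 : (b : WithTop W) < (q 0).1.g := hbx₀
        rw [← hd] at h1
        exact (WithTop.coe_lt_coe.1 h1).trans (hc 0)
      refine ⟨WithTop.coe_lt_coe.2 hbc, fun a hab => ⟨?_, Or.inl⟩, ?_⟩
      · rintro (ha | ha)
        · exact ha
        · exact absurd (lt_of_le_of_lt ha (lt_trans hab hbc)) (lt_irrefl _)
      · constructor
        · intro h
          exact absurd h WithTop.coe_ne_top
        · intro h
          exact Bool.noConfusion h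
  · obtain ⟨x, hx, hbx, hax⟩ := hagree b hb'
    refine ⟨x, ⟨hSM hx, x, hx, le_rfl⟩, ?_⟩
    rw [N_nb, nb_T hsg hse]
    refine ⟨hbx, hax, Or.inr (g_le_of_lev (hlev x hx)), ?_⟩
    rintro ⟨h1, h2, -⟩
    rcases lev_le.1 (hlev x hx) with h3 | ⟨-, h3⟩
    · exact absurd h1 (ne_of_lt h3)
    · rw [h2, hse] at h3
      exact absurd h3 (by decide)

end Pool.Agent.X195.KC
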