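import Pool.Agent.X195.KC3

/-!
# The subspace without the top point (MP_97d10c_gt)
-/

set_option autoImplicit false

open Filter Topology

namespace Pool.Agent.X195.KC

open Pool.Agent.X195.MC (W exists_gt_countable)
open Y

/-- the space without the top point -/
abbrev X : Type := {x : Y // x ≠ yy}

theorem inf_ne {x y : Y} (hx : x ≠ yy) : x ⊓ y ≠ yy := fun h =>
  hx (le_antisymm (le_yy x) (h ▸ inf_le_left))

noncomputable instance : SemilatticeInf X := Subtype.semilatticeInf fun _ _ hx _ => inf_ne hx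

/-- the topology of `X` -/
noncomputable abbrev tX : TopologicalSpace X := N.top.induced Subtype.val

theorem continuousInf_X : @ContinuousInf X tX _ := by
  let _ : TopologicalSpace Y := N.top
  have hc : Continuous fun q : Y × Y => q.1 ⊓ q.2 := N.continuous₂ (fun x y => x ⊓ y) mulN
  refine ⟨continuous_induced_rng.2 ?_⟩
  have : (Subtype.val ∘ fun q : X × X => q.1 ⊓ q.2) =
      (fun q : Y × Y => q.1 ⊓ q.2) ∘ fun q : X × X => (q.1.1, q.2.1) := rfl
  rw [this]
  exact hc.comp ((continuous_subtype_val.comp continuous_fst).prodMk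
    (continuous_subtype_val.comp continuous_snd))

theorem t2_X : @T2Space X tX := by
  let _ : TopologicalSpace Y := N.top
  have _ : T2Space Y := t2N
  exact T2Space.of_injective_continuous Subtype.val_injective continuous_induced_dom

/-- the removed point is in the closure of the rest -/
theorem yy_closure : yy ∈ @closure Y N.top {x | x ≠ yy} := by
  refine N.mem_closure.2 fun b _ => ?_
  let z : Y :=
    { g := ⊤
      e := true
      A := {b}
      lim := yy.lim
      up := fun a ha => absurd (WithTop.coe_lt_top a) (not_lt.2 ha)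
      lf := fun b' _ => (Set.finite_singleton b).subset Set.inter_subset_left
      fin := fun _ => (Set.finite_singleton b).subset fun a ha => ha.1 }
  refine ⟨z, ?_, ?_⟩
  · intro h
    have h1 : z.A = yy.A := congrArg Y.A h
    have h2 : b ∈ z.A := rfl
    rw [h1] at h2
    exact h2
  · rw [N_nb, nb_P rfl rfl]
    refine ⟨fun a hab => ⟨fun ha => ?_, fun ha => absurd ha (Set.notMem_empty a)⟩, rfl, rfl⟩
    exact absurd (show a = b from ha) (ne_of_lt hab)

theorem not_closed : ¬ IsClosed[N.top] {x : Y | x ≠ yy} := by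
  intro h
  have := (@IsClosed.closure_eq Y N.top _ h) ▸ yy_closure
  exact this rfl

/-- maximal chains of `X`, seen in `Y` -/
theorem max_prop (L : Set X) (hL : IsMaxChain (· ≤ ·) L) (x : Y) (hx : x ≠ yy)
    (h : ∀ y ∈ Subtype.val '' L, x ≤ y ∨ y ≤ x) : x ∈ Subtype.val '' L := by
  have h1 : IsChain (· ≤ ·) (insert (⟨x, hx⟩ : X) L) :=
    hL.1.insert fun y hy _ => h y.1 ⟨y, hy, rfl⟩
  have h2 := hL.2 h1 (Set.subset_insert _ L)
  refine ⟨⟨x, hx⟩, ?_, rfl⟩
  rw [h2]
  exact Set.mem_insert _ L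

theorem chain_val (L : Set X) (hL : IsChain (· ≤ ·) L) :
    IsChain (· ≤ ·) (Subtype.val '' L : Set Y) := by
  rintro _ ⟨x, hx, rfl⟩ _ ⟨y, hy, rfl⟩ hxy
  exact hL hx hy fun h => hxy (h ▸ rfl)

/-- infima in maximal chains -/
theorem inf_max (L : Set X) (hL : IsMaxChain (· ≤ ·) L) (S : Set X) (hSL : S ⊆ L)
    (hne : S.Nonempty) : ∃ i ∈ L, IsGLB S i ∧ i ∈ @closure X tX S := by
  have hM := chain_val L hL.1
  have hSM : (Subtype.val '' S : Set Y) ⊆ Subtype.val '' L := Set.image_mono hSL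
  obtain ⟨i, hi, hi2⟩ := inf_chain (Subtype.val '' S) (hne.image _) (hM.mono hSM)
  obtain ⟨x, hx⟩ := hne
  have hiy : i ≠ yy := by
    rintro rfl
    exact x.2 (le_antisymm (le_yy _) (hi.1 ⟨x, hx, rfl⟩))
  have hiL : i ∈ (Subtype.val '' L : Set Y) := by
    refine max_prop L hL i hiy fun y hy => ?_
    by_cases h : ∃ z ∈ Subtype.val '' S, z ≤ y
    · obtain ⟨z, hz, hzy⟩ := h
      exact Or.inl ((hi.1 hz).trans hzy)
    · push Not at h
      exact Or.inr (hi.2 fun z hz => (hM.total hy (hSM hz)).resolve_right (h z hz))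
  obtain ⟨i', hi', rfl⟩ := hiL
  refine ⟨i', hi', ⟨fun z hz => hi.1 ⟨z, hz, rfl⟩, fun z hz => hi.2 ?_⟩, ?_⟩
  · rintro _ ⟨z', hz', rfl⟩
    exact hz hz'
  · rw [@closure_induced X Y N.top Subtype.val]
    exact hi2

/-- suprema in maximal chains -/
theorem sup_max (L : Set X) (hL : IsMaxChain (· ≤ ·) L) (S : Set X) (hSL : S ⊆ L)
    (hne : S.Nonempty) :
    ∃ i ∈ L, IsLUB S i ∧ i ∈ @closure X tX {y ∈ L | ∃ x ∈ S, y ≤ x} := by
  have hM := chain_val L hL.1
  have hSM : (Subtype.val '' S : Set Y) ⊆ Subtype.val '' L := Set.image_mono hSL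
  obtain ⟨i, hiM, hi, hi2⟩ := sup_chain (Subtype.val '' L) hM (max_prop L hL)
    (Subtype.val '' S) hSM (hne.image _)
  obtain ⟨i', hi', rfl⟩ := hiM
  refine ⟨i', hi', ⟨fun z hz => hi.1 ⟨z, hz, rfl⟩, fun z hz => hi.2 ?_⟩, ?_⟩
  · rintro _ ⟨z', hz', rfl⟩
    exact hz hz'
  · rw [@closure_induced X Y N.top Subtype.val]
    refine @closure_mono Y N.top _ _ ?_ _ hi2
    rintro y ⟨⟨y', hy', rfl⟩, _, ⟨x, hx, rfl⟩, hyx⟩
    exact ⟨y', ⟨hy', x, hx, hyx⟩, rfl⟩

end Pool.Agent.X195.KC
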