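import Mathlib

/-!
# A semilattice on `[ω₁]^{<ω} ∪ (ω₁ × {0,1}) ∪ {⊤}` (for MP_cb28d9_gt)
-/

set_option autoImplicit false

open Ordinal Cardinal Filter Topology

namespace Pool.Agent.X195.MC

noncomputable section

/-- a well-ordered set of order type `ω₁` -/
def W : Type := (ω₁ : Ordinal.{0}).ToType

instance : LinearOrder W := inferInstanceAs (LinearOrder (ω₁ : Ordinal.{0}).ToType)
instance : WellFoundedLT W := inferInstanceAs (WellFoundedLT (ω₁ : Ordinal.{0}).ToType)

theorem exists_gt_countable (s : Set W) (hs : s.Countable) : ∃ b : W, ∀ x ∈ s, x < b := by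
  have := hs.to_subtype
  let g : W → Set.Iio (ω₁ : Ordinal.{0}) := fun x => (ToType.mk (o := ω₁)).symm x
  let f : s → Ordinal.{0} := fun x => Order.succ (g x.1).1
  have hf : ∀ i, f i < ω₁ := fun i =>
    (Cardinal.isSuccLimit_omega 1).succ_lt (g i.1).2
  have h := Ordinal.iSup_lt_omega_one hf
  refine ⟨ToType.mk (o := ω₁) ⟨_, h⟩, fun x hx => ?_⟩
  have h1 : x = ToType.mk (o := ω₁) (g x) := ((ToType.mk (o := ω₁)).apply_symm_apply x).symm
  rw [h1]
  refine (ToType.mk (o := ω₁)).lt_iff_lt.2 ?_
  have h2 : (g x).1 < Order.succ (g x).1 := Order.lt_succ _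
  have h3 : (g x).1 < ⨆ i, f i := lt_of_lt_of_le h2 (Ordinal.le_iSup f ⟨x, hx⟩)
  exact h3

instance : Nonempty W := ⟨(exists_gt_countable ∅ Set.countable_empty).choose⟩

instance : NoMaxOrder W := ⟨fun a => by
  obtain ⟨b, hb⟩ := exists_gt_countable {a} (Set.countable_singleton a)
  exact ⟨b, hb a rfl⟩⟩

/-- the least strict upper bound of a countable set -/
def sp (A : Set W) : W :=
  Classical.epsilon (fun b => IsLeast {b | ∀ x ∈ A, x < b} b)

theorem sp_spec (A : Set W) (hA : A.Countable) : IsLeast {b | ∀ x ∈ A, x < b} (sp A) := by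
  apply Classical.epsilon_spec (p := fun b => IsLeast {b | ∀ x ∈ A, x < b} b)
  have hne : {b | ∀ x ∈ A, x < b}.Nonempty := exists_gt_countable A hA
  exact ⟨WellFounded.min wellFounded_lt _ hne, WellFounded.min_mem _ _ hne,
    fun x hx => not_lt.1 (WellFounded.not_lt_min wellFounded_lt _ hx)⟩

theorem lt_sp {A : Set W} (hA : A.Countable) {x : W} (hx : x ∈ A) : x < sp A :=
  (sp_spec A hA).1 x hx

theorem sp_le {A : Set W} (hA : A.Countable) {b : W} (h : ∀ x ∈ A, x < b) : sp A ≤ b :=
  (sp_spec A hA).2 h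

/-- `sup⁺ F` for a finite set -/
def rho (F : Finset W) : W := sp (F : Set W)

theorem lt_rho {F : Finset W} {x : W} (hx : x ∈ F) : x < rho F :=
  lt_sp (Finset.countable_toSet F) hx

theorem rho_le {F : Finset W} {b : W} (h : ∀ x ∈ F, x < b) : rho F ≤ b :=
  sp_le (Finset.countable_toSet F) h

theorem rho_mono {F G : Finset W} (h : F ⊆ G) : rho F ≤ rho G :=
  rho_le fun _ hx => lt_rho (h hx)

theorem rho_union (F G : Finset W) : rho (F ∪ G) = max (rho F) (rho G) := by
  apply le_antisymm
  · refine rho_le fun x hx => ?_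
    rcases Finset.mem_union.1 hx with h | h
    · exact lt_max_of_lt_left (lt_rho h)
    · exact lt_max_of_lt_right (lt_rho h)
  · exact max_le (rho_mono Finset.subset_union_left) (rho_mono Finset.subset_union_right)

/-- the well-ordered set `ω₁ × {0,1} ∪ {⊤}` -/
abbrev C0 : Type := WithTop (W ×ₗ Bool)

/-- its order topology -/
abbrev ordTop : TopologicalSpace C0 := Preorder.topology C0

/-- the same ordered set, to be given a finer topology -/
def C : Type := C0

instance : LinearOrder C := inferInstanceAs (LinearOrder C0)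
instance : OrderTop C := inferInstanceAs (OrderTop C0)
instance : WellFoundedLT C := inferInstanceAs (WellFoundedLT C0)

/-- the even element `(δ, 0)` -/
def ev (d : W) : C := ((toLex (d, false) : W ×ₗ Bool) : C0)
/-- the odd element `(α, 1)` -/
def od (d : W) : C := ((toLex (d, true) : W ×ₗ Bool) : C0)

theorem C_cases (x : C) : (∃ d, x = ev d) ∨ (∃ d, x = od d) ∨ x = ⊤ := by
  rcases x with _ | p
  · exact Or.inr (Or.inr rfl)
  · obtain ⟨d, b⟩ := p
    cases b
    · exact Or.inl ⟨d, rfl⟩
    · exact Or.inr (Or.inl ⟨d, rfl⟩)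

theorem ev_le_ev {a b : W} : ev a ≤ ev b ↔ a ≤ b := by
  have : ev a ≤ ev b ↔ (toLex (a, false) : W ×ₗ Bool) ≤ toLex (b, false) := WithTop.coe_le_coe
  rw [this, Prod.Lex.toLex_le_toLex]
  simp [le_iff_lt_or_eq]

theorem ev_lt_ev {a b : W} : ev a < ev b ↔ a < b := by
  rw [← not_le, ← not_le, ev_le_ev]

theorem od_le_od {a b : W} : od a ≤ od b ↔ a ≤ b := by
  have : od a ≤ od b ↔ (toLex (a, true) : W ×ₗ Bool) ≤ toLex (b, true) := WithTop.coe_le_coe
  rw [this, Prod.Lex.toLex_le_toLex]
  simp [le_iff_lt_or_eq]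

theorem od_lt_od {a b : W} : od a < od b ↔ a < b := by
  rw [← not_le, ← not_le, od_le_od]

theorem ev_lt_od {a b : W} : ev a < od b ↔ a ≤ b := by
  have : ev a < od b ↔ (toLex (a, false) : W ×ₗ Bool) < toLex (b, true) := WithTop.coe_lt_coe
  rw [this, Prod.Lex.toLex_lt_toLex]
  simp [le_iff_lt_or_eq]

theorem od_lt_ev {a b : W} : od a < ev b ↔ a < b := by
  have : od a < ev b ↔ (toLex (a, true) : W ×ₗ Bool) < toLex (b, false) := WithTop.coe_lt_coe
  rw [this, Prod.Lex.toLex_lt_toLex]
  simp

theorem ev_lt_top (a : W) : ev a < (⊤ : C) := WithTop.coe_lt_top _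
theorem od_lt_top (a : W) : od a < (⊤ : C) := WithTop.coe_lt_top _

theorem ev_mono : Monotone ev := fun _ _ h => ev_le_ev.2 h

theorem ev_inj {a b : W} (h : ev a = ev b) : a = b :=
  le_antisymm (ev_le_ev.1 h.le) (ev_le_ev.1 h.ge)

/-- the parity -/
def par : C → Bool := fun x => match (x : C0) with
  | none => true
  | some p => (ofLex p).2

@[simp] theorem par_ev (a : W) : par (ev a) = false := rfl
@[simp] theorem par_od (a : W) : par (od a) = true := rfl
@[simp] theorem par_top : par (⊤ : C) = true := rfl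

instance instTopC : TopologicalSpace C :=
  (Preorder.topology C) ⊓ TopologicalSpace.induced par ⊥

theorem nhds_C (x : C) : 𝓝 x = @nhds C (Preorder.topology C) x ⊓ comap par (pure (par x)) := by
  have h := nhds_inf (t₁ := Preorder.topology C) (t₂ := TopologicalSpace.induced par ⊥) (a := x)
  rw [nhds_induced] at h
  have h2 : @nhds Bool ⊥ (par x) = pure (par x) := @nhds_discrete Bool ⊥ ⟨rfl⟩ ▸ rfl
  rw [h2] at h
  exact h

instance : OrderClosedTopology C := by
  refine ⟨?_⟩
  have h0 : @OrderClosedTopology C (Preorder.topology C) _ := by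
    let _ : TopologicalSpace C := Preorder.topology C
    have _ : OrderTopology C := ⟨rfl⟩
    infer_instance
  have h := @OrderClosedTopology.isClosed_le' C (Preorder.topology C) _ h0
  have hle : instTopC ≤ Preorder.topology C := inf_le_left
  have hle2 : (@instTopologicalSpaceProd C C instTopC instTopC) ≤
      @instTopologicalSpaceProd C C (Preorder.topology C) (Preorder.topology C) :=
    inf_le_inf (induced_mono hle) (induced_mono hle)
  exact IsClosed.mono h hle2

/-- the parity is continuous -/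
theorem continuous_par : Continuous par := by
  rw [continuous_iff_le_induced]
  exact inf_le_right

theorem tendsto_C {ι : Type} [Preorder ι] {u : ι → C} {x : C} (hu : Monotone u)
    (hx : IsLUB (Set.range u) x) (hp : ∀ i, par (u i) = par x) : Tendsto u atTop (𝓝 x) := by
  rw [nhds_C, tendsto_inf, tendsto_comap_iff]
  refine ⟨?_, ?_⟩
  · let _ : TopologicalSpace C := Preorder.topology C
    have _ : OrderTopology C := ⟨rfl⟩
    exact tendsto_atTop_isLUB hu hx
  · have : par ∘ u = fun _ => par x := funext hp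
    rw [this]
    exact tendsto_const_pure

theorem mem_closure_C {A : Set C} {x : C} (hne : A.Nonempty) (hx : IsLUB A x)
    (hp : ∀ y ∈ A, par y = par x) : x ∈ closure A := by
  have : Nonempty A := hne.to_subtype
  have h : Tendsto (Subtype.val : A → C) atTop (𝓝 x) := by
    refine tendsto_C (u := (Subtype.val : A → C)) (fun _ _ h => h) ?_ (fun i => hp i.1 i.2)
    rwa [Subtype.range_val]
  exact mem_closure_of_tendsto h (Eventually.of_forall fun i => i.2)

/-- a limit element of `C` is in the closure of any final segment below it -/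
theorem lim_closure {x₀ m : C} (h0 : x₀ < m) (hl : ∀ x < m, ∃ x', x < x' ∧ x' < m) :
    m ∈ closure {x | x₀ ≤ x ∧ x < m} := by
  rcases C_cases m with ⟨d, rfl⟩ | ⟨d, rfl⟩ | rfl
  · have hA : ∀ x < ev d, ∃ e, x < ev e ∧ e < d := by
      intro x hx
      have : ∃ e, x ≤ od e ∧ e < d := by
        rcases C_cases x with ⟨e, rfl⟩ | ⟨e, rfl⟩ | rfl
        · exact ⟨e, (ev_lt_od.2 le_rfl).le, ev_lt_ev.1 hx⟩
        · exact ⟨e, le_rfl, od_lt_ev.1 hx⟩
        · exact absurd hx (not_lt.2 le_top)
      obtain ⟨e, h1, h2⟩ := this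
      obtain ⟨y, h3, h4⟩ := hl (od e) (od_lt_ev.2 h2)
      rcases C_cases y with ⟨f, rfl⟩ | ⟨f, rfl⟩ | rfl
      · exact ⟨f, lt_of_le_of_lt h1 h3, ev_lt_ev.1 h4⟩
      · exact ⟨f, lt_of_le_of_lt h1 (od_lt_ev.2 (od_lt_od.1 h3)), od_lt_ev.1 h4⟩
      · exact absurd h4 (not_lt.2 le_top)
    have hsub : {x | ∃ e, x = ev e ∧ x₀ ≤ x ∧ x < ev d} ⊆ {x | x₀ ≤ x ∧ x < ev d} := by
      rintro x ⟨e, -, h⟩
      exact h
    refine closure_mono hsub (mem_closure_C ?_ ⟨?_, ?_⟩ ?_)
    · obtain ⟨e, h1, h2⟩ := hA x₀ h0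
      exact ⟨ev e, e, rfl, h1.le, ev_lt_ev.2 h2⟩
    · rintro x ⟨e, -, -, h⟩
      exact h.le
    · intro u hu
      by_contra hcon
      rw [not_le] at hcon
      obtain ⟨e, h1, h2⟩ := hA (max u x₀) (max_lt hcon h0)
      have := hu ⟨e, rfl, (lt_of_le_of_lt (le_max_right _ _) h1).le, ev_lt_ev.2 h2⟩
      exact absurd this (not_le.2 (lt_of_le_of_lt (le_max_left _ _) h1))
    · rintro x ⟨e, rfl, -⟩
      rfl
  · exfalso
    obtain ⟨y, h3, h4⟩ := hl (ev d) (ev_lt_od.2 le_rfl)
    rcases C_cases y with ⟨f, rfl⟩ | ⟨f, rfl⟩ | rfl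
    · exact absurd (ev_lt_od.1 h4) (not_le.2 (ev_lt_ev.1 h3))
    · exact absurd (ev_lt_od.1 h3) (not_le.2 (od_lt_od.1 h4))
    · exact absurd h4 (not_lt.2 le_top)
  · have hA : ∀ x < (⊤ : C), ∃ e, x < od e := by
      intro x hx
      rcases C_cases x with ⟨e, rfl⟩ | ⟨e, rfl⟩ | rfl
      · exact ⟨e, ev_lt_od.2 le_rfl⟩
      · obtain ⟨f, hf⟩ := exists_gt e
        exact ⟨f, od_lt_od.2 hf⟩
      · exact absurd hx (lt_irrefl _)
    have hsub : {x | ∃ e, x = od e ∧ x₀ ≤ x ∧ x < ⊤} ⊆ {x | x₀ ≤ x ∧ x < ⊤} := by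
      rintro x ⟨e, -, h⟩
      exact h
    refine closure_mono hsub (mem_closure_C ?_ ⟨?_, ?_⟩ ?_)
    · obtain ⟨e, h1⟩ := hA x₀ h0
      exact ⟨od e, e, rfl, h1.le, od_lt_top e⟩
    · rintro x ⟨e, -, -, h⟩
      exact h.le
    · intro u hu
      by_contra hcon
      rw [not_le] at hcon
      obtain ⟨e, h1⟩ := hA (max u x₀) (max_lt hcon h0)
      have := hu ⟨e, rfl, (lt_of_le_of_lt (le_max_right _ _) h1).le, od_lt_top e⟩
      exact absurd this (not_le.2 (lt_of_le_of_lt (le_max_left _ _) h1))
    · rintro x ⟨e, rfl, -⟩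
      rfl

/-- every set in `C` has a least upper bound -/
theorem exists_lub (T : Set C) : ∃ m, IsLUB T m := by
  have hne : (upperBounds T).Nonempty := ⟨⊤, fun _ _ => le_top⟩
  exact ⟨WellFounded.min wellFounded_lt _ hne, WellFounded.min_mem _ _ hne,
    fun x hx => not_lt.1 (WellFounded.not_lt_min wellFounded_lt _ hx)⟩

/-! ## The semilattice -/

/-- the space -/
inductive X : Type
  | s (F : Finset W)
  | c (x : C)

/-- the embedding into a product -/
def emb : X → Cᵒᵈ × (Finset W → Bool)
  | X.s F => (OrderDual.toDual (ev (rho F)), fun K => decide (F ⊆ K))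
  | X.c x => (OrderDual.toDual x, fun _ => false)

theorem emb_injective : Function.Injective emb := by
  rintro (F | x) (G | y) h
  · have h2 := congrArg Prod.snd h
    have h3 := congrFun h2 F
    have h4 := congrFun h2 G
    simp only [emb, Finset.Subset.refl, decide_true] at h3 h4
    rw [Finset.Subset.antisymm (of_decide_eq_true h4) (of_decide_eq_true h3.symm)]
  · have h2 := congrFun (congrArg Prod.snd h) F
    simp [emb] at h2
  · have h2 := congrFun (congrArg Prod.snd h) G
    simp [emb] at h2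
  · have h2 := congrArg Prod.fst h
    have h3 : x = y := h2
    rw [h3]

instance : LE X := ⟨fun x y => emb x ≤ emb y⟩
instance : LT X := ⟨fun x y => emb x < emb y⟩
instance : Min X := ⟨fun x y => match x, y with
  | X.s F, X.s G => X.s (F ∪ G)
  | X.s F, X.c y => X.c (max (ev (rho F)) y)
  | X.c x, X.s G => X.c (max x (ev (rho G)))
  | X.c x, X.c y => X.c (max x y)⟩

theorem emb_inf (x y : X) : emb (x ⊓ y) = emb x ⊓ emb y := by
  rcases x with F | x <;> rcases y with G | y
  · refine Prod.ext ?_ ?_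
    · show OrderDual.toDual (ev (rho (F ∪ G))) = _
      rw [rho_union, ev_mono.map_max]
      rfl
    · funext K
      show decide (F ∪ G ⊆ K) = (decide (F ⊆ K)) ⊓ (decide (G ⊆ K))
      by_cases h1 : F ⊆ K <;> by_cases h2 : G ⊆ K <;> simp [h1, h2, Finset.union_subset_iff]
  · refine Prod.ext rfl ?_
    funext K
    show false = (decide (F ⊆ K)) ⊓ false
    simp
  · refine Prod.ext rfl ?_
    funext K
    show false = false ⊓ (decide (G ⊆ K))
    simp
  · refine Prod.ext rfl ?_
    funext K
    show false = false ⊓ false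
    simp

instance : SemilatticeInf X :=
  emb_injective.semilatticeInf emb Iff.rfl Iff.rfl emb_inf

theorem s_inf_s (F G : Finset W) : X.s F ⊓ X.s G = X.s (F ∪ G) := rfl
theorem s_inf_c (F : Finset W) (y : C) : X.s F ⊓ X.c y = X.c (max (ev (rho F)) y) := rfl
theorem c_inf_s (x : C) (G : Finset W) : X.c x ⊓ X.s G = X.c (max x (ev (rho G))) := rfl
theorem c_inf_c (x y : C) : X.c x ⊓ X.c y = X.c (max x y) := rfl

theorem s_le_s {F G : Finset W} : X.s F ≤ X.s G ↔ G ⊆ F := by
  rw [← inf_eq_left, s_inf_s]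
  constructor
  · intro h
    injection h with h
    exact Finset.union_eq_left.1 h
  · intro h
    rw [Finset.union_eq_left.2 h]

theorem not_s_le_c {F : Finset W} {y : C} : ¬ X.s F ≤ X.c y := by
  rw [← inf_eq_left, s_inf_c]
  intro h
  injection h

theorem c_le_s {x : C} {G : Finset W} : X.c x ≤ X.s G ↔ ev (rho G) ≤ x := by
  rw [← inf_eq_left, c_inf_s]
  constructor
  · intro h
    injection h with h
    exact max_eq_left_iff.1 h
  · intro h
    rw [max_eq_left h]

theorem c_le_c {x y : C} : X.c x ≤ X.c y ↔ y ≤ x := by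
  rw [← inf_eq_left, c_inf_c]
  constructor
  · intro h
    injection h with h
    exact max_eq_left_iff.1 h
  · intro h
    rw [max_eq_left h]

instance : TopologicalSpace X := TopologicalSpace.induced emb inferInstance

theorem isInducing_emb : Topology.IsInducing emb := ⟨rfl⟩

theorem continuous_emb : Continuous emb := isInducing_emb.continuous

instance : T2Space X := T2Space.of_injective_continuous emb_injective continuous_emb

instance : ContinuousInf Bool := ⟨continuous_of_discreteTopology⟩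

instance : ContinuousInf X := by
  refine ⟨isInducing_emb.continuous_iff.2 ?_⟩
  have : (emb ∘ fun p : X × X => p.1 ⊓ p.2) = fun p : X × X => emb p.1 ⊓ emb p.2 := by
    funext p
    exact emb_inf _ _
  rw [this]
  have h1 : Continuous fun p : X × X => (emb p.1).1 ⊓ (emb p.2).1 :=
    (continuous_fst.comp (continuous_emb.comp continuous_fst)).inf
      (continuous_fst.comp (continuous_emb.comp continuous_snd))
  have h2 : Continuous fun p : X × X => (emb p.1).2 ⊓ (emb p.2).2 :=
    continuous_pi fun K =>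
      ((continuous_apply K).comp (continuous_snd.comp (continuous_emb.comp continuous_fst))).inf
      ((continuous_apply K).comp (continuous_snd.comp (continuous_emb.comp continuous_snd)))
  exact h1.prodMk h2

theorem continuous_c : Continuous X.c := by
  refine isInducing_emb.continuous_iff.2 ?_
  exact continuous_toDual.prodMk continuous_const

end

end Pool.Agent.X195.MC
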