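import Pool.Agent.X195.MC1

/-!
# Maximal chains of the semilattice `X` (for MP_cb28d9_gt)
-/

set_option autoImplicit false

open Filter Topology

namespace Pool.Agent.X195.MC

theorem mem_of_comp {L : Set X} (hL : IsMaxChain (· ≤ ·) L) (x : X)
    (h : ∀ y ∈ L, x ≤ y ∨ y ≤ x) : x ∈ L := by
  have h1 : IsChain (· ≤ ·) (insert x L) := hL.1.insert fun y hy _ => h y hy
  rw [hL.2 h1 (Set.subset_insert x L)]
  exact Set.mem_insert x L

/-- a chain of finite sets is countable -/
theorem chain_countable {A : Set (Finset W)} (hA : ∀ F ∈ A, ∀ G ∈ A, F ⊆ G ∨ G ⊆ F) :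
    A.Countable := by
  refine Set.MapsTo.countable_of_injOn (f := Finset.card) (t := Set.univ)
    (fun _ _ => Set.mem_univ _) ?_ (Set.to_countable _)
  intro F hF G hG h
  rcases hA F hF G hG with h1 | h1
  · exact Finset.eq_of_subset_of_card_le h1 h.ge
  · exact (Finset.eq_of_subset_of_card_le h1 h.le).symm

/-- the main convergence statement for increasing families of finite sets -/
theorem lub_s {A : Set (Finset W)} (hne : A.Nonempty) (hA : ∀ F ∈ A, ∀ G ∈ A, F ⊆ G ∨ G ⊆ F)
    (hmax : ∀ F ∈ A, ∃ G ∈ A, ¬ G ⊆ F) :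
    ∃ d : W, IsLUB {x | ∃ F ∈ A, x = ev (rho F)} (ev d) ∧
      X.c (ev d) ∈ closure {x | ∃ F ∈ A, x = X.s F} ∧ ∀ K : Finset W, ∃ F ∈ A, ¬ F ⊆ K := by
  have hcB : (⋃ F ∈ A, (F : Set W)).Countable :=
    (chain_countable hA).biUnion fun F _ => Finset.countable_toSet F
  have hesc : ∀ K : Finset W, ∃ F ∈ A, ¬ F ⊆ K := by
    intro K
    by_contra hcon
    push Not at hcon
    have hfin : A.Finite := (Finset.finite_toSet K.powerset).subset fun F hF =>
      Finset.mem_coe.2 (Finset.mem_powerset.2 (hcon F hF))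
    obtain ⟨F, hF, hF2⟩ := Set.exists_max_image A Finset.card hfin hne
    obtain ⟨G, hG, hG2⟩ := hmax F hF
    have h1 : F ⊆ G := (hA F hF G hG).resolve_right hG2
    exact hG2 (Finset.eq_of_subset_of_card_le h1 (hF2 G hG)).ge
  have hlub : IsLUB {x | ∃ F ∈ A, x = ev (rho F)} (ev (sp (⋃ F ∈ A, (F : Set W)))) := by
    constructor
    · rintro x ⟨F, hF, rfl⟩
      refine ev_mono (rho_le fun y hy => lt_sp hcB ?_)
      exact Set.mem_biUnion hF (Finset.mem_coe.2 hy)
    · intro u hu
      rcases C_cases u with ⟨e, rfl⟩ | ⟨e, rfl⟩ | rfl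
      · refine ev_mono (sp_le hcB fun y hy => ?_)
        obtain ⟨F, hF, hy⟩ := Set.mem_iUnion₂.1 hy
        exact lt_of_lt_of_le (lt_rho (Finset.mem_coe.1 hy)) (ev_le_ev.1 (hu ⟨F, hF, rfl⟩))
      · refine (ev_lt_od.2 (sp_le hcB fun y hy => ?_)).le
        obtain ⟨F, hF, hy⟩ := Set.mem_iUnion₂.1 hy
        refine lt_of_lt_of_le (lt_rho (Finset.mem_coe.1 hy)) ?_
        by_contra hcon
        exact absurd (hu ⟨F, hF, rfl⟩) (not_le.2 (od_lt_ev.2 (not_le.1 hcon)))
      · exact le_top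
  refine ⟨sp (⋃ F ∈ A, (F : Set W)), hlub, ?_, hesc⟩
  have : Nonempty A := hne.to_subtype
  have hdir : IsDirected A (· ≤ ·) := ⟨fun F G => by
    rcases hA F.1 F.2 G.1 G.2 with h | h
    · exact ⟨G, h, le_rfl⟩
    · exact ⟨F, le_rfl, h⟩⟩
  have htend : Tendsto (fun F : A => X.s F.1) atTop
      (𝓝 (X.c (ev (sp (⋃ F ∈ A, (F : Set W)))))) := by
    refine isInducing_emb.tendsto_nhds_iff.2 ?_
    have h1 : Tendsto (fun F : A => ev (rho F.1)) atTop
        (𝓝 (ev (sp (⋃ F ∈ A, (F : Set W))))) := by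
      refine tendsto_C (fun F G h => ev_mono (rho_mono h)) ?_ (fun _ => rfl)
      have : (Set.range fun F : A => ev (rho F.1)) = {x | ∃ F ∈ A, x = ev (rho F)} := by
        ext x
        constructor
        · rintro ⟨F, rfl⟩
          exact ⟨F.1, F.2, rfl⟩
        · rintro ⟨F, hF, rfl⟩
          exact ⟨⟨F, hF⟩, rfl⟩
      rw [this]
      exact hlub
    have h2 : Tendsto (fun F : A => fun K : Finset W => decide (F.1 ⊆ K)) atTop
        (𝓝 (fun _ => false)) := by
      rw [tendsto_pi_nhds]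
      intro K
      obtain ⟨F, hF, hFK⟩ := hesc K
      refine tendsto_const_nhds.congr' ?_
      filter_upwards [eventually_ge_atTop (⟨F, hF⟩ : A)] with G hG
      have : ¬ G.1 ⊆ K := fun h => hFK (Finset.Subset.trans hG h)
      exact (decide_eq_false this).symm
    exact ((continuous_toDual.tendsto _).comp h1).prodMk_nhds h2
  exact mem_closure_of_tendsto htend (Eventually.of_forall fun F => ⟨F.1, F.2, rfl⟩)

/-- any nonempty subset of a maximal chain `L` has an infimum, which lies in `L` and in the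
closure of the part of `L` above the subset -/
theorem inf_in_chain {L : Set X} (hL : IsMaxChain (· ≤ ·) L) (S : Set X) (hSL : S ⊆ L)
    (hne : S.Nonempty) : ∃ i ∈ L, IsGLB S i ∧ i ∈ closure {y | y ∈ L ∧ ∃ x ∈ S, x ≤ y} := by
  by_cases hmin : ∃ m ∈ S, ∀ x ∈ S, m ≤ x
  · obtain ⟨m, hm, hm2⟩ := hmin
    exact ⟨m, hSL hm, ⟨hm2, fun y hy => hy hm⟩, subset_closure ⟨hSL hm, m, hm, le_rfl⟩⟩
  push Not at hmin
  have hchain : ∀ x ∈ L, ∀ y ∈ L, x ≤ y ∨ y ≤ x := fun x hx y hy => hL.1.total hx hy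
  by_cases hC : ∃ x, X.c x ∈ S
  · obtain ⟨x₀, hx₀⟩ := hC
    obtain ⟨m, hm⟩ := exists_lub {x | X.c x ∈ S}
    have hnomax : ∀ x, X.c x ∈ S → ∃ y, X.c y ∈ S ∧ x < y := by
      intro x hx
      obtain ⟨y, hy, hy2⟩ := hmin (X.c x) hx
      rcases y with G | y
      · exact absurd ((hchain _ (hSL hx) _ (hSL hy)).resolve_left hy2) not_s_le_c
      · exact ⟨y, hy, not_le.1 fun h => hy2 (c_le_c.2 h)⟩
    have hlt : ∀ x, X.c x ∈ S → x < m := by
      intro x hx
      obtain ⟨y, hy, hxy⟩ := hnomax x hx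
      exact lt_of_lt_of_le hxy (hm.1 hy)
    have hmem : ∀ x, x₀ ≤ x → X.c x ∈ L := by
      intro x hx
      refine mem_of_comp hL _ fun y hy => ?_
      rcases y with G | y
      · left
        have h1 := (hchain _ (hSL hx₀) _ hy).resolve_right not_s_le_c
        exact c_le_s.2 (le_trans (c_le_s.1 h1) hx)
      · rcases le_total x y with h | h
        · exact Or.inr (c_le_c.2 h)
        · exact Or.inl (c_le_c.2 h)
    have hsm : ∀ F, X.s F ∈ S → ev (rho F) ≤ x₀ := by
      intro F hF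
      exact c_le_s.1 ((hchain _ (hSL hx₀) _ (hSL hF)).resolve_right not_s_le_c)
    refine ⟨X.c m, hmem m (hlt x₀ hx₀).le, ⟨?_, ?_⟩, ?_⟩
    · intro y hy
      rcases y with G | y
      · exact c_le_s.2 (le_trans (hsm G hy) (hlt x₀ hx₀).le)
      · exact c_le_c.2 (hlt y hy).le
    · intro y hy
      rcases y with G | y
      · exact absurd (hy hx₀) not_s_le_c
      · exact c_le_c.2 (hm.2 fun x hx => c_le_c.1 (hy hx))
    · have hl : ∀ x < m, ∃ x', x < x' ∧ x' < m := by
        intro x hx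
        by_contra hcon
        push Not at hcon
        have : m ≤ x := by
          refine hm.2 fun y hy => ?_
          by_contra h
          exact absurd (hlt y hy) (not_lt.2 (hcon y (not_le.1 h)))
        exact absurd hx (not_lt.2 this)
      have h1 := lim_closure (hlt x₀ hx₀) hl
      have h2 := image_closure_subset_closure_image continuous_c (Set.mem_image_of_mem X.c h1)
      refine closure_mono ?_ h2
      rintro _ ⟨x, ⟨hx1, hx2⟩, rfl⟩
      refine ⟨hmem x hx1, ?_⟩
      by_contra hcon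
      push Not at hcon
      have : m ≤ x := by
        refine hm.2 fun y hy => ?_
        by_contra h
        exact hcon (X.c y) hy (c_le_c.2 (not_le.1 h).le)
      exact absurd hx2 (not_lt.2 this)
  · push Not at hC
    have hS : ∀ y ∈ S, ∃ F, y = X.s F := by
      intro y hy
      rcases y with F | y
      · exact ⟨F, rfl⟩
      · exact absurd hy (hC y)
    have hAne : {F | X.s F ∈ S}.Nonempty := by
      obtain ⟨y, hy⟩ := hne
      obtain ⟨F, rfl⟩ := hS y hy
      exact ⟨F, hy⟩
    have hAch : ∀ F ∈ {F | X.s F ∈ S}, ∀ G ∈ {F | X.s F ∈ S}, F ⊆ G ∨ G ⊆ F := by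
      intro F hF G hG
      rcases hchain _ (hSL hF) _ (hSL hG) with h | h
      · exact Or.inr (s_le_s.1 h)
      · exact Or.inl (s_le_s.1 h)
    have hAmax : ∀ F ∈ {F | X.s F ∈ S}, ∃ G ∈ {F | X.s F ∈ S}, ¬ G ⊆ F := by
      intro F hF
      obtain ⟨y, hy, hy2⟩ := hmin (X.s F) hF
      obtain ⟨G, rfl⟩ := hS y hy
      exact ⟨G, hy, fun h => hy2 (s_le_s.2 h)⟩
    obtain ⟨d, hd1, hd2, hd3⟩ := lub_s hAne hAch hAmax
    refine ⟨X.c (ev d), ?_, ⟨?_, ?_⟩, ?_⟩
    · refine mem_of_comp hL _ fun y hy => ?_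
      rcases y with G | y
      · left
        obtain ⟨F, hF, hFG⟩ := hd3 G
        have h1 : G ⊆ F := by
          rcases hchain _ (hSL hF) _ hy with h | h
          · exact s_le_s.1 h
          · exact absurd (s_le_s.1 h) hFG
        exact c_le_s.2 (le_trans (ev_mono (rho_mono h1)) (hd1.1 ⟨F, hF, rfl⟩))
      · rcases le_total (ev d) y with h | h
        · exact Or.inr (c_le_c.2 h)
        · exact Or.inl (c_le_c.2 h)
    · intro y hy
      obtain ⟨F, rfl⟩ := hS y hy
      exact c_le_s.2 (hd1.1 ⟨F, hy, rfl⟩)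
    · intro y hy
      rcases y with G | y
      · exfalso
        obtain ⟨F, hF, hFG⟩ := hd3 G
        exact hFG (s_le_s.1 (hy hF))
      · refine c_le_c.2 (hd1.2 ?_)
        rintro x ⟨F, hF, rfl⟩
        exact c_le_s.1 (hy hF)
    · refine closure_mono ?_ hd2
      rintro x ⟨F, hF, rfl⟩
      exact ⟨hSL hF, X.s F, hF, le_rfl⟩

/-- any nonempty chain has a greatest element -/
theorem chain_has_max (S : Set X) (hne : S.Nonempty) (hS : IsChain (· ≤ ·) S) :
    ∃ m ∈ S, ∀ x ∈ S, x ≤ m := by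
  by_cases hs : ∃ F, X.s F ∈ S
  · have hne2 : {F : Finset W | X.s F ∈ S}.Nonempty := hs
    obtain ⟨F, hF, hmin⟩ := wellFounded_lt.has_min {F : Finset W | X.s F ∈ S} hne2
    refine ⟨X.s F, hF, fun x hx => ?_⟩
    rcases hS.total hx hF with h | h
    · exact h
    · rcases x with G | y
      · have h1 := s_le_s.1 h
        rcases h1.eq_or_ssubset with h2 | h2
        · rw [h2]
        · exact absurd h2 (hmin G hx)
      · exact absurd h not_s_le_c
  · push Not at hs
    have hne2 : {x : C | X.c x ∈ S}.Nonempty := by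
      obtain ⟨y, hy⟩ := hne
      rcases y with F | y
      · exact absurd hy (hs F)
      · exact ⟨y, hy⟩
    obtain ⟨m, hm, hmin⟩ := wellFounded_lt.has_min {x : C | X.c x ∈ S} hne2
    refine ⟨X.c m, hm, fun x hx => ?_⟩
    rcases x with G | y
    · exact absurd hx (hs G)
    · exact c_le_c.2 (not_lt.1 (hmin y hx))

/-- the only lower bound of all `s F` is `c ⊤` -/
theorem glb_range_s (i : X) (hi : IsGLB (Set.range X.s) i) : i = X.c ⊤ := by
  refine le_antisymm ?_ (hi.2 ?_)
  · rcases i with F | x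
    · exfalso
      obtain ⟨w, hw⟩ := exists_gt (rho F)
      have h1 := s_le_s.1 (hi.1 ⟨{w}, rfl⟩)
      exact absurd (lt_rho (h1 (Finset.mem_singleton_self w))) (not_lt.2 hw.le)
    · refine c_le_c.2 ?_
      by_contra hcon
      rw [not_le] at hcon
      have key : ∀ w : W, ev w < x := fun w => by
        refine lt_of_lt_of_le (ev_lt_ev.2 (lt_rho (Finset.mem_singleton_self w))) ?_
        exact c_le_s.1 (hi.1 ⟨{w}, rfl⟩)
      rcases C_cases x with ⟨d, rfl⟩ | ⟨d, rfl⟩ | rfl
      · exact absurd (key d) (lt_irrefl _)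
      · obtain ⟨w, hw⟩ := exists_gt d
        exact absurd (ev_lt_od.1 (key w)) (not_le.2 hw)
      · exact absurd hcon (lt_irrefl _)
  · rintro _ ⟨F, rfl⟩
    exact c_le_s.2 le_top

theorem not_mem_closure : X.c ⊤ ∉ closure (Set.range X.s) := by
  intro h
  have hcont : Continuous fun x : X => par (OrderDual.ofDual (emb x).1) :=
    continuous_par.comp (continuous_ofDual.comp (continuous_fst.comp continuous_emb))
  have hcl : IsClosed {x : X | par (OrderDual.ofDual (emb x).1) = false} :=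
    (isClosed_discrete {false}).preimage hcont
  have hsub : Set.range X.s ⊆ {x : X | par (OrderDual.ofDual (emb x).1) = false} := by
    rintro _ ⟨F, rfl⟩
    rfl
  have h2 := hcl.closure_subset_iff.2 hsub h
  exact Bool.noConfusion (h2 : par ⊤ = false)

end Pool.Agent.X195.MC
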