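import Pool.Agent.H507R3.RamAll

/-!
Partite construction for `p`-uniform typed hypergraphs (Nešetřil–Rödl): in every colouring of the
`p`-sets of the constructed structure there is a copy of the starting structure in which the colour
of a `p`-set depends only on its type. The partite lemma is the Hales–Jewett theorem.
-/
open Finset Combinatorics

set_option linter.unusedSectionVars false
set_option linter.unusedVariables false
set_option linter.style.haveILetI false

namespace Pool.Agent.X195.NR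

open scoped Classical

/-- an `N`-partite system of typed transversal `p`-sets -/
structure Sys (N p : ℕ) (τ : Type) where
  X : Type
  fin : Finite X
  π : X → Fin N
  T : Finset X → τ → Prop
  card : ∀ A t, T A t → A.card = p
  inj : ∀ A t, T A t → ∀ x ∈ A, ∀ y ∈ A, π x = π y → x = y
  uniq : ∀ A t t', T A t → T A t' → t = t'

variable {N p : ℕ} {τ : Type}

/-- the typed edges of type `t` over `J` -/
abbrev Ed (P : Sys N p τ) (J : Finset (Fin N)) (t : τ) : Type :=
  {A : Finset P.X // P.T A t ∧ A.image P.π = J}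

section step

variable (P : Sys N p τ) (J : Finset (Fin N)) (t : τ) {ι : Type}

theorem vx_exists (a : Ed P J t) {j : Fin N} (hj : j ∈ J) : ∃ x ∈ a.1, P.π x = j := by
  rw [← a.2.2, mem_image] at hj
  exact hj

/-- the vertex of the edge `a` over `j` -/
noncomputable def vx (a : Ed P J t) (j : Fin N) (hj : j ∈ J) : P.X := (vx_exists P J t a hj).choose

theorem vx_mem (a : Ed P J t) (j : Fin N) (hj : j ∈ J) : vx P J t a j hj ∈ a.1 :=
  (vx_exists P J t a hj).choose_spec.1

theorem vx_π (a : Ed P J t) (j : Fin N) (hj : j ∈ J) : P.π (vx P J t a j hj) = j :=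
  (vx_exists P J t a hj).choose_spec.2

theorem vx_eq (a : Ed P J t) {x : P.X} (hx : x ∈ a.1) (hj : P.π x ∈ J) :
    vx P J t a (P.π x) hj = x :=
  P.inj a.1 t a.2.1 _ (vx_mem P J t a _ hj) _ hx (vx_π P J t a _ hj)

/-- the copy of `P` belonging to a line -/
noncomputable def F (l : Line (Ed P J t) ι) (x : P.X) :
    Option (Line (Ed P J t) ι) × (ι → P.X) :=
  if h : P.π x ∈ J then (none, fun i => (l.idxFun i).elim x (fun a => vx P J t a (P.π x) h))
  else (some l, fun _ => x)

variable {P J t}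

theorem F_in (l : Line (Ed P J t) ι) {x : P.X} (h : P.π x ∈ J) :
    F P J t l x = (none, fun i => (l.idxFun i).elim x (fun a => vx P J t a (P.π x) h)) := by
  rw [F, dif_pos h]

theorem F_out (l : Line (Ed P J t) ι) {x : P.X} (h : P.π x ∉ J) :
    F P J t l x = (some l, fun _ => x) := by
  rw [F, dif_neg h]

theorem π_F (l : Line (Ed P J t) ι) (x : P.X) (i : ι) : P.π ((F P J t l x).2 i) = P.π x := by
  by_cases h : P.π x ∈ J
  · rw [F_in l h]
    simp only
    cases l.idxFun i with
    | none => rfl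
    | some a => exact vx_π P J t a _ h
  · rw [F_out l h]

theorem F_at (l : Line (Ed P J t) ι) (x : P.X) {i : ι} (hi : l.idxFun i = none) :
    (F P J t l x).2 i = x := by
  by_cases h : P.π x ∈ J
  · rw [F_in l h]
    simp only [hi, Option.elim]
  · rw [F_out l h]

theorem F_inj (l : Line (Ed P J t) ι) : Function.Injective (F P J t l) := by
  intro x y h
  obtain ⟨i, hi⟩ := l.proper
  rw [← F_at l x hi, ← F_at l y hi, h]

theorem F_fixed (l : Line (Ed P J t) ι) {x : P.X} (h : P.π x ∈ J) {i : ι} {a : Ed P J t}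
    (hi : l.idxFun i = some a) : (F P J t l x).2 i = vx P J t a (P.π x) h := by
  rw [F_in l h]
  simp only [hi, Option.elim]

theorem F_out_eq {l l' : Line (Ed P J t) ι} {x y : P.X} (h : P.π x ∉ J)
    (hxy : F P J t l x = F P J t l' y) : l = l' := by
  by_cases hy : P.π y ∈ J
  · rw [F_out l h, F_in l' hy] at hxy
    exact absurd (congrArg Prod.fst hxy) (by simp)
  · rw [F_out l h, F_out l' hy] at hxy
    have := congrArg Prod.fst hxy
    simpa using this

/-- the copy of `P` belonging to a line, as an embedding -/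
noncomputable def Fe (l : Line (Ed P J t) ι) : P.X ↪ Option (Line (Ed P J t) ι) × (ι → P.X) :=
  ⟨F P J t l, F_inj l⟩

/-- the image of a full set over `J` in a coordinate -/
theorem image_coord (hJ : J.card = p) (l : Line (Ed P J t) ι) {A : Finset P.X} {s : τ}
    (hA : P.T A s) (hAJ : A.image P.π = J) (i : ι) :
    (A.map (Fe l)).image (fun q => q.2 i) = A ∨
      P.T ((A.map (Fe l)).image (fun q => q.2 i)) t := by
  have hmem : ∀ x ∈ A, P.π x ∈ J := fun x hx => hAJ ▸ mem_image_of_mem _ hx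
  cases hi : l.idxFun i with
  | none =>
    left
    ext y
    simp only [mem_image, mem_map]
    constructor
    · rintro ⟨_, ⟨x, hx, rfl⟩, rfl⟩
      have : (Fe l x).2 i = x := F_at l x hi
      rw [this]
      exact hx
    · intro hy
      exact ⟨_, ⟨y, hy, rfl⟩, F_at l y hi⟩
  | some a =>
    right
    have h1 : (A.map (Fe l)).image (fun q => q.2 i) = a.1 := by
      ext y
      simp only [mem_image, mem_map]
      constructor
      · rintro ⟨_, ⟨x, hx, rfl⟩, rfl⟩
        have : (Fe l x).2 i = vx P J t a (P.π x) (hmem x hx) := F_fixed l (hmem x hx) hi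
        rw [this]
        exact vx_mem P J t a _ _
      · intro hy
        have hyJ : P.π y ∈ J := a.2.2 ▸ mem_image_of_mem _ hy
        have hyA : P.π y ∈ A.image P.π := hAJ.symm ▸ hyJ
        obtain ⟨x, hx, hxy⟩ := mem_image.1 hyA
        refine ⟨_, ⟨x, hx, rfl⟩, ?_⟩
        have h2 : (Fe l x).2 i = vx P J t a (P.π x) (hmem x hx) := F_fixed l (hmem x hx) hi
        rw [h2]
        have : vx P J t a (P.π x) (hmem x hx) = vx P J t a (P.π y) hyJ := by
          congr 1
        rw [this]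
        exact vx_eq P J t a hy hyJ
    rw [h1]
    exact a.2.1

theorem image_active (l : Line (Ed P J t) ι) (A : Finset P.X) {i : ι} (hi : l.idxFun i = none) :
    (A.map (Fe l)).image (fun q => q.2 i) = A := by
  ext y
  simp only [mem_image, mem_map]
  constructor
  · rintro ⟨_, ⟨x, hx, rfl⟩, rfl⟩
    have : (Fe l x).2 i = x := F_at l x hi
    rw [this]
    exact hx
  · intro hy
    exact ⟨_, ⟨y, hy, rfl⟩, F_at l y hi⟩

theorem uniq_aux (hJ : J.card = p) {l l' : Line (Ed P J t) ι} {A A' : Finset P.X} {s s' : τ}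
    (hA : P.T A s) (hA' : P.T A' s') (h : A.map (Fe l) = A'.map (Fe l')) : s = s' := by
  by_cases hall : (∀ x ∈ A, P.π x ∈ J) ∧ ∀ x ∈ A', P.π x ∈ J
  · have hfull : ∀ (B : Finset P.X) (u : τ), P.T B u → (∀ x ∈ B, P.π x ∈ J) → B.image P.π = J := by
      intro B u hB hBJ
      apply eq_of_subset_of_card_le
      · intro j hj
        obtain ⟨x, hx, rfl⟩ := mem_image.1 hj
        exact hBJ x hx
      · rw [hJ, card_image_of_injOn (fun x hx y hy hxy => P.inj B u hB x hx y hy hxy), P.card B u hB]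
    have hAJ := hfull A s hA hall.1
    have hAJ' := hfull A' s' hA' hall.2
    obtain ⟨i, hi⟩ := l.proper
    obtain ⟨i', hi'⟩ := l'.proper
    have h1 := image_active l A hi
    have h2 := image_active l' A' hi'
    have h3 := image_coord hJ l' hA' hAJ' i
    have h4 := image_coord hJ l hA hAJ i'
    rw [← h, h1] at h3
    rw [h, h2] at h4
    rcases h3 with h3 | h3
    · subst h3
      exact P.uniq _ _ _ hA hA'
    · rcases h4 with h4 | h4
      · subst h4
        exact P.uniq _ _ _ hA hA'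
      · exact (P.uniq _ _ _ hA h3).trans (P.uniq _ _ _ hA' h4).symm
  · have hll : l = l' := by
      rw [not_and_or] at hall
      rcases hall with hall | hall
      · push Not at hall
        obtain ⟨x, hx, hxJ⟩ := hall
        have : Fe l x ∈ A'.map (Fe l') := h ▸ mem_map_of_mem _ hx
        obtain ⟨y, _, hy⟩ := mem_map.1 this
        exact F_out_eq hxJ hy.symm
      · push Not at hall
        obtain ⟨x, hx, hxJ⟩ := hall
        have : Fe l' x ∈ A.map (Fe l) := h.symm ▸ mem_map_of_mem _ hx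
        obtain ⟨y, _, hy⟩ := mem_map.1 this
        exact (F_out_eq hxJ hy.symm).symm
    subst hll
    have : A = A' := map_injective (Fe l) h
    subst this
    exact P.uniq _ _ _ hA hA'

end step

theorem elim_getD {P : Sys N p τ} {J : Finset (Fin N)} {t : τ} (a0 : Ed P J t) (x : P.X)
    (hx : x ∈ a0.1) (h : P.π x ∈ J) (o : Option (Ed P J t)) :
    o.elim x (fun a => vx P J t a (P.π x) h) = vx P J t (o.getD a0) (P.π x) h := by
  cases o with
  | none => exact (vx_eq P J t a0 hx h).symm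
  | some a => rfl

theorem finite_line (α ι : Type) [Finite α] [Finite ι] : Finite (Line α ι) := by
  refine Finite.of_injective (fun l : Line α ι => l.idxFun) ?_
  intro l l' h
  cases l
  cases l'
  simp only at h
  subst h
  rfl

/-- an embedding of systems -/
structure Emb (P P' : Sys N p τ) where
  f : P.X ↪ P'.X
  π : ∀ x, P'.π (f x) = P.π x
  T : ∀ A s, P.T A s → P'.T (A.map f) s

theorem step (κ : Type) [Finite κ] [Nonempty κ] (P : Sys N p τ) (J : Finset (Fin N))
    (hJ : J.card = p) (t : τ) : ∃ P' : Sys N p τ, ∀ χ : Finset P'.X → κ, ∃ e : Emb P P', ∃ k : κ,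
      ∀ A, P.T A t → A.image P.π = J → χ (A.map e.f) = k := by
  haveI := P.fin
  haveI : Finite (Finset P.X) := inferInstance
  haveI : Finite (Ed P J t) := by unfold Ed; infer_instance
  obtain ⟨ι, hι, hHJ⟩ := Line.exists_mono_in_high_dimension (Ed P J t) κ
  obtain ⟨l0, _⟩ := hHJ (fun _ => Classical.arbitrary κ)
  obtain ⟨t0, _⟩ := l0.proper
  haveI := finite_line (Ed P J t) ι
  refine ⟨{
    X := Option (Line (Ed P J t) ι) × (ι → P.X)
    fin := inferInstance
    π := fun q => P.π (q.2 t0)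
    T := fun A' s => ∃ (l : Line (Ed P J t) ι) (A : Finset P.X), P.T A s ∧ A' = A.map (Fe l)
    card := ?_
    inj := ?_
    uniq := ?_ }, ?_⟩
  · rintro _ s ⟨l, A, hA, rfl⟩
    rw [card_map, P.card A s hA]
  · rintro _ s ⟨l, A, hA, rfl⟩ x hx y hy hxy
    obtain ⟨x, hx', rfl⟩ := mem_map.1 hx
    obtain ⟨y, hy', rfl⟩ := mem_map.1 hy
    have h1 : P.π ((Fe l x).2 t0) = P.π x := π_F l x t0
    have h2 : P.π ((Fe l y).2 t0) = P.π y := π_F l y t0
    rw [h1, h2] at hxy
    rw [P.inj A s hA x hx' y hy' hxy]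
  · rintro _ s s' ⟨l, A, hA, rfl⟩ ⟨l', A', hA', h⟩
    exact uniq_aux hJ hA hA' h
  · intro χ
    set C : (ι → Ed P J t) → κ := fun w => χ (J.attach.image (fun j =>
      ((none : Option (Line (Ed P J t) ι)), fun i => vx P J t (w i) j.1 j.2))) with hC
    obtain ⟨l, k, hk⟩ := hHJ C
    refine ⟨⟨Fe l, fun x => π_F l x t0, fun A s hA => ⟨l, A, hA, rfl⟩⟩, k, ?_⟩
    intro A hA hAJ
    have h1 := hk ⟨A, hA, hAJ⟩
    rw [← h1, hC]
    simp only
    congr 1
    ext q
    simp only [mem_image, mem_map, mem_attach, true_and, Subtype.exists]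
    have hmem : ∀ x ∈ A, P.π x ∈ J := fun x hx => hAJ ▸ mem_image_of_mem _ hx
    have hF : ∀ x (hx : x ∈ A), Fe l x = (none, fun i => vx P J t ((l ⟨A, hA, hAJ⟩ : ι → Ed P J t) i)
        (P.π x) (hmem x hx)) := by
      intro x hx
      show F P J t l x = _
      rw [F_in l (hmem x hx)]
      congr 1
      funext i
      exact elim_getD ⟨A, hA, hAJ⟩ x hx (hmem x hx) (l.idxFun i)
    constructor
    · rintro ⟨x, hx, rfl⟩
      exact ⟨P.π x, hmem x hx, (hF x hx).symm⟩
    · rintro ⟨j, hj, rfl⟩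
      obtain ⟨x, hx, hxj⟩ : ∃ x ∈ A, P.π x = j := by
        rw [← hAJ] at hj
        exact mem_image.1 hj
      subst hxj
      exact ⟨x, hx, hF x hx⟩

theorem steps (κ : Type) [Finite κ] [Nonempty κ] (P : Sys N p τ)
    (Q : Finset (Finset (Fin N) × τ)) (hQ : ∀ q ∈ Q, q.1.card = p) :
    ∃ P' : Sys N p τ, ∀ χ : Finset P'.X → κ, ∃ e : Emb P P', ∀ q ∈ Q, ∃ k : κ,
      ∀ A, P.T A q.2 → A.image P.π = q.1 → χ (A.map e.f) = k := by
  induction Q using Finset.induction_on with
  | empty =>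
    refine ⟨P, fun χ => ⟨⟨Function.Embedding.refl _, fun _ => rfl, fun A s h => by
      rwa [map_refl]⟩, ?_⟩⟩
    simp
  | insert q Q _ ih =>
    obtain ⟨P1, hP1⟩ := ih (fun q hq => hQ q (mem_insert_of_mem hq))
    obtain ⟨P2, hP2⟩ := step κ P1 q.1 (hQ q (mem_insert_self _ _)) q.2
    refine ⟨P2, fun χ => ?_⟩
    obtain ⟨e2, k, hk⟩ := hP2 χ
    obtain ⟨e1, he1⟩ := hP1 (fun A => χ (A.map e2.f))
    refine ⟨⟨e1.f.trans e2.f, fun x => by
      show P2.π (e2.f (e1.f x)) = _
      rw [e2.π, e1.π], fun A s h => by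
      rw [← map_map]
      exact e2.T _ s (e1.T A s h)⟩, ?_⟩
    intro q' hq'
    rcases mem_insert.1 hq' with rfl | hq'
    · refine ⟨k, fun A hA hAJ => ?_⟩
      simp only
      rw [← map_map]
      apply hk _ (e1.T A _ hA)
      rw [← hAJ]
      ext j
      simp only [mem_image, mem_map]
      constructor
      · rintro ⟨_, ⟨x, hx, rfl⟩, rfl⟩
        exact ⟨x, hx, (e1.π x).symm⟩
      · rintro ⟨x, hx, rfl⟩
        exact ⟨_, ⟨x, hx, rfl⟩, e1.π x⟩
    · obtain ⟨k', hk'⟩ := he1 q' hq'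
      refine ⟨k', fun A hA hAJ => ?_⟩
      simp only
      rw [← map_map]
      exact hk' A hA hAJ

/-- the copy with index `σ` -/
def cp {k N : ℕ} (σ : Fin k ↪o Fin N) : Fin k ↪ (Fin k ↪o Fin N) × Fin k :=
  ⟨fun v => (σ, v), fun _ _ h => (Prod.ext_iff.1 h).2⟩

/-- the disjoint union of copies of a typed structure on `Fin k` -/
def P0 (k N p : ℕ) (hp : 1 ≤ p) (τ : Type) (typ : Finset (Fin k) → τ) : Sys N p τ where
  X := (Fin k ↪o Fin N) × Fin k
  fin := inferInstance
  π := fun q => q.1 q.2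
  T := fun A s => ∃ (σ : Fin k ↪o Fin N) (B : Finset (Fin k)), B.card = p ∧ typ B = s ∧
    A = B.map (cp σ)
  card := by
    rintro _ s ⟨σ, B, hB, _, rfl⟩
    rw [card_map, hB]
  inj := by
    rintro _ s ⟨σ, B, hB, _, rfl⟩ x hx y hy hxy
    obtain ⟨x, _, rfl⟩ := mem_map.1 hx
    obtain ⟨y, _, rfl⟩ := mem_map.1 hy
    have h1 : σ x = σ y := hxy
    rw [σ.injective h1]
  uniq := by
    rintro _ s s' ⟨σ, B, hB, hs, rfl⟩ ⟨σ', B', hB', hs', h⟩
    have hne : B.Nonempty := card_pos.1 (by omega)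
    obtain ⟨b, hb⟩ := hne
    have h1 : cp σ b ∈ B'.map (cp σ') := h ▸ mem_map_of_mem _ hb
    obtain ⟨b', _, hb'⟩ := mem_map.1 h1
    have h2 : σ' = σ := (Prod.ext_iff.1 hb').1
    subst h2
    have h3 : B = B' := map_injective _ h
    rw [← hs, ← hs', h3]

/-- the copy with index `σ` in the disjoint union -/
def cpX {k N : ℕ} (p : ℕ) (hp : 1 ≤ p) (τ : Type) (typ : Finset (Fin k) → τ) (σ : Fin k ↪o Fin N) :
    Fin k ↪ (P0 k N p hp τ typ).X := cp σ

theorem P0_T {k N : ℕ} (p : ℕ) (hp : 1 ≤ p) (τ : Type) (typ : Finset (Fin k) → τ)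
    (σ : Fin k ↪o Fin N) (B : Finset (Fin k)) (hB : B.card = p) :
    (P0 k N p hp τ typ).T (B.map (cpX p hp τ typ σ)) (typ B) := ⟨σ, B, hB, rfl, rfl⟩

theorem P0_image {k N : ℕ} (p : ℕ) (hp : 1 ≤ p) (τ : Type) (typ : Finset (Fin k) → τ)
    (σ : Fin k ↪o Fin N) (B : Finset (Fin k)) :
    (B.map (cpX p hp τ typ σ)).image (P0 k N p hp τ typ).π = B.map σ.toEmbedding := by
  ext j
  rw [mem_image, mem_map]
  constructor
  · rintro ⟨y, hy, rfl⟩
    obtain ⟨x, hx, rfl⟩ := mem_map.1 hy
    exact ⟨x, hx, rfl⟩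
  · rintro ⟨x, hx, rfl⟩
    exact ⟨_, mem_map_of_mem _ hx, rfl⟩

/-- The typed Ramsey theorem for `p`-sets. -/
theorem typed_ramsey (k p : ℕ) (hp : 1 ≤ p) (τ κ : Type) [Finite τ] [Finite κ] [Nonempty τ]
    [Nonempty κ] (typ : Finset (Fin k) → τ) :
    ∃ (V : Type) (_ : Finite V) (c : Finset V → τ), ∀ χ : Finset V → κ,
      ∃ (e : Fin k ↪ V) (g : τ → κ), ∀ B : Finset (Fin k), B.card = p →
        c (B.map e) = typ B ∧ χ (B.map e) = g (typ B) := by
  haveI : Fintype τ := Fintype.ofFinite τ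
  haveI : Fintype κ := Fintype.ofFinite κ
  haveI : Fintype (τ → κ) := Fintype.ofFinite _
  obtain ⟨N, hN⟩ := Pool.Agent.H507R3.RamAll.ramsey_finset (τ → κ) p k
  obtain ⟨P', hP'⟩ := steps κ (P0 k N p hp τ typ) ((univ : Finset (Finset (Fin N) × τ)).filter (fun q => q.1.card = p))
    (fun q hq => (mem_filter.1 hq).2)
  haveI := P'.fin
  refine ⟨P'.X, P'.fin, fun A => if h : ∃ t, P'.T A t then h.choose else Classical.arbitrary τ, ?_⟩
  intro χ
  obtain ⟨e, he⟩ := hP' χ
  have hcol : ∀ J : Finset (Fin N), ∃ g : τ → κ, J.card = p → ∀ t, ∀ A, (P0 k N p hp τ typ).T A t →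
      A.image (P0 k N p hp τ typ).π = J → χ (A.map e.f) = g t := by
    intro J
    by_cases hJ : J.card = p
    · have : ∀ t : τ, ∃ k' : κ, ∀ A, (P0 k N p hp τ typ).T A t →
          A.image (P0 k N p hp τ typ).π = J → χ (A.map e.f) = k' := fun t =>
        he (J, t) (mem_filter.2 ⟨mem_univ _, hJ⟩)
      choose g hg using this
      exact ⟨g, fun _ t A => hg t A⟩
    · exact ⟨fun _ => Classical.arbitrary κ, fun h => absurd h hJ⟩
  choose col hcol using hcol
  obtain ⟨S, hS, hSk, g, hg⟩ := hN (range N) (fun Q => if h : ∀ x ∈ Q, x < N then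
    col (Q.attachFin h) else Classical.arbitrary _) (by rw [card_range])
  have hSN : ∀ i : Fin k, (S.orderEmbOfFin hSk i : ℕ) < N := fun i =>
    mem_range.1 (hS (S.orderEmbOfFin_mem hSk i))
  set σ : Fin k ↪o Fin N := OrderEmbedding.ofStrictMono (fun i => ⟨S.orderEmbOfFin hSk i, hSN i⟩)
    (fun i j hij => (S.orderEmbOfFin hSk).strictMono hij) with hσ
  have hσv : ∀ i, ((σ i : Fin N) : ℕ) = S.orderEmbOfFin hSk i := fun i => rfl
  refine ⟨(cpX p hp τ typ σ).trans e.f, g, fun B hB => ?_⟩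
  have hT := P0_T p hp τ typ σ B hB
  have hmap : B.map ((cpX p hp τ typ σ).trans e.f) = (B.map (cpX p hp τ typ σ)).map e.f :=
    (map_map _ _ _).symm
  rw [hmap]
  have hT' : P'.T ((B.map (cpX p hp τ typ σ)).map e.f) (typ B) := e.T _ _ hT
  constructor
  · have hex : ∃ t, P'.T ((B.map (cpX p hp τ typ σ)).map e.f) t := ⟨_, hT'⟩
    have h0 : (fun A => if h : ∃ t, P'.T A t then h.choose else Classical.arbitrary τ)
        ((B.map (cpX p hp τ typ σ)).map e.f) = hex.choose := dif_pos hex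
    rw [h0]
    exact P'.uniq _ _ _ hex.choose_spec hT'
  · have h2 := hcol (B.map σ.toEmbedding) (by rw [card_map, hB]) (typ B) _ hT
      (P0_image p hp τ typ σ B)
    rw [h2]
    set Q : Finset ℕ := B.image (fun i => ((σ i : Fin N) : ℕ)) with hQ
    have hQS : Q ⊆ S := by
      intro x hx
      obtain ⟨i, _, rfl⟩ := mem_image.1 hx
      rw [hσv]
      exact S.orderEmbOfFin_mem hSk i
    have hQc : Q.card = p := by
      rw [hQ, card_image_of_injective, hB]
      intro i j hij
      exact σ.injective (Fin.ext hij)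
    have h3 := hg Q hQS hQc
    have h4 : ∀ x ∈ Q, x < N := fun x hx => mem_range.1 (hS (hQS hx))
    rw [dif_pos h4] at h3
    have h5 : Q.attachFin h4 = B.map σ.toEmbedding := by
      ext j
      rw [mem_attachFin, mem_map, hQ, mem_image]
      constructor
      · rintro ⟨i, hi, hij⟩
        exact ⟨i, hi, Fin.ext hij⟩
      · rintro ⟨i, hi, rfl⟩
        exact ⟨i, hi, rfl⟩
    rw [h5] at h3
    rw [h3]

end Pool.Agent.X195.NR
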