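import Pool.Agent.X195.NR1

/-!
Covering of all permutations by a function without fixed intersections, and the contradiction with
a bad orientation of the typed Ramsey structure.
-/
open Finset

set_option linter.unusedSectionVars false
set_option linter.unusedVariables false

namespace Pool.Agent.X195.NR

/-- the `p`-element subsets of `[n]` -/
def Sub (n p : ℕ) : Type := {x : Finset (Fin n) // x.card = p}

instance (n p : ℕ) : Fintype (Sub n p) := inferInstanceAs (Fintype {x : Finset (Fin n) // x.card = p})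

instance (n p : ℕ) : DecidableEq (Sub n p) :=
  inferInstanceAs (DecidableEq {x : Finset (Fin n) // x.card = p})

theorem card_Sub (n p : ℕ) : Fintype.card (Sub n p) = n.choose p := by
  show Fintype.card {x : Finset (Fin n) // x.card = p} = _
  rw [Fintype.card_finset_len, Fintype.card_fin]

/-- the action of a permutation -/
def act {r p : ℕ} (π : Equiv.Perm (Fin r)) (x : Sub r p) : Sub r p :=
  ⟨x.1.map π.toEmbedding, by rw [card_map]; exact x.2⟩

theorem act_trans {r p : ℕ} (x y : Sub r p) : ∃ π : Equiv.Perm (Fin r), act π x = y := by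
  have hc : Fintype.card {i // i ∈ x.1} = Fintype.card {i // i ∈ y.1} := by
    rw [Fintype.card_coe, Fintype.card_coe, x.2, y.2]
  obtain ⟨e⟩ := Fintype.card_eq.1 hc
  refine ⟨e.extendSubtype, ?_⟩
  apply Subtype.ext
  show x.1.map e.extendSubtype.toEmbedding = y.1
  apply eq_of_subset_of_card_le
  · intro j hj
    obtain ⟨i, hi, rfl⟩ := mem_map.1 hj
    exact e.extendSubtype_mem i hi
  · rw [card_map, x.2, y.2]

theorem act_mul {r p : ℕ} (π σ : Equiv.Perm (Fin r)) (x : Sub r p) :
    act (π * σ) x = act π (act σ x) := by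
  apply Subtype.ext
  show x.1.map (π * σ).toEmbedding = (x.1.map σ.toEmbedding).map π.toEmbedding
  rw [map_map]
  rfl

theorem act_inter {r p : ℕ} (π : Equiv.Perm (Fin r)) (x y : Sub r p) :
    ((act π x).1 ∩ (act π y).1).card = (x.1 ∩ y.1).card := by
  show (x.1.map π.toEmbedding ∩ y.1.map π.toEmbedding).card = _
  rw [← map_inter, card_map]

theorem count_indep {r p : ℕ} (x y z : Sub r p) :
    (univ.filter (fun π : Equiv.Perm (Fin r) => act π x = y)).card =
      (univ.filter (fun π : Equiv.Perm (Fin r) => act π x = z)).card := by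
  obtain ⟨σ, hσ⟩ := act_trans y z
  obtain ⟨ρ, hρ⟩ := act_trans z y
  have h : ∀ a b : Sub r p, (∃ σ : Equiv.Perm (Fin r), act σ a = b) →
      (univ.filter (fun π : Equiv.Perm (Fin r) => act π x = a)).card ≤
      (univ.filter (fun π : Equiv.Perm (Fin r) => act π x = b)).card := by
    rintro a b ⟨σ, hσ⟩
    apply card_le_card_of_injOn (fun π => σ * π)
    · intro π hπ
      have : act π x = a := by simpa using hπ
      have h2 : act (σ * π) x = b := by rw [act_mul, this, hσ]
      simpa using h2
    · intro π _ π' _ h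
      exact mul_left_cancel h
  exact le_antisymm (h y z ⟨σ, hσ⟩) (h z y ⟨ρ, hρ⟩)

theorem count_mul {r p : ℕ} (x y : Sub r p) :
    Fintype.card (Sub r p) * (univ.filter (fun π : Equiv.Perm (Fin r) => act π x = y)).card =
      Fintype.card (Equiv.Perm (Fin r)) := by
  have h1 : Fintype.card (Equiv.Perm (Fin r)) =
      ∑ z : Sub r p, (univ.filter (fun π : Equiv.Perm (Fin r) => act π x = z)).card := by
    rw [← card_univ]
    exact card_eq_sum_card_fiberwise (fun π _ => mem_univ (act π x))
  rw [h1, sum_congr rfl (fun z _ => count_indep x z y), sum_const, smul_eq_mul, card_univ]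

/-- a function without fixed intersections covers all permutations -/
theorem covering {r p : ℕ} [Nonempty (Sub r p)] (g : Sub r p → Sub r p)
    (hg : ∀ x y, x ≠ y → ((g x).1 ∩ (g y).1).card ≠ (x.1 ∩ y.1).card) (π : Equiv.Perm (Fin r)) :
    ∃ x, act π x = g x := by
  have hdisj : ∀ x ∈ (univ : Finset (Sub r p)), ∀ y ∈ (univ : Finset (Sub r p)), x ≠ y →
      Disjoint (univ.filter (fun π : Equiv.Perm (Fin r) => act π x = g x))
        (univ.filter (fun π : Equiv.Perm (Fin r) => act π y = g y)) := by
    intro x _ y _ hxy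
    rw [disjoint_filter]
    intro π _ h1 h2
    apply hg x y hxy
    rw [← h1, ← h2, act_inter]
  have hcard : (univ.biUnion (fun x : Sub r p =>
      univ.filter (fun π : Equiv.Perm (Fin r) => act π x = g x))).card =
      Fintype.card (Equiv.Perm (Fin r)) := by
    rw [card_biUnion hdisj]
    have h1 : Fintype.card (Sub r p) * ∑ x : Sub r p,
        (univ.filter (fun π : Equiv.Perm (Fin r) => act π x = g x)).card =
        Fintype.card (Sub r p) * Fintype.card (Equiv.Perm (Fin r)) := by
      rw [mul_sum, sum_congr rfl (fun x _ => count_mul x (g x)), sum_const, smul_eq_mul, card_univ]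
    exact Nat.eq_of_mul_eq_mul_left Fintype.card_pos h1
  have huniv := (card_eq_iff_eq_univ _).1 hcard
  have hπ : π ∈ univ.biUnion (fun x : Sub r p =>
      univ.filter (fun π : Equiv.Perm (Fin r) => act π x = g x)) := by
    rw [huniv]
    exact mem_univ π
  obtain ⟨x, _, hx⟩ := mem_biUnion.1 hπ
  exact ⟨x, (mem_filter.1 hx).2⟩

/-- no function `g` avoids a permutation for every nonconstant pattern `f` -/
theorem no_avoid {r p : ℕ} [Nonempty (Sub r p)] (g0 : Sub r p → Sub r p)
    (hg0 : ∀ x y, x ≠ y → ((g0 x).1 ∩ (g0 y).1).card ≠ (x.1 ∩ y.1).card)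
    (hne : ∃ x y, g0 x ≠ g0 y) (g : Sub r p → Sub r p)
    (h : ∀ f : Sub r p → Sub r p, (∃ x y, f x ≠ f y) → ∃ π : Equiv.Perm (Fin r),
      ∀ x, act π x ≠ g (f x)) : False := by
  by_cases hinj : Function.Injective g
  · have hbij : Function.Bijective g := Finite.injective_iff_bijective.1 hinj
    obtain ⟨x, y, hxy⟩ := hne
    set f : Sub r p → Sub r p := fun z => (Equiv.ofBijective g hbij).symm (g0 z) with hf
    have hgf : ∀ z, g (f z) = g0 z := fun z => (Equiv.ofBijective g hbij).apply_symm_apply (g0 z)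
    obtain ⟨π, hπ⟩ := h f ⟨x, y, fun he => hxy (by rw [← hgf x, ← hgf y, he])⟩
    obtain ⟨z, hz⟩ := covering g0 hg0 π
    exact hπ z (by rw [hgf, hz])
  · unfold Function.Injective at hinj
    push Not at hinj
    obtain ⟨a, b, hab, hne'⟩ := hinj
    obtain ⟨π, hπ⟩ := h (fun x => if x = a then a else b) ⟨a, b, by
      simp only [if_true]
      rw [if_neg (Ne.symm hne')]
      exact hne'⟩
    have h1 : act π (act π⁻¹ (g a)) = g a := by
      rw [← act_mul, mul_inv_cancel]
      apply Subtype.ext
      show (g a).1.map (Function.Embedding.refl (Fin r)) = (g a).1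
      exact map_refl
    apply hπ (act π⁻¹ (g a))
    rw [h1]
    split_ifs
    · rfl
    · exact hab

/-- the pattern copy -/
def pat {r p k : ℕ} (ε : (Sub r p → Sub r p) × Fin r ≃ Fin k) (f : Sub r p → Sub r p) :
    Fin r ↪ Fin k :=
  ⟨fun i => ε (f, i), fun _ _ h => (Prod.ext_iff.1 (ε.injective h)).2⟩

open scoped Classical in
/-- the types of the universal structure -/
noncomputable def typ {r p k : ℕ} [Nonempty (Sub r p)] (ε : (Sub r p → Sub r p) × Fin r ≃ Fin k)
    (B : Finset (Fin k)) : Sub r p :=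
  if h : ∃ q : (Sub r p → Sub r p) × Sub r p, B = q.2.1.map (pat ε q.1) then
    h.choose.1 h.choose.2 else Classical.arbitrary _

theorem typ_pat {r p k : ℕ} (hp : 1 ≤ p) [Nonempty (Sub r p)]
    (ε : (Sub r p → Sub r p) × Fin r ≃ Fin k) (f : Sub r p → Sub r p) (x : Sub r p) :
    typ ε (x.1.map (pat ε f)) = f x := by
  have h : ∃ q : (Sub r p → Sub r p) × Sub r p, x.1.map (pat ε f) = q.2.1.map (pat ε q.1) :=
    ⟨(f, x), rfl⟩
  rw [typ, dif_pos h]
  have h1 := h.choose_spec
  set q := h.choose with hq
  obtain ⟨i, hi⟩ : x.1.Nonempty := card_pos.1 (by rw [x.2]; omega)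
  have h2 : pat ε f i ∈ q.2.1.map (pat ε q.1) := h1 ▸ mem_map_of_mem _ hi
  obtain ⟨j, _, hj⟩ := mem_map.1 h2
  have h3 : q.1 = f := (Prod.ext_iff.1 (ε.injective hj)).1
  rw [h3] at h1 ⊢
  have h4 : x.1 = q.2.1 := map_injective _ h1
  have h5 : x = q.2 := Subtype.ext h4
  rw [h5]

end Pool.Agent.X195.NR
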