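import Mathlib

/-!
# Accurate domination of partition coronas (MP_a24849_co), part 1

Definitions and counting in projective planes.
-/

namespace Pool.Agent.X195.PC

open Configuration

/-- A family `𝒫(v)` of partitions of the neighbourhoods of a graph. -/
structure NbrPartitions {V : Type*} (G : SimpleGraph V) where
  /-- the blocks of the partition at `v` -/
  blocks : V → Set (Set V)
  nonempty : ∀ v, ∀ A ∈ blocks v, A.Nonempty
  subset : ∀ v, ∀ A ∈ blocks v, A ⊆ G.neighborSet v
  exists_unique : ∀ v, ∀ u ∈ G.neighborSet v, ∃! A, A ∈ blocks v ∧ u ∈ A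

/-- The adjacency relation of the `𝒫`-corona. -/
def coronaAdj {V : Type*} {G : SimpleGraph V} (P : NbrPartitions G) :
    V ⊕ (Σ v, P.blocks v) → V ⊕ (Σ v, P.blocks v) → Prop
  | .inl _, .inl _ => False
  | .inl v, .inr b => b.1 = v
  | .inr b, .inl v => b.1 = v
  | .inr a, .inr b => b.1 ∈ (a.2 : Set V) ∧ a.1 ∈ (b.2 : Set V)

/-- The `𝒫`-corona `G ∘ 𝒫`. -/
def corona {V : Type*} {G : SimpleGraph V} (P : NbrPartitions G) :
    SimpleGraph (V ⊕ (Σ v, P.blocks v)) where
  Adj := coronaAdj P
  symm := ⟨by
    rintro (a | a) (b | b) h
    · exact h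
    · exact h
    · exact h
    · exact ⟨h.2, h.1⟩⟩
  loopless := ⟨by
    rintro (a | a) h
    · exact h
    · exact (G.irrefl (P.subset a.1 a.2 a.2.2 h.1))⟩

/-- dominating sets -/
def IsDominating {W : Type*} (H : SimpleGraph W) (D : Set W) : Prop :=
  ∀ w, w ∉ D → ∃ u ∈ D, H.Adj w u

/-- accurate dominating sets (in finite graphs) -/
def IsAccurate {W : Type*} (H : SimpleGraph W) (D : Set W) : Prop :=
  IsDominating H D ∧ ∀ D' : Set W, D' ⊆ Dᶜ → D'.ncard = D.ncard → ¬ IsDominating H D'

/-- the accurate domination number -/
noncomputable def gammaA {W : Type*} (H : SimpleGraph W) : ℕ :=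
  sInf {n | ∃ D : Set W, IsAccurate H D ∧ D.ncard = n}

section plane

variable {P L : Type*} [Membership P L] [ProjectivePlane P L] [Fintype P] [Fintype L]

open Classical in
theorem card_lines_through (v : P) :
    (Finset.univ.filter fun l : L => v ∈ l).card = ProjectivePlane.order P L + 1 := by
  rw [← ProjectivePlane.lineCount_eq (L := L) v, lineCount, Nat.card_eq_fintype_card,
    Fintype.card_subtype]

open Classical in
theorem card_points_on (l : L) :
    (Finset.univ.filter fun v : P => v ∈ l).card = ProjectivePlane.order P L + 1 := by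
  rw [← ProjectivePlane.pointCount_eq (P := P) l, pointCount, Nat.card_eq_fintype_card,
    Fintype.card_subtype]

open Classical in
theorem card_lines_through_two {v w : P} (h : v ≠ w) :
    (Finset.univ.filter fun l : L => v ∈ l ∧ w ∈ l).card = 1 := by
  rw [Finset.card_eq_one]
  obtain ⟨l, hl, hu⟩ := HasLines.existsUnique_line P L v w h
  refine ⟨l, ?_⟩
  ext m
  simp only [Finset.mem_filter, Finset.mem_univ, true_and, Finset.mem_singleton]
  exact ⟨fun hm => hu m hm, fun hm => hm ▸ hl⟩

open Classical in
/-- expansion of the incidence graph -/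
theorem expansion (B : Finset P) :
    (B.card * (ProjectivePlane.order P L + 1)) ^ 2 ≤
      (Finset.univ.filter fun l : L => ∃ v ∈ B, v ∈ l).card *
        (B.card * (ProjectivePlane.order P L + B.card)) := by
  set q := ProjectivePlane.order P L with hq
  set N := Finset.univ.filter fun l : L => ∃ v ∈ B, v ∈ l with hN
  let a : L → ℕ := fun l => (B.filter fun v => v ∈ l).card
  have ha : ∀ l, a l = ∑ v ∈ B, if v ∈ l then 1 else 0 := fun l => by
    simp only [a, Finset.card_filter]
  have ha0 : ∀ l, l ∉ N → a l = 0 := by
    intro l hl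
    simp only [a, Finset.card_eq_zero, Finset.filter_eq_empty_iff]
    intro v hv hvl
    exact hl (by simp only [hN, Finset.mem_filter, Finset.mem_univ, true_and]; exact ⟨v, hv, hvl⟩)
  have h1 : ∑ l ∈ N, a l = B.card * (q + 1) := by
    rw [Finset.sum_subset (Finset.subset_univ N) (fun l _ hl => ha0 l hl)]
    simp_rw [ha]
    rw [Finset.sum_comm]
    have : ∀ v ∈ B, ∑ l : L, (if v ∈ l then 1 else 0) = q + 1 := by
      intro v _
      rw [← Finset.card_filter, card_lines_through]
    rw [Finset.sum_congr rfl this, Finset.sum_const, smul_eq_mul]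
  have h2 : ∑ l ∈ N, a l ^ 2 = B.card * (q + B.card) := by
    rw [Finset.sum_subset (Finset.subset_univ N) (fun l _ hl => by rw [ha0 l hl]; rfl)]
    have h3 : ∀ l, a l ^ 2 = ∑ v ∈ B, ∑ w ∈ B, if v ∈ l ∧ w ∈ l then 1 else 0 := by
      intro l
      rw [sq, ha, Finset.sum_mul_sum]
      refine Finset.sum_congr rfl fun v _ => Finset.sum_congr rfl fun w _ => ?_
      by_cases h1 : v ∈ l <;> by_cases h2 : w ∈ l <;> simp [h1, h2]
    simp_rw [h3]
    rw [Finset.sum_comm]
    have h4 : ∀ v ∈ B, ∑ l : L, ∑ w ∈ B, (if v ∈ l ∧ w ∈ l then 1 else 0) = q + B.card := by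
      intro v hv
      rw [Finset.sum_comm, ← Finset.insert_erase hv, Finset.sum_insert (Finset.notMem_erase v B)]
      have h5 : ∑ l : L, (if v ∈ l ∧ v ∈ l then 1 else 0) = q + 1 := by
        rw [← Finset.card_filter]
        simp only [and_self]
        exact card_lines_through v
      have h6 : ∀ w ∈ B.erase v, ∑ l : L, (if v ∈ l ∧ w ∈ l then 1 else 0) = 1 := by
        intro w hw
        rw [← Finset.card_filter]
        exact card_lines_through_two (Finset.ne_of_mem_erase hw).symm
      rw [h5, Finset.sum_congr rfl h6, Finset.sum_const, smul_eq_mul, mul_one,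
        Finset.card_insert_of_notMem (Finset.notMem_erase v B)]
      ring
    rw [Finset.sum_congr rfl h4, Finset.sum_const, smul_eq_mul]
  calc (B.card * (q + 1)) ^ 2 = (∑ l ∈ N, a l) ^ 2 := by rw [h1]
    _ ≤ N.card * ∑ l ∈ N, a l ^ 2 := sq_sum_le_card_mul_sum_sq
    _ = _ := by rw [h2]

open Classical in
/-- Hall type lemma: a system of distinct flags avoiding the flags of a dominating set. -/
theorem exists_sdr (k : ℕ) (hk : 1 ≤ k) (hq : 2 * k + 1 ≤ ProjectivePlane.order P L)
    (C : Finset P) (F : Finset (P × L)) (hF : ∀ p ∈ F, p.1 ∈ p.2)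
    (h1 : ∀ v, v ∉ C → ∀ l : L, v ∈ l → ∃ u, (u, l) ∈ F)
    (h2 : ∀ v, v ∉ C → ∃ l, (v, l) ∈ F)
    (h3 : F.card + C.card ≤ Fintype.card P + k) :
    ∃ f : P → L, Function.Injective f ∧ ∀ v, v ∈ f v ∧ (v, f v) ∉ F := by
  set q := ProjectivePlane.order P L with hqdef
  have hn : Fintype.card P = q ^ 2 + q + 1 := ProjectivePlane.card_points P L
  set B : Finset P := Cᶜ with hB
  have hBC : B.card + C.card = Fintype.card P := by
    rw [hB, Finset.card_compl]
    have := Finset.card_le_univ C
    omega
  have hφ : F.card ≤ B.card + k := by omega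
  -- flags at points
  let φ : P → ℕ := fun v => (Finset.univ.filter fun l : L => (v, l) ∈ F).card
  have hφsum : ∑ v, φ v = F.card := by
    have h4 : F.card = ∑ p : P × L, if p ∈ F then 1 else 0 := by
      rw [← Finset.card_filter]
      congr 1
      ext p
      simp
    rw [h4, Fintype.sum_prod_type]
    refine Finset.sum_congr rfl fun v _ => ?_
    simp only [φ, Finset.card_filter]
  let t : P → Finset L := fun v => Finset.univ.filter fun l => v ∈ l ∧ (v, l) ∉ F
  have ht : ∀ v, (t v).card + φ v = q + 1 := by
    intro v
    rw [← card_lines_through (L := L) v]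
    simp only [t, φ]
    rw [← Finset.card_union_of_disjoint]
    · congr 1
      ext l
      simp only [Finset.mem_union, Finset.mem_filter, Finset.mem_univ, true_and]
      constructor
      · rintro (h | h)
        · exact h.1
        · exact hF _ h
      · intro h
        by_cases h' : (v, l) ∈ F
        · exact Or.inr h'
        · exact Or.inl ⟨h, h'⟩
    · rw [Finset.disjoint_left]
      intro l hl hl'
      simp only [Finset.mem_filter, Finset.mem_univ, true_and] at hl hl'
      exact hl.2 hl'
  -- the basic count
  have hcount : ∀ (s : Finset P) (M : ℕ),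
      (∀ l : L, (Finset.univ.filter fun v : P => v ∈ l ∧ (v, l) ∉ F).card ≤ M) →
      s.card * (q + 1) ≤ (s.biUnion t).card * M + ∑ v ∈ s, φ v := by
    intro s M hM
    have h5 : ∑ v ∈ s, (t v).card ≤ (s.biUnion t).card * M := by
      have h6 : ∀ v ∈ s, (t v).card = ∑ l ∈ s.biUnion t, if v ∈ l ∧ (v, l) ∉ F then 1 else 0 := by
        intro v hv
        rw [← Finset.card_filter]
        congr 1
        ext l
        simp only [t, Finset.mem_filter, Finset.mem_univ, true_and, Finset.mem_biUnion]
        exact ⟨fun h => ⟨⟨v, hv, h⟩, h⟩, fun h => h.2⟩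
      rw [Finset.sum_congr rfl h6, Finset.sum_comm]
      have h7 : ∀ l ∈ s.biUnion t, ∑ v ∈ s, (if v ∈ l ∧ (v, l) ∉ F then 1 else 0) ≤ M := by
        intro l _
        rw [← Finset.card_filter]
        refine le_trans (Finset.card_le_card ?_) (hM l)
        intro v hv
        simp only [Finset.mem_filter, Finset.mem_univ, true_and] at hv ⊢
        exact hv.2
      refine (Finset.sum_le_sum h7).trans ?_
      rw [Finset.sum_const, smul_eq_mul]
    have h8 : ∑ v ∈ s, ((t v).card + φ v) = s.card * (q + 1) := by
      rw [Finset.sum_congr rfl (fun v _ => ht v), Finset.sum_const, smul_eq_mul]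
    rw [Finset.sum_add_distrib] at h8
    omega
  -- Hall's condition
  have hall : ∀ s : Finset P, s.card ≤ (s.biUnion t).card := by
    intro s
    rcases Nat.eq_zero_or_pos B.card with hB0 | hB0
    · -- all centres are in `D`
      have h5 := hcount s (q + 1) (fun l => by
        rw [← card_points_on (P := P) l]
        apply Finset.card_le_card
        intro v hv
        simp only [Finset.mem_filter, Finset.mem_univ, true_and] at hv ⊢
        exact hv.1)
      have h6 : ∑ v ∈ s, φ v ≤ k := by
        calc ∑ v ∈ s, φ v ≤ ∑ v, φ v :=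
              Finset.sum_le_sum_of_subset (Finset.subset_univ s)
          _ = F.card := hφsum
          _ ≤ k := by omega
      by_contra hcon
      push Not at hcon
      have h7 : ((s.biUnion t).card + 1) * (q + 1) ≤ s.card * (q + 1) :=
        Nat.mul_le_mul_right _ hcon
      nlinarith
    · -- the complement of `B` is small
      have hC : C.card < 2 * k := by
        have hexp := expansion (L := L) B
        have hNF : (Finset.univ.filter fun l : L => ∃ v ∈ B, v ∈ l).card ≤ F.card := by
          have : (Finset.univ.filter fun l : L => ∃ v ∈ B, v ∈ l) ⊆ F.image Prod.snd := by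
            intro l hl
            simp only [Finset.mem_filter, Finset.mem_univ, true_and] at hl
            obtain ⟨v, hv, hvl⟩ := hl
            obtain ⟨u, hu⟩ := h1 v (by simpa [hB] using hv) l hvl
            exact Finset.mem_image.2 ⟨(u, l), hu, rfl⟩
          exact (Finset.card_le_card this).trans Finset.card_image_le
        rw [← hqdef] at hexp
        have h5 : (B.card * (q + 1)) ^ 2 ≤ (B.card + k) * (B.card * (q + B.card)) :=
          hexp.trans (Nat.mul_le_mul_right _ (hNF.trans hφ))
        have h6 : B.card * (q + 1) ^ 2 ≤ (B.card + k) * (q + B.card) := by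
          have : B.card * (B.card * (q + 1) ^ 2) ≤ B.card * ((B.card + k) * (q + B.card)) := by
            calc B.card * (B.card * (q + 1) ^ 2) = (B.card * (q + 1)) ^ 2 := by ring
              _ ≤ _ := h5
              _ = _ := by ring
          exact Nat.le_of_mul_le_mul_left this hB0
        by_contra hcon
        push Not at hcon
        -- β c ≤ k (q + β)
        have h7 : B.card * C.card ≤ k * (q + B.card) := by
          have h8 : B.card * (B.card + C.card) = B.card * (q ^ 2 + q + 1) := by
            rw [hBC, hn]
          nlinarith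
        -- β k ≤ β (c - k) ≤ k q
        have h8 : B.card * k ≤ k * q := by nlinarith
        have h9 : B.card ≤ q := by
          rw [mul_comm] at h8
          exact Nat.le_of_mul_le_mul_left h8 hk
        have h10 : q ^ 2 + 1 ≤ C.card := by omega
        nlinarith
      -- every line is hit
      have hhit : ∀ l : L, ∃ u, (u, l) ∈ F := by
        intro l
        by_contra hcon
        have h5 : (Finset.univ.filter fun v : P => v ∈ l) ⊆ C := by
          intro v hv
          simp only [Finset.mem_filter, Finset.mem_univ, true_and] at hv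
          by_contra hvC
          exact hcon (h1 v hvC l hv)
        have h6 := Finset.card_le_card h5
        rw [card_points_on] at h6
        omega
      have h5 := hcount s q (fun l => by
        obtain ⟨u, hu⟩ := hhit l
        have h6 : (Finset.univ.filter fun v : P => v ∈ l ∧ (v, l) ∉ F) ⊆
            (Finset.univ.filter fun v : P => v ∈ l).erase u := by
          intro v hv
          simp only [Finset.mem_filter, Finset.mem_univ, true_and, Finset.mem_erase] at hv ⊢
          refine ⟨?_, hv.1⟩
          rintro rfl
          exact hv.2 hu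
        have h7 := Finset.card_le_card h6
        rw [Finset.card_erase_of_mem (by simpa using hF _ hu), card_points_on] at h7
        simpa using h7)
      have h6 : ∑ v ∈ s, φ v ≤ s.card + k := by
        have h7 : ∑ v ∈ s, φ v + ∑ v ∈ sᶜ, φ v = F.card := by
          rw [Finset.sum_add_sum_compl, hφsum]
        have h8 : (B ∩ sᶜ).card ≤ ∑ v ∈ sᶜ, φ v := by
          calc (B ∩ sᶜ).card = ∑ v ∈ B ∩ sᶜ, 1 := by simp
            _ ≤ ∑ v ∈ B ∩ sᶜ, φ v := by
                apply Finset.sum_le_sum
                intro v hv
                have hvB : v ∉ C := by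
                  have := Finset.mem_of_mem_inter_left hv
                  simpa [hB] using this
                obtain ⟨l, hl⟩ := h2 v hvB
                exact Finset.card_pos.2 ⟨l, by simpa using hl⟩
            _ ≤ ∑ v ∈ sᶜ, φ v := Finset.sum_le_sum_of_subset Finset.inter_subset_right
        have h9 : B.card ≤ (B ∩ sᶜ).card + s.card := by
          have : B ⊆ (B ∩ sᶜ) ∪ s := by
            intro v hv
            by_cases hvs : v ∈ s
            · exact Finset.mem_union_right _ hvs
            · exact Finset.mem_union_left _ (by simp [hv, hvs])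
          exact (Finset.card_le_card this).trans (Finset.card_union_le _ _)
        omega
      by_contra hcon
      push Not at hcon
      have h7 : ((s.biUnion t).card + 1) * q ≤ s.card * q :=
        Nat.mul_le_mul_right _ hcon
      nlinarith
  obtain ⟨f, hf, hf2⟩ := (Finset.all_card_le_biUnion_card_iff_exists_injective t).1 hall
  refine ⟨f, hf, fun v => ?_⟩
  have := hf2 v
  simpa [t] using this

end plane

end Pool.Agent.X195.PC
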