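import Pool.Agent.X195.PC1

/-!
# Accurate domination of partition coronas (MP_a24849_co), part 2

The corona of the complete graph on the points of a projective plane, blocks = lines.
-/

namespace Pool.Agent.X195.PC

open Configuration

section plane

variable (P L : Type*) [Membership P L] [ProjectivePlane P L] [Fintype P] [Fintype L]

variable {P L} in
/-- the block of the flag `(v, l)` -/
def blk (v : P) (l : L) : Set P := {u | u ∈ l ∧ u ≠ v}

omit [Fintype P] [Fintype L] in
theorem exists_other [Finite P] [Finite L] (v : P) (l : L) : ∃ u, u ∈ l ∧ u ≠ v := by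
  have h := ProjectivePlane.two_lt_pointCount P l
  by_contra hcon
  push Not at hcon
  have : Subsingleton {p : P // p ∈ l} :=
    ⟨fun a b => Subtype.ext ((hcon a a.2).trans (hcon b b.2).symm)⟩
  have h2 : Nat.card {p : P // p ∈ l} ≤ 1 := Finite.card_le_one_iff_subsingleton.2 this
  unfold pointCount at h
  omega

/-- the partitions given by the lines -/
def parts : NbrPartitions (⊤ : SimpleGraph P) where
  blocks v := {A | ∃ l : L, v ∈ l ∧ A = blk v l}
  nonempty := by
    rintro v _ ⟨l, hl, rfl⟩
    exact exists_other P L v l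
  subset := by
    rintro v _ ⟨l, hl, rfl⟩ u hu
    simp only [SimpleGraph.mem_neighborSet, SimpleGraph.top_adj]
    exact hu.2.symm
  exists_unique := by
    intro v u hu
    simp only [SimpleGraph.mem_neighborSet, SimpleGraph.top_adj] at hu
    obtain ⟨l, hl, hl2⟩ := HasLines.existsUnique_line P L v u hu
    refine ⟨blk v l, ⟨⟨l, hl.1, rfl⟩, hl.2, hu.symm⟩, ?_⟩
    rintro _ ⟨⟨m, hm, rfl⟩, hum⟩
    rw [hl2 m ⟨hm, hum.1⟩]

variable {P L}

/-- blocks of flags -/
def fl (v : P) (l : L) (h : v ∈ l) : Σ v, (parts P L).blocks v := ⟨v, blk v l, l, h, rfl⟩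

theorem fl_injective {v v' : P} {l l' : L} {h : v ∈ l} {h' : v' ∈ l'}
    (he : fl v l h = fl v' l' h') : v = v' ∧ l = l' := by
  have h1 : v = v' := congrArg Sigma.fst he
  subst h1
  refine ⟨rfl, ?_⟩
  have h2 : blk v l = blk v l' := by
    have := (Sigma.mk.inj_iff.1 he).2
    exact congrArg Subtype.val (eq_of_heq this)
  obtain ⟨u, hu, hu2⟩ := exists_other P L v l
  have h3 : u ∈ blk v l' := h2 ▸ ⟨hu, hu2⟩
  rcases Nondegenerate.eq_or_eq hu h h3.1 h' with h4 | h4
  · exact absurd h4 hu2
  · exact h4

theorem exists_fl (b : Σ v, (parts P L).blocks v) : ∃ v l h, b = fl v l h := by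
  obtain ⟨v, A, l, h, rfl⟩ := b
  exact ⟨v, l, h, rfl⟩

theorem adj_fl {v v' : P} {l l' : L} {h : v ∈ l} {h' : v' ∈ l'} :
    (corona (parts P L)).Adj (.inr (fl v l h)) (.inr (fl v' l' h')) ↔ v ≠ v' ∧ l = l' := by
  constructor
  · rintro ⟨h1, h2⟩
    have h1 : v' ∈ l ∧ v' ≠ v := h1
    have h2 : v ∈ l' ∧ v ≠ v' := h2
    refine ⟨h2.2, ?_⟩
    rcases Nondegenerate.eq_or_eq h h1.1 h2.1 h' with h4 | h4
    · exact absurd h4 h2.2
    · exact h4
  · rintro ⟨h1, rfl⟩
    exact ⟨⟨h', h1.symm⟩, ⟨h, h1⟩⟩

open Classical in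
/-- the vertex of a pair -/
noncomputable def gv (p : P × L) : P ⊕ (Σ v, (parts P L).blocks v) :=
  if h : p.1 ∈ p.2 then .inr (fl p.1 p.2 h) else .inl p.1

theorem gv_of_mem {v : P} {l : L} (h : v ∈ l) : gv (v, l) = .inr (fl v l h) := by
  simp [gv, h]

/-- Main step: every small dominating set has a dominating set of the same size in its
complement. -/
theorem small_not_accurate (k : ℕ) (hk : 1 ≤ k) (hq : 2 * k + 1 ≤ ProjectivePlane.order P L)
    (D : Set (P ⊕ (Σ v, (parts P L).blocks v))) (hD : IsDominating (corona (parts P L)) D)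
    (hcard : D.ncard ≤ Fintype.card P + k) : ¬ IsAccurate (corona (parts P L)) D := by
  classical
  rintro ⟨-, hacc⟩
  set q := ProjectivePlane.order P L with hqdef
  have hn : Fintype.card P = q ^ 2 + q + 1 := ProjectivePlane.card_points P L
  let W := P ⊕ (Σ v, (parts P L).blocks v)
  have : Finite W := inferInstance
  have : Fintype W := Fintype.ofFinite W
  set Df : Finset W := D.toFinset with hDf
  have hDf' : D.ncard = Df.card := Set.ncard_eq_toFinset_card' D
  let C : Finset P := Finset.univ.filter fun v => (.inl v : W) ∈ D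
  let F : Finset (P × L) := Finset.univ.filter fun p => p.1 ∈ p.2 ∧ (gv p : W) ∈ D
  -- F and C are counted by D
  have h3 : F.card + C.card ≤ D.ncard := by
    rw [hDf']
    have hinjF : Set.InjOn (gv : P × L → W) F := by
      rintro ⟨v, l⟩ h ⟨v', l'⟩ h' he
      simp only [F, Finset.coe_filter, Finset.mem_univ, true_and, Set.mem_ofPred_eq] at h h'
      rw [gv_of_mem h.1, gv_of_mem h'.1] at he
      obtain ⟨h1, h2⟩ := fl_injective (Sum.inr_injective he)
      rw [h1, h2]
    have hinjC : Set.InjOn (Sum.inl : P → W) C := Sum.inl_injective.injOn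
    rw [← Finset.card_image_of_injOn hinjF, ← Finset.card_image_of_injOn hinjC,
      ← Finset.card_union_of_disjoint]
    · apply Finset.card_le_card
      intro w hw
      rw [Finset.mem_union, Finset.mem_image, Finset.mem_image] at hw
      rcases hw with ⟨p, hp, rfl⟩ | ⟨v, hv, rfl⟩
      · simp only [F, Finset.mem_filter, Finset.mem_univ, true_and] at hp
        simpa [hDf] using hp.2
      · simp only [C, Finset.mem_filter, Finset.mem_univ, true_and] at hv
        simpa [hDf] using hv
    · rw [Finset.disjoint_left]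
      intro w hw hw'
      rw [Finset.mem_image] at hw hw'
      obtain ⟨⟨v, l⟩, hp, rfl⟩ := hw
      obtain ⟨v', hv', he⟩ := hw'
      simp only [F, Finset.mem_filter, Finset.mem_univ, true_and] at hp
      rw [gv_of_mem hp.1] at he
      exact Sum.inl_ne_inr he
  have hF : ∀ p ∈ F, p.1 ∈ p.2 := fun p hp => by
    simp only [F, Finset.mem_filter, Finset.mem_univ, true_and] at hp
    exact hp.1
  have hmemF : ∀ {v : P} {l : L} (h : v ∈ l), (.inr (fl v l h) : W) ∈ D → (v, l) ∈ F := by
    intro v l h hd
    simp only [F, Finset.mem_filter, Finset.mem_univ, true_and]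
    exact ⟨h, by rw [gv_of_mem h]; exact hd⟩
  have h1 : ∀ v, v ∉ C → ∀ l : L, v ∈ l → ∃ u, (u, l) ∈ F := by
    intro v hv l hl
    by_cases hd : (.inr (fl v l hl) : W) ∈ D
    · exact ⟨v, hmemF hl hd⟩
    · obtain ⟨u, hu, hadj⟩ := hD _ hd
      rcases u with u | b
      · have hadj : v = u := hadj
        subst hadj
        exact absurd hu (by simpa [C] using hv)
      · obtain ⟨v', l', h', rfl⟩ := exists_fl b
        obtain ⟨-, rfl⟩ := adj_fl.1 hadj
        exact ⟨v', hmemF h' hu⟩
  have h2 : ∀ v, v ∉ C → ∃ l, (v, l) ∈ F := by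
    intro v hv
    have hv' : (.inl v : W) ∉ D := by simpa [C] using hv
    obtain ⟨u, hu, hadj⟩ := hD _ hv'
    rcases u with u | b
    · exact hadj.elim
    · obtain ⟨v', l', h', rfl⟩ := exists_fl b
      have hadj : v' = v := hadj
      subst hadj
      exact ⟨l', hmemF h' hu⟩
  obtain ⟨f, hf, hf2⟩ := exists_sdr k hk hq C F hF h1 h2 (h3.trans hcard)
  have hsurj : Function.Surjective f := by
    have hc : Fintype.card P = Fintype.card L := ProjectivePlane.card_points_eq_card_lines P L
    exact ((Fintype.bijective_iff_injective_and_card f).2 ⟨hf, hc⟩).2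
  -- the new dominating set
  let g : P → W := fun v => .inr (fl v (f v) (hf2 v).1)
  have hg : Function.Injective g := fun v v' h => (fl_injective (Sum.inr_injective h)).1
  have hgD : ∀ v, g v ∉ D := fun v h => (hf2 v).2 (hmemF _ h)
  have hdom : ∀ S : Set W, Set.range g ⊆ S → IsDominating (corona (parts P L)) S := by
    intro S hS w hw
    rcases w with v | b
    · exact ⟨g v, hS ⟨v, rfl⟩, (rfl : v = v)⟩
    · obtain ⟨v, l, h, rfl⟩ := exists_fl b
      obtain ⟨u, rfl⟩ := hsurj l
      refine ⟨g u, hS ⟨u, rfl⟩, ?_⟩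
      refine adj_fl.2 ⟨?_, rfl⟩
      rintro rfl
      exact hw (hS ⟨v, rfl⟩)
  -- sizes
  have hFB : Fintype.card P ≤ Df.card := by
    rw [← hDf']
    refine le_trans ?_ h3
    have h4 : Cᶜ.card ≤ F.card := by
      have : Cᶜ ⊆ F.image Prod.fst := by
        intro v hv
        obtain ⟨l, hl⟩ := h2 v (by simpa using hv)
        exact Finset.mem_image.2 ⟨(v, l), hl, rfl⟩
      exact (Finset.card_le_card this).trans Finset.card_image_le
    rw [Finset.card_compl] at h4
    have := Finset.card_le_univ C
    omega
  have hW : 2 * (Fintype.card P + k) ≤ Fintype.card W := by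
    -- flags and centres
    let Fl : Finset (P × L) := Finset.univ.filter fun p => p.1 ∈ p.2
    have hFl : Fl.card = Fintype.card P * (q + 1) := by
      have h4 : Fl.card = ∑ v : P, (Finset.univ.filter fun l : L => v ∈ l).card := by
        simp only [Fl, Finset.card_filter]
        rw [Fintype.sum_prod_type]
      rw [h4]
      simp_rw [card_lines_through (P := P) (L := L)]
      rw [Finset.sum_const, smul_eq_mul, Finset.card_univ]
    have hinj : Function.Injective (Sum.elim (Sum.inl : P → W)
        (fun p : Fl => (gv (p : P × L) : W))) := by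
      rintro (a | ⟨⟨v, l⟩, hp⟩) (b | ⟨⟨v', l'⟩, hp'⟩) h
      · simp only [Sum.elim_inl] at h
        rw [Sum.inl_injective h]
      · simp only [Fl, Finset.mem_filter, Finset.mem_univ, true_and] at hp'
        simp only [Sum.elim_inl, Sum.elim_inr] at h
        rw [gv_of_mem hp'] at h
        exact absurd h Sum.inl_ne_inr
      · simp only [Fl, Finset.mem_filter, Finset.mem_univ, true_and] at hp
        simp only [Sum.elim_inl, Sum.elim_inr] at h
        rw [gv_of_mem hp] at h
        exact absurd h.symm Sum.inl_ne_inr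
      · have hp1 : v ∈ l := by simpa [Fl] using hp
        have hp2 : v' ∈ l' := by simpa [Fl] using hp'
        simp only [Sum.elim_inr] at h
        rw [gv_of_mem hp1, gv_of_mem hp2] at h
        obtain ⟨h1, h2⟩ := fl_injective (Sum.inr_injective h)
        subst h1; subst h2
        rfl
    have h5 := Fintype.card_le_of_injective _ hinj
    rw [Fintype.card_sum, Fintype.card_coe, hFl] at h5
    refine le_trans ?_ h5
    have h6 : 2 * k ≤ Fintype.card P * q := by
      rw [hn]
      nlinarith
    nlinarith
  have hDc : Df.card ≤ Dfᶜ.card := by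
    rw [Finset.card_compl]
    omega
  obtain ⟨E, hE1, hE2, hE3⟩ := Finset.exists_subsuperset_card_eq (s := Finset.univ.image g)
    (t := Dfᶜ) (n := Df.card) (by
      intro w hw
      rw [Finset.mem_image] at hw
      obtain ⟨v, -, rfl⟩ := hw
      simpa [hDf] using hgD v) (by
      rw [Finset.card_image_of_injective _ hg, Finset.card_univ]
      exact hFB) hDc
  refine hacc (E : Set W) ?_ ?_ ?_
  · intro w hw
    have := hE2 hw
    simpa [hDf] using this
  · rw [hDf', Set.ncard_coe_finset, hE3]
  · apply hdom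
    rintro _ ⟨v, rfl⟩
    exact hE1 (Finset.mem_image_of_mem _ (Finset.mem_univ v))

/-- The accurate domination number of this corona. -/
theorem lt_gammaA (k : ℕ) (hk : 1 ≤ k) (hq : 2 * k + 1 ≤ ProjectivePlane.order P L) :
    Fintype.card P + k < gammaA (corona (parts P L)) := by
  have hne : {n | ∃ D : Set (P ⊕ (Σ v, (parts P L).blocks v)),
      IsAccurate (corona (parts P L)) D ∧ D.ncard = n}.Nonempty := by
    refine ⟨_, Set.univ, ⟨fun w hw => absurd (Set.mem_univ w) hw, ?_⟩, rfl⟩
    intro D' hD' hcard _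
    rw [Set.compl_univ, Set.subset_empty_iff] at hD'
    rw [hD', Set.ncard_empty] at hcard
    have : (Set.univ : Set (P ⊕ (Σ v, (parts P L).blocks v))).ncard ≠ 0 := by
      rw [Set.ncard_univ]
      have hP : Nonempty P := by
        obtain ⟨p, _⟩ := @ProjectivePlane.exists_config P L _ _
        exact ⟨p⟩
      exact Nat.card_pos.ne'
    exact this hcard.symm
  obtain ⟨D, hD, hDn⟩ := Nat.sInf_mem hne
  have h1 : gammaA (corona (parts P L)) = D.ncard := hDn.symm
  rw [h1]
  by_contra hcon
  push Not at hcon
  exact small_not_accurate k hk hq D hD.1 hcon hD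

end plane

/-- projective planes of large order -/
theorem exists_plane (m : ℕ) : ∃ (P L : Type) (_ : Membership P L) (_ : ProjectivePlane P L)
    (_ : Fintype P) (_ : Fintype L), m ≤ ProjectivePlane.order P L := by
  classical
  obtain ⟨p, hp, hprime⟩ := Nat.exists_infinite_primes (m ^ 2 + m + 1)
  have : Fact p.Prime := ⟨hprime⟩
  have : Finite (Projectivization (ZMod p) (Fin 3 → ZMod p)) := inferInstance
  have i1 : Fintype (Projectivization (ZMod p) (Fin 3 → ZMod p)) := Fintype.ofFinite _
  refine ⟨Projectivization (ZMod p) (Fin 3 → ZMod p), Projectivization (ZMod p) (Fin 3 → ZMod p),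
    inferInstance, inferInstance, i1, i1, ?_⟩
  set q := ProjectivePlane.order (Projectivization (ZMod p) (Fin 3 → ZMod p))
    (Projectivization (ZMod p) (Fin 3 → ZMod p)) with hq
  have h1 : Fintype.card (Projectivization (ZMod p) (Fin 3 → ZMod p)) = q ^ 2 + q + 1 :=
    ProjectivePlane.card_points _ _
  -- p points
  let g : ZMod p → Projectivization (ZMod p) (Fin 3 → ZMod p) := fun a =>
    Projectivization.mk (ZMod p) ![1, a, 0] (by
      intro h
      have := congrFun h 0
      simp at this)
  have hg : Function.Injective g := by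
    intro a b h
    rw [Projectivization.mk_eq_mk_iff'] at h
    obtain ⟨c, hc⟩ := h
    have h0 := congrFun hc 0
    have h1 := congrFun hc 1
    simp at h0 h1
    rw [h0, one_mul] at h1
    exact h1.symm
  have h2 := Fintype.card_le_of_injective g hg
  rw [ZMod.card, h1] at h2
  by_contra hcon
  push Not at hcon
  nlinarith

end Pool.Agent.X195.PC
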