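import Mathlib
set_option autoImplicit false
open MeasureTheory

namespace Pool.Agent.X195.TILF

/-- lower bound for `|1-exp(2πi n/M)|` -/
lemma low (M : ℕ) [NeZero M] (n : ℕ) (hn : n ≤ M) :
    4 * (min n (M - n) : ℕ) / (M : ℝ) ≤ ‖(1 : ℂ) - ZMod.stdAddChar ((n : ℕ) : ZMod M)‖ := by
  have hM : (0 : ℝ) < M := by exact_mod_cast Nat.pos_of_ne_zero (NeZero.ne M)
  have hpi := Real.pi_pos
  have h1 : (ZMod.stdAddChar ((n : ℕ) : ZMod M) : ℂ) =
      Complex.exp (Complex.I * ((2 * Real.pi * n / M : ℝ) : ℂ)) := by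
    have := ZMod.stdAddChar_coe (N := M) (n : ℤ)
    rw [Int.cast_natCast] at this
    rw [this]
    congr 1
    push_cast
    ring
  rw [h1, norm_sub_rev, Complex.norm_exp_I_mul_ofReal_sub_one, Real.norm_eq_abs, abs_mul,
    abs_of_pos (by norm_num : (0:ℝ) < 2)]
  have h2 : (2 * Real.pi * n / M / 2 : ℝ) = Real.pi * n / M := by ring
  rw [h2]
  rcases le_total n (M - n) with h | h
  · rw [min_eq_left h]
    have h3 : (Real.pi * n / M) ≤ Real.pi / 2 := by
      rw [div_le_div_iff₀ hM (by norm_num)]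
      have : ((n + n : ℕ) : ℝ) ≤ M := by exact_mod_cast (by omega)
      push_cast at this
      nlinarith
    have h4 := Real.mul_le_sin (x := Real.pi * n / M) (by positivity) h3
    have h5 : 2 / Real.pi * (Real.pi * n / M) = 2 * n / M := by
      field_simp
    rw [h5] at h4
    have h6 := le_abs_self (Real.sin (Real.pi * n / M))
    have h7 : (4 * (n : ℝ) / M) = 2 * (2 * n / M) := by ring
    rw [h7]
    linarith
  · rw [min_eq_right h]
    have h3 : (Real.pi * ((M - n : ℕ) : ℝ) / M) ≤ Real.pi / 2 := by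
      rw [div_le_div_iff₀ hM (by norm_num)]
      have : (((M - n) + (M - n) : ℕ) : ℝ) ≤ M := by exact_mod_cast (by omega)
      push_cast at this
      nlinarith
    have h4 := Real.mul_le_sin (x := Real.pi * ((M - n : ℕ) : ℝ) / M) (by positivity) h3
    have h5 : 2 / Real.pi * (Real.pi * ((M - n : ℕ) : ℝ) / M) = 2 * ((M - n : ℕ) : ℝ) / M := by
      field_simp
    rw [h5] at h4
    have h8 : Real.sin (Real.pi * n / M) = Real.sin (Real.pi * ((M - n : ℕ) : ℝ) / M) := by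
      rw [Nat.cast_sub hn, ← Real.sin_pi_sub]
      congr 1
      field_simp
    rw [h8]
    have h6 := le_abs_self (Real.sin (Real.pi * ((M - n : ℕ) : ℝ) / M))
    have h7 : (4 * ((M - n : ℕ) : ℝ) / M) = 2 * (2 * ((M - n : ℕ) : ℝ) / M) := by ring
    rw [h7]
    linarith

/-- the weight -/
noncomputable def y (M : ℕ) (t : ZMod M) : ℝ := Real.sqrt (max 1 (min t.val (M - t.val) : ℕ))

lemma y_pos (M : ℕ) (t : ZMod M) : 1 ≤ y M t := by
  unfold y
  rw [Real.one_le_sqrt]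
  exact_mod_cast le_max_left _ _

lemma low' (M : ℕ) [NeZero M] (t : ZMod M) :
    4 * (min t.val (M - t.val) : ℕ) / (M : ℝ) ≤ ‖(1 : ℂ) - ZMod.stdAddChar t‖ := by
  have := low M t.val t.val_lt.le
  rwa [ZMod.natCast_val, ZMod.cast_id] at this

lemma sum_inv_sqrt (n : ℕ) : ∑ i ∈ Finset.range n, 1 / Real.sqrt ((i : ℝ) + 1) ≤ 2 * Real.sqrt n := by
  induction n with
  | zero => simp
  | succ n ih =>
    rw [Finset.sum_range_succ]
    have h1 : 0 ≤ Real.sqrt n := Real.sqrt_nonneg _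
    have h2 : 0 < Real.sqrt ((n : ℝ) + 1) := Real.sqrt_pos.2 (by positivity)
    have h3 : Real.sqrt n ^ 2 = n := Real.sq_sqrt (by positivity)
    have h4 : Real.sqrt ((n : ℝ) + 1) ^ 2 = n + 1 := Real.sq_sqrt (by positivity)
    have h5 : 1 / Real.sqrt ((n : ℝ) + 1) ≤ 2 * (Real.sqrt ((n : ℝ) + 1) - Real.sqrt n) := by
      rw [div_le_iff₀ h2]
      nlinarith [sq_nonneg (Real.sqrt ((n : ℝ) + 1) - Real.sqrt n)]
    push_cast
    linarith

lemma sum_y (M : ℕ) [NeZero M] : ∑ t : ZMod M, 1 / y M t ≤ 5 * Real.sqrt M := by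
  have hM : 0 < M := Nat.pos_of_ne_zero (NeZero.ne M)
  have h0 : ∀ t : ZMod M, 1 / y M t ≤ 1 / Real.sqrt (max 1 t.val : ℕ) +
      1 / Real.sqrt ((M - t.val : ℕ) : ℝ) := by
    intro t
    have hv := t.val_lt
    unfold y
    rcases le_total t.val (M - t.val) with h | h
    · rw [min_eq_left h]
      have : (0 : ℝ) ≤ 1 / Real.sqrt ((M - t.val : ℕ) : ℝ) := by positivity
      push_cast
      linarith
    · rw [min_eq_right h]
      have h1 : (max 1 ((M - t.val : ℕ) : ℝ)) = ((M - t.val : ℕ) : ℝ) := by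
        apply max_eq_right
        exact_mod_cast (by omega : 1 ≤ M - t.val)
      rw [h1]
      have : (0 : ℝ) ≤ 1 / Real.sqrt ((max 1 t.val : ℕ) : ℝ) := by positivity
      linarith
  refine (Finset.sum_le_sum fun t _ => h0 t).trans ?_
  rw [Finset.sum_add_distrib]
  have e1 : ∀ f : ℕ → ℝ, ∑ t : ZMod M, f t.val = ∑ i ∈ Finset.range M, f i := by
    intro f
    refine Finset.sum_bij (fun t _ => t.val) ?_ ?_ ?_ ?_
    · intro t _; exact Finset.mem_range.2 t.val_lt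
    · intro a _ b _ h; exact ZMod.val_injective M h
    · intro b hb; exact ⟨(b : ZMod M), Finset.mem_univ _, ZMod.val_cast_of_lt (Finset.mem_range.1 hb)⟩
    · intro a _; rfl
  rw [e1 (fun n => 1 / Real.sqrt (max 1 n : ℕ)), e1 (fun n => 1 / Real.sqrt ((M - n : ℕ) : ℝ))]
  have h2 : ∑ i ∈ Finset.range M, 1 / Real.sqrt ((M - i : ℕ) : ℝ) ≤ 2 * Real.sqrt M := by
    rw [← Finset.sum_range_reflect]
    refine le_trans (le_of_eq ?_) (sum_inv_sqrt M)
    refine Finset.sum_congr rfl fun i hi => ?_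
    rw [Finset.mem_range] at hi
    congr 2
    have : M - (M - 1 - i) = i + 1 := by omega
    rw [this]; push_cast; ring
  have h3 : ∑ i ∈ Finset.range M, 1 / Real.sqrt ((max 1 i : ℕ) : ℝ) ≤ 1 + 2 * Real.sqrt M := by
    obtain ⟨m, rfl⟩ : ∃ m, M = m + 1 := ⟨M - 1, by omega⟩
    rw [Finset.sum_range_succ']
    have : ∑ k ∈ Finset.range m, 1 / Real.sqrt ((max 1 (k + 1) : ℕ) : ℝ) ≤ 2 * Real.sqrt m := by
      refine le_trans (le_of_eq ?_) (sum_inv_sqrt m)
      refine Finset.sum_congr rfl fun i hi => ?_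
      rw [max_eq_right (by omega : 1 ≤ i + 1)]
      push_cast; rfl
    have h4 : Real.sqrt m ≤ Real.sqrt ((m + 1 : ℕ) : ℝ) := Real.sqrt_le_sqrt (by push_cast; linarith)
    have h5 : 1 / Real.sqrt ((max 1 0 : ℕ) : ℝ) = 1 := by simp
    rw [h5]
    linarith
  have h6 : 1 ≤ Real.sqrt M := by
    rw [Real.one_le_sqrt]; exact_mod_cast hM
  linarith

/-- pointwise bound -/
lemma pw (M : ℕ) [NeZero M] (u : ZMod M) (hu : u ≠ 0) (x : Fin 4 → ZMod M) :
    1 / (‖(1 : ℂ) - ZMod.stdAddChar u‖ ^ 2 + ∑ j, ‖(1 : ℂ) - ZMod.stdAddChar (x j)‖ ^ 2)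
      ≤ (M : ℝ) ^ 2 / 16 * ∏ j, (1 / y M (x j)) := by
  have hM : (0 : ℝ) < M := by exact_mod_cast Nat.pos_of_ne_zero (NeZero.ne M)
  -- each y^4 ≤ 1 + ...
  have hu1 : (16 / (M : ℝ) ^ 2) ≤ ‖(1 : ℂ) - ZMod.stdAddChar u‖ ^ 2 := by
    have h1 := low' M u
    have h2 : 1 ≤ (min u.val (M - u.val) : ℕ) := by
      have h3 := u.val_lt
      have h4 : u.val ≠ 0 := by rwa [Ne, ZMod.val_eq_zero]
      omega
    have h3 : 4 / (M : ℝ) ≤ ‖(1 : ℂ) - ZMod.stdAddChar u‖ := by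
      refine le_trans ?_ h1
      gcongr
      have : (1 : ℝ) ≤ (min u.val (M - u.val) : ℕ) := by exact_mod_cast h2
      linarith
    have h4 : (16 / (M : ℝ) ^ 2) = (4 / (M : ℝ)) ^ 2 := by rw [div_pow]; norm_num
    rw [h4]
    exact pow_le_pow_left₀ (by positivity) h3 2
  set D := ‖(1 : ℂ) - ZMod.stdAddChar u‖ ^ 2 + ∑ j, ‖(1 : ℂ) - ZMod.stdAddChar (x j)‖ ^ 2 with hD
  have hy4 : ∀ j, 16 / (M : ℝ) ^ 2 * y M (x j) ^ 4 ≤ D := by
    intro j
    have hs : ∀ i, 0 ≤ ‖(1 : ℂ) - ZMod.stdAddChar (x i)‖ ^ 2 := fun i => by positivity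
    have hj : ‖(1 : ℂ) - ZMod.stdAddChar (x j)‖ ^ 2 ≤ ∑ j, ‖(1 : ℂ) - ZMod.stdAddChar (x j)‖ ^ 2 :=
      Finset.single_le_sum (f := fun i => ‖(1 : ℂ) - ZMod.stdAddChar (x i)‖ ^ 2)
        (fun i _ => hs i) (Finset.mem_univ j)
    have e : y M (x j) ^ 4 = (max 1 ((min (x j).val (M - (x j).val) : ℕ) : ℝ)) ^ 2 := by
      unfold y
      rw [show (4 : ℕ) = 2 * 2 by norm_num, pow_mul, Real.sq_sqrt (by positivity)]
    rw [e]
    rcases le_total (1 : ℝ) ((min (x j).val (M - (x j).val) : ℕ) : ℝ) with h | h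
    · rw [max_eq_right h]
      have h1 := low' M (x j)
      have h2 : 16 / (M : ℝ) ^ 2 * ((min (x j).val (M - (x j).val) : ℕ) : ℝ) ^ 2 ≤
          ‖(1 : ℂ) - ZMod.stdAddChar (x j)‖ ^ 2 := by
        have : 16 / (M : ℝ) ^ 2 * ((min (x j).val (M - (x j).val) : ℕ) : ℝ) ^ 2 =
          (4 * ((min (x j).val (M - (x j).val) : ℕ) : ℝ) / M) ^ 2 := by
          rw [div_pow, mul_pow]; ring
        rw [this]
        exact pow_le_pow_left₀ (by positivity) h1 2
      have h3 : 0 ≤ ‖(1 : ℂ) - ZMod.stdAddChar u‖ ^ 2 := by positivity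
      linarith
    · rw [max_eq_left h]
      have h3 : 0 ≤ ∑ j, ‖(1 : ℂ) - ZMod.stdAddChar (x j)‖ ^ 2 := Finset.sum_nonneg fun i _ => hs i
      linarith
  have hDpos : 0 < D := by
    have := hy4 0
    have h1 := y_pos M (x 0)
    refine lt_of_lt_of_le ?_ this
    positivity
  -- product
  obtain ⟨j0, hj0⟩ := Finite.exists_max (fun j => y M (x j))
  have hprod : ∏ j, y M (x j) ≤ y M (x j0) ^ 4 := by
    have := Finset.prod_le_prod (s := Finset.univ) (f := fun j : Fin 4 => y M (x j))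
      (g := fun _ => y M (x j0)) (fun j _ => (zero_le_one.trans (y_pos M (x j)))) (fun j _ => hj0 j)
    simpa using this
  have hpp : 0 < ∏ j, y M (x j) := Finset.prod_pos fun j _ => lt_of_lt_of_le one_pos (y_pos M (x j))
  have hfin : 16 / (M : ℝ) ^ 2 * ∏ j, y M (x j) ≤ D := by
    refine le_trans ?_ (hy4 j0)
    gcongr
  have : ∏ j, (1 / y M (x j)) = 1 / ∏ j, y M (x j) := by
    simp [Finset.prod_inv_distrib]
  rw [this]
  have h16 : (M : ℝ) ^ 2 / 16 * (1 / ∏ j, y M (x j)) = 1 / (16 / (M : ℝ) ^ 2 * ∏ j, y M (x j)) := by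
    field_simp
  rw [h16]
  exact one_div_le_one_div_of_le (by positivity) hfin

/-- sum bound -/
lemma sumbound (M : ℕ) [NeZero M] (u : ZMod M) (hu : u ≠ 0) :
    ∑ x : Fin 4 → ZMod M,
      1 / (‖(1 : ℂ) - ZMod.stdAddChar u‖ ^ 2 + ∑ j, ‖(1 : ℂ) - ZMod.stdAddChar (x j)‖ ^ 2)
      ≤ 40 * (M : ℝ) ^ 4 := by
  refine (Finset.sum_le_sum fun x _ => pw M u hu x).trans ?_
  have hM : (0 : ℝ) < M := by exact_mod_cast Nat.pos_of_ne_zero (NeZero.ne M)
  have h1 : ∑ x : Fin 4 → ZMod M, ∏ j, (1 / y M (x j)) = (∑ t : ZMod M, 1 / y M t) ^ 4 := by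
    rw [Finset.sum_pow']
    simp
  rw [← Finset.mul_sum, h1]
  have h2 : (∑ t : ZMod M, 1 / y M t) ^ 4 ≤ (5 * Real.sqrt M) ^ 4 := by
    refine pow_le_pow_left₀ (Finset.sum_nonneg fun t _ => ?_) (sum_y M) 4
    have := y_pos M t
    positivity
  have h3 : (5 * Real.sqrt M) ^ 4 = 625 * (M : ℝ) ^ 2 := by
    have : Real.sqrt M ^ 4 = (M : ℝ) ^ 2 := by
      rw [show (4 : ℕ) = 2 * 2 by norm_num, pow_mul, Real.sq_sqrt hM.le]
    rw [mul_pow, this]; norm_num
  rw [h3] at h2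
  have h4 : (M : ℝ) ^ 2 / 16 * (∑ t : ZMod M, 1 / y M t) ^ 4 ≤ (M : ℝ) ^ 2 / 16 * (625 * (M : ℝ) ^ 2) := by
    gcongr
  refine h4.trans ?_
  have : 0 ≤ (M : ℝ) ^ 4 := by positivity
  nlinarith


/-- averaging over a surjective homomorphism -/
lemma avg {A B : Type*} [AddCommGroup A] [AddCommGroup B] [Fintype A] [Fintype B]
    (f : A →+ B) (hf : Function.Surjective f) (F : B → ℝ) :
    (Fintype.card B : ℝ) * ∑ a, F (f a) = (Fintype.card A : ℝ) * ∑ b, F b := by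
  classical
  have h0 : ∀ b : B, (Finset.univ.filter fun a => f a = b).card =
      (Finset.univ.filter fun a => f a = 0).card := fun b =>
    AddMonoidHom.card_fiber_eq_of_mem_range f (hf b) (hf 0)
  set c := (Finset.univ.filter fun a => f a = 0).card with hc
  have h1 : ∑ a, F (f a) = ∑ b, (c : ℝ) * F b := by
    rw [← Finset.sum_fiberwise (s := Finset.univ) (g := f)]
    refine Finset.sum_congr rfl fun b _ => ?_
    rw [← h0 b, Finset.sum_congr rfl (g := fun _ => F b)]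
    · rw [Finset.sum_const, nsmul_eq_mul]
    · intro a ha
      rw [(Finset.mem_filter.1 ha).2]
  have h2 : (Fintype.card A : ℝ) = (Fintype.card B : ℝ) * c := by
    have := Finset.card_eq_sum_card_fiberwise (s := (Finset.univ : Finset A)) (t := Finset.univ)
      (f := f) (fun a _ => Finset.mem_univ _)
    rw [Finset.card_univ] at this
    rw [this, Finset.sum_congr rfl fun b _ => h0 b]
    simp
  rw [h1, h2, ← Finset.mul_sum]
  ring

end Pool.Agent.X195.TILF
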