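import Mathlib
import Pool.Agent.X195.TILF1
set_option autoImplicit false
open MeasureTheory

namespace Pool.Agent.X195.TILF

variable (p : ℕ) [hp : Fact p.Prime]

instance instNeZeroPow (k : ℕ) : NeZero (p ^ k) := ⟨pow_ne_zero _ hp.out.ne_zero⟩

lemma continuous_toZModPow (k : ℕ) :
    Continuous (fun x : ℤ_[p] => ((PadicInt.toZModPow k x : ZMod (p ^ k)))) := by
  rw [continuous_discrete_rng]
  intro b
  rw [Metric.isOpen_iff]
  intro x hx
  refine ⟨(p : ℝ) ^ (-(k : ℤ)), zpow_pos (by exact_mod_cast hp.out.pos) _, ?_⟩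
  intro z hz
  simp only [Set.mem_preimage, Set.mem_singleton_iff] at hx ⊢
  rw [← hx, ← sub_eq_zero, ← map_sub, ← RingHom.mem_ker, PadicInt.ker_toZModPow,
    ← PadicInt.norm_le_pow_iff_mem_span_pow]
  rw [Metric.mem_ball, dist_eq_norm] at hz
  exact hz.le

/-- the characters -/
noncomputable def ch (k : ℕ) (r : ZMod (p ^ k)) : C(ℤ_[p], ℂ) :=
  ⟨fun x => ZMod.stdAddChar (r * PadicInt.toZModPow k x),
    (continuous_of_discreteTopology (f := fun t : ZMod (p ^ k) =>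
      (ZMod.stdAddChar (r * t) : ℂ))).comp (continuous_toZModPow p k)⟩

variable {p}

lemma ch_apply (k : ℕ) (r : ZMod (p ^ k)) (x : ℤ_[p]) :
    ch p k r x = ZMod.stdAddChar (r * PadicInt.toZModPow k x) := rfl

lemma ch_norm (k : ℕ) (r : ZMod (p ^ k)) (x : ℤ_[p]) : ‖ch p k r x‖ = 1 := by
  rw [ch_apply, ZMod.stdAddChar_apply]
  exact Circle.norm_coe _

lemma ch_add (k : ℕ) (r : ZMod (p ^ k)) (x y : ℤ_[p]) :
    ch p k r (x + y) = ch p k r x * ch p k r y := by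
  rw [ch_apply, ch_apply, ch_apply, map_add, mul_add, AddChar.map_add_eq_mul]

lemma ch_mul (k : ℕ) (r s : ZMod (p ^ k)) : ch p k r * ch p k s = ch p k (r + s) := by
  ext x
  rw [ContinuousMap.mul_apply, ch_apply, ch_apply, ch_apply, add_mul, AddChar.map_add_eq_mul]

lemma ch_zero (k : ℕ) : ch p k 0 = 1 := by
  ext x
  rw [ch_apply, zero_mul, AddChar.map_zero_eq_one]; rfl

lemma ch_star (k : ℕ) (r : ZMod (p ^ k)) : star (ch p k r) = ch p k (-r) := by
  ext x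
  have h1 : ch p k r x * ch p k (-r) x = 1 := by
    rw [← ContinuousMap.mul_apply, ch_mul, add_neg_cancel, ch_zero]; rfl
  have h2 : ch p k r x * star (ch p k r x) = 1 := by
    have := Complex.mul_conj (ch p k r x)
    rw [Complex.normSq_eq_norm_sq, ch_norm] at this
    simpa using this
  have h3 : ch p k r x ≠ 0 := by
    rw [← norm_ne_zero_iff, ch_norm]; exact one_ne_zero
  rw [ContinuousMap.star_apply]
  exact mul_left_cancel₀ h3 (h2.trans h1.symm)

lemma compat (k : ℕ) (t : ZMod (p ^ (k + 1))) :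
    (ZMod.stdAddChar ((p : ZMod (p ^ (k + 1))) * t) : ℂ) =
      ZMod.stdAddChar (ZMod.castHom (pow_dvd_pow p (Nat.le_succ k)) (ZMod (p ^ k)) t) := by
  obtain ⟨n, rfl⟩ := ZMod.intCast_surjective t
  have hp0 : (p : ℂ) ≠ 0 := by exact_mod_cast hp.out.ne_zero
  rw [map_intCast]
  have e : ((p : ZMod (p ^ (k + 1))) * (n : ZMod (p ^ (k + 1)))) = (((p : ℤ) * n : ℤ) : ZMod (p ^ (k + 1))) := by
    push_cast; rfl
  rw [e, ZMod.stdAddChar_coe, ZMod.stdAddChar_coe]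
  congr 1
  push_cast
  field_simp
  ring

lemma ch_succ (k : ℕ) (s : ZMod (p ^ (k + 1))) :
    ch p (k + 1) ((p : ZMod (p ^ (k + 1))) * s) =
      ch p k (ZMod.castHom (pow_dvd_pow p (Nat.le_succ k)) (ZMod (p ^ k)) s) := by
  ext x
  rw [ch_apply, ch_apply, mul_assoc, compat, map_mul]
  congr 2
  have := PadicInt.zmod_cast_comp_toZModPow k (k + 1) (Nat.le_succ k) (p := p)
  exact DFunLike.congr_fun this x

lemma exists_succ (k : ℕ) (r : ZMod (p ^ k)) :
    ∃ s : ZMod (p ^ (k + 1)), ch p (k + 1) s = ch p k r := by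
  obtain ⟨s, hs⟩ := ZMod.castHom_surjective (pow_dvd_pow p (Nat.le_succ k)) r
  exact ⟨p * s, by rw [ch_succ, hs]⟩

lemma exists_le {k l : ℕ} (h : k ≤ l) (r : ZMod (p ^ k)) :
    ∃ s : ZMod (p ^ l), ch p l s = ch p k r := by
  induction l, h using Nat.le_induction with
  | base => exact ⟨r, rfl⟩
  | succ l _ ih =>
    obtain ⟨s, hs⟩ := ih
    obtain ⟨t, ht⟩ := exists_succ l s
    exact ⟨t, ht.trans hs⟩

/-- nontrivial characters come from units -/
lemma exists_unit (k : ℕ) (r : ZMod (p ^ k)) (hr : ch p k r ≠ 1) :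
    ∃ l ≤ k, ∃ u : ZMod (p ^ l), IsUnit u ∧ u ≠ 0 ∧ ch p k r = ch p l u := by
  induction k with
  | zero =>
    exfalso
    apply hr
    have : r = 0 := by
      have : Subsingleton (ZMod (p ^ 0)) := by rw [pow_zero]; infer_instance
      exact Subsingleton.elim _ _
    rw [this, ch_zero]
  | succ k ih =>
    by_cases hu : IsUnit r
    · refine ⟨k + 1, le_rfl, r, hu, ?_, rfl⟩
      rintro rfl
      exact hr (ch_zero _)
    · have hdiv : p ∣ r.val := by
        by_contra hnd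
        apply hu
        have h1 : Nat.Coprime r.val (p ^ (k + 1)) :=
          Nat.Coprime.pow_right _ ((Nat.Prime.coprime_iff_not_dvd hp.out).2 hnd).symm
        have h2 := (ZMod.isUnit_iff_coprime r.val (p ^ (k + 1))).2 h1
        rwa [ZMod.natCast_val, ZMod.cast_id] at h2
      obtain ⟨m, hm⟩ := hdiv
      have hr' : r = (p : ZMod (p ^ (k + 1))) * (m : ZMod (p ^ (k + 1))) := by
        have h3 : r = ((r.val : ℕ) : ZMod (p ^ (k + 1))) := by
          rw [ZMod.natCast_val, ZMod.cast_id]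
        rw [h3, hm]; push_cast; rfl
      have h4 : ch p (k + 1) r = ch p k (ZMod.castHom (pow_dvd_pow p (Nat.le_succ k)) (ZMod (p ^ k)) (m : ZMod (p ^ (k + 1)))) := by
        rw [hr', ch_succ]
      rw [h4] at hr
      obtain ⟨l, hl, u, h5, h6, h7⟩ := ih _ hr
      exact ⟨l, hl.trans (Nat.le_succ k), u, h5, h6, h4.trans h7⟩

/-- the sum of squares -/
noncomputable def D (χ : C(ℤ_[p], ℂ)) (a : Fin 4 → ℤ_[p]) : ℝ :=
  ‖1 - χ 1‖ ^ 2 + ∑ j, ‖1 - χ (a j)‖ ^ 2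

lemma D_cont (χ : C(ℤ_[p], ℂ)) : Continuous (D χ) := by
  unfold D
  fun_prop

lemma D_unit (l : ℕ) (u : ZMod (p ^ l)) (a : Fin 4 → ℤ_[p]) :
    D (ch p l u) a = ‖(1 : ℂ) - ZMod.stdAddChar u‖ ^ 2 +
      ∑ j, ‖(1 : ℂ) - ZMod.stdAddChar (u * PadicInt.toZModPow l (a j))‖ ^ 2 := by
  unfold D
  simp only [ch_apply, map_one, mul_one]

lemma D_pos (k : ℕ) (r : ZMod (p ^ k)) (hr : ch p k r ≠ 1) (a : Fin 4 → ℤ_[p]) :
    0 < D (ch p k r) a := by
  have hr0 : r ≠ 0 := by rintro rfl; exact hr (ch_zero k)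
  rw [D_unit]
  have h1 : (ZMod.stdAddChar r : ℂ) ≠ 1 := by
    intro h
    apply hr0
    apply ZMod.injective_stdAddChar
    rw [h, AddChar.map_zero_eq_one]
  have h2 : 0 < ‖(1 : ℂ) - ZMod.stdAddChar r‖ := by
    rw [norm_pos_iff, sub_ne_zero]; exact h1.symm
  have h3 : 0 ≤ ∑ j, ‖(1 : ℂ) - ZMod.stdAddChar (r * PadicInt.toZModPow k (a j))‖ ^ 2 :=
    Finset.sum_nonneg fun j _ => pow_nonneg (norm_nonneg _) 2
  exact add_pos_of_pos_of_nonneg (pow_pos h2 2) h3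

/-- lift of residues -/
noncomputable def lft (K : ℕ) (b : Fin 4 → ZMod (p ^ K)) : Fin 4 → ℤ_[p] := fun j => ((b j).val : ℤ_[p])

lemma toZModPow_lft {K l : ℕ} (h : l ≤ K) (b : Fin 4 → ZMod (p ^ K)) (j : Fin 4) :
    PadicInt.toZModPow l (lft K b j) = ZMod.castHom (pow_dvd_pow p h) (ZMod (p ^ l)) (b j) := by
  unfold lft
  rw [map_natCast, ZMod.castHom_apply]
  exact ZMod.natCast_val (b j)

/-- average at level `K` -/
lemma avgK (K k : ℕ) (hk : k ≤ K) (r : ZMod (p ^ k)) (hr : ch p k r ≠ 1) :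
    ∑ b : Fin 4 → ZMod (p ^ K), 1 / D (ch p k r) (lft K b) ≤ 40 * ((p ^ K : ℕ) : ℝ) ^ 4 := by
  obtain ⟨l, hl, u, hu, hu0, he⟩ := exists_unit k r hr
  rw [he]
  have hlK : l ≤ K := hl.trans hk
  set g := ZMod.castHom (pow_dvd_pow p hlK) (ZMod (p ^ l)) with hg
  have hgs : Function.Surjective g := ZMod.castHom_surjective _
  let f : (Fin 4 → ZMod (p ^ K)) →+ (Fin 4 → ZMod (p ^ l)) :=
    { toFun := fun b j => u * g (b j)
      map_zero' := by funext j; simp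
      map_add' := by intro a b; funext j; simp [mul_add] }
  have hf : Function.Surjective f := by
    intro c
    obtain ⟨v, hv⟩ := hu
    choose d hd using fun j => hgs (((v⁻¹ : (ZMod (p ^ l))ˣ) : ZMod (p ^ l)) * c j)
    refine ⟨d, ?_⟩
    funext j
    change u * g (d j) = c j
    rw [hd j, ← hv, ← mul_assoc, Units.mul_inv, one_mul]
  have h1 := avg f hf (fun x => 1 / (‖(1 : ℂ) - ZMod.stdAddChar u‖ ^ 2 +
    ∑ j, ‖(1 : ℂ) - ZMod.stdAddChar (x j)‖ ^ 2))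
  have h2 : ∀ b : Fin 4 → ZMod (p ^ K), 1 / D (ch p l u) (lft K b) =
      1 / (‖(1 : ℂ) - ZMod.stdAddChar u‖ ^ 2 + ∑ j, ‖(1 : ℂ) - ZMod.stdAddChar (f b j)‖ ^ 2) := by
    intro b
    rw [D_unit]
    congr 2
    refine Finset.sum_congr rfl fun j _ => ?_
    rw [toZModPow_lft hlK b j]
    rfl
  rw [Finset.sum_congr rfl fun b _ => h2 b]
  have h3 := sumbound (p ^ l) u hu0
  have cA : (Fintype.card (Fin 4 → ZMod (p ^ K)) : ℝ) = ((p ^ K : ℕ) : ℝ) ^ 4 := by
    rw [Fintype.card_pi]; simp [ZMod.card]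
  have cB : (Fintype.card (Fin 4 → ZMod (p ^ l)) : ℝ) = ((p ^ l : ℕ) : ℝ) ^ 4 := by
    rw [Fintype.card_pi]; simp [ZMod.card]
  rw [cA, cB] at h1
  have hpl : (0 : ℝ) < ((p ^ l : ℕ) : ℝ) ^ 4 := by
    have := hp.out.pos
    positivity
  have hpK : (0 : ℝ) < ((p ^ K : ℕ) : ℝ) ^ 4 := by
    have := hp.out.pos
    positivity
  have h4 := mul_le_mul_of_nonneg_left h3 hpK.le
  rw [← h1] at h4
  have h5 : ((p ^ K : ℕ) : ℝ) ^ 4 * (40 * ((p ^ l : ℕ) : ℝ) ^ 4) =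
    ((p ^ l : ℕ) : ℝ) ^ 4 * (40 * ((p ^ K : ℕ) : ℝ) ^ 4) := by ring
  rw [h5] at h4
  exact le_of_mul_le_mul_left h4 hpl

variable (p) in
/-- the set of characters -/
def S : Set C(ℤ_[p], ℂ) := {χ | ∃ k r, χ = ch p k r}

lemma mem_S (k : ℕ) (r : ZMod (p ^ k)) : ch p k r ∈ S p := ⟨k, r, rfl⟩

variable (p) in
/-- characters of level `K` -/
noncomputable def F (K : ℕ) : Finset (S p) := by
  classical
  exact Finset.univ.image fun r : ZMod (p ^ K) => (⟨ch p K r, mem_S K r⟩ : S p)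

lemma mem_F {K : ℕ} {χ : S p} : χ ∈ F p K ↔ ∃ r : ZMod (p ^ K), (χ : C(ℤ_[p], ℂ)) = ch p K r := by
  classical
  unfold F
  rw [Finset.mem_image]
  constructor
  · rintro ⟨r, _, rfl⟩; exact ⟨r, rfl⟩
  · rintro ⟨r, hr⟩; exact ⟨r, Finset.mem_univ _, Subtype.ext hr.symm⟩

lemma F_mono {K L : ℕ} (h : K ≤ L) : F p K ⊆ F p L := by
  intro χ hχ
  rw [mem_F] at hχ ⊢
  obtain ⟨r, hr⟩ := hχ
  obtain ⟨s, hs⟩ := exists_le h r
  exact ⟨s, hr.trans hs.symm⟩

lemma F_exhaust (s : Finset (S p)) : ∃ K, s ⊆ F p K := by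
  classical
  induction s using Finset.induction_on with
  | empty => exact ⟨0, Finset.empty_subset _⟩
  | insert χ s _ ih =>
    obtain ⟨K, hK⟩ := ih
    obtain ⟨k, r, hr⟩ := χ.2
    refine ⟨max K k, ?_⟩
    rw [Finset.insert_subset_iff]
    refine ⟨F_mono (le_max_right _ _) (mem_F.2 ⟨r, hr⟩), hK.trans (F_mono (le_max_left _ _))⟩

/-- main choice -/
lemma choice (w : S p → ℝ) (hw : ∀ χ, 0 ≤ w χ) (hs : Summable w)
    (h1 : ∀ χ : S p, (χ : C(ℤ_[p], ℂ)) = 1 → w χ = 0) :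
    ∃ a : Fin 4 → ℤ_[p], Summable fun χ : S p => w χ / D (χ : C(ℤ_[p], ℂ)) a := by
  classical
  set W := ∑' χ, w χ with hW
  let A : ℕ → Set (Fin 4 → ℤ_[p]) := fun K =>
    {a | ∑ χ ∈ F p K, w χ / D (χ : C(ℤ_[p], ℂ)) a ≤ 40 * W}
  have hterm : ∀ (χ : S p) (a : Fin 4 → ℤ_[p]), 0 ≤ w χ / D (χ : C(ℤ_[p], ℂ)) a := by
    intro χ a
    refine div_nonneg (hw χ) ?_
    unfold D
    have : 0 ≤ ∑ j, ‖1 - (χ : C(ℤ_[p], ℂ)) (a j)‖ ^ 2 := Finset.sum_nonneg fun _ _ => by positivity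
    positivity
  have hcont : ∀ χ : S p, Continuous fun a => w χ / D (χ : C(ℤ_[p], ℂ)) a := by
    intro χ
    by_cases hχ : (χ : C(ℤ_[p], ℂ)) = 1
    · rw [h1 χ hχ]; simp only [zero_div]; exact continuous_const
    · refine continuous_const.div (D_cont _) fun a => ?_
      obtain ⟨k, r, hr⟩ := χ.2
      rw [hr] at hχ ⊢
      exact (D_pos k r hχ a).ne'
  have hclosed : ∀ K, IsClosed (A K) := fun K =>
    isClosed_le (continuous_finsetSum _ fun χ _ => hcont χ) continuous_const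
  have hanti : ∀ K L, K ≤ L → A L ⊆ A K := by
    intro K L h a ha
    exact le_trans (Finset.sum_le_sum_of_subset_of_nonneg (F_mono h) fun χ _ _ => hterm χ a) ha
  have hne : ∀ K, (A K).Nonempty := by
    intro K
    have hsum : ∑ b : Fin 4 → ZMod (p ^ K), ∑ χ ∈ F p K, w χ / D (χ : C(ℤ_[p], ℂ)) (lft K b) ≤
        ∑ b : Fin 4 → ZMod (p ^ K), 40 * W := by
      rw [Finset.sum_comm]
      have h2 : ∀ χ ∈ F p K, ∑ b : Fin 4 → ZMod (p ^ K), w χ / D (χ : C(ℤ_[p], ℂ)) (lft K b) ≤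
          w χ * (40 * ((p ^ K : ℕ) : ℝ) ^ 4) := by
        intro χ hχ
        by_cases hχ1 : (χ : C(ℤ_[p], ℂ)) = 1
        · rw [h1 χ hχ1]; simp
        · obtain ⟨r, hr⟩ := mem_F.1 hχ
          rw [hr] at hχ1
          have h3 := avgK K K le_rfl r hχ1
          rw [hr]
          have h4 : ∑ b : Fin 4 → ZMod (p ^ K), w χ / D (ch p K r) (lft K b) =
              w χ * ∑ b : Fin 4 → ZMod (p ^ K), 1 / D (ch p K r) (lft K b) := by
            rw [Finset.mul_sum]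
            refine Finset.sum_congr rfl fun b _ => ?_
            rw [mul_one_div]
          rw [h4]
          exact mul_le_mul_of_nonneg_left h3 (hw χ)
      refine (Finset.sum_le_sum h2).trans ?_
      rw [← Finset.sum_mul, Finset.sum_const, Finset.card_univ, Fintype.card_pi, nsmul_eq_mul]
      simp only [ZMod.card, Finset.prod_const, Finset.card_univ, Fintype.card_fin]
      have h5 : ∑ χ ∈ F p K, w χ ≤ W := hs.sum_le_tsum _ fun χ _ => hw χ
      have h6 : (0 : ℝ) ≤ 40 * ((p ^ K : ℕ) : ℝ) ^ 4 := by positivity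
      have := mul_le_mul_of_nonneg_right h5 h6
      refine this.trans (le_of_eq ?_)
      push_cast
      ring
    obtain ⟨b, _, hb⟩ := Finset.exists_le_of_sum_le (Finset.univ_nonempty) hsum
    exact ⟨lft K b, hb⟩
  obtain ⟨a, ha⟩ := IsCompact.nonempty_iInter_of_sequence_nonempty_isCompact_isClosed A
    (fun K => hanti K (K + 1) (Nat.le_succ K)) hne (hclosed 0).isCompact hclosed
  rw [Set.mem_iInter] at ha
  refine ⟨a, summable_of_sum_le (c := 40 * W) (fun χ => hterm χ a) fun s => ?_⟩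
  obtain ⟨K, hK⟩ := F_exhaust s
  exact (Finset.sum_le_sum_of_subset_of_nonneg hK fun χ _ _ => hterm χ a).trans (ha K)

end Pool.Agent.X195.TILF
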