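import Mathlib
import Pool.Agent.X195.TILF2
set_option autoImplicit false
open MeasureTheory

namespace Pool.Agent.X195.TILF

/-- abstract lemma -/
lemma absl {ι J H : Type*} [Fintype J] [NormedAddCommGroup H] [InnerProductSpace ℂ H]
    [CompleteSpace H] (b : HilbertBasis ι ℂ H) (T : J → H →ₗᵢ[ℂ] H) (z : J → ι → ℂ)
    (hz : ∀ j i, ‖z j i‖ = 1) (hT : ∀ j i, T j (b i) = z j i • b i) (f : H) (D : ι → ℝ)
    (hD : ∀ i, D i = ∑ j, ‖1 - z j i‖ ^ 2) (hs : Summable fun i => ‖b.repr f i‖ ^ 2 / D i)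
    (h0 : ∀ i, D i = 0 → b.repr f i = 0) : ∃ g : J → H, f = ∑ j, (g j - T j (g j)) := by
  have hD0 : ∀ i, 0 ≤ D i := fun i => by
    rw [hD]; exact Finset.sum_nonneg fun j _ => by positivity
  have hle : ∀ i j, ‖1 - z j i‖ ^ 2 ≤ D i := fun i j => by
    rw [hD]
    exact Finset.single_le_sum (f := fun j => ‖1 - z j i‖ ^ 2) (fun j _ => by positivity)
      (Finset.mem_univ j)
  let c : J → ι → ℂ := fun j i => b.repr f i * (starRingEnd ℂ) (1 - z j i) / (D i : ℂ)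
  have hc : ∀ j i, ‖c j i‖ ^ 2 ≤ ‖b.repr f i‖ ^ 2 / D i := by
    intro j i
    rcases (hD0 i).eq_or_lt with h | h
    · have := h0 i h.symm
      simp only [c]
      rw [this]; simp
    · simp only [c]
      rw [norm_div, norm_mul, RCLike.norm_conj, div_pow, mul_pow, Complex.norm_real,
        Real.norm_eq_abs, abs_of_pos h, div_le_div_iff₀ (by positivity) h]
      have := hle i j
      have h1 : 0 ≤ ‖b.repr f i‖ ^ 2 := by positivity
      calc ‖b.repr f i‖ ^ 2 * ‖1 - z j i‖ ^ 2 * D i ≤ ‖b.repr f i‖ ^ 2 * D i * D i := by gcongr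
        _ = ‖b.repr f i‖ ^ 2 * D i ^ 2 := by ring
  have hmem : ∀ j, Memℓp (c j) 2 := by
    intro j
    rw [memℓp_gen_iff (by norm_num)]
    have : Summable fun i => ‖c j i‖ ^ 2 :=
      Summable.of_nonneg_of_le (fun i => by positivity) (hc j) hs
    simpa using this
  let g : J → H := fun j => b.repr.symm ⟨c j, hmem j⟩
  have hg : ∀ j i, b.repr (g j) i = c j i := by
    intro j i
    simp only [g, LinearIsometryEquiv.apply_symm_apply]
  have hTr : ∀ j (v : H) i, b.repr (T j v) i = z j i * b.repr v i := by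
    intro j v i
    rw [b.repr_apply_apply, b.repr_apply_apply]
    have h1 := (T j).inner_map_map (b i) v
    rw [hT j i, inner_smul_left] at h1
    have h2 : z j i * (starRingEnd ℂ) (z j i) = 1 := by
      rw [Complex.mul_conj, Complex.normSq_eq_norm_sq, hz]; simp
    rw [← h1, ← mul_assoc, h2, one_mul]
  refine ⟨g, ?_⟩
  apply b.repr.injective
  rw [map_sum]
  ext i
  rw [lp.coeFn_sum, Finset.sum_apply]
  have h3 : ∀ j, (b.repr (g j - T j (g j))) i = c j i * (1 - z j i) := by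
    intro j
    rw [map_sub, lp.coeFn_sub, Pi.sub_apply, hTr, hg]
    ring
  rw [Finset.sum_congr rfl fun j _ => h3 j]
  rcases (hD0 i).eq_or_lt with h | h
  · have := h0 i h.symm
    simp [c, this]
  · have h4 : ∀ j, c j i * (1 - z j i) = b.repr f i / (D i : ℂ) * ((‖1 - z j i‖ ^ 2 : ℝ) : ℂ) := by
      intro j
      simp only [c]
      have : (starRingEnd ℂ) (1 - z j i) * (1 - z j i) = ((‖1 - z j i‖ ^ 2 : ℝ) : ℂ) := by
        rw [mul_comm, Complex.mul_conj, Complex.normSq_eq_norm_sq]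
      rw [← this]; ring
    rw [Finset.sum_congr rfl fun j _ => h4 j, ← Finset.mul_sum, ← Complex.ofReal_sum, ← hD i,
      div_mul_cancel₀]
    exact_mod_cast h.ne'

variable {p : ℕ} [hp : Fact p.Prime]

section

variable [MeasurableSpace ℤ_[p]] [BorelSpace ℤ_[p]] (μ : Measure ℤ_[p]) [μ.IsAddHaarMeasure]

lemma integral_ch (k : ℕ) (r : ZMod (p ^ k)) (hr : ch p k r ≠ 1) : ∫ x, ch p k r x ∂μ = 0 := by
  obtain ⟨a, ha⟩ : ∃ a, ch p k r a ≠ 1 := by
    by_contra hcon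
    push Not at hcon
    exact hr (ContinuousMap.ext hcon)
  have h1 : ∫ x, ch p k r (x + a) ∂μ = ∫ x, ch p k r x ∂μ := integral_add_right_eq_self _ a
  simp_rw [ch_add] at h1
  rw [integral_mul_const] at h1
  have h2 : (∫ x, ch p k r x ∂μ) * (ch p k r a - 1) = 0 := by rw [mul_sub, h1]; ring
  rcases mul_eq_zero.1 h2 with h | h
  · exact h
  · exact absurd (sub_eq_zero.1 h) ha

omit [MeasurableSpace ℤ_[p]] [BorelSpace ℤ_[p]] in
lemma S_common (χ χ' : S p) : ∃ k r s, (χ : C(ℤ_[p], ℂ)) = ch p k r ∧ (χ' : C(ℤ_[p], ℂ)) = ch p k s := by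
  obtain ⟨k, r, hr⟩ := χ.2
  obtain ⟨l, s, hs⟩ := χ'.2
  obtain ⟨r', hr'⟩ := exists_le (le_max_left k l) r
  obtain ⟨s', hs'⟩ := exists_le (le_max_right k l) s
  exact ⟨max k l, r', s', hr.trans hr'.symm, hs.trans hs'.symm⟩

lemma inner_S (χ χ' : S p) (h : χ ≠ χ') :
    ∫ x, (χ' : C(ℤ_[p], ℂ)) x * (starRingEnd ℂ) ((χ : C(ℤ_[p], ℂ)) x) ∂μ = 0 := by
  obtain ⟨k, r, s, hr, hs⟩ := S_common χ χ'
  have h1 : ∀ x, (χ' : C(ℤ_[p], ℂ)) x * (starRingEnd ℂ) ((χ : C(ℤ_[p], ℂ)) x) = ch p k (s - r) x := by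
    intro x
    rw [sub_eq_add_neg, ← ch_mul, ← ch_star, ContinuousMap.mul_apply, ContinuousMap.star_apply, hr, hs]
    rfl
  simp_rw [h1]
  refine integral_ch μ k (s - r) fun h2 => h ?_
  apply Subtype.ext
  rw [hr, hs]
  have : ch p k s = ch p k (s - r) * ch p k r := by rw [ch_mul, sub_add_cancel]
  rw [this, h2, one_mul]

/-- normalising constant -/
noncomputable def nc : ℝ := (Real.sqrt (μ.real Set.univ))⁻¹

omit [BorelSpace ℤ_[p]] in
lemma real_univ_pos : 0 < μ.real Set.univ := by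
  rw [Measure.real, ENNReal.toReal_pos_iff]
  refine ⟨?_, measure_lt_top _ _⟩
  exact Measure.measure_univ_pos.2 (NeZero.ne μ)

/-- the basis elements -/
noncomputable def e (χ : S p) : Lp ℂ 2 μ := (nc μ : ℂ) • ContinuousMap.toLp (E := ℂ) 2 μ ℂ (χ : C(ℤ_[p], ℂ))

lemma ortho : Orthonormal ℂ (e μ) := by
  classical
  rw [orthonormal_iff_ite]
  intro χ χ'
  unfold e
  rw [inner_smul_left, inner_smul_right, ContinuousMap.inner_toLp]
  split_ifs with h
  · subst h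
    have h1 : ∀ x, (χ : C(ℤ_[p], ℂ)) x * (starRingEnd ℂ) ((χ : C(ℤ_[p], ℂ)) x) = 1 := by
      intro x
      obtain ⟨k, r, hr⟩ := χ.2
      rw [Complex.mul_conj, Complex.normSq_eq_norm_sq, hr, ch_norm]; simp
    simp_rw [h1]
    rw [integral_const]
    have hpos := real_univ_pos μ
    have h2 : (nc μ) * (nc μ * μ.real Set.univ) = 1 := by
      unfold nc
      have h3 : Real.sqrt (μ.real Set.univ) ^ 2 = μ.real Set.univ := Real.sq_sqrt hpos.le
      have h4 : Real.sqrt (μ.real Set.univ) ≠ 0 := (Real.sqrt_pos.2 hpos).ne'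
      field_simp
      exact h3.symm
    have h5 : ((nc μ : ℂ)) * ((nc μ : ℂ) * (μ.real Set.univ : ℂ)) = 1 := by exact_mod_cast h2
    simpa using h5
  · rw [inner_S μ χ χ' h]; simp

open Algebra Submodule in
/-- star subalgebra -/
noncomputable def SA (p : ℕ) [hp : Fact p.Prime] : StarSubalgebra ℂ C(ℤ_[p], ℂ) where
  toSubalgebra := Algebra.adjoin ℂ (S p)
  star_mem' := by
    change Algebra.adjoin ℂ (S p) ≤ star (Algebra.adjoin ℂ (S p))
    refine adjoin_le ?_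
    rintro - ⟨k, r, rfl⟩
    exact subset_adjoin ⟨k, -r, ch_star k r⟩

omit [MeasurableSpace ℤ_[p]] [BorelSpace ℤ_[p]] in
open Algebra Submodule in
lemma SA_coe : Subalgebra.toSubmodule (SA p).toSubalgebra = span ℂ (S p) := by
  apply adjoin_eq_span_of_subset
  refine Set.Subset.trans ?_ Submodule.subset_span
  intro x hx
  refine Submonoid.closure_induction (fun _ => id) ⟨0, 0, ?_⟩ ?_ hx
  · exact (ch_zero 0).symm
  · intro x y _ _ hx hy
    obtain ⟨k, r, s, hr, hs⟩ := S_common ⟨x, hx⟩ ⟨y, hy⟩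
    refine ⟨k, r + s, ?_⟩
    change x = _ at hr
    change y = _ at hs
    rw [hr, hs, ch_mul]

omit [MeasurableSpace ℤ_[p]] [BorelSpace ℤ_[p]] in
open Algebra Submodule in
lemma SA_sep : (SA p).SeparatesPoints := by
  intro x y hxy
  have : ∃ k, PadicInt.toZModPow k x ≠ PadicInt.toZModPow k y := by
    by_contra hcon
    push Not at hcon
    exact hxy (PadicInt.ext_of_toZModPow.1 hcon)
  obtain ⟨k, hk⟩ := this
  refine ⟨_, ⟨ch p k 1, subset_adjoin (mem_S k 1), rfl⟩, ?_⟩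
  intro h
  apply hk
  change ch p k 1 x = ch p k 1 y at h
  rw [ch_apply, ch_apply, one_mul, one_mul] at h
  exact ZMod.injective_stdAddChar h

open Algebra Submodule in
lemma span_S : (span ℂ (S p)).topologicalClosure = ⊤ := by
  rw [← SA_coe]
  exact congr_arg (Subalgebra.toSubmodule <| StarSubalgebra.toSubalgebra ·)
    (ContinuousMap.starSubalgebra_topologicalClosure_eq_top_of_separatesPoints (SA p) SA_sep)

lemma span_e : (Submodule.span ℂ (Set.range (e μ))).topologicalClosure = ⊤ := by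
  have h1 := (ContinuousMap.toLp_denseRange ℂ μ ℂ (p := 2) (by norm_num)).topologicalClosure_map_submodule
      (span_S (p := p))
  rw [Submodule.map_span] at h1
  have h2 : Submodule.span ℂ ((ContinuousMap.toLp 2 μ ℂ : C(ℤ_[p], ℂ) →L[ℂ] Lp ℂ 2 μ) '' S p) ≤
      Submodule.span ℂ (Set.range (e μ)) := by
    rw [Submodule.span_le]
    rintro _ ⟨χ, hχ, rfl⟩
    have hnc : (nc μ : ℂ) ≠ 0 := by
      have : nc μ ≠ 0 := by
        unfold nc
        exact inv_ne_zero (Real.sqrt_pos.2 (real_univ_pos μ)).ne'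
      exact_mod_cast this
    have h3 : (ContinuousMap.toLp 2 μ ℂ : C(ℤ_[p], ℂ) →L[ℂ] Lp ℂ 2 μ) χ = (nc μ : ℂ)⁻¹ • e μ ⟨χ, hχ⟩ := by
      unfold e
      rw [smul_smul, inv_mul_cancel₀ hnc, one_smul]
    change (ContinuousMap.toLp 2 μ ℂ : C(ℤ_[p], ℂ) →L[ℂ] Lp ℂ 2 μ) χ ∈ _
    rw [h3]
    exact Submodule.smul_mem _ _ (Submodule.subset_span ⟨_, rfl⟩)
  rw [eq_top_iff, ← h1]
  exact Submodule.topologicalClosure_mono h2

/-- the Hilbert basis -/
noncomputable def B : HilbertBasis (S p) ℂ (Lp ℂ 2 μ) := HilbertBasis.mk (ortho μ) (span_e μ).ge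

lemma B_apply (χ : S p) : B μ χ = e μ χ := by
  unfold B
  rw [HilbertBasis.coe_mk]

/-- translation -/
noncomputable def Tr (a : ℤ_[p]) : Lp ℂ 2 μ →ₗᵢ[ℂ] Lp ℂ 2 μ :=
  Lp.compMeasurePreservingₗᵢ ℂ (fun x => x + a) (measurePreserving_add_right μ a)

lemma Tr_coe (a : ℤ_[p]) (f : Lp ℂ 2 μ) : (Tr μ a f : ℤ_[p] → ℂ) =ᵐ[μ] fun x => f (x + a) :=
  Lp.coeFn_compMeasurePreserving f (measurePreserving_add_right μ a)

lemma Tr_e (a : ℤ_[p]) (χ : S p) : Tr μ a (B μ χ) = (χ : C(ℤ_[p], ℂ)) a • B μ χ := by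
  rw [B_apply]
  unfold e
  rw [map_smul, smul_comm]
  congr 1
  apply Lp.ext
  have h1 := Tr_coe μ a (ContinuousMap.toLp (E := ℂ) 2 μ ℂ (χ : C(ℤ_[p], ℂ)))
  have h2 := ContinuousMap.coeFn_toLp (p := 2) (𝕜 := ℂ) μ (χ : C(ℤ_[p], ℂ))
  have h3 := (measurePreserving_add_right μ a).quasiMeasurePreserving.ae_eq_comp h2
  have h4 := Lp.coeFn_smul ((χ : C(ℤ_[p], ℂ)) a) (ContinuousMap.toLp (E := ℂ) 2 μ ℂ (χ : C(ℤ_[p], ℂ)))
  filter_upwards [h1, h2, h3, h4] with x e1 e2 e3 e4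
  rw [e1, e4, Pi.smul_apply, e2, smul_eq_mul]
  simp only [Function.comp_apply] at e3
  rw [e3]
  obtain ⟨k, r, hr⟩ := χ.2
  rw [hr, ch_add, mul_comm]

/-- every mean zero function is a sum of five differences -/
theorem sum_diff (f : Lp ℂ 2 μ) (hf : ∀ χ : S p, (χ : C(ℤ_[p], ℂ)) = 1 → (B μ).repr f χ = 0) :
    ∃ (a : Option (Fin 4) → ℤ_[p]) (g : Option (Fin 4) → Lp ℂ 2 μ), f = ∑ j, (g j - Tr μ (a j) (g j)) := by
  have hsum : Summable fun χ : S p => ‖(B μ).repr f χ‖ ^ 2 := by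
    have := ((B μ).repr f).2
    have h2 := (memℓp_gen_iff (p := 2) (by norm_num)).1 this
    simpa using h2
  obtain ⟨a, ha⟩ := choice (fun χ : S p => ‖(B μ).repr f χ‖ ^ 2) (fun χ => by positivity) hsum
    (fun χ hχ => by rw [hf χ hχ]; simp)
  let a' : Option (Fin 4) → ℤ_[p] := fun o => o.elim 1 a
  obtain ⟨g, hg⟩ := absl (B μ) (fun j => Tr μ (a' j)) (fun j χ => (χ : C(ℤ_[p], ℂ)) (a' j))
    (by
      intro j χ
      obtain ⟨k, r, hr⟩ := χ.2
      rw [hr, ch_norm])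
    (fun j χ => Tr_e μ (a' j) χ) f (fun χ => D (χ : C(ℤ_[p], ℂ)) a)
    (by
      intro χ
      rw [Fintype.sum_option]
      rfl)
    ha
    (by
      intro χ h
      apply hf
      obtain ⟨k, r, hr⟩ := χ.2
      by_contra hne
      rw [hr] at hne h
      exact (D_pos k r hne a).ne' h)
  exact ⟨a', g, hg⟩

/-- automatic continuity -/
theorem auto_cont (φ : Lp ℂ 2 μ →ₗ[ℂ] ℂ)
    (hφ : ∀ (a : ℤ_[p]) (f g : Lp ℂ 2 μ), (g : ℤ_[p] → ℂ) =ᵐ[μ] (fun x => (f : ℤ_[p] → ℂ) (x + a)) →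
      φ g = φ f) : Continuous φ := by
  let χ0 : S p := ⟨1, 0, 0, (ch_zero 0).symm⟩
  have key : ∀ f, φ f = (B μ).repr f χ0 * φ (B μ χ0) := by
    intro f
    have hz : φ (f - (B μ).repr f χ0 • B μ χ0) = 0 := by
      obtain ⟨a, g, hg⟩ := sum_diff μ (f - (B μ).repr f χ0 • B μ χ0) (by
        intro χ hχ
        have : χ = χ0 := Subtype.ext hχ
        subst this
        classical
        rw [map_sub, map_smul, lp.coeFn_sub, Pi.sub_apply, lp.coeFn_smul, Pi.smul_apply,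
          HilbertBasis.repr_self]
        simp)
      rw [hg, map_sum]
      refine Finset.sum_eq_zero fun j _ => ?_
      rw [map_sub, hφ (a j) (g j) (Tr μ (a j) (g j)) (Tr_coe μ (a j) (g j)), sub_self]
    rw [map_sub, map_smul, sub_eq_zero, smul_eq_mul] at hz
    exact hz
  have : (φ : Lp ℂ 2 μ → ℂ) = fun f => (B μ).repr f χ0 * φ (B μ χ0) := funext key
  rw [this]
  have h2 : (fun f => (B μ).repr f χ0 * φ (B μ χ0)) = fun f : Lp ℂ 2 μ => inner ℂ (B μ χ0) f * φ (B μ χ0) := by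
    funext f; rw [(B μ).repr_apply_apply]
  rw [h2]
  exact (continuous_const.inner continuous_id).mul continuous_const

end

end Pool.Agent.X195.TILF
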