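import Mathlib

/-!
# Tropical rank versus dimension (MP_8916ec_co), part 1

Tropical dependence of finitely many real functions on a set, and the nonsingular minor
criterion.
-/

namespace Pool.Agent.X195.TR

open Set Filter Topology

/-- Tropical dependence with coefficients in `ℝ ∪ {∞}`, not all `∞`. -/
def DepInf {Y : Type*} {r : ℕ} (f : Fin r → Y → ℝ) : Prop :=
  ∃ c : Fin r → WithTop ℝ, (∃ i, c i ≠ ⊤) ∧ ∀ x, ∃ i j, i ≠ j ∧
    ((f i x : ℝ) : WithTop ℝ) + c i = ((f j x : ℝ) : WithTop ℝ) + c j ∧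
    ∀ k, ((f i x : ℝ) : WithTop ℝ) + c i ≤ ((f k x : ℝ) : WithTop ℝ) + c k

/-- Tropical dependence with real coefficients. -/
def DepReal {Y : Type*} {r : ℕ} (f : Fin r → Y → ℝ) : Prop :=
  ∃ c : Fin r → ℝ, ∀ x, ∃ i j, i ≠ j ∧ f i x + c i = f j x + c j ∧
    ∀ k, f i x + c i ≤ f k x + c k

/-- A nonsingular square minor. -/
def Minor {Y : Type*} {r : ℕ} (f : Fin r → Y → ℝ) : Prop :=
  ∃ (x : Fin r → Y) (u : Fin r → ℝ), ∀ i j, i ≠ j → f j (x j) + u j < f i (x j) + u i

theorem not_depInf_of_minor {Y : Type*} {r : ℕ} {f : Fin r → Y → ℝ} (h : Minor f) :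
    ¬ DepInf f := by
  rintro ⟨c, ⟨i1, hi1⟩, hc⟩
  obtain ⟨x, u, hx⟩ := h
  -- the finite indices
  classical
  let S : Finset (Fin r) := Finset.univ.filter fun i => c i ≠ ⊤
  have hS : S.Nonempty := ⟨i1, by simp [S, hi1]⟩
  obtain ⟨i0, hi0, hmin⟩ := S.exists_min_image (fun i => (c i).untopD 0 - u i) hS
  have hi0' : c i0 ≠ ⊤ := by simpa [S] using hi0
  obtain ⟨i, j, hij, heq, hle⟩ := hc (x i0)
  obtain ⟨c0, hc0⟩ := WithTop.ne_top_iff_exists.1 hi0'
  -- every k other than i0 is strictly larger at x i0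
  have key : ∀ k, k ≠ i0 → ((f i0 (x i0) : ℝ) : WithTop ℝ) + c i0 <
      ((f k (x i0) : ℝ) : WithTop ℝ) + c k := by
    intro k hk
    by_cases hkt : c k = ⊤
    · rw [hkt, ← hc0, WithTop.add_top]
      exact WithTop.coe_lt_top (f i0 (x i0) + c0)
    · obtain ⟨ck, hck⟩ := WithTop.ne_top_iff_exists.1 hkt
      have h1 := hmin k (by simp [S, hkt])
      have h2 := hx k i0 hk
      rw [← hc0, ← hck] at h1
      simp only [WithTop.untopD_coe] at h1
      rw [← hc0, ← hck]
      have : f i0 (x i0) + c0 < f k (x i0) + ck := by linarith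
      exact_mod_cast this
  by_cases h1 : i = i0
  · have : j ≠ i0 := fun h => hij (h1.trans h.symm)
    have := key j this
    rw [← heq, h1] at this
    exact lt_irrefl _ this
  · exact absurd (hle i0) (not_le.2 (key i h1))

/-- For functions with bounded differences the two notions of dependence agree. -/
theorem depReal_of_depInf {Y : Type*} {r : ℕ} {f : Fin r → Y → ℝ} (C : ℝ)
    (hC : ∀ i k x, f i x - f k x ≤ C) (h : DepInf f) : DepReal f := by
  obtain ⟨c, ⟨i0, hi0⟩, hc⟩ := h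
  obtain ⟨γ, hγ⟩ := WithTop.ne_top_iff_exists.1 hi0
  refine ⟨fun i => (c i).untopD (C + γ + 1), fun x => ?_⟩
  obtain ⟨i, j, hij, heq, hle⟩ := hc x
  have hi : c i ≠ ⊤ := by
    intro h
    have := hle i0
    rw [h, ← hγ, WithTop.add_top, top_le_iff] at this
    exact absurd this (WithTop.coe_ne_top (a := f i0 x + γ))
  have hj : c j ≠ ⊤ := by
    intro h
    obtain ⟨ci, hci⟩ := WithTop.ne_top_iff_exists.1 hi
    rw [h, ← hci, WithTop.add_top] at heq
    exact absurd heq (WithTop.coe_ne_top (a := f i x + ci))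
  obtain ⟨ci, hci⟩ := WithTop.ne_top_iff_exists.1 hi
  obtain ⟨cj, hcj⟩ := WithTop.ne_top_iff_exists.1 hj
  refine ⟨i, j, hij, ?_, fun k => ?_⟩
  · simp only [← hci, ← hcj, WithTop.untopD_coe]
    rw [← hci, ← hcj] at heq
    exact_mod_cast heq
  · by_cases hk : c k = ⊤
    · simp only [hk, ← hci, WithTop.untopD_coe, WithTop.untopD_top]
      have h1 := hle i0
      rw [← hγ, ← hci] at h1
      have h1' : f i x + ci ≤ f i0 x + γ := by exact_mod_cast h1
      have h2 := hC i0 k x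
      linarith
    · obtain ⟨ck, hck⟩ := WithTop.ne_top_iff_exists.1 hk
      simp only [← hci, ← hck, WithTop.untopD_coe]
      have h1 := hle k
      rw [← hci, ← hck] at h1
      exact_mod_cast h1

theorem depInf_of_depReal {Y : Type*} {r : ℕ} {f : Fin r → Y → ℝ} [Nonempty Y]
    (h : DepReal f) : DepInf f := by
  obtain ⟨c, hc⟩ := h
  refine ⟨fun i => ((c i : ℝ) : WithTop ℝ), ?_, fun x => ?_⟩
  · obtain ⟨x⟩ := ‹Nonempty Y›
    obtain ⟨i, _, _⟩ := hc x
    exact ⟨i, WithTop.coe_ne_top⟩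
  · obtain ⟨i, j, hij, heq, hle⟩ := hc x
    exact ⟨i, j, hij, by beta_reduce; exact_mod_cast heq,
      fun k => by beta_reduce; exact_mod_cast hle k⟩

end Pool.Agent.X195.TR
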