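import Pool.Agent.X195.TR1

/-!
# Tropical rank versus dimension (MP_8916ec_co), part 2

If there is no nonsingular minor then the functions are tropically dependent: additive
eigenvectors of a min-max operator (Banach fixed point theorem) and compactness.
-/

namespace Pool.Agent.X195.TR

open Set Filter Topology

variable {Y : Type*} {n : ℕ}

/-- The operator `T`. -/
noncomputable def TT (f : Fin (n+2) → Y → ℝ) (F : Finset Y) (hF : F.Nonempty)
    (u : Fin (n+2) → ℝ) : Fin (n+2) → ℝ := fun i =>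
  F.sup' hF fun x => (Finset.univ.erase i).inf'
    (by
      obtain ⟨k, hk⟩ := exists_ne i
      exact ⟨k, by simp [hk]⟩) (fun k => f k x + u k) - f i x

theorem TT_le_iff (f : Fin (n+2) → Y → ℝ) (F : Finset Y) (hF : F.Nonempty)
    (u : Fin (n+2) → ℝ) (i : Fin (n+2)) (a : ℝ) :
    TT f F hF u i ≤ a ↔ ∀ x ∈ F, ∃ k, k ≠ i ∧ f k x + u k - f i x ≤ a := by
  unfold TT
  rw [Finset.sup'_le_iff]
  refine forall₂_congr fun x _ => ?_
  rw [sub_le_iff_le_add, Finset.inf'_le_iff]
  simp

theorem le_TT_iff (f : Fin (n+2) → Y → ℝ) (F : Finset Y) (hF : F.Nonempty)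
    (u : Fin (n+2) → ℝ) (i : Fin (n+2)) (a : ℝ) :
    a ≤ TT f F hF u i ↔ ∃ x ∈ F, ∀ k, k ≠ i → a ≤ f k x + u k - f i x := by
  unfold TT
  rw [Finset.le_sup'_iff]
  refine exists_congr fun x => and_congr_right fun _ => ?_
  rw [le_sub_iff_add_le, Finset.le_inf'_iff]
  simp [le_sub_iff_add_le]

theorem TT_mono (f : Fin (n+2) → Y → ℝ) (F : Finset Y) (hF : F.Nonempty)
    (u v : Fin (n+2) → ℝ) (δ : ℝ) (h : ∀ k, u k ≤ v k + δ) (i : Fin (n+2)) :
    TT f F hF u i ≤ TT f F hF v i + δ := by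
  rw [TT_le_iff]
  intro x hx
  obtain ⟨k, hk, hk2⟩ := (TT_le_iff f F hF v i _).1 le_rfl x hx
  exact ⟨k, hk, by linarith [h k]⟩

theorem TT_dist (f : Fin (n+2) → Y → ℝ) (F : Finset Y) (hF : F.Nonempty)
    (u v : Fin (n+2) → ℝ) : dist (TT f F hF u) (TT f F hF v) ≤ dist u v := by
  rw [dist_pi_le_iff dist_nonneg]
  intro i
  rw [Real.dist_eq, abs_le]
  have h1 : ∀ k, |u k - v k| ≤ dist u v := fun k => by
    rw [← Real.dist_eq]; exact dist_le_pi_dist u v k
  have ha := TT_mono f F hF u v (dist u v) (fun k => by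
    have := abs_le.1 (h1 k); linarith [this.2]) i
  have hb := TT_mono f F hF v u (dist u v) (fun k => by
    have := abs_le.1 (h1 k); linarith [this.1]) i
  constructor <;> linarith

/-- If there is no nonsingular minor, then `T(u) ≫ u` is impossible. -/
theorem exists_TT_le (f : Fin (n+2) → Y → ℝ) (F : Finset Y) (hF : F.Nonempty)
    (hm : ¬ Minor f) (u : Fin (n+2) → ℝ) : ∃ i, TT f F hF u i ≤ u i := by
  by_contra hcon
  push Not at hcon
  apply hm
  choose x hx hx2 using fun i => (le_TT_iff f F hF u i _).1 le_rfl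
  refine ⟨x, u, fun i j hij => ?_⟩
  have h1 := hx2 j i hij
  have h2 := hcon j
  linarith

/-- approximate tropical dependence on finite sets -/
theorem approx (f : Fin (n+2) → Y → ℝ) (F : Finset Y) (hF : F.Nonempty)
    (hm : ¬ Minor f) (ε : ℝ) (hε : 0 < ε) :
    ∃ v : Fin (n+2) → ℝ, (∀ i, 0 ≤ v i) ∧ (∃ i, v i = 0) ∧
      ∀ x ∈ F, ∀ i, ∃ k, k ≠ i ∧ f k x + v k ≤ f i x + v i + ε := by
  classical
  -- a bound for the differences
  obtain ⟨C, hC0, hC⟩ : ∃ C : ℝ, 0 < C ∧ ∀ i k, ∀ x ∈ F, f i x - f k x ≤ C := by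
    let P : Finset (Fin (n+2) × Fin (n+2) × Y) := Finset.univ ×ˢ Finset.univ ×ˢ F
    refine ⟨1 + ∑ p ∈ P, |f p.1 p.2.2 - f p.2.1 p.2.2|, ?_, ?_⟩
    · have : 0 ≤ ∑ p ∈ P, |f p.1 p.2.2 - f p.2.1 p.2.2| :=
        Finset.sum_nonneg fun _ _ => abs_nonneg _
      linarith
    · intro i k x hx
      have : |f i x - f k x| ≤ ∑ p ∈ P, |f p.1 p.2.2 - f p.2.1 p.2.2| :=
        Finset.single_le_sum (f := fun p : Fin (n+2) × Fin (n+2) × Y =>
          |f p.1 p.2.2 - f p.2.1 p.2.2|) (fun _ _ => abs_nonneg _)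
          (show (i, k, x) ∈ P by simp [P, hx])
      linarith [le_abs_self (f i x - f k x)]
  -- choose s close to 1
  obtain ⟨s, hs0, hs1, hsε⟩ : ∃ s : ℝ, 0 < s ∧ s < 1 ∧ (1 - s) * (2 * C) ≤ ε := by
    refine ⟨max (1/2) (1 - ε / (2 * C)), by positivity, ?_, ?_⟩
    · apply max_lt (by norm_num)
      have : 0 < ε / (2 * C) := by positivity
      linarith
    · have h1 : 1 - max (1/2) (1 - ε / (2 * C)) ≤ ε / (2 * C) := by
        have := le_max_right (1/2 : ℝ) (1 - ε / (2 * C))
        linarith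
      calc (1 - max (1/2) (1 - ε / (2 * C))) * (2 * C) ≤ ε / (2 * C) * (2 * C) := by
            apply mul_le_mul_of_nonneg_right h1 (by positivity)
        _ = ε := by field_simp
  -- the fixed point
  have hcontr : ContractingWith ⟨s, hs0.le⟩ (fun u : Fin (n+2) → ℝ => TT f F hF (s • u)) := by
    refine ⟨by exact_mod_cast hs1, ?_⟩
    apply LipschitzWith.of_dist_le_mul
    intro u v
    refine (TT_dist f F hF _ _).trans ?_
    rw [dist_smul₀, Real.norm_of_nonneg hs0.le]
    rfl
  obtain ⟨u, hu⟩ : ∃ u : Fin (n+2) → ℝ, TT f F hF (s • u) = u :=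
    ⟨hcontr.fixedPoint, hcontr.fixedPoint_isFixedPt⟩
  -- minimum
  obtain ⟨k0, -, hk0⟩ := Finset.exists_min_image Finset.univ u ⟨0, by simp⟩
  have hk0' : ∀ i, u k0 ≤ u i := fun i => hk0 i (by simp)
  obtain ⟨x0, hx0⟩ := id hF
  -- bounds
  have hup : ∀ i k, k ≠ i → u i ≤ s * u k + C := by
    intro i k hk
    have h1 : TT f F hF (s • u) i ≤ s * u k + C := by
      rw [TT_le_iff]
      intro x hx
      refine ⟨k, hk, ?_⟩
      have := hC k i x hx
      simp only [Pi.smul_apply, smul_eq_mul]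
      linarith
    have h2 := congrFun hu i
    linarith
  have hlow : ∀ i, s * u k0 - C ≤ u i := by
    intro i
    have h1 : s * u k0 - C ≤ TT f F hF (s • u) i := by
      rw [le_TT_iff]
      refine ⟨x0, hx0, fun k _ => ?_⟩
      have := hC i k x0 hx0
      have h3 := mul_le_mul_of_nonneg_left (hk0' k) hs0.le
      simp only [Pi.smul_apply, smul_eq_mul]
      linarith
    have h2 := congrFun hu i
    linarith
  have hm1 : -C ≤ (1 - s) * u k0 := by
    have := hlow k0
    linarith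
  have hspread : ∀ i, u i - u k0 ≤ 2 * C := by
    intro i
    by_cases hi : i = k0
    · rw [hi]; linarith
    · have := hup i k0 (Ne.symm hi)
      nlinarith
  -- shift
  let w : Fin (n+2) → ℝ := fun i => u i - u k0
  have hw0 : ∀ i, 0 ≤ w i := fun i => sub_nonneg.2 (hk0' i)
  have hTw : ∀ i, TT f F hF (s • w) i = w i + (1 - s) * u k0 := by
    intro i
    have h2 := congrFun hu i
    have ha := TT_mono f F hF (s • w) (s • u) (- (s * u k0)) (fun k => by
      simp only [Pi.smul_apply, smul_eq_mul, w]; linarith) i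
    have hb := TT_mono f F hF (s • u) (s • w) (s * u k0) (fun k => by
      simp only [Pi.smul_apply, smul_eq_mul, w]; linarith) i
    simp only [w]
    linarith
  have hlam : (1 - s) * u k0 ≤ 0 := by
    obtain ⟨i, hi⟩ := exists_TT_le f F hF hm (s • w)
    rw [hTw i] at hi
    simp only [Pi.smul_apply, smul_eq_mul] at hi
    have := hw0 i
    nlinarith
  refine ⟨s • w, fun i => ?_, ⟨k0, ?_⟩, fun x hx i => ?_⟩
  · simp only [Pi.smul_apply, smul_eq_mul]
    exact mul_nonneg hs0.le (hw0 i)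
  · simp [w]
  · have h1 : TT f F hF (s • w) i ≤ w i := by
      rw [hTw i]; linarith
    obtain ⟨k, hk, hk2⟩ := (TT_le_iff f F hF (s • w) i _).1 h1 x hx
    refine ⟨k, hk, ?_⟩
    have h3 : (1 - s) * w i ≤ ε := by
      refine le_trans ?_ hsε
      exact mul_le_mul_of_nonneg_left (hspread i) (by linarith)
    simp only [Pi.smul_apply, smul_eq_mul] at hk2 ⊢
    linarith

/-- If there is no nonsingular minor, then the functions are tropically dependent. -/
theorem depInf_of_not_minor_aux [Nonempty Y] (f : Fin (n+2) → Y → ℝ) (hm : ¬ Minor f) :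
    ∃ t : Fin (n+2) → ℝ, (∀ i, 0 ≤ t i) ∧ (∃ i, t i = 1) ∧
      ∀ x, ∀ i, ∃ k, k ≠ i ∧ Real.exp (- f i x) * t i ≤ Real.exp (- f k x) * t k := by
  classical
  let K : Set (Fin (n+2) → ℝ) := Set.pi Set.univ (fun _ => Set.Icc 0 1)
  have hK : IsCompact K := isCompact_univ_pi fun _ => isCompact_Icc
  let Z : Y × ℕ → Set (Fin (n+2) → ℝ) := fun p => {t | (∃ i, t i = 1) ∧
    ∀ i, ∃ k, k ≠ i ∧ Real.exp (-(1 / ((p.2 : ℝ) + 1))) * (Real.exp (- f i p.1) * t i) ≤
      Real.exp (- f k p.1) * t k}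
  have hZ : ∀ p, IsClosed (Z p) := by
    intro p
    have h1 : Z p = (⋃ i, {t | t i = 1}) ∩ ⋂ i, ⋃ k, {t | k ≠ i ∧
        Real.exp (-(1 / ((p.2 : ℝ) + 1))) * (Real.exp (- f i p.1) * t i) ≤
      Real.exp (- f k p.1) * t k} := by
      ext t
      simp [Z]
    rw [h1]
    apply IsClosed.inter
    · exact isClosed_iUnion_of_finite fun i => isClosed_eq (continuous_apply i) continuous_const
    · refine isClosed_iInter fun i => isClosed_iUnion_of_finite fun k => ?_
      by_cases hk : k ≠ i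
      · simp only [hk, ne_eq, not_false_eq_true, true_and]
        exact isClosed_le (continuous_const.mul (continuous_const.mul (continuous_apply i)))
          (continuous_const.mul (continuous_apply k))
      · simp [hk]
  have hne : ∀ S : Finset (Y × ℕ), (K ∩ ⋂ p ∈ S, Z p).Nonempty := by
    intro S
    obtain ⟨y0⟩ := ‹Nonempty Y›
    let F : Finset Y := insert y0 (S.image Prod.fst)
    obtain ⟨N, hN⟩ : ∃ N : ℕ, ∀ p ∈ S, p.2 ≤ N := by
      refine ⟨S.sup Prod.snd, fun p hp => Finset.le_sup (f := Prod.snd) hp⟩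
    obtain ⟨v, hv0, ⟨i0, hi0⟩, hv⟩ := approx f F ⟨y0, by simp [F]⟩ hm (1 / ((N : ℝ) + 1))
      (by positivity)
    refine ⟨fun i => Real.exp (- v i), ?_, ?_⟩
    · intro i _
      refine ⟨(Real.exp_pos _).le, ?_⟩
      rw [Real.exp_le_one_iff]
      linarith [hv0 i]
    · simp only [Set.mem_iInter]
      intro p hp
      refine ⟨⟨i0, by simp [hi0]⟩, fun i => ?_⟩
      have hpF : p.1 ∈ F := Finset.mem_insert_of_mem (Finset.mem_image_of_mem _ hp)
      obtain ⟨k, hk, hk2⟩ := hv p.1 hpF i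
      refine ⟨k, hk, ?_⟩
      rw [← Real.exp_add, ← Real.exp_add, ← Real.exp_add, Real.exp_le_exp]
      have h3 : (1 : ℝ) / ((N : ℝ) + 1) ≤ 1 / ((p.2 : ℝ) + 1) := by
        apply one_div_le_one_div_of_le (by positivity)
        have : ((p.2 : ℕ) : ℝ) ≤ N := by exact_mod_cast hN p hp
        linarith
      linarith
  obtain ⟨t, htK, htZ⟩ := hK.inter_iInter_nonempty Z hZ hne
  simp only [Set.mem_iInter] at htZ
  refine ⟨t, fun i => (htK i (Set.mem_univ _)).1, ?_, fun x i => ?_⟩
  · obtain ⟨y0⟩ := ‹Nonempty Y›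
    exact (htZ (y0, 0)).1
  · by_contra hcon
    push Not at hcon
    -- each k eventually fails
    have h1 : ∀ k, k ≠ i → ∀ᶠ m : ℕ in atTop, Real.exp (- f k x) * t k <
        Real.exp (-(1 / ((m : ℝ) + 1))) * (Real.exp (- f i x) * t i) := by
      intro k hk
      have h2 : Tendsto (fun m : ℕ => Real.exp (-(1 / ((m : ℝ) + 1))) *
          (Real.exp (- f i x) * t i)) atTop (𝓝 (Real.exp (-0) * (Real.exp (- f i x) * t i))) := by
        apply Tendsto.mul_const
        apply (Real.continuous_exp.tendsto _).comp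
        exact tendsto_one_div_add_atTop_nhds_zero_nat.neg
      rw [neg_zero, Real.exp_zero, one_mul] at h2
      exact h2.eventually (lt_mem_nhds (hcon k hk))
    have h2 : ∀ᶠ m : ℕ in atTop, ∀ k, k ≠ i → Real.exp (- f k x) * t k <
        Real.exp (-(1 / ((m : ℝ) + 1))) * (Real.exp (- f i x) * t i) := by
      rw [eventually_all]
      intro k
      by_cases hk : k = i
      · exact Eventually.of_forall fun m h => absurd hk h
      · exact (h1 k hk).mono fun m hm _ => hm
    obtain ⟨m, hm⟩ := h2.exists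
    obtain ⟨k, hk, hk2⟩ := (htZ (x, m)).2 i
    exact absurd hk2 (not_le.2 (hm k hk))

theorem depInf_of_not_minor [Nonempty Y] {r : ℕ} (f : Fin r → Y → ℝ) (hm : ¬ Minor f) :
    DepInf f := by
  classical
  obtain ⟨y0⟩ := id ‹Nonempty Y›
  match r, f, hm with
  | 0, f, hm => exact absurd ⟨fun i => i.elim0, fun i => i.elim0, fun i => i.elim0⟩ hm
  | 1, f, hm =>
    refine absurd ⟨fun _ => y0, fun _ => 0, fun i j hij => ?_⟩ hm
    exact absurd (Subsingleton.elim i j) hij
  | n+2, f, hm =>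
    obtain ⟨t, ht0, ⟨i1, hi1⟩, ht⟩ := depInf_of_not_minor_aux f hm
    have hpos : ∀ i, t i ≠ 0 → 0 < t i := fun i h => lt_of_le_of_ne (ht0 i) (Ne.symm h)
    let c : Fin (n+2) → WithTop ℝ := fun i => if t i = 0 then ⊤ else ((- Real.log (t i) : ℝ) : WithTop ℝ)
    -- comparison
    have hcmp : ∀ x i k, Real.exp (- f i x) * t i ≤ Real.exp (- f k x) * t k →
        ((f k x : ℝ) : WithTop ℝ) + c k ≤ ((f i x : ℝ) : WithTop ℝ) + c i := by
      intro x i k h
      by_cases hi : t i = 0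
      · simp [c, hi]
      · have hk : t k ≠ 0 := by
          intro hk
          rw [hk, mul_zero] at h
          have := mul_pos (Real.exp_pos (- f i x)) (hpos i hi)
          linarith
        simp only [c, hi, hk, if_false]
        have h2 := Real.log_le_log (mul_pos (Real.exp_pos _) (hpos i hi)) h
        rw [Real.log_mul (Real.exp_pos _).ne' hi, Real.log_mul (Real.exp_pos _).ne' hk,
          Real.log_exp, Real.log_exp] at h2
        have h3 : f k x + - Real.log (t k) ≤ f i x + - Real.log (t i) := by linarith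
        exact_mod_cast h3
    refine ⟨c, ⟨i1, ?_⟩, fun x => ?_⟩
    · simp [c, hi1]
    · obtain ⟨i, -, hi⟩ := Finset.exists_max_image Finset.univ
        (fun i => Real.exp (- f i x) * t i) ⟨0, by simp⟩
      obtain ⟨k, hk, hk2⟩ := ht x i
      refine ⟨i, k, Ne.symm hk, ?_, fun l => hcmp x l i (hi l (by simp))⟩
      exact le_antisymm (hcmp x k i (hi k (by simp))) (hcmp x i k hk2)

end Pool.Agent.X195.TR
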