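import Pool.Agent.X195.TR2

/-!
# Tropical rank versus dimension (MP_8916ec_co), part 3

Finitely generated tropical semimodules, fibres, covers, dimension of finite unions of
polyhedra.
-/

namespace Pool.Agent.X195.TR

open Set Filter Topology

/-- `f` is a finite-valued element of the `𝕋`-semimodule generated by `g`. -/
def InSpan {Y : Type*} {l : ℕ} (g : Fin l → Y → ℝ) (f : Y → ℝ) : Prop :=
  ∃ a : Fin l → WithTop ℝ, ∀ x, ((f x : ℝ) : WithTop ℝ) =
    Finset.univ.inf fun j => ((g j x : ℝ) : WithTop ℝ) + a j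

/-- `Ψ(c) = min_j (g_j + c_j)`. -/
noncomputable def Psi {Y : Type*} {l : ℕ} (g : Fin l → Y → ℝ) (c : Fin l → ℝ) : Y → ℝ :=
  fun x => ⨅ j, (g j x + c j)

/-- the fibre of `Ψ` over `f` -/
def fib {Y : Type*} {l : ℕ} (g : Fin l → Y → ℝ) (f : Y → ℝ) : Set (Fin l → ℝ) :=
  {c | Psi g c = f}

/-- closed convex polyhedra in `ℝ^l` -/
def IsPolyhedron {l : ℕ} (P : Set (Fin l → ℝ)) : Prop :=
  ∃ H : Set (((Fin l → ℝ) →ₗ[ℝ] ℝ) × ℝ), H.Finite ∧ P = {c | ∀ h ∈ H, h.1 c ≤ h.2}

/-- `S` is a finite union of nonempty polyhedra, the largest dimension of which is `k`. -/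
def PolyDim {l : ℕ} (S : Set (Fin l → ℝ)) (k : ℕ) : Prop :=
  ∃ Ps : Set (Set (Fin l → ℝ)), Ps.Finite ∧ (∀ P ∈ Ps, IsPolyhedron P ∧ P.Nonempty) ∧ S = ⋃₀ Ps ∧
    IsGreatest ((fun P => Module.finrank ℝ (vectorSpan ℝ P)) '' Ps) k

theorem IsPolyhedron.convex {l : ℕ} {P : Set (Fin l → ℝ)} (h : IsPolyhedron P) :
    Convex ℝ P := by
  obtain ⟨H, -, rfl⟩ := h
  intro x hx y hy a b ha hb hab h hh
  have h1 := hx h hh
  have h2 := hy h hh
  simp only [map_add, map_smul, smul_eq_mul]
  have h3 := mul_le_mul_of_nonneg_left h1 ha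
  have h4 := mul_le_mul_of_nonneg_left h2 hb
  have h5 : a * h.2 + b * h.2 = h.2 := by rw [← add_mul, hab, one_mul]
  linarith

/-- A convex set covered by finitely many sets with affine hulls `A_i` lies in one of them. -/
theorem convex_subset_affine {l : ℕ} {C : Set (Fin l → ℝ)} (hC : Convex ℝ C) (hCn : C.Nonempty)
    (s : Finset (AffineSubspace ℝ (Fin l → ℝ))) (hs : ∀ x ∈ C, ∃ A ∈ s, x ∈ A) :
    ∃ A ∈ s, ∀ x ∈ C, x ∈ A := by
  classical
  induction s using Finset.induction_on with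
  | empty =>
    obtain ⟨x, hx⟩ := hCn
    obtain ⟨A, hA, _⟩ := hs x hx
    simp at hA
  | insert B s hB ih =>
    by_cases h1 : ∀ x ∈ C, x ∈ B
    · exact ⟨B, by simp, h1⟩
    · by_cases h2 : ∀ x ∈ C, ∃ A ∈ s, x ∈ A
      · obtain ⟨A, hA, hA2⟩ := ih h2
        exact ⟨A, by simp [hA], hA2⟩
      · exfalso
        push Not at h1 h2
        obtain ⟨y, hy, hyB⟩ := h1
        obtain ⟨x, hx, hxs⟩ := h2
        -- segment from x to y
        have hinf : (Set.Ioo (0:ℝ) 1).Infinite := Set.Ioo_infinite one_pos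
        have hmap : ∀ t ∈ Set.Ioo (0:ℝ) 1, ∃ A ∈ insert B s, AffineMap.lineMap x y t ∈ A := by
          intro t ht
          apply hs
          have := hC.segment_subset hx hy
          apply this
          rw [segment_eq_image_lineMap]
          exact ⟨t, ⟨ht.1.le, ht.2.le⟩, rfl⟩
        choose! φ hφ1 hφ2 using hmap
        obtain ⟨t1, ht1, t2, ht2, hne, heq⟩ := hinf.exists_ne_map_eq_of_mapsTo
          (f := φ) (t := (insert B s : Finset _)) (fun t ht => hφ1 t ht) (Finset.finite_toSet _)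
        -- A contains two points of the line, so it contains x and y
        have hA1 := hφ2 t1 ht1
        have hA2 := hφ2 t2 ht2
        rw [← heq] at hA2
        have hline : ∀ t : ℝ, AffineMap.lineMap x y t ∈ φ t1 := by
          intro t
          have h3 : AffineMap.lineMap x y t = AffineMap.lineMap (AffineMap.lineMap x y t1 : Fin l → ℝ)
              (AffineMap.lineMap x y t2) ((t - t1) / (t2 - t1)) := by
            have h4 : t2 - t1 ≠ 0 := sub_ne_zero.2 (Ne.symm hne)
            ext i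
            simp only [AffineMap.lineMap_apply, vsub_eq_sub, vadd_eq_add, Pi.add_apply,
              Pi.smul_apply, Pi.sub_apply, smul_eq_mul]
            field_simp
            ring
          rw [h3]
          exact AffineMap.lineMap_mem _ hA1 hA2
        have hx' : x ∈ φ t1 := by simpa using hline 0
        have hy' : y ∈ φ t1 := by simpa using hline 1
        rcases Finset.mem_insert.1 (hφ1 t1 ht1) with h | h
        · exact hyB (h ▸ hy')
        · exact hxs _ h hx'

/-- A convex subset of a finite union of polyhedra has dimension at most `k`. -/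
theorem PolyDim.le {l : ℕ} {S : Set (Fin l → ℝ)} {k : ℕ} (h : PolyDim S k)
    {C : Set (Fin l → ℝ)} (hC : Convex ℝ C) (hCn : C.Nonempty) (hCS : C ⊆ S) :
    Module.finrank ℝ (vectorSpan ℝ C) ≤ k := by
  classical
  obtain ⟨Ps, hfin, hP, hS, hk⟩ := h
  obtain ⟨A, hA, hA2⟩ := convex_subset_affine hC hCn (hfin.toFinset.image fun P => affineSpan ℝ P)
    (by
      intro x hx
      have := hCS hx
      rw [hS] at this
      obtain ⟨P, hP1, hP2⟩ := this
      exact ⟨affineSpan ℝ P, Finset.mem_image_of_mem _ (hfin.mem_toFinset.2 hP1),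
        subset_affineSpan ℝ P hP2⟩)
  obtain ⟨P, hP1, rfl⟩ := Finset.mem_image.1 hA
  rw [hfin.mem_toFinset] at hP1
  have h1 : vectorSpan ℝ C ≤ vectorSpan ℝ P := by
    rw [← direction_affineSpan, ← direction_affineSpan]
    apply AffineSubspace.direction_le
    rw [affineSpan_le]
    exact hA2
  exact (Submodule.finrank_mono h1).trans (hk.2 ⟨P, hP1, rfl⟩)

theorem PolyDim.unique {l : ℕ} {S : Set (Fin l → ℝ)} {k k' : ℕ} (h : PolyDim S k)
    (h' : PolyDim S k') : k = k' := by
  have key : ∀ {a b : ℕ}, PolyDim S a → PolyDim S b → a ≤ b := by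
    intro a b ha hb
    obtain ⟨Ps, hfin, hP, hS, hk⟩ := ha
    obtain ⟨P, hP1, hP2⟩ := hk.1
    simp only at hP2
    rw [← hP2]
    apply hb.le (hP P hP1).1.convex (hP P hP1).2
    rw [hS]
    exact Set.subset_sUnion_of_mem hP1
  exact le_antisymm (key h h') (key h' h)

theorem PolyDim.le_card {l : ℕ} {S : Set (Fin l → ℝ)} {k : ℕ} (h : PolyDim S k) : k ≤ l := by
  obtain ⟨Ps, hfin, hP, hS, hk⟩ := h
  obtain ⟨P, hP1, hP2⟩ := hk.1
  simp only at hP2
  rw [← hP2]
  refine (Submodule.finrank_le _).trans ?_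
  simp

/-- the basic polyhedra -/
def PJ {l : ℕ} (m : Fin l → ℝ) (J : Finset (Fin l)) : Set (Fin l → ℝ) :=
  {c | (∀ j, m j ≤ c j) ∧ ∀ j ∈ J, c j = m j}

theorem PJ_polyhedron {l : ℕ} (m : Fin l → ℝ) (J : Finset (Fin l)) : IsPolyhedron (PJ m J) := by
  classical
  refine ⟨(Set.range fun j => (-(LinearMap.proj j : (Fin l → ℝ) →ₗ[ℝ] ℝ), - m j)) ∪
    ((fun j => ((LinearMap.proj j : (Fin l → ℝ) →ₗ[ℝ] ℝ), m j)) '' (J : Set (Fin l))), ?_, ?_⟩
  · exact (Set.finite_range _).union (J.finite_toSet.image _)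
  · ext c
    simp only [PJ, Set.mem_ofPred_eq]
    constructor
    · rintro ⟨h1, h2⟩ h (⟨j, rfl⟩ | ⟨j, hj, rfl⟩)
      · simpa using h1 j
      · exact (h2 j hj).le
    · intro h
      have h1 : ∀ j, m j ≤ c j := fun j => by
        simpa using h _ (Or.inl ⟨j, rfl⟩)
      exact ⟨h1, fun j hj => le_antisymm (by simpa using h _ (Or.inr ⟨j, hj, rfl⟩)) (h1 j)⟩

theorem PJ_nonempty {l : ℕ} (m : Fin l → ℝ) (J : Finset (Fin l)) : (PJ m J).Nonempty :=
  ⟨m, fun _ => le_rfl, fun _ _ => rfl⟩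

theorem PJ_finrank {l : ℕ} (m : Fin l → ℝ) (J : Finset (Fin l)) :
    Module.finrank ℝ (vectorSpan ℝ (PJ m J)) = l - J.card := by
  classical
  have h1 : vectorSpan ℝ (PJ m J) = ⨅ j ∈ (J : Set (Fin l)),
      LinearMap.ker (LinearMap.proj j : (Fin l → ℝ) →ₗ[ℝ] ℝ) := by
    apply le_antisymm
    · rw [vectorSpan_def, Submodule.span_le]
      rintro v ⟨a, ha, b, hb, rfl⟩
      simp only [SetLike.mem_coe, Submodule.mem_iInf, LinearMap.mem_ker, LinearMap.proj_apply]
      intro j hj
      simp [ha.2 j hj, hb.2 j hj]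
    · intro v hv
      simp only [Submodule.mem_iInf, LinearMap.mem_ker, LinearMap.proj_apply] at hv
      have ha : (m + fun j => |v j|) ∈ PJ m J :=
        ⟨fun j => by simp, fun j hj => by simp [hv j hj]⟩
      have hb : (m + (fun j => |v j|) - v) ∈ PJ m J :=
        ⟨fun j => by simp only [Pi.sub_apply, Pi.add_apply]; linarith [le_abs_self (v j)],
          fun j hj => by simp [hv j hj]⟩
      have := vsub_mem_vectorSpan ℝ ha hb
      simpa using this
  rw [h1]
  have e := LinearMap.iInfKerProjEquiv ℝ (fun _ : Fin l => ℝ) (I := {i | i ∉ J})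
    (J := (J : Set (Fin l))) (by
      rw [Set.disjoint_left]; intro a ha hb; exact ha hb) (by
      intro i _
      by_cases hi : i ∈ J
      · exact Or.inr hi
      · exact Or.inl hi)
  rw [LinearEquiv.finrank_eq e]
  simp only [Module.finrank_fintype_fun_eq_card]
  rw [Fintype.card_subtype]
  have : (Finset.univ.filter fun i => i ∈ {i | i ∉ J}) = Jᶜ := by
    ext i; simp
  rw [this, Finset.card_compl, Fintype.card_fin]

end Pool.Agent.X195.TR
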