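import Pool.Agent.X195.TR3

/-!
# Tropical rank versus dimension (MP_8916ec_co), part 4

The fibres of `Ψ` and the main theorem.
-/

namespace Pool.Agent.X195.TR

open Set Filter Topology

variable {Y : Type*} {l : ℕ}

theorem Psi_le (g : Fin l → Y → ℝ) (c : Fin l → ℝ) (x : Y) (j : Fin l) :
    Psi g c x ≤ g j x + c j :=
  ciInf_le (Set.finite_range _).bddBelow j

theorem exists_Psi_eq [NeZero l] (g : Fin l → Y → ℝ) (c : Fin l → ℝ) (x : Y) :
    ∃ j, g j x + c j = Psi g c x := exists_eq_ciInf_of_finite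

/-- the suprema `m_j = sup (f - g_j)` -/
noncomputable def mm (g : Fin l → Y → ℝ) (f : Y → ℝ) (j : Fin l) : ℝ := ⨆ x, (f x - g j x)

theorem le_mm {g : Fin l → Y → ℝ} {f : Y → ℝ} {c0 : Fin l → ℝ} (h0 : Psi g c0 = f)
    (j : Fin l) (x : Y) : f x ≤ g j x + mm g f j := by
  have hb : BddAbove (Set.range fun x => f x - g j x) := by
    refine ⟨c0 j, ?_⟩
    rintro _ ⟨y, rfl⟩
    have := Psi_le g c0 y j
    rw [h0] at this
    simp only
    linarith
  have := le_ciSup hb x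
  unfold mm
  linarith

theorem mem_fib_iff [NeZero l] [Nonempty Y] {g : Fin l → Y → ℝ} {f : Y → ℝ} {c0 : Fin l → ℝ}
    (h0 : Psi g c0 = f) (c : Fin l → ℝ) :
    c ∈ fib g f ↔ (∀ j, mm g f j ≤ c j) ∧ ∀ x, ∃ j, c j = mm g f j ∧ f x = g j x + mm g f j := by
  constructor
  · intro h
    have h : Psi g c = f := h
    have h1 : ∀ j, mm g f j ≤ c j := by
      intro j
      apply ciSup_le
      intro x
      have := Psi_le g c x j
      rw [h] at this
      linarith
    refine ⟨h1, fun x => ?_⟩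
    obtain ⟨j, hj⟩ := exists_Psi_eq g c x
    rw [h] at hj
    have h2 := le_mm h0 j x
    have h3 : c j = mm g f j := le_antisymm (by linarith) (h1 j)
    exact ⟨j, h3, by rw [← h3, hj]⟩
  · rintro ⟨h1, h2⟩
    change Psi g c = f
    funext x
    apply le_antisymm
    · obtain ⟨j, hj, hj2⟩ := h2 x
      refine (Psi_le g c x j).trans ?_
      rw [hj, hj2]
    · apply le_ciInf
      intro j
      have := le_mm h0 j x
      linarith [h1 j]

/-- `J` covers `f`. -/
def Cov (g : Fin l → Y → ℝ) (f : Y → ℝ) (J : Finset (Fin l)) : Prop :=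
  ∀ x, ∃ j ∈ J, f x = g j x + mm g f j

theorem fib_eq [NeZero l] [Nonempty Y] {g : Fin l → Y → ℝ} {f : Y → ℝ} {c0 : Fin l → ℝ}
    (h0 : Psi g c0 = f) : fib g f = ⋃₀ (PJ (mm g f) '' {J | Cov g f J}) := by
  classical
  ext c
  rw [mem_fib_iff h0]
  simp only [Set.mem_sUnion, Set.mem_image]
  constructor
  · rintro ⟨h1, h2⟩
    refine ⟨_, ⟨Finset.univ.filter fun j => c j = mm g f j, ?_, rfl⟩, h1, ?_⟩
    · intro x
      obtain ⟨j, hj, hj2⟩ := h2 x
      exact ⟨j, by simp [hj], hj2⟩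
    · intro j hj
      simpa using hj
  · rintro ⟨_, ⟨J, hJ, rfl⟩, h1, h2⟩
    refine ⟨h1, fun x => ?_⟩
    obtain ⟨j, hj, hj2⟩ := hJ x
    exact ⟨j, h2 j hj, hj2⟩

theorem fib_polyDim [NeZero l] [Nonempty Y] {g : Fin l → Y → ℝ} {f : Y → ℝ} {c0 : Fin l → ℝ}
    (h0 : Psi g c0 = f) : ∃ J, Cov g f J ∧ (∀ J', Cov g f J' → J.card ≤ J'.card) ∧
      PolyDim (fib g f) (l - J.card) := by
  classical
  have hc0 : c0 ∈ fib g f := h0
  rw [fib_eq h0] at hc0
  obtain ⟨_, ⟨J0, hJ0, rfl⟩, _⟩ := hc0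
  obtain ⟨J, hJ, hmin⟩ := Finset.exists_min_image
    (Finset.univ.filter fun J : Finset (Fin l) => Cov g f J) (fun J => J.card)
    ⟨J0, by simpa using hJ0⟩
  have hJ' : Cov g f J := by simpa using hJ
  have hmin' : ∀ J', Cov g f J' → J.card ≤ J'.card := fun J' h => hmin J' (by simpa using h)
  refine ⟨J, hJ', hmin', PJ (mm g f) '' {J | Cov g f J}, ?_, ?_, fib_eq h0, ?_⟩
  · exact (Set.toFinite _).image _
  · rintro _ ⟨J', _, rfl⟩
    exact ⟨PJ_polyhedron _ _, PJ_nonempty _ _⟩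
  · constructor
    · exact ⟨_, ⟨J, hJ', rfl⟩, PJ_finrank _ _⟩
    · rintro _ ⟨_, ⟨J', hJ'', rfl⟩, rfl⟩
      simp only [PJ_finrank]
      have := hmin' J' hJ''
      omega

theorem inSpan_self (g : Fin l → Y → ℝ) (j : Fin l) : InSpan g (g j) := by
  classical
  refine ⟨fun k => if k = j then ((0:ℝ) : WithTop ℝ) else ⊤, fun x => ?_⟩
  apply le_antisymm
  · apply Finset.le_inf
    intro k _
    by_cases hk : k = j
    · subst hk
      simp only [if_true]
      have : g k x ≤ g k x + 0 := by simp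
      exact_mod_cast this
    · simp [hk]
  · refine (Finset.inf_le (Finset.mem_univ j)).trans ?_
    simp only [if_true]
    have : g j x + 0 ≤ g j x := by simp
    exact_mod_cast this

theorem inSpan_Psi [NeZero l] (g : Fin l → Y → ℝ) (c : Fin l → ℝ) : InSpan g (Psi g c) := by
  refine ⟨fun k => ((c k : ℝ) : WithTop ℝ), fun x => ?_⟩
  apply le_antisymm
  · apply Finset.le_inf
    intro k _
    have := Psi_le g c x k
    beta_reduce
    exact_mod_cast this
  · obtain ⟨j, hj⟩ := exists_Psi_eq g c x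
    refine (Finset.inf_le (Finset.mem_univ j)).trans ?_
    rw [← hj]
    exact le_of_eq (by push_cast; rfl)

theorem exists_minor_of_min_cover [Nonempty Y] {g : Fin l → Y → ℝ} {f : Y → ℝ} {c0 : Fin l → ℝ}
    (h0 : Psi g c0 = f) {J : Finset (Fin l)} (hJ : Cov g f J)
    (hmin : ∀ J', Cov g f J' → J.card ≤ J'.card) :
    ∃ f' : Fin J.card → Y → ℝ, (∀ i, InSpan g (f' i)) ∧ Minor f' := by
  classical
  have h1 : ∀ j ∈ J, ∃ x, f x = g j x + mm g f j ∧
      ∀ j' ∈ J, j' ≠ j → f x ≠ g j' x + mm g f j' := by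
    intro j hj
    by_contra hcon
    push Not at hcon
    have : Cov g f (J.erase j) := by
      intro x
      obtain ⟨k, hk, hk2⟩ := hJ x
      by_cases hkj : k = j
      · subst hkj
        obtain ⟨j', hj', hne, heq⟩ := hcon x hk2
        exact ⟨j', Finset.mem_erase.2 ⟨hne, hj'⟩, heq⟩
      · exact ⟨k, Finset.mem_erase.2 ⟨hkj, hk⟩, hk2⟩
    have h2 := hmin _ this
    rw [Finset.card_erase_of_mem hj] at h2
    have : 0 < J.card := Finset.card_pos.2 ⟨j, hj⟩
    omega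
  choose! y hy1 hy2 using h1
  let e := J.equivFin.symm
  refine ⟨fun i => g (e i), fun i => inSpan_self g _, fun i => y (e i),
    fun i => mm g f (e i), fun i j hij => ?_⟩
  have hne : ((e i : J) : Fin l) ≠ (e j : J) := by
    intro h
    exact hij (e.injective (Subtype.ext h))
  have h3 := hy1 (e j) (e j).2
  have h4 := hy2 (e j) (e j).2 (e i) (e i).2 hne
  have h5 := le_mm h0 (e i) (y (e j))
  have h6 := lt_of_le_of_ne h5 h4
  simp only
  rw [← h3]
  exact h6

theorem exists_large_cover [NeZero l] {g : Fin l → Y → ℝ} {r : ℕ} {f : Fin r → Y → ℝ}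
    (hf : ∀ i, InSpan g (f i)) (hm : Minor f) :
    ∃ c, ∀ J, Cov g (Psi g c) J → r ≤ J.card := by
  classical
  rcases Nat.eq_zero_or_pos r with hr | hr
  · exact ⟨0, fun J _ => by omega⟩
  have : NeZero r := ⟨hr.ne'⟩
  obtain ⟨x, u, hx⟩ := hm
  choose a ha using hf
  -- real coefficients
  let A : Fin r → Fin l → ℝ := fun i k => (a i k).untopD (∑ j, |f i (x j) - g k (x j)|)
  have hA1 : ∀ i j k, f i (x j) ≤ g k (x j) + A i k := by
    intro i j k
    by_cases h : a i k = ⊤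
    · simp only [A, h, WithTop.untopD_top]
      have h1 : |f i (x j) - g k (x j)| ≤ ∑ j, |f i (x j) - g k (x j)| :=
        Finset.single_le_sum (f := fun j => |f i (x j) - g k (x j)|)
          (fun _ _ => abs_nonneg _) (Finset.mem_univ j)
      linarith [le_abs_self (f i (x j) - g k (x j))]
    · obtain ⟨b, hb⟩ := WithTop.ne_top_iff_exists.1 h
      simp only [A, ← hb, WithTop.untopD_coe]
      have h1 := ha i (x j)
      have h2 : ((f i (x j) : ℝ) : WithTop ℝ) ≤ ((g k (x j) : ℝ) : WithTop ℝ) + a i k := by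
        rw [h1]
        exact Finset.inf_le (f := fun k => ((g k (x j) : ℝ) : WithTop ℝ) + a i k)
          (Finset.mem_univ k)
      rw [← hb] at h2
      exact_mod_cast h2
  have hA2 : ∀ i j, ∃ k, f i (x j) = g k (x j) + A i k := by
    intro i j
    obtain ⟨k, -, hk⟩ := Finset.exists_mem_eq_inf Finset.univ ⟨0, Finset.mem_univ _⟩
      (fun k => ((g k (x j) : ℝ) : WithTop ℝ) + a i k)
    rw [← ha i (x j)] at hk
    refine ⟨k, ?_⟩
    have h : a i k ≠ ⊤ := by
      intro h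
      rw [h, WithTop.add_top] at hk
      exact WithTop.coe_ne_top hk
    obtain ⟨b, hb⟩ := WithTop.ne_top_iff_exists.1 h
    simp only [A, ← hb, WithTop.untopD_coe]
    rw [← hb] at hk
    exact_mod_cast hk
  -- the perturbation
  have h1 : ∀ᶠ δ in 𝓝[>] (0:ℝ), ∀ i j, i ≠ j →
      f j (x j) + u j + δ * (j : ℕ) < f i (x j) + u i + δ * (i : ℕ) := by
    rw [eventually_all]
    intro i
    rw [eventually_all]
    intro j
    by_cases hij : i = j
    · exact Eventually.of_forall fun δ h => absurd hij h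
    · have h2 : Tendsto (fun δ : ℝ => f i (x j) + u i + δ * (i : ℕ) -
          (f j (x j) + u j + δ * (j : ℕ))) (𝓝[>] 0)
          (𝓝 (f i (x j) + u i + 0 * (i : ℕ) - (f j (x j) + u j + 0 * (j : ℕ)))) := by
        apply Tendsto.mono_left _ nhdsWithin_le_nhds
        apply Continuous.tendsto
        fun_prop
      have h3 : 0 < f i (x j) + u i + 0 * (i : ℕ) - (f j (x j) + u j + 0 * (j : ℕ)) := by
        have := hx i j hij
        linarith
      filter_upwards [h2.eventually (lt_mem_nhds h3)] with δ hδ _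
      linarith
  obtain ⟨δ0, hδ0, hsub⟩ := mem_nhdsGT_iff_exists_Ioo_subset.1 h1
  let bad : Set ℝ := Set.range fun p : Fin r × Fin r × Fin l =>
    (g p.2.2 (x p.1) - g p.2.2 (x p.2.1) - (f p.1 (x p.1) + u p.1 -
      (f p.2.1 (x p.2.1) + u p.2.1))) / (((p.1 : ℕ) : ℝ) - ((p.2.1 : ℕ) : ℝ))
  have hbad : bad.Finite := Set.finite_range _
  obtain ⟨δ, hδ, hδb⟩ : ∃ δ ∈ Set.Ioo (0:ℝ) δ0, δ ∉ bad := by
    by_contra hcon
    push Not at hcon
    exact (Set.Ioo_infinite (show (0:ℝ) < δ0 from hδ0)) (hbad.subset hcon)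
  have hδ1 := hsub hδ
  have hδ1 : ∀ i j, i ≠ j →
      f j (x j) + u j + δ * (j : ℕ) < f i (x j) + u i + δ * (i : ℕ) := hδ1
  let b : Fin l → ℝ := fun k => ⨅ i, (A i k + (u i + δ * (i : ℕ)))
  have hval : ∀ j, Psi g b (x j) = f j (x j) + u j + δ * (j : ℕ) := by
    intro j
    apply le_antisymm
    · obtain ⟨k, hk⟩ := hA2 j j
      refine (Psi_le g b (x j) k).trans ?_
      have : b k ≤ A j k + (u j + δ * (j : ℕ)) := ciInf_le (Set.finite_range _).bddBelow j
      rw [hk]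
      linarith
    · apply le_ciInf
      intro k
      obtain ⟨i, hi⟩ : ∃ i, A i k + (u i + δ * (i : ℕ)) = b k := exists_eq_ciInf_of_finite
      rw [← hi]
      have h2 := hA1 i j k
      by_cases hij : i = j
      · subst hij; linarith
      · have := hδ1 i j hij
        linarith
  refine ⟨b, fun J hJ => ?_⟩
  by_contra hcon
  push Not at hcon
  -- pigeonhole
  choose φ hφ1 hφ2 using fun j => hJ (x j)
  obtain ⟨j, -, j', -, hne, heq⟩ := Finset.exists_ne_map_eq_of_card_lt_of_maps_to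
    (s := (Finset.univ : Finset (Fin r))) (t := J) (f := φ) (by simpa using hcon)
    (fun j _ => hφ1 j)
  apply hδb
  refine ⟨(j, j', φ j), ?_⟩
  have h2 := hφ2 j
  have h3 := hφ2 j'
  rw [← heq] at h3
  rw [hval] at h2 h3
  have h4 : (((j : ℕ) : ℝ) - ((j' : ℕ) : ℝ)) ≠ 0 := by
    rw [sub_ne_zero]
    intro h
    exact hne (Fin.ext (by exact_mod_cast h))
  simp only
  rw [div_eq_iff h4]
  linarith

/-- The main theorem: tropical rank equals dimension. -/
theorem main [NeZero l] [Nonempty Y] (g : Fin l → Y → ℝ) :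
    ∃ D : ℕ, IsGreatest {r : ℕ | ∃ f : Fin r → Y → ℝ, (∀ i, InSpan g (f i)) ∧ ¬ DepInf f} D ∧
      IsGreatest {d : ℕ | ∃ f k, InSpan g f ∧ PolyDim (fib g f) k ∧ d = l - k} D := by
  set A : Set ℕ := {r : ℕ | ∃ f : Fin r → Y → ℝ, (∀ i, InSpan g (f i)) ∧ ¬ DepInf f} with hA
  set B : Set ℕ := {d : ℕ | ∃ f k, InSpan g f ∧ PolyDim (fib g f) k ∧ d = l - k} with hB
  have hBA : ∀ d ∈ B, d ∈ A := by
    rintro d ⟨f, k, hf, hk, rfl⟩
    obtain ⟨Ps, hfin, hP, hS, hgr⟩ := id hk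
    obtain ⟨P, hP1, -⟩ := hgr.1
    obtain ⟨c0, hc0⟩ := (hP P hP1).2
    have h0 : Psi g c0 = f := by
      have : c0 ∈ fib g f := by
        rw [hS]; exact ⟨P, hP1, hc0⟩
      exact this
    obtain ⟨J, hJ, hmin, hdim⟩ := fib_polyDim h0
    have hk2 := hk.unique hdim
    have hcard : l - k = J.card := by
      have : J.card ≤ l := by simpa using Finset.card_le_univ J
      omega
    rw [hcard]
    obtain ⟨f', hf', hmf⟩ := exists_minor_of_min_cover h0 hJ hmin
    exact ⟨f', hf', not_depInf_of_minor hmf⟩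
  have hAB : ∀ r ∈ A, ∃ d ∈ B, r ≤ d := by
    rintro r ⟨f, hf, hdep⟩
    have hm : Minor f := by
      by_contra hm
      exact hdep (depInf_of_not_minor f hm)
    obtain ⟨c, hc⟩ := exists_large_cover hf hm
    obtain ⟨J, hJ, hmin, hdim⟩ := fib_polyDim (g := g) (c0 := c) rfl
    refine ⟨J.card, ⟨Psi g c, _, inSpan_Psi g c, hdim, ?_⟩, hc J hJ⟩
    have : J.card ≤ l := by simpa using Finset.card_le_univ J
    omega
  have hBne : B.Nonempty := by
    obtain ⟨d, hd, _⟩ := hAB 0 ⟨fun i => i.elim0, fun i => i.elim0, by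
      rintro ⟨c, ⟨i, _⟩, _⟩
      exact i.elim0⟩
    exact ⟨d, hd⟩
  have hBb : ∀ d ∈ B, d ≤ l := by
    rintro d ⟨f, k, hf, hk, rfl⟩
    omega
  obtain ⟨D, hD, hDmax⟩ : ∃ D ∈ B, ∀ d ∈ B, d ≤ D := by
    have hbdd : BddAbove B := ⟨l, hBb⟩
    exact ⟨sSup B, Nat.sSup_mem hBne hbdd, fun d hd => le_csSup hbdd hd⟩
  refine ⟨D, ⟨hBA D hD, fun r hr => ?_⟩, hD, hDmax⟩
  obtain ⟨d, hd, hrd⟩ := hAB r hr
  exact hrd.trans (hDmax d hd)

end Pool.Agent.X195.TR
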