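import Pool.Agent.X195.TR4

/-!
# Tropical rank versus dimension (MP_8916ec_co), part 5

Compact spaces with real coefficients, and the half line.
-/

namespace Pool.Agent.X195.TR

open Set Filter Topology

variable {Y : Type*} {l : ℕ}

theorem inSpan_le {g : Fin l → Y → ℝ} {f : Y → ℝ} {a : Fin l → WithTop ℝ}
    (ha : ∀ x, ((f x : ℝ) : WithTop ℝ) = Finset.univ.inf fun j => ((g j x : ℝ) : WithTop ℝ) + a j)
    {k : Fin l} {b : ℝ} (hb : (b : WithTop ℝ) = a k) (x : Y) : f x ≤ g k x + b := by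
  have h2 : ((f x : ℝ) : WithTop ℝ) ≤ ((g k x : ℝ) : WithTop ℝ) + a k := by
    rw [ha x]
    exact Finset.inf_le (f := fun k => ((g k x : ℝ) : WithTop ℝ) + a k) (Finset.mem_univ k)
  rw [← hb] at h2
  exact_mod_cast h2

theorem inSpan_eq [NeZero l] {g : Fin l → Y → ℝ} {f : Y → ℝ} {a : Fin l → WithTop ℝ}
    (ha : ∀ x, ((f x : ℝ) : WithTop ℝ) = Finset.univ.inf fun j => ((g j x : ℝ) : WithTop ℝ) + a j)
    (x : Y) : ∃ (k : Fin l) (b : ℝ), (b : WithTop ℝ) = a k ∧ f x = g k x + b := by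
  obtain ⟨k, -, hk⟩ := Finset.exists_mem_eq_inf Finset.univ ⟨0, Finset.mem_univ _⟩
    (fun k => ((g k x : ℝ) : WithTop ℝ) + a k)
  rw [← ha x] at hk
  have h : a k ≠ ⊤ := by
    intro h
    rw [h, WithTop.add_top] at hk
    exact WithTop.coe_ne_top hk
  obtain ⟨b, hb⟩ := WithTop.ne_top_iff_exists.1 h
  refine ⟨k, b, hb, ?_⟩
  rw [← hb] at hk
  exact_mod_cast hk

/-- With bounded differences, all finite-valued elements are values of `Ψ`. -/
theorem exists_Psi [NeZero l] [Nonempty Y] {g : Fin l → Y → ℝ} (C : ℝ)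
    (hC : ∀ i k x, g i x - g k x ≤ C) {f : Y → ℝ} (hf : InSpan g f) : ∃ c, Psi g c = f := by
  obtain ⟨a, ha⟩ := hf
  obtain ⟨x0⟩ := ‹Nonempty Y›
  obtain ⟨k0, b0, hb0, -⟩ := inSpan_eq ha x0
  refine ⟨fun k => (a k).untopD (C + b0), ?_⟩
  funext x
  apply le_antisymm
  · obtain ⟨k, b, hb, hk⟩ := inSpan_eq ha x
    refine (Psi_le g _ x k).trans ?_
    rw [hk, ← hb, WithTop.untopD_coe]
  · apply le_ciInf
    intro k
    beta_reduce
    by_cases hk : a k = ⊤
    · rw [hk, WithTop.untopD_top]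
      have h1 := inSpan_le ha hb0 x
      have h2 := hC k0 k x
      linarith
    · obtain ⟨b, hb⟩ := WithTop.ne_top_iff_exists.1 hk
      rw [← hb, WithTop.untopD_coe]
      exact inSpan_le ha hb x

theorem inSpan_bdd [NeZero l] [Nonempty Y] {g : Fin l → Y → ℝ} (C : ℝ)
    (hC : ∀ i k x, g i x - g k x ≤ C) {f f' : Y → ℝ} (hf : InSpan g f) (hf' : InSpan g f') :
    ∃ C', ∀ x, f x - f' x ≤ C' := by
  obtain ⟨c, rfl⟩ := exists_Psi C hC hf
  obtain ⟨c', rfl⟩ := exists_Psi C hC hf'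
  refine ⟨C + c 0 + ∑ k, |c' k|, fun x => ?_⟩
  obtain ⟨k, hk⟩ := exists_Psi_eq g c' x
  have h1 := Psi_le g c x 0
  have h2 : |c' k| ≤ ∑ k, |c' k| :=
    Finset.single_le_sum (f := fun k => |c' k|) (fun _ _ => abs_nonneg _) (Finset.mem_univ k)
  have h3 := neg_abs_le (c' k)
  have h4 := hC 0 k x
  linarith

theorem main_bdd [NeZero l] [Nonempty Y] (g : Fin l → Y → ℝ) (C : ℝ)
    (hC : ∀ i k x, g i x - g k x ≤ C) :
    (∀ f, InSpan g f → ∃! k, PolyDim (fib g f) k) ∧
    ∃ D : ℕ, IsGreatest {r : ℕ | ∃ f : Fin r → Y → ℝ, (∀ i, InSpan g (f i)) ∧ ¬ DepReal f} D ∧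
      IsGreatest {d : ℕ | ∃ f k, InSpan g f ∧ PolyDim (fib g f) k ∧ d = l - k} D := by
  refine ⟨fun f hf => ?_, ?_⟩
  · obtain ⟨c, hc⟩ := exists_Psi C hC hf
    obtain ⟨J, -, -, hJ⟩ := fib_polyDim hc
    exact ⟨_, hJ, fun k hk => hk.unique hJ⟩
  · obtain ⟨D, h1, h2⟩ := main g
    refine ⟨D, ?_, h2⟩
    have h3 : {r : ℕ | ∃ f : Fin r → Y → ℝ, (∀ i, InSpan g (f i)) ∧ ¬ DepReal f} =
        {r : ℕ | ∃ f : Fin r → Y → ℝ, (∀ i, InSpan g (f i)) ∧ ¬ DepInf f} := by
      ext r
      constructor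
      · rintro ⟨f, hf, hd⟩
        refine ⟨f, hf, fun h => hd ?_⟩
        choose C' hC' using fun p : Fin r × Fin r => inSpan_bdd C hC (hf p.1) (hf p.2)
        refine depReal_of_depInf (∑ p, |C' p|) (fun i k x => ?_) h
        have h4 : |C' (i, k)| ≤ ∑ p, |C' p| :=
          Finset.single_le_sum (f := fun p => |C' p|) (fun _ _ => abs_nonneg _)
            (Finset.mem_univ (i, k))
        have h5 := hC' (i, k) x
        have h6 := le_abs_self (C' (i, k))
        simp only at h5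
        linarith
      · rintro ⟨f, hf, hd⟩
        exact ⟨f, hf, fun h => hd (depInf_of_depReal h)⟩
    rw [h3]
    exact h1

theorem main_compact [NeZero l] [TopologicalSpace Y] [CompactSpace Y] [Nonempty Y]
    (g : Fin l → Y → ℝ) (hg : ∀ j, Continuous (g j)) :
    (∀ f, InSpan g f → ∃! k, PolyDim (fib g f) k) ∧
    ∃ D : ℕ, IsGreatest {r : ℕ | ∃ f : Fin r → Y → ℝ, (∀ i, InSpan g (f i)) ∧ ¬ DepReal f} D ∧
      IsGreatest {d : ℕ | ∃ f k, InSpan g f ∧ PolyDim (fib g f) k ∧ d = l - k} D := by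
  have h1 : ∀ p : Fin l × Fin l, ∃ C, ∀ x, g p.1 x - g p.2 x ≤ C := by
    intro p
    obtain ⟨C, hC⟩ := (isCompact_range ((hg p.1).sub (hg p.2))).bddAbove
    exact ⟨C, fun x => hC ⟨x, rfl⟩⟩
  choose C hC using h1
  refine main_bdd g (∑ p, |C p|) (fun i k x => ?_)
  have h4 : |C (i, k)| ≤ ∑ p, |C p| :=
    Finset.single_le_sum (f := fun p => |C p|) (fun _ _ => abs_nonneg _)
      (Finset.mem_univ (i, k))
  have h5 := hC (i, k) x
  have h6 := le_abs_self (C (i, k))
  simp only at h5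
  linarith

/-- generators on the half line -/
def gH : Fin 2 → Set.Ici (0:ℝ) → ℝ := ![fun _ => 0, fun x => - (x : ℝ)]

theorem half_indep (r : ℕ) : ∃ f : Fin r → Set.Ici (0:ℝ) → ℝ, Function.Injective f ∧
    (∀ i, InSpan gH (f i)) ∧ ¬ DepReal f := by
  match r with
  | 0 =>
    refine ⟨fun i => i.elim0, fun i => i.elim0, fun i => i.elim0, ?_⟩
    rintro ⟨c, hc⟩
    obtain ⟨i, _⟩ := hc ⟨0, by simp⟩
    exact i.elim0
  | n+1 =>
    refine ⟨fun i => if i = 0 then fun x => - (x : ℝ) else fun _ => ((i : ℕ) : ℝ), ?_, ?_, ?_⟩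
    · intro i j hij
      simp only at hij
      by_cases hi : i = 0 <;> by_cases hj : j = 0
      · rw [hi, hj]
      · rw [if_pos hi, if_neg hj] at hij
        have h0 := congrFun hij ⟨0, by simp⟩
        have h1 := congrFun hij ⟨1, by simp⟩
        simp only at h0 h1
        linarith
      · rw [if_neg hi, if_pos hj] at hij
        have h0 := congrFun hij ⟨0, by simp⟩
        have h1 := congrFun hij ⟨1, by simp⟩
        simp only at h0 h1
        linarith
      · rw [if_neg hi, if_neg hj] at hij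
        have h0 := congrFun hij ⟨0, by simp⟩
        exact Fin.ext (by exact_mod_cast h0)
    · intro i
      by_cases hi : i = 0
      · simp only [hi, if_true]
        exact inSpan_self gH 1
      · simp only [hi, if_false]
        refine ⟨![(((i : ℕ) : ℝ) : WithTop ℝ), ⊤], fun x => ?_⟩
        rw [show (Finset.univ : Finset (Fin 2)) = {0, 1} from rfl, Finset.inf_insert,
          Finset.inf_singleton]
        simp [gH]
    · rintro ⟨c, hc⟩
      let S : ℝ := ∑ k, |c k|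
      have hS : ∀ k, |c k| ≤ S := fun k =>
        Finset.single_le_sum (f := fun k => |c k|) (fun _ _ => abs_nonneg _) (Finset.mem_univ k)
      have hS0 : 0 ≤ S := (abs_nonneg _).trans (hS 0)
      have hx : (0:ℝ) ≤ 1 + 2 * S := by linarith
      obtain ⟨i, j, hij, heq, hle⟩ := hc ⟨1 + 2 * S, hx⟩
      have key : ∀ k : Fin (n+1), k ≠ 0 → -(1 + 2 * S) + c 0 < ((k : ℕ) : ℝ) + c k := by
        intro k hk
        have h1 := hS k
        have h2 := hS 0
        have h3 := neg_abs_le (c k)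
        have h4 := le_abs_self (c 0)
        have h5 : (0:ℝ) ≤ ((k : ℕ) : ℝ) := Nat.cast_nonneg _
        linarith
      by_cases hi : i = 0
      · have hj : j ≠ 0 := fun h => hij (hi.trans h.symm)
        have h1 := key j hj
        simp only [hi, hj, if_true, if_false] at heq
        linarith
      · have h1 := key i hi
        have h2 := hle 0
        simp only [hi, if_true, if_false] at h2
        linarith

theorem half_dim : IsGreatest {d : ℕ | ∃ f k, InSpan gH f ∧ PolyDim (fib gH f) k ∧ d = 2 - k} 2 := by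
  have : Nonempty (Set.Ici (0:ℝ)) := ⟨⟨0, by simp⟩⟩
  obtain ⟨D, h1, h2⟩ := main gH
  have hD : D = 2 := by
    apply le_antisymm
    · obtain ⟨f, k, hf, hk, hD⟩ := h2.1
      omega
    · apply h1.2
      refine ⟨gH, inSpan_self gH, not_depInf_of_minor ⟨![⟨0, by simp⟩, ⟨10, by simp⟩], ![0, 1], ?_⟩⟩
      intro i j hij
      fin_cases i <;> fin_cases j
      · exact absurd rfl hij
      · change -(10:ℝ) + 1 < 0 + 0
        norm_num
      · change (0:ℝ) + 0 < -(0:ℝ) + 1
        norm_num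
      · exact absurd rfl hij
  exact hD ▸ h2

end Pool.Agent.X195.TR
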