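import Mathlib

/-!
# A T0 space all of whose Scott open families of open sets are finitely generated

Shared by the results on (co-)consonance of the Smyth and lower powerspaces.
-/

open Set TopologicalSpace
open scoped Topology

namespace Pool.Agent.X195.ZSpace

/-- `U` is Scott open: an upper set such that every directed set whose supremum exists and lies
in `U` meets `U`. -/
def ScottOpen {P : Type*} [PartialOrder P] (U : Set P) : Prop :=
  (∀ x ∈ U, ∀ y, x ≤ y → y ∈ U) ∧
    ∀ D : Set P, D.Nonempty → DirectedOn (· ≤ ·) D → ∀ s, IsLUB D s → s ∈ U → ∃ d ∈ D, d ∈ U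

/-- Finitely generated families. -/
def FinGen {X : Type*} [TopologicalSpace X] (F : Set (Opens X)) : Prop :=
  ∀ U ∈ F, ∃ S : Set X, S.Finite ∧ S ⊆ (U : Set X) ∧ ∀ W : Opens X, S ⊆ (W : Set X) → W ∈ F

/-! ### The space -/

/-- The points of the space. -/
inductive Z : Type
  | x (n m : ℕ) : Z
  | y (g : ℕ → ℕ) : Z
  | b : Z

/-- The open sets of the space. -/
def ZOpen (W : Set Z) : Prop :=
  (∀ n m, Z.x n m ∈ W → (∀ m', m ≤ m' → Z.x n m' ∈ W) ∧ (∀ n', ∃ m', Z.x n' m' ∈ W) ∧
    ∀ g, Z.y g ∈ W) ∧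
  ∀ g, Z.y g ∈ W → ∃ k, ∀ g' : ℕ → ℕ, (∀ i < k, g' i ≤ g i) → Z.y g' ∈ W

instance zTopology : TopologicalSpace Z where
  IsOpen := ZOpen
  isOpen_univ := ⟨fun _ _ _ => ⟨fun _ _ => trivial, fun _ => ⟨0, trivial⟩, fun _ => trivial⟩,
    fun _ _ => ⟨0, fun _ _ => trivial⟩⟩
  isOpen_inter := by
    intro s t hs ht
    refine ⟨fun n m h => ⟨fun m' hm' => ⟨(hs.1 n m h.1).1 m' hm', (ht.1 n m h.2).1 m' hm'⟩,
      fun n' => ?_, fun g => ⟨(hs.1 n m h.1).2.2 g, (ht.1 n m h.2).2.2 g⟩⟩, fun g hg => ?_⟩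
    · obtain ⟨a, ha⟩ := (hs.1 n m h.1).2.1 n'
      obtain ⟨c, hc⟩ := (ht.1 n m h.2).2.1 n'
      exact ⟨max a c, (hs.1 n' a ha).1 _ (le_max_left _ _), (ht.1 n' c hc).1 _ (le_max_right _ _)⟩
    · obtain ⟨k, hk⟩ := hs.2 g hg.1
      obtain ⟨l, hl⟩ := ht.2 g hg.2
      exact ⟨max k l, fun g' hg' => ⟨hk g' fun i hi => hg' i (lt_max_of_lt_left hi),
        hl g' fun i hi => hg' i (lt_max_of_lt_right hi)⟩⟩
  isOpen_sUnion := by
    intro S hS
    refine ⟨fun n m h => ?_, fun g hg => ?_⟩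
    · obtain ⟨t, ht, hxt⟩ := h
      obtain ⟨h1, h2, h3⟩ := (hS t ht).1 n m hxt
      exact ⟨fun m' hm' => ⟨t, ht, h1 m' hm'⟩, fun n' => (h2 n').imp fun m' h => ⟨t, ht, h⟩,
        fun g => ⟨t, ht, h3 g⟩⟩
    · obtain ⟨t, ht, hgt⟩ := hg
      obtain ⟨k, hk⟩ := (hS t ht).2 g hgt
      exact ⟨k, fun g' hg' => ⟨t, ht, hk g' hg'⟩⟩

lemma z_isOpen {W : Set Z} : IsOpen W ↔ ZOpen W := Iff.rfl

/-- The open set given by `f` on the columns, everything on the functions, and `b` if `p`. -/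
def ux (p : Prop) (f : ℕ → ℕ) : Opens Z :=
  ⟨{z | match z with
    | Z.x n m => f n ≤ m
    | Z.y _ => True
    | Z.b => p}, by
    refine z_isOpen.2 ⟨fun n m h => ⟨fun m' hm' => le_trans (show f n ≤ m from h) hm',
      fun n' => ⟨f n', le_refl (f n')⟩, fun _ => trivial⟩, fun _ _ => ⟨0, fun _ _ => trivial⟩⟩⟩

@[simp] lemma x_mem_ux {p : Prop} {f : ℕ → ℕ} {n m : ℕ} : Z.x n m ∈ ux p f ↔ f n ≤ m := Iff.rfl
@[simp] lemma y_mem_ux {p : Prop} {f g : ℕ → ℕ} : Z.y g ∈ ux p f ↔ True := Iff.rfl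
@[simp] lemma b_mem_ux {p : Prop} {f : ℕ → ℕ} : Z.b ∈ ux p f ↔ p := Iff.rfl

/-- The open set without columns, `O` on the functions, and `b` if `p`. -/
def uy (p : Prop) (O : Set (ℕ → ℕ))
    (hO : ∀ g ∈ O, ∃ k, ∀ g' : ℕ → ℕ, (∀ i < k, g' i ≤ g i) → g' ∈ O) : Opens Z :=
  ⟨{z | match z with
    | Z.x _ _ => False
    | Z.y g => g ∈ O
    | Z.b => p}, z_isOpen.2 ⟨fun _ _ h => h.elim, fun g hg => hO g hg⟩⟩

@[simp] lemma x_mem_uy {p : Prop} {O : Set (ℕ → ℕ)} {hO} {n m : ℕ} :
    Z.x n m ∈ uy p O hO ↔ False := Iff.rfl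
@[simp] lemma y_mem_uy {p : Prop} {O : Set (ℕ → ℕ)} {hO} {g : ℕ → ℕ} :
    Z.y g ∈ uy p O hO ↔ g ∈ O := Iff.rfl
@[simp] lemma b_mem_uy {p : Prop} {O : Set (ℕ → ℕ)} {hO} : Z.b ∈ uy p O hO ↔ p := Iff.rfl

instance z_t0 : T0Space Z := by
  refine ⟨fun {a c} hac => ?_⟩
  have key : ∀ W : Opens Z, a ∈ W ↔ c ∈ W := fun W => hac.mem_open_iff W.2
  have hbox : ∀ (n v : ℕ), ∀ g ∈ {g : ℕ → ℕ | g n ≤ v}, ∃ k, ∀ g' : ℕ → ℕ,
      (∀ i < k, g' i ≤ g i) → g' ∈ {g : ℕ → ℕ | g n ≤ v} := fun n v g hg =>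
    ⟨n + 1, fun g' hg' => le_trans (hg' n (Nat.lt_succ_self n)) hg⟩
  cases a with
  | x n m =>
    cases c with
    | x n' m' =>
      have h1 := key (ux True fun i => if i = n then m else m' + 1)
      have h2 := key (ux True fun i => if i = n' then m' else m + 1)
      by_cases hn : n' = n
      · subst hn
        simp at h1 h2
        have : m = m' := le_antisymm h1 h2
        rw [this]
      · simp [hn] at h1
    | y g => exact absurd ((key (uy True univ fun _ _ => ⟨0, fun _ _ => trivial⟩)).2 trivial) id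
    | b => exact absurd ((key (uy True univ fun _ _ => ⟨0, fun _ _ => trivial⟩)).2 trivial) id
  | y g =>
    cases c with
    | x n' m' =>
      exact absurd ((key (uy True univ fun _ _ => ⟨0, fun _ _ => trivial⟩)).1 trivial) id
    | y g' =>
      congr 1
      funext n
      have h1 := key (uy True {h | h n ≤ g n} (hbox n (g n)))
      have h2 := key (uy True {h | h n ≤ g' n} (hbox n (g' n)))
      simp at h1 h2
      exact le_antisymm h2 h1
    | b => exact absurd ((key (uy False univ fun _ _ => ⟨0, fun _ _ => trivial⟩)).1 trivial) id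
  | b =>
    cases c with
    | x n' m' =>
      exact absurd ((key (uy True univ fun _ _ => ⟨0, fun _ _ => trivial⟩)).1 trivial) id
    | y g' =>
      exact absurd ((key (uy False univ fun _ _ => ⟨0, fun _ _ => trivial⟩)).2 trivial) id
    | b => rfl

/-- A Scott open family meets every increasing sequence whose union it contains. -/
lemma scott_seq {X : Type*} [TopologicalSpace X] {F : Set (Opens X)} (hF : ScottOpen F)
    (W : ℕ → Opens X) (hW : Monotone W) (U : Opens X) (hU : U ∈ F)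
    (hUW : ∀ z ∈ U, ∃ k, z ∈ W k) : ∃ k, W k ∈ F := by
  have h1 : (⨆ k, W k) ∈ F := by
    refine hF.1 U hU _ fun z hz => ?_
    obtain ⟨k, hk⟩ := hUW z hz
    exact Opens.mem_iSup.2 ⟨k, hk⟩
  obtain ⟨d, ⟨k, rfl⟩, hk⟩ := hF.2 (range W) (range_nonempty W)
    (by
      rintro _ ⟨i, rfl⟩ _ ⟨j, rfl⟩
      exact ⟨W (max i j), ⟨_, rfl⟩, hW (le_max_left _ _), hW (le_max_right _ _)⟩) _
    (isLUB_iSup (f := W)) h1
  exact ⟨k, hk⟩

/-- The open set used in the second case. -/
def dd (p : Prop) (T : Finset ((ℕ → ℕ) × ℕ)) (k : ℕ) (h : ℕ → ℕ) : Opens Z :=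
  uy p {g' | ∃ q ∈ T, (∀ i < q.2, g' i ≤ q.1 i) ∧ ∀ i, q.2 ≤ i → i < k → g' i ≤ h i} (by
    rintro g ⟨q, hq, h1, h2⟩
    refine ⟨q.2 + k, fun g' hg' => ⟨q, hq, fun i hi => (hg' i (by omega)).trans (h1 i hi),
      fun i hi hik => (hg' i (by omega)).trans (h2 i hi hik)⟩⟩)

lemma z_finGen (F : Set (Opens Z)) (hF : ScottOpen F) : FinGen F := by
  intro U hU
  by_cases hx : ∃ n m, Z.x n m ∈ U
  · -- the open set meets the columns
    obtain ⟨n0, m0, h0⟩ := hx
    have hzo := z_isOpen.1 U.2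
    obtain ⟨-, hcol, hy⟩ := hzo.1 n0 m0 h0
    classical
    let f : ℕ → ℕ := fun n => Nat.find (hcol n)
    have hf : ∀ n, Z.x n (f n) ∈ U := fun n => Nat.find_spec (hcol n)
    have hf' : ∀ n m, Z.x n m ∈ U ↔ f n ≤ m := fun n m =>
      ⟨fun h => Nat.find_min' (hcol n) h, fun h => (hzo.1 n _ (hf n)).1 m h⟩
    have claim : ∃ k, ∀ g : ℕ → ℕ, (∀ i < k, g i ≤ f i) → ux (Z.b ∈ U) g ∈ F := by
      by_contra hcon
      push Not at hcon
      choose h hh1 hh2 using hcon
      let H : ℕ → ℕ := fun n => max (f n) ((Finset.range (n + 1)).sup fun k => h k n)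
      let g : ℕ → ℕ → ℕ := fun k n => if n < k then f n else H n
      have hHf : ∀ n, f n ≤ H n := fun n => le_max_left _ _
      have hHh : ∀ n k, k ≤ n → h k n ≤ H n := fun n k hk =>
        le_trans (Finset.le_sup (f := fun k => h k n) (Finset.mem_range.2 (by omega)))
          (le_max_right _ _)
      obtain ⟨k, hk⟩ := scott_seq hF (fun k => ux (Z.b ∈ U) (g k)) (by
        intro k l hkl z hz
        cases z with
        | x n m =>
          simp only [x_mem_ux, g] at hz ⊢
          have := hHf n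
          split_ifs at hz ⊢ <;> omega
        | y _ => trivial
        | b => exact hz) U hU (by
        intro z hz
        cases z with
        | x n m =>
          refine ⟨n + 1, ?_⟩
          simp only [x_mem_ux, g]
          rw [if_pos (Nat.lt_succ_self n)]
          exact (hf' n m).1 hz
        | y _ => exact ⟨0, trivial⟩
        | b => exact ⟨0, hz⟩)
      refine hh2 k (hF.1 _ hk _ ?_)
      intro z hz
      cases z with
      | x n m =>
        simp only [x_mem_ux, g] at hz ⊢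
        split_ifs at hz with hnk
        · exact (hh1 k n hnk).trans hz
        · exact (hHh n k (by omega)).trans hz
      | y _ => trivial
      | b => exact hz
    obtain ⟨k, hk⟩ := claim
    refine ⟨(fun n => Z.x n (f n)) '' (Finset.range (k + 1) : Set ℕ) ∪ {z | z = Z.b ∧ Z.b ∈ U},
      ?_, ?_, ?_⟩
    · refine ((Finset.finite_toSet _).image _).union ((finite_singleton Z.b).subset ?_)
      rintro z ⟨hz, -⟩
      exact hz
    · rintro z (⟨n, -, rfl⟩ | ⟨rfl, h⟩)
      · exact hf n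
      · exact h
    · intro W hW
      have hW0 : Z.x 0 (f 0) ∈ W := hW (Or.inl ⟨0, by simp, rfl⟩)
      have hWo := z_isOpen.1 W.2
      obtain ⟨-, hcolW, hyW⟩ := hWo.1 _ _ hW0
      let g : ℕ → ℕ := fun n => if n < k then f n else Nat.find (hcolW n)
      have hg : ∀ n, Z.x n (g n) ∈ W := by
        intro n
        by_cases hnk : n < k
        · have : g n = f n := if_pos hnk
          rw [this]
          exact hW (Or.inl ⟨n, by simp; omega, rfl⟩)
        · have : g n = Nat.find (hcolW n) := if_neg hnk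
          rw [this]
          exact Nat.find_spec (hcolW n)
      refine hF.1 _ (hk g fun i hi => le_of_eq (if_pos hi)) W ?_
      intro z hz
      cases z with
      | x n m => exact (hWo.1 n _ (hg n)).1 m hz
      | y g' => exact hyW g'
      | b => exact hW (Or.inr ⟨rfl, hz⟩)
  · -- the open set misses the columns
    push Not at hx
    have hUo := z_isOpen.1 U.2
    -- a finite union of boxes is in the family
    have step0 : ∃ T : Finset ((ℕ → ℕ) × ℕ),
        (∀ q ∈ T, ∀ g' : ℕ → ℕ, (∀ i < q.2, g' i ≤ q.1 i) → Z.y g' ∈ U) ∧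
          ∀ h, dd (Z.b ∈ U) T 0 h ∈ F := by
      let D : Set (Opens Z) := {W | ∃ T : Finset ((ℕ → ℕ) × ℕ),
        (∀ q ∈ T, ∀ g' : ℕ → ℕ, (∀ i < q.2, g' i ≤ q.1 i) → Z.y g' ∈ U) ∧
          W = dd (Z.b ∈ U) T 0 0}
      obtain ⟨d, ⟨T, hT, rfl⟩, hd⟩ := hF.2 D ⟨_, ∅, by simp, rfl⟩ (by
        classical
        rintro _ ⟨T1, h1, rfl⟩ _ ⟨T2, h2, rfl⟩
        refine ⟨_, ⟨T1 ∪ T2, fun q hq => ?_, rfl⟩, ?_, ?_⟩
        · rcases Finset.mem_union.1 hq with h | h
          exacts [h1 q h, h2 q h]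
        · intro z hz
          cases z with
          | x _ _ => exact hz
          | y g =>
            obtain ⟨q, hq, hq'⟩ := hz
            exact ⟨q, Finset.mem_union_left _ hq, hq'⟩
          | b => exact hz
        · intro z hz
          cases z with
          | x _ _ => exact hz
          | y g =>
            obtain ⟨q, hq, hq'⟩ := hz
            exact ⟨q, Finset.mem_union_right _ hq, hq'⟩
          | b => exact hz) (sSup D) (isLUB_sSup D) (by
        refine hF.1 U hU _ fun z hz => ?_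
        cases z with
        | x n m => exact absurd hz (hx n m)
        | y g =>
          obtain ⟨k, hk⟩ := hUo.2 g hz
          refine Opens.mem_sSup.2 ⟨_, ⟨{(g, k)}, ?_, rfl⟩, ?_⟩
          · intro q hq g' hg'
            rw [Finset.mem_singleton] at hq
            subst hq
            exact hk g' hg'
          · exact ⟨(g, k), Finset.mem_singleton_self _, fun _ _ => le_refl _,
              fun i _ hi => absurd hi (Nat.not_lt_zero i)⟩
        | b => exact Opens.mem_sSup.2 ⟨_, ⟨∅, by simp, rfl⟩, hz⟩)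
      refine ⟨T, hT, fun h => ?_⟩
      have : dd (Z.b ∈ U) T 0 h = dd (Z.b ∈ U) T 0 0 := by
        ext z
        cases z with
        | x _ _ => exact Iff.rfl
        | y g =>
          constructor
          · rintro ⟨q, hq, h1, -⟩
            exact ⟨q, hq, h1, fun i _ hi => absurd hi (Nat.not_lt_zero i)⟩
          · rintro ⟨q, hq, h1, -⟩
            exact ⟨q, hq, h1, fun i _ hi => absurd hi (Nat.not_lt_zero i)⟩
        | b => exact Iff.rfl
      rw [this]
      exact hd
    obtain ⟨T, hT, hT0⟩ := step0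
    -- extend one coordinate at a time
    have step : ∀ k (h : ℕ → ℕ), dd (Z.b ∈ U) T k h ∈ F →
        ∃ h' : ℕ → ℕ, dd (Z.b ∈ U) T (k + 1) h' ∈ F ∧ ∀ i < k, h' i = h i := by
      intro k h hkh
      obtain ⟨m, hm⟩ := scott_seq hF (fun m => dd (Z.b ∈ U) T (k + 1) (Function.update h k m)) (by
        intro m l hml z hz
        cases z with
        | x _ _ => exact hz
        | y g =>
          obtain ⟨q, hq, h1, h2⟩ := hz
          refine ⟨q, hq, h1, fun i hi hik => (h2 i hi hik).trans ?_⟩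
          by_cases hik' : i = k
          · subst hik'
            simpa using hml
          · simp [hik']
        | b => exact hz) _ hkh (by
        intro z hz
        cases z with
        | x _ _ => exact ⟨0, hz⟩
        | y g =>
          obtain ⟨q, hq, h1, h2⟩ := hz
          refine ⟨g k, q, hq, h1, fun i hi hik => ?_⟩
          by_cases hik' : i = k
          · subst hik'
            simp
          · rw [Function.update_of_ne hik']
            exact h2 i hi (by omega)
        | b => exact ⟨0, hz⟩)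
      exact ⟨_, hm, fun i hi => Function.update_of_ne (by omega) _ _⟩
    choose! nxt hnxt1 hnxt2 using step
    let hs : ℕ → ℕ → ℕ := fun k => Nat.rec (fun _ => 0) (fun k h => nxt k h) k
    have hs0 : ∀ k, dd (Z.b ∈ U) T k (hs k) ∈ F := by
      intro k
      induction k with
      | zero => exact hT0 _
      | succ k ih => exact hnxt1 k _ ih
    have hs1 : ∀ k i, i < k → hs (k + 1) i = hs k i := fun k i hi => hnxt2 k _ (hs0 k) i hi
    let h : ℕ → ℕ := fun i => hs (i + 1) i
    have hh : ∀ k i, i < k → hs k i = h i := by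
      intro k i hi
      induction k with
      | zero => omega
      | succ k ih =>
        by_cases hik : i = k
        · subst hik
          rfl
        · rw [hs1 k i (by omega)]
          exact ih (by omega)
    have hh0 : ∀ k, dd (Z.b ∈ U) T k h ∈ F := by
      intro k
      refine hF.1 _ (hs0 k) _ fun z hz => ?_
      cases z with
      | x _ _ => exact hz
      | y g =>
        obtain ⟨q, hq, h1, h2⟩ := hz
        refine ⟨q, hq, h1, fun i hi hik => ?_⟩
        rw [← hh k i hik]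
        exact h2 i hi hik
      | b => exact hz
    -- the finite set
    let ext : (ℕ → ℕ) × ℕ → Z := fun q => Z.y fun i => if i < q.2 then q.1 i else h i
    refine ⟨ext '' (T : Set ((ℕ → ℕ) × ℕ)) ∪ {z | z = Z.b ∧ Z.b ∈ U}, ?_, ?_, ?_⟩
    · refine ((Finset.finite_toSet T).image _).union ((finite_singleton Z.b).subset ?_)
      rintro z ⟨hz, -⟩
      exact hz
    · rintro z (⟨q, hq, rfl⟩ | ⟨rfl, h⟩)
      · refine hT q hq _ fun i hi => ?_
        rw [if_pos hi]
      · exact h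
    · intro W hW
      have hWo := z_isOpen.1 W.2
      have hk : ∀ q ∈ T, ∃ k, ∀ g' : ℕ → ℕ,
          (∀ i < k, g' i ≤ if i < q.2 then q.1 i else h i) → Z.y g' ∈ W := fun q hq =>
        hWo.2 _ (hW (Or.inl ⟨q, hq, rfl⟩))
      choose! kk hkk using hk
      refine hF.1 _ (hh0 (T.sup kk)) W fun z hz => ?_
      cases z with
      | x _ _ => exact hz.elim
      | y g =>
        obtain ⟨q, hq, h1, h2⟩ := hz
        refine hkk q hq g fun i hi => ?_
        have hi' : i < T.sup kk := lt_of_lt_of_le hi (Finset.le_sup hq)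
        split_ifs with hiq
        · exact h1 i hiq
        · exact h2 i (by omega) hi'
      | b => exact hW (Or.inr ⟨rfl, hz⟩)

lemma boxO (N J : ℕ) : ∀ g ∈ {g : ℕ → ℕ | g N ≤ J}, ∃ k, ∀ g' : ℕ → ℕ,
    (∀ i < k, g' i ≤ g i) → g' ∈ {g : ℕ → ℕ | g N ≤ J} := fun _ hg =>
  ⟨N + 1, fun _ hg' => le_trans (hg' N (Nat.lt_succ_self N)) hg⟩


/-- Consonance, in the form used by the frozen statements. -/
def Cons (Y : Type) (t : TopologicalSpace Y) : Prop :=
  ∀ F : Set (Set Y), (∀ U ∈ F, @IsOpen Y t U) →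
    (∀ U V : Set Y, U ∈ F → @IsOpen Y t V → U ⊆ V → V ∈ F) →
    (∀ D : Set (Set Y), D.Nonempty → (∀ U ∈ D, @IsOpen Y t U) →
        DirectedOn (· ⊆ ·) D → ⋃₀ D ∈ F → ∃ U ∈ D, U ∈ F) →
    ∀ U ∈ F, ∃ K : Set Y, @IsCompact Y t K ∧ K ⊆ U ∧
      ∀ V : Set Y, @IsOpen Y t V → K ⊆ V → V ∈ F

lemma z_cons : Cons Z zTopology := by
  intro F hFo hFu hFd U hU
  let G : Set (Opens Z) := {W | (W : Set Z) ∈ F}
  have hG : ScottOpen G := by
    refine ⟨fun W hW W' hle => hFu _ _ hW W'.2 hle, ?_⟩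
    intro D hD hdir s hs hsG
    have hs' : s = sSup D := hs.unique (isLUB_sSup D)
    have hcoe : (s : Set Z) = ⋃₀ ((fun W : Opens Z => (W : Set Z)) '' D) := by
      rw [hs']
      ext z
      simp only [SetLike.mem_coe, Opens.mem_sSup, mem_sUnion, mem_image, exists_exists_and_eq_and]
    obtain ⟨V, ⟨W, hW, rfl⟩, hV⟩ := hFd ((fun W : Opens Z => (W : Set Z)) '' D) (hD.image _)
      (by
        rintro _ ⟨W, -, rfl⟩
        exact W.2)
      (by
        rintro _ ⟨W, hW, rfl⟩ _ ⟨W', hW', rfl⟩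
        obtain ⟨W'', h1, h2, h3⟩ := hdir W hW W' hW'
        exact ⟨_, ⟨W'', h1, rfl⟩, h2, h3⟩)
      (by
        rw [← hcoe]
        exact hsG)
    exact ⟨W, hW, hV⟩
  obtain ⟨S, hS, hSU, hSW⟩ := z_finGen G hG ⟨U, hFo U hU⟩ hU
  exact ⟨S, hS.isCompact, hSU, fun V hV hSV => hSW ⟨V, hV⟩ hSV⟩

end Pool.Agent.X195.ZSpace
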